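import Pool.Agent.H6.OWN.AflR

/-!
# Affine labels of a zoom in the coordinates of the family

`AfZ`: an affine closed label in the zoom, for all times of the window, with the relation of the
slopes. `AfF`: the same in the coordinates of the family. `AfZ.fam`: the first one implies the
second one.
-/

set_option autoImplicit false

namespace Pool.MIC6

open Finset MvPolynomial
open Pool.Agent.H49.Ent Pool.Agent.H32.Dense Pool.STK Pool.KA Pool.KSAT Pool.K2S Pool.PB Pool.GEN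
open Pool.FLF (Fam.sub)
open Pool.GRD (LbP)
open Pool.REX (zm zmV zmV_Z zmV_T zm_T T1_add zm_T1)

variable {m n J : ℕ}

/-- **Affine closed labels in a zoom**, with their codes. -/
def AfC (F : Fam m J) {B P : ℕ} (hP : P ≤ J - B) {Y : Type} (yy : F.Ω → Y) (ε : Fin n → Fin m)
    (κ ι k : Fin n) (w Q q e : ℕ) (au av : PtT F → ℝ) (A : F.Ω → Prop) {V : Type}
    (zp : PtT (zmV F hP yy ε) → V) (zs : LnT (zmV F hP yy ε) → V) (cf : V → Fin 4 → ℝ) : Prop :=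
  LbP (zmV F hP yy ε) {κ, ι} k 1 (J - B - P) w Q A zp zs
      (fun x => afq κ ι (cf x 0) (cf x 1) (cf x 2) (cf x 3)) ∧
    ∀ ω, A ω → |cf (zs (slam (zmV F hP yy ε) w ω)) 3| ≤ 2 ^ e ∧
      |cf (zs (slam (zmV F hP yy ε) w ω)) 2 + cf (zs (slam (zmV F hP yy ε) w ω)) 3 *
        au (ptr F J ω) - av (ptr F J ω)| ≤ 1 / 2 ^ q ∧
      ∀ σ ∈ Set.Icc (0 : ℝ) 1, |wp (zmV F hP yy ε) w ω σ k -
        eval (wpt (zmV F hP yy ε) w ω σ) (afq κ ι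
          (cf (zs (slam (zmV F hP yy ε) w ω)) 0) (cf (zs (slam (zmV F hP yy ε) w ω)) 1)
          (cf (zs (slam (zmV F hP yy ε) w ω)) 2) (cf (zs (slam (zmV F hP yy ε) w ω)) 3))| ≤
        1 / 2 ^ Q

theorem AfC.sub {F : Fam m J} {B P : ℕ} {hP : P ≤ J - B} {Y : Type} {yy : F.Ω → Y}
    {ε : Fin n → Fin m} {κ ι k : Fin n} {w Q q e : ℕ} {au av : PtT F → ℝ} {A A' : F.Ω → Prop}
    {V : Type} {zp : PtT (zmV F hP yy ε) → V} {zs : LnT (zmV F hP yy ε) → V}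
    {cf : V → Fin 4 → ℝ} (h : AfC F hP yy ε κ ι k w Q q e au av A zp zs cf) (hA : Sub A' A) :
    AfC F hP yy ε κ ι k w Q q e au av A' zp zs cf :=
  ⟨h.1.sub hA, fun ω hω => h.2 ω (hA ω hω)⟩

/-- **Affine closed labels in a zoom.** -/
def AfZ (F : Fam m J) {B P : ℕ} (hP : P ≤ J - B) {Y : Type} (yy : F.Ω → Y) (ε : Fin n → Fin m)
    (κ ι k : Fin n) (w Q q e : ℕ) (au av : PtT F → ℝ) (A : F.Ω → Prop) : Prop :=
  ∃ (V : Type) (zp : PtT (zmV F hP yy ε) → V) (zs : LnT (zmV F hP yy ε) → V)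
    (cf : V → Fin 4 → ℝ), AfC F hP yy ε κ ι k w Q q e au av A zp zs cf

/-- **Affine closed labels of a zoom, in the coordinates of the family**, with their codes. -/
def AfG (F : Fam m J) {B P : ℕ} (hP : P ≤ J - B) {Y : Type} (yy : F.Ω → Y) (ε : Fin n → Fin m)
    (κ ι k : Fin n) (w Q q e : ℕ) (au av : PtT F → ℝ) (A : F.Ω → Prop) {V : Type}
    (zp : PtT (zmV F hP yy ε) → V) (zs : LnT (zmV F hP yy ε) → V) (cf : V → Fin 4 → ℝ) : Prop :=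
  ∀ ω, A ω →
      zp (ptr (zmV F hP yy ε) (J - B - P) ω) = zs (slam (zmV F hP yy ε) w ω) ∧
      |cf (zs (slam (zmV F hP yy ε) w ω)) 3| ≤ 2 ^ e ∧
      |cf (zs (slam (zmV F hP yy ε) w ω)) 2 + cf (zs (slam (zmV F hP yy ε) w ω)) 3 *
        au (ptr F J ω) - av (ptr F J ω)| ≤ 1 / 2 ^ q ∧
      ∀ σ ∈ Set.Icc (0 : ℝ) 1, |wp F (B + w) ω σ (ε k) -
        eval (wpt F (B + w) ω σ) (afq (ε κ) (ε ι)
          (cf (zs (slam (zmV F hP yy ε) w ω)) 0) (cf (zs (slam (zmV F hP yy ε) w ω)) 1)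
          (cf (zs (slam (zmV F hP yy ε) w ω)) 2) (cf (zs (slam (zmV F hP yy ε) w ω)) 3))| ≤
        1 / 2 ^ (B + P + Q)

/-- **Affine closed labels of a zoom, in the coordinates of the family.** -/
def AfF (F : Fam m J) {B P : ℕ} (hP : P ≤ J - B) {Y : Type} (yy : F.Ω → Y) (ε : Fin n → Fin m)
    (κ ι k : Fin n) (w Q q e : ℕ) (au av : PtT F → ℝ) (A : F.Ω → Prop) : Prop :=
  ∃ (V : Type) (zp : PtT (zmV F hP yy ε) → V) (zs : LnT (zmV F hP yy ε) → V)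
    (cf : V → Fin 4 → ℝ), AfG F hP yy ε κ ι k w Q q e au av A zp zs cf

/-- The times in the zoom. -/
theorem zmV_wt (F : Fam m J) {B P : ℕ} (hP : P ≤ J - B) {Y : Type} (yy : F.Ω → Y)
    (ε : Fin n → Fin m) (hB : B ≤ J) {w : ℕ} (hw : w ≤ J - B - P) (ω : F.Ω) (σ : ℝ) :
    wt (zmV F hP yy ε) w ω σ = 2 ^ B * wt F (B + w) ω σ - F.T1 B ω := by
  have h1 : (slam F (B + w) ω).2.2 = 2 ^ w * F.T1 B ω +
      F.T ω % 2 ^ (J - B) / 2 ^ (J - B - w) := T1_add F (by omega) hB ω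
  have h2 : (slam (zmV F hP yy ε) w ω).2.2 = F.T ω % 2 ^ (J - B) / 2 ^ (J - B - w) :=
    zm_T1 F hP yy hw ω
  unfold wt
  rw [h1, h2]
  push_cast
  rw [pow_add]
  field_simp
  ring

/-- The lines in the zoom. -/
theorem zmV_wp (F : Fam m J) {B P : ℕ} (hP : P ≤ J - B) {Y : Type} (yy : F.Ω → Y)
    (ε : Fin n → Fin m) (hB : B ≤ J) {w : ℕ} (hw : w ≤ J - B - P) (ω : F.Ω) (σ : ℝ) (j : Fin n) :
    wp (zmV F hP yy ε) w ω σ j = 2 ^ (B + P) * wp F (B + w) ω σ (ε j) -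
      (2 ^ P * (fl B (F.x1 B ω) (ε j) : ℝ) + (((F.win B).L P ω).1 (ε j) : ℝ) +
        (((F.win B).L P ω).2 (ε j) : ℝ) * wt (zmV F hP yy ε) w ω σ) := by
  have hd : (zmV F hP yy ε).d ω j = 2 ^ P * F.d ω (ε j) - (((F.win B).L P ω).2 (ε j) : ℝ) :=
    zmV_d F hP yy ε ω j
  have hu : (zmV F hP yy ε).u ω j = 2 ^ P * (2 ^ B * F.x1 B ω (ε j) -
      (fl B (F.x1 B ω) (ε j) : ℝ)) - (((F.win B).L P ω).1 (ε j) : ℝ) := by
    show Int.fract (2 ^ P * Int.fract (2 ^ B * F.x1 B ω (ε j))) = 2 ^ P * (2 ^ B *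
      F.x1 B ω (ε j) - (⌊(2 : ℝ) ^ B * F.x1 B ω (ε j)⌋ : ℝ)) -
      (⌊(2 : ℝ) ^ P * Int.fract (2 ^ B * F.x1 B ω (ε j))⌋ : ℝ)
    rfl
  have ht := zmV_wt F hP yy ε hB hw ω σ
  have hx : F.x1 B ω (ε j) = F.u ω (ε j) + (F.T1 B ω : ℝ) / 2 ^ B * F.d ω (ε j) := rfl
  have e1 : wp (zmV F hP yy ε) w ω σ j = (zmV F hP yy ε).u ω j +
    (zmV F hP yy ε).d ω j * wt (zmV F hP yy ε) w ω σ := rfl
  have e2 : wp F (B + w) ω σ (ε j) = F.u ω (ε j) + F.d ω (ε j) * wt F (B + w) ω σ := rfl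
  have e3 : wt F (B + w) ω σ = (F.T1 B ω + wt (zmV F hP yy ε) w ω σ) / 2 ^ B := by
    rw [ht]
    field_simp
    ring
  rw [e1, hu, hd, e2, e3, hx, pow_add]
  field_simp
  ring

/-- **The coordinates of the family**, with the codes. -/
theorem AfC.fam {F : Fam m J} {B P : ℕ} {hP : P ≤ J - B} {Y : Type} {yy : F.Ω → Y}
    {ε : Fin n → Fin m} {κ ι k : Fin n} {w Q q e : ℕ} {au av : PtT F → ℝ} {A : F.Ω → Prop}
    {V : Type} {zp : PtT (zmV F hP yy ε) → V} {zs : LnT (zmV F hP yy ε) → V}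
    {cf : V → Fin 4 → ℝ} (h : AfC F hP yy ε κ ι k w Q q e au av A zp zs cf) (hB : B ≤ J)
    (hw : w ≤ J - B - P) :
    ∃ (V' : Type) (zp' : PtT (zmV F hP yy ε) → V') (zs' : LnT (zmV F hP yy ε) → V')
      (cF : V' → Fin 4 → ℝ), AfG F hP yy ε κ ι k w Q q e au av A zp' zs' cF ∧
      (∀ x, cF (zs' x) 2 = cf (zs x) 2) ∧ ∀ x, cF (zs' x) 3 = cf (zs x) 3 := by
  obtain ⟨h1, h2⟩ := h
  obtain ⟨g, hg⟩ : ∃ g : (zmV F hP yy ε).ζ → Fin n → ℝ, g = fun z j =>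
    2 ^ P * ((z.2.2.1.2 (ε j) : ℤ) : ℝ) + ((z.1.1 j : ℤ) : ℝ) := ⟨_, rfl⟩
  obtain ⟨cF, hcF⟩ : ∃ cF : V × (zmV F hP yy ε).ζ → Fin 4 → ℝ, cF = fun x =>
    ![(cf x.1 0 + g x.2 k - cf x.1 2 * g x.2 κ - cf x.1 3 * g x.2 ι - (cf x.1 1 +
        ((x.2.1.2 k : ℤ) : ℝ) - cf x.1 2 * ((x.2.1.2 κ : ℤ) : ℝ) -
        cf x.1 3 * ((x.2.1.2 ι : ℤ) : ℝ)) * (x.2.2.2.1.1 : ℝ)) / 2 ^ (B + P),
      (cf x.1 1 + ((x.2.1.2 k : ℤ) : ℝ) - cf x.1 2 * ((x.2.1.2 κ : ℤ) : ℝ) -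
        cf x.1 3 * ((x.2.1.2 ι : ℤ) : ℝ)) / 2 ^ P, cf x.1 2, cf x.1 3] := ⟨_, rfl⟩
  refine ⟨V × (zmV F hP yy ε).ζ, fun p => (zp p, p.2.2), fun s => (zs s, s.2.1), cF,
    fun ω hω => ?_, fun x => by rw [hcF]; rfl, fun x => by rw [hcF]; rfl⟩
  obtain ⟨k1, k2, k3⟩ := h2 ω hω
  have hZ : (slam (zmV F hP yy ε) w ω).2.1 = (zmV F hP yy ε).Z ω := rfl
  refine ⟨?_, ?_, ?_, fun σ hσ => ?_⟩
  · show (zp (ptr (zmV F hP yy ε) (J - B - P) ω), (zmV F hP yy ε).Z ω) =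
      (zs (slam (zmV F hP yy ε) w ω), (zmV F hP yy ε).Z ω)
    rw [h1.cls ω hω]
  · rw [hcF]
    exact k1
  · rw [hcF]
    exact k2
  · have k4 := k3 σ hσ
    obtain ⟨c, hc⟩ : ∃ c, c = cf (zs (slam (zmV F hP yy ε) w ω)) := ⟨_, rfl⟩
    rw [← hc, eval_afq] at k4
    have e0 : ∀ i, cF (zs (slam (zmV F hP yy ε) w ω), (slam (zmV F hP yy ε) w ω).2.1) i =
      (![(c 0 + g ((zmV F hP yy ε).Z ω) k - c 2 * g ((zmV F hP yy ε).Z ω) κ -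
        c 3 * g ((zmV F hP yy ε).Z ω) ι - (c 1 +
        (((F.win B).L P ω).2 (ε k) : ℝ) - c 2 * (((F.win B).L P ω).2 (ε κ) : ℝ) -
        c 3 * (((F.win B).L P ω).2 (ε ι) : ℝ)) * (F.T1 B ω : ℝ)) / 2 ^ (B + P),
      (c 1 + (((F.win B).L P ω).2 (ε k) : ℝ) - c 2 * (((F.win B).L P ω).2 (ε κ) : ℝ) -
        c 3 * (((F.win B).L P ω).2 (ε ι) : ℝ)) / 2 ^ P, c 2, c 3] : Fin 4 → ℝ) i := by
      intro i
      rw [hcF, hc]
      rfl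
    have hgj : ∀ j, g ((zmV F hP yy ε).Z ω) j = 2 ^ P * (fl B (F.x1 B ω) (ε j) : ℝ) +
        (((F.win B).L P ω).1 (ε j) : ℝ) := fun j => by rw [hg]; rfl
    show |wp F (B + w) ω σ (ε k) - eval (wpt F (B + w) ω σ) (afq (ε κ) (ε ι)
      (cF (zs (slam (zmV F hP yy ε) w ω), (slam (zmV F hP yy ε) w ω).2.1) 0)
      (cF (zs (slam (zmV F hP yy ε) w ω), (slam (zmV F hP yy ε) w ω).2.1) 1)
      (cF (zs (slam (zmV F hP yy ε) w ω), (slam (zmV F hP yy ε) w ω).2.1) 2)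
      (cF (zs (slam (zmV F hP yy ε) w ω), (slam (zmV F hP yy ε) w ω).2.1) 3))| ≤ _
    rw [e0, e0, e0, e0, eval_afq]
    have n1 : wpt (zmV F hP yy ε) w ω σ none = wt (zmV F hP yy ε) w ω σ := rfl
    have n2 : ∀ j, wpt (zmV F hP yy ε) w ω σ (some j) = wp (zmV F hP yy ε) w ω σ j :=
      fun _ => rfl
    have n3 : wpt F (B + w) ω σ none = wt F (B + w) ω σ := rfl
    have n4 : ∀ j, wpt F (B + w) ω σ (some j) = wp F (B + w) ω σ j := fun _ => rfl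
    rw [n1, n2, n2, zmV_wp F hP yy ε hB hw ω σ k, zmV_wp F hP yy ε hB hw ω σ κ,
      zmV_wp F hP yy ε hB hw ω σ ι, ← hgj, ← hgj, ← hgj, zmV_wt F hP yy ε hB hw ω σ] at k4
    rw [n3, n4, n4]
    show |wp F (B + w) ω σ (ε k) - ((c 0 + g ((zmV F hP yy ε).Z ω) k -
      c 2 * g ((zmV F hP yy ε).Z ω) κ - c 3 * g ((zmV F hP yy ε).Z ω) ι - (c 1 +
      (((F.win B).L P ω).2 (ε k) : ℝ) - c 2 * (((F.win B).L P ω).2 (ε κ) : ℝ) -
      c 3 * (((F.win B).L P ω).2 (ε ι) : ℝ)) * (F.T1 B ω : ℝ)) / 2 ^ (B + P) +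
      ((c 1 + (((F.win B).L P ω).2 (ε k) : ℝ) - c 2 * (((F.win B).L P ω).2 (ε κ) : ℝ) -
        c 3 * (((F.win B).L P ω).2 (ε ι) : ℝ)) / 2 ^ P * wt F (B + w) ω σ +
      (c 2 * wp F (B + w) ω σ (ε κ) + c 3 * wp F (B + w) ω σ (ε ι))))| ≤ _
    have hP2 : (0 : ℝ) < 2 ^ (B + P) := by positivity
    have e5 : (1 : ℝ) / 2 ^ (B + P + Q) = 1 / 2 ^ Q / 2 ^ (B + P) := by
      rw [pow_add 2 (B + P) Q]
      field_simp
    rw [e5, le_div_iff₀ hP2, ← abs_of_pos hP2, ← abs_mul, abs_of_pos hP2]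
    refine le_trans (le_of_eq ?_) k4
    congr 1
    have e6 : (2 : ℝ) ^ (B + P) = 2 ^ B * 2 ^ P := pow_add 2 B P
    rw [e6]
    field_simp
    ring

/-- **The coordinates of the family.** -/
theorem AfZ.fam {F : Fam m J} {B P : ℕ} {hP : P ≤ J - B} {Y : Type} {yy : F.Ω → Y}
    {ε : Fin n → Fin m} {κ ι k : Fin n} {w Q q e : ℕ} {au av : PtT F → ℝ} {A : F.Ω → Prop}
    (h : AfZ F hP yy ε κ ι k w Q q e au av A) (hB : B ≤ J) (hw : w ≤ J - B - P) :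
    AfF F hP yy ε κ ι k w Q q e au av A := by
  obtain ⟨V, zp, zs, cf, h1⟩ := h
  obtain ⟨V', zp', zs', cF, h2, -⟩ := h1.fam hB hw
  exact ⟨V', zp', zs', cF, h2⟩

end Pool.MIC6
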