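import Pool.Agent.H6.OWN.Nod

/-!
# Separated values of a function in the fibres

`nod_fun`: if a function is not a function of `Φ` up to `s` on every part of an event which is not
too small, then most fibres of `Φ` contain `N + 1` points with separated values.
-/

set_option autoImplicit false

namespace Pool.MIC6

open Finset
open Pool.Agent.H49.Ent Pool.Agent.H32.Dense Pool.STK Pool.KA Pool.KSAT Pool.K2S Pool.PB Pool.GEN
open Pool.S6C

variable {n J : ℕ}

/-- A maximal separated family covers. -/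
theorem cov_fun {Ω : Type} (P : Ω → Prop) (f : Ω → ℝ) (s : ℝ) (N : ℕ)
    (h : ¬ ∃ ν : Fin (N + 1) → Ω, (∀ i, P (ν i)) ∧ ∀ i j, i ≠ j → s ≤ |f (ν i) - f (ν j)|) :
    ∃ c : Fin N → ℝ, ∀ ω, P ω → ∃ i, |c i - f ω| ≤ s := by
  classical
  obtain ⟨l, hl, hmax⟩ : ∃ l, (∃ ν : Fin l → Ω, (∀ i, P (ν i)) ∧
      ∀ i j, i ≠ j → s ≤ |f (ν i) - f (ν j)|) ∧ ¬ ∃ ν : Fin (l + 1) → Ω, (∀ i, P (ν i)) ∧
      ∀ i j, i ≠ j → s ≤ |f (ν i) - f (ν j)| := by
    by_contra hcon
    push Not at hcon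
    have hall : ∀ l, ∃ ν : Fin l → Ω, (∀ i, P (ν i)) ∧
        ∀ i j, i ≠ j → s ≤ |f (ν i) - f (ν j)| := by
      intro l
      induction l with
      | zero => exact ⟨fun i => i.elim0, fun i => i.elim0, fun i => i.elim0⟩
      | succ l ih =>
        obtain ⟨ν, h1, h2⟩ := ih
        exact hcon l ⟨ν, h1, h2⟩
    exact h (hall (N + 1))
  obtain ⟨ν, h1, h2⟩ := hl
  have hlN : l ≤ N := by
    by_contra hcon
    push Not at hcon
    refine h ⟨fun i => ν (Fin.castLE (by omega) i), fun i => h1 _, fun i j hij => h2 _ _ ?_⟩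
    intro he
    exact hij (Fin.castLE_injective _ he)
  refine ⟨fun i => if hi : i.1 < l then f (ν ⟨i.1, hi⟩) else 0, fun ω hω => ?_⟩
  by_contra hcon
  push Not at hcon
  refine hmax ⟨Fin.snoc (α := fun _ => Ω) ν ω, fun i => ?_, fun i j hij => ?_⟩
  · refine Fin.lastCases ?_ (fun i => ?_) i
    · rw [Fin.snoc_last]
      exact hω
    · rw [Fin.snoc_castSucc]
      exact h1 i
  · have key : ∀ i : Fin l, s ≤ |f (ν i) - f ω| := by
      intro i
      have h3 := hcon ⟨i.1, by omega⟩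
      rw [dif_pos i.2] at h3
      exact h3.le
    revert hij
    refine Fin.lastCases ?_ (fun i => ?_) i
    · refine Fin.lastCases ?_ (fun j => ?_) j
      · intro h4
        exact absurd rfl h4
      · intro _
        rw [Fin.snoc_last, Fin.snoc_castSucc, abs_sub_comm]
        exact key j
    · refine Fin.lastCases ?_ (fun j => ?_) j
      · intro _
        rw [Fin.snoc_last, Fin.snoc_castSucc]
        exact key i
      · intro h4
        rw [Fin.snoc_castSucc, Fin.snoc_castSucc]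
        exact h2 i j fun h5 => h4 (by rw [h5])

/-- **Separated values in the fibres.** -/
theorem nod_fun (N : ℕ) {F : Fam n J} {B : F.Ω → Prop} {U : Type} {Φ : F.Ω → U} {f : F.Ω → ℝ}
    {s : ℝ} (hB : 0 < Pe F.p B)
    (h : ∀ B₀ : F.Ω → Prop, Sub B₀ B → Pe F.p B ≤ 2 * N * Pe F.p B₀ →
      ∀ j : U → ℝ, ¬ ∀ ω, B₀ ω → |j (Φ ω) - f ω| ≤ s) :
    ∃ B' : F.Ω → Prop, Sub B' B ∧ Pe F.p B / 2 ≤ Pe F.p B' ∧ ∀ ω, B' ω →
      ∃ ν : Fin (N + 1) → F.Ω, (∀ i, B (ν i) ∧ Φ (ν i) = Φ ω) ∧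
        ∀ i j, i ≠ j → s ≤ |f (ν i) - f (ν j)| := by
  classical
  obtain ⟨good, hgood⟩ : ∃ good : U → Prop, good = fun u => ∃ ν : Fin (N + 1) → F.Ω,
    (∀ i, B (ν i) ∧ Φ (ν i) = u) ∧ ∀ i j, i ≠ j → s ≤ |f (ν i) - f (ν j)| := ⟨_, rfl⟩
  refine ⟨fun ω => B ω ∧ good (Φ ω), fun ω hω => hω.1, ?_, fun ω hω => ?_⟩
  · by_contra hcon
    rw [not_le] at hcon
    have h1 := Pe_parts (p := F.p) (B := B) (B' := fun ω => B ω ∧ good (Φ ω)) fun ω hω => hω.1
    have hcov : ∀ u, ∃ c : Fin N → ℝ, ¬ good u → ∀ ω, B ω ∧ Φ ω = u → ∃ i, |c i - f ω| ≤ s := by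
      intro u
      by_cases hu : good u
      · exact ⟨fun _ => 0, fun h2 => absurd hu h2⟩
      · obtain ⟨c, hc⟩ := cov_fun (fun ω => B ω ∧ Φ ω = u) f s N (by
          rw [hgood] at hu
          exact hu)
        exact ⟨c, fun _ => hc⟩
    choose c hc using hcov
    obtain ⟨Bi, hBi⟩ : ∃ Bi : Fin N → F.Ω → Prop, Bi = fun i ω =>
      (B ω ∧ ¬ (B ω ∧ good (Φ ω))) ∧ |c (Φ ω) i - f ω| ≤ s := ⟨_, rfl⟩
    have hsum : Pe F.p (fun ω => B ω ∧ ¬ (B ω ∧ good (Φ ω))) ≤ ∑ i, Pe F.p (Bi i) := by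
      simp_rw [Pe_eq]
      rw [Finset.sum_comm]
      refine Finset.sum_le_sum fun ω _ => ?_
      by_cases hω : B ω ∧ ¬ (B ω ∧ good (Φ ω))
      · have hng : ¬ good (Φ ω) := fun h2 => hω.2 ⟨hω.1, h2⟩
        obtain ⟨i, hi⟩ := hc (Φ ω) hng ω ⟨hω.1, rfl⟩
        rw [if_pos hω]
        have h2 : (if Bi i ω then F.p ω else 0) ≤ ∑ i, if Bi i ω then F.p ω else 0 := by
          refine Finset.single_le_sum (f := fun i => if Bi i ω then F.p ω else 0)
            (fun j _ => ?_) (Finset.mem_univ i)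
          show 0 ≤ if Bi j ω then F.p ω else 0
          split_ifs
          · exact F.isLaw.nonneg ω
          · exact le_rfl
        refine le_trans ?_ h2
        have h3 : Bi i ω := by
          rw [hBi]
          exact ⟨hω, hi⟩
        rw [if_pos h3]
      · rw [if_neg hω]
        refine Finset.sum_nonneg fun i _ => ?_
        split_ifs
        · exact F.isLaw.nonneg ω
        · exact le_rfl
    obtain ⟨i, hi⟩ : ∃ i, Pe F.p B ≤ 2 * N * Pe F.p (Bi i) := by
      by_contra hcon2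
      push Not at hcon2
      have h3 : (2 * N : ℝ) * ∑ i, Pe F.p (Bi i) ≤ N * Pe F.p B := by
        rw [Finset.mul_sum]
        calc ∑ i, (2 * N : ℝ) * Pe F.p (Bi i) ≤ ∑ _i : Fin N, Pe F.p B :=
              Finset.sum_le_sum fun i _ => (hcon2 i).le
          _ = N * Pe F.p B := by
              rw [Finset.sum_const, Finset.card_univ, Fintype.card_fin, nsmul_eq_mul]
      rcases Nat.eq_zero_or_pos N with h0 | h0
      · subst h0
        have h4 : ∑ i : Fin 0, Pe F.p (Bi i) = 0 := Finset.sum_empty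
        rw [h4] at hsum
        linarith
      · have h5 : (0 : ℝ) < N := by exact_mod_cast h0
        have h6 : Pe F.p B / 2 < ∑ i, Pe F.p (Bi i) := by linarith
        have h7 : (2 * N : ℝ) * (Pe F.p B / 2) < 2 * N * ∑ i, Pe F.p (Bi i) :=
          mul_lt_mul_of_pos_left h6 (by positivity)
        linarith
    refine h (Bi i) (fun ω hω => ?_) hi (fun u => c u i) fun ω hω => ?_
    · rw [hBi] at hω
      exact hω.1.1
    · rw [hBi] at hω
      exact hω.2
  · have h2 := hω.2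
    rw [hgood] at h2
    exact h2

end Pool.MIC6
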