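import Pool.Agent.H6.OWN.Sep

/-!
# Hereditary properties attained on parts hold everywhere in a subclass

`her_sub`: countably many hereditary properties, each of which holds on a part (with a constant
proportion) of each event of a class, hold on all events of one nonempty subclass.
-/

set_option autoImplicit false

namespace Pool.MIC6

open Finset
open Pool.Agent.H49.Ent Pool.Agent.H32.Dense Pool.STK Pool.KA Pool.KSAT Pool.K2S Pool.PB Pool.GEN
open Pool.S6C

variable {m : ℕ}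

/-- **Hereditary properties attained on parts hold everywhere in a subclass.** -/
theorem her_sub {S : PCl m} (hS : S.Ne) (X : ℕ → Stat m)
    (her : ∀ (n J : ℕ) (F : Fam m J) (A B : F.Ω → Prop), Sub B A → X n J F A → X n J F B)
    (h : ∀ n, ∃ C : ℝ, Bas S (fun J F A => ∃ B : F.Ω → Prop, Sub B A ∧
      Pe F.p A ≤ C * Pe F.p B ∧ X n J F B)) :
    ∃ S' : PCl m, S'.Ne ∧
      (∀ (τ : ℝ) (J : ℕ) (F : Fam m J) (A : F.Ω → Prop), S'.St τ J F A → S.St τ J F A) ∧
      ∀ n, Bas S' (fun J F A => X n J F A) := by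
  obtain ⟨S', h1, h2, -, h4⟩ := hS.diag
    (fun n _ P => ∀ (τ : ℝ) (J : ℕ) (F : Fam m J) (A : F.Ω → Prop), P.P τ J F A → X n J F A) (by
    intro n S₁ hle hne
    refine ⟨⟨fun _ => X n, fun _ h => h, fun _ h hB _ => her n _ _ _ _ hB h⟩,
      fun _ _ _ _ h => h, ?_⟩
    intro τ hτ J₁
    obtain ⟨τ₀, hτ₀, hle⟩ := hle
    obtain ⟨C, τ₁, hτ₁, J₂, hb⟩ := h n
    obtain ⟨τ', hτ'⟩ : ∃ τ', τ' = min (τ / 2) (min τ₀ τ₁) := ⟨_, rfl⟩
    have hτ'0 : 0 < τ' := by rw [hτ']; exact lt_min (by linarith) (lt_min hτ₀ hτ₁)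
    have t1 : τ' ≤ τ / 2 := by rw [hτ']; exact min_le_left _ _
    have t2 : τ' ≤ τ₀ := by rw [hτ']; exact (min_le_right _ _).trans (min_le_left _ _)
    have t3 : τ' ≤ τ₁ := by rw [hτ']; exact (min_le_right _ _).trans (min_le_right _ _)
    obtain ⟨J₃, hJ₃⟩ := exists_nat_ge (Real.log (max C 1) / (τ / 2))
    obtain ⟨J, hJ, F, A, hA⟩ := hne τ' hτ'0 (J₁ + J₂ + J₃)
    have hJ3 : (J₃ : ℝ) ≤ J := by exact_mod_cast (by omega : J₃ ≤ J)
    have hlog : Real.log (max C 1) ≤ τ / 2 * J := by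
      have h1 := hJ₃.trans hJ3
      rw [div_le_iff₀ (by linarith)] at h1
      linarith only [h1]
    obtain ⟨B, hBA, hPB, hX⟩ := hb J (by omega) F A (S.mono t3 (hle τ' hτ'0 t2 J F A hA))
    refine ⟨J, by omega, F, B, ?_, hX⟩
    have hB0 := Pe_nonneg F.isLaw B
    have hC1 : (0 : ℝ) < max C 1 := lt_of_lt_of_le one_pos (le_max_right _ _)
    have e1 : Real.exp (-(τ / 2 * J)) * Pe F.p A ≤ Pe F.p B := by
      have e2 : Pe F.p A ≤ max C 1 * Pe F.p B :=
        hPB.trans (mul_le_mul_of_nonneg_right (le_max_left _ _) hB0)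
      have e3 : Real.exp (-(τ / 2 * J)) * max C 1 ≤ 1 := by
        calc Real.exp (-(τ / 2 * J)) * max C 1
            ≤ Real.exp (-Real.log (max C 1)) * max C 1 :=
              mul_le_mul_of_nonneg_right (Real.exp_le_exp.2 (by linarith only [hlog])) hC1.le
          _ = 1 := by
              rw [Real.exp_neg, Real.exp_log hC1]
              exact inv_mul_cancel₀ hC1.ne'
      calc Real.exp (-(τ / 2 * J)) * Pe F.p A
          ≤ Real.exp (-(τ / 2 * J)) * (max C 1 * Pe F.p B) :=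
            mul_le_mul_of_nonneg_left e2 (Real.exp_pos _).le
        _ = Real.exp (-(τ / 2 * J)) * max C 1 * Pe F.p B := by ring
        _ ≤ 1 * Pe F.p B := mul_le_mul_of_nonneg_right e3 hB0
        _ = Pe F.p B := one_mul _
    exact S₁.mono (by linarith) (S₁.res (by linarith) hA hBA e1))
  refine ⟨S', h1, h2, fun n => ?_⟩
  obtain ⟨S₁, P, hR, -, -, -, hall⟩ := h4 n
  have hn : (0 : ℝ) < (n : ℝ) + 1 := by positivity
  refine ⟨1 / ((n : ℝ) + 1), by positivity, 0, fun J _ F A hA => ?_⟩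
  exact hR _ J F A (hall _ J F A (by field_simp; exact le_rfl) hA).2

end Pool.MIC6
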