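import Pool.Agent.H72.OWN.Act2

/-!
# The point of a zoom has few bits given the exact point and the direction of the tube
-/

set_option autoImplicit false

namespace Pool.MIC6

open Finset
open Pool.Agent.H49.Ent Pool.Agent.H32.Dense Pool.STK Pool.KA Pool.KSAT Pool.K2S Pool.PB Pool.GEN
open Pool.S6C
open Pool.REX Pool.OWN72

variable {m n J : ℕ}

/-- The point of a zoom, given the digits of the direction and the exact point: the law. -/
theorem zm_few_law (F : Fam m J) (v : Vz m) (ε : Fin n → Fin m) (hP : v.P J ≤ J - v.B J)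
    {q : F.Ω → ℝ} (hq : IsLaw q) {N : ℕ} (hN : v.P J ≤ N) :
    CH q (ptr (zmV F hP (v.y J F) ε) (J - v.B J - v.P J))
      (fun ω => (F.D N ω, (F.X J ω, F.W ω))) ≤
    CH q (v.y J F) (fun ω => (F.D N ω, (F.X J ω, F.W ω))) + (m * k99 + (n * k99 + n * k99)) := by
  have h0 := hq.nonneg
  have hB : v.B J ≤ J := (v.floor_le J).1
  have h1 := CH_le_add h0 (ptr (zmV F hP (v.y J F) ε) (J - v.B J - v.P J)) (v.y J F)
    (fun ω => (F.D N ω, (F.X J ω, F.W ω)))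
  have h2 := CH_le_add h0 (ptr (zmV F hP (v.y J F) ε) (J - v.B J - v.P J))
    (fun ω => fl (v.B J) (F.x1 (v.B J) ω))
    (fun ω => (v.y J F ω, (F.D N ω, (F.X J ω, F.W ω))))
  have h3 := CH_le_add h0 (ptr (zmV F hP (v.y J F) ε) (J - v.B J - v.P J))
    (fun ω => fl (v.P J) (fun i => (v.winV ε F).u ω i))
    (fun ω => (fl (v.B J) (F.x1 (v.B J) ω), (v.y J F ω, (F.D N ω, (F.X J ω, F.W ω)))))
  have h4 : CH q (fun ω => fl (v.B J) (F.x1 (v.B J) ω))
      (fun ω => (v.y J F ω, (F.D N ω, (F.X J ω, F.W ω)))) ≤ m * k99 := by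
    refine le_trans (CH_mono_cond h0 fun ω ω' _ _ e => ?_) (x1_few F hB hq)
    have e1 := Prod.ext_iff.1 (Prod.ext_iff.1 (Prod.ext_iff.1 e).2).2
    exact Prod.ext e1.1 (Prod.ext_iff.1 e1.2).1
  have h5 : CH q (fun ω => fl (v.P J) (fun i => (v.winV ε F).u ω i))
      (fun ω => (fl (v.B J) (F.x1 (v.B J) ω),
        (v.y J F ω, (F.D N ω, (F.X J ω, F.W ω))))) ≤ n * k99 := by
    refine le_trans (CH_mono_cond h0 fun ω ω' _ _ e => ?_) (u_few F v ε hP hq)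
    have e1 := Prod.ext_iff.1 e
    have e2 := Prod.ext_iff.1 (Prod.ext_iff.1 e1.2).2
    have e3 := Prod.ext_iff.1 e2.2
    exact Prod.ext (Prod.ext e1.1 (Pool.STK.B58.fl_fine hN e2.1))
      (Prod.ext e3.1 (Prod.ext_iff.1 e3.2).1)
  have h6 : CH q (ptr (zmV F hP (v.y J F) ε) (J - v.B J - v.P J))
      (fun ω => (fl (v.P J) (fun i => (v.winV ε F).u ω i), (fl (v.B J) (F.x1 (v.B J) ω),
        (v.y J F ω, (F.D N ω, (F.X J ω, F.W ω)))))) ≤ n * k99 := by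
    have g1 := CH_le_add h0 (ptr (zmV F hP (v.y J F) ε) (J - v.B J - v.P J))
      ((zmV F hP (v.y J F) ε).X (J - v.B J - v.P J))
      (fun ω => (fl (v.P J) (fun i => (v.winV ε F).u ω i), (fl (v.B J) (F.x1 (v.B J) ω),
        (v.y J F ω, (F.D N ω, (F.X J ω, F.W ω))))))
    have hdat : ∀ ω ω' : F.Ω, (fl (v.P J) (fun i => (v.winV ε F).u ω i),
        (fl (v.B J) (F.x1 (v.B J) ω), (v.y J F ω, (F.D N ω, (F.X J ω, F.W ω))))) =
        (fl (v.P J) (fun i => (v.winV ε F).u ω' i),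
        (fl (v.B J) (F.x1 (v.B J) ω'), (v.y J F ω', (F.D N ω', (F.X J ω', F.W ω'))))) →
        (∀ k, ((F.win (v.B J)).L (v.P J) ω).1 (ε k) =
          ((F.win (v.B J)).L (v.P J) ω').1 (ε k)) ∧
        (∀ k, ((F.win (v.B J)).L (v.P J) ω).2 (ε k) =
          ((F.win (v.B J)).L (v.P J) ω').2 (ε k)) ∧
        fl (v.B J) (F.x1 (v.B J) ω) = fl (v.B J) (F.x1 (v.B J) ω') ∧
        v.y J F ω = v.y J F ω' ∧ F.X J ω = F.X J ω' ∧ F.T ω = F.T ω' ∧ F.Z ω = F.Z ω' := by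
      intro ω ω' e
      have e1 := Prod.ext_iff.1 e
      have e2 := Prod.ext_iff.1 e1.2
      have e3 := Prod.ext_iff.1 e2.2
      have e4 := Prod.ext_iff.1 e3.2
      have e5 := Prod.ext_iff.1 e4.2
      have e6 := Prod.ext_iff.1 e5.2
      have hD : F.D (v.P J) ω = F.D (v.P J) ω' := Pool.STK.B58.fl_fine hN e4.1
      exact ⟨fun k => congrFun e1.1 k, fun k => congrFun hD (ε k), e2.1, e3.1, e5.1, e6.1, e6.2⟩
    have g2 := CH_le_vec hq.nonneg hq.sum_one ((zmV F hP (v.y J F) ε).X (J - v.B J - v.P J))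
      (fun ω => (fl (v.P J) (fun i => (v.winV ε F).u ω i), (fl (v.B J) (F.x1 (v.B J) ω),
        (v.y J F ω, (F.D N ω, (F.X J ω, F.W ω))))))
      (fun _ => 49) (fun ω ω' _ _ h k => by
        obtain ⟨k1, k2, k3, k4, k5, k6, k7⟩ := hdat ω ω' h
        exact_mod_cast near1k F hP (v.y J F) hB k6 (k1 k) (k2 k) (congrFun k3 (ε k))
          (congrFun k5 (ε k)))
    rw [Ex_const hq.sum_one] at g2
    have g3 : CH q (ptr (zmV F hP (v.y J F) ε) (J - v.B J - v.P J))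
      (fun ω => ((zmV F hP (v.y J F) ε).X (J - v.B J - v.P J) ω,
        (fl (v.P J) (fun i => (v.winV ε F).u ω i), (fl (v.B J) (F.x1 (v.B J) ω),
          (v.y J F ω, (F.D N ω, (F.X J ω, F.W ω))))))) = 0 := by
      refine CH_eq_zero h0 fun ω ω' _ _ e => ?_
      have e1 := Prod.ext_iff.1 e
      obtain ⟨k1, k2, k3, k4, k5, k6, k7⟩ := hdat ω ω' e1.2
      refine Prod.ext e1.1 (Prod.ext ?_ ?_)
      · show (zmV F hP (v.y J F) ε).T ω = (zmV F hP (v.y J F) ε).T ω'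
        rw [zmV_T, zmV_T, zm_T, zm_T, k6]
      · show (zmV F hP (v.y J F) ε).Z ω = (zmV F hP (v.y J F) ε).Z ω'
        rw [zmV_Z, zmV_Z]
        refine Prod.ext (Prod.ext (funext k1) (funext k2)) (Prod.ext k4 ?_)
        show F.c (v.B J) ω = F.c (v.B J) ω'
        unfold Fam.c Fam.T1
        rw [k6, k3, k7]
    rw [g3, add_zero] at g1
    exact g1.trans g2
  have h7 := h1.trans (add_le_add_right (h2.trans (add_le_add h4 (h3.trans
    (add_le_add h5 h6)))) _)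
  linarith only [h7]

/-- **The point of a zoom has few bits** given the exact point and enough digits of the
direction. -/
theorem zm_few {S : PCl m} (hpos : Bas S (fun _ F A => 0 < Pe F.p A)) (v : Vz m)
    (ε : Fin n → Fin m) {P₀ P₁ : ℝ}
    (hrec : ∀ h : ℝ, 0 < h → Bas S (fun J F A =>
      CH (Pool.Agent.H49.Ent.cond F.p A True) (v.y J F)
        (fun ω => (F.D ⌊P₀ * J⌋₊ ω, (F.X J ω, F.W ω))) ≤ h * J))
    (hP₀ : P₀ ≤ P₁) (hP₁ : (1 - v.b) * v.p < P₁) :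
    ∀ h : ℝ, 0 < h → Bas S (fun J F A => ∀ hP : v.P J ≤ J - v.B J,
      CH (Pool.Agent.H49.Ent.cond F.p A True)
        (ptr (zmV F hP (v.y J F) ε) (J - v.B J - v.P J))
        (fun ω => (F.D ⌊P₁ * J⌋₊ ω, (F.X J ω, F.W ω))) ≤ h * J) := by
  intro h hh
  have hb0 := v.b0
  have hb1 := v.b1
  have hp0 := v.p0
  have hp1 := v.p1
  obtain ⟨K, hK⟩ : ∃ K : ℝ, K = m * k99 + (n * k99 + n * k99) := ⟨_, rfl⟩
  obtain ⟨J₁, hJ₁⟩ := exists_nat_ge (K / (h / 2))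
  obtain ⟨J₂, hJ₂⟩ := exists_nat_ge (2 / (P₁ - (1 - v.b) * v.p))
  refine Bas.mono (max J₁ J₂) ((hrec (h / 2) (half_pos hh)).and hpos) ?_
  rintro J hJ F A ⟨k2, hA⟩ hP
  have hJ0 : (0 : ℝ) ≤ J := Nat.cast_nonneg J
  have j1 : (J₁ : ℝ) ≤ J := by exact_mod_cast (le_max_left _ _).trans hJ
  have j2 : (J₂ : ℝ) ≤ J := by exact_mod_cast (le_max_right _ _).trans hJ
  have l1 := hJ₁.trans j1
  rw [div_le_iff₀ (by positivity)] at l1
  have l2 := hJ₂.trans j2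
  rw [div_le_iff₀ (by linarith)] at l2
  have hq := isLaw_cond F.isLaw hA
  obtain ⟨r1, r2, r3, r4, r5⟩ := Pool.MIC6.vz_real v J
  have q5 : v.P J ≤ ⌊P₁ * J⌋₊ := by
    have e0 : v.p * (1 - v.b) * J = (1 - v.b) * v.p * J := by ring
    refine Nat.le_floor ?_
    linarith
  have q6 : ⌊P₀ * (J : ℝ)⌋₊ ≤ ⌊P₁ * (J : ℝ)⌋₊ :=
    Nat.floor_le_floor (mul_le_mul_of_nonneg_right hP₀ hJ0)
  have b1 := zm_few_law F v ε hP hq q5
  have b6 : CH (Pool.Agent.H49.Ent.cond F.p A True) (v.y J F)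
      (fun ω => (F.D ⌊P₁ * J⌋₊ ω, (F.X J ω, F.W ω))) ≤ h / 2 * J := by
    refine le_trans (CH_mono_cond hq.nonneg fun ω ω' _ _ e => ?_) k2
    have e' := Prod.ext_iff.1 e
    exact Prod.ext (Pool.STK.B58.fl_fine q6 e'.1) e'.2
  rw [hK] at l1
  linarith

end Pool.MIC6
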