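import Pool.Agent.H6.OWN.Zom
import Pool.Agent.H45.EXA.Zlb

/-!
# No gain over one coordinate in a tube: sizes
-/

set_option autoImplicit false

namespace Pool.MIC6

open Finset
open Pool.Agent.H49.Ent Pool.Agent.H32.Dense Pool.STK Pool.KA Pool.KSAT Pool.K2S Pool.PB Pool.GEN
open Pool.S6C
open Pool.FLF (Fam.sub sub_CH)
open Pool.REX

variable {m n J : ℕ}

/-- The four errors. -/
theorem num4 {C X : ℝ} {N g K w P₁ e J' P w₂ P₂ ρ₂ J M : ℕ} (hC : 0 ≤ C) (hX : 1 ≤ X)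
    (hN : C * X ≤ 2 ^ N) (h1 : w + (M + N + g * (K + 1) + 2) ≤ P₁)
    (h2 : e + w + (M + N + g * (K + 1) + 2) ≤ J')
    (h3 : P + w₂ + (M + N + g * (K + 1) + 2) ≤ P₂)
    (h4 : P + (e + ρ₂) + (M + N + g * (K + 1) + 2) ≤ J) :
    C * (2 ^ g) ^ (K + 1) * (X * 2 ^ w / 2 ^ P₁ + 2 ^ (e + w) / 2 ^ J' +
      2 ^ P * (2 ^ w₂ / 2 ^ P₂ + 2 ^ (e + ρ₂) / 2 ^ J)) ≤ 1 / 2 ^ M := by
  obtain ⟨q, hq⟩ : ∃ q, q = M + N + g * (K + 1) + 2 := ⟨_, rfl⟩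
  rw [← hq] at h1 h2 h3 h4
  have key : ∀ a b : ℕ, a + q ≤ b → (2 : ℝ) ^ a / 2 ^ b ≤ 1 / 2 ^ q := by
    intro a b hab
    rw [div_le_div_iff₀ (by positivity) (by positivity), one_mul, ← pow_add]
    exact pow_le_pow_right₀ (by norm_num) hab
  have k1 := key _ _ h1
  have k2 := key _ _ h2
  have k3 := key _ _ h3
  have k4 := key _ _ h4
  rw [pow_add] at k3 k4
  have e1 : X * 2 ^ w / 2 ^ P₁ + 2 ^ (e + w) / 2 ^ J' +
      2 ^ P * (2 ^ w₂ / 2 ^ P₂ + 2 ^ (e + ρ₂) / 2 ^ J) =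
      X * (2 ^ w / 2 ^ P₁) + 2 ^ (e + w) / 2 ^ J' + (2 ^ P * 2 ^ w₂ / 2 ^ P₂ +
        2 ^ P * 2 ^ (e + ρ₂) / 2 ^ J) := by ring
  rw [e1]
  have pq : (0 : ℝ) < 1 / 2 ^ q := by positivity
  have l1 : X * ((2 : ℝ) ^ w / 2 ^ P₁) ≤ X * (1 / 2 ^ q) :=
    mul_le_mul_of_nonneg_left k1 (by linarith)
  have l2 : 1 * (1 / (2 : ℝ) ^ q) ≤ X * (1 / 2 ^ q) := mul_le_mul_of_nonneg_right hX pq.le
  have l3 : X * ((2 : ℝ) ^ w / 2 ^ P₁) + 2 ^ (e + w) / 2 ^ J' + (2 ^ P * 2 ^ w₂ / 2 ^ P₂ +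
      2 ^ P * 2 ^ (e + ρ₂) / 2 ^ J) ≤ 4 * (X * (1 / 2 ^ q)) := by linarith
  refine (mul_le_mul_of_nonneg_left l3 (by positivity)).trans ?_
  have e2 : C * (2 ^ g) ^ (K + 1) * (4 * (X * (1 / 2 ^ q))) =
      (C * X) * (4 * (2 ^ g) ^ (K + 1) * (1 / 2 ^ q)) := by ring
  rw [e2]
  refine (mul_le_mul_of_nonneg_right hN (by positivity)).trans (le_of_eq ?_)
  rw [hq, ← pow_mul, pow_add, pow_add, pow_add]
  field_simp
  norm_num

/-- The numbers of a zoom. -/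
theorem vz_real (v : Vz m) (J : ℕ) : v.b * J - 1 ≤ v.B J ∧ (v.B J : ℝ) ≤ v.b * J ∧
    (v.P J : ℝ) ≤ v.p * (1 - v.b) * J + 1 ∧
    (1 - v.b) * (1 - v.p) * J - 1 ≤ v.R J ∧ (v.R J : ℝ) ≤ (1 - v.b) * (1 - v.p) * J + 2 := by
  have hJ : (0 : ℝ) ≤ J := Nat.cast_nonneg J
  have hb := v.b0
  have hb1 := v.b1
  have hp := v.p0
  have hp1 := v.p1
  obtain ⟨k1, k2, -⟩ := v.floor_le J
  have h1 : (v.B J : ℝ) ≤ v.b * J := Nat.floor_le (by positivity)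
  have h2 : v.b * J - 1 < (v.B J : ℝ) := Nat.sub_one_lt_floor _
  have h3 : ((J - v.B J : ℕ) : ℝ) = J - v.B J := by rw [Nat.cast_sub k1]
  have h4 : (v.P J : ℝ) ≤ v.p * ((J - v.B J : ℕ) : ℝ) := Nat.floor_le (by positivity)
  have h5 : v.p * ((J - v.B J : ℕ) : ℝ) - 1 < v.P J := Nat.sub_one_lt_floor _
  have h6 : (v.R J : ℝ) = ((J - v.B J : ℕ) : ℝ) - v.P J := by
    unfold Vz.R
    rw [Nat.cast_sub k2]
  rw [h3] at h4 h5 h6
  have h7 : v.p * ((J : ℝ) - v.B J) ≤ v.p * ((J : ℝ) - (v.b * J - 1)) :=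
    mul_le_mul_of_nonneg_left (by linarith) hp
  have h8 : v.p * ((J : ℝ) - v.b * J) ≤ v.p * ((J : ℝ) - v.B J) :=
    mul_le_mul_of_nonneg_left (by linarith) hp
  have h9 : (1 - v.p) * ((J : ℝ) - v.b * J) ≤ (1 - v.p) * ((J : ℝ) - v.B J) :=
    mul_le_mul_of_nonneg_left (by linarith) (by linarith)
  have h10 : (1 - v.p) * ((J : ℝ) - v.B J) ≤ (1 - v.p) * ((J : ℝ) - (v.b * J - 1)) :=
    mul_le_mul_of_nonneg_left (by linarith) (by linarith)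
  refine ⟨h2.le, h1, ?_, ?_, ?_⟩
  · nlinarith
  · nlinarith
  · nlinarith

/-- **Positive entropy of a velocity behind the tube**, given the exact point, the tube and the
record. -/
def ActZ (S : PCl m) (v : Vz m) (ε : Fin n → Fin m) (κ : Fin n) : Prop :=
  ∀ g : ℝ, 0 < g → ∃ c : ℝ, 0 < c ∧ Bas S (fun J F A => ∀ hP : v.P J ≤ J - v.B J,
    c * J ≤ CH (Pool.Agent.H49.Ent.cond F.p A True) (fun ω => (v.famV ε F hP).D ⌊g * v.R J⌋₊ ω κ)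
      (fun ω => (F.X J ω, F.T ω, (v.famV ε F hP).Z ω)))

/-- The point of the zoom has few bits given the exact point. -/
theorem phz_loss (F : Fam m J) {B P : ℕ} (hP : P ≤ J - B) {κ' : Type} (yy : F.Ω → κ')
    (ε : Fin n → Fin m) (hB : B ≤ J) {q : F.Ω → ℝ} (hq : IsLaw q) {S : Type} (D : F.Ω → S) :
    CH q D (fun ω => (F.X J ω, F.T ω, (zmV F hP yy ε).Z ω)) ≤
      CH q D (phz F hP yy ε) + n * k99 := by
  have h0 := hq.nonneg
  have h1 := CH_le_add h0 D (fun ω => (zmV F hP yy ε).X (J - B - P) ω)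
    (fun ω => (F.X J ω, F.T ω, (zmV F hP yy ε).Z ω))
  have h2 : CH q (fun ω => (zmV F hP yy ε).X (J - B - P) ω)
      (fun ω => (F.X J ω, F.T ω, (zmV F hP yy ε).Z ω)) ≤ n * k99 := by
    have h3 := CH_le_vec h0 hq.sum_one (fun ω => (zmV F hP yy ε).X (J - B - P) ω)
      (fun ω => (F.X J ω, F.T ω, (zmV F hP yy ε).Z ω)) (fun _ => 49) (fun ω ω' _ _ h k => by
        have a1 := Prod.ext_iff.mp h
        have a2 := Prod.ext_iff.mp a1.2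
        have hX : F.X J ω = F.X J ω' := a1.1
        have hT : F.T ω = F.T ω' := a2.1
        have hZ : (zmV F hP yy ε).Z ω = (zmV F hP yy ε).Z ω' := a2.2
        rw [zmV_Z, zmV_Z] at hZ
        have hL := Prod.ext_iff.mp (Prod.ext_iff.mp hZ).1
        have hyc := Prod.ext_iff.mp (Prod.ext_iff.mp hZ).2
        have hc := Prod.ext_iff.mp hyc.2
        have hc1 := Prod.ext_iff.mp hc.1
        have hfl : fl B (F.x1 B ω) = fl B (F.x1 B ω') := hc1.2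
        exact_mod_cast near1k F hP yy hB hT (congrFun hL.1 k) (congrFun hL.2 k)
          (congrFun hfl (ε k)) (congrFun hX (ε k)))
    rwa [Ex_const hq.sum_one] at h3
  have h3 : CH q D (fun ω => ((zmV F hP yy ε).X (J - B - P) ω,
      (F.X J ω, F.T ω, (zmV F hP yy ε).Z ω))) ≤ CH q D (phz F hP yy ε) := by
    refine CH_mono_cond h0 fun ω ω' _ _ h => ?_
    have a1 := Prod.ext_iff.mp h
    have a2 := Prod.ext_iff.mp a1.2
    have a3 := Prod.ext_iff.mp a2.2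
    have b1 : (zmV F hP yy ε).X (J - B - P) ω = (zmV F hP yy ε).X (J - B - P) ω' := a1.1
    have b2 : F.X J ω = F.X J ω' := a2.1
    have b3 : F.T ω = F.T ω' := a3.1
    have b4 : (zmV F hP yy ε).Z ω = (zmV F hP yy ε).Z ω' := a3.2
    unfold phz
    rw [b1, b2, b3, b4]
  linarith

/-- The time of the zoom of an event. -/
theorem zoom_tm {S : PCl m} {C₀ : ℝ} (htm : TmC S C₀) (v : Vz m) (ε : Fin n → Fin m) {τ : ℝ}
    {F : Fam m J} {A : F.Ω → Prop} (hτ : 0 < τ) (hS : S.St τ J F A)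
    (hP : v.P J ≤ J - v.B J) (hA : 0 < Pe F.p A) :
    (Fam.sub (v.famV ε F hP) A hA).Tm (C₀ * τ * J) := by
  have hq := isLaw_cond F.isLaw hA
  have h1 : TmQ F (Pool.Agent.H49.Ent.cond F.p A True) (C₀ * τ * J) := (htm τ J F A hτ hS).2 hq
  have h2 := famV_tm v ε F hP hq h1
  unfold TmQ at h2
  unfold Fam.Tm
  refine h2.trans (le_of_eq ?_)
  exact (sub_CH (F := v.famV ε F hP) (v.famV ε F hP).T
    (fun ω => ((v.famV ε F hP).l ω, (v.famV ε F hP).Z ω))).symm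

end Pool.MIC6
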