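import Pool.Agent.H6.OWN.Bmc
import Pool.Agent.H6.OWN.Azc

/-!
# Velocities and bounds of the codes of the affine labels

`vel_aff`: an affine function on a window gives the velocity. `AfL.one`, `AfGn.vel`, `AfGn.one`: the
velocity and the bound of the coefficient of time of the affine closed labels.
-/

set_option autoImplicit false

namespace Pool.MIC6

open Finset MvPolynomial
open Pool.Agent.H49.Ent Pool.Agent.H32.Dense Pool.STK Pool.KA Pool.KSAT Pool.K2S Pool.PB Pool.GEN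
open Pool.FLF (Fam.sub)
open Pool.GRD (LbP)
open Pool.REX (zm zmV zmV_Z zmV_T zm_T)

variable {m n J : ℕ}

/-- The velocity from an affine function on a window. -/
theorem vel_aff {F : Fam m J} {κ ι k : Fin m} {w : ℕ} {μ : ℝ} {c : Fin 4 → ℝ} {ω : F.Ω}
    (h : ∀ σ ∈ Set.Icc (0 : ℝ) 1, |wp F w ω σ k -
      eval (wpt F w ω σ) (afq κ ι (c 0) (c 1) (c 2) (c 3))| ≤ μ) :
    |F.d ω k - (c 1 + (c 2 * F.d ω κ + c 3 * F.d ω ι))| ≤ 2 * (2 ^ w * μ) := by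
  have pw : (0 : ℝ) < 2 ^ w := by positivity
  have h0 := h 0 ⟨le_rfl, zero_le_one⟩
  have h1 := h 1 ⟨zero_le_one, le_rfl⟩
  rw [eval_afq] at h0 h1
  have e1 : 1 / 2 ^ w * (F.d ω k - (c 1 + (c 2 * F.d ω κ + c 3 * F.d ω ι))) =
      (wp F w ω 1 k - (c 0 + (c 1 * wpt F w ω 1 none + (c 2 * wpt F w ω 1 (some κ) +
        c 3 * wpt F w ω 1 (some ι))))) -
      (wp F w ω 0 k - (c 0 + (c 1 * wpt F w ω 0 none + (c 2 * wpt F w ω 0 (some κ) +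
        c 3 * wpt F w ω 0 (some ι))))) := by
    show _ = ((F.u ω k + F.d ω k * (((slam F w ω).2.2 : ℝ) / 2 ^ w + 1 / 2 ^ w * 1)) -
      (c 0 + (c 1 * (((slam F w ω).2.2 : ℝ) / 2 ^ w + 1 / 2 ^ w * 1) +
        (c 2 * (F.u ω κ + F.d ω κ * (((slam F w ω).2.2 : ℝ) / 2 ^ w + 1 / 2 ^ w * 1)) +
        c 3 * (F.u ω ι + F.d ω ι * (((slam F w ω).2.2 : ℝ) / 2 ^ w + 1 / 2 ^ w * 1)))))) -
      ((F.u ω k + F.d ω k * (((slam F w ω).2.2 : ℝ) / 2 ^ w + 1 / 2 ^ w * 0)) -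
      (c 0 + (c 1 * (((slam F w ω).2.2 : ℝ) / 2 ^ w + 1 / 2 ^ w * 0) +
        (c 2 * (F.u ω κ + F.d ω κ * (((slam F w ω).2.2 : ℝ) / 2 ^ w + 1 / 2 ^ w * 0)) +
        c 3 * (F.u ω ι + F.d ω ι * (((slam F w ω).2.2 : ℝ) / 2 ^ w + 1 / 2 ^ w * 0))))))
    ring
  have h2 := (abs_sub (wp F w ω 1 k - (c 0 + (c 1 * wpt F w ω 1 none +
    (c 2 * wpt F w ω 1 (some κ) + c 3 * wpt F w ω 1 (some ι))))) (wp F w ω 0 k - (c 0 +
    (c 1 * wpt F w ω 0 none + (c 2 * wpt F w ω 0 (some κ) + c 3 * wpt F w ω 0 (some ι)))))).trans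
    (add_le_add h1 h0)
  rw [← e1, abs_mul, abs_of_pos (by positivity : (0 : ℝ) < 1 / 2 ^ w)] at h2
  have e2 : ∀ x : ℝ, x = 2 ^ w * (1 / 2 ^ w * x) := fun x => by field_simp
  rw [e2 |F.d ω k - (c 1 + (c 2 * F.d ω κ + c 3 * F.d ω ι))|]
  have e3 : 2 * (2 ^ w * μ) = 2 ^ w * (μ + μ) := by ring
  rw [e3]
  exact mul_le_mul_of_nonneg_left h2 pw.le

/-- The bound of the coefficient of time. -/
theorem one_aff {F : Fam m J} {κ ι k : Fin m} {w e : ℕ} {μ : ℝ} {c : Fin 4 → ℝ} {ω : F.Ω}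
    (h : ∀ σ ∈ Set.Icc (0 : ℝ) 1, |wp F w ω σ k -
      eval (wpt F w ω σ) (afq κ ι (c 0) (c 1) (c 2) (c 3))| ≤ μ) (hμ : 2 ^ w * μ ≤ 1)
    (h2 : |c 2| ≤ 2 ^ e) (h3 : |c 3| ≤ 2 ^ e) : |c 1| ≤ 2 ^ (e + 3) := by
  have h1 := vel_aff h
  have k2 : |c 2 * F.d ω κ| ≤ 2 ^ e := by
    rw [abs_mul]
    calc |c 2| * |F.d ω κ| ≤ 2 ^ e * 1 := mul_le_mul h2 (F.dir ω κ) (abs_nonneg _) (by positivity)
      _ = 2 ^ e := mul_one _
  have k3 : |c 3 * F.d ω ι| ≤ 2 ^ e := by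
    rw [abs_mul]
    calc |c 3| * |F.d ω ι| ≤ 2 ^ e * 1 := mul_le_mul h3 (F.dir ω ι) (abs_nonneg _) (by positivity)
      _ = 2 ^ e := mul_one _
  have k4 := F.dir ω k
  have pe : (1 : ℝ) ≤ 2 ^ e := one_le_pow₀ (by norm_num)
  have e1 : c 1 = F.d ω k - (F.d ω k - (c 1 + (c 2 * F.d ω κ + c 3 * F.d ω ι))) -
      (c 2 * F.d ω κ + c 3 * F.d ω ι) := by ring
  have e2 : (2 : ℝ) ^ (e + 3) = 2 ^ e * 8 := by
    rw [pow_add]
    norm_num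
  have k5 := abs_sub (F.d ω k - (F.d ω k - (c 1 + (c 2 * F.d ω κ + c 3 * F.d ω ι))))
    (c 2 * F.d ω κ + c 3 * F.d ω ι)
  have k6 := abs_sub (F.d ω k) (F.d ω k - (c 1 + (c 2 * F.d ω κ + c 3 * F.d ω ι)))
  have k7 := abs_add_le (c 2 * F.d ω κ) (c 3 * F.d ω ι)
  rw [e2]
  rw [← e1] at k5
  linarith only [h1, k2, k3, k4, k5, k6, k7, pe, hμ]

/-- The bound of the coefficient of time of an affine closed label. -/
theorem AfL.one {F : Fam m J} {κ ι k : Fin m} {w Q e : ℕ}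
    {A : F.Ω → Prop} {V : Type} {zp : PtT F → V} {zs : LnT F → V} {cf : V → Fin 4 → ℝ}
    (h : AfL F κ ι k w Q e A zp zs cf) (hQ : w ≤ Q) {ω : F.Ω} (hω : A ω)
    (h2 : |cf (zs (slam F w ω)) 2| ≤ 2 ^ e) : |cf (zs (slam F w ω)) 1| ≤ 2 ^ (e + 3) := by
  refine one_aff (h.2 ω hω).2 ?_ h2 (h.2 ω hω).1
  rw [mul_one_div, div_le_one (by positivity)]
  exact pow_le_pow_right₀ (by norm_num) hQ

/-- **The velocity** of an affine closed label of a zoom, in the family. -/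
theorem AfGn.vel {F : Fam m J} {B P : ℕ} {hP : P ≤ J - B} {Y : Type} {yy : F.Ω → Y}
    {ε : Fin n → Fin m} {κ ι k : Fin n} {w Q e : ℕ} {A : F.Ω → Prop}
    {V : Type} {zp : PtT (zmV F hP yy ε) → V} {zs : LnT (zmV F hP yy ε) → V}
    {cf : V → Fin 4 → ℝ} (h : AfGn F hP yy ε κ ι k w Q e A zp zs cf) {ω : F.Ω} (hω : A ω) :
    |F.d ω (ε k) - (cf (zs (slam (zmV F hP yy ε) w ω)) 1 +
      (cf (zs (slam (zmV F hP yy ε) w ω)) 2 * F.d ω (ε κ) +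
      cf (zs (slam (zmV F hP yy ε) w ω)) 3 * F.d ω (ε ι)))| ≤
      2 * (2 ^ (B + w) / 2 ^ (B + P + Q)) := by
  have h1 := vel_aff (h ω hω).2.2
  refine h1.trans (le_of_eq ?_)
  rw [mul_one_div]

/-- The bound of the coefficient of time of an affine closed label of a zoom, in the family. -/
theorem AfGn.one {F : Fam m J} {B P : ℕ} {hP : P ≤ J - B} {Y : Type} {yy : F.Ω → Y}
    {ε : Fin n → Fin m} {κ ι k : Fin n} {w Q e : ℕ} {A : F.Ω → Prop}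
    {V : Type} {zp : PtT (zmV F hP yy ε) → V} {zs : LnT (zmV F hP yy ε) → V}
    {cf : V → Fin 4 → ℝ} (h : AfGn F hP yy ε κ ι k w Q e A zp zs cf) (hQ : w ≤ P + Q)
    {ω : F.Ω} (hω : A ω) (h2 : |cf (zs (slam (zmV F hP yy ε) w ω)) 2| ≤ 2 ^ e) :
    |cf (zs (slam (zmV F hP yy ε) w ω)) 1| ≤ 2 ^ (e + 3) := by
  refine one_aff (h ω hω).2.2 ?_ h2 (h ω hω).2.1
  rw [mul_one_div, div_le_one (by positivity)]
  exact pow_le_pow_right₀ (by norm_num) (by omega)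

end Pool.MIC6
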