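import Pool.Agent.H6.OWN.NgC

/-!
# Slopes at the exact points, for a class

`Dp`: slopes `av` and velocities `cv` as functions of the exact point. `dp_cls`: they exist, from
the closed labels on small balls. `nat_cls`: the slopes are functions of the line in the window, up
to the natural scale of the labels of the window. `abs_cls`: not better.
-/

set_option autoImplicit false

namespace Pool.MIC6

open Finset MvPolynomial
open Pool.Agent.H49.Ent Pool.Agent.H32.Dense Pool.STK Pool.KA Pool.KSAT Pool.K2S Pool.PB Pool.GEN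
open Pool.S6C
open Pool.FLF (Fam.sub)
open Pool.GRD (LbP)
open Pool.REX

variable {m n J : ℕ}

/-- **Slopes at the exact points.** -/
def Dp (F : Fam m J) (A : F.Ω → Prop) (y v : Fin m) (e M : ℕ) (av cv : PtT F → ℝ) : Prop :=
  ∀ ω, A ω → |av (ptr F J ω)| ≤ 2 ^ e ∧ |cv (ptr F J ω)| ≤ 2 ^ e ∧
    |F.d ω v - cv (ptr F J ω) - av (ptr F J ω) * F.d ω y| ≤ 1 / 2 ^ M

theorem Dp.sub {F : Fam m J} {A B : F.Ω → Prop} {y v : Fin m} {e M : ℕ} {av cv : PtT F → ℝ}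
    (h : Dp F A y v e M av cv) (hB : Sub B A) : Dp F B y v e M av cv :=
  fun ω hω => h ω (hB ω hω)

theorem Dp.mono {F : Fam m J} {A : F.Ω → Prop} {y v : Fin m} {e e' M M' : ℕ}
    {av cv : PtT F → ℝ} (h : Dp F A y v e M av cv) (he : e ≤ e') (hM : M' ≤ M) :
    Dp F A y v e' M' av cv := by
  intro ω hω
  obtain ⟨h1, h2, h3⟩ := h ω hω
  have h4 : (2 : ℝ) ^ e ≤ 2 ^ e' := pow_le_pow_right₀ (by norm_num) he
  exact ⟨h1.trans h4, h2.trans h4, h3.trans (inv_mono hM)⟩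

/-- Slopes from a closed label. -/
theorem dp_fam (m K : ℕ) : ∃ C : ℝ, 1 ≤ C ∧ ∀ {J : ℕ} {F : Fam m J} {A : F.Ω → Prop}
    {y v : Fin m} {e r w ρ P M N : ℕ}, Lb F {y} v K e r w ρ P A → r ≤ J → ρ + 1 ≤ J →
    C ≤ 2 ^ N → M + w + 1 ≤ P → M + N + 1 + e + ρ ≤ J →
    ∃ av cv : PtT F → ℝ, Dp F A y v e M av cv := by
  obtain ⟨C, hC, hbal⟩ := bal_slp m K
  refine ⟨C, hC, ?_⟩
  intro J F A y v e r w ρ P M N ⟨V, z, z', G, h⟩ hr hρ hN h1 h2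
  obtain ⟨av, cv, hav⟩ := hbal h hr hρ
  refine ⟨av, cv, fun ω hω => ⟨(hav ω hω).1, (hav ω hω).2.1, (hav ω hω).2.2.trans ?_⟩⟩
  have k1 : (2 : ℝ) ^ w / 2 ^ P ≤ 1 / 2 ^ (M + 1) := by
    rw [div_le_div_iff₀ (by positivity) (by positivity), one_mul, ← pow_add]
    exact pow_le_pow_right₀ (by norm_num) (by omega)
  have k2 : C * ((2 : ℝ) ^ (e + ρ) / 2 ^ J) ≤ 1 / 2 ^ (M + 1) := by
    have k3 : C * ((2 : ℝ) ^ (e + ρ) / 2 ^ J) ≤ 2 ^ N * (2 ^ (e + ρ) / 2 ^ J) :=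
      mul_le_mul_of_nonneg_right hN (by positivity)
    refine k3.trans ?_
    rw [← mul_div_assoc, div_le_div_iff₀ (by positivity) (by positivity), one_mul, ← pow_add,
      ← pow_add]
    exact pow_le_pow_right₀ (by norm_num) (by omega)
  refine (add_le_add k1 k2).trans (le_of_eq ?_)
  rw [pow_succ]
  field_simp
  norm_num

/-- **Slopes at the exact points exist.** -/
theorem dp_cls {S : PCl m} {L : Finset (Fin m) → Fin m → ℝ → ℝ → ℝ} (hL : LamW S L)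
    (y v : Fin m) {a₀ a e : ℝ} (ha0 : 0 ≤ a₀) (ha : a₀ < a) (ha1 : a < 1) (he : 0 < e)
    (hea : a₀ + 3 * e ≤ a) (hLe : 0 ≤ L {y} v a₀ a₀ - a - 4 * e) :
    Bas S (fun J F A => ∃ av cv : PtT F → ℝ,
      Dp F A y v ⌊e * J⌋₊ ⌊(L {y} v a₀ a₀ - a - 4 * e) * J⌋₊ av cv) := by
  obtain ⟨K, hK⟩ := hL.att {y} v a₀ a a₀ e (by linarith) ha1.le ha he
  obtain ⟨C, hC, hfam⟩ := dp_fam m K
  obtain ⟨N, hN⟩ := pow_unbounded_of_one_lt C (by norm_num : (1 : ℝ) < 2)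
  obtain ⟨La, hLa⟩ : ∃ La, La = L {y} v a₀ a₀ := ⟨_, rfl⟩
  have hLa1 : La ≤ 1 := by rw [hLa]; exact hL.le1 _ _ _ _
  rw [← hLa] at hK hLe ⊢
  obtain ⟨τ, hτ, J₁, h⟩ := hK
  obtain ⟨J₂, hJ₂⟩ := exists_nat_ge ((N + 8 : ℝ) / e)
  refine ⟨τ, hτ, max J₁ J₂, fun J hJ F A hA => ?_⟩
  have j1 : J₁ ≤ J := (le_max_left _ _).trans hJ
  have j2 : (J₂ : ℝ) ≤ J := by exact_mod_cast (le_max_right _ _).trans hJ
  have hJ0 : (0 : ℝ) ≤ J := Nat.cast_nonneg J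
  have heJ : (N + 8 : ℝ) ≤ e * J := by
    have h1 := hJ₂.trans j2
    rw [div_le_iff₀ he] at h1
    linarith
  have f1 : (⌊e * (J : ℝ)⌋₊ : ℝ) ≤ e * J := Nat.floor_le (by positivity)
  have f2 : (⌊a * (J : ℝ)⌋₊ : ℝ) ≤ a * J := Nat.floor_le (mul_nonneg (by linarith) hJ0)
  have f3 : (⌊(a₀ + e) * (J : ℝ)⌋₊ : ℝ) ≤ (a₀ + e) * J :=
    Nat.floor_le (mul_nonneg (by linarith) hJ0)
  have f4 : (La - e) * (J : ℝ) - 1 < ⌊(La - e) * (J : ℝ)⌋₊ := Nat.sub_one_lt_floor _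
  have f5 : (⌊(La - a - 4 * e) * (J : ℝ)⌋₊ : ℝ) ≤ (La - a - 4 * e) * J :=
    Nat.floor_le (mul_nonneg hLe hJ0)
  have g1 : (a₀ + 3 * e) * J ≤ a * J := mul_le_mul_of_nonneg_right hea hJ0
  have g2 : La * J ≤ 1 * J := mul_le_mul_of_nonneg_right hLa1 hJ0
  have g3 : (0 : ℝ) ≤ (La - a - 4 * e) * J := mul_nonneg hLe hJ0
  have hN0 : (0 : ℝ) ≤ N := Nat.cast_nonneg N
  refine hfam (h J j1 F A hA) le_rfl ?_ hN.le ?_ ?_
  · rw [← Nat.cast_le (α := ℝ)]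
    push_cast
    linarith only [f3, g1, g2, g3, heJ, hN0]
  · rw [← Nat.cast_le (α := ℝ)]
    push_cast
    linarith only [f2, f4, f5, heJ, hN0]
  · rw [← Nat.cast_le (α := ℝ)]
    push_cast
    linarith only [f1, f3, f5, g1, g2, heJ, hN0]

/-- The slope is a function of the line in the window, up to the natural scale of a label. -/
theorem nat_fam (m K : ℕ) : ∃ C : ℝ, 1 ≤ C ∧ ∀ {J : ℕ} (F : Fam m J) (A : F.Ω → Prop)
    (hA : 0 < Pe F.p A) {y v : Fin m} {w P e M g Q : ℕ} {V : Type} {z : PtT F → V}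
    {z' : LnT F → V} {G : V → MvPolynomial (Option (Fin m)) ℝ} {av cv : PtT F → ℝ} {θ : ℝ},
    LbP F {y} v K J w P A z z' G → Dp F A y v e M av cv → 0 ≤ θ → (Fam.sub F A hA).Tm θ →
    C * (θ + 1) ≤ ((J : ℝ) - w) * Real.log 2 → w + g + 4 ≤ J →
    (∀ B₀ : F.Ω → Prop, Sub B₀ A → Pe F.p A / 4 < Pe F.p B₀ → Real.log (2 * (K + 2 : ℕ)) <
      CH (Pool.Agent.H49.Ent.cond F.p B₀ True) (fun ω => F.D g ω y) (ptr F J)) →
    C * (2 ^ g) ^ (K + 1) * (Real.exp (C * (θ + 1)) * 2 ^ w / 2 ^ P + 2 ^ (e + w) / 2 ^ J +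
      2 ^ 0 * (2 ^ 1 / 2 ^ M + 2 ^ (e + w) / 2 ^ J)) ≤ 1 / 2 ^ Q →
    ∃ B : F.Ω → Prop, Sub B A ∧ Pe F.p A / 4 ≤ Pe F.p B ∧ ∃ j : LnT F → ℝ, ∀ ω, B ω →
      |j (slam F w ω) - av (ptr F J ω)| ≤ 1 / 2 ^ Q := by
  classical
  obtain ⟨C, hC, hslp⟩ := slp_fam m K
  refine ⟨C, hC, ?_⟩
  intro J F A hA y v w P e M g Q V z z' G av cv θ h hav hθ hTm hJθ hwg hact hQ
  have key := hslp F A hA (κ := y) (k := v) (Φ := ptr F J)
    (a := fun ω => av (ptr F J ω)) (α := 2 ^ e) (ρ := 1 / 2 ^ g) (s₀ := 1 / 2 ^ J)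
    (err := 2 / 2 ^ M) (θ := θ) h (by omega) hθ hTm hJθ (by positivity) (by
      rw [div_le_one (by positivity)]
      exact one_le_pow₀ (by norm_num)) (by
      have e1 : (1 : ℝ) / 2 ^ g * (1 / 2 ^ w) / 16 = 1 / 2 ^ (w + g + 4) := by
        rw [pow_add, pow_add]
        norm_num
        field_simp
      rw [e1]
      exact inv_mono hwg) (by
      intro ω ω' hω hω' hh
      have hx : ∀ j, |F.x ω' j - F.x ω j| ≤ 1 / 2 ^ J := by
        intro j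
        have d1 : F.X J ω j = F.X J ω' j := congrFun (Prod.ext_iff.mp hh).1 j
        rw [abs_sub_comm]
        exact fl_eq_near d1
      refine ⟨hh, hx y, hx v, ?_⟩
      have a1 := (hav ω hω).2.2
      have a2 := (hav ω' hω').2.2
      rw [← hh] at a2
      have e1 : F.d ω' v - F.d ω v - av (ptr F J ω) * (F.d ω' y - F.d ω y) =
          (F.d ω' v - cv (ptr F J ω) - av (ptr F J ω) * F.d ω' y) -
          (F.d ω v - cv (ptr F J ω) - av (ptr F J ω) * F.d ω y) := by ring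
      have e2 : (2 : ℝ) / 2 ^ M = 1 / 2 ^ M + 1 / 2 ^ M := by ring
      show |F.d ω' v - F.d ω v - av (ptr F J ω) * (F.d ω' y - F.d ω y)| ≤ _
      rw [e1, e2]
      exact (abs_sub _ _).trans (add_le_add a2 a1)) (fun ω hω => (hav ω hω).1) (by
      intro B₁ hB₁ hPB₁
      have hB₁0 : 0 < Pe F.p B₁ := by linarith
      exact nod_of (F := F) (K + 2) (B := B₁) hB₁0 (κ := y) (g := g) (Φ := ptr F J)
        (fun B₀ hB₀ hPB₀ => by
          refine hact B₀ (fun ω hω => hB₁ ω (hB₀ ω hω)) ?_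
          linarith))
  obtain ⟨B, b1, b2, b3⟩ := key
  refine ⟨B, b1, b2, slope y w z' G, fun ω hω => (b3 ω hω).trans (le_trans ?_ hQ)⟩
  have f1 : (1 : ℝ) / (1 / 2 ^ g) = 2 ^ g := by rw [one_div_one_div]
  rw [f1]
  refine mul_le_mul_of_nonneg_left ?_ (by positivity)
  have g4 : (1 : ℝ) ≤ 2 ^ e := one_le_pow₀ (by norm_num)
  have g5 : (1 + (2 : ℝ) ^ e) * (1 / 2 ^ J) * 2 ^ w = (1 + 2 ^ e) * (2 ^ w / 2 ^ J) := by ring
  have g6 : 2 * ((2 : ℝ) ^ (e + w) / 2 ^ J) = (2 * 2 ^ e) * (2 ^ w / 2 ^ J) := by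
    rw [pow_add]
    ring
  have g7 : (1 + (2 : ℝ) ^ e) * (2 ^ w / 2 ^ J) ≤ 2 * 2 ^ e * (2 ^ w / 2 ^ J) :=
    mul_le_mul_of_nonneg_right (by linarith) (by positivity)
  rw [g5, pow_zero, one_mul, pow_one]
  linarith

/-- **Activity**: the velocity of `y` has positive entropy given the exact point. -/
def ActF (S : PCl m) (y : Fin m) : Prop :=
  ∀ g : ℝ, 0 < g → ∃ c : ℝ, 0 < c ∧ Bas S (fun J F A => c * J ≤
    CH (Pool.Agent.H49.Ent.cond F.p A True) (fun ω => F.D ⌊g * J⌋₊ ω y) (ptr F J))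

end Pool.MIC6
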