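import Pool.Agent.H6.OWN.Zcr
import Pool.Agent.H6.OWN.Cdb
import Pool.Agent.H6.OWN.Dps
import Pool.Agent.H17.COR.Dig

/-!
# The labels of the tubes of a class, at the beginning of a window of the family

`zlab_core`: an affine closed label of a zoom as a label at the beginning of a finer window.
`zlab_cls`: the labels of the tubes of a class.
-/

set_option autoImplicit false

namespace Pool.MIC6

open Finset MvPolynomial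
open Pool.Agent.H49.Ent Pool.Agent.H32.Dense Pool.STK Pool.KA Pool.KSAT Pool.K2S Pool.PB Pool.GEN
open Pool.S6C
open Pool.FLF (Fam.sub)
open Pool.GRD (LbP)
open Pool.REX (zm zmV zmV_Z zmV_T zm_T Vz RecV)
open Pool.OWN17 (Ln Lbl lnF lbF tw0)

variable {m n J : ℕ}

/-- The beginning of a finer window. -/
theorem wt_tw0 (F : Fam m J) {w w₂ : ℕ} (hw : w ≤ w₂) (hJ : w₂ ≤ J) (ω : F.Ω) :
    ∃ σ ∈ Set.Icc (0 : ℝ) 1, wt F w ω σ = tw0 F w₂ ω := by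
  have p1 : (0 : ℝ) < 2 ^ w := by positivity
  have p2 : (0 : ℝ) < 2 ^ (w₂ - w) := by positivity
  have e1 : (2 : ℝ) ^ w₂ = 2 ^ (w₂ - w) * 2 ^ w := by
    rw [← pow_add]
    congr 1
    omega
  have e2 : (slam F w ω).2.2 = (F.T1 w₂ ω) / 2 ^ (w₂ - w) := by
    rw [slam_coarse F hw hJ ω]
    rfl
  have h1 := Nat.div_add_mod (F.T1 w₂ ω) (2 ^ (w₂ - w))
  have h2 : (F.T1 w₂ ω : ℝ) = 2 ^ (w₂ - w) * ((F.T1 w₂ ω / 2 ^ (w₂ - w) : ℕ) : ℝ) +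
      ((F.T1 w₂ ω % 2 ^ (w₂ - w) : ℕ) : ℝ) := by
    exact_mod_cast h1.symm
  have h3 : ((F.T1 w₂ ω % 2 ^ (w₂ - w) : ℕ) : ℝ) ≤ 2 ^ (w₂ - w) := by
    exact_mod_cast (Nat.mod_lt (F.T1 w₂ ω) (by positivity : 0 < 2 ^ (w₂ - w))).le
  refine ⟨((F.T1 w₂ ω % 2 ^ (w₂ - w) : ℕ) : ℝ) / 2 ^ (w₂ - w), ⟨by positivity, ?_⟩, ?_⟩
  · rw [div_le_one p2]
    exact h3
  · unfold wt tw0
    rw [e2, h2, e1]
    field_simp

/-- **A label of a zoom at the beginning of a finer window.** -/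
theorem zlab_core {F : Fam m J} {B P : ℕ} {hP : P ≤ J - B} {Y : Type} {yy : F.Ω → Y}
    (hyy : ∀ ω ω' : F.Ω, slam F B ω = slam F B ω' → yy ω = yy ω')
    {ε : Fin n → Fin m} {κ ι k : Fin n} {w Q e : ℕ} {A : F.Ω → Prop}
    {V : Type} {zp : PtT (zmV F hP yy ε) → V} {zs : LnT (zmV F hP yy ε) → V}
    {cf : V → Fin 4 → ℝ} (h : AfGn F hP yy ε κ ι k w Q e A zp zs cf)
    (h2 : ∀ ω, A ω → |cf (zs (slam (zmV F hP yy ε) w ω)) 2| ≤ 2 ^ e) (hB : B ≤ J)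
    (hw : w ≤ J - B - P) {w₂ : ℕ} (hw₂ : B + w ≤ w₂) (hJ : w₂ ≤ J) (hQ : w ≤ P + Q) :
    ∃ (f : LnT F → Fin 4 → ℝ) (φ : PtT (zmV F hP yy ε) → Fin 4 → ℝ), ∀ ω, A ω →
      f (slam F w₂ ω) = φ (ptr (zmV F hP yy ε) (J - B - P) ω) ∧
      (∀ i : Fin 4, i ≠ 0 → |f (slam F w₂ ω) i| ≤ 2 ^ (e + 3)) ∧
      |(lnF F (ε κ) (ε ι) (ε k) w₂ ω).v - ((lbF (tw0 F w₂ ω) (f (slam F w₂ ω))).f0 +
        f (slam F w₂ ω) 2 * (lnF F (ε κ) (ε ι) (ε k) w₂ ω).y +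
        f (slam F w₂ ω) 3 * (lnF F (ε κ) (ε ι) (ε k) w₂ ω).u)| ≤ 1 / 2 ^ (B + P + Q) ∧
      |F.d ω (ε k) - (f (slam F w₂ ω) 1 + f (slam F w₂ ω) 2 * F.d ω (ε κ) +
        f (slam F w₂ ω) 3 * F.d ω (ε ι))| ≤ 2 * (2 ^ (B + w) / 2 ^ (B + P + Q)) := by
  classical
  obtain ⟨f, hf⟩ : ∃ f : LnT F → Fin 4 → ℝ, f = fun s =>
    if h : ∃ ω, slam F w₂ ω = s then cf (zs (slam (zmV F hP yy ε) w h.choose)) else 0 := ⟨_, rfl⟩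
  have hfs : ∀ ω, f (slam F w₂ ω) = cf (zs (slam (zmV F hP yy ε) w ω)) := by
    intro ω
    have hex : ∃ ω', slam F w₂ ω' = slam F w₂ ω := ⟨ω, rfl⟩
    have h1 := hex.choose_spec
    rw [hf]
    simp only [hex, dif_pos]
    have h3 : slam F (B + w) hex.choose = slam F (B + w) ω := by
      rw [slam_coarse F hw₂ hJ, slam_coarse F hw₂ hJ ω, h1]
    rw [Pool.GRW.zmV_of_slam F hP yy ε hB hw hyy h3]
  refine ⟨f, fun p => cf (zp p), fun ω hω => ?_⟩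
  rw [hfs]
  have hone := h.one hQ hω (h2 ω hω)
  have hvel := h.vel hω
  obtain ⟨k1, k2, k3⟩ := h ω hω
  have pe : (2 : ℝ) ^ e ≤ 2 ^ (e + 3) := pow_le_pow_right₀ (by norm_num) (by omega)
  refine ⟨congrArg cf k1.symm, fun i hi => ?_, ?_, ?_⟩
  · fin_cases i
    · exact absurd rfl hi
    · exact hone
    · exact (h2 ω hω).trans pe
    · exact k2.trans pe
  · obtain ⟨σ, hσ, hσ'⟩ := wt_tw0 F hw₂ hJ ω
    have k4 := k3 σ hσ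
    rw [eval_afq] at k4
    refine le_trans (le_of_eq (congrArg abs ?_)) k4
    obtain ⟨c, hc⟩ : ∃ c, c = cf (zs (slam (zmV F hP yy ε) w ω)) := ⟨_, rfl⟩
    rw [← hc]
    show (F.u ω (ε k) + tw0 F w₂ ω * F.d ω (ε k)) - ((c 0 + c 1 * tw0 F w₂ ω) +
      c 2 * (F.u ω (ε κ) + tw0 F w₂ ω * F.d ω (ε κ)) +
      c 3 * (F.u ω (ε ι) + tw0 F w₂ ω * F.d ω (ε ι))) =
      (F.u ω (ε k) + F.d ω (ε k) * wt F (B + w) ω σ) - (c 0 + (c 1 * wt F (B + w) ω σ +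
        (c 2 * (F.u ω (ε κ) + F.d ω (ε κ) * wt F (B + w) ω σ) +
        c 3 * (F.u ω (ε ι) + F.d ω (ε ι) * wt F (B + w) ω σ))))
    rw [hσ']
    ring
  · refine le_trans (le_of_eq (congrArg abs ?_)) hvel
    ring

/-- **Class data from affine labels of the tubes**: an affine closed label of the zooms, with bounded
codes, as a label at the beginning of a window of the family. -/
theorem zlab_of {S : PCl m} (v : Vz m) (ε : Fin n → Fin m) {κ ι k : Fin n}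
    {w q x x₁ s t Cp : ℝ} (hw0 : 0 < w) (hw1 : w < 1) (hq : 0 < q) (hx : 0 ≤ x) (hx₁ : x < x₁)
    (hs : 0 < s) (hsq : s ≤ v.tm w + v.p * (1 - v.b) + q) (ht : v.tm w < t) (ht1 : t < 1)
    (h : Bas S (fun J F A => ∀ hP : v.P J ≤ J - v.B J, ∃ B : F.Ω → Prop, Sub B A ∧
      Pe F.p A ≤ Cp * Pe F.p B ∧ ∃ (V : Type) (zp : PtT (zmV F hP (v.y J F) ε) → V)
        (zs : LnT (zmV F hP (v.y J F) ε) → V) (cf : V → Fin 4 → ℝ),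
        AfCn F hP (v.y J F) ε κ ι k (⌊w * v.R J⌋₊ + 2) (⌊w * v.R J⌋₊ + ⌊q * J⌋₊)
          ⌊x * J⌋₊ B zp zs cf ∧ ∀ ω, B ω →
          |cf (zs (slam (zmV F hP (v.y J F) ε) (⌊w * v.R J⌋₊ + 2) ω)) 2| ≤ 2 ^ ⌊x * J⌋₊)) :
    Bas S (fun J F A => ∀ hP : v.P J ≤ J - v.B J,
      ∃ (f : LnT F → Fin 4 → ℝ) (φ : PtT (zmV F hP (v.y J F) ε) → Fin 4 → ℝ)
        (B : F.Ω → Prop), Sub B A ∧ Pe F.p A ≤ Cp * Pe F.p B ∧ ∀ ω, B ω →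
        f (slam F ⌊t * J⌋₊ ω) = φ (ptr (zmV F hP (v.y J F) ε) (J - v.B J - v.P J) ω) ∧
        (∀ i : Fin 4, i ≠ 0 → |f (slam F ⌊t * J⌋₊ ω) i| ≤ 2 ^ ⌊x₁ * J⌋₊) ∧
        |(lnF F (ε κ) (ε ι) (ε k) ⌊t * J⌋₊ ω).v -
          ((lbF (tw0 F ⌊t * J⌋₊ ω) (f (slam F ⌊t * J⌋₊ ω))).f0 +
          f (slam F ⌊t * J⌋₊ ω) 2 * (lnF F (ε κ) (ε ι) (ε k) ⌊t * J⌋₊ ω).y +
          f (slam F ⌊t * J⌋₊ ω) 3 * (lnF F (ε κ) (ε ι) (ε k) ⌊t * J⌋₊ ω).u)| ≤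
          1 / 2 ^ ⌊(v.tm w + v.p * (1 - v.b) + q - s) * J⌋₊ ∧
        |F.d ω (ε k) - (f (slam F ⌊t * J⌋₊ ω) 1 + f (slam F ⌊t * J⌋₊ ω) 2 * F.d ω (ε κ) +
          f (slam F ⌊t * J⌋₊ ω) 3 * F.d ω (ε ι))| ≤
          2 ^ ⌊t * J⌋₊ / 2 ^ ⌊(v.tm w + v.p * (1 - v.b) + q - s) * J⌋₊) := by
  have hb := v.b0
  have hb1 := v.b1
  have hp := v.p0
  have hp1 := v.p1
  have hcp : 0 < (1 - v.b) * (1 - v.p) := mul_pos (by linarith) (by linarith)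
  have hpb : 0 ≤ v.p * (1 - v.b) := mul_nonneg hp (by linarith)
  have htm' : v.tm w = v.b + (1 - v.b) * (1 - v.p) * w := rfl
  have hcw : 0 < (1 - v.b) * (1 - v.p) * w := mul_pos hcp hw0
  obtain ⟨J₀, hJ₀⟩ := exists_nat_ge (8 / s)
  obtain ⟨J₁, hJ₁⟩ := exists_nat_ge (8 / (x₁ - x))
  obtain ⟨J₂, hJ₂⟩ := exists_nat_ge (8 / (t - v.tm w))
  obtain ⟨J₃, hJ₃⟩ := exists_nat_ge (4 / ((1 - w) * ((1 - v.b) * (1 - v.p))))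
  obtain ⟨J₄, hJ₄⟩ := exists_nat_ge (3 / q)
  refine Bas.mono (J₀ + J₁ + J₂ + J₃ + J₄) h ?_
  rintro J hJ F A h2 hP
  have hJ0 : (0 : ℝ) ≤ J := Nat.cast_nonneg J
  have j0 : (J₀ : ℝ) ≤ J := by exact_mod_cast (by omega : J₀ ≤ J)
  have j1 : (J₁ : ℝ) ≤ J := by exact_mod_cast (by omega : J₁ ≤ J)
  have j2 : (J₂ : ℝ) ≤ J := by exact_mod_cast (by omega : J₂ ≤ J)
  have j3 : (J₃ : ℝ) ≤ J := by exact_mod_cast (by omega : J₃ ≤ J)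
  have j4 : (J₄ : ℝ) ≤ J := by exact_mod_cast (by omega : J₄ ≤ J)
  have l0 := hJ₀.trans j0
  rw [div_le_iff₀ hs] at l0
  have l1 := hJ₁.trans j1
  rw [div_le_iff₀ (by linarith only [hx₁])] at l1
  have l2 := hJ₂.trans j2
  rw [div_le_iff₀ (by linarith only [ht])] at l2
  have l3 := hJ₃.trans j3
  rw [div_le_iff₀ (mul_pos (by linarith only [hw1]) hcp)] at l3
  have l4 := hJ₄.trans j4
  rw [div_le_iff₀ hq] at l4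
  obtain ⟨B₁, b1, b2, V, zp, zs, cf, b3, b4⟩ := h2 hP
  -- the numerics
  obtain ⟨r1, r2, r3, r4, r5⟩ := vz_real v J
  obtain ⟨k1, -, -⟩ := v.floor_le J
  have hRJ : v.R J = J - v.B J - v.P J := rfl
  have e0 : ((J - v.B J : ℕ) : ℝ) = J - v.B J := by rw [Nat.cast_sub k1]
  have q0 : v.p * (1 - v.b) * J - 1 ≤ v.P J := by
    have h5 : v.p * ((J - v.B J : ℕ) : ℝ) - 1 < v.P J := Nat.sub_one_lt_floor _
    rw [e0] at h5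
    have h6 : v.p * (J - v.b * J) ≤ v.p * (J - v.B J) :=
      mul_le_mul_of_nonneg_left (by linarith only [r2]) hp
    have h7 : v.p * (1 - v.b) * J = v.p * (J - v.b * J) := by ring
    linarith only [h5, h6, h7]
  have hR0 : (0 : ℝ) ≤ v.R J := Nat.cast_nonneg _
  have w1 : (⌊w * (v.R J : ℝ)⌋₊ : ℝ) ≤ w * v.R J := Nat.floor_le (by positivity)
  have w2 : w * v.R J - 1 < (⌊w * (v.R J : ℝ)⌋₊ : ℝ) := Nat.sub_one_lt_floor _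
  have w3 : w * v.R J ≤ (1 - v.b) * (1 - v.p) * w * J + 2 := by
    have h5 : w * v.R J ≤ w * ((1 - v.b) * (1 - v.p) * J + 2) :=
      mul_le_mul_of_nonneg_left r5 hw0.le
    have h6 : w * ((1 - v.b) * (1 - v.p) * J + 2) = (1 - v.b) * (1 - v.p) * w * J + 2 * w := by
      ring
    linarith only [h5, h6, hw1]
  have w4 : (1 - v.b) * (1 - v.p) * w * J - 1 ≤ w * v.R J := by
    have h5 : w * ((1 - v.b) * (1 - v.p) * J - 1) ≤ w * v.R J :=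
      mul_le_mul_of_nonneg_left r4 hw0.le
    have h6 : w * ((1 - v.b) * (1 - v.p) * J - 1) = (1 - v.b) * (1 - v.p) * w * J - w := by
      ring
    linarith only [h5, h6, hw1]
  have t1 : t * J - 1 < (⌊t * (J : ℝ)⌋₊ : ℝ) := Nat.sub_one_lt_floor _
  have et : v.tm w * J = v.b * J + (1 - v.b) * (1 - v.p) * w * J := by rw [htm']; ring
  have n1 : v.B J + (⌊w * (v.R J : ℝ)⌋₊ + 2) ≤ ⌊t * (J : ℝ)⌋₊ := by
    have h5 : (J : ℝ) * (t - v.tm w) = t * J - v.tm w * J := by ring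
    rw [← Nat.cast_le (α := ℝ)]
    push_cast
    linarith only [h5, l2, et, t1, w3, w1, r2]
  have n2 : ⌊t * (J : ℝ)⌋₊ ≤ J := by
    refine Nat.floor_le_of_le ?_
    have : t * J ≤ 1 * J := mul_le_mul_of_nonneg_right ht1.le hJ0
    linarith only [this]
  have n3 : ⌊w * (v.R J : ℝ)⌋₊ + 2 ≤ J - v.B J - v.P J := by
    rw [← hRJ, ← Nat.cast_le (α := ℝ)]
    push_cast
    have h5 : (1 - w) * ((1 - v.b) * (1 - v.p) * J - 1) ≤ (1 - w) * v.R J :=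
      mul_le_mul_of_nonneg_left r4 (by linarith only [hw1])
    have h6 : (1 - w) * ((1 - v.b) * (1 - v.p) * J - 1) =
        J * ((1 - w) * ((1 - v.b) * (1 - v.p))) - (1 - w) := by ring
    have h7 : (1 - w) * v.R J = v.R J - w * v.R J := by ring
    linarith only [h5, h6, h7, l3, w1, hw0]
  have q1 : q * J - 1 < (⌊q * (J : ℝ)⌋₊ : ℝ) := Nat.sub_one_lt_floor _
  have n4 : ⌊w * (v.R J : ℝ)⌋₊ + 2 ≤ v.P J + (⌊w * (v.R J : ℝ)⌋₊ + ⌊q * (J : ℝ)⌋₊) := by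
    have h5 : (2 : ℕ) ≤ ⌊q * (J : ℝ)⌋₊ := by
      rw [← Nat.cast_le (α := ℝ)]
      push_cast
      linarith only [q1, l4]
    omega
  obtain ⟨M, hM⟩ : ∃ M, M = ⌊(v.tm w + v.p * (1 - v.b) + q - s) * (J : ℝ)⌋₊ := ⟨_, rfl⟩
  have n5 : M + 1 ≤ v.B J + v.P J + (⌊w * (v.R J : ℝ)⌋₊ + ⌊q * (J : ℝ)⌋₊) := by
    have h5 : (M : ℝ) ≤ (v.tm w + v.p * (1 - v.b) + q - s) * J := by
      rw [hM]
      exact Nat.floor_le (mul_nonneg (by linarith only [hsq]) hJ0)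
    have h6 : (v.tm w + v.p * (1 - v.b) + q - s) * J =
        v.tm w * J + v.p * (1 - v.b) * J + q * J - J * s := by ring
    rw [← Nat.cast_le (α := ℝ)]
    push_cast
    linarith only [h5, h6, l0, q1, w2, w4, et, q0, r1]
  have n6 : ⌊x * (J : ℝ)⌋₊ + 3 ≤ ⌊x₁ * (J : ℝ)⌋₊ := by
    have h5 : (⌊x * (J : ℝ)⌋₊ : ℝ) ≤ x * J := Nat.floor_le (by positivity)
    have h6 : x₁ * J - 1 < (⌊x₁ * (J : ℝ)⌋₊ : ℝ) := Nat.sub_one_lt_floor _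
    have h7 : (J : ℝ) * (x₁ - x) = x₁ * J - x * J := by ring
    rw [← Nat.cast_le (α := ℝ)]
    push_cast
    linarith only [h5, h6, h7, l1]
  obtain ⟨V', zp', zs', cF, c1, c2, c3⟩ := b3.fam k1 n3
  obtain ⟨f, φ, hf⟩ := zlab_core (v.line J F) c1 (fun ω hω => by rw [c2]; exact b4 ω hω) k1 n3 n1 n2
    n4
  refine ⟨f, φ, B₁, b1, b2, fun ω hω => ?_⟩
  rw [← hM]
  obtain ⟨f1, f2, f3, f4⟩ := hf ω hω
  refine ⟨f1, fun i hi => (f2 i hi).trans (pow_le_pow_right₀ (by norm_num) n6), f3.trans ?_,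
    f4.trans ?_⟩
  · have h5 : (2 : ℝ) ^ M ≤ 2 ^ (v.B J + v.P J + (⌊w * (v.R J : ℝ)⌋₊ + ⌊q * (J : ℝ)⌋₊)) :=
      pow_le_pow_right₀ (by norm_num) ((Nat.le_succ M).trans n5)
    exact one_div_le_one_div_of_le (by positivity) h5
  · have h5 : (2 : ℝ) * (2 ^ (v.B J + (⌊w * (v.R J : ℝ)⌋₊ + 2)) /
        2 ^ (v.B J + v.P J + (⌊w * (v.R J : ℝ)⌋₊ + ⌊q * (J : ℝ)⌋₊))) ≤
        2 * (2 ^ ⌊t * (J : ℝ)⌋₊ / 2 ^ (M + 1)) := by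
      refine mul_le_mul_of_nonneg_left ?_ (by norm_num)
      exact div_le_div₀ (by positivity) (pow_le_pow_right₀ (by norm_num) n1) (by positivity)
        (pow_le_pow_right₀ (by norm_num) n5)
    refine h5.trans (le_of_eq ?_)
    rw [pow_succ]
    field_simp

/-- **The labels of the tubes of a class**, at the beginning of a window of the family. -/
theorem zlab_cls {S : PCl m} {C₀ : ℝ} (hC₀ : 0 ≤ C₀) (htm : TmC S C₀)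
    {L : Finset (Fin m) → Fin m → ℝ → ℝ → ℝ} (hL : LamW S L) (v : Vz m)
    (ε : Fin n → Fin m) {L' : Finset (Fin n) → Fin n → ℝ → ℝ → ℝ} (hL' : LamW (RecV S v ε) L')
    {κ ι k : Fin n} (hκι : κ ≠ ι) (hact : ActZ S v ε κ) (hactF : ActF S (ε κ))
    {w' w r' x q : ℝ} (hw' : w' < w) (hw0 : 0 < w) (hw1 : w < 1) (hx : 0 < x)
    (hxw : x ≤ (1 - v.b) * (1 - v.p) * w) (hqx : x ≤ q)
    (hLz : q + x ≤ v.sc (L' {κ, ι} k w' r') - v.p * (1 - v.b) - v.tm w)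
    (hcont : ContinuousAt (fun W => L {ε κ} (ε ι) W 0) (v.tm w))
    (hUt : v.tm w < L {ε κ} (ε ι) (v.tm w) 0)
    (hUx : L {ε κ} (ε ι) (v.tm w) 0 + v.p * (1 - v.b) + x ≤ 1)
    (hLu : ∀ s : ℝ, 0 < s → ∃ w₁ r₁ : ℝ, w₁ < w ∧
      L {ε κ} (ε ι) (v.tm w) 0 + v.p * (1 - v.b) - s ≤ v.sc (L' {κ} ι w₁ r₁))
    {a₀ a : ℝ} (ha0 : 0 ≤ a₀) (haa : a₀ < a) (ha1 : a < 1)
    (hdp : (L {ε κ} (ε ι) (v.tm w) 0 - v.tm w) + v.p * (1 - v.b) + 2 * x ≤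
      L {ε κ} (ε ι) a₀ a₀ - a) {t : ℝ} (ht : v.tm w < t) (ht1 : t < 1) :
    Bas S (fun J F A => ∀ hP : v.P J ≤ J - v.B J,
      ∃ (f : LnT F → Fin 4 → ℝ) (φ : PtT (zmV F hP (v.y J F) ε) → Fin 4 → ℝ)
        (B : F.Ω → Prop), Sub B A ∧ Pe F.p A ≤ 1280 * Pe F.p B ∧ ∀ ω, B ω →
        f (slam F ⌊t * J⌋₊ ω) = φ (ptr (zmV F hP (v.y J F) ε) (J - v.B J - v.P J) ω) ∧
        (∀ i : Fin 4, i ≠ 0 → |f (slam F ⌊t * J⌋₊ ω) i| ≤ 2 ^ ⌊x * J⌋₊) ∧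
        |(lnF F (ε κ) (ε ι) (ε k) ⌊t * J⌋₊ ω).v -
          ((lbF (tw0 F ⌊t * J⌋₊ ω) (f (slam F ⌊t * J⌋₊ ω))).f0 +
          f (slam F ⌊t * J⌋₊ ω) 2 * (lnF F (ε κ) (ε ι) (ε k) ⌊t * J⌋₊ ω).y +
          f (slam F ⌊t * J⌋₊ ω) 3 * (lnF F (ε κ) (ε ι) (ε k) ⌊t * J⌋₊ ω).u)| ≤
          1 / 2 ^ ⌊(v.tm w + v.p * (1 - v.b) + q - x) * J⌋₊ ∧
        |F.d ω (ε k) - (f (slam F ⌊t * J⌋₊ ω) 1 + f (slam F ⌊t * J⌋₊ ω) 2 * F.d ω (ε κ) +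
          f (slam F ⌊t * J⌋₊ ω) 3 * F.d ω (ε ι))| ≤
          2 ^ ⌊t * J⌋₊ / 2 ^ ⌊(v.tm w + v.p * (1 - v.b) + q - x) * J⌋₊) := by
  have hb := v.b0
  have hb1 := v.b1
  have hp := v.p0
  have hp1 := v.p1
  have hcp : 0 < (1 - v.b) * (1 - v.p) := mul_pos (by linarith) (by linarith)
  have hpb : 0 ≤ v.p * (1 - v.b) := mul_nonneg hp (by linarith)
  have htm' : v.tm w = v.b + (1 - v.b) * (1 - v.p) * w := rfl
  have hcw : 0 < (1 - v.b) * (1 - v.p) * w := mul_pos hcp hw0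
  obtain ⟨U, hU⟩ : ∃ U, U = L {ε κ} (ε ι) (v.tm w) 0 := ⟨_, rfl⟩
  obtain ⟨La, hLa⟩ : ∃ La, La = L {ε κ} (ε ι) a₀ a₀ := ⟨_, rfl⟩
  obtain ⟨e₀, he₀, hz⟩ := aff_zcr hC₀ htm hL v ε hL' hκι hact hactF hw' hw0 hw1 hx hxw hqx hLz
    hcont hUt hUx hLu
  rw [← hU] at hUt hUx hz hdp
  rw [← hLa] at hdp
  obtain ⟨e₃, he₃⟩ : ∃ e₃, e₃ = min e₀ (min (x / 4) ((a - a₀) / 3)) := ⟨_, rfl⟩
  have he30 : 0 < e₃ := by
    rw [he₃]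
    exact lt_min he₀ (lt_min (by linarith) (by linarith))
  have y0 : e₃ ≤ e₀ ∧ e₃ ≤ x / 4 ∧ e₃ ≤ (a - a₀) / 3 := by
    have := he₃.le
    simp only [le_min_iff] at this
    tauto
  obtain ⟨y1, y2, y3⟩ := y0
  have hdu := dp_cls hL (ε κ) (ε ι) ha0 haa ha1 he30 (by linarith) (by rw [← hLa]; linarith)
  rw [← hLa] at hdu
  refine zlab_of v ε hw0 hw1 (by linarith) (by linarith : (0 : ℝ) ≤ x / 32) (by linarith) hx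
    (by linarith) ht ht1 (Bas.mono 0 (hdu.and hz) ?_)
  rintro J - F A ⟨⟨au, cu, hau⟩, h2⟩ hP
  have hJ0 : (0 : ℝ) ≤ J := Nat.cast_nonneg J
  exact h2 au cu _ _ (Nat.floor_le_floor (mul_le_mul_of_nonneg_right y1 hJ0))
    (Nat.floor_le_floor (mul_le_mul_of_nonneg_right (by linarith) hJ0)) hau hP

end Pool.MIC6
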