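import Pool.Agent.H6.OWN.Rel

/-!
# The numbers of the affine labels of a family
-/

set_option autoImplicit false

namespace Pool.MIC6

/-- The numbers of the affine labels of a family fit for large resolutions. -/
theorem bas_fit {x W D r' q δ γ U U₁ U₂ W₁ W₂ : ℝ} {K K₂ N₀ : ℕ}
    {C C₀ τ : ℝ} (hx : 0 < x) (hδ : 0 < δ) (hδx : 640 * (δ * (K + 1)) ≤ x) (hW : 0 < W)
    (hγ : 0 < γ) (hγδ : γ * (K₂ + 1) ≤ δ) (hKK : K ≤ K₂) (hC : 1 ≤ C)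
    (hCτ : C * (C₀ * τ) ≤ δ / 2) (hr0 : 0 ≤ r') (hrs : r' + x ≤ W) (hD1 : D ≤ 1)
    (hq : x ≤ q) (hqD : q + x ≤ D - W) (hU1 : U + x ≤ 1) (hW₁ : W - δ < W₁) (hW₁' : W₁ < W)
    (hW₂ : W < W₂) (hW₂1 : W₂ ≤ 1) (hU₁ : U₁ ≤ U) (hU₂ : U ≤ U₂) (hU₁₂ : U₂ - U₁ ≤ 2 * δ)
    (hUt : 32 * δ ≤ U - W) :
    ∃ J₁ : ℕ, ∀ J ≥ J₁, ∀ M : ℕ, ⌊(q + x) * J⌋₊ ≤ M → ⌊(U - W + x) * J⌋₊ ≤ M →
      ((N₀ + ⌊2 * δ * J⌋₊) + ⌊γ * J⌋₊ * (K₂ + 1) +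
        (⌊W * J⌋₊ + ⌊(U₁ - W₁ - 16 * δ) * J⌋₊ + 6) ≤ ⌊(U₁ - δ) * J⌋₊ ∧
      (N₀ + ⌊2 * δ * J⌋₊) + ⌊γ * J⌋₊ * (K₂ + 1) + ⌊x / 32 * J⌋₊ +
        (⌊W * J⌋₊ + ⌊(U₁ - W₁ - 16 * δ) * J⌋₊ + 6) ≤ J ∧
      (N₀ + ⌊2 * δ * J⌋₊) + ⌊γ * J⌋₊ * (K₂ + 1) + 0 +
        (⌊W * J⌋₊ + ⌊(U₁ - W₁ - 16 * δ) * J⌋₊ + 6) ≤ M + ⌊W * J⌋₊) ∧
      (2 * (N₀ + ⌊2 * δ * J⌋₊) + (⌊20 * δ * J⌋₊ + ⌊γ * J⌋₊) * (K + 1) +
        (⌊W * J⌋₊ + ⌊q * J⌋₊ + 6) ≤ ⌊(D - x / 32) * J⌋₊ ∧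
      2 * (N₀ + ⌊2 * δ * J⌋₊) + (⌊20 * δ * J⌋₊ + ⌊γ * J⌋₊) * (K + 1) + 2 * ⌊x / 32 * J⌋₊ +
        (⌊W * J⌋₊ + ⌊q * J⌋₊ + 6) ≤ J ∧
      2 * (N₀ + ⌊2 * δ * J⌋₊) + (⌊20 * δ * J⌋₊ + ⌊γ * J⌋₊) * (K + 1) +
        (⌊x / 32 * J⌋₊ + 0) + (⌊W * J⌋₊ + ⌊q * J⌋₊ + 6) ≤ M + ⌊W * J⌋₊) ∧
      (⌊W * J⌋₊ + ⌊(U₂ - W₂ + δ) * J⌋₊ ≤
        ⌊W * J⌋₊ + ⌊(U₁ - W₁ - 16 * δ) * J⌋₊ + ⌊20 * δ * J⌋₊ ∧
      ⌊(r' + x / 32) * J⌋₊ + ⌊x / 32 * J⌋₊ + 5 ≤ ⌊W * J⌋₊ ∧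
      ⌊W * J⌋₊ + 2 + ⌊γ * J⌋₊ + 4 ≤ J ∧
      C * (C₀ * τ * J + 1) ≤ ((J : ℝ) - (⌊W * J⌋₊ + 2 : ℕ)) * Real.log 2) ∧
      ((N₀ + ⌊2 * δ * J⌋₊) + 2 * ⌊γ * J⌋₊ + (⌊W * J⌋₊ + 2) + (⌊(q - x) * J⌋₊ + 6) ≤
        ⌊W * J⌋₊ + ⌊q * J⌋₊ ∧
      (N₀ + ⌊2 * δ * J⌋₊) + 2 * ⌊γ * J⌋₊ + 2 * ⌊x / 32 * J⌋₊ + (⌊W * J⌋₊ + 2) +
        (⌊(q - x) * J⌋₊ + 6) ≤ J ∧
      (N₀ + ⌊2 * δ * J⌋₊) + 2 * ⌊γ * J⌋₊ + (⌊x / 32 * J⌋₊ + 0) +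
        (⌊(q - x) * J⌋₊ + 6) ≤ M) ∧
      (⌊W * J⌋₊ + 2 ≤ ⌊W₂ * J⌋₊ ∧ ⌊W₂ * J⌋₊ ≤ J ∧ ⌊W₁ * J⌋₊ ≤ ⌊W * J⌋₊ ∧
        (N₀ + 4 * C + 40 : ℝ) ≤ δ * J) := by
  have hK0 : (0 : ℝ) ≤ K := Nat.cast_nonneg K
  have hK20 : (0 : ℝ) ≤ K₂ := Nat.cast_nonneg K₂
  have hKK' : (K : ℝ) ≤ K₂ := by exact_mod_cast hKK
  have hδ1 : 640 * δ ≤ x := by
    have : δ * 1 ≤ δ * (K + 1) := mul_le_mul_of_nonneg_left (by linarith only [hK0]) hδ.le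
    linarith only [this, hδx]
  have hγK : γ * (K + 1) ≤ δ := by
    have : γ * (K + 1) ≤ γ * (K₂ + 1) := mul_le_mul_of_nonneg_left (by linarith only [hKK']) hγ.le
    linarith only [this, hγδ]
  have hγ1 : γ ≤ δ := by
    have : γ * 1 ≤ γ * (K + 1) := mul_le_mul_of_nonneg_left (by linarith only [hK0]) hγ.le
    linarith only [this, hγK]
  obtain ⟨y, hy⟩ : ∃ y, y = min δ (min (W - W₁) (W₂ - W)) := ⟨_, rfl⟩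
  have hy0 : 0 < y := by
    rw [hy]
    exact lt_min hδ (lt_min (by linarith only [hW₁']) (by linarith only [hW₂]))
  have hy1 : y ≤ δ := by rw [hy]; exact min_le_left _ _
  have hy2 : y ≤ W - W₁ := by rw [hy]; exact (min_le_right _ _).trans (min_le_left _ _)
  have hy3 : y ≤ W₂ - W := by rw [hy]; exact (min_le_right _ _).trans (min_le_right _ _)
  obtain ⟨J₁, hJ₁⟩ := exists_nat_ge ((2 * N₀ + 4 * C + 60 : ℝ) / y)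
  refine ⟨J₁, fun J hJ M hM hM' => ?_⟩
  have hJr : (J₁ : ℝ) ≤ J := by exact_mod_cast hJ
  have hJ0 : (0 : ℝ) ≤ J := Nat.cast_nonneg J
  have hN0 : (0 : ℝ) ≤ N₀ := Nat.cast_nonneg N₀
  have hyJ : (2 * N₀ + 4 * C + 60 : ℝ) ≤ y * J := by
    have h1 := hJ₁.trans hJr
    rw [div_le_iff₀ hy0] at h1
    linarith only [h1]
  have q1 : y * J ≤ δ * J := mul_le_mul_of_nonneg_right hy1 hJ0
  have q2 : y * J ≤ (W - W₁) * J := mul_le_mul_of_nonneg_right hy2 hJ0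
  have q3 : y * J ≤ (W₂ - W) * J := mul_le_mul_of_nonneg_right hy3 hJ0
  have q4 : 640 * (δ * J) ≤ x * J := by
    have := mul_le_mul_of_nonneg_right hδ1 hJ0
    linarith only [this]
  -- the floors
  have f1 : (⌊W * (J : ℝ)⌋₊ : ℝ) ≤ W * J := Nat.floor_le (by positivity)
  have f1' : W * (J : ℝ) - 1 < ⌊W * (J : ℝ)⌋₊ := Nat.sub_one_lt_floor _
  have f2 : (⌊q * (J : ℝ)⌋₊ : ℝ) ≤ q * J := Nat.floor_le (mul_nonneg (by linarith only [hx, hq]) hJ0)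
  have f2' : q * (J : ℝ) - 1 < ⌊q * (J : ℝ)⌋₊ := Nat.sub_one_lt_floor _
  have f3 : (⌊2 * δ * (J : ℝ)⌋₊ : ℝ) ≤ 2 * δ * J := Nat.floor_le (by positivity)
  have f4 : (⌊γ * (J : ℝ)⌋₊ : ℝ) ≤ γ * J := Nat.floor_le (by positivity)
  have f5 : (⌊x / 32 * (J : ℝ)⌋₊ : ℝ) ≤ x / 32 * J := Nat.floor_le (by positivity)
  have f6 : (⌊(r' + x / 32) * (J : ℝ)⌋₊ : ℝ) ≤ (r' + x / 32) * J := Nat.floor_le (by positivity)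
  have f7 : (D - x / 32) * (J : ℝ) - 1 < ⌊(D - x / 32) * (J : ℝ)⌋₊ := Nat.sub_one_lt_floor _
  have f8 : (U₁ - δ) * (J : ℝ) - 1 < ⌊(U₁ - δ) * (J : ℝ)⌋₊ := Nat.sub_one_lt_floor _
  have f9 : (q + x) * (J : ℝ) - 1 < ⌊(q + x) * (J : ℝ)⌋₊ := Nat.sub_one_lt_floor _
  have f9' : (U - W + x) * (J : ℝ) - 1 < ⌊(U - W + x) * (J : ℝ)⌋₊ := Nat.sub_one_lt_floor _
  have f10 : (⌊(q + x) * (J : ℝ)⌋₊ : ℝ) ≤ M := by exact_mod_cast hM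
  have f10' : (⌊(U - W + x) * (J : ℝ)⌋₊ : ℝ) ≤ M := by exact_mod_cast hM'
  have f11 : (⌊(U₁ - W₁ - 16 * δ) * (J : ℝ)⌋₊ : ℝ) ≤ (U₁ - W₁ - 16 * δ) * J :=
    Nat.floor_le (mul_nonneg (by linarith only [hUt, hU₁₂, hU₂, hδ, hW₁']) hJ0)
  have f11' : (U₁ - W₁ - 16 * δ) * (J : ℝ) - 1 < ⌊(U₁ - W₁ - 16 * δ) * (J : ℝ)⌋₊ :=
    Nat.sub_one_lt_floor _
  have f12' : 20 * δ * (J : ℝ) - 1 < ⌊20 * δ * (J : ℝ)⌋₊ := Nat.sub_one_lt_floor _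
  have f12 : (⌊20 * δ * (J : ℝ)⌋₊ : ℝ) ≤ 20 * δ * J := Nat.floor_le (by positivity)
  have f14 : (⌊(q - x) * (J : ℝ)⌋₊ : ℝ) ≤ (q - x) * J :=
    Nat.floor_le (mul_nonneg (by linarith only [hq]) hJ0)
  have f15 : W₂ * (J : ℝ) - 1 < ⌊W₂ * (J : ℝ)⌋₊ := Nat.sub_one_lt_floor _
  -- products
  have g1 : (⌊γ * (J : ℝ)⌋₊ : ℝ) * (K₂ + 1) ≤ δ * J := by
    have a1 : (⌊γ * (J : ℝ)⌋₊ : ℝ) * (K₂ + 1) ≤ γ * J * (K₂ + 1) :=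
      mul_le_mul_of_nonneg_right f4 (by linarith only [hK20])
    have a2 : γ * (J : ℝ) * (K₂ + 1) = γ * (K₂ + 1) * J := by ring
    have a3 : γ * (K₂ + 1) * (J : ℝ) ≤ δ * J := mul_le_mul_of_nonneg_right hγδ hJ0
    linarith only [a1, a2, a3]
  have g2 : ((⌊20 * δ * (J : ℝ)⌋₊ : ℝ) + ⌊γ * (J : ℝ)⌋₊) * (K + 1) ≤ x / 32 * J + δ * J := by
    have a1 : (⌊20 * δ * (J : ℝ)⌋₊ : ℝ) * (K + 1) ≤ 20 * δ * J * (K + 1) :=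
      mul_le_mul_of_nonneg_right f12 (by linarith only [hK0])
    have a2 : (⌊γ * (J : ℝ)⌋₊ : ℝ) * (K + 1) ≤ γ * J * (K + 1) :=
      mul_le_mul_of_nonneg_right f4 (by linarith only [hK0])
    have a3 : γ * (J : ℝ) * (K + 1) = γ * (K + 1) * J := by ring
    have a4 : γ * (K + 1) * (J : ℝ) ≤ δ * J := mul_le_mul_of_nonneg_right hγK hJ0
    have a5 : 20 * δ * (J : ℝ) * (K + 1) = (640 * (δ * (K + 1))) / 32 * J := by ring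
    have a6 : (640 * (δ * (K + 1))) / 32 * (J : ℝ) ≤ x / 32 * J :=
      mul_le_mul_of_nonneg_right (by linarith only [hδx]) hJ0
    linarith only [a1, a2, a3, a4, a5, a6]
  have g3 : γ * (J : ℝ) ≤ δ * J := mul_le_mul_of_nonneg_right hγ1 hJ0
  have g4 : (q + x) * J ≤ (D - W) * J := mul_le_mul_of_nonneg_right hqD hJ0
  have g5 : (U + x) * J ≤ 1 * J := mul_le_mul_of_nonneg_right hU1 hJ0
  have g6 : D * J ≤ 1 * J := mul_le_mul_of_nonneg_right hD1 hJ0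
  have g11 : (r' + x) * J ≤ W * J := mul_le_mul_of_nonneg_right hrs hJ0
  have g12 : x * (J : ℝ) ≤ q * J := mul_le_mul_of_nonneg_right hq hJ0
  have g16 : (U₁ - W₁) * J ≤ (U - W) * J + δ * J := by
    have := mul_le_mul_of_nonneg_right (by linarith only [hU₁, hW₁] : U₁ - W₁ ≤ U - W + δ) hJ0
    linarith only [this]
  have g17 : W * (J : ℝ) ≤ W₁ * J + δ * J := by
    have := mul_le_mul_of_nonneg_right (by linarith only [hW₁] : W ≤ W₁ + δ) hJ0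
    linarith only [this]
  have g18 : (U₂ - U₁) * J ≤ 2 * δ * J := mul_le_mul_of_nonneg_right hU₁₂ hJ0
  have g19 : (W₁ : ℝ) * J ≤ W₂ * J :=
    mul_le_mul_of_nonneg_right (by linarith only [hW₁', hW₂]) hJ0
  have l2 := Real.log_two_gt_d9
  have hsp : (⌊(U₂ - W₂ + δ) * (J : ℝ)⌋₊ : ℝ) ≤
      (⌊(U₁ - W₁ - 16 * δ) * (J : ℝ)⌋₊ : ℝ) + ⌊20 * δ * (J : ℝ)⌋₊ := by
    rcases le_or_gt 0 ((U₂ - W₂ + δ) * (J : ℝ)) with h | h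
    · have f13 : (⌊(U₂ - W₂ + δ) * (J : ℝ)⌋₊ : ℝ) ≤ (U₂ - W₂ + δ) * J := Nat.floor_le h
      linarith only [f13, f11', f12', g18, g19, q1, hyJ, hC, hN0]
    · rw [Nat.floor_of_nonpos h.le]
      push_cast
      positivity
  refine ⟨⟨?_, ?_, ?_⟩, ⟨?_, ?_, ?_⟩, ⟨?_, ?_, ?_, ?_⟩, ⟨?_, ?_, ?_⟩, ⟨?_, ?_, ?_, ?_⟩⟩
  · rw [← Nat.cast_le (α := ℝ)]
    push_cast
    linarith only [f1, f3, f8, f11, g1, g17, q1, hyJ, hC, hN0]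
  · rw [← Nat.cast_le (α := ℝ)]
    push_cast
    linarith only [f1, f3, f5, f11, g1, g5, g17, g16, q1, q4, hyJ, hC, hN0]
  · rw [← Nat.cast_le (α := ℝ)]
    push_cast
    linarith only [f3, f9', f10', f11, g1, g16, q1, q4, hyJ, hC, hN0]
  · rw [← Nat.cast_le (α := ℝ)]
    push_cast
    linarith only [f1, f2, f3, f7, g2, g4, q1, q4, hyJ, hC, hN0]
  · rw [← Nat.cast_le (α := ℝ)]
    push_cast
    linarith only [f1, f2, f3, f5, g2, g4, g6, q1, q4, hyJ, hC, hN0]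
  · rw [← Nat.cast_le (α := ℝ)]
    push_cast
    linarith only [f2, f3, f5, f9, f10, g2, q1, q4, hyJ, hC, hN0]
  · rw [← Nat.cast_le (α := ℝ)]
    push_cast
    linarith only [hsp]
  · rw [← Nat.cast_le (α := ℝ)]
    push_cast
    linarith only [f1', f5, f6, g11, q1, q4, hyJ, hC, hN0]
  · rw [← Nat.cast_le (α := ℝ)]
    push_cast
    linarith only [f1, f4, g3, g4, g6, g12, q1, q4, hyJ, hC, hN0]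
  · have h1 : q * J + x * J - 2 ≤ (J : ℝ) - (⌊W * (J : ℝ)⌋₊ + 2 : ℕ) := by
      push_cast
      linarith only [f1, g4, g6]
    have h2 : 0 ≤ q * J + x * J - 2 := by linarith only [g12, q1, q4, hyJ, hC, hN0]
    have h3 : (q * J + x * J - 2) * (1 / 2) ≤
        ((J : ℝ) - (⌊W * (J : ℝ)⌋₊ + 2 : ℕ)) * Real.log 2 :=
      mul_le_mul h1 (by linarith only [l2]) (by norm_num) (h2.trans h1)
    have h4 : C * (C₀ * τ * J) ≤ δ / 2 * J := by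
      calc C * (C₀ * τ * J) = C * (C₀ * τ) * J := by ring
        _ ≤ δ / 2 * J := mul_le_mul_of_nonneg_right hCτ hJ0
    linarith only [h3, h4, g12, q1, q4, hyJ, hC, hN0]
  · rw [← Nat.cast_le (α := ℝ)]
    push_cast
    linarith only [f2', f3, f4, f14, g3, q1, q4, hyJ, hC, hN0]
  · rw [← Nat.cast_le (α := ℝ)]
    push_cast
    linarith only [f1, f3, f4, f5, f14, g3, g4, g6, q1, q4, hyJ, hC, hN0]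
  · rw [← Nat.cast_le (α := ℝ)]
    push_cast
    linarith only [f3, f4, f5, f9, f10, f14, g3, q1, q4, hyJ, hC, hN0]
  · rw [← Nat.cast_le (α := ℝ)]
    push_cast
    linarith only [f1, f15, q3, hyJ, hC, hN0]
  · refine Nat.floor_le_of_le ?_
    exact mul_le_of_le_one_left hJ0 hW₂1
  · exact Nat.floor_le_floor (mul_le_mul_of_nonneg_right hW₁'.le hJ0)
  · linarith only [q1, hyJ, hN0]

end Pool.MIC6
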