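import Pool.Agent.H6.OWN.Rel

/-!
# A gain over two coordinates forces equal speeds

`gain_slo`: if the zooms of a class have closed labels of `k` over `κ`, `ι` with a gain, then the
difference of the numbers of the labels of `v = ε k` and of `u = ε ι` over `y = ε κ` is constant in
the windows in the range of the gain.
-/

set_option autoImplicit false

namespace Pool.MIC6

open Finset MvPolynomial
open Pool.Agent.H49.Ent Pool.Agent.H32.Dense Pool.STK Pool.KA Pool.KSAT Pool.K2S Pool.PB Pool.GEN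
open Pool.S6C
open Pool.REX

variable {m n J : ℕ}

/-- The line in a window as a function of the line in a shorter window. -/
theorem slam_fac (F : Fam m J) {w w' : ℕ} (hw : w ≤ w') (hw' : w' ≤ J) :
    ∃ φ : LnT F → LnT F, ∀ ω, slam F w ω = φ (slam F w' ω) :=
  ⟨fun s => (s.1, s.2.1, s.2.2 / 2 ^ (w' - w)), fun ω => slam_coarse F hw hw' ω⟩

/-- Division of the relation. -/
theorem rel_div {ga gb ju jv au av T E₁ E₂ X : ℝ} (h : |ga + gb * au - av| ≤ E₁)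
    (hj : |jv - av| ≤ E₂) (hT : 0 < T) (hg : T ≤ |gb|) (hu : ju = (jv - ga) / gb)
    (hX : (E₁ + E₂) / T ≤ X) : |ju - au| ≤ X := by
  have hg0 : 0 < |gb| := lt_of_lt_of_le hT hg
  have hgb : gb ≠ 0 := abs_pos.1 hg0
  have e1 : ju - au = ((jv - av) - (ga + gb * au - av)) / gb := by
    rw [hu]
    field_simp
    ring
  rw [e1, abs_div]
  have h1 : |(jv - av) - (ga + gb * au - av)| ≤ E₁ + E₂ :=
    (abs_sub _ _).trans (by linarith)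
  have h2 : 0 ≤ E₁ + E₂ := (abs_nonneg _).trans h1
  refine le_trans ?_ hX
  calc |(jv - av) - (ga + gb * au - av)| / |gb| ≤ (E₁ + E₂) / |gb| :=
        div_le_div_of_nonneg_right h1 hg0.le
    _ ≤ (E₁ + E₂) / T := div_le_div_of_nonneg_left h2 hT hg

/-- Multiplication of the relation. -/
theorem rel_mul {ga gb ju au av T E₁ E₂ X : ℝ} (h : |ga + gb * au - av| ≤ E₁)
    (hj : |ju - au| ≤ E₂) (hg : |gb| ≤ T) (hX : E₁ + T * E₂ ≤ X) :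
    |(ga + gb * ju) - av| ≤ X := by
  have e1 : (ga + gb * ju) - av = (ga + gb * au - av) + gb * (ju - au) := by ring
  rw [e1]
  refine (abs_add_le _ _).trans (le_trans (add_le_add h ?_) hX)
  rw [abs_mul]
  exact mul_le_mul hg hj (abs_nonneg _) ((abs_nonneg _).trans hg)

/-- A power of two from exponents. -/
theorem pow_frac {a b c : ℕ} (h : a + c ≤ b) : (2 : ℝ) ^ a / 2 ^ b ≤ 1 / 2 ^ c := by
  rw [div_le_div_iff₀ (by positivity) (by positivity), one_mul, ← pow_add]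
  exact pow_le_pow_right₀ (by norm_num) h

/-- **A gain over two coordinates forces equal speeds.** -/
theorem gain_slo {S : PCl m} {C₀ : ℝ} (hC₀ : 0 ≤ C₀) (htm : TmC S C₀) (hne : S.Ne) (v : Vz m)
    (ε : Fin n → Fin m) {L : Finset (Fin m) → Fin m → ℝ → ℝ → ℝ} (hL : LamW S L)
    {L' : Finset (Fin n) → Fin n → ℝ → ℝ → ℝ} (hL' : LamW (RecV S v ε) L')
    {κ ι k : Fin n} (hκι : κ ≠ ι) (hact : ActZ S v ε κ) (hactF : ActF S (ε κ))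
    {w' w r' a₀ a : ℝ} (hw' : w' < w) (hr0 : 0 ≤ r') (hr' : r' < w) (hw0 : 0 < w) (hw1 : w < 1)
    (ha0 : 0 ≤ a₀) (ha : a₀ < a) (ha1 : a < 1) {V₁' W₁ V₂' W₂ D : ℝ} (hV₁ : V₁' < W₁)
    (hV₂ : V₂' < W₂) (hW₁ : v.tm w < W₁) (hW₂ : v.tm w < W₂) (hW0 : 0 < W₁) (hW0' : 0 < W₂)
    (hD : D ≤ L {ε κ} (ε ι) a₀ a₀ - a - v.p * (1 - v.b))
    (hD' : D ≤ L {ε κ} (ε k) a₀ a₀ - a - v.p * (1 - v.b))
    (hd1 : L {ε κ} (ε k) V₁' 0 - W₁ < D) (hd2 : L {ε κ} (ε ι) W₁ 0 - W₁ < D)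
    (hd3 : L {ε κ} (ε k) W₂ 0 - W₂ < D) (hd4 : L {ε κ} (ε ι) V₂' 0 - W₂ < D)
    (hg1 : L {ε κ} (ε k) V₁' 0 - W₁ < v.sc (L' {κ, ι} k w' r') - v.p * (1 - v.b) - v.tm w)
    (hg2 : L {ε κ} (ε k) W₂ 0 - W₂ < v.sc (L' {κ, ι} k w' r') - v.p * (1 - v.b) - v.tm w)
    (hp1 : W₁ < L {ε κ} (ε k) V₁' 0) (hp2 : W₂ < L {ε κ} (ε ι) V₂' 0)
    (hl1 : L {ε κ} (ε ι) W₁ 0 < 1) (hl2 : L {ε κ} (ε k) W₂ 0 < 1) :
    L {ε κ} (ε k) V₁' 0 - L {ε κ} (ε ι) W₁ 0 ≤ L {ε κ} (ε k) W₂ 0 - L {ε κ} (ε ι) V₂' 0 := by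
  classical
  by_contra hcon
  push Not at hcon
  have hb := v.b0
  have hb1 := v.b1
  have hp := v.p0
  have hpp1 := v.p1
  have hcp : 0 < (1 - v.b) * (1 - v.p) := mul_pos (by linarith) (by linarith)
  have hpb : 0 ≤ v.p * (1 - v.b) := mul_nonneg hp (by linarith)
  obtain ⟨Λ, hΛ⟩ : ∃ Λ, Λ = v.sc (L' {κ, ι} k w' r') - v.p * (1 - v.b) - v.tm w := ⟨_, rfl⟩
  obtain ⟨x₁, hx₁⟩ : ∃ x, x = L {ε κ} (ε k) V₁' 0 := ⟨_, rfl⟩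
  obtain ⟨y₁, hy₁⟩ : ∃ x, x = L {ε κ} (ε ι) W₁ 0 := ⟨_, rfl⟩
  obtain ⟨x₂, hx₂⟩ : ∃ x, x = L {ε κ} (ε k) W₂ 0 := ⟨_, rfl⟩
  obtain ⟨y₂, hy₂⟩ : ∃ x, x = L {ε κ} (ε ι) V₂' 0 := ⟨_, rfl⟩
  rw [← hx₁, ← hy₁, ← hx₂, ← hy₂] at hcon
  rw [← hx₁] at hd1 hg1 hp1
  rw [← hy₁] at hd2 hl1
  rw [← hx₂] at hd3 hg2 hl2
  rw [← hy₂] at hd4 hp2
  rw [← hΛ] at hg1 hg2
  have hx₁1 : x₁ ≤ 1 := by rw [hx₁]; exact hL.le1 _ _ _ _
  have hy₂1 : y₂ ≤ 1 := by rw [hy₂]; exact hL.le1 _ _ _ _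
  have hW₁1 : W₁ < 1 := by linarith
  have hW₂1 : W₂ < 1 := by linarith
  have hy₁W : W₁ ≤ y₁ := by rw [hy₁]; exact hL.low _ _ _ _ hW₁1.le
  have hx₂W : W₂ ≤ x₂ := by rw [hx₂]; exact hL.low _ _ _ _ hW₂1.le
  -- the small parameter
  obtain ⟨s, hs⟩ : ∃ s, s = min (min (min 1 ((1 - v.b) * (1 - v.p) * (w - r')))
    (min (x₁ - y₁ - (x₂ - y₂)) (min (D - (x₁ - W₁)) (min (D - (y₁ - W₁))
      (min (D - (x₂ - W₂)) (D - (y₂ - W₂))))))) (min (min (Λ - (x₁ - W₁)) (Λ - (x₂ - W₂)))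
      (min (min (x₁ - W₁) (y₂ - W₂)) (min (min (1 - y₁) (1 - x₂))
      (min (W₁ - v.tm w) (W₂ - v.tm w))))) / 128 := ⟨_, rfl⟩
  obtain ⟨s₀, hs₀⟩ : ∃ s₀, s₀ = 128 * s := ⟨_, rfl⟩
  have hs₀' : s₀ = min (min (min 1 ((1 - v.b) * (1 - v.p) * (w - r')))
    (min (x₁ - y₁ - (x₂ - y₂)) (min (D - (x₁ - W₁)) (min (D - (y₁ - W₁))
      (min (D - (x₂ - W₂)) (D - (y₂ - W₂))))))) (min (min (Λ - (x₁ - W₁)) (Λ - (x₂ - W₂)))
      (min (min (x₁ - W₁) (y₂ - W₂)) (min (min (1 - y₁) (1 - x₂))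
      (min (W₁ - v.tm w) (W₂ - v.tm w))))) := by
    rw [hs₀, hs]
    ring
  have hs₀0 : 0 < s₀ := by
    rw [hs₀']
    refine lt_min (lt_min (lt_min one_pos (mul_pos hcp (by linarith))) (lt_min (by linarith)
      (lt_min (by linarith) (lt_min (by linarith) (lt_min (by linarith) (by linarith))))))
      (lt_min (lt_min (by linarith) (by linarith)) (lt_min (lt_min (by linarith) (by linarith))
      (lt_min (lt_min (by linarith) (by linarith)) (lt_min (by linarith) (by linarith)))))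
  have hs0 : 0 < s := by linarith
  have c1 : s₀ ≤ 1 ∧ s₀ ≤ (1 - v.b) * (1 - v.p) * (w - r') ∧ s₀ ≤ x₁ - y₁ - (x₂ - y₂) ∧
      s₀ ≤ D - (x₁ - W₁) ∧ s₀ ≤ D - (y₁ - W₁) ∧ s₀ ≤ D - (x₂ - W₂) ∧ s₀ ≤ D - (y₂ - W₂) ∧
      s₀ ≤ Λ - (x₁ - W₁) ∧ s₀ ≤ Λ - (x₂ - W₂) ∧ s₀ ≤ x₁ - W₁ ∧ s₀ ≤ y₂ - W₂ ∧ s₀ ≤ 1 - y₁ ∧
      s₀ ≤ 1 - x₂ ∧ s₀ ≤ W₁ - v.tm w ∧ s₀ ≤ W₂ - v.tm w := by
    have := hs₀'.le
    simp only [le_min_iff] at this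
    tauto
  obtain ⟨c1, c2, c3, c4, c5, c6, c7, c8, c9, c10, c11, c12, c13, c14, c15⟩ := c1
  -- the precision of the relation
  obtain ⟨q, hq⟩ : ∃ q, q = max (x₁ - W₁) (x₂ - W₂) + 8 * s := ⟨_, rfl⟩
  have hq1 : x₁ - W₁ + 8 * s ≤ q := by rw [hq]; linarith [le_max_left (x₁ - W₁) (x₂ - W₂)]
  have hq2 : x₂ - W₂ + 8 * s ≤ q := by rw [hq]; linarith [le_max_right (x₁ - W₁) (x₂ - W₂)]
  have hq0 : 0 ≤ q := by linarith
  have hqΛ : q + 8 * s ≤ Λ := by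
    rw [hq]
    rcases max_choice (x₁ - W₁) (x₂ - W₂) with h | h <;> rw [h] <;> linarith
  have hqD : q + 16 * s ≤ D := by
    rw [hq]
    rcases max_choice (x₁ - W₁) (x₂ - W₂) with h | h <;> rw [h] <;> linarith
  -- the statements of the class
  have hrel := rel_cls hC₀ htm v ε hL' hκι hact (k := k) hw' hr0 hw0 hw1 hs0 (by linarith) hq0
    (by linarith) (by rw [← hΛ]; exact hqΛ)
  have hnv := nat_cls hC₀ htm hL (v := ε k) hactF hV₁ hW0 hs0 (by rw [← hx₁]; linarith)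
  have hnu := nat_cls hC₀ htm hL (v := ε ι) hactF hV₂ hW0' hs0 (by rw [← hy₂]; linarith)
  obtain ⟨d₁, hd₁0, hau⟩ := abs_cls htm hL (y := ε κ) (v := ε ι) (W := W₁) (s := s) hW0.le hs0
    (by rw [← hy₁]; exact hy₁W) (by rw [← hy₁]; linarith)
  obtain ⟨d₂, hd₂0, hav⟩ := abs_cls htm hL (y := ε κ) (v := ε k) (W := W₂) (s := s) hW0'.le hs0
    (by rw [← hx₂]; exact hx₂W) (by rw [← hx₂]; linarith)
  obtain ⟨e, he⟩ : ∃ e, e = min (min d₁ d₂) (min s ((a - a₀) / 3)) := ⟨_, rfl⟩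
  have he0 : 0 < e := by
    rw [he]
    exact lt_min (lt_min hd₁0 hd₂0) (lt_min hs0 (by linarith))
  have he1 : e ≤ d₁ := by rw [he]; exact (min_le_left _ _).trans (min_le_left _ _)
  have he2 : e ≤ d₂ := by rw [he]; exact (min_le_left _ _).trans (min_le_right _ _)
  have hes : e ≤ s := by rw [he]; exact (min_le_right _ _).trans (min_le_left _ _)
  have hea : a₀ + 3 * e ≤ a := by
    have : e ≤ (a - a₀) / 3 := by rw [he]; exact (min_le_right _ _).trans (min_le_right _ _)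
    linarith
  obtain ⟨DM, hDM⟩ : ∃ DM, DM = D + v.p * (1 - v.b) - 4 * e := ⟨_, rfl⟩
  have hdu := dp_cls hL (ε κ) (ε ι) ha0 ha ha1 he0 hea (by linarith)
  have hdv := dp_cls hL (ε κ) (ε k) ha0 ha ha1 he0 hea (by linarith)
  obtain ⟨τ₁, hτ₁, J₁, b₁⟩ := hrel
  obtain ⟨τ₂, hτ₂, J₂, b₂⟩ := hnv
  obtain ⟨τ₃, hτ₃, J₃, b₃⟩ := hnu
  obtain ⟨τ₄, hτ₄, J₄, b₄⟩ := hau e he0 he1
  obtain ⟨τ₅, hτ₅, J₅, b₅⟩ := hav e he0 he2
  obtain ⟨τ₆, hτ₆, J₆, b₆⟩ := hdu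
  obtain ⟨τ₇, hτ₇, J₇, b₇⟩ := hdv
  rw [← hx₁] at b₂
  rw [← hy₂] at b₃
  rw [← hy₁] at b₄
  rw [← hx₂] at b₅
  obtain ⟨τ, hτ⟩ : ∃ τ, τ = min (min τ₁ (min τ₆ τ₇)) (min (min (τ₂ / 2) (τ₃ / 2))
    (min (τ₄ / 2) (τ₅ / 2))) := ⟨_, rfl⟩
  have hτ0 : 0 < τ := by
    rw [hτ]
    exact lt_min (lt_min hτ₁ (lt_min hτ₆ hτ₇)) (lt_min (lt_min (by linarith) (by linarith))
      (lt_min (by linarith) (by linarith)))
  have t0 : τ ≤ τ₁ ∧ τ ≤ τ₆ ∧ τ ≤ τ₇ ∧ τ ≤ τ₂ / 2 ∧ τ ≤ τ₃ / 2 ∧ τ ≤ τ₄ / 2 ∧ τ ≤ τ₅ / 2 := by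
    have := hτ.le
    simp only [le_min_iff] at this
    tauto
  obtain ⟨t1, t6, t7, t2, t3, t4, t5⟩ := t0
  obtain ⟨J₈, hJ₈⟩ := exists_nat_ge (max ((100 : ℝ) / s) (Real.log 64 / τ))
  obtain ⟨J, hJ, F, A, hA⟩ := hne τ hτ0 (J₁ + J₂ + J₃ + J₄ + J₅ + J₆ + J₇ + J₈)
  have hJ8 : (J₈ : ℝ) ≤ J := by exact_mod_cast (by omega : J₈ ≤ J)
  have hJ0 : (0 : ℝ) ≤ J := Nat.cast_nonneg J
  have q1 : (100 : ℝ) ≤ s * J := by
    have h1 := ((le_max_left _ _).trans hJ₈).trans hJ8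
    rw [div_le_iff₀ hs0] at h1
    linarith
  have hlog : Real.log 64 ≤ τ * J := by
    have h1 := ((le_max_right _ _).trans hJ₈).trans hJ8
    rw [div_le_iff₀ hτ0] at h1
    linarith
  have hA0 := (htm τ J F A hτ0 hA).1
  obtain ⟨au, cu, hdu⟩ := b₆ J (by omega) F A (S.mono t6 hA)
  obtain ⟨av, cv, hdv⟩ := b₇ J (by omega) F A (S.mono t7 hA)
  obtain ⟨M, hM⟩ : ∃ M, M = ⌊DM * J⌋₊ := ⟨_, rfl⟩
  have hdu' : Dp F A (ε κ) (ε ι) ⌊e * J⌋₊ M au cu := by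
    refine hdu.mono le_rfl ?_
    rw [hM]
    exact Nat.floor_le_floor (mul_le_mul_of_nonneg_right (by linarith) hJ0)
  have hdv' : Dp F A (ε κ) (ε k) ⌊e * J⌋₊ M av cv := by
    refine hdv.mono le_rfl ?_
    rw [hM]
    exact Nat.floor_le_floor (mul_le_mul_of_nonneg_right (by linarith) hJ0)
  have hMge : ∀ x : ℝ, x ≤ DM → ⌊x * J⌋₊ ≤ M := by
    intro x hx
    rw [hM]
    exact Nat.floor_le_floor (mul_le_mul_of_nonneg_right hx hJ0)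
  have heJ : ⌊e * (J : ℝ)⌋₊ ≤ ⌊s * (J : ℝ)⌋₊ :=
    Nat.floor_le_floor (mul_le_mul_of_nonneg_right hes hJ0)
  obtain ⟨B, hBA, hPB, ga, gb, hB⟩ := b₁ J (by omega) F A (S.mono t1 hA) au cu av cv _ M heJ
    (hMge _ (by linarith)) hdu' hdv'
  -- the windows
  obtain ⟨w₀, hw₀⟩ : ∃ w₀, w₀ = v.B J + ⌊w * v.R J⌋₊ := ⟨_, rfl⟩
  rw [← hw₀] at hB
  have hres : ∀ (B' : F.Ω → Prop), Sub B' A → Pe F.p A ≤ 64 * Pe F.p B' →
      S.St (2 * τ) J F B' := fun B' h1 h2 => res_of hτ0.le hA h1 (by norm_num) hlog h2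
  have hpA : 0 ≤ Pe F.p A := Pe_nonneg F.isLaw A
  have hwin : ∀ W : ℝ, W < 1 → s₀ ≤ W - v.tm w → w₀ ≤ ⌊W * J⌋₊ ∧ ⌊W * J⌋₊ ≤ J := by
    intro W h1 h2
    obtain ⟨r1, r2, r3, r4, r5⟩ := vz_real v J
    have f1 : (⌊w * (v.R J : ℝ)⌋₊ : ℝ) ≤ w * v.R J := Nat.floor_le (by positivity)
    have htm' : v.tm w = v.b + (1 - v.b) * (1 - v.p) * w := rfl
    have f2 : w * (v.R J : ℝ) ≤ w * ((1 - v.b) * (1 - v.p) * J + 2) :=
      mul_le_mul_of_nonneg_left r5 hw0.le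
    have f3 : s₀ * J ≤ (W - v.tm w) * J := mul_le_mul_of_nonneg_right h2 hJ0
    have f4 : W * (J : ℝ) - 1 < ⌊W * (J : ℝ)⌋₊ := Nat.sub_one_lt_floor _
    constructor
    · rw [hw₀, ← Nat.cast_le (α := ℝ)]
      push_cast
      rw [htm'] at f3
      rw [hs₀] at f3
      linarith only [r2, f1, f2, f3, f4, q1, hw1, hw0]
    · refine Nat.floor_le_of_le ?_
      exact mul_le_of_le_one_left hJ0 h1.le
  -- the exponents
  have hfl : ∀ x : ℝ, 0 ≤ x → (⌊x * (J : ℝ)⌋₊ : ℝ) ≤ x * J := fun x hx =>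
    Nat.floor_le (mul_nonneg hx hJ0)
  have hfl' : ∀ x : ℝ, x * (J : ℝ) - 1 < ⌊x * (J : ℝ)⌋₊ := fun x => Nat.sub_one_lt_floor _
  obtain ⟨EA, hEA⟩ : ∃ E, E = ⌊(y₂ - W₂) * (J : ℝ)⌋₊ := ⟨_, rfl⟩
  obtain ⟨EB, hEB⟩ : ∃ E, E = ⌊(x₂ - W₂ + 12 * s) * (J : ℝ)⌋₊ := ⟨_, rfl⟩
  obtain ⟨u₂, hu₂⟩ : ∃ E, E = ⌊(y₂ - W₂ - 8 * s) * (J : ℝ)⌋₊ := ⟨_, rfl⟩
  obtain ⟨v₂, hv₂⟩ : ∃ E, E = ⌊(x₂ - W₂ + s) * (J : ℝ)⌋₊ := ⟨_, rfl⟩
  obtain ⟨v₁, hv₁⟩ : ∃ E, E = ⌊(x₁ - W₁ - 8 * s) * (J : ℝ)⌋₊ := ⟨_, rfl⟩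
  obtain ⟨u₁, hu₁⟩ : ∃ E, E = ⌊(y₁ - W₁ + s) * (J : ℝ)⌋₊ := ⟨_, rfl⟩
  obtain ⟨Q, hQ⟩ : ∃ E, E = ⌊q * (J : ℝ)⌋₊ := ⟨_, rfl⟩
  rw [← hQ] at hB
  have n1 : EA + v₂ + 1 ≤ EB + u₂ := by
    rw [← Nat.cast_le (α := ℝ)]
    push_cast
    have a1 := hfl (y₂ - W₂) (by linarith)
    have a2 := hfl (x₂ - W₂ + s) (by linarith)
    have a3 := hfl' (x₂ - W₂ + 12 * s)
    have a4 := hfl' (y₂ - W₂ - 8 * s)
    rw [← hEA] at a1
    rw [← hv₂] at a2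
    rw [← hEB] at a3
    rw [← hu₂] at a4
    linarith only [a1, a2, a3, a4, q1]
  have n2 : v₂ + 1 ≤ Q := by
    rw [← Nat.cast_le (α := ℝ)]
    push_cast
    have a2 := hfl (x₂ - W₂ + s) (by linarith)
    have a3 := hfl' q
    rw [← hv₂] at a2
    rw [← hQ] at a3
    have a4 : (x₂ - W₂ + 8 * s) * J ≤ q * J := mul_le_mul_of_nonneg_right hq2 hJ0
    linarith only [a2, a3, a4, q1]
  have hc3 : s₀ * J ≤ (x₁ - y₁ - (x₂ - y₂)) * J := mul_le_mul_of_nonneg_right c3 hJ0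
  rw [hs₀] at hc3
  have n3 : EB + u₁ + 1 ≤ EA + v₁ := by
    rw [← Nat.cast_le (α := ℝ)]
    push_cast
    have a1 := hfl (x₂ - W₂ + 12 * s) (by linarith)
    have a2 := hfl (y₁ - W₁ + s) (by linarith)
    have a3 := hfl' (y₂ - W₂)
    have a4 := hfl' (x₁ - W₁ - 8 * s)
    rw [← hEB] at a1
    rw [← hu₁] at a2
    rw [← hEA] at a3
    rw [← hv₁] at a4
    linarith only [a1, a2, a3, a4, q1, hc3]
  have n4 : EB + u₁ + 1 ≤ EA + Q := by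
    rw [← Nat.cast_le (α := ℝ)]
    push_cast
    have a1 := hfl (x₂ - W₂ + 12 * s) (by linarith)
    have a2 := hfl (y₁ - W₁ + s) (by linarith)
    have a3 := hfl' (y₂ - W₂)
    have a4 := hfl' q
    rw [← hEB] at a1
    rw [← hu₁] at a2
    rw [← hEA] at a3
    rw [← hQ] at a4
    have a5 : (x₁ - W₁ + 8 * s) * J ≤ q * J := mul_le_mul_of_nonneg_right hq1 hJ0
    linarith only [a1, a2, a3, a4, a5, q1, hc3]
  obtain ⟨T, hT⟩ : ∃ T : ℝ, T = 2 ^ EA / 2 ^ EB := ⟨_, rfl⟩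
  have hT0 : 0 < T := by rw [hT]; positivity
  have hhalf : ∀ a : ℕ, (1 : ℝ) / 2 ^ (a + 1) + 1 / 2 ^ (a + 1) = 1 / 2 ^ a := by
    intro a
    rw [pow_succ]
    field_simp
    norm_num
  -- the two cases
  have hparts := Pe_parts (p := F.p) (B := B)
    (B' := fun ω => B ω ∧ T ≤ |gb (slam F w₀ ω)|) fun ω hω => hω.1
  rcases le_or_gt (Pe F.p B / 2) (Pe F.p fun ω => B ω ∧ T ≤ |gb (slam F w₀ ω)|) with hc | hc
  · -- large slopes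
    obtain ⟨hw1', hw1''⟩ := hwin W₁ hW₁1 c14
    obtain ⟨φ, hφ⟩ := slam_fac F hw1' hw1''
    obtain ⟨B', e1, e2, j, e3⟩ := b₂ J (by omega) F _ (S.mono (by linarith : 2 * τ ≤ τ₂)
      (hres (fun ω => B ω ∧ T ≤ |gb (slam F w₀ ω)|) (fun ω hω => hBA ω hω.1) (by linarith)))
      av cv _ M (hdv'.sub fun ω hω => hBA ω hω.1) heJ (hMge _ (by linarith))
    refine b₄ J (by omega) F B' (S.mono (by linarith : 2 * τ ≤ τ₄)
      (hres B' (fun ω hω => hBA ω (e1 ω hω).1) (by linarith))) au cu M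
      (hdu'.sub fun ω hω => hBA ω (e1 ω hω).1) (hMge _ (by linarith))
      (fun s' => (j s' - ga (φ s')) / gb (φ s')) ?_
    intro ω hω
    have h1 := hB ω (e1 ω hω).1
    have h2 := e3 ω hω
    have h3 := (e1 ω hω).2
    rw [← hv₁] at h2
    rw [hφ] at h1 h3
    rw [← hu₁]
    refine rel_div h1 h2 hT0 h3 rfl ?_
    have e4 : (1 / 2 ^ Q + 1 / 2 ^ v₁) / T = (2 : ℝ) ^ EB / 2 ^ (EA + Q) +
        2 ^ EB / 2 ^ (EA + v₁) := by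
      rw [hT, pow_add, pow_add]
      field_simp
    rw [e4, ← hhalf u₁]
    exact add_le_add (pow_frac (by omega)) (pow_frac (by omega))
  · -- small slopes
    obtain ⟨hw1', hw1''⟩ := hwin W₂ hW₂1 c15
    obtain ⟨φ, hφ⟩ := slam_fac F hw1' hw1''
    have hPe : Pe F.p B / 2 ≤
        Pe F.p (fun ω => B ω ∧ ¬ (B ω ∧ T ≤ |gb (slam F w₀ ω)|)) := by linarith
    obtain ⟨B', e1, e2, j, e3⟩ := b₃ J (by omega) F _ (S.mono (by linarith : 2 * τ ≤ τ₃)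
      (hres (fun ω => B ω ∧ ¬ (B ω ∧ T ≤ |gb (slam F w₀ ω)|)) (fun ω hω => hBA ω hω.1)
        (by linarith)))
      au cu _ M (hdu'.sub fun ω hω => hBA ω hω.1) heJ (hMge _ (by linarith))
    refine b₅ J (by omega) F B' (S.mono (by linarith : 2 * τ ≤ τ₅)
      (hres B' (fun ω hω => hBA ω (e1 ω hω).1) (by linarith))) av cv M
      (hdv'.sub fun ω hω => hBA ω (e1 ω hω).1) (hMge _ (by linarith))
      (fun s' => ga (φ s') + gb (φ s') * j s') ?_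
    intro ω hω
    have h1 := hB ω (e1 ω hω).1
    have h2 := e3 ω hω
    have h3 : |gb (slam F w₀ ω)| ≤ T := by
      have h4 := (e1 ω hω).2
      by_contra h5
      exact h4 ⟨(e1 ω hω).1, (not_le.1 h5).le⟩
    rw [← hu₂] at h2
    rw [hφ] at h1 h3
    rw [← hv₂]
    refine rel_mul h1 h2 h3 ?_
    have e4 : T * (1 / 2 ^ u₂) = (2 : ℝ) ^ EA / 2 ^ (EB + u₂) := by
      rw [hT, pow_add]
      field_simp
    rw [e4, ← hhalf v₂]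
    exact add_le_add (inv_mono (by omega)) (pow_frac (by omega))

end Pool.MIC6
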