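import Pool.Agent.H6.OWN.Bfm
import Pool.Agent.H6.OWN.BmN
import Pool.Agent.H6.OWN.Bfc

/-!
# Affine labels over two coordinates in a class, without slopes of the third coordinate

`aff_bcn`: `aff_bcl` without assumptions on the velocities of the coordinate `v = k`: it needs the
slope `au` of `u = ι` over `y = κ` at the exact points only. `AfL.dp`: the slope of `v` over `y`.
-/

set_option autoImplicit false

namespace Pool.MIC6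

open Finset MvPolynomial
open Pool.Agent.H49.Ent Pool.Agent.H32.Dense Pool.STK Pool.KA Pool.KSAT Pool.K2S Pool.PB Pool.GEN
open Pool.S6C
open Pool.FLF (Fam.sub)
open Pool.GRD (LbP)
open Pool.REX

variable {m n J : ℕ}

/-- **Affine closed labels in a family**, without the relation of the slopes. -/
def AfL (F : Fam m J) (κ ι k : Fin m) (w Q e : ℕ) (A : F.Ω → Prop)
    {V : Type} (zp : PtT F → V) (zs : LnT F → V) (cf : V → Fin 4 → ℝ) : Prop :=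
  LbP F {κ, ι} k 1 J w Q A zp zs (fun x => afq κ ι (cf x 0) (cf x 1) (cf x 2) (cf x 3)) ∧
    ∀ ω, A ω → |cf (zs (slam F w ω)) 3| ≤ 2 ^ e ∧
      ∀ σ ∈ Set.Icc (0 : ℝ) 1, |wp F w ω σ k - eval (wpt F w ω σ) (afq κ ι
        (cf (zs (slam F w ω)) 0) (cf (zs (slam F w ω)) 1) (cf (zs (slam F w ω)) 2)
        (cf (zs (slam F w ω)) 3))| ≤ 1 / 2 ^ Q

theorem AfL.sub {F : Fam m J} {κ ι k : Fin m} {w Q e : ℕ}
    {A A' : F.Ω → Prop} {V : Type} {zp : PtT F → V} {zs : LnT F → V} {cf : V → Fin 4 → ℝ}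
    (h : AfL F κ ι k w Q e A zp zs cf) (hA : Sub A' A) :
    AfL F κ ι k w Q e A' zp zs cf :=
  ⟨h.1.sub hA, fun ω hω => h.2 ω (hA ω hω)⟩

theorem AfB.afL {F : Fam m J} {κ ι k : Fin m} {w Q q e : ℕ} {au av : PtT F → ℝ}
    {A : F.Ω → Prop} {V : Type} {zp : PtT F → V} {zs : LnT F → V} {cf : V → Fin 4 → ℝ}
    (h : AfB F κ ι k w Q q e au av A zp zs cf) : AfL F κ ι k w Q e A zp zs cf :=
  ⟨h.1, fun ω hω => ⟨(h.2 ω hω).1, (h.2 ω hω).2.2⟩⟩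

/-- The velocity of an affine label. -/
theorem AfL.vel {F : Fam m J} {κ ι k : Fin m} {w Q e : ℕ}
    {A : F.Ω → Prop} {V : Type} {zp : PtT F → V} {zs : LnT F → V} {cf : V → Fin 4 → ℝ}
    (h : AfL F κ ι k w Q e A zp zs cf) {ω : F.Ω} (hω : A ω) :
    |F.d ω k - (cf (zp (ptr F J ω)) 1 + (cf (zp (ptr F J ω)) 2 * F.d ω κ +
      cf (zp (ptr F J ω)) 3 * F.d ω ι))| ≤ 2 * (2 ^ w / 2 ^ Q) := by
  have pw : (0 : ℝ) < 2 ^ w := by positivity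
  have h0 := (h.2 ω hω).2 0 ⟨le_rfl, zero_le_one⟩
  have h1 := (h.2 ω hω).2 1 ⟨zero_le_one, le_rfl⟩
  rw [← h.1.cls ω hω] at h0 h1
  obtain ⟨c, hc⟩ : ∃ c, c = cf (zp (ptr F J ω)) := ⟨_, rfl⟩
  rw [← hc] at h0 h1 ⊢
  rw [eval_afq] at h0 h1
  have e1 : 1 / 2 ^ w * (F.d ω k - (c 1 + (c 2 * F.d ω κ + c 3 * F.d ω ι))) =
      (wp F w ω 1 k - (c 0 + (c 1 * wpt F w ω 1 none + (c 2 * wpt F w ω 1 (some κ) +
        c 3 * wpt F w ω 1 (some ι))))) -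
      (wp F w ω 0 k - (c 0 + (c 1 * wpt F w ω 0 none + (c 2 * wpt F w ω 0 (some κ) +
        c 3 * wpt F w ω 0 (some ι))))) := by
    show _ = ((F.u ω k + F.d ω k * (((slam F w ω).2.2 : ℝ) / 2 ^ w + 1 / 2 ^ w * 1)) -
      (c 0 + (c 1 * (((slam F w ω).2.2 : ℝ) / 2 ^ w + 1 / 2 ^ w * 1) +
        (c 2 * (F.u ω κ + F.d ω κ * (((slam F w ω).2.2 : ℝ) / 2 ^ w + 1 / 2 ^ w * 1)) +
        c 3 * (F.u ω ι + F.d ω ι * (((slam F w ω).2.2 : ℝ) / 2 ^ w + 1 / 2 ^ w * 1)))))) -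
      ((F.u ω k + F.d ω k * (((slam F w ω).2.2 : ℝ) / 2 ^ w + 1 / 2 ^ w * 0)) -
      (c 0 + (c 1 * (((slam F w ω).2.2 : ℝ) / 2 ^ w + 1 / 2 ^ w * 0) +
        (c 2 * (F.u ω κ + F.d ω κ * (((slam F w ω).2.2 : ℝ) / 2 ^ w + 1 / 2 ^ w * 0)) +
        c 3 * (F.u ω ι + F.d ω ι * (((slam F w ω).2.2 : ℝ) / 2 ^ w + 1 / 2 ^ w * 0))))))
    ring
  have h2 := (abs_sub (wp F w ω 1 k - (c 0 + (c 1 * wpt F w ω 1 none +
    (c 2 * wpt F w ω 1 (some κ) + c 3 * wpt F w ω 1 (some ι))))) (wp F w ω 0 k - (c 0 +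
    (c 1 * wpt F w ω 0 none + (c 2 * wpt F w ω 0 (some κ) + c 3 * wpt F w ω 0 (some ι)))))).trans
    (add_le_add h1 h0)
  rw [← e1, abs_mul, abs_of_pos (by positivity : (0 : ℝ) < 1 / 2 ^ w)] at h2
  have e2 : ∀ x : ℝ, x = 2 ^ w * (1 / 2 ^ w * x) := fun x => by field_simp
  rw [e2 |F.d ω k - (c 1 + (c 2 * F.d ω κ + c 3 * F.d ω ι))|]
  have e3 : 2 * (2 ^ w / 2 ^ Q) = 2 ^ w * (1 / 2 ^ Q + 1 / (2 : ℝ) ^ Q) := by ring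
  rw [e3]
  exact mul_le_mul_of_nonneg_left h2 pw.le

/-- **The slope of `v` over `y`**, from an affine label over `y`, `u` and the slope of `u`. -/
theorem AfL.dp {F : Fam m J} {κ ι k : Fin m} {w Q e M : ℕ}
    {A : F.Ω → Prop} {V : Type} {zp : PtT F → V} {zs : LnT F → V} {cf : V → Fin 4 → ℝ}
    (h : AfL F κ ι k w Q e A zp zs cf) {au cu : PtT F → ℝ} (hu : Dp F A κ ι e M au cu)
    {ω : F.Ω} (hω : A ω) :
    |F.d ω k - (cf (zp (ptr F J ω)) 1 + cf (zp (ptr F J ω)) 3 * cu (ptr F J ω)) -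
      (cf (zp (ptr F J ω)) 2 + cf (zp (ptr F J ω)) 3 * au (ptr F J ω)) * F.d ω κ| ≤
      2 * (2 ^ w / 2 ^ Q) + 2 ^ e * (1 / 2 ^ M) := by
  have h1 := h.vel hω
  have h2 := (hu ω hω).2.2
  have h3 := (h.2 ω hω).1
  rw [← h.1.cls ω hω] at h3
  obtain ⟨c, hc⟩ : ∃ c, c = cf (zp (ptr F J ω)) := ⟨_, rfl⟩
  rw [← hc] at h1 h3 ⊢
  have e1 : F.d ω k - (c 1 + c 3 * cu (ptr F J ω)) - (c 2 + c 3 * au (ptr F J ω)) * F.d ω κ =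
      (F.d ω k - (c 1 + (c 2 * F.d ω κ + c 3 * F.d ω ι))) +
      c 3 * (F.d ω ι - cu (ptr F J ω) - au (ptr F J ω) * F.d ω κ) := by ring
  rw [e1]
  refine (abs_add_le _ _).trans (add_le_add h1 ?_)
  rw [abs_mul]
  exact mul_le_mul h3 h2 (abs_nonneg _) (by positivity)

/-- **Affine labels over two coordinates in a class**, without slopes of the third one, with a
bound of the slope of `κ`. -/
theorem aff_bcb {S : PCl m} {C₀ : ℝ} (hC₀ : 0 ≤ C₀) (htm : TmC S C₀)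
    {L : Finset (Fin m) → Fin m → ℝ → ℝ → ℝ} (hL : LamW S L) {κ ι k : Fin m} (hκι : κ ≠ ι)
    (hactF : ActF S κ) {W' W r' x q : ℝ} (hW' : W' < W) (hr0 : 0 ≤ r') (hx : 0 < x)
    (hrs : r' + x ≤ W) (hqx : x ≤ q) (hqD : q + x ≤ L {κ, ι} k W' r' - W)
    (hcont : ContinuousAt (fun W => L {κ} ι W 0) W) (hUW : W < L {κ} ι W 0)
    (hUx : L {κ} ι W 0 + x ≤ 1) :
    ∃ e₀ : ℝ, 0 < e₀ ∧ Bas S (fun J F A => ∀ (au cu : PtT F → ℝ) (e M : ℕ),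
      e ≤ ⌊e₀ * J⌋₊ → ⌊(L {κ} ι W 0 - W + x) * J⌋₊ ≤ M → Dp F A κ ι e M au cu →
      ∃ B : F.Ω → Prop, Sub B A ∧ Pe F.p A ≤ 640 * Pe F.p B ∧
        ∃ (V : Type) (zp : PtT F → V) (zs : LnT F → V) (cf : V → Fin 4 → ℝ),
          AfL F κ ι k (⌊W * J⌋₊ + 2) (⌊W * J⌋₊ + ⌊q * J⌋₊) ⌊x / 32 * J⌋₊ B zp zs cf ∧
          ∀ ω, B ω → |cf (zs (slam F (⌊W * J⌋₊ + 2) ω)) 2| ≤ 2 ^ ⌊x / 32 * J⌋₊) := by
  classical
  obtain ⟨D, hDd⟩ : ∃ D, D = L {κ, ι} k W' r' := ⟨_, rfl⟩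
  obtain ⟨U, hUd⟩ : ∃ U, U = L {κ} ι W 0 := ⟨_, rfl⟩
  have hD1 : D ≤ 1 := by rw [hDd]; exact hL.le1 _ _ _ _
  rw [← hDd] at hqD
  rw [← hUd] at hUW hUx ⊢
  have hW0 : 0 < W := by linarith only [hr0, hx, hrs]
  have hW1 : W ≤ 1 := by linarith only [hUW, hUx, hx]
  -- the label of `k`
  obtain ⟨K', hK'⟩ := hL.att {κ, ι} k W' W r' (x / 32) hW0 hW1 hW' (by linarith only [hx])
  rw [← hDd] at hK'
  obtain ⟨K, hKK'⟩ : ∃ K, K = K' + 1 := ⟨_, rfl⟩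
  have hK1 : 1 ≤ K := by omega
  have hK0 : (0 : ℝ) ≤ K := Nat.cast_nonneg K
  obtain ⟨δ, hδd⟩ : ∃ δ, δ = min (min (x / (640 * (K + 1))) ((U - W) / 64)) (W / 4) := ⟨_, rfl⟩
  have hδ0 : 0 < δ := by
    rw [hδd]
    exact lt_min (lt_min (by positivity) (by linarith only [hUW])) (by linarith only [hW0])
  have hδ1 : 640 * (δ * (K + 1)) ≤ x := by
    have h1 : δ ≤ x / (640 * (K + 1)) := by
      rw [hδd]
      exact (min_le_left _ _).trans (min_le_left _ _)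
    rw [le_div_iff₀ (by positivity)] at h1
    linarith only [h1]
  have hδ2 : 64 * δ ≤ U - W := by
    have h1 : δ ≤ (U - W) / 64 := by
      rw [hδd]
      exact (min_le_left _ _).trans (min_le_right _ _)
    linarith only [h1]
  have hδ3 : 4 * δ ≤ W := by
    have h1 : δ ≤ W / 4 := by
      rw [hδd]
      exact min_le_right _ _
    linarith only [h1]
  have hδx : 640 * δ ≤ x := by
    have : δ * 1 ≤ δ * (K + 1) := mul_le_mul_of_nonneg_left (by linarith only [hK0]) hδ0.le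
    linarith only [this, hδ1]
  -- the windows
  obtain ⟨η, hη, hηc⟩ := Metric.continuousAt_iff.1 hcont δ hδ0
  obtain ⟨o, hod⟩ : ∃ o, o = min (δ / 2) (η / 2) := ⟨_, rfl⟩
  have ho0 : 0 < o := by
    rw [hod]
    exact lt_min (by linarith only [hδ0]) (by linarith only [hη])
  have ho1 : o ≤ δ / 2 := by rw [hod]; exact min_le_left _ _
  have ho2 : o ≤ η / 2 := by rw [hod]; exact min_le_right _ _
  obtain ⟨W₁', hW₁'⟩ : ∃ W₁', W₁' = W - o := ⟨_, rfl⟩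
  obtain ⟨W₁, hW₁⟩ : ∃ W₁, W₁ = W - o / 2 := ⟨_, rfl⟩
  obtain ⟨W₂, hW₂⟩ : ∃ W₂, W₂ = W + o / 2 := ⟨_, rfl⟩
  obtain ⟨U₁, hU₁⟩ : ∃ U₁, U₁ = L {κ} ι W₁' 0 := ⟨_, rfl⟩
  obtain ⟨U₂, hU₂⟩ : ∃ U₂, U₂ = L {κ} ι W₂ 0 := ⟨_, rfl⟩
  have hUU₁ : |U₁ - U| < δ := by
    have h1 := @hηc W₁' (by
      rw [Real.dist_eq, hW₁']
      have : W - o - W = -o := by ring
      rw [this, abs_neg, abs_of_pos ho0]
      linarith only [ho2, hη])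
    rw [Real.dist_eq] at h1
    rw [hU₁, hUd]
    exact h1
  have hUU₂ : |U₂ - U| < δ := by
    have h1 := @hηc W₂ (by
      rw [Real.dist_eq, hW₂]
      have : W + o / 2 - W = o / 2 := by ring
      rw [this, abs_of_pos (by linarith only [ho0])]
      linarith only [ho2, hη])
    rw [Real.dist_eq] at h1
    rw [hU₂, hUd]
    exact h1
  rw [abs_lt] at hUU₁ hUU₂
  have hU₁U : U₁ ≤ U := by
    rw [hU₁, hUd]
    exact hL.mono _ _ _ _ _ _ _ (Finset.Subset.refl _) (by rw [hW₁']; linarith only [ho0]) le_rfl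
  have hUU₂' : U ≤ U₂ := by
    rw [hU₂, hUd]
    exact hL.mono _ _ _ _ _ _ _ (Finset.Subset.refl _) (by rw [hW₂]; linarith only [ho0]) le_rfl
  have hW₂1 : W₂ ≤ 1 := by rw [hW₂]; linarith only [hδ2, hUx, ho1, hx, hδ0]
  -- the label of `ι`
  obtain ⟨K₂', hK₂'⟩ := hL.att {κ} ι W₁' W 0 δ hW0 hW1 (by rw [hW₁']; linarith only [ho0]) hδ0
  rw [← hU₁] at hK₂'
  obtain ⟨K₂, hK₂⟩ : ∃ K₂, K₂ = K + K₂' + 1 := ⟨_, rfl⟩
  have hKK : K ≤ K₂ := by omega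
  have hK21 : (1 : ℝ) ≤ K₂ := by exact_mod_cast (by omega : 1 ≤ K₂)
  have hK20 : (0 : ℝ) ≤ K₂ := Nat.cast_nonneg K₂
  obtain ⟨C, hC1, haff⟩ := aff_bmb m K K₂ hK1 hKK
  obtain ⟨γ, hγ⟩ : ∃ γ, γ = δ / (K₂ + 1) := ⟨_, rfl⟩
  have hγ0 : 0 < γ := by rw [hγ]; positivity
  have hγδ : γ * (K₂ + 1) ≤ δ := by
    rw [hγ]
    exact (div_mul_cancel₀ δ (by positivity : ((K₂ : ℝ) + 1) ≠ 0)).le
  -- the statements of the class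
  obtain ⟨c, hc0, hcB⟩ := hactF γ hγ0
  obtain ⟨τ₁, hτ₁, J₁, hb₁⟩ := hK'
  obtain ⟨τ₂, hτ₂, J₂, hb₂⟩ := hK₂'
  obtain ⟨τ₃, hτ₃, J₃, hb₃⟩ := hcB
  obtain ⟨τ₄, hτ₄, J₄, hb₄⟩ := nat_cls hC₀ htm hL (v := ι) hactF (W' := W₁') (W := W₁) (s := δ)
    (by rw [hW₁', hW₁]; linarith only [ho0]) (by rw [hW₁]; linarith only [hδ3, ho1, hδ0]) hδ0
    (by rw [← hU₁, hW₁]; linarith only [hδ2, hUU₁.1, ho0, hδ0])
  obtain ⟨d₁, hd₁0, habs⟩ := abs_cls htm hL (y := κ) (v := ι) (W := W₂) (s := δ)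
    (by rw [hW₂]; linarith only [hW0, ho0]) hδ0
    (by rw [← hU₂, hW₂]; linarith only [hδ2, hUU₂', ho1, hδ0])
    (by rw [← hU₂]; linarith only [hUU₂.2, hUx, hδx, hδ0])
  rw [← hU₁] at hb₄
  rw [← hU₂] at habs
  obtain ⟨e₀, he₀⟩ : ∃ e₀, e₀ = min d₁ δ := ⟨_, rfl⟩
  have he₀0 : 0 < e₀ := by rw [he₀]; exact lt_min hd₁0 hδ0
  have he₀d : e₀ ≤ d₁ := by rw [he₀]; exact min_le_left _ _
  have he₀δ : e₀ ≤ δ := by rw [he₀]; exact min_le_right _ _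
  obtain ⟨τ₅, hτ₅, J₅, hb₅⟩ := habs e₀ he₀0 he₀d
  have hD0 : 0 < C * (C₀ + 1) := by positivity
  obtain ⟨τ, hτ⟩ : ∃ τ, τ = min (min (τ₁ / 2) (τ₂ / 2)) (min (min (τ₃ / 2) (τ₄ / 2))
    (min (τ₅ / 2) (δ / 4 / (C * (C₀ + 1))))) := ⟨_, rfl⟩
  have hτ0 : 0 < τ := by
    rw [hτ]
    exact lt_min (lt_min (by linarith only [hτ₁]) (by linarith only [hτ₂]))
      (lt_min (lt_min (by linarith only [hτ₃]) (by linarith only [hτ₄]))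
      (lt_min (by linarith only [hτ₅]) (by positivity)))
  have t0 : τ ≤ τ₁ / 2 ∧ τ ≤ τ₂ / 2 ∧ τ ≤ τ₃ / 2 ∧ τ ≤ τ₄ / 2 ∧ τ ≤ τ₅ / 2 ∧
      τ ≤ δ / 4 / (C * (C₀ + 1)) := by
    have := hτ.le
    simp only [le_min_iff] at this
    tauto
  obtain ⟨t1, t2, t3, t4, t5, t6⟩ := t0
  have hCτ : C * (C₀ * (2 * τ)) ≤ δ / 2 := by
    rw [le_div_iff₀ hD0] at t6
    have : 0 ≤ C * τ := by positivity
    linarith only [t6, this]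
  obtain ⟨N₀, hN₀⟩ := exists_nat_ge (2 * (Real.log C + C))
  obtain ⟨J₆, hfit⟩ := bmn_fit (x := x) (W := W) (D := D) (r' := r') (q := q) (δ := δ) (γ := γ)
    (U := U) (U₁ := U₁) (U₂ := U₂) (W₁ := W₁) (W₂ := W₂) (K := K) (K₂ := K₂)
    (N₀ := N₀) (C := C) (C₀ := C₀) (τ := 2 * τ) hx hδ0 hδ1 hW0 hγ0 hγδ hKK hC1 hCτ hr0 hrs
    hD1 hqx hqD hUx (by rw [hW₁]; linarith only [ho1, hδ0]) (by rw [hW₁]; linarith only [ho0])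
    (by rw [hW₂]; linarith only [ho0]) hW₂1 hU₁U hUU₂' (by linarith only [hUU₁.1, hUU₂.2])
    (by linarith only [hδ2, hδ0])
  obtain ⟨Cp, hCp⟩ : ∃ Cp : ℝ, Cp = 640 * (K + 4) := ⟨_, rfl⟩
  have hCp0 : 2560 ≤ Cp := by rw [hCp]; linarith only [hK0]
  obtain ⟨J₇, hJ₇⟩ := exists_nat_ge (max (Real.log Cp / τ)
    ((Real.log (2 * (K₂ + 2 : ℕ)) + 1) / c))
  refine ⟨e₀, he₀0, τ, hτ0, J₁ + J₂ + J₃ + J₄ + J₅ + J₆ + J₇, ?_⟩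
  intro J hJ F A hA au cu e M he hM' hau
  have hJ7 : (J₇ : ℝ) ≤ J := by exact_mod_cast (by omega : J₇ ≤ J)
  have hlog : Real.log Cp ≤ τ * J := by
    have h1 := ((le_max_left _ _).trans hJ₇).trans hJ7
    rw [div_le_iff₀ hτ0] at h1
    linarith only [h1]
  have hcJ : Real.log (2 * (K₂ + 2 : ℕ)) + 1 ≤ c * J := by
    have h1 := ((le_max_right _ _).trans hJ₇).trans hJ7
    rw [div_le_iff₀ hc0] at h1
    linarith only [h1]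
  have hJ0 : (0 : ℝ) ≤ J := Nat.cast_nonneg J
  obtain ⟨⟨n1, n2, n3⟩, ⟨n4, n5, n6, n7'⟩, ⟨n7, n8, n10, n11⟩,
    ⟨n15, n16, n17, n18⟩⟩ := hfit J (by omega) M hM'
  have hA0 := (htm τ J F A hτ0 hA).1
  have hres : ∀ B' : F.Ω → Prop, Sub B' A → Pe F.p A ≤ Cp * Pe F.p B' → S.St (2 * τ) J F B' :=
    fun B' h1 h2 => res_of hτ0.le hA h1 (by linarith only [hCp0]) hlog h2
  have hpow : C * Real.exp (C * (C₀ * (2 * τ) * J + 1)) ≤ 2 ^ (N₀ + ⌊2 * δ * J⌋₊) :=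
    exp_pow (J := J) hC1 hCτ hN₀ n18
  have hEx : ⌊e₀ * (J : ℝ)⌋₊ ≤ ⌊x / 32 * J⌋₊ :=
    Nat.floor_le_floor (mul_le_mul_of_nonneg_right (by linarith only [he₀δ, hδx, hδ0]) hJ0)
  have hδx' : ⌊δ * (J : ℝ)⌋₊ ≤ ⌊x / 32 * J⌋₊ :=
    Nat.floor_le_floor (mul_le_mul_of_nonneg_right (by linarith only [hδx, hδ0]) hJ0)
  have heδ : ⌊e₀ * (J : ℝ)⌋₊ ≤ ⌊δ * J⌋₊ :=
    Nat.floor_le_floor (mul_le_mul_of_nonneg_right he₀δ hJ0)
  have hMge : ∀ z : ℝ, z ≤ U - W + x → ⌊z * (J : ℝ)⌋₊ ≤ M := fun z hz =>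
    (Nat.floor_le_floor (mul_le_mul_of_nonneg_right hz hJ0)).trans hM'
  -- the natural slope
  obtain ⟨A', a1, a2, j, a3⟩ := hb₄ J (by omega) F A (S.mono (by linarith only [t4, hτ₄]) hA)
    au cu e M hau (he.trans heδ) (hMge _ (by rw [hW₁]; linarith only [hU₁U, ho1, hδx, hδ0]))
  have hA'0 : 0 < Pe F.p A' := by linarith only [a2, hA0]
  -- the labels
  have hA'S : S.St (2 * τ) J F A' := hres A' a1 (by
    have := mul_le_mul_of_nonneg_right hCp0 hA'0.le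
    linarith only [this, a2, hA'0])
  have hlab := hb₁ J (by omega) F A' (S.mono (by linarith only [t1]) hA'S)
  have hlab₂ := hb₂ J (by omega) F A' (S.mono (by linarith only [t2]) hA'S)
  have hlab' : Lb F {κ, ι} k K ⌊x / 32 * J⌋₊ J ⌊W * J⌋₊
      ⌊(r' + x / 32) * J⌋₊ ⌊(D - x / 32) * J⌋₊ A' :=
    Lb.mono hlab (Finset.Subset.refl _) (by omega) le_rfl le_rfl le_rfl (by omega) le_rfl le_rfl
  have hlab₂' : Lb F {κ} ι K₂ ⌊x / 32 * J⌋₊ J ⌊W * J⌋₊ ⌊(0 + δ) * J⌋₊ ⌊(U₁ - δ) * J⌋₊ A' :=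
    Lb.mono hlab₂ (Finset.Subset.refl _) (by omega) hδx' le_rfl le_rfl (by omega) le_rfl le_rfl
  -- the velocities
  have hact' : ∀ B₀ : F.Ω → Prop, Sub B₀ A → Pe F.p A ≤ Cp * Pe F.p B₀ →
      Real.log (2 * (K₂ + 2 : ℕ)) < CH (Pool.Agent.H49.Ent.cond F.p B₀ True)
        (fun ω => F.D ⌊γ * J⌋₊ ω κ) (ptr F J) := by
    intro B₀ hB₀ hPB₀
    have h1 := hb₃ J (by omega) F B₀ (S.mono (by linarith only [t3]) (hres B₀ hB₀ hPB₀))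
    linarith only [h1, hcJ]
  -- the windows
  have hww : ∀ ω ω' : F.Ω, slam F ⌊W₂ * (J : ℝ)⌋₊ ω = slam F ⌊W₂ * (J : ℝ)⌋₊ ω' →
      slam F ⌊W * (J : ℝ)⌋₊ ω = slam F ⌊W * (J : ℝ)⌋₊ ω' := by
    intro ω ω' h
    rw [slam_coarse F (by omega) n16 ω, slam_coarse F (by omega) n16 ω', h]
  have hwl : ∀ ω ω' : F.Ω, slam F ⌊W * (J : ℝ)⌋₊ ω = slam F ⌊W * (J : ℝ)⌋₊ ω' →
      slam F ⌊W₁ * (J : ℝ)⌋₊ ω = slam F ⌊W₁ * (J : ℝ)⌋₊ ω' := by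
    intro ω ω' h
    rw [slam_coarse F n17 (by omega) ω, slam_coarse F n17 (by omega) ω', h]
  -- the affine label
  obtain ⟨B₁, b1, b2, V, zp, zs, cf, b3, b4, b5⟩ := haff F A' hA'0 (κ := κ) (ι := ι)
    (k := k) (e := ⌊x / 32 * J⌋₊) (w := ⌊W * J⌋₊)
    (ρ := ⌊(r' + x / 32) * J⌋₊) (ρ₂ := ⌊(0 + δ) * J⌋₊) (P₁ := ⌊(D - x / 32) * J⌋₊)
    (P₂ := ⌊(U₁ - δ) * J⌋₊) (g := ⌊γ * J⌋₊) (M := M) (N := N₀ + ⌊2 * δ * J⌋₊)
    (h := ⌊(U₁ - W₁ - 8 * δ) * J⌋₊) (hh := ⌊W * J⌋₊ + ⌊(U₁ - W₁ - 16 * δ) * J⌋₊)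
    (sp := ⌊(U₂ - W₂ + δ) * J⌋₊) (d := ⌊20 * δ * J⌋₊) (Q := ⌊W * J⌋₊ + ⌊q * J⌋₊)
    (au := au) (cu := cu) (J0 := fun ω => j (slam F ⌊W₁ * J⌋₊ ω))
    (θ := C₀ * (2 * τ) * J) hκι ((hau.sub a1).mono (he.trans hEx) le_rfl)
    hlab' hlab₂' (by omega) n8
    (by positivity) (fun B₀ hB₀ hB₀A hPB₀ =>
      cls_tm htm (by linarith only [hτ0] : 0 < 2 * τ) (hres B₀ (fun ω hω => a1 ω (hB₀A ω hω)) (by
        have := mul_le_mul_of_nonneg_right hCp0 hB₀.le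
        linarith only [this, a2, hPB₀, hB₀])) hB₀) n11 n10 (fun B₀ hB₀A hPB₀ => by
      refine hact' B₀ (fun ω hω => a1 ω (hB₀A ω hω)) ?_
      have h3 : 0 ≤ Pe F.p B₀ := Pe_nonneg F.isLaw B₀
      have := mul_le_mul_of_nonneg_right hCp0 h3
      linarith only [this, a2, hPB₀, h3]) (fun ω hω => by
      rw [abs_sub_comm]
      exact a3 ω hω) (by
      have : ⌊(U₁ - W₁ - 16 * δ) * (J : ℝ)⌋₊ ≤ ⌊(U₁ - W₁ - 8 * δ) * (J : ℝ)⌋₊ :=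
        Nat.floor_le_floor (mul_le_mul_of_nonneg_right (by linarith only [hδ0]) hJ0)
      omega) (fun B₁ hB₁ hPB₁ => by
      have hB₁0 : 0 < Pe F.p B₁ := by linarith only [hPB₁, hA'0]
      obtain ⟨B', d1, d2, d3⟩ := nod_fun (K + 1) (F := F) (B := B₁)
        (Φ := slam F ⌊W₂ * (J : ℝ)⌋₊) (f := fun ω => au (ptr F J ω))
        (s := 1 / 2 ^ ⌊(U₂ - W₂ + δ) * (J : ℝ)⌋₊) hB₁0 (fun B₀ hB₀ hPB₀ jj hjj => by
          have hs : Sub B₀ A := fun ω hω => a1 ω (hB₁ ω (hB₀ ω hω))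
          have hS₀ := hres B₀ hs (by
            have h3 : 0 ≤ Pe F.p B₀ := Pe_nonneg F.isLaw B₀
            push_cast at hPB₀
            rw [hCp]
            linarith only [hPB₀, hPB₁, a2, h3, mul_nonneg hK0 h3])
          exact hb₅ J (by omega) F B₀ (S.mono (by linarith only [t5]) hS₀) au cu M
            ((hau.sub hs).mono he le_rfl)
            (hMge _ (by rw [hW₂]; linarith only [hUU₂.2, ho0, hδx, hδ0])) jj hjj)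
      refine ⟨B', d1, d2, fun ω hω => ?_⟩
      obtain ⟨ν, e1, e2⟩ := d3 ω hω
      refine ⟨ν, fun i => ⟨(e1 i).1, hww _ _ (e1 i).2, ?_⟩, e2⟩
      show j (slam F ⌊W₁ * (J : ℝ)⌋₊ (ν i)) = j (slam F ⌊W₁ * (J : ℝ)⌋₊ ω)
      rw [hwl _ _ (hww _ _ (e1 i).2)]) n7 hpow n1 n2 n3 n4 n5 n6 n7'
  exact ⟨B₁, fun ω hω => a1 ω (b1 ω hω), by linarith only [a2, b2], V, zp, zs, cf, ⟨b3, b4⟩, b5⟩

/-- **Affine labels over two coordinates in a class**, without slopes of the third one. -/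
theorem aff_bcn {S : PCl m} {C₀ : ℝ} (hC₀ : 0 ≤ C₀) (htm : TmC S C₀)
    {L : Finset (Fin m) → Fin m → ℝ → ℝ → ℝ} (hL : LamW S L) {κ ι k : Fin m} (hκι : κ ≠ ι)
    (hactF : ActF S κ) {W' W r' x q : ℝ} (hW' : W' < W) (hr0 : 0 ≤ r') (hx : 0 < x)
    (hrs : r' + x ≤ W) (hqx : x ≤ q) (hqD : q + x ≤ L {κ, ι} k W' r' - W)
    (hcont : ContinuousAt (fun W => L {κ} ι W 0) W) (hUW : W < L {κ} ι W 0)
    (hUx : L {κ} ι W 0 + x ≤ 1) :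
    ∃ e₀ : ℝ, 0 < e₀ ∧ Bas S (fun J F A => ∀ (au cu : PtT F → ℝ) (e M : ℕ),
      e ≤ ⌊e₀ * J⌋₊ → ⌊(L {κ} ι W 0 - W + x) * J⌋₊ ≤ M → Dp F A κ ι e M au cu →
      ∃ B : F.Ω → Prop, Sub B A ∧ Pe F.p A ≤ 640 * Pe F.p B ∧
        ∃ (V : Type) (zp : PtT F → V) (zs : LnT F → V) (cf : V → Fin 4 → ℝ),
          AfL F κ ι k (⌊W * J⌋₊ + 2) (⌊W * J⌋₊ + ⌊q * J⌋₊) ⌊x / 32 * J⌋₊ B zp zs cf) := by
  obtain ⟨e₀, he₀, τ, hτ, J₀, h⟩ := aff_bcb hC₀ htm hL hκι hactF hW' hr0 hx hrs hqx hqD hcont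
    hUW hUx
  refine ⟨e₀, he₀, τ, hτ, J₀, ?_⟩
  intro J hJ F A hA au cu e M he hM hau
  obtain ⟨B, c1, c2, V, zp, zs, cf, c3, -⟩ := h J hJ F A hA au cu e M he hM hau
  exact ⟨B, c1, c2, V, zp, zs, cf, c3⟩

end Pool.MIC6
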