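import Pool.Agent.H6.OWN.Bfl

/-!
# Affine labels on the window are Lipschitz labels

`lb_afq`: an affine closed label of `k` over `κ`, `ι` which holds at all times of the window, with
bounded slopes, is a closed label with bounded gradients, for every radius.
-/

set_option autoImplicit false

namespace Pool.MIC6

open Finset MvPolynomial
open Pool.Agent.H49.Ent Pool.Agent.H32.Dense Pool.STK Pool.KA Pool.KSAT Pool.K2S Pool.PB Pool.GEN
open Pool.FLF (Fam.sub)
open Pool.GRD (LbP)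

variable {m n J : ℕ}

theorem pd_afq_none (κ ι : Fin n) (c₀ c₁ a b : ℝ) (x : Option (Fin n) → ℝ) :
    eval x (pderiv none (afq κ ι c₀ c₁ a b)) = c₁ := by
  classical
  unfold afq
  simp only [map_add, pderiv_C_mul, pderiv_C, zero_add]
  rw [pderiv_X_self, mul_one, eval_C, pderiv_X_of_ne (by simp), pderiv_X_of_ne (by simp)]
  simp

theorem pd_afq_some (κ ι : Fin n) (c₀ c₁ a b : ℝ) (x : Option (Fin n) → ℝ) (j : Fin n) :
    eval x (pderiv (some j) (afq κ ι c₀ c₁ a b)) =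
      (if j = κ then a else 0) + (if j = ι then b else 0) := by
  classical
  have h : ∀ i : Fin n, eval x (pderiv (some j) (X (some i) : MvPolynomial (Option (Fin n)) ℝ)) =
      if j = i then 1 else 0 := by
    intro i
    split_ifs with hi
    · subst hi
      rw [pderiv_X_self, map_one]
    · rw [pderiv_X_of_ne (by simpa using fun h => hi h.symm), map_zero]
  unfold afq
  simp only [map_add, pderiv_C_mul, pderiv_C, zero_add]
  rw [pderiv_X_of_ne (by simp), mul_zero, map_zero, zero_add, map_mul, map_mul, eval_C, eval_C,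
    h, h]
  split_ifs <;> ring

/-- The velocities of an affine label on the window. -/
theorem win_vel {F : Fam n J} {κ ι k : Fin n} {w Q : ℕ} {ω : F.Ω} {c₀ c₁ a b : ℝ}
    (h : ∀ σ ∈ Set.Icc (0 : ℝ) 1, |wp F w ω σ k -
      eval (wpt F w ω σ) (afq κ ι c₀ c₁ a b)| ≤ 1 / 2 ^ Q) :
    |F.d ω k - (c₁ + (a * F.d ω κ + b * F.d ω ι))| ≤ 2 ^ w * (2 / 2 ^ Q) := by
  have h0 := h 0 ⟨le_rfl, zero_le_one⟩
  have h1 := h 1 ⟨zero_le_one, le_rfl⟩
  rw [eval_afq] at h0 h1
  have n3 : ∀ σ, wpt F w ω σ none = wt F w ω σ := fun _ => rfl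
  have n4 : ∀ σ j, wpt F w ω σ (some j) = wp F w ω σ j := fun _ _ => rfl
  rw [n3, n4, n4] at h0 h1
  have pw : (0 : ℝ) < 2 ^ w := by positivity
  have e1 : F.d ω k - (c₁ + (a * F.d ω κ + b * F.d ω ι)) = 2 ^ w *
      ((wp F w ω 1 k - (c₀ + (c₁ * wt F w ω 1 + (a * wp F w ω 1 κ + b * wp F w ω 1 ι)))) -
      (wp F w ω 0 k - (c₀ + (c₁ * wt F w ω 0 + (a * wp F w ω 0 κ + b * wp F w ω 0 ι))))) := by
    unfold wp wt
    field_simp
    ring
  rw [e1, abs_mul, abs_of_pos pw]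
  refine mul_le_mul_of_nonneg_left ?_ pw.le
  have e2 : (2 : ℝ) / 2 ^ Q = 1 / 2 ^ Q + 1 / 2 ^ Q := by ring
  rw [e2]
  exact (abs_sub _ _).trans (add_le_add h1 h0)

/-- **Affine labels on the window are Lipschitz labels.** -/
theorem lb_afq {F : Fam n J} {κ ι k : Fin n} {r w Q P e : ℕ} {A : F.Ω → Prop} {V : Type}
    {zp : PtT F → V} {zs : LnT F → V} {cf : V → Fin 4 → ℝ}
    (h : LbP F {κ, ι} k 1 r w Q A zp zs (fun x => afq κ ι (cf x 0) (cf x 1) (cf x 2) (cf x 3)))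
    (h2 : ∀ ω, A ω → |cf (zs (slam F w ω)) 2| ≤ 2 ^ e ∧ |cf (zs (slam F w ω)) 3| ≤ 2 ^ e)
    (h3 : ∀ ω, A ω → ∀ σ ∈ Set.Icc (0 : ℝ) 1, |wp F w ω σ k - eval (wpt F w ω σ) (afq κ ι
        (cf (zs (slam F w ω)) 0) (cf (zs (slam F w ω)) 1) (cf (zs (slam F w ω)) 2)
        (cf (zs (slam F w ω)) 3))| ≤ 1 / 2 ^ Q) (hP : P + 1 ≤ Q) (hPw : w ≤ P) (ρ : ℕ) :
    LbOK F {κ, ι} k 1 (e + 3) r w ρ P A zp zs
      (fun x => afq κ ι (cf x 0) (cf x 1) (cf x 2) (cf x 3)) := by
  classical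
  have pe : (1 : ℝ) ≤ 2 ^ e := one_le_pow₀ (by norm_num)
  have pw : (0 : ℝ) < 2 ^ w := by positivity
  have hQ : (2 : ℝ) / 2 ^ Q ≤ 1 / 2 ^ P := by
    have k1 : (1 : ℝ) / 2 ^ Q ≤ 1 / 2 ^ (P + 1) := inv_mono hP
    have k2 : (1 : ℝ) / 2 ^ (P + 1) = 1 / 2 ^ P / 2 := by
      rw [pow_succ]
      field_simp
    have k3 : (2 : ℝ) / 2 ^ Q = 2 * (1 / 2 ^ Q) := by ring
    rw [k3]
    linarith only [k1, k2]
  have hvel : ∀ ω, A ω → |F.d ω k - (cf (zs (slam F w ω)) 1 + (cf (zs (slam F w ω)) 2 * F.d ω κ +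
      cf (zs (slam F w ω)) 3 * F.d ω ι))| ≤ 2 ^ w / 2 ^ P := by
    intro ω hω
    refine (win_vel (h3 ω hω)).trans ?_
    rw [div_eq_mul_one_div ((2 : ℝ) ^ w)]
    exact mul_le_mul_of_nonneg_left hQ pw.le
  refine ⟨h.deg, h.dep, h.cls, fun ω hω => (h.pos ω hω).trans (inv_mono (by omega)),
    fun ω hω => ?_, fun ω hω b _ o => ?_⟩
  · refine le_trans (le_of_eq ?_) (hvel ω hω)
    congr 1
    congr 1
    rw [Fintype.sum_option, pd_afq_none]
    have e1 : bd F ω none = 1 := rfl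
    have e2 : ∀ j, bd F ω (some j) = F.d ω j := fun _ => rfl
    simp_rw [e2, pd_afq_some, mul_add, mul_ite, mul_zero]
    rw [Finset.sum_add_distrib, Finset.sum_ite_eq' Finset.univ κ, if_pos (Finset.mem_univ κ),
      Finset.sum_ite_eq' Finset.univ ι, if_pos (Finset.mem_univ ι), e1]
    ring
  · obtain ⟨h4, h5⟩ := h2 ω hω
    have e8 : (2 : ℝ) ^ (e + 3) = 8 * 2 ^ e := by
      rw [pow_add]
      norm_num
      ring
    rw [e8]
    cases o with
    | none =>
      rw [pd_afq_none]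
      have k1 := hvel ω hω
      have k2 : (2 : ℝ) ^ w / 2 ^ P ≤ 1 := by
        rw [div_le_one (by positivity)]
        exact pow_le_pow_right₀ (by norm_num) hPw
      have k3 : |cf (zs (slam F w ω)) 2 * F.d ω κ| ≤ 2 ^ e := by
        rw [abs_mul]
        have := mul_le_mul h4 (F.dir ω κ) (abs_nonneg _) (by positivity)
        linarith only [this]
      have k4 : |cf (zs (slam F w ω)) 3 * F.d ω ι| ≤ 2 ^ e := by
        rw [abs_mul]
        have := mul_le_mul h5 (F.dir ω ι) (abs_nonneg _) (by positivity)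
        linarith only [this]
      have k5 := F.dir ω k
      rw [abs_le] at k1 k3 k4 k5 ⊢
      constructor <;> linarith only [k1.1, k1.2, k2, k3.1, k3.2, k4.1, k4.2, k5.1, k5.2, pe]
    | some j =>
      rw [pd_afq_some]
      have k1 : |(if j = κ then cf (zs (slam F w ω)) 2 else 0)| ≤ 2 ^ e := by
        split_ifs
        · exact h4
        · rw [abs_zero]
          positivity
      have k2 : |(if j = ι then cf (zs (slam F w ω)) 3 else 0)| ≤ 2 ^ e := by
        split_ifs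
        · exact h5
        · rw [abs_zero]
          positivity
      refine (abs_add_le _ _).trans ?_
      linarith only [k1, k2, pe]

end Pool.MIC6
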