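import Pool.Agent.H6.OWN.NgC

/-!
# No gain over one coordinate in a tube: the numbers

`ng_num`: the number `L'` of the closed labels of the coordinate `v` over the coordinate `y` in the
zooms into windows and tubes, with any record, is not larger than the number `L` of the closed
labels of `v` over `y` for the windows of the zoom, plus the tube, if the velocity of `y` behind
the tube has positive entropy given the exact point, the tube and the record (`ActZ`).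
-/

set_option autoImplicit false

namespace Pool.MIC6

open Finset
open Pool.Agent.H49.Ent Pool.Agent.H32.Dense Pool.STK Pool.KA Pool.KSAT Pool.K2S Pool.PB Pool.GEN
open Pool.S6C
open Pool.FLF (Fam.sub)
open Pool.GRD (LbP)
open Pool.REX

variable {m n : ℕ}

/-- A statement for the zooms holds for the zooms of all the families of the class. -/
theorem bas_recV {S : PCl m} {v : Vz m} {ε : Fin n → Fin m} {Φ : Stat n}
    (h : Bas (RecV S v ε) Φ) :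
    Bas S (fun J F A => ∀ hP : v.P J ≤ J - v.B J, Φ (v.R J) (v.famV ε F hP) A) := by
  obtain ⟨τ, hτ, J₁, h⟩ := h
  have hb1 := v.b1
  have hp1 := v.p1
  have hc : 0 < (1 - v.b) * (1 - v.p) := mul_pos (by linarith) (by linarith)
  obtain ⟨J₂, hJ₂⟩ := exists_nat_ge (((J₁ : ℝ) + 1) / ((1 - v.b) * (1 - v.p)))
  refine ⟨τ, hτ, J₂, fun J hJ F A hA hP => h _ ?_ _ _ (recV_mk hA hP)⟩
  have h1 : (J₂ : ℝ) ≤ J := by exact_mod_cast hJ
  have h2 := hJ₂.trans h1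
  rw [div_le_iff₀ hc] at h2
  have h3 := (vz_real v J).2.2.2.1
  have h4 : (J₁ : ℝ) ≤ v.R J := by linarith
  exact_mod_cast h4

/-- The sub-events of an event of the class. -/
theorem res_of {S : PCl m} {τ : ℝ} {J : ℕ} {F : Fam m J} {A B : F.Ω → Prop} {C : ℝ}
    (hτ : 0 ≤ τ) (hS : S.St τ J F A) (hB : Sub B A) (hC : 0 < C) (hCJ : Real.log C ≤ τ * J)
    (hP : Pe F.p A ≤ C * Pe F.p B) : S.St (2 * τ) J F B := by
  have h1 : Real.exp (-(τ * J)) * Pe F.p A ≤ Pe F.p B := by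
    have h2 : Real.exp (-(τ * J)) ≤ 1 / C := by
      have h3 : Real.exp (-(τ * J)) ≤ Real.exp (-Real.log C) := Real.exp_le_exp.2 (by linarith)
      rw [Real.exp_neg (Real.log C), Real.exp_log hC] at h3
      rw [one_div]
      exact h3
    have h4 : 0 ≤ Pe F.p A := Pe_nonneg F.isLaw A
    calc Real.exp (-(τ * J)) * Pe F.p A ≤ 1 / C * Pe F.p A := mul_le_mul_of_nonneg_right h2 h4
      _ ≤ 1 / C * (C * Pe F.p B) := mul_le_mul_of_nonneg_left hP (by positivity)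
      _ = Pe F.p B := by field_simp
  have h5 := S.res hτ hS hB h1
  have h6 : τ + τ = 2 * τ := by ring
  rwa [h6] at h5

/-- **No gain over one coordinate in a tube.** -/
theorem ng_num {S : PCl m} {C₀ : ℝ} (hC₀ : 0 ≤ C₀) (htm : TmC S C₀) (hne : S.Ne) (v : Vz m)
    (ε : Fin n → Fin m) {L : Finset (Fin m) → Fin m → ℝ → ℝ → ℝ} (hL : LamW S L)
    {L' : Finset (Fin n) → Fin n → ℝ → ℝ → ℝ} (hL' : LamW (RecV S v ε) L') {κ k : Fin n}
    (hact : ActZ S v ε κ) {w' w a₀ a r' : ℝ} (hw' : w' < w) (hw0 : 0 < w) (hw1 : w < 1)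
    (ha₀ : a₀ < a) (ha0 : 0 < a) (ha1 : a < 1) :
    min (v.sc (L' {κ} k w' r') - v.p * (1 - v.b))
      (L {ε κ} (ε k) a₀ a₀ - (a - v.tm w) - v.p * (1 - v.b)) ≤
      L {ε κ} (ε k) (v.tm w) 0 := by
  classical
  by_contra hcon
  push Not at hcon
  obtain ⟨Lt, hLt⟩ : ∃ Lt, Lt = L {ε κ} (ε k) (v.tm w) 0 := ⟨_, rfl⟩
  obtain ⟨La, hLa⟩ : ∃ La, La = L {ε κ} (ε k) a₀ a₀ := ⟨_, rfl⟩
  obtain ⟨Lz, hLz⟩ : ∃ Lz, Lz = L' {κ} k w' r' := ⟨_, rfl⟩
  rw [← hLt, ← hLa, ← hLz] at hcon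
  obtain ⟨hc1, hc2⟩ := lt_min_iff.1 hcon
  have hb := v.b0
  have hb1 := v.b1
  have hp := v.p0
  have hp1 := v.p1
  have hLz1 : Lz ≤ 1 := by rw [hLz]; exact hL'.le1 _ _ _ _
  have hLa1 : La ≤ 1 := by rw [hLa]; exact hL.le1 _ _ _ _
  have hcp : 0 < (1 - v.b) * (1 - v.p) := mul_pos (by linarith) (by linarith)
  have htm1 : v.tm w < 1 := by
    unfold Vz.tm
    have h1 : (1 - v.b) * (1 - v.p) * w < (1 - v.b) * (1 - v.p) * 1 :=
      mul_lt_mul_of_pos_left hw1 hcp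
    have h2 : 0 ≤ (1 - v.b) * v.p := mul_nonneg (by linarith) hp
    linarith only [h1, h2]
  have htm0 : 0 < v.tm w := by
    unfold Vz.tm
    have : 0 < (1 - v.b) * (1 - v.p) * w := mul_pos hcp hw0
    linarith
  have hLt0 : v.tm w ≤ Lt := by rw [hLt]; exact hL.low _ _ _ _ htm1.le
  obtain ⟨s, hs⟩ : ∃ s, s = min 1 (min (v.sc Lz - v.p * (1 - v.b) - Lt)
    (La - (a - v.tm w) - v.p * (1 - v.b) - Lt)) / 16 := ⟨_, rfl⟩
  have hs0 : 0 < s := by
    rw [hs]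
    exact div_pos (lt_min one_pos (lt_min (by linarith) (by linarith))) (by norm_num)
  have hs1 : 16 * s ≤ 1 := by
    rw [hs]
    have := min_le_left (1 : ℝ) (min (v.sc Lz - v.p * (1 - v.b) - Lt)
      (La - (a - v.tm w) - v.p * (1 - v.b) - Lt))
    linarith
  have hs2 : 16 * s ≤ v.sc Lz - v.p * (1 - v.b) - Lt := by
    rw [hs]
    have := (min_le_right (1 : ℝ) (min (v.sc Lz - v.p * (1 - v.b) - Lt)
      (La - (a - v.tm w) - v.p * (1 - v.b) - Lt))).trans (min_le_left _ _)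
    linarith
  have hs3 : 16 * s ≤ La - (a - v.tm w) - v.p * (1 - v.b) - Lt := by
    rw [hs]
    have := (min_le_right (1 : ℝ) (min (v.sc Lz - v.p * (1 - v.b) - Lt)
      (La - (a - v.tm w) - v.p * (1 - v.b) - Lt))).trans (min_le_right _ _)
    linarith
  obtain ⟨h, hh⟩ : ∃ h, h = Lt + 8 * s := ⟨_, rfl⟩
  have hscz : v.sc Lz - v.p * (1 - v.b) ≤ 1 := by
    have h1 := one_sub_sc v Lz
    have h2 : 0 ≤ (1 - v.b) * (1 - v.p) * (1 - Lz) := mul_nonneg hcp.le (by linarith)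
    have h3 : 0 ≤ v.p * (1 - v.b) := mul_nonneg hp (by linarith)
    linarith
  have hh1 : h ≤ 1 := by linarith
  -- the absence of labels
  obtain ⟨d, hd0, hd1, habs⟩ := hL.abs {ε κ} (ε k) (v.tm w) 0 h (by rw [← hLt]; linarith) hh1
  obtain ⟨e, he⟩ : ∃ e, e = min (s / 2) (min (d / 2) (a - a₀)) := ⟨_, rfl⟩
  have he0 : 0 < e := by
    rw [he]
    exact lt_min (by linarith) (lt_min (by linarith) (by linarith))
  have he1 : e ≤ s := by
    rw [he]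
    exact (min_le_left _ _).trans (by linarith)
  have he2 : 2 * e ≤ d := by
    have : e ≤ d / 2 := by rw [he]; exact (min_le_right _ _).trans (min_le_left _ _)
    linarith
  have he3 : e ≤ a - a₀ := by
    rw [he]
    exact (min_le_right _ _).trans (min_le_right _ _)
  obtain ⟨K₁, hK₁⟩ := hL'.att {κ} k w' w r' e hw0 hw1.le hw' he0
  obtain ⟨K₂, hK₂⟩ := hL.att {ε κ} (ε k) a₀ a a₀ e ha0 ha1.le ha₀ he0
  rw [← hLz] at hK₁
  rw [← hLa] at hK₂
  obtain ⟨K, hK⟩ : ∃ K, K = max K₁ K₂ := ⟨_, rfl⟩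
  obtain ⟨C, hC, hng⟩ := ng_fam m n K
  obtain ⟨γ, hγ⟩ : ∃ γ, γ = s / (K + 1) := ⟨_, rfl⟩
  have hγ0 : 0 < γ := by rw [hγ]; positivity
  have hγs : γ * (K + 1) ≤ s := by
    rw [hγ]
    exact (div_mul_cancel₀ s (by positivity : ((K : ℝ) + 1) ≠ 0)).le
  obtain ⟨c, hc0, hcB⟩ := hact γ hγ0
  obtain ⟨τ₁, hτ₁, J₁, hb₁⟩ := bas_recV hK₁
  obtain ⟨τ₂, hτ₂, J₂, hb₂⟩ := hK₂
  obtain ⟨τ₃, hτ₃, J₃, hb₃⟩ := hcB
  obtain ⟨τ₄, hτ₄, J₄, hb₄⟩ := habs d le_rfl 1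
  have hD0 : 0 < C * (C₀ + 1) := by positivity
  obtain ⟨τ, hτ⟩ : ∃ τ, τ = min (min τ₁ τ₂) (min (min (τ₃ / 2) (τ₄ / 2))
    (min (s / 2 / (C * (C₀ + 1))) ((1 - v.b) * (1 - v.p) * (1 - w) / 8 / (C * (C₀ + 1))))) :=
    ⟨_, rfl⟩
  have hcw : 0 < (1 - v.b) * (1 - v.p) * (1 - w) := mul_pos hcp (by linarith)
  have hτ0 : 0 < τ := by
    rw [hτ]
    exact lt_min (lt_min hτ₁ hτ₂) (lt_min (lt_min (by linarith) (by linarith))
      (lt_min (by positivity) (by positivity)))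
  have t1 : τ ≤ τ₁ := by rw [hτ]; exact (min_le_left _ _).trans (min_le_left _ _)
  have t2 : τ ≤ τ₂ := by rw [hτ]; exact (min_le_left _ _).trans (min_le_right _ _)
  have t3 : 2 * τ ≤ τ₃ := by
    have : τ ≤ τ₃ / 2 := by
      rw [hτ]
      exact (min_le_right _ _).trans ((min_le_left _ _).trans (min_le_left _ _))
    linarith
  have t4 : 2 * τ ≤ τ₄ := by
    have : τ ≤ τ₄ / 2 := by
      rw [hτ]
      exact (min_le_right _ _).trans ((min_le_left _ _).trans (min_le_right _ _))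
    linarith
  have tC : ∀ x : ℝ, τ ≤ x / (C * (C₀ + 1)) → C * (C₀ * τ) ≤ x := by
    intro x hx
    rw [le_div_iff₀ hD0] at hx
    have : 0 ≤ C * τ := by positivity
    linarith only [hx, this]
  have t5 : C * (C₀ * τ) ≤ s / 2 := tC _ (by
    rw [hτ]
    exact (min_le_right _ _).trans ((min_le_right _ _).trans (min_le_left _ _)))
  have t6 : C * (C₀ * τ) ≤ (1 - v.b) * (1 - v.p) * (1 - w) / 8 := tC _ (by
    rw [hτ]
    exact (min_le_right _ _).trans ((min_le_right _ _).trans (min_le_right _ _)))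
  obtain ⟨N₀, hN₀⟩ := exists_nat_ge (2 * (Real.log C + C))
  obtain ⟨μ, hμ⟩ : ∃ μ, μ = h + s - v.tm w := ⟨_, rfl⟩
  obtain ⟨J₅, hfit⟩ := ng_fit v (s := s) (μ := μ) (w := w) (Lz := Lz) (La := La) (a := a)
    (h := h) (K := K) (N₀ := N₀) (C := C) (C₀ := C₀) (τ := τ) (γ := γ) (e := e) (d := d) hs0
    (by linarith) hw0 hw1 he0 he1 he2 hγ0 hγs hC t5 t6 hN₀ (by linarith) (by linarith) hLz1
    hLa1 ha0 ha1 hd1 (by linarith) (by linarith) (by linarith)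
  obtain ⟨J₆, hJ₆⟩ := exists_nat_ge ((Real.log 4 + Real.log C + 1) / τ)
  obtain ⟨J₇, hJ₇⟩ := exists_nat_ge ((n * k99 + Real.log (2 * (K + 2 : ℕ)) + 1) / c)
  obtain ⟨J, hJ, F, A, hA⟩ := hne τ hτ0 (max (max (max J₁ J₂) (max J₃ J₄))
    (max J₅ (max J₆ J₇)))
  have j1 : J₁ ≤ J := ((le_max_left _ _).trans ((le_max_left _ _).trans (le_max_left _ _))).trans hJ
  have j2 : J₂ ≤ J := ((le_max_right _ _).trans ((le_max_left _ _).trans (le_max_left _ _))).trans hJ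
  have j3 : J₃ ≤ J := ((le_max_left _ _).trans ((le_max_right _ _).trans (le_max_left _ _))).trans hJ
  have j4 : J₄ ≤ J := ((le_max_right _ _).trans ((le_max_right _ _).trans (le_max_left _ _))).trans hJ
  have j5 : J₅ ≤ J := ((le_max_left _ _).trans (le_max_right _ _)).trans hJ
  have j6 : (J₆ : ℝ) ≤ J := by
    exact_mod_cast ((le_max_left _ _).trans ((le_max_right _ _).trans (le_max_right _ _))).trans hJ
  have j7 : (J₇ : ℝ) ≤ J := by
    exact_mod_cast ((le_max_right _ _).trans ((le_max_right _ _).trans (le_max_right _ _))).trans hJ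
  obtain ⟨k1, k2, -⟩ := v.floor_le J
  have hA0 := (htm τ J F A hτ0 hA).1
  obtain ⟨V₁, z₁, z₁', G₁, lab₁⟩ := hb₁ J j1 F A (S.mono t1 hA) k2
  obtain ⟨V₂, z₂, z₂', G₂, lab₂⟩ := hb₂ J j2 F A (S.mono t2 hA)
  obtain ⟨p1, p2, p3, p4, p5, p6, p7, p8, p9, p10, p11, p12, p13, p14⟩ := hfit J j5
  have hlC : 0 ≤ Real.log C := Real.log_nonneg hC
  have hl4 : 0 ≤ Real.log 4 := Real.log_nonneg (by norm_num)
  have hτJ : Real.log 4 + Real.log C + 1 ≤ τ * J := by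
    have h1 := hJ₆.trans j6
    rw [div_le_iff₀ hτ0] at h1
    linarith
  have hcJ : n * k99 + Real.log (2 * (K + 2 : ℕ)) + 1 ≤ c * J := by
    have h1 := hJ₇.trans j7
    rw [div_le_iff₀ hc0] at h1
    linarith
  have hact' : ∀ B₀ : F.Ω → Prop, Sub B₀ A → Pe F.p A / 4 < Pe F.p B₀ →
      Real.log (2 * (K + 2 : ℕ)) < CH (Pool.Agent.H49.Ent.cond F.p B₀ True)
        (fun ω => (zmV F k2 (v.y J F) ε).D ⌊γ * v.R J⌋₊ ω κ) (phz F k2 (v.y J F) ε) := by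
    intro B₀ hB₀ hPB₀
    have hB₀S := res_of hτ0.le hA hB₀ (by norm_num : (0 : ℝ) < 4) (by linarith) (by linarith)
    have h1 := hb₃ J j3 F B₀ (S.mono t3 hB₀S) k2
    have h2 := phz_loss F k2 (v.y J F) ε k1 (isLaw_cond F.isLaw (by linarith : 0 < Pe F.p B₀))
      (fun ω => (zmV F k2 (v.y J F) ε).D ⌊γ * v.R J⌋₊ ω κ)
    have h3 : c * J ≤ CH (Pool.Agent.H49.Ent.cond F.p B₀ True)
      (fun ω => (zmV F k2 (v.y J F) ε).D ⌊γ * v.R J⌋₊ ω κ)
      (fun ω => (F.X J ω, F.T ω, (zmV F k2 (v.y J F) ε).Z ω)) := h1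
    linarith
  have hnum := num4 (C := C) (X := Real.exp (C * (C₀ * τ * J + 1))) (by linarith)
    (Real.one_le_exp (by positivity)) p14 p1 p2 p3 p4
  have hlab₁ : LbP (zmV F k2 (v.y J F) ε) {κ} k K (v.R J) ⌊w * v.R J⌋₊ ⌊(Lz - e) * v.R J⌋₊ A
      z₁ z₁' G₁ := by
    have h1 := LbP.of lab₁
    exact h1.mono (Finset.Subset.refl _) (by rw [hK]; exact le_max_left _ _) le_rfl
  have hlab₂ : LbOK F {ε κ} (ε k) K ⌊e * J⌋₊ J ⌊a * J⌋₊ ⌊a * J⌋₊ ⌊(La - e) * J⌋₊ A z₂ z₂' G₂ := by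
    refine lab₂.mono (Finset.Subset.refl _) (by rw [hK]; exact le_max_right _ _) le_rfl ?_ le_rfl
    refine Nat.floor_le_floor (mul_le_mul_of_nonneg_right (by linarith) (Nat.cast_nonneg J))
  obtain ⟨B', b1, b2, b3⟩ := hng F A hA0 k2 (v.y J F) ε (κ := κ) (k := k) (M := ⌊μ * J⌋₊)
    (Q := ⌊h * J⌋₊) (g := ⌊γ * v.R J⌋₊) (θ := C₀ * τ * J) k1 (v.line J F) hlab₂ hlab₁ le_rfl p8
    le_rfl p7 (by positivity) (zoom_tm htm v ε hτ0 hA k2 hA0) p5 p6 hact' hnum p9 p10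
  have hB'S := res_of hτ0.le hA b1 (by linarith : (0 : ℝ) < C) (by linarith) b2
  refine hb₄ J j4 F B' (S.mono t4 hB'S) ?_
  exact (b3 ⌊(0 + d) * J⌋₊).mono (Finset.Subset.refl _) le_rfl p13 le_rfl p11 p12 le_rfl le_rfl

end Pool.MIC6
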