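import Pool.Agent.H6.OWN.Dps
import Pool.Agent.H6.OWN.NgD

/-!
# The natural scale of the slopes, for a class

`nat_cls`: the slopes at the exact points are functions of the line in the window, up to the natural
scale of the closed labels of the window. `abs_cls`: not better.
-/

set_option autoImplicit false

namespace Pool.MIC6

open Finset MvPolynomial
open Pool.Agent.H49.Ent Pool.Agent.H32.Dense Pool.STK Pool.KA Pool.KSAT Pool.K2S Pool.PB Pool.GEN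
open Pool.S6C
open Pool.FLF (Fam.sub)
open Pool.GRD (LbP)
open Pool.REX

variable {m n J : ℕ}

/-- The exponential of the defect of the time. -/
theorem exp_pow {C C₀ τ s : ℝ} {N₀ J : ℕ} (hC : 1 ≤ C) (hCτ : C * (C₀ * τ) ≤ s / 2)
    (hN₀ : 2 * (Real.log C + C) ≤ N₀) (hsJ : (N₀ + 4 * C + 40 : ℝ) ≤ s * J) :
    C * Real.exp (C * (C₀ * τ * J + 1)) ≤ 2 ^ (N₀ + ⌊2 * s * J⌋₊) := by
  have hJ0 : (0 : ℝ) ≤ J := Nat.cast_nonneg J
  have hN0 : (0 : ℝ) ≤ N₀ := Nat.cast_nonneg N₀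
  have l2 := Real.log_two_gt_d9
  have l2' := Real.log_two_lt_d9
  have f3' : 2 * s * (J : ℝ) - 1 < ⌊2 * s * (J : ℝ)⌋₊ := Nat.sub_one_lt_floor _
  have hτJ : C * (C₀ * τ * J) ≤ s / 2 * J := by
    calc C * (C₀ * τ * J) = C * (C₀ * τ) * J := by ring
      _ ≤ s / 2 * J := mul_le_mul_of_nonneg_right hCτ hJ0
  have h1 : Real.log (C * Real.exp (C * (C₀ * τ * J + 1))) ≤
      Real.log (2 ^ (N₀ + ⌊2 * s * J⌋₊)) := by
    rw [Real.log_mul (by linarith) (Real.exp_pos _).ne', Real.log_exp, Real.log_pow]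
    push_cast
    have l0 : 0 < Real.log 2 := by linarith only [l2]
    have h2 : (2 * s * J - 1) * Real.log 2 ≤ (⌊2 * s * (J : ℝ)⌋₊ : ℝ) * Real.log 2 :=
      mul_le_mul_of_nonneg_right f3'.le l0.le
    have h3 : 2 * (Real.log C + C) * Real.log 2 ≤ N₀ * Real.log 2 :=
      mul_le_mul_of_nonneg_right hN₀ l0.le
    have h4 : 0 ≤ Real.log C := Real.log_nonneg hC
    have h5 : (Real.log C + C) * 1 ≤ (Real.log C + C) * (2 * Real.log 2) :=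
      mul_le_mul_of_nonneg_left (by linarith only [l2]) (by linarith only [h4, hC])
    have h0 : (0 : ℝ) ≤ s * J := by linarith only [hsJ, hN0, hC]
    have h6 : s * J * (13 / 10) ≤ s * J * (2 * Real.log 2) :=
      mul_le_mul_of_nonneg_left (by linarith only [l2]) h0
    linarith only [h2, h3, h5, h6, hτJ, hsJ, l2', hC, hN0]
  exact (Real.log_le_log_iff (by positivity) (by positivity)).1 h1

/-- **The slopes are functions of the line in the window**, up to the natural scale. -/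
theorem nat_cls {S : PCl m} {C₀ : ℝ} (hC₀ : 0 ≤ C₀) (htm : TmC S C₀)
    {L : Finset (Fin m) → Fin m → ℝ → ℝ → ℝ} (hL : LamW S L) {y v : Fin m} (hact : ActF S y)
    {W' W s : ℝ} (hW' : W' < W) (hW0 : 0 < W) (hs : 0 < s)
    (hLs : 0 ≤ L {y} v W' 0 - W - 8 * s) :
    Bas S (fun J F A => ∀ (av cv : PtT F → ℝ) (e M : ℕ), Dp F A y v e M av cv →
      e ≤ ⌊s * J⌋₊ → ⌊(L {y} v W' 0 - W) * J⌋₊ ≤ M →
      ∃ B : F.Ω → Prop, Sub B A ∧ Pe F.p A / 4 ≤ Pe F.p B ∧ ∃ j : LnT F → ℝ, ∀ ω, B ω →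
        |j (slam F ⌊W * J⌋₊ ω) - av (ptr F J ω)| ≤
          1 / 2 ^ ⌊(L {y} v W' 0 - W - 8 * s) * J⌋₊) := by
  classical
  obtain ⟨Lw, hLw⟩ : ∃ Lw, Lw = L {y} v W' 0 := ⟨_, rfl⟩
  have hLw1 : Lw ≤ 1 := by rw [hLw]; exact hL.le1 _ _ _ _
  rw [← hLw] at hLs
  have hW1 : W < 1 := by linarith
  obtain ⟨K, hK⟩ := hL.att {y} v W' W 0 s hW0 hW1.le hW' hs
  rw [← hLw] at hK ⊢
  obtain ⟨C, hC, hfam⟩ := nat_fam m K
  obtain ⟨γ, hγ⟩ : ∃ γ, γ = s / (K + 1) := ⟨_, rfl⟩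
  have hK0 : (0 : ℝ) ≤ K := Nat.cast_nonneg K
  have hγ0 : 0 < γ := by rw [hγ]; positivity
  have hγs : γ * (K + 1) ≤ s := by
    rw [hγ]
    exact (div_mul_cancel₀ s (by positivity : ((K : ℝ) + 1) ≠ 0)).le
  have hγ1 : γ ≤ s := by
    have : γ * 1 ≤ γ * (K + 1) := mul_le_mul_of_nonneg_left (by linarith) hγ0.le
    linarith
  obtain ⟨c, hc0, hcB⟩ := hact γ hγ0
  obtain ⟨τ₁, hτ₁, J₁, hb₁⟩ := hK
  obtain ⟨τ₃, hτ₃, J₃, hb₃⟩ := hcB
  have hD0 : 0 < C * (C₀ + 1) := by positivity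
  obtain ⟨τ, hτ⟩ : ∃ τ, τ = min τ₁ (min (τ₃ / 2) (s / 2 / (C * (C₀ + 1)))) := ⟨_, rfl⟩
  have hτ0 : 0 < τ := by
    rw [hτ]
    exact lt_min hτ₁ (lt_min (by linarith) (by positivity))
  have t1 : τ ≤ τ₁ := by rw [hτ]; exact min_le_left _ _
  have t3 : 2 * τ ≤ τ₃ := by
    have : τ ≤ τ₃ / 2 := by rw [hτ]; exact (min_le_right _ _).trans (min_le_left _ _)
    linarith
  have t5 : C * (C₀ * τ) ≤ s / 2 := by
    have hx : τ ≤ s / 2 / (C * (C₀ + 1)) := by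
      rw [hτ]; exact (min_le_right _ _).trans (min_le_right _ _)
    rw [le_div_iff₀ hD0] at hx
    have : 0 ≤ C * τ := by positivity
    linarith only [hx, this]
  obtain ⟨N₀, hN₀⟩ := exists_nat_ge (2 * (Real.log C + C))
  obtain ⟨J₅, hJ₅⟩ := exists_nat_ge ((N₀ + 4 * C + 40 : ℝ) / s)
  obtain ⟨J₆, hJ₆⟩ := exists_nat_ge (Real.log 4 / τ)
  obtain ⟨J₇, hJ₇⟩ := exists_nat_ge ((Real.log (2 * (K + 2 : ℕ)) + 1) / c)
  refine ⟨τ, hτ0, max (max J₁ J₃) (max J₅ (max J₆ J₇)), ?_⟩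
  intro J hJ F A hA av cv e M hav he hM
  have j1 : J₁ ≤ J := ((le_max_left _ _).trans (le_max_left _ _)).trans hJ
  have j3 : J₃ ≤ J := ((le_max_right _ _).trans (le_max_left _ _)).trans hJ
  have j5 : (J₅ : ℝ) ≤ J := by
    exact_mod_cast ((le_max_left _ _).trans (le_max_right _ _)).trans hJ
  have j6 : (J₆ : ℝ) ≤ J := by
    exact_mod_cast ((le_max_left _ _).trans ((le_max_right _ _).trans (le_max_right _ _))).trans hJ
  have j7 : (J₇ : ℝ) ≤ J := by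
    exact_mod_cast ((le_max_right _ _).trans ((le_max_right _ _).trans (le_max_right _ _))).trans hJ
  have hA0 := (htm τ J F A hτ0 hA).1
  obtain ⟨V, z, z', G, lab⟩ := hb₁ J j1 F A (S.mono t1 hA)
  have hJ0 : (0 : ℝ) ≤ J := Nat.cast_nonneg J
  have hN0 : (0 : ℝ) ≤ N₀ := Nat.cast_nonneg N₀
  have q1 : (N₀ + 4 * C + 40 : ℝ) ≤ s * J := by
    have h1 := hJ₅.trans j5
    rw [div_le_iff₀ hs] at h1
    linarith
  have hτJ : Real.log 4 ≤ τ * J := by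
    have h1 := hJ₆.trans j6
    rw [div_le_iff₀ hτ0] at h1
    linarith
  have hcJ : Real.log (2 * (K + 2 : ℕ)) + 1 ≤ c * J := by
    have h1 := hJ₇.trans j7
    rw [div_le_iff₀ hc0] at h1
    linarith
  have f1 : (⌊W * (J : ℝ)⌋₊ : ℝ) ≤ W * J := Nat.floor_le (by positivity)
  have f3 : (⌊2 * s * (J : ℝ)⌋₊ : ℝ) ≤ 2 * s * J := Nat.floor_le (by positivity)
  have f4 : (⌊γ * (J : ℝ)⌋₊ : ℝ) ≤ γ * J := Nat.floor_le (by positivity)
  have f5 : (⌊s * (J : ℝ)⌋₊ : ℝ) ≤ s * J := Nat.floor_le (by positivity)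
  have f7 : (Lw - s) * (J : ℝ) - 1 < ⌊(Lw - s) * (J : ℝ)⌋₊ := Nat.sub_one_lt_floor _
  have f8 : (⌊(Lw - W - 8 * s) * (J : ℝ)⌋₊ : ℝ) ≤ (Lw - W - 8 * s) * J :=
    Nat.floor_le (mul_nonneg hLs hJ0)
  have f9 : (Lw - W) * (J : ℝ) - 1 < ⌊(Lw - W) * (J : ℝ)⌋₊ := Nat.sub_one_lt_floor _
  have f10 : (⌊(Lw - W) * (J : ℝ)⌋₊ : ℝ) ≤ M := by exact_mod_cast hM
  have f11 : (e : ℝ) ≤ ⌊s * (J : ℝ)⌋₊ := by exact_mod_cast he
  have g1 : γ * (J : ℝ) * (K + 1) ≤ s * J := by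
    calc γ * (J : ℝ) * (K + 1) = γ * (K + 1) * J := by ring
      _ ≤ s * J := mul_le_mul_of_nonneg_right hγs hJ0
  have g2 : (⌊γ * (J : ℝ)⌋₊ : ℝ) * (K + 1) ≤ γ * J * (K + 1) :=
    mul_le_mul_of_nonneg_right f4 (by linarith)
  have g3 : γ * (J : ℝ) ≤ s * J := mul_le_mul_of_nonneg_right hγ1 hJ0
  have g4 : Lw * J ≤ 1 * J := mul_le_mul_of_nonneg_right hLw1 hJ0
  have g5 : (0 : ℝ) ≤ (Lw - W - 8 * s) * J := mul_nonneg hLs hJ0
  have p14 := exp_pow (J := J) hC t5 hN₀ q1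
  have hact' : ∀ B₀ : F.Ω → Prop, Sub B₀ A → Pe F.p A / 4 < Pe F.p B₀ →
      Real.log (2 * (K + 2 : ℕ)) < CH (Pool.Agent.H49.Ent.cond F.p B₀ True)
        (fun ω => F.D ⌊γ * J⌋₊ ω y) (ptr F J) := by
    intro B₀ hB₀ hPB₀
    have hB₀S := res_of hτ0.le hA hB₀ (by norm_num : (0 : ℝ) < 4) (by linarith) (by linarith)
    have h1 := hb₃ J j3 F B₀ (S.mono t3 hB₀S)
    linarith
  have hnum := num4 (C := C) (X := Real.exp (C * (C₀ * τ * J + 1))) (N := N₀ + ⌊2 * s * J⌋₊)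
    (g := ⌊γ * J⌋₊) (K := K) (w := ⌊W * J⌋₊) (P₁ := ⌊(Lw - s) * J⌋₊) (e := e) (J' := J)
    (P := 0) (w₂ := 1) (P₂ := M) (ρ₂ := ⌊W * J⌋₊) (J := J)
    (M := ⌊(Lw - W - 8 * s) * J⌋₊) (by linarith) (Real.one_le_exp (by positivity)) p14 (by
      rw [← Nat.cast_le (α := ℝ)]
      push_cast
      linarith only [f1, f3, f7, f8, g1, g2, q1, hN0, hC]) (by
      rw [← Nat.cast_le (α := ℝ)]
      push_cast
      linarith only [f1, f3, f5, f8, f11, g1, g2, g4, q1, hN0, hC]) (by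
      rw [← Nat.cast_le (α := ℝ)]
      push_cast
      linarith only [f1, f3, f8, f9, f10, g1, g2, q1, hN0, hC]) (by
      rw [← Nat.cast_le (α := ℝ)]
      push_cast
      linarith only [f1, f3, f5, f8, f11, g1, g2, g4, q1, hN0, hC])
  have hTm : (Fam.sub F A hA0).Tm (C₀ * τ * J) := by
    have hq := isLaw_cond F.isLaw hA0
    have h1 : TmQ F (Pool.Agent.H49.Ent.cond F.p A True) (C₀ * τ * J) := (htm τ J F A hτ0 hA).2 hq
    unfold TmQ at h1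
    unfold Fam.Tm
    refine h1.trans (le_of_eq ?_)
    exact (Pool.FLF.sub_CH (F := F) F.T (fun ω => (F.l ω, F.Z ω))).symm
  exact hfam F A hA0 (LbP.of lab) hav (by positivity) hTm (by
    have l2 := Real.log_two_gt_d9
    have h1 : (1 - W) * (J : ℝ) ≤ (J : ℝ) - ⌊W * (J : ℝ)⌋₊ := by linarith only [f1]
    have h2 : 0 ≤ (1 - W) * (J : ℝ) := by
      have : 0 ≤ 1 - W := by linarith
      positivity
    have h3 : (1 - W) * (J : ℝ) * (1 / 2) ≤ ((J : ℝ) - ⌊W * (J : ℝ)⌋₊) * Real.log 2 :=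
      mul_le_mul h1 (by linarith only [l2]) (by norm_num) (h2.trans h1)
    have h4 : C * (C₀ * τ * J) ≤ s / 2 * J := by
      calc C * (C₀ * τ * J) = C * (C₀ * τ) * J := by ring
        _ ≤ s / 2 * J := mul_le_mul_of_nonneg_right t5 hJ0
    linarith only [h3, h4, g4, g5, q1, hN0, hC]) (by
      rw [← Nat.cast_le (α := ℝ)]
      push_cast
      linarith only [f1, f4, g3, g4, g5, q1, hN0, hC]) hact' hnum

/-- **The slopes are not functions of the line in the window**, up to less than the natural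
scale. -/
theorem abs_cls {S : PCl m} {C₀ : ℝ} (htm : TmC S C₀)
    {L : Finset (Fin m) → Fin m → ℝ → ℝ → ℝ} (hL : LamW S L) {y v : Fin m}
    {W s : ℝ} (hW0 : 0 ≤ W) (hs : 0 < s) (hLW : W ≤ L {y} v W 0) (hLs : L {y} v W 0 + 2 * s ≤ 1) :
    ∃ d : ℝ, 0 < d ∧ ∀ e : ℝ, 0 < e → e ≤ d → Bas S (fun J F A => ∀ (av cv : PtT F → ℝ) (M : ℕ),
      Dp F A y v ⌊e * J⌋₊ M av cv → ⌊(L {y} v W 0 - W + s) * J⌋₊ ≤ M → ∀ j : LnT F → ℝ,
      ¬ ∀ ω, A ω → |j (slam F ⌊W * J⌋₊ ω) - av (ptr F J ω)| ≤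
        1 / 2 ^ ⌊(L {y} v W 0 - W + s) * J⌋₊) := by
  classical
  obtain ⟨Lw, hLw⟩ : ∃ Lw, Lw = L {y} v W 0 := ⟨_, rfl⟩
  rw [← hLw] at hLs hLW
  obtain ⟨d, hd, hd1, habs⟩ := hL.abs {y} v W 0 (Lw + s / 2) (by rw [← hLw]; linarith)
    (by linarith)
  rw [← hLw]
  refine ⟨min (d / 2) (s / 2), lt_min (by linarith) (by linarith), ?_⟩
  intro e he hed
  have hed1 : e ≤ d / 2 := hed.trans (min_le_left _ _)
  have hed2 : e ≤ s / 2 := hed.trans (min_le_right _ _)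
  obtain ⟨τ₄, hτ₄, J₄, hb₄⟩ := habs d le_rfl 1
  obtain ⟨J₅, hJ₅⟩ := exists_nat_ge ((10 : ℝ) / min e (τ₄ / 2))
  obtain ⟨J₆, hJ₆⟩ := exists_nat_ge (Real.log (9 ^ 2 * 11) / (τ₄ / 2))
  refine ⟨τ₄ / 2, by linarith, max J₄ (max J₅ J₆), ?_⟩
  intro J hJ F A hA av cv M hav hM j hj
  have j4 : J₄ ≤ J := (le_max_left _ _).trans hJ
  have j5 : (J₅ : ℝ) ≤ J := by
    exact_mod_cast ((le_max_left _ _).trans (le_max_right _ _)).trans hJ
  have j6 : (J₆ : ℝ) ≤ J := by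
    exact_mod_cast ((le_max_right _ _).trans (le_max_right _ _)).trans hJ
  have hJ0 : (0 : ℝ) ≤ J := Nat.cast_nonneg J
  have q1 : (10 : ℝ) ≤ e * J := by
    have h1 := hJ₅.trans j5
    rw [div_le_iff₀ (lt_min he (by linarith))] at h1
    have h2 : min e (τ₄ / 2) * J ≤ e * J := mul_le_mul_of_nonneg_right (min_le_left _ _) hJ0
    linarith
  have hlog : Real.log (9 ^ 2 * 11) ≤ τ₄ / 2 * J := by
    have h1 := hJ₆.trans j6
    rw [div_le_iff₀ (by linarith)] at h1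
    linarith
  have f1 : (⌊W * (J : ℝ)⌋₊ : ℝ) ≤ W * J := Nat.floor_le (by positivity)
  have f1' : W * (J : ℝ) - 1 < ⌊W * (J : ℝ)⌋₊ := Nat.sub_one_lt_floor _
  have hx0 : 0 ≤ Lw - W + s := by linarith
  have f2 : (⌊(Lw - W + s) * (J : ℝ)⌋₊ : ℝ) ≤ (Lw - W + s) * J := Nat.floor_le (by positivity)
  have f2' : (Lw - W + s) * (J : ℝ) - 1 < ⌊(Lw - W + s) * (J : ℝ)⌋₊ := Nat.sub_one_lt_floor _
  have f3 : (⌊e * (J : ℝ)⌋₊ : ℝ) ≤ e * J := Nat.floor_le (by positivity)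
  have f4 : (⌊(Lw + s / 2) * (J : ℝ)⌋₊ : ℝ) ≤ (Lw + s / 2) * J :=
    Nat.floor_le (mul_nonneg (by linarith) hJ0)
  have f5 : d * (J : ℝ) - 1 < ⌊d * (J : ℝ)⌋₊ := Nat.sub_one_lt_floor _
  have f6 : (W + d) * (J : ℝ) - 1 < ⌊(W + d) * (J : ℝ)⌋₊ := Nat.sub_one_lt_floor _
  have f7 : (⌊(W + d) * (J : ℝ)⌋₊ : ℝ) ≤ (W + d) * J := Nat.floor_le (by positivity)
  have g1 : e * (J : ℝ) ≤ d / 2 * J := mul_le_mul_of_nonneg_right hed1 hJ0
  have g2 : e * (J : ℝ) ≤ s / 2 * J := mul_le_mul_of_nonneg_right hed2 hJ0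
  have g3 : (Lw + 2 * s) * J ≤ 1 * J := mul_le_mul_of_nonneg_right hLs hJ0
  have g4 : (W + d) * J ≤ 1 * J := mul_le_mul_of_nonneg_right hd1 hJ0
  have hcast : ∀ a b : ℕ, (a : ℝ) ≤ b → a ≤ b := fun a b h => by exact_mod_cast h
  obtain ⟨B', b1, b2, b3⟩ := lab_slp (F := F) (A := A) (y := y) (v := v) (av := av) (cv := cv)
    (th := j) (W := ⌊W * J⌋₊) (M := ⌊(Lw - W + s) * J⌋₊) (e := ⌊e * J⌋₊)
    (P := ⌊(Lw + s / 2) * J⌋₊) (hcast _ _ (by linarith only [f1, g4, g1, q1]))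
    (fun ω hω => (hav ω hω).2.2.trans (inv_mono hM))
    (fun ω hω => ⟨(hav ω hω).1, (hav ω hω).2.1⟩) hj (hcast _ _ (by
      push_cast
      linarith only [f1, f2, f3, g2, g3, q1])) (hcast _ _ (by
      push_cast
      linarith only [f1', f2', f4, g2, q1]))
  have hB'S := res_of (by linarith : (0 : ℝ) ≤ τ₄ / 2) hA b1 (by norm_num : (0 : ℝ) < 9 ^ 2 * 11)
    hlog b2
  have e1 : 2 * (τ₄ / 2) = τ₄ := by ring
  rw [e1] at hB'S
  refine hb₄ J j4 F B' hB'S ?_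
  exact (b3 ⌊(0 + d) * J⌋₊).mono (Finset.Subset.refl _) le_rfl (hcast _ _ (by
      push_cast
      linarith only [f3, f5, g1, q1])) le_rfl (hcast _ _ (by
      linarith only [f1, f6, g1, q1])) (hcast _ _ (by linarith only [f7, g4])) le_rfl le_rfl

end Pool.MIC6
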