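import Pool.Agent.H6.OWN.Aon
import Pool.Agent.H6.OWN.Nat
import Pool.Agent.H6.OWN.Lbf

/-!
# The numbers of one coordinate over an active coordinate do not depend on the radius

`aff_ocn`: affine closed labels of `ι` over the active coordinate `κ` in a class, from the slope at
the exact points. `ng_id`: so `min (L {y} u w' r') (L {y} u a₀ a₀ - (a - w)) ≤ L {y} u w 0`.
`ng_diag`: `L {y} u w' w' ≤ L {y} u w 0` for `w' < w`.
-/

set_option autoImplicit false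

namespace Pool.MIC6

open Finset MvPolynomial
open Pool.Agent.H49.Ent Pool.Agent.H32.Dense Pool.STK Pool.KA Pool.KSAT Pool.K2S Pool.PB Pool.GEN
open Pool.S6C
open Pool.FLF (Fam.sub)
open Pool.GRD (LbP)
open Pool.REX

variable {m n J : ℕ}

/-- **Affine closed labels over one active coordinate in a class.** -/
theorem aff_ocn {S : PCl m} {C₀ : ℝ} (hC₀ : 0 ≤ C₀) (htm : TmC S C₀)
    {L : Finset (Fin m) → Fin m → ℝ → ℝ → ℝ} (hL : LamW S L) {κ ι : Fin m} (hact : ActF S κ)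
    {W' W r' x q : ℝ} (hW' : W' < W) (hW0 : 0 < W) (hx : 0 < x) (hWq : W ≤ q)
    (hqL : q + x ≤ L {κ} ι W' r') :
    ∃ e₀ : ℝ, 0 < e₀ ∧ e₀ ≤ x ∧ Bas S (fun J F A => ∀ (au cu : PtT F → ℝ) (e M : ℕ),
      e ≤ ⌊e₀ * J⌋₊ → ⌊(q - W + x) * J⌋₊ ≤ M → Dp F A κ ι e M au cu →
      ∃ B : F.Ω → Prop, Sub B A ∧ Pe F.p A ≤ 20 * Pe F.p B ∧
        ∃ (V : Type) (zp : PtT F → V) (zs : LnT F → V) (cf : V → Fin 4 → ℝ),
          AfO F κ ι (⌊W * J⌋₊ + 2) ⌊q * J⌋₊ e B zp zs cf) := by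
  classical
  obtain ⟨Lw, hLw⟩ : ∃ Lw, Lw = L {κ} ι W' r' := ⟨_, rfl⟩
  have hLw1 : Lw ≤ 1 := by rw [hLw]; exact hL.le1 _ _ _ _
  rw [← hLw] at hqL
  have hW1 : W < 1 := by linarith
  obtain ⟨s, hsd⟩ : ∃ s, s = x / 16 := ⟨_, rfl⟩
  have hs : 0 < s := by rw [hsd]; linarith
  have hsx : x = 16 * s := by rw [hsd]; ring
  obtain ⟨K, hK⟩ := hL.att {κ} ι W' W r' s hW0 hW1.le hW' hs
  rw [← hLw] at hK
  obtain ⟨C, hC, hfam⟩ := aff_one m K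
  obtain ⟨γ, hγ⟩ : ∃ γ, γ = s / (K + 1) := ⟨_, rfl⟩
  have hK0 : (0 : ℝ) ≤ K := Nat.cast_nonneg K
  have hγ0 : 0 < γ := by rw [hγ]; positivity
  have hγs : γ * (K + 1) ≤ s := by
    rw [hγ]
    exact (div_mul_cancel₀ s (by positivity : ((K : ℝ) + 1) ≠ 0)).le
  have hγ1 : γ ≤ s := by
    have : γ * 1 ≤ γ * (K + 1) := mul_le_mul_of_nonneg_left (by linarith) hγ0.le
    linarith
  obtain ⟨c, hc0, hcB⟩ := hact γ hγ0
  obtain ⟨τ₁, hτ₁, J₁, hb₁⟩ := hK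
  obtain ⟨τ₃, hτ₃, J₃, hb₃⟩ := hcB
  have hD0 : 0 < C * (C₀ + 1) := by positivity
  obtain ⟨τ, hτ⟩ : ∃ τ, τ = min τ₁ (min (τ₃ / 2) (s / 2 / (C * (C₀ + 1)))) := ⟨_, rfl⟩
  have hτ0 : 0 < τ := by
    rw [hτ]
    exact lt_min hτ₁ (lt_min (by linarith) (by positivity))
  have t1 : τ ≤ τ₁ := by rw [hτ]; exact min_le_left _ _
  have t3 : 2 * τ ≤ τ₃ := by
    have : τ ≤ τ₃ / 2 := by rw [hτ]; exact (min_le_right _ _).trans (min_le_left _ _)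
    linarith
  have t5 : C * (C₀ * τ) ≤ s / 2 := by
    have hx : τ ≤ s / 2 / (C * (C₀ + 1)) := by
      rw [hτ]; exact (min_le_right _ _).trans (min_le_right _ _)
    rw [le_div_iff₀ hD0] at hx
    have : 0 ≤ C * τ := by positivity
    linarith only [hx, this]
  obtain ⟨N₀, hN₀⟩ := exists_nat_ge (2 * (Real.log C + C))
  obtain ⟨J₅, hJ₅⟩ := exists_nat_ge ((N₀ + 4 * C + 40 : ℝ) / s)
  obtain ⟨J₆, hJ₆⟩ := exists_nat_ge (Real.log 4 / τ)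
  obtain ⟨J₇, hJ₇⟩ := exists_nat_ge ((Real.log (2 * (K + 2 : ℕ)) + 1) / c)
  refine ⟨s, hs, by linarith, τ, hτ0, max (max J₁ J₃) (max J₅ (max J₆ J₇)), ?_⟩
  intro J hJ F A hA au cu e M he hM hau
  have j1 : J₁ ≤ J := ((le_max_left _ _).trans (le_max_left _ _)).trans hJ
  have j3 : J₃ ≤ J := ((le_max_right _ _).trans (le_max_left _ _)).trans hJ
  have j5 : (J₅ : ℝ) ≤ J := by
    exact_mod_cast ((le_max_left _ _).trans (le_max_right _ _)).trans hJ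
  have j6 : (J₆ : ℝ) ≤ J := by
    exact_mod_cast ((le_max_left _ _).trans ((le_max_right _ _).trans (le_max_right _ _))).trans hJ
  have j7 : (J₇ : ℝ) ≤ J := by
    exact_mod_cast ((le_max_right _ _).trans ((le_max_right _ _).trans (le_max_right _ _))).trans hJ
  have hA0 := (htm τ J F A hτ0 hA).1
  obtain ⟨V, z, z', G, lab⟩ := hb₁ J j1 F A (S.mono t1 hA)
  have hJ0 : (0 : ℝ) ≤ J := Nat.cast_nonneg J
  have hN0 : (0 : ℝ) ≤ N₀ := Nat.cast_nonneg N₀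
  have q1 : (N₀ + 4 * C + 40 : ℝ) ≤ s * J := by
    have h1 := hJ₅.trans j5
    rw [div_le_iff₀ hs] at h1
    linarith
  have hτJ : Real.log 4 ≤ τ * J := by
    have h1 := hJ₆.trans j6
    rw [div_le_iff₀ hτ0] at h1
    linarith
  have hcJ : Real.log (2 * (K + 2 : ℕ)) + 1 ≤ c * J := by
    have h1 := hJ₇.trans j7
    rw [div_le_iff₀ hc0] at h1
    linarith
  have f1 : (⌊W * (J : ℝ)⌋₊ : ℝ) ≤ W * J := Nat.floor_le (by positivity)
  have f1' : W * (J : ℝ) - 1 < ⌊W * (J : ℝ)⌋₊ := Nat.sub_one_lt_floor _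
  have f3 : (⌊2 * s * (J : ℝ)⌋₊ : ℝ) ≤ 2 * s * J := Nat.floor_le (by positivity)
  have f4 : (⌊γ * (J : ℝ)⌋₊ : ℝ) ≤ γ * J := Nat.floor_le (by positivity)
  have f5 : (⌊s * (J : ℝ)⌋₊ : ℝ) ≤ s * J := Nat.floor_le (by positivity)
  have f7 : (Lw - s) * (J : ℝ) - 1 < ⌊(Lw - s) * (J : ℝ)⌋₊ := Nat.sub_one_lt_floor _
  have f8 : (⌊q * (J : ℝ)⌋₊ : ℝ) ≤ q * J := Nat.floor_le (mul_nonneg (by linarith) hJ0)
  have f9 : (q - W + x) * (J : ℝ) - 1 < ⌊(q - W + x) * (J : ℝ)⌋₊ := Nat.sub_one_lt_floor _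
  have f10 : (⌊(q - W + x) * (J : ℝ)⌋₊ : ℝ) ≤ M := by exact_mod_cast hM
  have f11 : (e : ℝ) ≤ ⌊s * (J : ℝ)⌋₊ := by exact_mod_cast he
  have g1 : γ * (J : ℝ) * (K + 1) ≤ s * J := by
    calc γ * (J : ℝ) * (K + 1) = γ * (K + 1) * J := by ring
      _ ≤ s * J := mul_le_mul_of_nonneg_right hγs hJ0
  have g2 : (⌊γ * (J : ℝ)⌋₊ : ℝ) * (K + 1) ≤ γ * J * (K + 1) :=
    mul_le_mul_of_nonneg_right f4 (by linarith)
  have g3 : γ * (J : ℝ) ≤ s * J := mul_le_mul_of_nonneg_right hγ1 hJ0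
  have g4 : Lw * J ≤ 1 * J := mul_le_mul_of_nonneg_right hLw1 hJ0
  have g5 : (q + x) * (J : ℝ) ≤ Lw * J := mul_le_mul_of_nonneg_right hqL hJ0
  have g6 : W * (J : ℝ) ≤ q * J := mul_le_mul_of_nonneg_right hWq hJ0
  have g7 : x * (J : ℝ) = 16 * (s * J) := by rw [hsx]; ring
  have p14 := exp_pow (J := J) hC t5 hN₀ q1
  have hact' : ∀ B₀ : F.Ω → Prop, Sub B₀ A → Pe F.p A / 4 < Pe F.p B₀ →
      Real.log (2 * (K + 2 : ℕ)) < CH (Pool.Agent.H49.Ent.cond F.p B₀ True)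
        (fun ω => F.D ⌊γ * J⌋₊ ω κ) (ptr F J) := by
    intro B₀ hB₀ hPB₀
    have hB₀S := res_of hτ0.le hA hB₀ (by norm_num : (0 : ℝ) < 4) (by linarith) (by linarith)
    have h1 := hb₃ J j3 F B₀ (S.mono t3 hB₀S)
    linarith
  have hTm : (Fam.sub F A hA0).Tm (C₀ * τ * J) := by
    have hq := isLaw_cond F.isLaw hA0
    have h1 : TmQ F (Pool.Agent.H49.Ent.cond F.p A True) (C₀ * τ * J) := (htm τ J F A hτ0 hA).2 hq
    unfold TmQ at h1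
    unfold Fam.Tm
    refine h1.trans (le_of_eq ?_)
    exact (Pool.FLF.sub_CH (F := F) F.T (fun ω => (F.l ω, F.Z ω))).symm
  exact hfam F A hA0 (g := ⌊γ * J⌋₊) (N := N₀ + ⌊2 * s * J⌋₊) (θ := C₀ * τ * J) hau (LbP.of lab)
    (by
      rw [← Nat.cast_le (α := ℝ)]
      push_cast
      linarith only [f1, g4, g5, g6, g7, q1, hN0, hC]) (by positivity) hTm (by
    have l2 := Real.log_two_gt_d9
    have h1 : 16 * (s * J) ≤ (J : ℝ) - ⌊W * (J : ℝ)⌋₊ := by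
      linarith only [f1, g4, g5, g6, g7]
    have h2 : 0 ≤ 16 * (s * (J : ℝ)) := by positivity
    have h3 : 16 * (s * J) * (1 / 2) ≤ ((J : ℝ) - ⌊W * (J : ℝ)⌋₊) * Real.log 2 :=
      mul_le_mul h1 (by linarith only [l2]) (by norm_num) (h2.trans h1)
    have h4 : C * (C₀ * τ * J) ≤ s / 2 * J := by
      calc C * (C₀ * τ * J) = C * (C₀ * τ) * J := by ring
        _ ≤ s / 2 * J := mul_le_mul_of_nonneg_right t5 hJ0
    linarith only [h3, h4, q1, hN0, hC]) (by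
      rw [← Nat.cast_le (α := ℝ)]
      push_cast
      linarith only [f1, f4, f5, f11, g3, g4, g5, g6, g7, q1, hN0, hC]) hact' p14 (by
      rw [← Nat.cast_le (α := ℝ)]
      push_cast
      linarith only [f3, f7, f8, g1, g2, g5, g7, q1, hN0, hC]) (by
      rw [← Nat.cast_le (α := ℝ)]
      push_cast
      linarith only [f3, f5, f8, f11, g1, g2, g4, g5, g7, q1, hN0, hC]) (by
      rw [← Nat.cast_le (α := ℝ)]
      push_cast
      linarith only [f1', f3, f8, f9, f10, g1, g2, g7, q1, hN0, hC])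

/-- An affine closed label over one coordinate is a label with bounded gradients. -/
theorem AfO.lb {F : Fam m J} {κ ι : Fin m} {w Q P e : ℕ} {A : F.Ω → Prop} {V : Type}
    {zp : PtT F → V} {zs : LnT F → V} {cf : V → Fin 4 → ℝ} (h : AfO F κ ι w Q e A zp zs cf)
    (hP : P + 1 ≤ Q) (hPw : w ≤ P) (ρ : ℕ) :
    LbOK F {κ} ι 1 (e + 3) J w ρ P A zp zs
      (fun x => afq κ κ (cf x 0) (cf x 1) (cf x 2) (cf x 3)) := by
  have h1 : LbP F {κ, κ} ι 1 J w Q A zp zs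
      (fun x => afq κ κ (cf x 0) (cf x 1) (cf x 2) (cf x 3)) :=
    h.1.mono (by rw [Finset.pair_eq_singleton]) le_rfl le_rfl
  have h2 := lb_afq h1 (fun ω hω => ⟨(h.2.2 ω hω).1, by
    rw [h.2.1, abs_zero]
    positivity⟩) (fun ω hω => (h.2.2 ω hω).2) hP hPw ρ
  rwa [Finset.pair_eq_singleton] at h2

/-- **The numbers of one coordinate over an active one do not depend on the radius**, as long as the
slope at the exact points is known. -/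
theorem ng_id {S : PCl m} (hS : S.Ne) {C₀ : ℝ} (hC₀ : 0 ≤ C₀) (htm : TmC S C₀)
    {L : Finset (Fin m) → Fin m → ℝ → ℝ → ℝ} (hL : LamW S L) {y u : Fin m} (hact : ActF S y)
    {w' w r' a₀ a : ℝ} (hw0 : 0 < w) (hw' : w' < w) (ha0 : 0 ≤ a₀) (ha : a₀ < a) :
    min (L {y} u w' r') (L {y} u a₀ a₀ - (a - w)) ≤ L {y} u w 0 := by
  classical
  by_contra hcon
  push Not at hcon
  obtain ⟨N, hN⟩ : ∃ N, N = L {y} u w 0 := ⟨_, rfl⟩
  obtain ⟨Lw, hLw⟩ : ∃ Lw, Lw = L {y} u w' r' := ⟨_, rfl⟩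
  obtain ⟨La, hLa⟩ : ∃ La, La = L {y} u a₀ a₀ := ⟨_, rfl⟩
  have hLw1 : Lw ≤ 1 := by rw [hLw]; exact hL.le1 _ _ _ _
  have hLa1 : La ≤ 1 := by rw [hLa]; exact hL.le1 _ _ _ _
  rw [← hN, ← hLw, ← hLa] at hcon
  have h1 : N < Lw := hcon.trans_le (min_le_left _ _)
  have h2 : N < La - (a - w) := hcon.trans_le (min_le_right _ _)
  have hw1 : w < 1 := by
    by_contra hw
    push Not at hw
    have h3 : (1 : ℝ) ≤ L {y} u 1 0 := hL.low _ _ _ _ le_rfl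
    have h4 : L {y} u 1 0 ≤ L {y} u w 0 := hL.mono _ _ _ _ _ _ _ (Finset.Subset.refl _) hw le_rfl
    rw [hN] at h1
    linarith
  have hwN : w ≤ N := by rw [hN]; exact hL.low _ _ _ _ hw1.le
  have ha1 : a < 1 := by linarith
  -- the parameters
  obtain ⟨x, hxd⟩ : ∃ x, x = min ((Lw - N) / 4) (min ((La - (a - w) - N) / 16) ((a - a₀) / 4)) :=
    ⟨_, rfl⟩
  have hx0 : 0 < x := by
    rw [hxd]
    exact lt_min (by linarith) (lt_min (by linarith) (by linarith))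
  have x0 : x ≤ (Lw - N) / 4 ∧ x ≤ (La - (a - w) - N) / 16 ∧ x ≤ (a - a₀) / 4 := by
    have := hxd.le
    simp only [le_min_iff] at this
    tauto
  obtain ⟨x1, x2, x3⟩ := x0
  obtain ⟨d, hd0, hd1, habs⟩ := hL.abs {y} u w 0 (N + x) (by rw [← hN]; linarith) (by linarith)
  obtain ⟨d', hd'⟩ : ∃ d', d' = min d x := ⟨_, rfl⟩
  have hd'0 : 0 < d' := by rw [hd']; exact lt_min hd0 hx0
  have hd'd : d' ≤ d := by rw [hd']; exact min_le_left _ _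
  have hd'x : d' ≤ x := by rw [hd']; exact min_le_right _ _
  obtain ⟨e₀, he₀, he₀x, τ₁, hτ₁, J₁, b₁⟩ := aff_ocn hC₀ htm hL (κ := y) (ι := u) hact
    (W' := w') (W := w + d' / 2) (r' := r') (x := x) (q := N + 2 * x) (by linarith) (by linarith)
    hx0 (by linarith) (by rw [← hLw]; linarith)
  obtain ⟨e₁, he₁⟩ : ∃ e₁, e₁ = min (min e₀ (d' / 2)) (min x ((a - a₀) / 3)) := ⟨_, rfl⟩
  have he₁0 : 0 < e₁ := by
    rw [he₁]
    exact lt_min (lt_min he₀ (by linarith)) (lt_min hx0 (by linarith))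
  have e10 : e₁ ≤ e₀ ∧ e₁ ≤ d' / 2 ∧ e₁ ≤ x ∧ e₁ ≤ (a - a₀) / 3 := by
    have := he₁.le
    simp only [le_min_iff] at this
    tauto
  obtain ⟨e11, e12, e13, e14⟩ := e10
  obtain ⟨τ₂, hτ₂, J₂, b₂⟩ := dp_cls hL y u (a₀ := a₀) (a := a) (e := e₁) ha0 ha ha1 he₁0
    (by linarith) (by rw [← hLa]; linarith)
  rw [← hLa] at b₂
  obtain ⟨τ₃, hτ₃, J₃, b₃⟩ := habs d' hd'd 1
  obtain ⟨τ, hτ⟩ : ∃ τ, τ = min (min τ₁ τ₂) (τ₃ / 2) := ⟨_, rfl⟩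
  have hτ0 : 0 < τ := by rw [hτ]; exact lt_min (lt_min hτ₁ hτ₂) (by linarith)
  have t1 : τ ≤ τ₁ := by rw [hτ]; exact (min_le_left _ _).trans (min_le_left _ _)
  have t2 : τ ≤ τ₂ := by rw [hτ]; exact (min_le_left _ _).trans (min_le_right _ _)
  have t3 : 2 * τ ≤ τ₃ := by
    have : τ ≤ τ₃ / 2 := by rw [hτ]; exact min_le_right _ _
    linarith
  obtain ⟨J₄, hJ₄⟩ := exists_nat_ge (max (20 / d') (Real.log 20 / τ))
  obtain ⟨J, hJ, F, A, hA⟩ := hS τ hτ0 (J₁ + J₂ + J₃ + J₄)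
  have hJ4 : (J₄ : ℝ) ≤ J := by exact_mod_cast (by omega : J₄ ≤ J)
  have hJ0 : (0 : ℝ) ≤ J := Nat.cast_nonneg J
  have q1 : (20 : ℝ) ≤ d' * J := by
    have h3 := ((le_max_left _ _).trans hJ₄).trans hJ4
    rw [div_le_iff₀ hd'0] at h3
    linarith only [h3]
  have q2 : Real.log 20 ≤ τ * J := by
    have h3 := ((le_max_right _ _).trans hJ₄).trans hJ4
    rw [div_le_iff₀ hτ0] at h3
    linarith only [h3]
  obtain ⟨au, cu, hau⟩ := b₂ J (by omega) F A (S.mono t2 hA)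
  obtain ⟨B, c1, c2, V, zp, zs, cf, c3⟩ := b₁ J (by omega) F A (S.mono t1 hA) au cu ⌊e₁ * J⌋₊
    ⌊(La - a - 4 * e₁) * J⌋₊ (Nat.floor_le_floor (mul_le_mul_of_nonneg_right e11 hJ0))
    (Nat.floor_le_floor (mul_le_mul_of_nonneg_right (by linarith) hJ0)) hau
  have hB : S.St (2 * τ) J F B := res_of hτ0.le hA c1 (by norm_num) q2 c2
  refine b₃ J (by omega) F B (S.mono t3 hB) ?_
  -- the floors
  have f1 : (⌊(w + d' / 2) * (J : ℝ)⌋₊ : ℝ) ≤ (w + d' / 2) * J := Nat.floor_le (by positivity)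
  have f2 : (w + d') * (J : ℝ) - 1 < ⌊(w + d') * (J : ℝ)⌋₊ := Nat.sub_one_lt_floor _
  have f2' : (⌊(w + d') * (J : ℝ)⌋₊ : ℝ) ≤ (w + d') * J := Nat.floor_le (by positivity)
  have f3 : (⌊(N + x) * (J : ℝ)⌋₊ : ℝ) ≤ (N + x) * J :=
    Nat.floor_le (mul_nonneg (by linarith) hJ0)
  have f3' : (N + x) * (J : ℝ) - 1 < ⌊(N + x) * (J : ℝ)⌋₊ := Nat.sub_one_lt_floor _
  have f4 : (N + 2 * x) * (J : ℝ) - 1 < ⌊(N + 2 * x) * (J : ℝ)⌋₊ := Nat.sub_one_lt_floor _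
  have f5 : (⌊e₁ * (J : ℝ)⌋₊ : ℝ) ≤ e₁ * J := Nat.floor_le (by positivity)
  have f6 : d' * (J : ℝ) - 1 < ⌊d' * (J : ℝ)⌋₊ := Nat.sub_one_lt_floor _
  have g1 : d' * (J : ℝ) ≤ x * J := mul_le_mul_of_nonneg_right hd'x hJ0
  have g2 : e₁ * (J : ℝ) ≤ d' / 2 * J := mul_le_mul_of_nonneg_right e12 hJ0
  have g3 : w * (J : ℝ) ≤ N * J := mul_le_mul_of_nonneg_right hwN hJ0
  have n1 : ⌊(w + d' / 2) * (J : ℝ)⌋₊ + 2 ≤ ⌊(w + d') * (J : ℝ)⌋₊ := by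
    rw [← Nat.cast_le (α := ℝ)]
    push_cast
    linarith only [f1, f2, q1]
  have n2 : ⌊(N + x) * (J : ℝ)⌋₊ + 1 ≤ ⌊(N + 2 * x) * (J : ℝ)⌋₊ := by
    rw [← Nat.cast_le (α := ℝ)]
    push_cast
    linarith only [f3, f4, g1, q1]
  have n3 : ⌊e₁ * (J : ℝ)⌋₊ + 3 ≤ ⌊d' * (J : ℝ)⌋₊ := by
    rw [← Nat.cast_le (α := ℝ)]
    push_cast
    linarith only [f5, f6, g2, q1]
  have n4 : ⌊(w + d' / 2) * (J : ℝ)⌋₊ + 2 ≤ ⌊(N + x) * (J : ℝ)⌋₊ := by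
    rw [← Nat.cast_le (α := ℝ)]
    push_cast
    linarith only [f1, f3', g1, g3, q1]
  have n5 : ⌊(w + d') * (J : ℝ)⌋₊ ≤ J := by
    rw [← Nat.cast_le (α := ℝ)]
    have : (w + d') * (J : ℝ) ≤ 1 * J := mul_le_mul_of_nonneg_right (by linarith) hJ0
    linarith only [f2', this]
  have hlb := c3.lb n2 n4 ⌊(0 + d') * (J : ℝ)⌋₊
  exact Lb.mono ⟨V, zp, zs, _, hlb⟩ (Finset.Subset.refl _) le_rfl n3 le_rfl n1 n5 le_rfl le_rfl

/-- **The diagonal numbers** are below the numbers of the unit ball of larger windows. -/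
theorem ng_diag {S : PCl m} (hS : S.Ne) {C₀ : ℝ} (hC₀ : 0 ≤ C₀) (htm : TmC S C₀)
    {L : Finset (Fin m) → Fin m → ℝ → ℝ → ℝ} (hL : LamW S L) {y u : Fin m} (hact : ActF S y)
    {w' w : ℝ} (hw'0 : 0 ≤ w') (hw' : w' < w) : L {y} u w' w' ≤ L {y} u w 0 := by
  have h := ng_id hS hC₀ htm hL (y := y) (u := u) hact (w' := w') (w := w) (r' := w') (a₀ := w')
    (a := w) (by linarith) hw' hw'0 hw'
  have e1 : L {y} u w' w' - (w - w) = L {y} u w' w' := by ring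
  rwa [e1, min_self] at h

end Pool.MIC6
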