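import Pool.Agent.H6.OWN.Afn
import Pool.Agent.H6.OWN.Bfc

/-!
# The nested bound of the coefficient of an affine label

`nes_cls`: two relations `a + b * au = av` with functions of the line in the window have nearly the
same coefficient `b`. `aff_nes`: the coefficient of `u` in the affine label of `v` over `y`, `u` in
a zoom is near to the closed coefficient of the affine label in the balls of the family.
-/

set_option autoImplicit false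

namespace Pool.MIC6

open Finset MvPolynomial
open Pool.Agent.H49.Ent Pool.Agent.H32.Dense Pool.STK Pool.KA Pool.KSAT Pool.K2S Pool.PB Pool.GEN
open Pool.S6C
open Pool.FLF (Fam.sub)
open Pool.GRD (LbP)
open Pool.REX

variable {m n J : ℕ}

/-- **Two relations have nearly the same coefficient.** -/
theorem nes_cls {S : PCl m} {C₀ : ℝ} (htm : TmC S C₀)
    {L : Finset (Fin m) → Fin m → ℝ → ℝ → ℝ} (hL : LamW S L) {y u : Fin m}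
    {W s : ℝ} (hW0 : 0 ≤ W) (hs : 0 < s) (hLW : W ≤ L {y} u W 0) (hLs : L {y} u W 0 + 2 * s ≤ 1) :
    ∃ d : ℝ, 0 < d ∧ ∀ e : ℝ, 0 < e → e ≤ d → Bas S (fun J F A => ∀ (au cu av : PtT F → ℝ) (M : ℕ),
      Dp F A y u ⌊e * J⌋₊ M au cu → ⌊(L {y} u W 0 - W + s) * J⌋₊ ≤ M →
      ∀ (ga gb ga' gb' : LnT F → ℝ) (T E E' : ℝ), 0 < T →
      (E + E') * 2 ^ ⌊(L {y} u W 0 - W + s) * J⌋₊ ≤ T →
      (∀ ω, A ω → |ga (slam F ⌊W * J⌋₊ ω) + gb (slam F ⌊W * J⌋₊ ω) * au (ptr F J ω) -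
        av (ptr F J ω)| ≤ E) →
      (∀ ω, A ω → |ga' (slam F ⌊W * J⌋₊ ω) + gb' (slam F ⌊W * J⌋₊ ω) * au (ptr F J ω) -
        av (ptr F J ω)| ≤ E') →
      ∃ B : F.Ω → Prop, Sub B A ∧ Pe F.p A / 2 ≤ Pe F.p B ∧ ∀ ω, B ω →
        |gb (slam F ⌊W * J⌋₊ ω) - gb' (slam F ⌊W * J⌋₊ ω)| ≤ T) := by
  obtain ⟨d, hd, hcoef⟩ := coef_cls htm hL (y := y) (u := u) hW0 hs hLW hLs
  refine ⟨d, hd, fun e he hed => ?_⟩
  obtain ⟨τ, hτ, J₁, hb⟩ := hcoef e he hed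
  refine ⟨τ, hτ, J₁, ?_⟩
  intro J hJ F A hA au cu av M hau hM ga gb ga' gb' T E E' hT hE h1 h2
  refine hb J hJ F A hA au cu M hau hM (fun x => gb x - gb' x) (fun x => ga x - ga' x) T
    (E + E') hT hE fun ω hω => ?_
  have h3 := h1 ω hω
  have h4 := h2 ω hω
  show |ga (slam F ⌊W * J⌋₊ ω) - ga' (slam F ⌊W * J⌋₊ ω) +
    (gb (slam F ⌊W * J⌋₊ ω) - gb' (slam F ⌊W * J⌋₊ ω)) * au (ptr F J ω)| ≤ _
  have e1 : ga (slam F ⌊W * J⌋₊ ω) - ga' (slam F ⌊W * J⌋₊ ω) +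
      (gb (slam F ⌊W * J⌋₊ ω) - gb' (slam F ⌊W * J⌋₊ ω)) * au (ptr F J ω) =
      (ga (slam F ⌊W * J⌋₊ ω) + gb (slam F ⌊W * J⌋₊ ω) * au (ptr F J ω) - av (ptr F J ω)) -
      (ga' (slam F ⌊W * J⌋₊ ω) + gb' (slam F ⌊W * J⌋₊ ω) * au (ptr F J ω) -
        av (ptr F J ω)) := by ring
  rw [e1]
  exact (abs_sub _ _).trans (add_le_add h3 h4)

/-- Functions of the line in a window are functions of the line in a smaller window. -/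
theorem slam_fac' (F : Fam m J) {w w' : ℕ} (hw : w ≤ w') (hw' : w' ≤ J) (g : LnT F → ℝ) :
    ∃ φ : LnT F → ℝ, ∀ ω, g (slam F w ω) = φ (slam F w' ω) :=
  fac_fun (f := slam F w') (g := fun ω => g (slam F w ω)) fun ω ω' h => by
    show g _ = g _
    rw [slam_coarse F hw hw' ω, slam_coarse F hw hw' ω', h]

/-- **The nested bound of the coefficient.** -/
theorem aff_nes {S : PCl m} {C₀ : ℝ} (hC₀ : 0 ≤ C₀) (htm : TmC S C₀)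
    {L : Finset (Fin m) → Fin m → ℝ → ℝ → ℝ} (hL : LamW S L) (v : Vz m)
    (ε : Fin n → Fin m) {L' : Finset (Fin n) → Fin n → ℝ → ℝ → ℝ} (hL' : LamW (RecV S v ε) L')
    {κ ι k : Fin n} (hκι : κ ≠ ι) (hact : ActZ S v ε κ) (hactF : ActF S (ε κ))
    {w' w r' x q W₁ Wm q₂ t : ℝ} (hw' : w' < w) (hr0 : 0 ≤ r') (hw0 : 0 < w) (hw1 : w < 1)
    (hx : 0 < x) (hrs : x ≤ (1 - v.b) * (1 - v.p) * (w - r')) (hqx : x ≤ q)
    (hLz : q + x ≤ v.sc (L' {κ, ι} k w' r') - v.p * (1 - v.b) - v.tm w)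
    (hcont : ContinuousAt (fun W => L {ε κ} (ε ι) W 0) (v.tm w))
    (hUt : v.tm w < L {ε κ} (ε ι) (v.tm w) 0)
    (hUq : L {ε κ} (ε ι) (v.tm w) 0 - v.tm w ≤ q)
    (hLu : L {ε κ} (ε ι) (v.tm w) 0 + v.p * (1 - v.b) ≤ v.sc (L' {κ} ι w' r'))
    (hW₁ : W₁ ≤ Wm) (hWm : v.tm w ≤ Wm)
    (hcontm : ContinuousAt (fun W => L {ε κ} (ε ι) W 0) Wm)
    (hUm : L {ε κ} (ε ι) Wm 0 + x ≤ 1) (hWm1 : Wm < L {ε κ} (ε ι) Wm 0)
    (ht : 0 ≤ t) (ht1 : t + (L {ε κ} (ε ι) Wm 0 - Wm) + 2 * x ≤ q)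
    (ht2 : t + (L {ε κ} (ε ι) Wm 0 - Wm) + x ≤ q₂) :
    ∃ e₀ : ℝ, 0 < e₀ ∧ Bas S (fun J F A => ∀ (au cu av cv : PtT F → ℝ) (e M : ℕ),
      e ≤ ⌊e₀ * J⌋₊ → ⌊(q + v.p * (1 - v.b) + x) * J⌋₊ ≤ M → Dp F A (ε κ) (ε ι) e M au cu →
      Dp F A (ε κ) (ε k) e M av cv → ∀ (ga' gb' : LnT F → ℝ),
      (∀ ω, A ω → |ga' (slam F (⌊W₁ * J⌋₊ + 2) ω) + gb' (slam F (⌊W₁ * J⌋₊ + 2) ω) *
        au (ptr F J ω) - av (ptr F J ω)| ≤ 1 / 2 ^ ⌊q₂ * J⌋₊) →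
      ∀ hP : v.P J ≤ J - v.B J,
      ∃ B : F.Ω → Prop, Sub B A ∧ Pe F.p A ≤ 5120 * Pe F.p B ∧
        ∃ (V : Type) (zp : PtT (zmV F hP (v.y J F) ε) → V) (zs : LnT (zmV F hP (v.y J F) ε) → V)
          (cf : V → Fin 4 → ℝ),
          AfC F hP (v.y J F) ε κ ι k (⌊w * v.R J⌋₊ + 2) (⌊w * v.R J⌋₊ + ⌊q * J⌋₊)
            ⌊(q - x) * J⌋₊ ⌊x / 32 * J⌋₊ au av B zp zs cf ∧
          ∀ ω, B ω → |cf (zs (slam (zmV F hP (v.y J F) ε) (⌊w * v.R J⌋₊ + 2) ω)) 3 -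
            gb' (slam F (⌊W₁ * J⌋₊ + 2) ω)| ≤ 1 / 2 ^ ⌊t * J⌋₊) := by
  classical
  have hb := v.b0
  have hb1 := v.b1
  have hp := v.p0
  have hp1 := v.p1
  have hcp : 0 < (1 - v.b) * (1 - v.p) := mul_pos (by linarith) (by linarith)
  have hpb : 0 ≤ v.p * (1 - v.b) := mul_nonneg hp (by linarith)
  obtain ⟨U, hUd⟩ : ∃ U, U = L {ε κ} (ε ι) Wm 0 := ⟨_, rfl⟩
  have htm0 : v.tm w = v.b + (1 - v.b) * (1 - v.p) * w := rfl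
  have htw0 : 0 < v.tm w := by
    have : 0 < (1 - v.b) * (1 - v.p) * w := mul_pos hcp hw0
    rw [htm0]
    linarith
  obtain ⟨e₁, he₁, haff⟩ := aff_cls hC₀ htm hL v ε hL' hκι hact hactF hw' hr0 hw0 hw1 hx hrs hqx
    hLz hcont hUt hUq hLu
  rw [← hUd] at hUm hWm1 ht1 ht2
  -- the window
  obtain ⟨s, hs⟩ : ∃ s, s = x / 64 := ⟨_, rfl⟩
  have hs0 : 0 < s := by rw [hs]; linarith
  obtain ⟨η, hη, hηc⟩ := Metric.continuousAt_iff.1 hcontm s hs0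
  obtain ⟨o, hod⟩ : ∃ o, o = min s (η / 2) := ⟨_, rfl⟩
  have ho0 : 0 < o := by rw [hod]; exact lt_min hs0 (by linarith)
  have ho1 : o ≤ s := by rw [hod]; exact min_le_left _ _
  have ho2 : o ≤ η / 2 := by rw [hod]; exact min_le_right _ _
  obtain ⟨W, hW⟩ : ∃ W, W = Wm + o := ⟨_, rfl⟩
  obtain ⟨U₂, hU₂⟩ : ∃ U₂, U₂ = L {ε κ} (ε ι) W 0 := ⟨_, rfl⟩
  have hUU₂ : |U₂ - U| < s := by
    have h1 := @hηc W (by
      rw [Real.dist_eq, hW]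
      have : Wm + o - Wm = o := by ring
      rw [this, abs_of_pos ho0]
      linarith)
    rw [Real.dist_eq] at h1
    rw [hU₂, hUd]
    exact h1
  rw [abs_lt] at hUU₂
  have hUU₂' : U ≤ U₂ := by
    rw [hU₂, hUd]
    exact hL.mono _ _ _ _ _ _ _ (Finset.Subset.refl _) (by rw [hW]; linarith) le_rfl
  have hWW1 : W ≤ 1 := by rw [hW]; linarith
  obtain ⟨d, hd0, hnes⟩ := nes_cls htm hL (y := ε κ) (u := ε ι) (W := W) (s := s)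
    (by rw [hW]; linarith) hs0 (hL.low _ _ _ _ hWW1) (by rw [← hU₂]; linarith)
  rw [← hU₂] at hnes
  obtain ⟨e₀, he₀⟩ : ∃ e₀, e₀ = min e₁ d := ⟨_, rfl⟩
  have he₀0 : 0 < e₀ := by rw [he₀]; exact lt_min he₁ hd0
  have he₀1 : e₀ ≤ e₁ := by rw [he₀]; exact min_le_left _ _
  have he₀d : e₀ ≤ d := by rw [he₀]; exact min_le_right _ _
  obtain ⟨τ₁, hτ₁, J₁, b₁⟩ := haff
  obtain ⟨τ₃, hτ₃, J₃, b₃⟩ := hnes e₀ he₀0 he₀d
  obtain ⟨τ, hτ⟩ : ∃ τ, τ = min τ₁ (τ₃ / 2) := ⟨_, rfl⟩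
  have hτ0 : 0 < τ := by rw [hτ]; exact lt_min hτ₁ (by linarith)
  have t1 : τ ≤ τ₁ := by rw [hτ]; exact min_le_left _ _
  have t3 : τ ≤ τ₃ / 2 := by rw [hτ]; exact min_le_right _ _
  obtain ⟨J₄, hJ₄⟩ := exists_nat_ge (max ((100 : ℝ) / o) (Real.log 2560 / τ))
  refine ⟨e₀, he₀0, τ, hτ0, J₁ + J₃ + J₄, ?_⟩
  intro J hJ F A hA au cu av cv e M he hM hau hav ga' gb' hrel hP
  have hJ4 : (J₄ : ℝ) ≤ J := by exact_mod_cast (by omega : J₄ ≤ J)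
  have hJ0 : (0 : ℝ) ≤ J := Nat.cast_nonneg J
  have q1 : (100 : ℝ) ≤ o * J := by
    have h1 := ((le_max_left _ _).trans hJ₄).trans hJ4
    rw [div_le_iff₀ ho0] at h1
    linarith
  have hlog : Real.log 2560 ≤ τ * J := by
    have h1 := ((le_max_right _ _).trans hJ₄).trans hJ4
    rw [div_le_iff₀ hτ0] at h1
    linarith
  have hA0 := (htm τ J F A hτ0 hA).1
  have hres : ∀ (B' : F.Ω → Prop), Sub B' A → Pe F.p A ≤ 2560 * Pe F.p B' →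
      S.St (2 * τ) J F B' := fun B' h1 h2 => res_of hτ0.le hA h1 (by norm_num) hlog h2
  have hMge : ∀ z : ℝ, z ≤ q + v.p * (1 - v.b) + x → ⌊z * (J : ℝ)⌋₊ ≤ M := fun z hz =>
    (Nat.floor_le_floor (mul_le_mul_of_nonneg_right hz hJ0)).trans hM
  obtain ⟨B₁, a1, a2, V', zp, zs, cf, a3⟩ := b₁ J (by omega) F A (S.mono t1 hA) au cu av cv e M
    (he.trans (Nat.floor_le_floor (mul_le_mul_of_nonneg_right he₀1 hJ0))) hM hau hav hP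
  -- the windows
  obtain ⟨k1, -, -⟩ := v.floor_le J
  obtain ⟨r1, r2, r3, r4, r5⟩ := vz_real v J
  have hRJ : v.R J = J - v.B J - v.P J := rfl
  have fw : (⌊w * (v.R J : ℝ)⌋₊ : ℝ) ≤ w * v.R J := Nat.floor_le (by positivity)
  have hosx : o * (J : ℝ) ≤ x / 64 * J := by
    rw [← hs]
    exact mul_le_mul_of_nonneg_right ho1 hJ0
  have hwR : ⌊w * (v.R J : ℝ)⌋₊ + 2 ≤ J - v.B J - v.P J := by
    rw [← hRJ, ← Nat.cast_le (α := ℝ)]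
    push_cast
    have h2 : (1 - w) * ((1 - v.b) * (1 - v.p) * J - 1) ≤ (1 - w) * v.R J :=
      mul_le_mul_of_nonneg_left r4 (by linarith)
    have h3 : v.sc (L' {κ, ι} k w' r') ≤ v.b + v.p * (1 - v.b) + (1 - v.b) * (1 - v.p) := by
      have h4 : v.sc (L' {κ, ι} k w' r') = v.b + v.p * (1 - v.b) +
        (1 - v.b) * (1 - v.p) * L' {κ, ι} k w' r' := by unfold Vz.sc; ring
      rw [h4]
      have h5 : L' {κ, ι} k w' r' ≤ 1 := hL'.le1 _ _ _ _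
      have h6 : (1 - v.b) * (1 - v.p) * L' {κ, ι} k w' r' ≤ (1 - v.b) * (1 - v.p) * 1 :=
        mul_le_mul_of_nonneg_left h5 hcp.le
      linarith
    have h4 : x ≤ (1 - v.b) * (1 - v.p) * (1 - w) := by
      rw [htm0] at hLz
      linarith
    have h5 : x * J ≤ (1 - v.b) * (1 - v.p) * (1 - w) * J := mul_le_mul_of_nonneg_right h4 hJ0
    linarith only [fw, h2, h5, hosx, q1, hw0]
  have hWJ : ⌊W * (J : ℝ)⌋₊ ≤ J := by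
    refine Nat.floor_le_of_le ?_
    exact mul_le_of_le_one_left hJ0 hWW1
  have hW₁J : ⌊W₁ * (J : ℝ)⌋₊ + 2 ≤ ⌊W * (J : ℝ)⌋₊ := by
    rw [← Nat.cast_le (α := ℝ)]
    push_cast
    have h2 : W * (J : ℝ) - 1 < ⌊W * (J : ℝ)⌋₊ := Nat.sub_one_lt_floor _
    have h3 : (⌊W₁ * (J : ℝ)⌋₊ : ℝ) ≤ Wm * J := by
      have h4 : (⌊W₁ * (J : ℝ)⌋₊ : ℝ) ≤ ⌊Wm * (J : ℝ)⌋₊ := by
        exact_mod_cast Nat.floor_le_floor (mul_le_mul_of_nonneg_right hW₁ hJ0)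
      have h5 : (⌊Wm * (J : ℝ)⌋₊ : ℝ) ≤ Wm * J :=
        Nat.floor_le (mul_nonneg (by linarith) hJ0)
      linarith
    have h4 : W * (J : ℝ) = Wm * J + o * J := by rw [hW]; ring
    linarith only [h2, h3, h4, q1]
  have hwW : v.B J + (⌊w * (v.R J : ℝ)⌋₊ + 2) ≤ ⌊W * (J : ℝ)⌋₊ := by
    rw [← Nat.cast_le (α := ℝ)]
    push_cast
    have h1 : w * (v.R J : ℝ) ≤ w * ((1 - v.b) * (1 - v.p) * J + 2) :=
      mul_le_mul_of_nonneg_left r5 hw0.le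
    have h2 : W * (J : ℝ) - 1 < ⌊W * (J : ℝ)⌋₊ := Nat.sub_one_lt_floor _
    have h3 : v.b * J + (1 - v.b) * (1 - v.p) * w * J ≤ Wm * J := by
      have := mul_le_mul_of_nonneg_right hWm hJ0
      rw [htm0] at this
      linarith only [this]
    have h4 : W * (J : ℝ) = Wm * J + o * J := by rw [hW]; ring
    linarith only [fw, h1, h2, h3, h4, q1, r2, hw1]
  have hfac := zom_fac F hP (v.y J F) ε k1 (w := ⌊w * (v.R J : ℝ)⌋₊ + 2) (W := ⌊W * (J : ℝ)⌋₊)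
    hwR hwW hWJ (fun ω ω' h => Pool.GRW.zmV_of_slam F hP (v.y J F) ε k1 hwR (v.line J F) h)
  obtain ⟨ga, hga⟩ := hfac (fun y => cf (zs y) 2)
  obtain ⟨gb, hgb⟩ := hfac (fun y => cf (zs y) 3)
  obtain ⟨ga₁, hga₁⟩ := slam_fac' F hW₁J hWJ ga'
  obtain ⟨gb₁, hgb₁⟩ := slam_fac' F hW₁J hWJ gb'
  -- the exponents
  have hfl : ∀ z : ℝ, 0 ≤ z → (⌊z * (J : ℝ)⌋₊ : ℝ) ≤ z * J := fun z hz =>
    Nat.floor_le (mul_nonneg hz hJ0)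
  have hfl' : ∀ z : ℝ, z * (J : ℝ) - 1 < ⌊z * (J : ℝ)⌋₊ := fun z => Nat.sub_one_lt_floor _
  have htJ := hfl t ht
  have ht1J : (t + (U - Wm) + 2 * x) * J ≤ q * J := mul_le_mul_of_nonneg_right ht1 hJ0
  have ht2J : (t + (U - Wm) + x) * J ≤ q₂ * J := mul_le_mul_of_nonneg_right ht2 hJ0
  have hWe : W * (J : ℝ) = Wm * J + o * J := by rw [hW]; ring
  have hU₂J : U₂ * (J : ℝ) ≤ (U + s) * J := mul_le_mul_of_nonneg_right (by linarith) hJ0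
  have hsJ : s * (J : ℝ) = x / 64 * J := by rw [hs]
  have hxJ : 6400 ≤ x * (J : ℝ) := by linarith only [hosx, q1]
  have a2' := hfl (U₂ - W + s) (by rw [hW]; linarith)
  have n1 : ⌊t * (J : ℝ)⌋₊ + ⌊(U₂ - W + s) * (J : ℝ)⌋₊ + 1 ≤ ⌊(q - x) * (J : ℝ)⌋₊ := by
    rw [← Nat.cast_le (α := ℝ)]
    push_cast
    have a3 := hfl' (q - x)
    linarith only [htJ, a2', a3, hU₂J, ht1J, hWe, q1, hsJ, hxJ]
  have n2 : ⌊t * (J : ℝ)⌋₊ + ⌊(U₂ - W + s) * (J : ℝ)⌋₊ + 1 ≤ ⌊q₂ * (J : ℝ)⌋₊ := by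
    rw [← Nat.cast_le (α := ℝ)]
    push_cast
    have a3 := hfl' q₂
    linarith only [htJ, a2', a3, hU₂J, ht2J, hWe, q1, hsJ, hxJ]
  obtain ⟨B₃, d1, d2, d3⟩ := b₃ J (by omega) F B₁ (S.mono (by linarith) (hres B₁ a1 a2))
    au cu av M ((hau.sub a1).mono he le_rfl) (hMge _ (by rw [hW]; linarith))
    ga gb ga₁ gb₁ (1 / 2 ^ ⌊t * (J : ℝ)⌋₊) (1 / 2 ^ ⌊(q - x) * (J : ℝ)⌋₊)
    (1 / 2 ^ ⌊q₂ * (J : ℝ)⌋₊) (by positivity) (by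
      have e3 : (1 : ℝ) / 2 ^ ⌊(q - x) * (J : ℝ)⌋₊ ≤
          1 / 2 ^ (⌊t * (J : ℝ)⌋₊ + ⌊(U₂ - W + s) * (J : ℝ)⌋₊ + 1) := inv_mono n1
      have e4 : (1 : ℝ) / 2 ^ ⌊q₂ * (J : ℝ)⌋₊ ≤
          1 / 2 ^ (⌊t * (J : ℝ)⌋₊ + ⌊(U₂ - W + s) * (J : ℝ)⌋₊ + 1) := inv_mono n2
      have e5 : (1 : ℝ) / 2 ^ ⌊t * (J : ℝ)⌋₊ =
          (1 / 2 ^ (⌊t * (J : ℝ)⌋₊ + ⌊(U₂ - W + s) * (J : ℝ)⌋₊ + 1) +
          1 / 2 ^ (⌊t * (J : ℝ)⌋₊ + ⌊(U₂ - W + s) * (J : ℝ)⌋₊ + 1)) *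
          2 ^ ⌊(U₂ - W + s) * (J : ℝ)⌋₊ := by
        rw [pow_succ, pow_add]
        field_simp
        norm_num
      rw [e5]
      exact mul_le_mul_of_nonneg_right (add_le_add e3 e4) (by positivity)) (fun ω hω => by
      have h1 := (a3.2 ω hω).2.1
      rw [show cf (zs (slam (zmV F hP (v.y J F) ε) (⌊w * (v.R J : ℝ)⌋₊ + 2) ω)) 2 =
        ga (slam F ⌊W * (J : ℝ)⌋₊ ω) from hga ω,
        show cf (zs (slam (zmV F hP (v.y J F) ε) (⌊w * (v.R J : ℝ)⌋₊ + 2) ω)) 3 =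
        gb (slam F ⌊W * (J : ℝ)⌋₊ ω) from hgb ω] at h1
      exact h1) (fun ω hω => by
      have h1 := hrel ω (a1 ω hω)
      rw [hga₁ ω, hgb₁ ω] at h1
      exact h1)
  refine ⟨B₃, fun ω hω => a1 ω (d1 ω hω), by linarith, V', zp, zs, cf, a3.sub d1,
    fun ω hω => ?_⟩
  have h1 := d3 ω hω
  rw [← hgb ω, ← hgb₁ ω] at h1
  exact h1

end Pool.MIC6
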