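import Pool.Agent.H6.OWN.Glo
import Pool.Agent.H6.OWN.Afs
import Pool.Agent.H62.OWN.TrL

/-!
# Two samples with the same record of the exact point

`sep_cls`: the velocities of the active coordinate of two conditionally independent samples with
the same record are separated. `trn_cls`: so are the coefficients over `u` in the relation
`ga + gb au = av` of functions `ga`, `gb` of the line in a window. The record may be any function
of the exact point.
-/

set_option autoImplicit false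

namespace Pool.MIC6

open Finset MvPolynomial
open Pool.Agent.H49.Ent Pool.Agent.H32.Dense Pool.STK Pool.KA Pool.KSAT Pool.K2S Pool.PB Pool.GEN
open Pool.S6C
open Pool.FLF (Fam.sub)
open Pool.GRD (LbP)
open Pool.REX
open Pool.KM7 (P2 cond_isLaw)
open Pool.JVE (TrD tr_lev pair_sel pe_sum)

variable {m n J : ℕ}

/-- **Two samples with the same record are in a relation**: a part of the event on which the
relation holds with a function of the record. -/
theorem pair_evt {F : Fam m J} {A B : F.Ω → Prop} {c η : ℝ} (hA0 : 0 < Pe F.p A)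
    (hc : Pe F.p A ≤ c * Pe F.p B) {𝒦 : Type} (K : F.Ω → 𝒦) (R : F.Ω → F.Ω → Prop) (hη : 0 < η)
    (hlt : η < law (P2 (cond F.p B True) K) (fun v => R v.1 v.2) True) :
    ∃ (B' : F.Ω → Prop) (sel : 𝒦 → F.Ω), Sub B' B ∧ Pe F.p A ≤ c / η * Pe F.p B' ∧
      ∀ ω, B' ω → B (sel (K ω)) ∧ R ω (sel (K ω)) := by
  classical
  have hB0 : 0 < Pe F.p B := by
    have h1 := Pe_nonneg F.isLaw B
    rcases h1.eq_or_lt with h | h
    · rw [← h] at hc
      linarith
    · exact h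
  have hq : IsLaw (cond F.p B True) := isLaw_cond F.isLaw hB0
  have hne : Nonempty F.Ω := by
    by_contra hcon
    rw [not_nonempty_iff] at hcon
    have h2 := hq.sum_one
    rw [Finset.univ_eq_empty, Finset.sum_empty] at h2
    exact zero_ne_one h2
  have hqB : ∀ ω, ¬ B ω → Pool.Agent.H49.Ent.cond F.p B True ω = 0 := fun ω hω => by
    unfold Pool.Agent.H49.Ent.cond
    rw [if_neg (fun h : B ω = True => hω (of_eq_true h))]
  have hqv : ∀ ω, B ω → Pool.Agent.H49.Ent.cond F.p B True ω * Pe F.p B = F.p ω := fun ω hω => by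
    unfold Pool.Agent.H49.Ent.cond
    rw [if_pos (eq_true hω)]
    exact div_mul_cancel₀ _ hB0.ne'
  obtain ⟨sel, hsel⟩ := pair_sel hq.nonneg K (fun ω ω' => B ω' ∧ R ω ω')
  obtain ⟨B', hB'⟩ : ∃ B' : F.Ω → Prop, B' = fun ω => B ω ∧ B (sel (K ω)) ∧ R ω (sel (K ω)) :=
    ⟨_, rfl⟩
  refine ⟨B', sel, fun ω hω => by rw [hB'] at hω; exact hω.1, ?_,
    fun ω hω => by rw [hB'] at hω; exact hω.2⟩
  have h1 : law (P2 (cond F.p B True) K) (fun v => R v.1 v.2) True ≤
      Pe (P2 (cond F.p B True) K) (fun x => B x.2 ∧ R x.1 x.2) := by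
    rw [show law (P2 (cond F.p B True) K) (fun v => R v.1 v.2) True =
      Pe (P2 (cond F.p B True) K) (fun v => R v.1 v.2) from rfl, pe_sum, pe_sum]
    refine Finset.sum_le_sum fun x _ => ?_
    by_cases hx : R x.1 x.2
    · rw [if_pos hx]
      by_cases h2 : B x.2
      · rw [if_pos ⟨h2, hx⟩]
      · rw [if_neg (fun h => h2 h.1)]
        unfold P2 glue
        rw [hqB _ h2]
        simp
    · rw [if_neg hx, if_neg (fun h => hx h.2)]
  have h2 : Pe (cond F.p B True) (fun ω => B (sel (K ω)) ∧ R ω (sel (K ω))) * Pe F.p B =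
      Pe F.p B' := by
    rw [pe_sum (Pool.Agent.H49.Ent.cond F.p B True), pe_sum F.p B', Finset.sum_mul, hB']
    refine Finset.sum_congr rfl fun ω _ => ?_
    by_cases hω : B ω
    · by_cases h3 : B (sel (K ω)) ∧ R ω (sel (K ω))
      · rw [if_pos h3, if_pos ⟨hω, h3⟩, hqv ω hω]
      · rw [if_neg h3, if_neg (fun h => h3 h.2), zero_mul]
    · rw [if_neg (fun h : B ω ∧ B (sel (K ω)) ∧ R ω (sel (K ω)) => hω h.1)]
      split_ifs
      · rw [hqB ω hω, zero_mul]
      · rw [zero_mul]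
  have h3 : η * Pe F.p B ≤ Pe F.p B' := by
    rw [← h2]
    exact mul_le_mul_of_nonneg_right ((hlt.le.trans h1).trans hsel) hB0.le
  have hc0 : 0 ≤ c := by
    by_contra hcon
    push Not at hcon
    have : c * Pe F.p B < 0 := mul_neg_of_neg_of_pos hcon hB0
    linarith
  calc Pe F.p A ≤ c * Pe F.p B := hc
    _ = c / η * (η * Pe F.p B) := by field_simp
    _ ≤ c / η * Pe F.p B' := mul_le_mul_of_nonneg_left h3 (by positivity)

/-- **The velocities of the active coordinate are separated.** -/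
theorem sep_cls {S : PCl m} {C₀ : ℝ} (htm : TmC S C₀) {y : Fin m} (hact : ActF S y) {x : ℝ}
    (hx : 0 < x) (c : ℝ) {η : ℝ} (hη : 0 < η) :
    Bas S (fun J F A => ∀ (𝒦 : Type) (K : F.Ω → 𝒦) (B : F.Ω → Prop), Sub B A →
      Pe F.p A ≤ c * Pe F.p B →
      (∀ ω ω', B ω → B ω' → ptr F J ω = ptr F J ω' → K ω = K ω') →
      law (P2 (cond F.p B True) K)
        (fun v => |F.d v.1 y - F.d v.2 y| * 2 ^ ⌊x * J⌋₊ < 2) True ≤ η) := by
  classical
  obtain ⟨c₁, hc₁, τ₁, hτ₁, J₁, b₁⟩ := hact x hx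
  obtain ⟨J₂, hJ₂⟩ := exists_nat_ge (max (Real.log (max c 1 / η) / (τ₁ / 2))
    ((Real.log 9 + 1) / c₁))
  refine ⟨τ₁ / 2, by linarith, J₁ + J₂, ?_⟩
  intro J hJ F A hA 𝒦 K B hBA hPB hK
  by_contra hcon
  push Not at hcon
  have hJ2 : (J₂ : ℝ) ≤ J := by exact_mod_cast (by omega : J₂ ≤ J)
  have hA0 := (htm (τ₁ / 2) J F A (by linarith) hA).1
  obtain ⟨B', sel, e1, e2, e3⟩ := pair_evt hA0 hPB K (fun ω ω' =>
    |F.d ω y - F.d ω' y| * 2 ^ ⌊x * J⌋₊ < 2) hη hcon
  have e1' : Sub B' A := fun ω hω => hBA ω (e1 ω hω)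
  have hB'0 := Pe_nonneg F.isLaw B'
  have e4 : Pe F.p A ≤ max c 1 / η * Pe F.p B' :=
    e2.trans (mul_le_mul_of_nonneg_right (div_le_div_of_nonneg_right (le_max_left _ _) hη.le)
      hB'0)
  have hlog : Real.log (max c 1 / η) ≤ τ₁ / 2 * J := by
    have h1 := ((le_max_left _ _).trans hJ₂).trans hJ2
    rw [div_le_iff₀ (by linarith)] at h1
    linarith
  have hlog9 : Real.log 9 + 1 ≤ c₁ * J := by
    have h1 := ((le_max_right _ _).trans hJ₂).trans hJ2
    rw [div_le_iff₀ hc₁] at h1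
    linarith
  have hS : S.St (2 * (τ₁ / 2)) J F B' := res_of (by linarith) hA e1'
    (div_pos (lt_of_lt_of_le one_pos (le_max_right _ _)) hη) hlog e4
  have k1 := b₁ J (by omega) F B' (S.mono (by linarith) hS)
  have hB'p : 0 < Pe F.p B' := by
    rcases hB'0.eq_or_lt with h | h
    · rw [← h, mul_zero] at e4
      linarith
    · exact h
  have hq : IsLaw (cond F.p B' True) := isLaw_cond F.isLaw hB'p
  have hon : ∀ ω, 0 < cond F.p B' True ω → B' ω := fun ω hω => by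
    by_contra h
    have : Pool.Agent.H49.Ent.cond F.p B' True ω = 0 := by
      unfold Pool.Agent.H49.Ent.cond
      rw [if_neg (fun h' : B' ω = True => h (of_eq_true h'))]
    rw [this] at hω
    exact lt_irrefl _ hω
  have k2 : CH (cond F.p B' True) (fun ω (_ : Fin 1) => F.D ⌊x * J⌋₊ ω y) (ptr F J) ≤
      (1 : ℕ) * Real.log (2 * 4 + 1) := by
    refine Plk.CH_vec_const hq _ _ fun ω ω' h1 h2 h3 _ => ?_
    have a1 := (e3 ω (hon ω h1)).2
    have a2 := (e3 ω' (hon ω' h2)).2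
    have a3 : K ω = K ω' := hK ω ω' (e1 ω (hon ω h1)) (e1 ω' (hon ω' h2)) h3
    rw [← a3] at a2
    obtain ⟨z, hz⟩ : ∃ z, z = F.d (sel (K ω)) y := ⟨_, rfl⟩
    obtain ⟨T, hT⟩ : ∃ T : ℝ, T = 2 ^ ⌊x * (J : ℝ)⌋₊ := ⟨_, rfl⟩
    have hT0 : 0 < T := by rw [hT]; positivity
    rw [← hz, ← hT] at a1 a2
    have d1 : F.D ⌊x * (J : ℝ)⌋₊ ω y = ⌊T * F.d ω y⌋ := by rw [hT]; rfl
    have d2 : F.D ⌊x * (J : ℝ)⌋₊ ω' y = ⌊T * F.d ω' y⌋ := by rw [hT]; rfl
    rw [d1, d2]
    have f1 := Int.floor_le (T * F.d ω y)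
    have f2 := Int.lt_floor_add_one (T * F.d ω y)
    have f3 := Int.floor_le (T * F.d ω' y)
    have f4 := Int.lt_floor_add_one (T * F.d ω' y)
    have g1 : |F.d ω y - F.d ω' y| * T < 4 := by
      have h4 := abs_sub_le (F.d ω y) z (F.d ω' y)
      rw [abs_sub_comm z] at h4
      have h5 := mul_le_mul_of_nonneg_right h4 hT0.le
      rw [add_mul] at h5
      linarith only [a1, a2, h5]
    have g2 : |T * F.d ω y - T * F.d ω' y| < 4 := by
      rw [← mul_sub, abs_mul, abs_of_pos hT0]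
      linarith only [g1]
    rw [abs_lt] at g2
    have g3 : ((⌊T * F.d ω y⌋ - ⌊T * F.d ω' y⌋ : ℤ) : ℝ) < 5 := by
      push_cast
      linarith only [f1, f4, g2.2]
    have g4 : (-5 : ℝ) < ((⌊T * F.d ω y⌋ - ⌊T * F.d ω' y⌋ : ℤ) : ℝ) := by
      push_cast
      linarith only [f2, f3, g2.1]
    have g5 : ⌊T * F.d ω y⌋ - ⌊T * F.d ω' y⌋ < 5 := by exact_mod_cast g3
    have g6 : -5 < ⌊T * F.d ω y⌋ - ⌊T * F.d ω' y⌋ := by exact_mod_cast g4
    rw [abs_le]
    constructor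
    · exact_mod_cast (by omega : -4 ≤ ⌊T * F.d ω y⌋ - ⌊T * F.d ω' y⌋)
    · exact_mod_cast (by omega : ⌊T * F.d ω y⌋ - ⌊T * F.d ω' y⌋ ≤ 4)
  have k3 : CH (cond F.p B' True) (fun ω => F.D ⌊x * J⌋₊ ω y) (ptr F J) ≤
      CH (cond F.p B' True) (fun ω (_ : Fin 1) => F.D ⌊x * J⌋₊ ω y) (ptr F J) :=
    CH_mono_left hq.nonneg fun ω ω' _ _ h => congrFun (Prod.ext_iff.mp h).1 0
  have k4 : ((1 : ℕ) : ℝ) * Real.log (2 * 4 + 1) = Real.log 9 := by norm_num
  rw [k4] at k2
  linarith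

end Pool.MIC6
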