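import Pool.Agent.H6.OWN.Trn
import Pool.Agent.H72.OWN.Lvl

/-!
# The coefficients of the line relation are separated at the same record, with natural errors

`trn_nat`: `trn_cls` with the slope of `u` at the exact points known up to its natural precision
only. The velocity of `v` at the exact points is `th d_u + c1 + c2 d_y`, and `ga + (gb - th) a2 = c2`
with functions `ga`, `gb` of the line in the window, where `a2` is the slope of `u` over `y` at the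
exact points and `gb - th` is small: then the coefficients `gb` of two conditionally independent
samples with the same record (any function of the exact point) are different.
-/

set_option autoImplicit false

namespace Pool.MIC6

open Finset MvPolynomial
open Pool.Agent.H49.Ent Pool.Agent.H32.Dense Pool.STK Pool.KA Pool.KSAT Pool.K2S Pool.PB Pool.GEN
open Pool.S6C
open Pool.FLF (Fam.sub)
open Pool.GRD (LbP)
open Pool.REX
open Pool.KM7 (P2)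
open Pool.JVE (DpI)

variable {m n J : ℕ}

/-- The velocity and the closed slopes after the rounding of the selected coefficient, in a family.
-/
theorem tnt_fam {F : Fam m J} {B : F.Ω → Prop} {y u v : Fin m} (hyu : y ≠ u)
    {W e e' M N N₁ Q NU NV M₂ : ℕ} {a1 a2 th c1 c2 β : PtT F → ℝ} {ga gb j : LnT F → ℝ}
    (hau : Dp F B y u e M a2 a1)
    (hv : ∀ ω, B ω → |th (ptr F J ω)| ≤ 2 ^ e ∧ |c2 (ptr F J ω)| ≤ 2 ^ e ∧
      |F.d ω v - th (ptr F J ω) * F.d ω u - c1 (ptr F J ω) - c2 (ptr F J ω) * F.d ω y| ≤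
        1 / 2 ^ N)
    (hg : ∀ ω, B ω → |gb (slam F W ω)| ≤ 2 ^ e ∧
      |gb (slam F W ω) - th (ptr F J ω)| ≤ 2 ^ e * (2 ^ NU / 2 ^ NV) ∧
      |ga (slam F W ω) + (gb (slam F W ω) - th (ptr F J ω)) * a2 (ptr F J ω) -
        c2 (ptr F J ω)| ≤ 1 / 2 ^ N)
    (hj : ∀ ω, B ω → |j (slam F W ω) - a2 (ptr F J ω)| ≤ 1 / 2 ^ N₁)
    (hβ : ∀ ω, B ω → |gb (slam F W ω) - β (ptr F J ω)| ≤ 1 / 2 ^ Q)
    (hQ : NV ≤ Q + NU) (hN : M₂ + 2 ≤ N) (hM : e + 2 + NU + (M₂ + 1) ≤ NV + M)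
    (hQN : M₂ + 2 ≤ Q + N₁) (he' : 2 * e + 4 ≤ e') :
    ∃ (B' : F.Ω → Prop) (a : PtT F → Fin m → ℝ) (c : PtT F → ℝ) (t : LnT F → Fin m → ℝ),
      Sub B' B ∧ Pe F.p B ≤ 5 * Pe F.p B' ∧ DpI F B' {y, u} v e' M₂ a c ∧
      ∀ ω, B' ω → ∀ k ∈ ({y, u} : Finset (Fin m)),
        |t (slam F W ω) k - a (ptr F J ω) k| ≤ 1 / 2 ^ M₂ := by
  classical
  have pQ : (0 : ℝ) < 2 ^ Q := by positivity
  have pe : (1 : ℝ) ≤ 2 ^ e := one_le_pow₀ (by norm_num)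
  have pNU : (0 : ℝ) < 2 ^ NU := by positivity
  have pNV : (0 : ℝ) < 2 ^ NV := by positivity
  have hQ1 : (1 : ℝ) ≤ 2 ^ Q := one_le_pow₀ (by norm_num)
  obtain ⟨f, hf⟩ : ∃ f : PtT F → ℤ, f = fun p => ⌊(2 : ℝ) ^ Q * β p⌋ := ⟨_, rfl⟩
  obtain ⟨B₁, b1, b2, φ, b3⟩ := Pool.S6K.exact_label F.isLaw 2 (slam F W)
    (fun ω (_ : Fin 1) => f (ptr F J ω)) B (fun ω ω' hω hω' hh i => by
      have k3 := hβ ω hω
      have k4 := hβ ω' hω'
      rw [hh] at k3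
      rw [hf]
      refine floor_diff ?_
      rw [← mul_sub, abs_mul, abs_of_pos pQ]
      have k5 : |β (ptr F J ω) - β (ptr F J ω')| ≤ 2 / 2 ^ Q := by
        have e1 : (2 : ℝ) / 2 ^ Q = 1 / 2 ^ Q + 1 / 2 ^ Q := by ring
        rw [e1]
        rw [abs_le] at k3 k4 ⊢
        constructor <;> linarith only [k3.1, k3.2, k4.1, k4.2]
      rw [le_div_iff₀ pQ] at k5
      push_cast
      linarith only [k5])
  obtain ⟨β₁, hβ₁⟩ : ∃ β₁ : PtT F → ℝ, β₁ = fun p => (f p : ℝ) / 2 ^ Q := ⟨_, rfl⟩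
  obtain ⟨β₂, hβ₂⟩ : ∃ β₂ : LnT F → ℝ, β₂ = fun s => (φ s 0 : ℝ) / 2 ^ Q := ⟨_, rfl⟩
  have hcl : ∀ ω, B₁ ω → β₁ (ptr F J ω) = β₂ (slam F W ω) := by
    intro ω hω
    have a1 : f (ptr F J ω) = φ (slam F W ω) 0 := congrFun (b3 ω hω) 0
    rw [hβ₁, hβ₂]
    show (f (ptr F J ω) : ℝ) / 2 ^ Q = (φ (slam F W ω) 0 : ℝ) / 2 ^ Q
    rw [a1]
  have hn1 : ∀ ω, B ω → |gb (slam F W ω) - β₁ (ptr F J ω)| ≤ 2 / 2 ^ Q := by
    intro ω hω
    have a1 := hβ ω hω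
    have a2 : |β (ptr F J ω) - β₁ (ptr F J ω)| ≤ 1 / 2 ^ Q := by
      rw [hβ₁, hf]
      exact floor_div_near pQ
    have e1 : (2 : ℝ) / 2 ^ Q = 1 / 2 ^ Q + 1 / 2 ^ Q := by ring
    rw [e1]
    rw [abs_le] at a1 a2 ⊢
    constructor <;> linarith only [a1.1, a1.2, a2.1, a2.2]
  -- sizes
  have h2Q : (2 : ℝ) / 2 ^ Q ≤ 2 * (2 ^ NU / 2 ^ NV) := by
    have k1 : (1 : ℝ) / 2 ^ Q ≤ 2 ^ NU / 2 ^ NV := by
      rw [div_le_div_iff₀ pQ pNV, one_mul, ← pow_add]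
      exact pow_le_pow_right₀ (by norm_num) (by omega)
    have k2 : (2 : ℝ) / 2 ^ Q = 2 * (1 / 2 ^ Q) := by ring
    rw [k2]
    exact mul_le_mul_of_nonneg_left k1 (by norm_num)
  have h2Q' : (2 : ℝ) / 2 ^ Q ≤ 2 := div_le_self (by norm_num) hQ1
  have hths : ∀ ω, B ω → |th (ptr F J ω) - β₁ (ptr F J ω)| ≤ 2 ^ (e + 2) * (2 ^ NU / 2 ^ NV) := by
    intro ω hω
    have k1 := (hg ω hω).2.1
    have k2 := hn1 ω hω
    have e1 : th (ptr F J ω) - β₁ (ptr F J ω) = (gb (slam F W ω) - β₁ (ptr F J ω)) -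
        (gb (slam F W ω) - th (ptr F J ω)) := by ring
    rw [e1]
    refine (abs_sub _ _).trans ?_
    have e2 : (2 : ℝ) ^ (e + 2) = 2 ^ e * 4 := by
      rw [pow_add]
      norm_num
    rw [e2]
    have k3 : (2 : ℝ) * (2 ^ NU / 2 ^ NV) ≤ 2 * 2 ^ e * (2 ^ NU / 2 ^ NV) :=
      mul_le_mul_of_nonneg_right (by linarith only [pe]) (by positivity)
    have k4 : 0 ≤ 2 ^ e * (2 ^ NU / (2 : ℝ) ^ NV) := by positivity
    linarith only [k1, k2, h2Q, k3, k4]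
  have hβb : ∀ ω, B ω → |β₁ (ptr F J ω)| ≤ 3 * 2 ^ e := by
    intro ω hω
    have k1 := (hg ω hω).1
    have k2 := hn1 ω hω
    have e1 : β₁ (ptr F J ω) = gb (slam F W ω) - (gb (slam F W ω) - β₁ (ptr F J ω)) := by ring
    rw [e1]
    refine (abs_sub _ _).trans ?_
    linarith only [k1, k2, h2Q', pe]
  -- the slopes
  obtain ⟨a, ha⟩ : ∃ a : PtT F → Fin m → ℝ, a = fun p k => if k = u then β₁ p else
    c2 p + (th p - β₁ p) * a2 p := ⟨_, rfl⟩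
  obtain ⟨c, hc⟩ : ∃ c : PtT F → ℝ, c = fun p => c1 p + (th p - β₁ p) * a1 p := ⟨_, rfl⟩
  obtain ⟨t, ht⟩ : ∃ t : LnT F → Fin m → ℝ, t = fun s k => if k = u then β₂ s else
    ga s + (gb s - β₂ s) * j s := ⟨_, rfl⟩
  have hau' : ∀ p, a p u = β₁ p := fun p => by rw [ha]; exact if_pos rfl
  have hay : ∀ p, a p y = c2 p + (th p - β₁ p) * a2 p := fun p => by
    rw [ha]
    exact if_neg hyu
  have hvel : ∀ ω, B ω → |F.d ω v - c (ptr F J ω) -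
      (a (ptr F J ω) y * F.d ω y + a (ptr F J ω) u * F.d ω u)| ≤ 1 / 2 ^ M₂ := by
    intro ω hω
    rw [hau', hay, hc]
    obtain ⟨p, hp⟩ : ∃ p, p = ptr F J ω := ⟨_, rfl⟩
    have k1 := (hv ω hω).2.2
    have k2 := (hau ω hω).2.2
    have k3 := hths ω hω
    rw [← hp] at k1 k2 k3 ⊢
    have e1 : F.d ω v - (c1 p + (th p - β₁ p) * a1 p) - ((c2 p + (th p - β₁ p) * a2 p) * F.d ω y +
        β₁ p * F.d ω u) = (F.d ω v - th p * F.d ω u - c1 p - c2 p * F.d ω y) +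
        (th p - β₁ p) * (F.d ω u - a1 p - a2 p * F.d ω y) := by ring
    show |F.d ω v - (c1 p + (th p - β₁ p) * a1 p) - ((c2 p + (th p - β₁ p) * a2 p) * F.d ω y +
        β₁ p * F.d ω u)| ≤ _
    rw [e1]
    refine (abs_add_le _ _).trans ?_
    have k4 : |(th p - β₁ p) * (F.d ω u - a1 p - a2 p * F.d ω y)| ≤ 1 / 2 ^ (M₂ + 1) := by
      rw [abs_mul]
      have k5 : |th p - β₁ p| * |F.d ω u - a1 p - a2 p * F.d ω y| ≤
          2 ^ (e + 2) * (2 ^ NU / 2 ^ NV) * (1 / 2 ^ M) :=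
        mul_le_mul k3 k2 (abs_nonneg _) (by positivity)
      refine k5.trans ?_
      have e2 : (2 : ℝ) ^ (e + 2) * (2 ^ NU / 2 ^ NV) * (1 / 2 ^ M) =
          2 ^ (e + 2 + NU) / 2 ^ (NV + M) := by
        rw [pow_add 2 (e + 2) NU, pow_add 2 NV M]
        field_simp
      rw [e2]
      exact two_frac (by omega)
    have k6 : (1 : ℝ) / 2 ^ N ≤ 1 / 2 ^ (M₂ + 1) := inv_mono (by omega)
    have e3 : (1 : ℝ) / 2 ^ M₂ = 2 * (1 / 2 ^ (M₂ + 1)) := by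
      rw [pow_succ]
      field_simp
    rw [e3]
    linarith only [k1, k4, k6]
  have hb1 : ∀ ω, B ω → |a (ptr F J ω) u| ≤ 2 ^ (2 * e + 3) := by
    intro ω hω
    rw [hau']
    refine (hβb ω hω).trans ?_
    have e1 : (2 : ℝ) ^ (2 * e + 3) = 2 ^ e * 2 ^ e * 8 := by
      rw [pow_add, two_mul, pow_add]
      norm_num
    rw [e1]
    have k1 : (2 : ℝ) ^ e * 1 ≤ 2 ^ e * 2 ^ e := mul_le_mul_of_nonneg_left pe (by positivity)
    linarith only [k1, pe]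
  have hb2 : ∀ ω, B ω → |a (ptr F J ω) y| ≤ 2 ^ (2 * e + 3) := by
    intro ω hω
    rw [hay]
    have k1 := (hv ω hω).1
    have k2 := (hv ω hω).2.1
    have k3 := hβb ω hω
    have k4 := (hau ω hω).1
    have e1 : (2 : ℝ) ^ (2 * e + 3) = 2 ^ e * 2 ^ e * 8 := by
      rw [pow_add, two_mul, pow_add]
      norm_num
    rw [e1]
    refine (abs_add_le _ _).trans ?_
    rw [abs_mul]
    have k5 : |th (ptr F J ω) - β₁ (ptr F J ω)| ≤ 4 * 2 ^ e := by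
      refine (abs_sub _ _).trans ?_
      linarith only [k1, k3]
    have k6 : |th (ptr F J ω) - β₁ (ptr F J ω)| * |a2 (ptr F J ω)| ≤ 4 * 2 ^ e * 2 ^ e :=
      mul_le_mul k5 k4 (abs_nonneg _) (by positivity)
    have k7 : (2 : ℝ) ^ e * 1 ≤ 2 ^ e * 2 ^ e := mul_le_mul_of_nonneg_left pe (by positivity)
    linarith only [k2, k6, k7, pe]
  have hb3 : ∀ ω, B ω → |c (ptr F J ω)| ≤ 2 ^ (2 * e + 4) := by
    intro ω hω
    have k1 := hvel ω hω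
    have k2 := hb1 ω hω
    have k3 := hb2 ω hω
    have k4 := F.dir ω v
    have k5 : |a (ptr F J ω) y * F.d ω y| ≤ 2 ^ (2 * e + 3) := by
      rw [abs_mul]
      calc |a (ptr F J ω) y| * |F.d ω y| ≤ 2 ^ (2 * e + 3) * 1 :=
            mul_le_mul k3 (F.dir ω y) (abs_nonneg _) (by positivity)
        _ = 2 ^ (2 * e + 3) := mul_one _
    have k6 : |a (ptr F J ω) u * F.d ω u| ≤ 2 ^ (2 * e + 3) := by
      rw [abs_mul]
      calc |a (ptr F J ω) u| * |F.d ω u| ≤ 2 ^ (2 * e + 3) * 1 :=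
            mul_le_mul k2 (F.dir ω u) (abs_nonneg _) (by positivity)
        _ = 2 ^ (2 * e + 3) := mul_one _
    have k7 : (1 : ℝ) / 2 ^ M₂ ≤ 1 := by
      rw [div_le_one (by positivity)]
      exact one_le_pow₀ (by norm_num)
    -- the size of `c` is at most `2 + 5 * 2 ^ (2 e) `
    have k8 : |a (ptr F J ω) y * F.d ω y| ≤ 5 * (2 ^ e * 2 ^ e) := by
      have q1 := (hv ω hω).1
      have q2 := (hv ω hω).2.1
      have q3 := hβb ω hω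
      have q4 := (hau ω hω).1
      have q5 : |th (ptr F J ω) - β₁ (ptr F J ω)| ≤ 4 * 2 ^ e := by
        refine (abs_sub _ _).trans ?_
        linarith only [q1, q3]
      have q6 : |th (ptr F J ω) - β₁ (ptr F J ω)| * |a2 (ptr F J ω)| ≤ 4 * 2 ^ e * 2 ^ e :=
        mul_le_mul q5 q4 (abs_nonneg _) (by positivity)
      have q7 : (2 : ℝ) ^ e * 1 ≤ 2 ^ e * 2 ^ e := mul_le_mul_of_nonneg_left pe (by positivity)
      have q8 : |a (ptr F J ω) y| ≤ 5 * (2 ^ e * 2 ^ e) := by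
        rw [hay]
        refine (abs_add_le _ _).trans ?_
        rw [abs_mul]
        linarith only [q2, q6, q7]
      rw [abs_mul]
      calc |a (ptr F J ω) y| * |F.d ω y| ≤ 5 * (2 ^ e * 2 ^ e) * 1 :=
            mul_le_mul q8 (F.dir ω y) (abs_nonneg _) (by positivity)
        _ = 5 * (2 ^ e * 2 ^ e) := mul_one _
    have k9 : |a (ptr F J ω) u * F.d ω u| ≤ 3 * 2 ^ e := by
      rw [abs_mul, hau']
      calc |β₁ (ptr F J ω)| * |F.d ω u| ≤ 3 * 2 ^ e * 1 :=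
            mul_le_mul (hβb ω hω) (F.dir ω u) (abs_nonneg _) (by positivity)
        _ = 3 * 2 ^ e := mul_one _
    have e1 : (2 : ℝ) ^ (2 * e + 4) = 2 ^ e * 2 ^ e * 16 := by
      rw [pow_add, two_mul, pow_add]
      norm_num
    have e2 : c (ptr F J ω) = F.d ω v - (a (ptr F J ω) y * F.d ω y + a (ptr F J ω) u * F.d ω u) -
        (F.d ω v - c (ptr F J ω) -
          (a (ptr F J ω) y * F.d ω y + a (ptr F J ω) u * F.d ω u)) := by ring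
    have q7 : (2 : ℝ) ^ e * 1 ≤ 2 ^ e * 2 ^ e := mul_le_mul_of_nonneg_left pe (by positivity)
    have k10 := abs_add_le (a (ptr F J ω) y * F.d ω y) (a (ptr F J ω) u * F.d ω u)
    have k11 := abs_sub (F.d ω v) (a (ptr F J ω) y * F.d ω y + a (ptr F J ω) u * F.d ω u)
    rw [e1]
    rw [e2]
    refine (abs_sub _ _).trans ?_
    linarith only [k1, k4, k7, k8, k9, k10, k11, q7, pe]
  have hcls : ∀ ω, B₁ ω → ∀ k ∈ ({y, u} : Finset (Fin m)),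
      |t (slam F W ω) k - a (ptr F J ω) k| ≤ 1 / 2 ^ M₂ := by
    intro ω hω k hk
    have hωB := b1 ω hω
    rcases Finset.mem_insert.1 hk with h | h
    · rw [h, hay, ht]
      show |(if y = u then β₂ (slam F W ω) else ga (slam F W ω) + (gb (slam F W ω) -
        β₂ (slam F W ω)) * j (slam F W ω)) - _| ≤ _
      rw [if_neg hyu, ← hcl ω hω]
      have k1 := (hg ω hωB).2.2
      have k2 := hj ω hωB
      have k3 := hn1 ω hωB
      have e1 : ga (slam F W ω) + (gb (slam F W ω) - β₁ (ptr F J ω)) * j (slam F W ω) -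
          (c2 (ptr F J ω) + (th (ptr F J ω) - β₁ (ptr F J ω)) * a2 (ptr F J ω)) =
          (ga (slam F W ω) + (gb (slam F W ω) - th (ptr F J ω)) * a2 (ptr F J ω) -
            c2 (ptr F J ω)) + (gb (slam F W ω) - β₁ (ptr F J ω)) *
            (j (slam F W ω) - a2 (ptr F J ω)) := by ring
      rw [e1]
      have k4 : |(gb (slam F W ω) - β₁ (ptr F J ω)) * (j (slam F W ω) - a2 (ptr F J ω))| ≤
          1 / 2 ^ (M₂ + 1) := by
        rw [abs_mul]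
        refine (mul_le_mul k3 k2 (abs_nonneg _) (by positivity)).trans ?_
        have e2 : (2 : ℝ) / 2 ^ Q * (1 / 2 ^ N₁) = 2 ^ 1 / 2 ^ (Q + N₁) := by
          rw [pow_add, pow_one]
          field_simp
        rw [e2]
        exact two_frac (by omega)
      have k6 : (1 : ℝ) / 2 ^ N ≤ 1 / 2 ^ (M₂ + 1) := inv_mono (by omega)
      have e3 : (1 : ℝ) / 2 ^ M₂ = 2 * (1 / 2 ^ (M₂ + 1)) := by
        rw [pow_succ]
        field_simp
      rw [e3]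
      have k5 := abs_add_le (ga (slam F W ω) + (gb (slam F W ω) - th (ptr F J ω)) *
        a2 (ptr F J ω) - c2 (ptr F J ω)) ((gb (slam F W ω) - β₁ (ptr F J ω)) *
        (j (slam F W ω) - a2 (ptr F J ω)))
      linarith only [k1, k4, k5, k6]
    · rw [Finset.mem_singleton] at h
      rw [h, hau', ht]
      show |(if u = u then β₂ (slam F W ω) else _) - _| ≤ _
      rw [if_pos rfl, hcl ω hω, sub_self, abs_zero]
      positivity
  have hpe' : (2 : ℝ) ^ (2 * e + 3) ≤ 2 ^ e' := pow_le_pow_right₀ (by norm_num) (by omega)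
  have hpe'' : (2 : ℝ) ^ (2 * e + 4) ≤ 2 ^ e' := pow_le_pow_right₀ (by norm_num) (by omega)
  refine ⟨B₁, a, c, t, b1, ?_, fun ω hω => ⟨fun k hk => ?_, (hb3 ω (b1 ω hω)).trans hpe'', ?_⟩,
    hcls⟩
  · rw [pow_one] at b2
    refine b2.trans (le_of_eq ?_)
    push_cast
    norm_num
  · rcases Finset.mem_insert.1 hk with h | h
    · rw [h]
      exact (hb2 ω (b1 ω hω)).trans hpe'
    · rw [Finset.mem_singleton.1 h]
      exact (hb1 ω (b1 ω hω)).trans hpe'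
  · rw [Finset.sum_pair hyu]
    exact hvel ω (b1 ω hω)

/-- **The coefficients are separated, with natural errors.** -/
theorem trn_nat {S : PCl m} {C₀ : ℝ} (hC₀ : 0 ≤ C₀) (htm : TmC S C₀)
    {L : Finset (Fin m) → Fin m → ℝ → ℝ → ℝ} (hL : LamW S L) {y u v : Fin m} (hyu : y ≠ u)
    (hact : ActF S y) {W' W r U D x s₁ : ℝ} (hW' : W' < W) (hW0 : 0 < W)
    (hUW : W < L {y} u W' 0) (hU : U ≤ L {y} u W' 0) (hU0 : 0 ≤ U) (hD0 : 0 ≤ D) (hx : 0 < x)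
    (hDW : W ≤ L {y, u} v W r) (hD1 : L {y, u} v W r < 1) (hDx : L {y, u} v W r < D + x)
    (hUD : U < D + x) (hs₁ : 0 < s₁) :
    ∃ e₀ : ℝ, 0 < e₀ ∧ ∀ c η : ℝ, 0 < η → Bas S (fun J F A =>
      ∀ (a1 a2 th c1 c2 : PtT F → ℝ) (e M N : ℕ), e ≤ ⌊e₀ * J⌋₊ →
      ⌊(L {y} u W' 0 - W) * J⌋₊ ≤ M → ⌊(L {y, u} v W r - D + U - W + s₁) * J⌋₊ ≤ M →
      ⌊(L {y, u} v W r - W + s₁) * J⌋₊ ≤ N → Dp F A y u e M a2 a1 →
      ∀ (𝒦 : Type) (K : F.Ω → 𝒦) (B : F.Ω → Prop) (ga gb : LnT F → ℝ), Sub B A →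
      Pe F.p A ≤ c * Pe F.p B →
      (∀ ω ω', B ω → B ω' → ptr F J ω = ptr F J ω' → K ω = K ω') →
      (∀ ω, B ω → |th (ptr F J ω)| ≤ 2 ^ ⌊e₀ * J⌋₊ ∧ |c2 (ptr F J ω)| ≤ 2 ^ ⌊e₀ * J⌋₊ ∧
        |F.d ω v - th (ptr F J ω) * F.d ω u - c1 (ptr F J ω) - c2 (ptr F J ω) * F.d ω y| ≤
          1 / 2 ^ N) →
      (∀ ω, B ω → |gb (slam F ⌊W * J⌋₊ ω)| ≤ 2 ^ ⌊e₀ * J⌋₊ ∧
        |gb (slam F ⌊W * J⌋₊ ω) - th (ptr F J ω)| ≤
          2 ^ ⌊e₀ * J⌋₊ * (2 ^ ⌊U * J⌋₊ / 2 ^ ⌊D * J⌋₊) ∧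
        |ga (slam F ⌊W * J⌋₊ ω) + (gb (slam F ⌊W * J⌋₊ ω) - th (ptr F J ω)) *
          a2 (ptr F J ω) - c2 (ptr F J ω)| ≤ 1 / 2 ^ N) →
      law (P2 (cond F.p B True) K)
        (fun v => |gb (slam F ⌊W * J⌋₊ v.1) - gb (slam F ⌊W * J⌋₊ v.2)| * 2 ^ ⌊x * J⌋₊ <
          3 * (2 ^ ⌊U * J⌋₊ / 2 ^ ⌊D * J⌋₊)) True ≤ η) := by
  classical
  obtain ⟨Un, hUn⟩ : ∃ Un, Un = L {y} u W' 0 := ⟨_, rfl⟩
  obtain ⟨Dn, hDn⟩ : ∃ Dn, Dn = L {y, u} v W r := ⟨_, rfl⟩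
  have hUn1 : Un ≤ 1 := by rw [hUn]; exact hL.le1 _ _ _ _
  rw [← hUn] at hUW hU
  rw [← hDn] at hDW hD1 hDx
  -- the small parameter
  obtain ⟨s, hs⟩ : ∃ s, s = min (min (min 1 ((Un - W) / 16)) (min ((1 - Dn) / 4) ((D + x - Dn) / 16)))
    (min (min ((D + x - U) / 4) (s₁ / 8)) (x / 4)) := ⟨_, rfl⟩
  have hs0 : 0 < s := by
    rw [hs]
    exact lt_min (lt_min (lt_min one_pos (by linarith)) (lt_min (by linarith) (by linarith)))
      (lt_min (lt_min (by linarith) (by linarith)) (by linarith))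
  have s0 : s ≤ 1 ∧ s ≤ (Un - W) / 16 ∧ s ≤ (1 - Dn) / 4 ∧ s ≤ (D + x - Dn) / 16 ∧
      s ≤ (D + x - U) / 4 ∧ s ≤ s₁ / 8 ∧ s ≤ x / 4 := by
    have := hs.le
    simp only [le_min_iff] at this
    tauto
  obtain ⟨s1, s2, s3, s4, s5, s6, s7⟩ := s0
  clear hs
  have hnu := nat_cls hC₀ htm hL (v := u) hact hW' hW0 hs0 (by rw [← hUn]; linarith)
  obtain ⟨d, hd0, htr⟩ := Pool.OWN72.lvl_cls hL (I := {y, u}) (v := v) (W := W) (r := r) (s := s)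
    hW0.le hs0 (by rw [← hDn]; exact hDW) (by rw [← hDn]; linarith)
  rw [← hDn] at htr
  rw [← hUn] at hnu ⊢
  rw [← hDn]
  obtain ⟨et, het⟩ : ∃ et, et = min d s := ⟨_, rfl⟩
  have het0 : 0 < et := by rw [het]; exact lt_min hd0 hs0
  have hetd : et ≤ d := by rw [het]; exact min_le_left _ _
  have hets : et ≤ s := by rw [het]; exact min_le_right _ _
  obtain ⟨δ, hδ, htr'⟩ := htr et het0 hetd
  obtain ⟨e₀, he₀⟩ : ∃ e₀, e₀ = et / 4 := ⟨_, rfl⟩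
  have he₀0 : 0 < e₀ := by rw [he₀]; linarith
  have he₀e : 4 * e₀ = et := by rw [he₀]; ring
  refine ⟨e₀, he₀0, fun c η hη => ?_⟩
  obtain ⟨τ₁, hτ₁, J₁, b₁⟩ := hnu
  obtain ⟨τ₂, hτ₂, J₂, b₂⟩ := htr'
  obtain ⟨C, hC⟩ : ∃ C, C = max c 1 / η := ⟨_, rfl⟩
  have hC0 : 0 < C := by
    rw [hC]
    exact div_pos (lt_of_lt_of_le one_pos (le_max_right _ _)) hη
  obtain ⟨τ, hτ⟩ : ∃ τ, τ = min (τ₁ / 2) τ₂ := ⟨_, rfl⟩
  have hτ0 : 0 < τ := by rw [hτ]; exact lt_min (by linarith) hτ₂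
  have t1 : τ ≤ τ₁ / 2 := by rw [hτ]; exact min_le_left _ _
  have t2 : τ ≤ τ₂ := by rw [hτ]; exact min_le_right _ _
  obtain ⟨J₃, hJ₃⟩ := exists_nat_ge (max ((20 : ℝ) / e₀) (max (Real.log C / τ)
    ((Real.log (20 * C) + 1) / δ)))
  refine ⟨τ, hτ0, J₁ + J₂ + J₃, ?_⟩
  intro J hJ F A hA a1 a2 th c1 c2 e M N he hM hMu hN hau 𝒦 K B ga gb hBA hPB hK hvel hrel
  by_contra hcon
  push Not at hcon
  have hJ3 : (J₃ : ℝ) ≤ J := by exact_mod_cast (by omega : J₃ ≤ J)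
  have hJ0 : (0 : ℝ) ≤ J := Nat.cast_nonneg J
  have q0 : (20 : ℝ) ≤ e₀ * J := by
    have h1 := ((le_max_left _ _).trans hJ₃).trans hJ3
    rw [div_le_iff₀ he₀0] at h1
    linarith only [h1]
  have hlog : Real.log C ≤ τ * J := by
    have h1 := (((le_max_left _ _).trans (le_max_right _ _)).trans hJ₃).trans hJ3
    rw [div_le_iff₀ hτ0] at h1
    linarith only [h1]
  have hlog2 : Real.log (20 * C) + 1 ≤ δ * J := by
    have h1 := (((le_max_right _ _).trans (le_max_right _ _)).trans hJ₃).trans hJ3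
    rw [div_le_iff₀ hδ] at h1
    linarith only [h1]
  have hA0 := (htm τ J F A hτ0 hA).1
  obtain ⟨w, hw⟩ : ∃ w, w = ⌊W * (J : ℝ)⌋₊ := ⟨_, rfl⟩
  obtain ⟨X, hX⟩ : ∃ X, X = ⌊x * (J : ℝ)⌋₊ := ⟨_, rfl⟩
  obtain ⟨NU, hNU⟩ : ∃ N, N = ⌊U * (J : ℝ)⌋₊ := ⟨_, rfl⟩
  obtain ⟨NV, hNV⟩ : ∃ N, N = ⌊D * (J : ℝ)⌋₊ := ⟨_, rfl⟩
  obtain ⟨E, hE⟩ : ∃ E, E = ⌊e₀ * (J : ℝ)⌋₊ := ⟨_, rfl⟩
  rw [← hw, ← hX, ← hNU, ← hNV] at hcon
  rw [← hw, ← hNU, ← hNV, ← hE] at hrel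
  rw [← hE] at hvel he
  obtain ⟨B', sel, e1, e2, e3⟩ := pair_evt hA0 hPB K (fun ω ω' =>
    |gb (slam F w ω) - gb (slam F w ω')| * 2 ^ X < 3 * (2 ^ NU / 2 ^ NV)) hη hcon
  have e1' : Sub B' A := fun ω hω => hBA ω (e1 ω hω)
  have hB'0 := Pe_nonneg F.isLaw B'
  have e4 : Pe F.p A ≤ C * Pe F.p B' := by
    rw [hC]
    exact e2.trans (mul_le_mul_of_nonneg_right (div_le_div_of_nonneg_right (le_max_left _ _)
      hη.le) hB'0)
  have hS : S.St (2 * τ) J F B' := res_of hτ0.le hA e1' hC0 hlog e4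
  have hfm : ∀ {x y : ℝ}, x ≤ y → ⌊x * (J : ℝ)⌋₊ ≤ ⌊y * (J : ℝ)⌋₊ := fun h =>
    Nat.floor_le_floor (mul_le_mul_of_nonneg_right h hJ0)
  obtain ⟨B₄, a4, p4, j, hB₄⟩ := b₁ J (by omega) F B' (S.mono (by linarith) hS) a2 a1 e M
    (hau.sub e1') (he.trans (by rw [hE]; exact hfm (by linarith))) hM
  rw [← hw] at hB₄
  have a4' : Sub B₄ A := fun ω hω => e1' ω (a4 ω hω)
  have hB₄0 : 0 ≤ Pe F.p B₄ := Pe_nonneg F.isLaw B₄
  -- the selected coefficient is a function of the exact point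
  obtain ⟨β, hβ⟩ : ∃ β : PtT F → ℝ, ∀ ω, B₄ ω → β (ptr F J ω) = gb (slam F w (sel (K ω))) := by
    refine ⟨fun p => if hx : ∃ ω, B₄ ω ∧ ptr F J ω = p then gb (slam F w (sel (K hx.choose)))
      else 0, fun ω hω => ?_⟩
    have hx : ∃ ω', B₄ ω' ∧ ptr F J ω' = ptr F J ω := ⟨ω, hω, rfl⟩
    show (if hx : ∃ ω', B₄ ω' ∧ ptr F J ω' = ptr F J ω then gb (slam F w (sel (K hx.choose)))
      else 0) = _
    rw [dif_pos hx, hK _ _ (e1 _ (a4 _ hx.choose_spec.1)) (e1 _ (a4 _ hω)) hx.choose_spec.2]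
  -- the exponents
  have hfl : ∀ x : ℝ, 0 ≤ x → (⌊x * (J : ℝ)⌋₊ : ℝ) ≤ x * J := fun x hx =>
    Nat.floor_le (mul_nonneg hx hJ0)
  have hfl' : ∀ x : ℝ, x * (J : ℝ) - 1 < ⌊x * (J : ℝ)⌋₊ := fun x => Nat.sub_one_lt_floor _
  have f1 := hfl U hU0
  have f2 := hfl' D
  have f3 := hfl' x
  have f4 := hfl (Dn - W + s) (by linarith)
  have f5 := hfl' (Un - W - 8 * s)
  have f7 := hfl e₀ he₀0.le
  have f8 := hfl' et
  have f9 := hfl' (Dn - W + s₁)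
  have f10 := hfl' (Dn - D + U - W + s₁)
  rw [← hNU] at f1
  rw [← hNV] at f2
  rw [← hX] at f3
  rw [← hE] at f7
  have hesJ : 4 * (e₀ * (J : ℝ)) ≤ s * J := by
    have h1 : 4 * (e₀ * (J : ℝ)) = et * J := by rw [← he₀e]; ring
    rw [h1]
    exact mul_le_mul_of_nonneg_right hets hJ0
  have g1 : U * (J : ℝ) ≤ Un * J := mul_le_mul_of_nonneg_right hU hJ0
  have g4 : s * J ≤ (D + x - Dn) / 16 * J := mul_le_mul_of_nonneg_right s4 hJ0
  have g5 : s * J ≤ (D + x - U) / 4 * J := mul_le_mul_of_nonneg_right s5 hJ0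
  have g6 : s * J ≤ s₁ / 8 * J := mul_le_mul_of_nonneg_right s6 hJ0
  have g7 : s * J ≤ x / 4 * J := mul_le_mul_of_nonneg_right s7 hJ0
  have n1 : NU + 2 ≤ NV + X := by
    rw [← Nat.cast_le (α := ℝ)]
    push_cast
    linarith only [f1, f2, f3, g5, hesJ, q0]
  have n0 : 2 ≤ X := by
    rw [← Nat.cast_le (α := ℝ)]
    push_cast
    linarith only [f3, g7, hesJ, q0]
  obtain ⟨Q, hQ⟩ : ∃ Q, Q + (NU + 2) = NV + X := ⟨NV + X - (NU + 2), by omega⟩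
  have hQr : (Q : ℝ) + (NU + 2) = NV + X := by exact_mod_cast hQ
  obtain ⟨M₂, hM₂⟩ : ∃ M₂, M₂ = ⌊(Dn - W + s) * (J : ℝ)⌋₊ := ⟨_, rfl⟩
  obtain ⟨N₁, hN₁⟩ : ∃ N₁, N₁ = ⌊(Un - W - 8 * s) * (J : ℝ)⌋₊ := ⟨_, rfl⟩
  rw [← hM₂] at f4
  rw [← hN₁] at f5 hB₄
  have n2 : M₂ + 2 ≤ Q + N₁ := by
    rw [← Nat.cast_le (α := ℝ)]
    push_cast
    linarith only [f1, f2, f3, f4, f5, g1, g4, hesJ, q0, hQr]
  have n3 : M₂ + 2 ≤ N := by
    refine le_trans ?_ hN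
    rw [← Nat.cast_le (α := ℝ)]
    push_cast
    linarith only [f4, f9, g6, hesJ, q0]
  have n5 : E + 2 + NU + (M₂ + 1) ≤ NV + M := by
    refine le_trans ?_ (Nat.add_le_add_left hMu NV)
    rw [← Nat.cast_le (α := ℝ)]
    push_cast
    linarith only [f1, f2, f4, f7, f10, g6, hesJ, q0]
  have n4 : 2 * E + 4 ≤ ⌊et * (J : ℝ)⌋₊ := by
    rw [← Nat.cast_le (α := ℝ)]
    push_cast
    have h1 : et * (J : ℝ) = 4 * (e₀ * J) := by rw [← he₀e]; ring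
    linarith only [f7, f8, h1, q0]
  have pNU : (0 : ℝ) < 2 ^ NU := by positivity
  have pNV : (0 : ℝ) < 2 ^ NV := by positivity
  have pX : (0 : ℝ) < 2 ^ X := by positivity
  have pQ : (0 : ℝ) < 2 ^ Q := by positivity
  have hpow : (2 : ℝ) ^ NV * 2 ^ X = 2 ^ Q * (2 ^ NU * 4) := by
    rw [← pow_add, ← hQ, pow_add 2 Q (NU + 2), pow_add 2 NU 2]
    norm_num
  have hpe : (2 : ℝ) ^ e ≤ 2 ^ E := pow_le_pow_right₀ (by norm_num) he
  obtain ⟨B₅, a₀, c₀, t, b5, p5, hdp, hcls⟩ := tnt_fam (B := B₄) hyu (W := w) (e := E)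
    (e' := ⌊et * (J : ℝ)⌋₊) (M := M) (N := N) (N₁ := N₁) (Q := Q) (NU := NU) (NV := NV)
    (M₂ := M₂) (a1 := a1) (a2 := a2) (th := th) (c1 := c1) (c2 := c2) (β := β) (ga := ga)
    (gb := gb) (j := j)
    (fun ω hω => ⟨((hau ω (a4' ω hω)).1).trans hpe, ((hau ω (a4' ω hω)).2.1).trans hpe,
      (hau ω (a4' ω hω)).2.2⟩)
    (fun ω hω => hvel ω (e1 ω (a4 ω hω))) (fun ω hω => hrel ω (e1 ω (a4 ω hω))) hB₄
    (fun ω hω => by
      have h1 := (e3 ω (a4 ω hω)).2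
      rw [hβ ω hω, le_div_iff₀ pQ]
      obtain ⟨z, hz⟩ : ∃ z, z = |gb (slam F w ω) - gb (slam F w (sel (K ω)))| := ⟨_, rfl⟩
      rw [← hz] at h1 ⊢
      have h2 := mul_lt_mul_of_pos_right h1 pNV
      have e5 : 3 * ((2 : ℝ) ^ NU / 2 ^ NV) * 2 ^ NV = 3 * 2 ^ NU := by field_simp
      have e6 : z * 2 ^ X * 2 ^ NV = z * 2 ^ Q * 4 * 2 ^ NU := by
        have : z * 2 ^ X * 2 ^ NV = z * (2 ^ NV * 2 ^ X) := by ring
        rw [this, hpow]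
        ring
      rw [e5, e6] at h2
      have h3 := lt_of_mul_lt_mul_right h2 pNU.le
      linarith only [h3])
    (by omega) n3 n5 n2 n4
  have hB₅0 : 0 ≤ Pe F.p B₅ := Pe_nonneg F.isLaw B₅
  have p5' : Pe F.p A ≤ 20 * C * Pe F.p B₅ := by
    have h1 := mul_le_mul_of_nonneg_left p4 hC0.le
    have h2 := mul_le_mul_of_nonneg_left p5 hC0.le
    linarith only [e4, h1, h2]
  have hB₅p : 0 < Pe F.p B₅ := by
    rcases hB₅0.eq_or_lt with h | h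
    · rw [← h, mul_zero] at p5'
      linarith only [p5', hA0]
    · exact h
  have key := b₂ J (by omega) F A (S.mono t2 hA) B₅ M₂ a₀ c₀ t (fun ω hω => a4' ω (b5 ω hω)) hdp
    (by rw [← hw]; exact hcls) hM₂.ge
  -- the contradiction
  have h1 : Real.exp (-(δ * J)) * (20 * C) ≤ Real.exp (-1) := by
    have h2 : (20 * C : ℝ) = Real.exp (Real.log (20 * C)) := (Real.exp_log (by linarith)).symm
    rw [h2, ← Real.exp_add]
    exact Real.exp_le_exp.2 (by linarith only [hlog2])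
  have h2 : Real.exp (-1) < 1 := by
    rw [Real.exp_lt_one_iff]
    norm_num
  have h3 : Real.exp (-(δ * J)) * Pe F.p A ≤ Real.exp (-(δ * J)) * (20 * C * Pe F.p B₅) :=
    mul_le_mul_of_nonneg_left p5' (Real.exp_pos _).le
  have h4 : Real.exp (-(δ * J)) * (20 * C * Pe F.p B₅) ≤ Real.exp (-1) * Pe F.p B₅ := by
    have := mul_le_mul_of_nonneg_right h1 hB₅0
    linarith only [this]
  have h5 : Real.exp (-1) * Pe F.p B₅ < 1 * Pe F.p B₅ := mul_lt_mul_of_pos_right h2 hB₅p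
  linarith only [key, h3, h4, h5]

end Pool.MIC6
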