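import Pool.Agent.H6.OWN.Bcr
import Pool.Agent.H6.OWN.Ngi

/-!
# The numbers over two coordinates do not depend on the radius

`ng_id2`: `L {y, u} v W' r' ≤ L {y, u} v W 0` for `W' < W` and any radius `r'`, at the windows where
the numbers of `u` over `y` are continuous and its slope is known up to its natural precision.
-/

set_option autoImplicit false

namespace Pool.MIC6

open Finset MvPolynomial
open Pool.Agent.H49.Ent Pool.Agent.H32.Dense Pool.STK Pool.KA Pool.KSAT Pool.K2S Pool.PB Pool.GEN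
open Pool.S6C
open Pool.FLF (Fam.sub)
open Pool.GRD (LbP)
open Pool.REX

variable {m n J : ℕ}

/-- An affine closed label over two coordinates is a label with bounded gradients. -/
theorem AfL.lb {F : Fam m J} {κ ι k : Fin m} {w Q P e : ℕ} {A : F.Ω → Prop} {V : Type}
    {zp : PtT F → V} {zs : LnT F → V} {cf : V → Fin 4 → ℝ} (h : AfL F κ ι k w Q e A zp zs cf)
    (h2 : ∀ ω, A ω → |cf (zs (slam F w ω)) 2| ≤ 2 ^ e) (hP : P + 1 ≤ Q) (hPw : w ≤ P) (ρ : ℕ) :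
    LbOK F {κ, ι} k 1 (e + 3) J w ρ P A zp zs
      (fun x => afq κ ι (cf x 0) (cf x 1) (cf x 2) (cf x 3)) :=
  lb_afq h.1 (fun ω hω => ⟨h2 ω hω, (h.2 ω hω).1⟩) (fun ω hω => (h.2 ω hω).2) hP hPw ρ

/-- **The numbers over two coordinates do not depend on the radius.** -/
theorem ng_id2 {S : PCl m} (hS : S.Ne) {C₀ : ℝ} (hC₀ : 0 ≤ C₀) (htm : TmC S C₀)
    {L : Finset (Fin m) → Fin m → ℝ → ℝ → ℝ} (hL : LamW S L) {κ ι k : Fin m} (hκι : κ ≠ ι)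
    (hactF : ActF S κ) {W' W r' a₀ a : ℝ} (hW' : W' < W) (hW0 : 0 < W)
    (hcont : ContinuousAt (fun W => L {κ} ι W 0) W) (hUW : W < L {κ} ι W 0)
    (hU1 : L {κ} ι W 0 < 1) (ha0 : 0 ≤ a₀) (ha : a₀ < a)
    (hUa : L {κ} ι W 0 - W < L {κ} ι a₀ a₀ - a) :
    L {κ, ι} k W' r' ≤ L {κ, ι} k W 0 := by
  classical
  by_contra hcon
  push Not at hcon
  obtain ⟨N, hN⟩ : ∃ N, N = L {κ, ι} k W 0 := ⟨_, rfl⟩
  obtain ⟨D, hD⟩ : ∃ D, D = L {κ, ι} k W' r' := ⟨_, rfl⟩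
  obtain ⟨U, hU⟩ : ∃ U, U = L {κ} ι W 0 := ⟨_, rfl⟩
  obtain ⟨La, hLa⟩ : ∃ La, La = L {κ} ι a₀ a₀ := ⟨_, rfl⟩
  have hD1 : D ≤ 1 := by rw [hD]; exact hL.le1 _ _ _ _
  have hLa1 : La ≤ 1 := by rw [hLa]; exact hL.le1 _ _ _ _
  rw [← hN, ← hD] at hcon
  have hUW' : W < U := by rw [hU]; exact hUW
  have hU1' : U < 1 := by rw [hU]; exact hU1
  have hUa' : U - W < La - a := by rw [hU, hLa]; exact hUa
  have hW1 : W < 1 := by linarith only [hUW', hU1']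
  have hWN : W ≤ N := by rw [hN]; exact hL.low _ _ _ _ hW1.le
  have ha1 : a < 1 := by linarith only [hUa', hUW', hLa1]
  -- the parameters
  obtain ⟨x, hxd⟩ : ∃ x, x = min (min ((D - N) / 8) (1 - U)) (min ((La - a - (U - W)) / 8)
    (min W ((a - a₀) / 4))) := ⟨_, rfl⟩
  have hx0 : 0 < x := by
    rw [hxd]
    exact lt_min (lt_min (by linarith only [hcon]) (by linarith only [hU1']))
      (lt_min (by linarith only [hUa']) (lt_min hW0 (by linarith only [ha])))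
  have x0 : x ≤ (D - N) / 8 ∧ x ≤ 1 - U ∧ x ≤ (La - a - (U - W)) / 8 ∧ x ≤ W ∧
      x ≤ (a - a₀) / 4 := by
    have := hxd.le
    simp only [le_min_iff] at this
    tauto
  obtain ⟨x1, x2, x3, x4, x5⟩ := x0
  obtain ⟨d, hd0, hd1, habs⟩ := hL.abs {κ, ι} k W 0 (N + 2 * x) (by rw [← hN]; linarith only [hx0])
    (by linarith only [x1, hD1, hx0])
  obtain ⟨d', hd'⟩ : ∃ d', d' = min d x := ⟨_, rfl⟩
  have hd'0 : 0 < d' := by rw [hd']; exact lt_min hd0 hx0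
  have hd'd : d' ≤ d := by rw [hd']; exact min_le_left _ _
  have hd'x : d' ≤ x := by rw [hd']; exact min_le_right _ _
  obtain ⟨e₀, he₀, τ₁, hτ₁, J₁, b₁⟩ := aff_bcr hC₀ htm hL (κ := κ) (ι := ι) (k := k) hκι hactF
    (W' := W') (W := W) (r' := r') (x := d') (q := N - W + 3 * x) hW' hd'0
    (by linarith only [hd'x, x4]) (by linarith only [hd'x, hWN, hx0])
    (by rw [← hD]; linarith only [hd'x, x1, hx0]) hcont hUW
    (by rw [← hU]; linarith only [hd'x, x2])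
  rw [← hU] at b₁
  obtain ⟨e₁, he₁⟩ : ∃ e₁, e₁ = min (min e₀ x) ((a - a₀) / 3) := ⟨_, rfl⟩
  have he₁0 : 0 < e₁ := by
    rw [he₁]
    exact lt_min (lt_min he₀ hx0) (by linarith only [ha])
  have e10 : e₁ ≤ e₀ ∧ e₁ ≤ x ∧ e₁ ≤ (a - a₀) / 3 := by
    have := he₁.le
    simp only [le_min_iff] at this
    tauto
  obtain ⟨e11, e12, e14⟩ := e10
  obtain ⟨τ₂, hτ₂, J₂, b₂⟩ := dp_cls hL κ ι (a₀ := a₀) (a := a) (e := e₁) ha0 ha ha1 he₁0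
    (by linarith only [e14]) (by rw [← hLa]; linarith only [e12, x3, hUW', hx0])
  rw [← hLa] at b₂
  obtain ⟨τ₃, hτ₃, J₃, b₃⟩ := habs d' hd'd 1
  obtain ⟨τ, hτ⟩ : ∃ τ, τ = min (min τ₁ τ₂) (τ₃ / 2) := ⟨_, rfl⟩
  have hτ0 : 0 < τ := by rw [hτ]; exact lt_min (lt_min hτ₁ hτ₂) (by linarith only [hτ₃])
  have t1 : τ ≤ τ₁ := by rw [hτ]; exact (min_le_left _ _).trans (min_le_left _ _)
  have t2 : τ ≤ τ₂ := by rw [hτ]; exact (min_le_left _ _).trans (min_le_right _ _)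
  have t3 : 2 * τ ≤ τ₃ := by
    have : τ ≤ τ₃ / 2 := by rw [hτ]; exact min_le_right _ _
    linarith only [this]
  obtain ⟨J₄, hJ₄⟩ := exists_nat_ge (max (20 / d') (Real.log 1280 / τ))
  obtain ⟨J, hJ, F, A, hA⟩ := hS τ hτ0 (J₁ + J₂ + J₃ + J₄)
  have hJ4 : (J₄ : ℝ) ≤ J := by exact_mod_cast (by omega : J₄ ≤ J)
  have hJ0 : (0 : ℝ) ≤ J := Nat.cast_nonneg J
  have q1 : (20 : ℝ) ≤ d' * J := by
    have h3 := ((le_max_left _ _).trans hJ₄).trans hJ4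
    rw [div_le_iff₀ hd'0] at h3
    linarith only [h3]
  have q2 : Real.log 1280 ≤ τ * J := by
    have h3 := ((le_max_right _ _).trans hJ₄).trans hJ4
    rw [div_le_iff₀ hτ0] at h3
    linarith only [h3]
  obtain ⟨au, cu, hau⟩ := b₂ J (by omega) F A (S.mono t2 hA)
  obtain ⟨B, c1, c2, V, zp, zs, cf, c3, c4⟩ := b₁ J (by omega) F A (S.mono t1 hA) au cu ⌊e₁ * J⌋₊
    ⌊(La - a - 4 * e₁) * J⌋₊ (Nat.floor_le_floor (mul_le_mul_of_nonneg_right e11 hJ0))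
    (Nat.floor_le_floor (mul_le_mul_of_nonneg_right (by linarith only [e12, x3, hd'x, hx0]) hJ0))
    hau
  have hB : S.St (2 * τ) J F B := res_of hτ0.le hA c1 (by norm_num) q2 c2
  refine b₃ J (by omega) F B (S.mono t3 hB) ?_
  -- the floors
  have f1 : (⌊W * (J : ℝ)⌋₊ : ℝ) ≤ W * J := Nat.floor_le (by positivity)
  have f1' : W * (J : ℝ) - 1 < ⌊W * (J : ℝ)⌋₊ := Nat.sub_one_lt_floor _
  have f2 : (W + d') * (J : ℝ) - 1 < ⌊(W + d') * (J : ℝ)⌋₊ := Nat.sub_one_lt_floor _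
  have f2' : (⌊(W + d') * (J : ℝ)⌋₊ : ℝ) ≤ (W + d') * J := Nat.floor_le (by positivity)
  have f3 : (⌊(N + 2 * x) * (J : ℝ)⌋₊ : ℝ) ≤ (N + 2 * x) * J :=
    Nat.floor_le (mul_nonneg (by linarith only [hWN, hW0, hx0]) hJ0)
  have f3' : (N + 2 * x) * (J : ℝ) - 1 < ⌊(N + 2 * x) * (J : ℝ)⌋₊ := Nat.sub_one_lt_floor _
  have f4 : (N - W + 3 * x) * (J : ℝ) - 1 < ⌊(N - W + 3 * x) * (J : ℝ)⌋₊ :=
    Nat.sub_one_lt_floor _
  have f5 : (⌊d' / 32 * (J : ℝ)⌋₊ : ℝ) ≤ d' / 32 * J := Nat.floor_le (by positivity)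
  have f6 : d' * (J : ℝ) - 1 < ⌊d' * (J : ℝ)⌋₊ := Nat.sub_one_lt_floor _
  have g1 : d' * (J : ℝ) ≤ x * J := mul_le_mul_of_nonneg_right hd'x hJ0
  have g3 : W * (J : ℝ) ≤ N * J := mul_le_mul_of_nonneg_right hWN hJ0
  have n1 : ⌊W * (J : ℝ)⌋₊ + 2 ≤ ⌊(W + d') * (J : ℝ)⌋₊ := by
    rw [← Nat.cast_le (α := ℝ)]
    push_cast
    linarith only [f1, f2, q1]
  have n2 : ⌊(N + 2 * x) * (J : ℝ)⌋₊ + 1 ≤ ⌊W * (J : ℝ)⌋₊ + ⌊(N - W + 3 * x) * (J : ℝ)⌋₊ := by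
    rw [← Nat.cast_le (α := ℝ)]
    push_cast
    linarith only [f1', f3, f4, g1, q1]
  have n3 : ⌊d' / 32 * (J : ℝ)⌋₊ + 3 ≤ ⌊d' * (J : ℝ)⌋₊ := by
    rw [← Nat.cast_le (α := ℝ)]
    push_cast
    linarith only [f5, f6, q1]
  have n4 : ⌊W * (J : ℝ)⌋₊ + 2 ≤ ⌊(N + 2 * x) * (J : ℝ)⌋₊ := by
    rw [← Nat.cast_le (α := ℝ)]
    push_cast
    linarith only [f1, f3', g1, g3, q1]
  have n5 : ⌊(W + d') * (J : ℝ)⌋₊ ≤ J := by
    rw [← Nat.cast_le (α := ℝ)]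
    have : (W + d') * (J : ℝ) ≤ 1 * J := mul_le_mul_of_nonneg_right (by
      linarith only [hd'x, x2, hUW']) hJ0
    linarith only [f2', this]
  have hlb := c3.lb c4 n2 n4 ⌊(0 + d') * (J : ℝ)⌋₊
  exact Lb.mono ⟨V, zp, zs, _, hlb⟩ (Finset.Subset.refl _) le_rfl n3 le_rfl n1 n5 le_rfl le_rfl

end Pool.MIC6
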