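import Pool.Agent.H6.OWN.Rzr
import Pool.Agent.H6.OWN.RzN
import Pool.Agent.H6.OWN.Afc
import Pool.Agent.H21.PRV.Gsf

/-!
# The relation of the slopes in the zooms of a class, for the numbers of any radius

`rel_zcr`: `rel_zcn` where the radius of the number of `v` in the zoom is arbitrary.
-/

set_option autoImplicit false

namespace Pool.MIC6

open Finset MvPolynomial
open Pool.Agent.H49.Ent Pool.Agent.H32.Dense Pool.STK Pool.KA Pool.KSAT Pool.K2S Pool.PB Pool.GEN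
open Pool.S6C
open Pool.FLF (Fam.sub)
open Pool.GRD (LbP)
open Pool.REX

variable {m n J : ℕ}

/-- **The relation of the slopes in the zooms of a class**, with the natural errors, for the
numbers of any radius. -/
theorem rel_zcr {S : PCl m} {C₀ : ℝ} (hC₀ : 0 ≤ C₀) (htm : TmC S C₀)
    {L : Finset (Fin m) → Fin m → ℝ → ℝ → ℝ} (hL : LamW S L) (v : Vz m)
    (ε : Fin n → Fin m) {L' : Finset (Fin n) → Fin n → ℝ → ℝ → ℝ} (hL' : LamW (RecV S v ε) L')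
    {κ ι k : Fin n} (hκι : κ ≠ ι) (hact : ActZ S v ε κ) (hactF : ActF S (ε κ))
    {w' w r' x q : ℝ} (hw' : w' < w) (hw0 : 0 < w) (hw1 : w < 1) (hx : 0 < x)
    (hxw : x ≤ (1 - v.b) * (1 - v.p) * w) (hqx : x ≤ q)
    (hLz : q + x ≤ v.sc (L' {κ, ι} k w' r') - v.p * (1 - v.b) - v.tm w)
    (hcont : ContinuousAt (fun W => L {ε κ} (ε ι) W 0) (v.tm w))
    (hUt : v.tm w < L {ε κ} (ε ι) (v.tm w) 0)
    (hUx : L {ε κ} (ε ι) (v.tm w) 0 + v.p * (1 - v.b) + x ≤ 1) :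
    ∃ e₀ : ℝ, 0 < e₀ ∧ Bas S (fun J F A => ∀ (au cu av cv th : PtT F → ℝ) (th' : LnT F → ℝ)
      (e Mu Mv W : ℕ), e ≤ ⌊e₀ * J⌋₊ →
      ⌊(L {ε κ} (ε ι) (v.tm w) 0 - v.tm w + v.p * (1 - v.b) + x) * J⌋₊ ≤ Mu →
      ⌊(q + v.p * (1 - v.b) + x) * J⌋₊ ≤ Mv → W ≤ v.B J + (⌊w * v.R J⌋₊ + 4) →
      Dp F A (ε κ) (ε ι) e Mu au cu → Dt F A (ε κ) (ε ι) (ε k) e Mv W th cv av th' →
      ∀ _ : v.P J ≤ J - v.B J,
      ∃ B : F.Ω → Prop, Sub B A ∧ Pe F.p A ≤ 64 * Pe F.p B ∧ ∃ sg tu : LnT F → ℝ, ∀ ω, B ω →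
        |tu (slam F (v.B J + (⌊w * v.R J⌋₊ + 4)) ω)| ≤ 2 * 2 ^ ⌊x / 32 * J⌋₊ ∧
        |sg (slam F (v.B J + (⌊w * v.R J⌋₊ + 4)) ω) +
          tu (slam F (v.B J + (⌊w * v.R J⌋₊ + 4)) ω) * au (ptr F J ω) - av (ptr F J ω)| ≤
          1 / 2 ^ ⌊(q - x) * J⌋₊ + |tu (slam F (v.B J + (⌊w * v.R J⌋₊ + 4)) ω)| *
            (1 / 2 ^ ⌊(L {ε κ} (ε ι) (v.tm w) 0 - v.tm w + x / 2) * J⌋₊)) := by
  classical
  obtain ⟨Lz, hLzd⟩ : ∃ Lz, Lz = L' {κ, ι} k w' r' := ⟨_, rfl⟩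
  obtain ⟨U, hUd⟩ : ∃ U, U = L {ε κ} (ε ι) (v.tm w) 0 := ⟨_, rfl⟩
  have hLz1 : Lz ≤ 1 := by rw [hLzd]; exact hL'.le1 _ _ _ _
  rw [← hLzd] at hLz
  rw [← hUd] at hUt hUx ⊢
  have hb := v.b0
  have hb1 := v.b1
  have hp := v.p0
  have hp1 := v.p1
  have hcp : 0 < (1 - v.b) * (1 - v.p) := mul_pos (by linarith) (by linarith)
  have hpb : 0 ≤ v.p * (1 - v.b) := mul_nonneg hp (by linarith)
  have htw0 : 0 < v.tm w := by
    have : v.tm w = v.b + (1 - v.b) * (1 - v.p) * w := rfl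
    rw [this]
    have : 0 < (1 - v.b) * (1 - v.p) * w := mul_pos hcp hw0
    linarith
  have hscz : v.sc Lz ≤ 1 := by
    have h1 : v.sc Lz = 1 - (1 - v.b) * (1 - v.p) * (1 - Lz) := by unfold Vz.sc; ring
    rw [h1]
    have : 0 ≤ (1 - v.b) * (1 - v.p) * (1 - Lz) := mul_nonneg hcp.le (by linarith)
    linarith
  -- the label of `k`
  obtain ⟨K', hK⟩ := hL'.att {κ, ι} k w' w r' (x / 64) hw0 hw1.le hw' (by linarith)
  rw [← hLzd] at hK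
  obtain ⟨K, hKK'⟩ : ∃ K, K = K' + 1 := ⟨_, rfl⟩
  have hK1 : 1 ≤ K := by omega
  have hK0 : (0 : ℝ) ≤ K := Nat.cast_nonneg K
  obtain ⟨δ, hδd⟩ : ∃ δ, δ = min (min (x / (640 * (K + 1))) ((U - v.tm w) / 64))
    (v.tm w / 4) := ⟨_, rfl⟩
  have hδ0 : 0 < δ := by
    rw [hδd]
    exact lt_min (lt_min (by positivity) (by linarith)) (by linarith)
  have hδ1 : 640 * (δ * (K + 1)) ≤ x := by
    have h1 : δ ≤ x / (640 * (K + 1)) := by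
      rw [hδd]
      exact (min_le_left _ _).trans (min_le_left _ _)
    rw [le_div_iff₀ (by positivity)] at h1
    linarith
  have hδ2 : 64 * δ ≤ U - v.tm w := by
    have h1 : δ ≤ (U - v.tm w) / 64 := by
      rw [hδd]
      exact (min_le_left _ _).trans (min_le_right _ _)
    linarith
  have hδ3 : 4 * δ ≤ v.tm w := by
    have h1 : δ ≤ v.tm w / 4 := by
      rw [hδd]
      exact min_le_right _ _
    linarith
  have hδx : 640 * δ ≤ x := by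
    have : δ * 1 ≤ δ * (K + 1) := mul_le_mul_of_nonneg_left (by linarith) hδ0.le
    linarith
  -- the windows
  obtain ⟨η, hη, hηc⟩ := Metric.continuousAt_iff.1 hcont δ hδ0
  obtain ⟨o, hod⟩ : ∃ o, o = min (δ / 2) (η / 2) := ⟨_, rfl⟩
  have ho0 : 0 < o := by rw [hod]; exact lt_min (by linarith) (by linarith)
  have ho1 : o ≤ δ / 2 := by rw [hod]; exact min_le_left _ _
  have ho2 : o ≤ η / 2 := by rw [hod]; exact min_le_right _ _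
  obtain ⟨W₁', hW₁'⟩ : ∃ W, W = v.tm w - o := ⟨_, rfl⟩
  obtain ⟨W₁, hW₁⟩ : ∃ W, W = v.tm w - o / 2 := ⟨_, rfl⟩
  obtain ⟨W₂, hW₂⟩ : ∃ W, W = v.tm w + o / 2 := ⟨_, rfl⟩
  obtain ⟨U₁, hU₁⟩ : ∃ U₁, U₁ = L {ε κ} (ε ι) W₁' 0 := ⟨_, rfl⟩
  obtain ⟨U₂, hU₂⟩ : ∃ U₂, U₂ = L {ε κ} (ε ι) W₂ 0 := ⟨_, rfl⟩
  have hUU₁ : |U₁ - U| < δ := by
    have h1 := @hηc W₁' (by
      rw [Real.dist_eq, hW₁']
      have : v.tm w - o - v.tm w = -o := by ring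
      rw [this, abs_neg, abs_of_pos ho0]
      linarith)
    rw [Real.dist_eq] at h1
    rw [hU₁, hUd]
    exact h1
  have hUU₂ : |U₂ - U| < δ := by
    have h1 := @hηc W₂ (by
      rw [Real.dist_eq, hW₂]
      have : v.tm w + o / 2 - v.tm w = o / 2 := by ring
      rw [this, abs_of_pos (by linarith)]
      linarith)
    rw [Real.dist_eq] at h1
    rw [hU₂, hUd]
    exact h1
  rw [abs_lt] at hUU₁ hUU₂
  have hU₁U : U₁ ≤ U := by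
    rw [hU₁, hUd]
    exact hL.mono _ _ _ _ _ _ _ (Finset.Subset.refl _) (by rw [hW₁']; linarith) le_rfl
  have hUU₂' : U ≤ U₂ := by
    rw [hU₂, hUd]
    exact hL.mono _ _ _ _ _ _ _ (Finset.Subset.refl _) (by rw [hW₂]; linarith) le_rfl
  have hW₂1 : W₂ ≤ 1 := by linarith
  obtain ⟨Ca, hCa1, hrel⟩ := rel_zmr m n K hK1
  obtain ⟨Cg, hCg1, hgsl⟩ := Pool.PRV.gsl_free n K
  obtain ⟨C, hCd⟩ : ∃ C, C = Ca + Cg := ⟨_, rfl⟩
  have hCa : Ca ≤ C := by linarith only [hCd, hCg1]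
  have hCg : Cg ≤ C := by linarith only [hCd, hCa1]
  have hC1 : 1 ≤ C := by linarith only [hCd, hCa1, hCg1]
  obtain ⟨γ, hγ⟩ : ∃ γ, γ = δ / (K + 1) := ⟨_, rfl⟩
  have hγ0 : 0 < γ := by rw [hγ]; positivity
  have hγδ : γ * (K + 1) ≤ δ := by
    rw [hγ]
    exact (div_mul_cancel₀ δ (by positivity : ((K : ℝ) + 1) ≠ 0)).le
  -- the statements of the class
  obtain ⟨c, hc0, hcB⟩ := hact γ hγ0
  obtain ⟨τ₁, hτ₁, J₁, hb₁⟩ := bas_recV hK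
  obtain ⟨τ₃, hτ₃, J₃, hb₃⟩ := hcB
  obtain ⟨τ₄, hτ₄, J₄, hb₄⟩ := nat_cls hC₀ htm hL (v := ε ι) hactF (W' := W₁') (W := W₁) (s := δ)
    (by rw [hW₁', hW₁]; linarith) (by rw [hW₁]; linarith) hδ0 (by rw [← hU₁, hW₁]; linarith)
  obtain ⟨d₁, hd₁0, habs⟩ := abs_cls htm hL (y := ε κ) (v := ε ι) (W := W₂) (s := δ)
    (by rw [hW₂]; linarith) hδ0 (by rw [← hU₂, hW₂]; linarith) (by rw [← hU₂]; linarith)
  rw [← hU₁] at hb₄
  rw [← hU₂] at habs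
  obtain ⟨e₀, he₀⟩ : ∃ e₀, e₀ = min d₁ δ := ⟨_, rfl⟩
  have he₀0 : 0 < e₀ := by rw [he₀]; exact lt_min hd₁0 hδ0
  have he₀d : e₀ ≤ d₁ := by rw [he₀]; exact min_le_left _ _
  have he₀δ : e₀ ≤ δ := by rw [he₀]; exact min_le_right _ _
  obtain ⟨τ₅, hτ₅, J₅, hb₅⟩ := habs e₀ he₀0 he₀d
  have hD0 : 0 < C * (C₀ + 1) := by positivity
  obtain ⟨τ, hτ⟩ : ∃ τ, τ = min (τ₁ / 2) (min (min (τ₃ / 2) (τ₄ / 2))
    (min (τ₅ / 2) (δ / 4 / (C * (C₀ + 1))))) := ⟨_, rfl⟩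
  have hτ0 : 0 < τ := by
    rw [hτ]
    exact lt_min (by linarith) (lt_min (lt_min (by linarith)
      (by linarith)) (lt_min (by linarith) (by positivity)))
  have t0 : τ ≤ τ₁ / 2 ∧ τ ≤ τ₃ / 2 ∧ τ ≤ τ₄ / 2 ∧ τ ≤ τ₅ / 2 ∧
      τ ≤ δ / 4 / (C * (C₀ + 1)) := by
    have := hτ.le
    simp only [le_min_iff] at this
    tauto
  obtain ⟨t1, t3, t4, t5, t6⟩ := t0
  have hCτ : C * (C₀ * (2 * τ)) ≤ δ / 2 := by
    rw [le_div_iff₀ hD0] at t6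
    have : 0 ≤ C * τ := by positivity
    linarith only [t6, this]
  obtain ⟨N₀, hN₀⟩ := exists_nat_ge (2 * (Real.log C + C))
  obtain ⟨J₆, hfit⟩ := rzn_fit v (x := x) (w := w) (Lz := Lz) (r' := 0) (q := q)
    (δ := δ) (γ := γ) (U := U) (U₁ := U₁) (U₂ := U₂) (W₁ := W₁) (W₂ := W₂) (K := K)
    (N₀ := N₀) (C := C) (C₀ := C₀) (τ := 2 * τ) hx hδ0 hδ1 hw0 hw1 hγ0 hγδ hC1 hCτ le_rfl
    (by rw [sub_zero]; exact hxw)
    hLz1 hqx hLz hUx (by rw [hW₁]; linarith) (by rw [hW₁]; linarith)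
    (by rw [hW₂]; linarith) hW₂1 hU₁U hUU₂' (by linarith) (by linarith)
  obtain ⟨Cp, hCp⟩ : ∃ Cp : ℝ, Cp = 1280 * (K + 4) := ⟨_, rfl⟩
  have hCp0 : 5120 ≤ Cp := by rw [hCp]; linarith only [hK0]
  obtain ⟨J₇, hJ₇⟩ := exists_nat_ge (max (Real.log Cp / τ)
    ((n * k99 + Real.log (2 * (K + 2 : ℕ)) + 1) / c))
  refine ⟨e₀, he₀0, τ, hτ0, J₁ + J₃ + J₄ + J₅ + J₆ + J₇, ?_⟩
  intro J hJ F A hA au cu av cv th th' e Mu Mv W he hMu hMv hW hau hav k2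
  have hJ7 : (J₇ : ℝ) ≤ J := by exact_mod_cast (by omega : J₇ ≤ J)
  have hlog : Real.log Cp ≤ τ * J := by
    have h1 := ((le_max_left _ _).trans hJ₇).trans hJ7
    rw [div_le_iff₀ hτ0] at h1
    linarith
  have hcJ : n * k99 + Real.log (2 * (K + 2 : ℕ)) + 1 ≤ c * J := by
    have h1 := ((le_max_right _ _).trans hJ₇).trans hJ7
    rw [div_le_iff₀ hc0] at h1
    linarith
  have hJ0 : (0 : ℝ) ≤ J := Nat.cast_nonneg J
  obtain ⟨k1, -, -⟩ := v.floor_le J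
  obtain ⟨⟨n1, n2⟩, ⟨n3, n4, n5, n6, n7'⟩, ⟨n7, n8, n10, n11⟩,
    ⟨n15, n16, n17, n18⟩⟩ := hfit J (by omega) Mu Mv hMu hMv
  have hA0 := (htm τ J F A hτ0 hA).1
  have hpA : 0 ≤ Pe F.p A := hA0.le
  have hres : ∀ B' : F.Ω → Prop, Sub B' A → Pe F.p A ≤ Cp * Pe F.p B' → S.St (2 * τ) J F B' :=
    fun B' h1 h2 => res_of hτ0.le hA h1 (by linarith) hlog h2
  have hpow : C * Real.exp (C * (C₀ * (2 * τ) * J + 1)) ≤ 2 ^ (N₀ + ⌊2 * δ * J⌋₊) :=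
    exp_pow (J := J) hC1 hCτ hN₀ n18
  have hEx : ⌊e₀ * (J : ℝ)⌋₊ ≤ ⌊x / 32 * J⌋₊ :=
    Nat.floor_le_floor (mul_le_mul_of_nonneg_right (by linarith) hJ0)
  have heδ : ⌊e₀ * (J : ℝ)⌋₊ ≤ ⌊δ * J⌋₊ :=
    Nat.floor_le_floor (mul_le_mul_of_nonneg_right he₀δ hJ0)
  have hMge : ∀ z : ℝ, z ≤ U - v.tm w + v.p * (1 - v.b) + x → ⌊z * (J : ℝ)⌋₊ ≤ Mu := fun z hz =>
    (Nat.floor_le_floor (mul_le_mul_of_nonneg_right hz hJ0)).trans hMu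
  -- the natural slope
  obtain ⟨A', a1, a2, j, a3⟩ := hb₄ J (by omega) F A (S.mono (by linarith) hA) au cu e Mu hau
    (he.trans heδ) (hMge _ (by rw [hW₁]; linarith))
  have hA'0 : 0 < Pe F.p A' := by linarith
  have hRJ : v.R J = J - v.B J - v.P J := rfl
  -- the labels
  have hA'S : S.St (2 * τ) J F A' := hres A' a1 (by
    have := mul_le_mul_of_nonneg_right hCp0 hA'0.le
    linarith)
  have hlab := hb₁ J (by omega) F A' (S.mono (by linarith) hA'S) k2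
  have hxR : ⌊x / 64 * (v.R J : ℝ)⌋₊ ≤ ⌊x / 64 * (J : ℝ)⌋₊ := by
    refine Nat.floor_le_floor (mul_le_mul_of_nonneg_left ?_ (by positivity))
    have : v.R J ≤ J := by rw [hRJ]; omega
    exact_mod_cast this
  have hlab' : Lb (zmV F k2 (v.y J F) ε) {κ, ι} k K ⌊x / 64 * J⌋₊ (v.R J) ⌊w * v.R J⌋₊
      ⌊(r' + x / 64) * v.R J⌋₊ ⌊(Lz - x / 32) * v.R J⌋₊ A' :=
    Lb.mono hlab (Finset.Subset.refl _) (by omega) hxR le_rfl le_rfl (by rw [← hRJ]; omega)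
      le_rfl (Nat.floor_le_floor (mul_le_mul_of_nonneg_right (by linarith only [hx])
        (Nat.cast_nonneg _)))
  -- the slopes at the start of the window
  obtain ⟨V₁, z₁, z₁', G₁, lab₁⟩ := hlab'
  have hθ0 : (0 : ℝ) ≤ C₀ * (2 * τ) * J := by positivity
  have hexC : ∀ C', C' ≤ C → Real.exp (C' * (C₀ * (2 * τ) * J + 1)) ≤
      Real.exp (C * (C₀ * (2 * τ) * J + 1)) := fun C' h =>
    Real.exp_le_exp.2 (mul_le_mul_of_nonneg_right h (by linarith only [hθ0]))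
  obtain ⟨A'', a4, a5', a6⟩ := hgsl (zmV F k2 (v.y J F) ε) A' hA'0 (θ := C₀ * (2 * τ) * J) lab₁
    (by rw [← hRJ]; omega) hθ0
    (zoom_tm htm v ε (by linarith only [hτ0] : 0 < 2 * τ) hA'S k2 hA'0) (by
      refine le_trans ?_ n11
      exact mul_le_mul_of_nonneg_right hCg (by linarith only [hθ0]))
  have a5 : Pe F.p A' / 2 ≤ Pe F.p A'' := a5'
  have hA''0 : 0 < Pe F.p A'' := by linarith only [a5, hA'0]
  have hA''S : S.St (2 * τ) J F A'' := hres A'' (fun ω hω => a1 ω (a4 ω hω)) (by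
    have := mul_le_mul_of_nonneg_right hCp0 hA''0.le
    linarith only [this, a2, a5, hA''0])
  have e64 : (N₀ + ⌊2 * δ * J⌋₊) + ⌊x / 64 * J⌋₊ ≤ ⌊x / 32 * J⌋₊ := by
    have f1 : (⌊2 * δ * (J : ℝ)⌋₊ : ℝ) ≤ 2 * δ * J := Nat.floor_le (by positivity)
    have f2 : (⌊x / 64 * (J : ℝ)⌋₊ : ℝ) ≤ x / 64 * J := Nat.floor_le (by positivity)
    have f3 : x / 32 * (J : ℝ) - 1 < ⌊x / 32 * (J : ℝ)⌋₊ := Nat.sub_one_lt_floor _
    have f4 : 640 * δ * (J : ℝ) ≤ x * J := mul_le_mul_of_nonneg_right hδx hJ0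
    rw [← Nat.cast_le (α := ℝ)]
    push_cast
    linarith only [f1, f2, f3, f4, n18, hC1]
  have a7 : ∀ ω, A'' ω → ∀ j, |gsl ⌊w * v.R J⌋₊ z₁' G₁ j
      (slam (zmV F k2 (v.y J F) ε) ⌊w * v.R J⌋₊ ω)| ≤ 2 ^ ⌊x / 32 * J⌋₊ := by
    intro ω hω j
    refine (a6 ω hω j).trans ?_
    have h1 : Real.exp (Cg * (C₀ * (2 * τ) * J + 1)) ≤ 2 ^ (N₀ + ⌊2 * δ * J⌋₊) := by
      refine (hexC Cg hCg).trans (le_trans ?_ hpow)
      exact le_mul_of_one_le_left (Real.exp_pos _).le hC1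
    calc Real.exp (Cg * (C₀ * (2 * τ) * J + 1)) * 2 ^ ⌊x / 64 * J⌋₊ ≤
          2 ^ (N₀ + ⌊2 * δ * J⌋₊) * 2 ^ ⌊x / 64 * J⌋₊ :=
          mul_le_mul_of_nonneg_right h1 (by positivity)
      _ = 2 ^ ((N₀ + ⌊2 * δ * J⌋₊) + ⌊x / 64 * J⌋₊) := (pow_add _ _ _).symm
      _ ≤ 2 ^ ⌊x / 32 * J⌋₊ := pow_le_pow_right₀ (by norm_num) e64
  -- the velocities
  have hact' := act_big (K := K) hb₃ (by omega : J₃ ≤ J) (F := F) (A := A) k1 k2 hA0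
    (by linarith : 0 < Cp) (fun B₀ h1 h2 => S.mono (by linarith) (hres B₀ h1 h2)) hcJ
  -- the windows
  have hww : ∀ ω ω' : F.Ω, slam F ⌊W₂ * (J : ℝ)⌋₊ ω = slam F ⌊W₂ * (J : ℝ)⌋₊ ω' →
      slam F (v.B J + (⌊w * v.R J⌋₊ + 4)) ω = slam F (v.B J + (⌊w * v.R J⌋₊ + 4)) ω' := by
    intro ω ω' h
    rw [slam_coarse F n15 n16 ω, slam_coarse F n15 n16 ω', h]
  have hwl : ∀ ω ω' : F.Ω, slam F (v.B J + (⌊w * v.R J⌋₊ + 4)) ω =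
      slam F (v.B J + (⌊w * v.R J⌋₊ + 4)) ω' →
      slam F ⌊W₁ * (J : ℝ)⌋₊ ω = slam F ⌊W₁ * (J : ℝ)⌋₊ ω' := by
    intro ω ω' h
    have h0 : v.B J + (⌊w * v.R J⌋₊ + 4) ≤ J := n15.trans n16
    rw [slam_coarse F (by omega) h0 ω, slam_coarse F (by omega) h0 ω', h]
  -- the relation
  obtain ⟨B₁, b1, b2, sg, tu, b3⟩ := hrel F A'' hA''0 k2 (v.y J F) ε (κ := κ) (ι := ι)
    (k := k) (e := ⌊x / 32 * J⌋₊) (r := v.R J) (w := ⌊w * v.R J⌋₊) (W := W)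
    (W₃ := v.B J + (⌊w * v.R J⌋₊ + 4))
    (P₁ := ⌊(Lz - x / 32) * v.R J⌋₊)
    (g := ⌊γ * v.R J⌋₊) (Mu := Mu) (Mv := Mv) (N := N₀ + ⌊2 * δ * J⌋₊)
    (h := ⌊(U₁ - W₁ - 8 * δ) * J⌋₊) (hh := ⌊w * v.R J⌋₊ + ⌊(U₁ - W₁ - 16 * δ) * J⌋₊)
    (sp := ⌊(U₂ - W₂ + δ) * J⌋₊) (d := ⌊20 * δ * J⌋₊) (q₁ := ⌊(q - x) * J⌋₊)
    (q₂ := ⌊(U - v.tm w + x / 2) * J⌋₊)
    (au := au) (cu := cu) (av := av) (cv := cv) (th := th) (th' := th')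
    (J0 := fun ω => j (slam F ⌊W₁ * J⌋₊ ω))
    (θ := C₀ * (2 * τ) * J) hκι k1 (v.line J F)
    (((hau.sub a1).sub a4).mono (he.trans hEx) le_rfl)
    (fun ω hω => by
      obtain ⟨d1, d2, d3, d4⟩ := hav ω (a1 ω (a4 ω hω))
      have h2 : (2 : ℝ) ^ e ≤ 2 ^ ⌊x / 32 * (J : ℝ)⌋₊ :=
        pow_le_pow_right₀ (by norm_num) (he.trans hEx)
      exact ⟨d1.trans h2, d2.trans h2, d3, d4⟩) ((LbP.of lab₁).sub a4) le_rfl
    (by rw [← hRJ]; omega) hW (by omega) (n15.trans n16) a7 (by positivity)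
    (zoom_tm htm v ε (by linarith only [hτ0] : 0 < 2 * τ) hA''S k2 hA''0) (by
      refine le_trans ?_ n11
      exact mul_le_mul_of_nonneg_right hCa (by linarith only [hθ0]))
    (by rw [← hRJ]; omega) (fun B₀ hB₀A hPB₀ => by
      refine hact' B₀ (fun ω hω => a1 ω (a4 ω (hB₀A ω hω))) ?_
      have h3 : 0 ≤ Pe F.p B₀ := Pe_nonneg F.isLaw B₀
      have := mul_le_mul_of_nonneg_right hCp0 h3
      linarith only [this, a2, a5, hPB₀, h3]) (fun ω hω => by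
      rw [abs_sub_comm]
      exact a3 ω (a4 ω hω)) (by
      have : ⌊(U₁ - W₁ - 16 * δ) * (J : ℝ)⌋₊ ≤ ⌊(U₁ - W₁ - 8 * δ) * (J : ℝ)⌋₊ :=
        Nat.floor_le_floor (mul_le_mul_of_nonneg_right (by linarith) hJ0)
      omega) (fun B₁ hB₁ hPB₁ => by
      have hB₁0 : 0 < Pe F.p B₁ := by linarith only [hPB₁, hA''0]
      obtain ⟨B', d1, d2, d3⟩ := nod_fun (K + 1) (F := F) (B := B₁)
        (Φ := slam F ⌊W₂ * (J : ℝ)⌋₊) (f := fun ω => au (ptr F J ω))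
        (s := 1 / 2 ^ ⌊(U₂ - W₂ + δ) * (J : ℝ)⌋₊) hB₁0 (fun B₀ hB₀ hPB₀ jj hjj => by
          have hs : Sub B₀ A := fun ω hω => a1 ω (a4 ω (hB₁ ω (hB₀ ω hω)))
          have hS₀ := hres B₀ hs (by
            have h3 : 0 ≤ Pe F.p B₀ := Pe_nonneg F.isLaw B₀
            push_cast at hPB₀
            rw [hCp]
            linarith only [hPB₀, hPB₁, a2, a5, h3, mul_nonneg hK0 h3])
          exact hb₅ J (by omega) F B₀ (S.mono (by linarith) hS₀) au cu Mu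
            ((hau.sub hs).mono he le_rfl) (hMge _ (by rw [hW₂]; linarith)) jj hjj)
      refine ⟨B', d1, d2, fun ω hω => ?_⟩
      obtain ⟨ν, e1, e2⟩ := d3 ω hω
      refine ⟨ν, fun i => ⟨(e1 i).1, hww _ _ (e1 i).2, ?_⟩, e2⟩
      show j (slam F ⌊W₁ * (J : ℝ)⌋₊ (ν i)) = j (slam F ⌊W₁ * (J : ℝ)⌋₊ ω)
      rw [hwl _ _ (hww _ _ (e1 i).2)]) n7 (by
      refine le_trans ?_ hpow
      exact mul_le_mul hCa (hexC Ca hCa) (Real.exp_pos _).le (by linarith only [hC1]))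
    n1 n2 n3 n4 n5 n6 n7'
  exact ⟨B₁, fun ω hω => a1 ω (a4 ω (b1 ω hω)), by linarith only [a2, a5, b2], sg, tu, b3⟩

end Pool.MIC6
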