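import Pool.Agent.H6.OWN.AflR

/-!
# Affine labels over two coordinates, in a family

`aff_bas`: a closed label of `k` over `κ`, `ι` in a family may be taken affine, with closed
coefficients. `rel_bas`: the coefficients satisfy `a + b * au = av` at the exact points.
-/

set_option autoImplicit false

namespace Pool.MIC6

open Finset MvPolynomial
open Pool.Agent.H49.Ent Pool.Agent.H32.Dense Pool.STK Pool.KA Pool.KSAT Pool.K2S Pool.PB Pool.GEN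
open Pool.FLF (Fam.sub)
open Pool.GRD (LbP)

variable {m n J : ℕ}

/-- Samples with one exact point: the positions. -/
theorem ptr_x (F : Fam m J) {ω ω' : F.Ω} (h : ptr F J ω = ptr F J ω') (j : Fin m) :
    |F.x ω' j - F.x ω j| ≤ 1 / 2 ^ J := by
  have d1 : F.X J ω j = F.X J ω' j := congrFun (Prod.ext_iff.mp h).1 j
  have d2 := fl_eq_near d1
  rw [abs_sub_comm]
  exact d2

/-- Samples with one exact point: the velocities. -/
theorem Dp.two {F : Fam m J} {A : F.Ω → Prop} {κ j : Fin m} {e M : ℕ} {f cf : PtT F → ℝ}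
    (hf : Dp F A κ j e M f cf) {ω ω' : F.Ω} (hω : A ω) (hω' : A ω')
    (h : ptr F J ω = ptr F J ω') :
    |F.d ω' j - F.d ω j - f (ptr F J ω) * (F.d ω' κ - F.d ω κ)| ≤ 2 ^ 0 * (2 / 2 ^ M) := by
  have a1 := (hf ω hω).2.2
  have a2 := (hf ω' hω').2.2
  rw [← h] at a2
  have e1 : F.d ω' j - F.d ω j - f (ptr F J ω) * (F.d ω' κ - F.d ω κ) =
      (F.d ω' j - cf (ptr F J ω) - f (ptr F J ω) * F.d ω' κ) -
      (F.d ω j - cf (ptr F J ω) - f (ptr F J ω) * F.d ω κ) := by ring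
  rw [e1, pow_zero, one_mul]
  have e2 : (2 : ℝ) / 2 ^ M = 1 / 2 ^ M + 1 / 2 ^ M := by ring
  rw [e2]
  exact (abs_sub _ _).trans (add_le_add a2 a1)

/-- **Affine labels over two coordinates in a family.** -/
theorem aff_bas (m K K₂ : ℕ) (hKK : K ≤ K₂) : ∃ C : ℝ, 1 ≤ C ∧ ∀ {J : ℕ} (F : Fam m J)
    (A : F.Ω → Prop) (hA : 0 < Pe F.p A) {κ ι k : Fin m} {e w ρ ρ₂ P₁ P₂ g M N h hh sp d Q : ℕ}
    {au cu av cv : PtT F → ℝ} {J0 : F.Ω → ℝ} {θ : ℝ}, κ ≠ ι →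
    Dp F A κ ι e M au cu → Dp F A κ k e M av cv →
    Lb F {κ, ι} k K e J w ρ P₁ A → Lb F {κ} ι K₂ e J w ρ₂ P₂ A →
    w + 2 ≤ J → ρ + e + 5 ≤ w → 0 ≤ θ →
    (∀ (B₀ : F.Ω → Prop) (hB₀ : 0 < Pe F.p B₀), Sub B₀ A → Pe F.p A / 4 ≤ Pe F.p B₀ →
      (Fam.sub F B₀ hB₀).Tm θ) →
    C * (θ + 1) ≤ ((J : ℝ) - w) * Real.log 2 → w + g + 4 ≤ J →
    (∀ B₀ : F.Ω → Prop, Sub B₀ A → Pe F.p A / 16 < Pe F.p B₀ → Real.log (2 * (K₂ + 2 : ℕ)) <
      CH (Pool.Agent.H49.Ent.cond F.p B₀ True) (fun ω => F.D g ω κ)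
        (ptr F J)) →
    (∀ ω, A ω → |au (ptr F J ω) - J0 ω| ≤ 1 / 2 ^ h) → hh ≤ w + h →
    (∀ B₁ : F.Ω → Prop, Sub B₁ A → Pe F.p A / 16 ≤ Pe F.p B₁ → ∃ B' : F.Ω → Prop, Sub B' B₁ ∧
      Pe F.p B₁ / 2 ≤ Pe F.p B' ∧ ∀ ω, B' ω → ∃ ν : Fin (K + 2) → F.Ω,
        (∀ i, B₁ (ν i) ∧ slam F w (ν i) = slam F w ω ∧
          J0 (ν i) = J0 ω) ∧
          ∀ i j, i ≠ j → 1 / 2 ^ sp ≤ |au (ptr F J (ν i)) - au (ptr F J (ν j))|) →
    w + sp ≤ hh + d → C * Real.exp (C * (θ + 1)) ≤ 2 ^ N →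
    N + g * (K₂ + 1) + (hh + 6) ≤ P₂ → N + g * (K₂ + 1) + e + (hh + 6) ≤ J →
    N + g * (K₂ + 1) + 0 + (hh + 6) ≤ M + w →
    2 * N + (d + g) * (K + 1) + (Q + 6) ≤ P₁ →
    2 * N + (d + g) * (K + 1) + 2 * e + (Q + 6) ≤ J →
    2 * N + (d + g) * (K + 1) + (e + 0) + (Q + 6) ≤ M + w →
    ∃ B' : F.Ω → Prop, Sub B' A ∧ Pe F.p A ≤ 160 * Pe F.p B' ∧
      ∃ (V' : Type) (zp : PtT F → V') (zs : LnT F → V')
        (cf : V' → Fin 4 → ℝ), LbP F {κ, ι} k 1 J (w + 2) Q B' zp zs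
          (fun x => afq κ ι (cf x 0) (cf x 1) (cf x 2) (cf x 3)) ∧
        ∀ ω, B' ω → |cf (zs (slam F (w + 2) ω)) 3| ≤ 2 ^ e ∧
          ∀ σ ∈ Set.Icc (0 : ℝ) 1, |wp F (w + 2) ω σ k -
            eval (wpt F (w + 2) ω σ) (afq κ ι
            (cf (zs (slam F (w + 2) ω)) 0)
            (cf (zs (slam F (w + 2) ω)) 1)
            (cf (zs (slam F (w + 2) ω)) 2)
            (cf (zs (slam F (w + 2) ω)) 3))| ≤ 1 / 2 ^ Q := by
  classical
  obtain ⟨C, hC, haff⟩ := aff_lab m K K₂ hKK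
  refine ⟨C, hC, ?_⟩
  intro J F A hA κ ι k e w ρ ρ₂ P₁ P₂ g M N h hh sp d Q au cu av cv J0 θ hκι hu hv
    hlab hlab₂ hwR hρ hθ hTm hJθ hwg hact hJ0 hhh hnod hd hN n1 n2 n3 n4 n5 n6
  obtain ⟨V₁, z₁, z₁', G₁, h₁⟩ := hlab
  obtain ⟨V₂, z₂, z₂', G₂, h₂⟩ := hlab₂
  have hX : 1 ≤ Real.exp (C * (θ + 1)) := Real.one_le_exp (by positivity)
  have pe : (1 : ℝ) ≤ 2 ^ e := one_le_pow₀ (by norm_num)
  have pM : (0 : ℝ) < 2 ^ M := by positivity
  have hRw2 : (2 : ℝ) / 2 ^ J ≤ 1 / 2 ^ w := by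
    have k1 : (1 : ℝ) / 2 ^ J ≤ 1 / 2 ^ (w + 1) := inv_mono (by omega)
    have k2 : (1 : ℝ) / 2 ^ (w + 1) = 1 / 2 ^ w / 2 := by
      rw [pow_succ]
      field_simp
    have k3 : (2 : ℝ) / 2 ^ J = 2 * (1 / 2 ^ J) := by ring
    rw [k3]
    linarith
  have hPM' : (2 : ℝ) ^ 0 / 2 ^ M ≤ 1 := by
    rw [div_le_one pM]
    exact pow_le_pow_right₀ (by norm_num) (Nat.zero_le _)
  obtain ⟨E₁, hE₁⟩ : ∃ E₁ : ℝ, E₁ = 2 ^ 0 * (2 / 2 ^ M) := ⟨_, rfl⟩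
  have hE₁0 : 0 ≤ E₁ := by rw [hE₁]; positivity
  have hE₁2 : E₁ ≤ 2 := by
    have k1 : E₁ = 2 * (2 ^ 0 / 2 ^ M) := by rw [hE₁]; ring
    rw [k1]
    linarith
  obtain ⟨μ, hμ⟩ : ∃ μ : ℝ, μ = E₁ / 2 ^ w + 2 ^ e * (2 / 2 ^ J) := ⟨_, rfl⟩
  have hμ0 : 0 ≤ μ := by rw [hμ]; positivity
  have hμ1 : μ ≤ 3 * 2 ^ e * (1 / 2 ^ w) := by
    have k1 : E₁ / 2 ^ w ≤ 2 * 2 ^ e * (1 / 2 ^ w) := by
      have k2 : E₁ / 2 ^ w = E₁ * (1 / 2 ^ w) := by ring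
      rw [k2]
      exact mul_le_mul_of_nonneg_right (by linarith) (by positivity)
    have k3 : (2 : ℝ) ^ e * (2 / 2 ^ J) ≤ 2 ^ e * (1 / 2 ^ w) :=
      mul_le_mul_of_nonneg_left hRw2 (by positivity)
    rw [hμ]
    linarith
  have hS : (1 : ℝ) / 2 ^ hh / (1 / 2 ^ sp * (1 / 2 ^ w)) ≤ 2 ^ d := by
    rw [div_le_iff₀ (by positivity)]
    have k1 : (2 : ℝ) ^ d * (1 / 2 ^ sp * (1 / 2 ^ w)) = 2 ^ d / 2 ^ (w + sp) := by
      rw [pow_add]
      field_simp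
    rw [k1, div_le_div_iff₀ (by positivity) (by positivity), one_mul, ← pow_add]
    exact pow_le_pow_right₀ (by norm_num) (by omega)
  have hne : (2 : ℝ) ^ (w + sp) ≠ 0 := by positivity
  exact haff F A hA (κ := κ) (ι := ι) (k := k) (Φ := ptr F J)
    (a := fun ω => av (ptr F J ω)) (Ju := fun ω => au (ptr F J ω)) (J0 := J0)
    (Hb := 16 * 2 ^ e * (1 / 2 ^ w)) (H := 1 / 2 ^ hh) (β := 2 ^ e) (μ := μ) (s := 1 / 2 ^ sp)
    (α := 2 ^ e) (ρ := 1 / 2 ^ g) (s₀ := 1 / 2 ^ J) (err := E₁) (θ := θ) hκι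
    (LbP.of h₁) (LbP.of h₂) hwR hwR hθ hTm hJθ (by positivity) (by
      rw [div_le_one (by positivity)]
      exact one_le_pow₀ (by norm_num)) (by
      have e1 : (1 : ℝ) / 2 ^ g * (1 / 2 ^ w) / 16 = 1 / 2 ^ (w + g + 4) := by
        rw [pow_add, pow_add]
        norm_num
        field_simp
      rw [e1]
      exact inv_mono hwg) (by positivity) hμ0 (by positivity) (by positivity)
    (fun ω hω => by
      have k1 := mul_le_mul_of_nonneg_right (hJ0 ω hω) (by positivity : (0 : ℝ) ≤ 1 / 2 ^ w)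
      refine k1.trans ?_
      have k2 : (1 : ℝ) / 2 ^ h * (1 / 2 ^ w) = 1 / 2 ^ (w + h) := by
        rw [pow_add]
        field_simp
      rw [k2]
      exact inv_mono hhh) (fun ω hω => by
      have h1 : |au (ptr F J ω)| * (3 / 2 ^ w) ≤ 2 ^ e * (3 / 2 ^ w) :=
        mul_le_mul_of_nonneg_right (hu ω hω).1 (by positivity)
      have e4 : (2 : ℝ) ^ e * (3 / 2 ^ w) = 3 * 2 ^ e * (1 / 2 ^ w) := by ring
      have h2 : (0 : ℝ) ≤ 2 ^ e * (1 / 2 ^ w) := by positivity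
      linarith) (fun ω hω σ hσ b hbn hbκ hbι => by
      refine grad_box h₁ (by omega) hρ hω hσ hbn (fun i hi => ?_) ι
      rcases Finset.mem_insert.1 hi with h' | h'
      · rw [h']
        refine hbκ.trans ?_
        have e4 : (3 : ℝ) / 2 ^ w = 3 * (1 / 2 ^ w) := by ring
        rw [e4]
        exact mul_le_mul_of_nonneg_right (by linarith) (by positivity)
      · rw [Finset.mem_singleton.1 h']
        exact hbι) (fun ω ω' hω hω' h' => by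
      have hx := ptr_x F h'
      have hdu := hu.two hω hω' h'
      have hdv := hv.two hω hω' h'
      rw [← hE₁] at hdu hdv
      refine ⟨h', hx κ, hx k, hx ι, hdv, ?_, ?_⟩
      · have k1 : |au (ptr F J ω) * (F.x ω' κ - F.x ω κ)| ≤
            2 ^ e * (1 / 2 ^ J) := by
          rw [abs_mul]
          exact mul_le_mul (hu ω hω).1 (hx κ) (abs_nonneg _) (by positivity)
        have k2 : 1 / 2 ^ J ≤ 2 ^ e * ((1 : ℝ) / 2 ^ J) :=
          le_mul_of_one_le_left (by positivity) pe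
        refine (abs_sub _ _).trans ((add_le_add (hx ι) k1).trans ?_)
        have k3 : (2 : ℝ) ^ e * (2 / 2 ^ J) = 2 * (2 ^ e * (1 / 2 ^ J)) := by
          ring
        have k4 : 0 ≤ E₁ / 2 ^ w := by positivity
        rw [hμ, k3]
        linarith
      · refine hdu.trans ?_
        have k1 : 2 ^ w * μ = E₁ + 2 ^ w * (2 ^ e * (2 / 2 ^ J)) := by
          rw [hμ, mul_add]
          field_simp
        rw [k1]
        have : (0 : ℝ) ≤ 2 ^ w * (2 ^ e * (2 / 2 ^ J)) := by positivity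
        linarith) (fun ω hω => (hv ω hω).1) (fun ω hω => (hu ω hω).1) (by
      intro B₁ hB₁ hPB₁
      have hPB₁' : Pe F.p A / 8 ≤ Pe F.p B₁ := hPB₁
      have hB₁0 : 0 < Pe F.p B₁ := by linarith
      obtain ⟨B', b1, b2, b3⟩ := nod_of (F := F) (K₂ + 2) (B := B₁) hB₁0 (κ := κ)
        (g := g) (Φ := ptr F J) (fun B₀ hB₀ hPB₀ => by
          refine hact B₀ (fun ω hω => hB₁ ω (hB₀ ω hω)) ?_
          have hPB₀' : Pe F.p B₁ / 2 < Pe F.p B₀ := hPB₀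
          linarith)
      exact ⟨B', b1, b2, b3⟩) hnod (by
      rw [hμ, hE₁]
      exact num_a hC hX hN n1 n2 n3) (by
      rw [hμ, hE₁]
      exact num_b hC hX hN (by positivity) hS n4 n5 n6)

/-- **The slopes of an affine label in a family.** -/
theorem rel_bas (m : ℕ) : ∃ C : ℝ, 1 ≤ C ∧ ∀ {J : ℕ} (F : Fam m J)
    (A : F.Ω → Prop) (hA : 0 < Pe F.p A) {κ ι k : Fin m} {e w g M N Q q : ℕ}
    {au cu av cv : PtT F → ℝ} {V' : Type} {zp : PtT F → V'} {zs : LnT F → V'} {cf : V' → Fin 4 → ℝ} {θ : ℝ}, κ ≠ ι →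
    Dp F A κ ι e M au cu → Dp F A κ k e M av cv →
    LbP F {κ, ι} k 1 J w Q A zp zs
      (fun x => afq κ ι (cf x 0) (cf x 1) (cf x 2) (cf x 3)) →
    (∀ ω, A ω → |cf (zs (slam F w ω)) 3| ≤ 2 ^ e) →
    0 ≤ θ → (Fam.sub F A hA).Tm θ →
    C * (θ + 1) ≤ ((J : ℝ) - w) * Real.log 2 → w + g + 4 ≤ J →
    (∀ B₀ : F.Ω → Prop, Sub B₀ A → Pe F.p A / 4 < Pe F.p B₀ → Real.log (2 * (1 + 2 : ℕ)) <
      CH (Pool.Agent.H49.Ent.cond F.p B₀ True) (fun ω => F.D g ω κ)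
        (ptr F J)) → C * Real.exp (C * (θ + 1)) ≤ 2 ^ N →
    N + 2 * g + w + (q + 6) ≤ Q → N + 2 * g + 2 * e + w + (q + 6) ≤ J →
    N + 2 * g + (e + 0) + (q + 6) ≤ M →
    ∃ B' : F.Ω → Prop, Sub B' A ∧ Pe F.p A / 4 ≤ Pe F.p B' ∧ ∀ ω, B' ω →
      |cf (zs (slam F w ω)) 2 + cf (zs (slam F w ω)) 3 *
        au (ptr F J ω) - av (ptr F J ω)| ≤ 1 / 2 ^ q := by
  classical
  obtain ⟨C, hC, htie⟩ := tie_box m 1
  refine ⟨C, hC, ?_⟩
  intro J F A hA κ ι k e w g M N Q q au cu av cv V' zp zs cf θ hκι hu hv hlab hcf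
    hθ hTm hJθ hwg hact hN n1 n2 n3
  have hX : 1 ≤ Real.exp (C * (θ + 1)) := Real.one_le_exp (by positivity)
  have pe : (1 : ℝ) ≤ 2 ^ e := one_le_pow₀ (by norm_num)
  obtain ⟨E₁, hE₁⟩ : ∃ E₁ : ℝ, E₁ = 2 ^ 0 * (2 / 2 ^ M) := ⟨_, rfl⟩
  have hE₁0 : 0 ≤ E₁ := by rw [hE₁]; positivity
  obtain ⟨μ, hμ⟩ : ∃ μ : ℝ, μ = E₁ / 2 ^ w + 2 ^ e * (2 / 2 ^ J) := ⟨_, rfl⟩
  have hμ0 : 0 ≤ μ := by rw [hμ]; positivity
  obtain ⟨sl, hsl⟩ : ∃ sl : F.Ω → Fin m → ℝ, sl = fun ω j =>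
      if j = κ then 1 else au (ptr F J ω) := ⟨_, rfl⟩
  have hslκ : ∀ ω, sl ω κ = 1 := fun ω => by rw [hsl]; exact if_pos rfl
  have hslι : ∀ ω j, j ≠ κ → sl ω j = au (ptr F J ω) := fun ω j h => by
    rw [hsl]; exact if_neg h
  have hsle : ∀ ω, A ω → ∀ j, |sl ω j| ≤ 2 ^ e := by
    intro ω hω j
    by_cases h : j = κ
    · rw [h, hslκ, abs_one]
      exact pe
    · rw [hslι ω j h]
      exact (hu ω hω).1
  have hιe : ({κ, ι} : Finset (Fin m)).erase κ = {ι} := by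
    ext j
    simp only [Finset.mem_erase, Finset.mem_insert, Finset.mem_singleton]
    constructor
    · rintro ⟨h1, h2 | h2⟩
      · exact absurd h2 h1
      · exact h2
    · intro h
      exact ⟨fun h' => hκι (h'.symm.trans h), Or.inr h⟩
  obtain ⟨B', b1, b2, b3⟩ := htie F A hA (I := {κ, ι}) (κ := κ) (k := k)
    (Φ := ptr F J) (a := fun ω => av (ptr F J ω)) (sl := sl)
    (H := fun j => 2 ^ e * (2 / 2 ^ w + 1 / 2 ^ J) + 2 * (if j = κ then 0 else μ))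
    (β := fun _ => 2 ^ e) (μ := fun j => if j = κ then 0 else μ) (α := 2 ^ e) (ρ := 1 / 2 ^ g)
    (s₀ := 1 / 2 ^ J) (err := E₁) (θ := θ) hlab (by omega) hθ hTm hJθ (by positivity)
    (by
      rw [div_le_one (by positivity)]
      exact one_le_pow₀ (by norm_num)) (by
      have e1 : (1 : ℝ) / 2 ^ g * (1 / 2 ^ w) / 16 = 1 / 2 ^ (w + g + 4) := by
        rw [pow_add, pow_add]
        norm_num
        field_simp
      rw [e1]
      exact inv_mono hwg) (fun ω _ => hslκ ω) (fun _ => by positivity) (fun j => by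
      show (0 : ℝ) ≤ if j = κ then 0 else μ
      split_ifs
      · exact le_rfl
      · exact hμ0) (fun ω hω j hj => by
      have := mul_le_mul_of_nonneg_right (hsle ω hω j)
        (by positivity : (0 : ℝ) ≤ 2 / 2 ^ w + 1 / 2 ^ J)
      exact add_le_add this le_rfl) (fun ω hω σ hσ b hbn hb j hj hjκ => by
      have hjι : j = ι := by
        rcases Finset.mem_insert.1 hj with h' | h'
        · exact absurd h' hjκ
        · exact Finset.mem_singleton.1 h'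
      rw [hjι, (pd_afq κ ι hκι _ _ _ _ b).2]
      exact hcf ω hω) (fun ω ω' hω hω' h => by
      have hx := ptr_x F h
      have hdu := hu.two hω hω' h
      have hdv := hv.two hω hω' h
      rw [← hE₁] at hdu hdv
      refine ⟨h, hx κ, hx k, hdv, fun j hj hjκ => ?_⟩
      have hjι : j = ι := by
        rcases Finset.mem_insert.1 hj with h' | h'
        · exact absurd h' hjκ
        · exact Finset.mem_singleton.1 h'
      subst hjι
      show |_ - _ - sl ω j * _| ≤ (if j = κ then 0 else μ) ∧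
        |_ - _ - sl ω j * _| ≤ 2 ^ w * (if j = κ then 0 else μ)
      rw [if_neg hjκ, hslι ω j hjκ]
      refine ⟨?_, ?_⟩
      · have k1 : |au (ptr F J ω) * (F.x ω' κ - F.x ω κ)| ≤
            2 ^ e * (1 / 2 ^ J) := by
          rw [abs_mul]
          exact mul_le_mul (hu ω hω).1 (hx κ) (abs_nonneg _) (by positivity)
        have k2 : 1 / 2 ^ J ≤ 2 ^ e * ((1 : ℝ) / 2 ^ J) :=
          le_mul_of_one_le_left (by positivity) pe
        refine (abs_sub _ _).trans ((add_le_add (hx j) k1).trans ?_)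
        have k3 : (2 : ℝ) ^ e * (2 / 2 ^ J) = 2 * (2 ^ e * (1 / 2 ^ J)) := by
          ring
        have k4 : 0 ≤ E₁ / 2 ^ w := by positivity
        rw [hμ, k3]
        linarith
      · refine hdu.trans ?_
        have k1 : 2 ^ w * μ = E₁ + 2 ^ w * (2 ^ e * (2 / 2 ^ J)) := by
          rw [hμ, mul_add]
          field_simp
        rw [k1]
        have : (0 : ℝ) ≤ 2 ^ w * (2 ^ e * (2 / 2 ^ J)) := by positivity
        linarith) (fun ω hω => (hv ω hω).1) (by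
      intro B₁ hB₁ hPB₁
      have hPB₁' : Pe F.p A / 2 ≤ Pe F.p B₁ := hPB₁
      have hB₁0 : 0 < Pe F.p B₁ := by linarith
      obtain ⟨B', b1, b2, b3⟩ := nod_of (F := F) (1 + 2) (B := B₁) hB₁0 (κ := κ)
        (g := g) (Φ := ptr F J) (fun B₀ hB₀ hPB₀ => by
          refine hact B₀ (fun ω hω => hB₁ ω (hB₀ ω hω)) ?_
          have hPB₀' : Pe F.p B₁ / 2 < Pe F.p B₀ := hPB₀
          linarith)
      exact ⟨B', b1, b2, b3⟩)
  refine ⟨B', b1, b2, fun ω hω => ?_⟩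
  have h1 := (b3 ω hω 0 ⟨le_rfl, zero_le_one⟩).2
  rw [Finset.sum_pair hκι, hslκ, hslι ω ι (Ne.symm hκι), (pd_afq κ ι hκι _ _ _ _ _).1,
    (pd_afq κ ι hκι _ _ _ _ _).2, hιe, Finset.sum_singleton, if_neg (Ne.symm hκι)] at h1
  have e1 : cf (zs (slam F w ω)) 2 + cf (zs (slam F w ω)) 3 *
      au (ptr F J ω) - av (ptr F J ω) = 1 * cf (zs (slam F w ω)) 2 +
      au (ptr F J ω) * cf (zs (slam F w ω)) 3 - av (ptr F J ω) := by ring
  rw [e1]
  refine h1.trans ?_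
  rw [hμ, hE₁]
  exact num_c hC hX hN n1 n2 n3

end Pool.MIC6
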