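import Pool.Agent.H6.OWN.Slp
import Pool.Agent.H71.GEN.Poly

/-!
# Labels over several coordinates, along one direction

`tie_fam`: a label of the coordinate `k` over the coordinates `I`, a function of `Φ` and of the line
in the window. If many lines of one fibre of `Φ` have separated velocities `d κ`, if their other
coordinates of `I` are on lines of slopes `sl` over the coordinate `κ`, and `k` on a line of slope
`a`, then the label is affine with the slope `a` in the direction `sl`. `tie_der`: the slopes of the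
label satisfy the relation `∑ sl j * ∂_j G = a`.
-/

set_option autoImplicit false

namespace Pool.MIC6

open Finset MvPolynomial
open Pool.Agent.H49.Ent Pool.Agent.H32.Dense Pool.STK Pool.KA Pool.KSAT Pool.K2S Pool.PB Pool.GEN
open Pool.FLF (Fam.sub)
open Pool.GRD (LbP)
open Pool.PB.Trl (rt rt_mem t_rt)

variable {n J : ℕ}

/-- The point at the time `t` which is moved from the path by `x` along the slopes. -/
noncomputable def mvp (u d sl : Fin n → ℝ) (t x : ℝ) : Option (Fin n) → ℝ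
  | none => t
  | some j => u j + d j * t + sl j * x

/-- The same, as a polynomial map of the time and of the coordinate `κ`. -/
noncomputable def sbp (κ : Fin n) (u d sl : Fin n → ℝ) :
    Option (Fin n) → MvPolynomial (Option (Fin n)) ℝ
  | none => X none
  | some j => C (u j) + C (d j) * X none +
      C (sl j) * (X (some κ) - (C (u κ) + C (d κ) * X none))

theorem eval_sbp (κ : Fin n) (u d sl : Fin n → ℝ) (t y : ℝ) :
    (fun o => eval (pnt κ t y) (sbp κ u d sl o)) = mvp u d sl t (y - (u κ + d κ * t)) := by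
  funext o
  cases o with
  | none =>
    show eval (pnt κ t y) (X none) = t
    rw [eval_X]
    rfl
  | some j =>
    show eval (pnt κ t y) (C (u j) + C (d j) * X none +
      C (sl j) * (X (some κ) - (C (u κ) + C (d κ) * X none))) = _
    simp only [map_add, map_mul, map_sub, eval_C, eval_X, pnt_none, pnt_some]
    rfl

theorem deg_sbp (κ : Fin n) (u d sl : Fin n → ℝ) (o : Option (Fin n)) :
    (sbp κ u d sl o).totalDegree ≤ 1 := by
  have hX : ∀ (r : ℝ) (o : Option (Fin n)),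
      (C r * X o : MvPolynomial (Option (Fin n)) ℝ).totalDegree ≤ 1 := by
    intro r o
    refine (totalDegree_mul _ _).trans ?_
    rw [totalDegree_C, totalDegree_X]
  have hC : ∀ r : ℝ, (C r : MvPolynomial (Option (Fin n)) ℝ).totalDegree ≤ 1 := fun r => by
    rw [totalDegree_C]
    exact Nat.zero_le _
  cases o with
  | none =>
    show (X none : MvPolynomial (Option (Fin n)) ℝ).totalDegree ≤ 1
    rw [totalDegree_X]
  | some j =>
    refine (totalDegree_add _ _).trans (max_le ((totalDegree_add _ _).trans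
      (max_le (hC _) (hX _ _))) ?_)
    refine (totalDegree_mul _ _).trans ?_
    rw [totalDegree_C, zero_add]
    refine (totalDegree_sub _ _).trans (max_le (totalDegree_X _).le ?_)
    exact (totalDegree_add _ _).trans (max_le (hC _) (hX _ _))

/-- The label along the direction. -/
noncomputable def dlb (κ : Fin n) (u d sl : Fin n → ℝ) (G : MvPolynomial (Option (Fin n)) ℝ) :
    MvPolynomial (Option (Fin n)) ℝ := aeval (sbp κ u d sl) G

theorem eval_dlb (κ : Fin n) (u d sl : Fin n → ℝ) (G : MvPolynomial (Option (Fin n)) ℝ)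
    (t y : ℝ) : eval (pnt κ t y) (dlb κ u d sl G) = eval (mvp u d sl t (y - (u κ + d κ * t))) G := by
  unfold dlb
  rw [eval_aevalσ, eval_sbp]

theorem deg_dlb (κ : Fin n) (u d sl : Fin n → ℝ) {G : MvPolynomial (Option (Fin n)) ℝ} {K : ℕ}
    (hG : G.totalDegree ≤ K) : (dlb κ u d sl G).totalDegree ≤ K :=
  (totalDegree_aevalσ (deg_sbp κ u d sl) hG).trans (one_mul K).le

/-- The time of the window of the sample, at the relative time `σ`. -/
noncomputable def wt (F : Fam n J) (w : ℕ) (ω : F.Ω) (σ : ℝ) : ℝ :=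
  ((slam F w ω).2.2 : ℝ) / 2 ^ w + 1 / 2 ^ w * σ

/-- The position of the line of the sample at the relative time `σ` of the window. -/
noncomputable def wp (F : Fam n J) (w : ℕ) (ω : F.Ω) (σ : ℝ) (j : Fin n) : ℝ :=
  F.u ω j + F.d ω j * wt F w ω σ

theorem wp_eq (F : Fam n J) {w : ℕ} (hw : w ≤ J) (ω : F.Ω) (σ : ℝ) (j : Fin n) :
    wp F w ω σ j = F.x ω j + 1 / 2 ^ w * (σ - rt F w ω) * F.d ω j := by
  have h := lc_pos F hw ω j σ
  rw [lc_some] at h
  exact h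

/-- **Labels along one direction.** -/
theorem tie_fam (n K : ℕ) : ∃ C : ℝ, 1 ≤ C ∧ ∀ {J : ℕ} (F : Fam n J) (A : F.Ω → Prop)
    (hA : 0 < Pe F.p A) {I : Finset (Fin n)} {κ k : Fin n} {r w P : ℕ} {V : Type}
    {z : PtT F → V} {z' : LnT F → V} {G : V → MvPolynomial (Option (Fin n)) ℝ} {U : Type}
    {Φ : F.Ω → U} {a : F.Ω → ℝ} {sl : F.Ω → Fin n → ℝ} {α ρ s₀ err M₂ θ : ℝ},
    LbP F I k K r w P A z z' G → w ≤ J → 0 ≤ θ →
    (Fam.sub F A hA).Tm θ → C * (θ + 1) ≤ ((J : ℝ) - w) * Real.log 2 → 0 < ρ → ρ ≤ 1 →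
    s₀ ≤ ρ * (1 / 2 ^ w) / 16 → 0 ≤ M₂ →
    (∀ ω ω', A ω → A ω' → Φ ω = Φ ω' → ptr F r ω = ptr F r ω' ∧ |F.x ω' κ - F.x ω κ| ≤ s₀ ∧
      |F.x ω' k - F.x ω k| ≤ s₀ ∧ |F.d ω' k - F.d ω k - a ω * (F.d ω' κ - F.d ω κ)| ≤ err) →
    (∀ ω ω', A ω → A ω' → Φ ω = Φ ω' → ∀ σ ∈ Set.Icc (0 : ℝ) 1, ∀ b : Option (Fin n) → ℝ,
      b none = wt F w ω σ → (∀ j ∈ I, b (some j) = wp F w ω' σ j) →
      |eval b (G (z' (slam F w ω))) - eval (mvp (F.u ω) (F.d ω) (sl ω) (wt F w ω σ)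
        (wp F w ω' σ κ - wp F w ω σ κ)) (G (z' (slam F w ω)))| ≤ M₂) →
    (∀ ω, A ω → |a ω| ≤ α) →
    (∀ B : F.Ω → Prop, Sub B A → Pe F.p A / 2 ≤ Pe F.p B → ∃ B' : F.Ω → Prop, Sub B' B ∧
      Pe F.p B / 2 ≤ Pe F.p B' ∧ ∀ ω, B' ω → ∃ ν : Fin (K + 2) → F.Ω,
        (∀ i, B (ν i) ∧ Φ (ν i) = Φ ω) ∧ ∀ i j, i ≠ j → ρ ≤ |F.d (ν i) κ - F.d (ν j) κ|) →
    ∃ B : F.Ω → Prop, Sub B A ∧ Pe F.p A / 4 ≤ Pe F.p B ∧ ∀ ω, B ω →
      ∀ σ ∈ Set.Icc (0 : ℝ) 1, ∀ η : ℝ, |η| ≤ 1 →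
      |eval (mvp (F.u ω) (F.d ω) (sl ω) (wt F w ω σ) (1 / 2 ^ w * η)) (G (z' (slam F w ω))) -
        (wp F w ω σ k + a ω * (1 / 2 ^ w * η))| ≤ C * (1 / ρ) ^ (K + 1) *
        (Real.exp (C * (θ + 1)) / 2 ^ P + M₂ + (1 + α) * s₀ + 1 / 2 ^ w * err) := by
  classical
  obtain ⟨C₁, hC₁, hrem⟩ := Pool.PZ.Zrt.rem_ev (m := n) (K + 1)
  obtain ⟨C₂, hC₂, hslp⟩ := slp_key K
  refine ⟨C₁ + C₂, by linarith, ?_⟩
  intro J F A hA I κ k r w P V z z' G U Φ a sl α ρ s₀ err M₂ θ hL hw hθ hTm hJ hρ hρ1 hs hM₂ hfib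
    hmv ha hnod
  have hS₀ : (0 : ℝ) < 1 / 2 ^ P := by positivity
  obtain ⟨B, hBA, hPB, hB⟩ := hrem J F A hA w (fun s => dv w (fun s _ => G (z' s)) k s)
    (1 / 2 ^ P) θ hw (fun s => natDegree_dv w (fun s _ => hL.deg (z' s)) k s) hS₀ hθ hTm (by
      refine le_trans ?_ hJ
      refine mul_le_mul_of_nonneg_right ?_ (by linarith)
      linarith) (by
      intro ω hω
      show |(dv w (fun s _ => G (z' s)) k (slam F w ω)).eval (rt F w ω)| ≤ _
      rw [eval_dv F hw (fun s _ => G (z' s)) ω k]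
      exact hL.pos ω hω)
  obtain ⟨B', hB'B, hPB', hB'⟩ := hnod B hBA hPB
  refine ⟨B', fun ω hω => hBA ω (hB'B ω hω), by linarith, fun ω hω => ?_⟩
  have hωB := hB'B ω hω
  have hωA := hBA ω hωB
  obtain ⟨ν, hν, hsep⟩ := hB' ω hω
  have hνA : ∀ i, A (ν i) := fun i => hBA _ (hν i).1
  have hf := fun i => hfib ω (ν i) hωA (hνA i) (hν i).2.symm
  have hptr := fun i => (hf i).1
  have hT : ∀ i, F.T (ν i) = F.T ω := fun i =>
    (congrArg (fun p : PtT F => p.2.1) (hptr i)).symm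
  have hT1 : ∀ i, (slam F w (ν i)).2.2 = (slam F w ω).2.2 := by
    intro i
    show F.T (ν i) / 2 ^ (J - w) = F.T ω / 2 ^ (J - w)
    rw [hT i]
  have hrt : ∀ i, rt F w (ν i) = rt F w ω := by
    intro i
    unfold rt
    rw [hT i]
  have hz : ∀ i, z' (slam F w (ν i)) = z' (slam F w ω) := by
    intro i
    rw [← hL.cls _ (hνA i), ← hL.cls _ hωA, hptr i]
  have hwt : ∀ i σ, wt F w (ν i) σ = wt F w ω σ := by
    intro i σ
    unfold wt
    rw [hT1 i]
  obtain ⟨Gz, hGz⟩ : ∃ Gz, Gz = G (z' (slam F w ω)) := ⟨_, rfl⟩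
  have hG : Gz.totalDegree ≤ K := by rw [hGz]; exact hL.deg _
  have hpath : ∀ (ω' : F.Ω) (τ : ℝ) (j : Fin n), rt F w ω' = rt F w ω →
      F.x ω' j + 1 / 2 ^ w * (τ - rt F w ω) * F.d ω' j = wp F w ω' τ j := by
    intro ω' τ j hr
    rw [wp_eq F hw, hr]
  have h1 := hslp (G := dlb κ (F.u ω) (F.d ω) (sl ω) Gz) κ
    (t₀ := ((slam F w ω).2.2 : ℝ) / 2 ^ w)
    (h := 1 / 2 ^ w) (τ₀ := rt F w ω) (ρ := ρ) (s₀ := s₀) (err := err) (α := α)
    (M₁ := Real.exp (C₁ * (θ + 1)) * (1 / 2 ^ P) + M₂) (a := a ω) (y := F.x ω κ) (v := F.x ω k)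
    (d := F.d ω κ) (D := F.d ω k) (y' := fun i => F.x (ν i) κ) (v' := fun i => F.x (ν i) k)
    (d' := fun i => F.d (ν i) κ) (D' := fun i => F.d (ν i) k) (deg_dlb κ _ _ _ hG)
    (by positivity) hρ hs hρ1
    (rt_mem F w ω) (F.dir ω κ) (fun i => F.dir _ κ) (fun i => (hf i).2.1)
    (fun i => (hf i).2.2.1) (fun i => (hf i).2.2.2) (ha ω hωA) hsep ?_
  · intro σ hσ η hη
    have h2 := h1 σ hσ η hη
    rw [hpath ω σ κ rfl, hpath ω σ k rfl, eval_dlb] at h2
    have e1 : wp F w ω σ κ + 1 / 2 ^ w * η - (F.u ω κ + F.d ω κ *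
        (((slam F w ω).2.2 : ℝ) / 2 ^ w + 1 / 2 ^ w * σ)) = 1 / 2 ^ w * η := by
      unfold wp wt
      ring
    rw [e1] at h2
    rw [← hGz]
    refine h2.trans ?_
    have h0 : 0 ≤ s₀ := (abs_nonneg _).trans (hf 0).2.1
    have he : 0 ≤ err := (abs_nonneg _).trans (hf 0).2.2.2
    have hα : 0 ≤ α := (abs_nonneg _).trans (ha ω hωA)
    have h3 : Real.exp (C₁ * (θ + 1)) ≤ Real.exp ((C₁ + C₂) * (θ + 1)) := by
      refine Real.exp_le_exp.2 (mul_le_mul_of_nonneg_right ?_ (by linarith))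
      linarith
    have h4 : Real.exp (C₁ * (θ + 1)) * (1 / 2 ^ P) ≤
        Real.exp ((C₁ + C₂) * (θ + 1)) / 2 ^ P := by
      rw [mul_one_div]
      exact div_le_div_of_nonneg_right h3 (by positivity)
    refine mul_le_mul ?_ (by linarith) (by positivity) (by positivity)
    refine mul_le_mul_of_nonneg_right ?_ (by positivity)
    linarith
  · intro i τ hτ
    have h2 := hB (ν i) (hν i).1 τ hτ
    obtain ⟨b, hb⟩ : ∃ b : Option (Fin n) → ℝ, b = fun o => (lc w (slam F w (ν i)) o).eval τ :=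
      ⟨_, rfl⟩
    have h3 : (dv w (fun s _ => G (z' s)) k (slam F w (ν i))).eval τ =
        wp F w (ν i) τ k - eval b Gz := by
      unfold dv
      rw [Polynomial.eval_sub, Pool.KBX.eval_aeval_poly, lc_pos F hw, ← hb,
        ← hpath (ν i) τ k (hrt i), hrt i]
      show _ - eval _ (G (z' (slam F w (ν i)))) = _
      rw [hz i, ← hGz]
    have h4 : |(dv w (fun s _ => G (z' s)) k (slam F w (ν i))).eval τ| ≤
        Real.exp (C₁ * (θ + 1)) * (1 / 2 ^ P) := h2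
    rw [h3] at h4
    have h5 := hmv ω (ν i) hωA (hνA i) (hν i).2.symm τ hτ b (by
      rw [hb]
      show (lc w (slam F w (ν i)) none).eval τ = _
      rw [lc_none, hT1 i]
      rfl) (by
      intro j _
      rw [hb]
      show (lc w (slam F w (ν i)) (some j)).eval τ = _
      rw [lc_pos F hw, ← hpath (ν i) τ j (hrt i), hrt i])
    rw [← hGz] at h5
    have e1 : F.x (ν i) k + 1 / 2 ^ w * (τ - rt F w ω) * F.d (ν i) k = wp F w (ν i) τ k :=
      hpath (ν i) τ k (hrt i)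
    have e2 : F.x (ν i) κ + 1 / 2 ^ w * (τ - rt F w ω) * F.d (ν i) κ = wp F w (ν i) τ κ :=
      hpath (ν i) τ κ (hrt i)
    show |F.x (ν i) k + 1 / 2 ^ w * (τ - rt F w ω) * F.d (ν i) k -
      eval (pnt κ (((slam F w ω).2.2 : ℝ) / 2 ^ w + 1 / 2 ^ w * τ)
        (F.x (ν i) κ + 1 / 2 ^ w * (τ - rt F w ω) * F.d (ν i) κ))
        (dlb κ (F.u ω) (F.d ω) (sl ω) Gz)| ≤ _
    rw [e1, e2, eval_dlb]
    have e3 : wp F w (ν i) τ κ - (F.u ω κ + F.d ω κ *
        (((slam F w ω).2.2 : ℝ) / 2 ^ w + 1 / 2 ^ w * τ)) =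
        wp F w (ν i) τ κ - wp F w ω τ κ := rfl
    have e4 : ((slam F w ω).2.2 : ℝ) / 2 ^ w + 1 / 2 ^ w * τ = wt F w ω τ := rfl
    rw [e3, e4]
    obtain ⟨q, hq⟩ : ∃ q, q = eval (mvp (F.u ω) (F.d ω) (sl ω) (wt F w ω τ)
      (wp F w (ν i) τ κ - wp F w ω τ κ)) Gz := ⟨_, rfl⟩
    rw [← hq] at h5 ⊢
    have e5 : wp F w (ν i) τ k - q = (wp F w (ν i) τ k - eval b Gz) + (eval b Gz - q) := by ring
    rw [e5]
    exact (abs_add_le _ _).trans (add_le_add h4 h5)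

end Pool.MIC6
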