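import Pool.Agent.H6.OWN.AfcF

/-!
# Affine labels of a zoom without the relation of the slopes

`AfCn`: an affine closed label in the zoom, for all times of the window. `AfGn`: the same in the
coordinates of the family. `AfCn.fam`: the first one implies the second one.
-/

set_option autoImplicit false

namespace Pool.MIC6

open Finset MvPolynomial
open Pool.Agent.H49.Ent Pool.Agent.H32.Dense Pool.STK Pool.KA Pool.KSAT Pool.K2S Pool.PB Pool.GEN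
open Pool.FLF (Fam.sub)
open Pool.GRD (LbP)
open Pool.REX (zm zmV zmV_Z zmV_T zm_T T1_add zm_T1)

variable {m n J : ℕ}

/-- **Affine closed labels in a zoom**, with their codes, without the relation of the slopes. -/
def AfCn (F : Fam m J) {B P : ℕ} (hP : P ≤ J - B) {Y : Type} (yy : F.Ω → Y) (ε : Fin n → Fin m)
    (κ ι k : Fin n) (w Q e : ℕ) (A : F.Ω → Prop) {V : Type}
    (zp : PtT (zmV F hP yy ε) → V) (zs : LnT (zmV F hP yy ε) → V) (cf : V → Fin 4 → ℝ) : Prop :=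
  LbP (zmV F hP yy ε) {κ, ι} k 1 (J - B - P) w Q A zp zs
      (fun x => afq κ ι (cf x 0) (cf x 1) (cf x 2) (cf x 3)) ∧
    ∀ ω, A ω → |cf (zs (slam (zmV F hP yy ε) w ω)) 3| ≤ 2 ^ e ∧
      ∀ σ ∈ Set.Icc (0 : ℝ) 1, |wp (zmV F hP yy ε) w ω σ k -
        eval (wpt (zmV F hP yy ε) w ω σ) (afq κ ι
          (cf (zs (slam (zmV F hP yy ε) w ω)) 0) (cf (zs (slam (zmV F hP yy ε) w ω)) 1)
          (cf (zs (slam (zmV F hP yy ε) w ω)) 2) (cf (zs (slam (zmV F hP yy ε) w ω)) 3))| ≤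
        1 / 2 ^ Q

theorem AfCn.sub {F : Fam m J} {B P : ℕ} {hP : P ≤ J - B} {Y : Type} {yy : F.Ω → Y}
    {ε : Fin n → Fin m} {κ ι k : Fin n} {w Q e : ℕ} {A A' : F.Ω → Prop}
    {V : Type} {zp : PtT (zmV F hP yy ε) → V} {zs : LnT (zmV F hP yy ε) → V}
    {cf : V → Fin 4 → ℝ} (h : AfCn F hP yy ε κ ι k w Q e A zp zs cf) (hA : Sub A' A) :
    AfCn F hP yy ε κ ι k w Q e A' zp zs cf :=
  ⟨h.1.sub hA, fun ω hω => h.2 ω (hA ω hω)⟩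

/-- **Affine closed labels of a zoom, in the coordinates of the family**, with their codes. -/
def AfGn (F : Fam m J) {B P : ℕ} (hP : P ≤ J - B) {Y : Type} (yy : F.Ω → Y) (ε : Fin n → Fin m)
    (κ ι k : Fin n) (w Q e : ℕ) (A : F.Ω → Prop) {V : Type}
    (zp : PtT (zmV F hP yy ε) → V) (zs : LnT (zmV F hP yy ε) → V) (cf : V → Fin 4 → ℝ) : Prop :=
  ∀ ω, A ω →
      zp (ptr (zmV F hP yy ε) (J - B - P) ω) = zs (slam (zmV F hP yy ε) w ω) ∧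
      |cf (zs (slam (zmV F hP yy ε) w ω)) 3| ≤ 2 ^ e ∧
      ∀ σ ∈ Set.Icc (0 : ℝ) 1, |wp F (B + w) ω σ (ε k) -
        eval (wpt F (B + w) ω σ) (afq (ε κ) (ε ι)
          (cf (zs (slam (zmV F hP yy ε) w ω)) 0) (cf (zs (slam (zmV F hP yy ε) w ω)) 1)
          (cf (zs (slam (zmV F hP yy ε) w ω)) 2) (cf (zs (slam (zmV F hP yy ε) w ω)) 3))| ≤
        1 / 2 ^ (B + P + Q)

/-- **The coordinates of the family**, with the codes. -/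
theorem AfCn.fam {F : Fam m J} {B P : ℕ} {hP : P ≤ J - B} {Y : Type} {yy : F.Ω → Y}
    {ε : Fin n → Fin m} {κ ι k : Fin n} {w Q e : ℕ} {A : F.Ω → Prop}
    {V : Type} {zp : PtT (zmV F hP yy ε) → V} {zs : LnT (zmV F hP yy ε) → V}
    {cf : V → Fin 4 → ℝ} (h : AfCn F hP yy ε κ ι k w Q e A zp zs cf) (hB : B ≤ J)
    (hw : w ≤ J - B - P) :
    ∃ (V' : Type) (zp' : PtT (zmV F hP yy ε) → V') (zs' : LnT (zmV F hP yy ε) → V')
      (cF : V' → Fin 4 → ℝ), AfGn F hP yy ε κ ι k w Q e A zp' zs' cF ∧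
      (∀ x, cF (zs' x) 2 = cf (zs x) 2) ∧ ∀ x, cF (zs' x) 3 = cf (zs x) 3 := by
  obtain ⟨h1, h2⟩ := h
  obtain ⟨g, hg⟩ : ∃ g : (zmV F hP yy ε).ζ → Fin n → ℝ, g = fun z j =>
    2 ^ P * ((z.2.2.1.2 (ε j) : ℤ) : ℝ) + ((z.1.1 j : ℤ) : ℝ) := ⟨_, rfl⟩
  obtain ⟨cF, hcF⟩ : ∃ cF : V × (zmV F hP yy ε).ζ → Fin 4 → ℝ, cF = fun x =>
    ![(cf x.1 0 + g x.2 k - cf x.1 2 * g x.2 κ - cf x.1 3 * g x.2 ι - (cf x.1 1 +
        ((x.2.1.2 k : ℤ) : ℝ) - cf x.1 2 * ((x.2.1.2 κ : ℤ) : ℝ) -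
        cf x.1 3 * ((x.2.1.2 ι : ℤ) : ℝ)) * (x.2.2.2.1.1 : ℝ)) / 2 ^ (B + P),
      (cf x.1 1 + ((x.2.1.2 k : ℤ) : ℝ) - cf x.1 2 * ((x.2.1.2 κ : ℤ) : ℝ) -
        cf x.1 3 * ((x.2.1.2 ι : ℤ) : ℝ)) / 2 ^ P, cf x.1 2, cf x.1 3] := ⟨_, rfl⟩
  refine ⟨V × (zmV F hP yy ε).ζ, fun p => (zp p, p.2.2), fun s => (zs s, s.2.1), cF,
    fun ω hω => ?_, fun x => by rw [hcF]; rfl, fun x => by rw [hcF]; rfl⟩
  obtain ⟨k1, k3⟩ := h2 ω hω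
  have hZ : (slam (zmV F hP yy ε) w ω).2.1 = (zmV F hP yy ε).Z ω := rfl
  refine ⟨?_, ?_, fun σ hσ => ?_⟩
  · show (zp (ptr (zmV F hP yy ε) (J - B - P) ω), (zmV F hP yy ε).Z ω) =
      (zs (slam (zmV F hP yy ε) w ω), (zmV F hP yy ε).Z ω)
    rw [h1.cls ω hω]
  · rw [hcF]
    exact k1
  · have k4 := k3 σ hσ
    obtain ⟨c, hc⟩ : ∃ c, c = cf (zs (slam (zmV F hP yy ε) w ω)) := ⟨_, rfl⟩
    rw [← hc, eval_afq] at k4
    have e0 : ∀ i, cF (zs (slam (zmV F hP yy ε) w ω), (slam (zmV F hP yy ε) w ω).2.1) i =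
      (![(c 0 + g ((zmV F hP yy ε).Z ω) k - c 2 * g ((zmV F hP yy ε).Z ω) κ -
        c 3 * g ((zmV F hP yy ε).Z ω) ι - (c 1 +
        (((F.win B).L P ω).2 (ε k) : ℝ) - c 2 * (((F.win B).L P ω).2 (ε κ) : ℝ) -
        c 3 * (((F.win B).L P ω).2 (ε ι) : ℝ)) * (F.T1 B ω : ℝ)) / 2 ^ (B + P),
      (c 1 + (((F.win B).L P ω).2 (ε k) : ℝ) - c 2 * (((F.win B).L P ω).2 (ε κ) : ℝ) -
        c 3 * (((F.win B).L P ω).2 (ε ι) : ℝ)) / 2 ^ P, c 2, c 3] : Fin 4 → ℝ) i := by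
      intro i
      rw [hcF, hc]
      rfl
    have hgj : ∀ j, g ((zmV F hP yy ε).Z ω) j = 2 ^ P * (fl B (F.x1 B ω) (ε j) : ℝ) +
        (((F.win B).L P ω).1 (ε j) : ℝ) := fun j => by rw [hg]; rfl
    show |wp F (B + w) ω σ (ε k) - eval (wpt F (B + w) ω σ) (afq (ε κ) (ε ι)
      (cF (zs (slam (zmV F hP yy ε) w ω), (slam (zmV F hP yy ε) w ω).2.1) 0)
      (cF (zs (slam (zmV F hP yy ε) w ω), (slam (zmV F hP yy ε) w ω).2.1) 1)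
      (cF (zs (slam (zmV F hP yy ε) w ω), (slam (zmV F hP yy ε) w ω).2.1) 2)
      (cF (zs (slam (zmV F hP yy ε) w ω), (slam (zmV F hP yy ε) w ω).2.1) 3))| ≤ _
    rw [e0, e0, e0, e0, eval_afq]
    have n1 : wpt (zmV F hP yy ε) w ω σ none = wt (zmV F hP yy ε) w ω σ := rfl
    have n2 : ∀ j, wpt (zmV F hP yy ε) w ω σ (some j) = wp (zmV F hP yy ε) w ω σ j :=
      fun _ => rfl
    have n3 : wpt F (B + w) ω σ none = wt F (B + w) ω σ := rfl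
    have n4 : ∀ j, wpt F (B + w) ω σ (some j) = wp F (B + w) ω σ j := fun _ => rfl
    rw [n1, n2, n2, zmV_wp F hP yy ε hB hw ω σ k, zmV_wp F hP yy ε hB hw ω σ κ,
      zmV_wp F hP yy ε hB hw ω σ ι, ← hgj, ← hgj, ← hgj, zmV_wt F hP yy ε hB hw ω σ] at k4
    rw [n3, n4, n4]
    show |wp F (B + w) ω σ (ε k) - ((c 0 + g ((zmV F hP yy ε).Z ω) k -
      c 2 * g ((zmV F hP yy ε).Z ω) κ - c 3 * g ((zmV F hP yy ε).Z ω) ι - (c 1 +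
      (((F.win B).L P ω).2 (ε k) : ℝ) - c 2 * (((F.win B).L P ω).2 (ε κ) : ℝ) -
      c 3 * (((F.win B).L P ω).2 (ε ι) : ℝ)) * (F.T1 B ω : ℝ)) / 2 ^ (B + P) +
      ((c 1 + (((F.win B).L P ω).2 (ε k) : ℝ) - c 2 * (((F.win B).L P ω).2 (ε κ) : ℝ) -
        c 3 * (((F.win B).L P ω).2 (ε ι) : ℝ)) / 2 ^ P * wt F (B + w) ω σ +
      (c 2 * wp F (B + w) ω σ (ε κ) + c 3 * wp F (B + w) ω σ (ε ι))))| ≤ _
    have hP2 : (0 : ℝ) < 2 ^ (B + P) := by positivity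
    have e5 : (1 : ℝ) / 2 ^ (B + P + Q) = 1 / 2 ^ Q / 2 ^ (B + P) := by
      rw [pow_add 2 (B + P) Q]
      field_simp
    rw [e5, le_div_iff₀ hP2, ← abs_of_pos hP2, ← abs_mul, abs_of_pos hP2]
    refine le_trans (le_of_eq ?_) k4
    congr 1
    have e6 : (2 : ℝ) ^ (B + P) = 2 ^ B * 2 ^ P := pow_add 2 B P
    rw [e6]
    field_simp
    ring

end Pool.MIC6
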