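import Pool.Agent.H6.OWN.Rel

/-!
# The numbers of the affine labels of a zoom
-/

set_option autoImplicit false

namespace Pool.MIC6

open Pool.REX

variable {m : ℕ}

/-- The numbers of the affine labels fit for large resolutions. -/
theorem aff_fit (v : Vz m) {x w Lz Lu r' q δ γ U U₁ U₂ W₁ W₂ : ℝ} {K K₂ N₀ : ℕ}
    {C C₀ τ : ℝ} (hx : 0 < x) (hδ : 0 < δ) (hδx : 640 * (δ * (K + 1)) ≤ x) (hw : 0 < w)
    (hw1 : w < 1) (hγ : 0 < γ) (hγδ : γ * (K₂ + 1) ≤ δ) (hKK : K ≤ K₂) (hC : 1 ≤ C)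
    (hCτ : C * (C₀ * τ) ≤ δ / 2) (hr0 : 0 ≤ r')
    (hrs : x ≤ (1 - v.b) * (1 - v.p) * (w - r')) (hLz1 : Lz ≤ 1) (hLu1 : Lu ≤ 1) (hq : x ≤ q)
    (hLz : q + x ≤ v.sc Lz - v.p * (1 - v.b) - v.tm w) (hLu : U + v.p * (1 - v.b) ≤ v.sc Lu)
    (hUq : U - v.tm w ≤ q) (hW₁ : v.tm w - δ < W₁) (hW₁' : W₁ < v.tm w) (hW₂ : v.tm w < W₂)
    (hW₂1 : W₂ ≤ 1) (hU₁ : U₁ ≤ U) (hU₂ : U ≤ U₂) (hU₁₂ : U₂ - U₁ ≤ 2 * δ)
    (hUt : 32 * δ ≤ U - v.tm w) :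
    ∃ J₁ : ℕ, ∀ J ≥ J₁, ∀ M : ℕ, ⌊(q + v.p * (1 - v.b) + x) * J⌋₊ ≤ M →
      ((N₀ + ⌊2 * δ * J⌋₊) + ⌊γ * v.R J⌋₊ * (K₂ + 1) +
        (⌊w * v.R J⌋₊ + ⌊(U₁ - W₁ - 16 * δ) * J⌋₊ + 6) ≤ ⌊(Lu - δ) * v.R J⌋₊ ∧
      (N₀ + ⌊2 * δ * J⌋₊) + ⌊γ * v.R J⌋₊ * (K₂ + 1) + ⌊x / 32 * J⌋₊ +
        (⌊w * v.R J⌋₊ + ⌊(U₁ - W₁ - 16 * δ) * J⌋₊ + 6) ≤ v.R J ∧
      (N₀ + ⌊2 * δ * J⌋₊) + ⌊γ * v.R J⌋₊ * (K₂ + 1) + v.P J +
        (⌊w * v.R J⌋₊ + ⌊(U₁ - W₁ - 16 * δ) * J⌋₊ + 6) ≤ M + ⌊w * v.R J⌋₊) ∧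
      (2 * (N₀ + ⌊2 * δ * J⌋₊) + (⌊20 * δ * J⌋₊ + ⌊γ * v.R J⌋₊) * (K + 1) +
        (⌊w * v.R J⌋₊ + ⌊q * J⌋₊ + 6) ≤ ⌊(Lz - x / 32) * v.R J⌋₊ ∧
      2 * (N₀ + ⌊2 * δ * J⌋₊) + (⌊20 * δ * J⌋₊ + ⌊γ * v.R J⌋₊) * (K + 1) + 2 * ⌊x / 32 * J⌋₊ +
        (⌊w * v.R J⌋₊ + ⌊q * J⌋₊ + 6) ≤ v.R J ∧
      2 * (N₀ + ⌊2 * δ * J⌋₊) + (⌊20 * δ * J⌋₊ + ⌊γ * v.R J⌋₊) * (K + 1) +
        (⌊x / 32 * J⌋₊ + v.P J) + (⌊w * v.R J⌋₊ + ⌊q * J⌋₊ + 6) ≤ M + ⌊w * v.R J⌋₊) ∧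
      (⌊w * v.R J⌋₊ + ⌊(U₂ - W₂ + δ) * J⌋₊ ≤
        ⌊w * v.R J⌋₊ + ⌊(U₁ - W₁ - 16 * δ) * J⌋₊ + ⌊20 * δ * J⌋₊ ∧
      ⌊(r' + x / 32) * v.R J⌋₊ + ⌊x / 32 * J⌋₊ + 5 ≤ ⌊w * v.R J⌋₊ ∧ v.P J ≤ M ∧
      ⌊w * v.R J⌋₊ + 2 + ⌊γ * v.R J⌋₊ + 4 ≤ v.R J ∧
      C * (C₀ * τ * J + 1) ≤ (((v.R J : ℕ) : ℝ) - (⌊w * v.R J⌋₊ + 2 : ℕ)) * Real.log 2) ∧
      ((N₀ + ⌊2 * δ * J⌋₊) + 2 * ⌊γ * v.R J⌋₊ + (⌊w * v.R J⌋₊ + 2) + (⌊(q - x) * J⌋₊ + 6) ≤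
        ⌊w * v.R J⌋₊ + ⌊q * J⌋₊ ∧
      (N₀ + ⌊2 * δ * J⌋₊) + 2 * ⌊γ * v.R J⌋₊ + 2 * ⌊x / 32 * J⌋₊ + (⌊w * v.R J⌋₊ + 2) +
        (⌊(q - x) * J⌋₊ + 6) ≤ v.R J ∧
      (N₀ + ⌊2 * δ * J⌋₊) + 2 * ⌊γ * v.R J⌋₊ + (⌊x / 32 * J⌋₊ + v.P J) +
        (⌊(q - x) * J⌋₊ + 6) ≤ M) ∧
      (v.B J + ⌊w * v.R J⌋₊ ≤ ⌊W₂ * J⌋₊ ∧ ⌊W₂ * J⌋₊ ≤ J ∧
        ⌊W₁ * J⌋₊ ≤ v.B J + ⌊w * v.R J⌋₊ ∧ (N₀ + 4 * C + 40 : ℝ) ≤ δ * J) := by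
  have hb := v.b0
  have hb1 := v.b1
  have hp := v.p0
  have hp1 := v.p1
  obtain ⟨c, hc⟩ : ∃ c, c = (1 - v.b) * (1 - v.p) := ⟨_, rfl⟩
  have hc0 : 0 < c := by rw [hc]; exact mul_pos (by linarith) (by linarith)
  have hc1 : c ≤ 1 := by
    rw [hc]
    exact mul_le_one₀ (by linarith) (by linarith) (by linarith)
  obtain ⟨t, ht⟩ : ∃ t, t = v.tm w := ⟨_, rfl⟩
  have htm : t = v.b + c * w := by rw [ht, hc]; rfl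
  obtain ⟨π, hπ⟩ : ∃ π, π = v.p * (1 - v.b) := ⟨_, rfl⟩
  have hπ0 : 0 ≤ π := by rw [hπ]; exact mul_nonneg hp (by linarith)
  have hcπ : v.b + π + c = 1 := by rw [hπ, hc]; ring
  have hscz : v.sc Lz = v.b + π + c * Lz := by
    rw [hc, hπ]
    unfold Vz.sc
    ring
  have hscu : v.sc Lu = v.b + π + c * Lu := by
    rw [hc, hπ]
    unfold Vz.sc
    ring
  rw [hscz, ← hπ, ← ht] at hLz
  rw [hscu, ← hπ] at hLu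
  rw [← ht] at hUq hW₁ hW₁' hW₂ hUt
  rw [← hc] at hrs
  have hK0 : (0 : ℝ) ≤ K := Nat.cast_nonneg K
  have hK20 : (0 : ℝ) ≤ K₂ := Nat.cast_nonneg K₂
  have hKK' : (K : ℝ) ≤ K₂ := by exact_mod_cast hKK
  have hδ1 : 640 * δ ≤ x := by
    have : δ * 1 ≤ δ * (K + 1) := mul_le_mul_of_nonneg_left (by linarith) hδ.le
    linarith
  have hγK : γ * (K + 1) ≤ δ := by
    have : γ * (K + 1) ≤ γ * (K₂ + 1) := mul_le_mul_of_nonneg_left (by linarith) hγ.le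
    linarith
  have hγ1 : γ ≤ δ := by
    have : γ * 1 ≤ γ * (K + 1) := mul_le_mul_of_nonneg_left (by linarith) hγ.le
    linarith
  -- the gaps
  have hLzw : q + x ≤ c * (Lz - w) := by linarith
  have hLuw : U - t ≤ c * (Lu - w) := by linarith
  have hLzw0 : 0 < Lz - w := by
    by_contra h
    push Not at h
    have : c * (Lz - w) ≤ 0 := mul_nonpos_of_nonneg_of_nonpos hc0.le h
    linarith
  have hLuw0 : 0 < Lu - w := by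
    by_contra h
    push Not at h
    have : c * (Lu - w) ≤ 0 := mul_nonpos_of_nonneg_of_nonpos hc0.le h
    linarith
  have hcw : q + x ≤ c * (1 - w) := by
    have : c * (Lz - w) ≤ c * (1 - w) := mul_le_mul_of_nonneg_left (by linarith) hc0.le
    linarith
  have hwr0 : 0 < w - r' := by
    by_contra h
    push Not at h
    have : c * (w - r') ≤ 0 := mul_nonpos_of_nonneg_of_nonpos hc0.le h
    linarith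
  obtain ⟨y, hy⟩ : ∃ y, y = min δ (min (t - W₁) (W₂ - t)) := ⟨_, rfl⟩
  have hy0 : 0 < y := by rw [hy]; exact lt_min hδ (lt_min (by linarith) (by linarith))
  have hy1 : y ≤ δ := by rw [hy]; exact min_le_left _ _
  have hy2 : y ≤ t - W₁ := by rw [hy]; exact (min_le_right _ _).trans (min_le_left _ _)
  have hy3 : y ≤ W₂ - t := by rw [hy]; exact (min_le_right _ _).trans (min_le_right _ _)
  obtain ⟨J₁, hJ₁⟩ := exists_nat_ge ((2 * N₀ + 4 * C + 60 : ℝ) / y)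
  refine ⟨J₁, fun J hJ M hM => ?_⟩
  have hJr : (J₁ : ℝ) ≤ J := by exact_mod_cast hJ
  have hJ0 : (0 : ℝ) ≤ J := Nat.cast_nonneg J
  have hN0 : (0 : ℝ) ≤ N₀ := Nat.cast_nonneg N₀
  have hyJ : (2 * N₀ + 4 * C + 60 : ℝ) ≤ y * J := by
    have h1 := hJ₁.trans hJr
    rw [div_le_iff₀ hy0] at h1
    linarith
  have q1 : y * J ≤ δ * J := mul_le_mul_of_nonneg_right hy1 hJ0
  have q2 : y * J ≤ (t - W₁) * J := mul_le_mul_of_nonneg_right hy2 hJ0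
  have q3 : y * J ≤ (W₂ - t) * J := mul_le_mul_of_nonneg_right hy3 hJ0
  have q4 : 640 * (δ * J) ≤ x * J := by
    have := mul_le_mul_of_nonneg_right hδ1 hJ0
    linarith only [this]
  obtain ⟨b1, b2, b3, b4, b5⟩ := vz_real v J
  rw [← hπ] at b3 hM
  rw [← hc] at b4 b5
  obtain ⟨R, hR⟩ : ∃ R, R = v.R J := ⟨_, rfl⟩
  rw [← hR] at b4 b5 ⊢
  have hR0 : (0 : ℝ) ≤ R := Nat.cast_nonneg R
  have hRJ : (R : ℝ) ≤ J := by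
    have : R ≤ J := by
      rw [hR]
      unfold Vz.R
      omega
    exact_mod_cast this
  -- the floors
  have f1 : (⌊w * (R : ℝ)⌋₊ : ℝ) ≤ w * R := Nat.floor_le (by positivity)
  have f1' : w * (R : ℝ) - 1 < ⌊w * (R : ℝ)⌋₊ := Nat.sub_one_lt_floor _
  have f2 : (⌊q * (J : ℝ)⌋₊ : ℝ) ≤ q * J := Nat.floor_le (mul_nonneg (by linarith) hJ0)
  have f2' : q * (J : ℝ) - 1 < ⌊q * (J : ℝ)⌋₊ := Nat.sub_one_lt_floor _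
  have f3 : (⌊2 * δ * (J : ℝ)⌋₊ : ℝ) ≤ 2 * δ * J := Nat.floor_le (by positivity)
  have f4 : (⌊γ * (R : ℝ)⌋₊ : ℝ) ≤ γ * R := Nat.floor_le (by positivity)
  have f5 : (⌊x / 32 * (J : ℝ)⌋₊ : ℝ) ≤ x / 32 * J := Nat.floor_le (by positivity)
  have f6 : (⌊(r' + x / 32) * (R : ℝ)⌋₊ : ℝ) ≤ (r' + x / 32) * R := Nat.floor_le (by positivity)
  have f7 : (Lz - x / 32) * (R : ℝ) - 1 < ⌊(Lz - x / 32) * (R : ℝ)⌋₊ := Nat.sub_one_lt_floor _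
  have f8 : (Lu - δ) * (R : ℝ) - 1 < ⌊(Lu - δ) * (R : ℝ)⌋₊ := Nat.sub_one_lt_floor _
  have f9 : (q + π + x) * (J : ℝ) - 1 < ⌊(q + π + x) * (J : ℝ)⌋₊ := Nat.sub_one_lt_floor _
  have f10 : (⌊(q + π + x) * (J : ℝ)⌋₊ : ℝ) ≤ M := by exact_mod_cast hM
  have f11 : (⌊(U₁ - W₁ - 16 * δ) * (J : ℝ)⌋₊ : ℝ) ≤ (U₁ - W₁ - 16 * δ) * J :=
    Nat.floor_le (mul_nonneg (by linarith) hJ0)
  have f11' : (U₁ - W₁ - 16 * δ) * (J : ℝ) - 1 < ⌊(U₁ - W₁ - 16 * δ) * (J : ℝ)⌋₊ :=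
    Nat.sub_one_lt_floor _
  have f12' : 20 * δ * (J : ℝ) - 1 < ⌊20 * δ * (J : ℝ)⌋₊ := Nat.sub_one_lt_floor _
  have f12 : (⌊20 * δ * (J : ℝ)⌋₊ : ℝ) ≤ 20 * δ * J := Nat.floor_le (by positivity)
  have f14 : (⌊(q - x) * (J : ℝ)⌋₊ : ℝ) ≤ (q - x) * J :=
    Nat.floor_le (mul_nonneg (by linarith) hJ0)
  have f15 : W₂ * (J : ℝ) - 1 < ⌊W₂ * (J : ℝ)⌋₊ := Nat.sub_one_lt_floor _
  -- products
  have g1 : (⌊γ * (R : ℝ)⌋₊ : ℝ) * (K₂ + 1) ≤ δ * J := by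
    have a1 : (⌊γ * (R : ℝ)⌋₊ : ℝ) * (K₂ + 1) ≤ γ * R * (K₂ + 1) :=
      mul_le_mul_of_nonneg_right f4 (by linarith)
    have a2 : γ * (R : ℝ) * (K₂ + 1) = γ * (K₂ + 1) * R := by ring
    have a3 : γ * (K₂ + 1) * (R : ℝ) ≤ δ * J := mul_le_mul hγδ hRJ hR0 hδ.le
    linarith
  have g2 : ((⌊20 * δ * (J : ℝ)⌋₊ : ℝ) + ⌊γ * (R : ℝ)⌋₊) * (K + 1) ≤ x / 32 * J + δ * J := by
    have a1 : (⌊20 * δ * (J : ℝ)⌋₊ : ℝ) * (K + 1) ≤ 20 * δ * J * (K + 1) :=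
      mul_le_mul_of_nonneg_right f12 (by linarith)
    have a2 : (⌊γ * (R : ℝ)⌋₊ : ℝ) * (K + 1) ≤ γ * R * (K + 1) :=
      mul_le_mul_of_nonneg_right f4 (by linarith)
    have a3 : γ * (R : ℝ) * (K + 1) = γ * (K + 1) * R := by ring
    have a4 : γ * (K + 1) * (R : ℝ) ≤ δ * J := mul_le_mul hγK hRJ hR0 hδ.le
    have a5 : 20 * δ * (J : ℝ) * (K + 1) = (640 * (δ * (K + 1))) / 32 * J := by ring
    have a6 : (640 * (δ * (K + 1))) / 32 * (J : ℝ) ≤ x / 32 * J :=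
      mul_le_mul_of_nonneg_right (by linarith) hJ0
    linarith
  have g3 : γ * (R : ℝ) ≤ δ * J := mul_le_mul hγ1 hRJ hR0 hδ.le
  have g4 : (q + x) * J ≤ c * (Lz - w) * J := mul_le_mul_of_nonneg_right hLzw hJ0
  have g5 : (U - t) * J ≤ c * (Lu - w) * J := mul_le_mul_of_nonneg_right hLuw hJ0
  have g6 : (q + x) * J ≤ c * (1 - w) * J := mul_le_mul_of_nonneg_right hcw hJ0
  have g7 : (Lz - w) * (c * J - 1) ≤ (Lz - w) * R := mul_le_mul_of_nonneg_left b4 hLzw0.le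
  have g8 : (Lu - w) * (c * J - 1) ≤ (Lu - w) * R := mul_le_mul_of_nonneg_left b4 hLuw0.le
  have g9 : (1 - w) * (c * J - 1) ≤ (1 - w) * R := mul_le_mul_of_nonneg_left b4 (by linarith)
  have g10 : (w - r') * (c * J - 1) ≤ (w - r') * R := mul_le_mul_of_nonneg_left b4 hwr0.le
  have g11 : x * J ≤ c * (w - r') * J := mul_le_mul_of_nonneg_right hrs hJ0
  have g12 : x / 32 * (R : ℝ) ≤ x / 32 * J := mul_le_mul_of_nonneg_left hRJ (by positivity)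
  have g13 : δ * (R : ℝ) ≤ δ * J := mul_le_mul_of_nonneg_left hRJ hδ.le
  have g14 : w * (c * J - 1) ≤ w * R := mul_le_mul_of_nonneg_left b4 hw.le
  have g15 : w * (R : ℝ) ≤ w * (c * J + 2) := mul_le_mul_of_nonneg_left b5 hw.le
  have g16 : (U₁ - W₁) * J ≤ (U - t) * J + δ * J := by
    have := mul_le_mul_of_nonneg_right (by linarith : U₁ - W₁ ≤ U - t + δ) hJ0
    linarith only [this]
  have g17 : (U - t) * J ≤ q * J := mul_le_mul_of_nonneg_right hUq hJ0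
  have g18 : (U₂ - U₁) * J ≤ 2 * δ * J := mul_le_mul_of_nonneg_right hU₁₂ hJ0
  have g19 : (W₁ : ℝ) * J ≤ W₂ * J := mul_le_mul_of_nonneg_right (by linarith) hJ0
  have l2 := Real.log_two_gt_d9
  have hsp : (⌊(U₂ - W₂ + δ) * (J : ℝ)⌋₊ : ℝ) ≤
      (⌊(U₁ - W₁ - 16 * δ) * (J : ℝ)⌋₊ : ℝ) + ⌊20 * δ * (J : ℝ)⌋₊ := by
    rcases le_or_gt 0 ((U₂ - W₂ + δ) * (J : ℝ)) with h | h
    · have f13 : (⌊(U₂ - W₂ + δ) * (J : ℝ)⌋₊ : ℝ) ≤ (U₂ - W₂ + δ) * J := Nat.floor_le h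
      linarith only [f13, f11', f12', g18, g19, q1, hyJ, hC, hN0]
    · rw [Nat.floor_of_nonpos h.le]
      push_cast
      positivity
  refine ⟨⟨?_, ?_, ?_⟩, ⟨?_, ?_, ?_⟩, ⟨?_, ?_, ?_, ?_, ?_⟩, ⟨?_, ?_, ?_⟩, ⟨?_, ?_, ?_, ?_⟩⟩
  · rw [← Nat.cast_le (α := ℝ)]
    push_cast
    linarith only [f1, f3, f8, f11, g1, g5, g8, g13, g16, q1, hyJ, hC, hN0, hLu1, hw]
  · rw [← Nat.cast_le (α := ℝ)]
    push_cast
    linarith only [f1, f3, f5, f11, g1, g6, g9, g16, g17, q1, q4, hyJ, hC, hN0, hw]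
  · rw [← Nat.cast_le (α := ℝ)]
    push_cast
    linarith only [f3, f9, f10, f11, g1, g16, g17, q1, q4, hyJ, hC, hN0, b3]
  · rw [← Nat.cast_le (α := ℝ)]
    push_cast
    linarith only [f1, f2, f3, f7, g2, g4, g7, g12, q1, q4, hyJ, hC, hN0, hLz1, hw]
  · rw [← Nat.cast_le (α := ℝ)]
    push_cast
    linarith only [f1, f2, f3, f5, g2, g6, g9, q1, q4, hyJ, hC, hN0, hw]
  · rw [← Nat.cast_le (α := ℝ)]
    push_cast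
    linarith only [f2, f3, f5, f9, f10, g2, q1, q4, hyJ, hC, hN0, b3]
  · rw [← Nat.cast_le (α := ℝ)]
    push_cast
    linarith only [hsp]
  · rw [← Nat.cast_le (α := ℝ)]
    push_cast
    linarith only [f1', f5, f6, g10, g11, g12, q1, q4, hyJ, hC, hN0, hw1, hr0]
  · rw [← Nat.cast_le (α := ℝ)]
    have h0 : 0 ≤ q * (J : ℝ) := mul_nonneg (by linarith) hJ0
    linarith only [f9, f10, b3, q1, q4, hyJ, hC, hN0, h0]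
  · rw [← Nat.cast_le (α := ℝ)]
    push_cast
    have h0 : 0 ≤ q * (J : ℝ) := mul_nonneg (by linarith) hJ0
    linarith only [f1, f4, g3, g6, g9, q1, q4, hyJ, hC, hN0, hw, h0]
  · have h0 : 0 ≤ q * (J : ℝ) := mul_nonneg (by linarith) hJ0
    have h1 : (q + x) * J - 4 ≤ (R : ℝ) - (⌊w * (R : ℝ)⌋₊ + 2 : ℕ) := by
      push_cast
      linarith only [f1, g6, g9, hw]
    have h2 : 0 ≤ (q + x) * J - 4 := by linarith only [h0, q1, q4, hyJ, hC, hN0]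
    have h3 : ((q + x) * J - 4) * (1 / 2) ≤
        ((R : ℝ) - (⌊w * (R : ℝ)⌋₊ + 2 : ℕ)) * Real.log 2 :=
      mul_le_mul h1 (by linarith only [l2]) (by norm_num) (h2.trans h1)
    have h4 : C * (C₀ * τ * J) ≤ δ / 2 * J := by
      calc C * (C₀ * τ * J) = C * (C₀ * τ) * J := by ring
        _ ≤ δ / 2 * J := mul_le_mul_of_nonneg_right hCτ hJ0
    linarith only [h3, h4, h0, q1, q4, hyJ, hC, hN0]
  · rw [← Nat.cast_le (α := ℝ)]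
    push_cast
    linarith only [f2', f3, f4, f14, g3, q1, q4, hyJ, hC, hN0]
  · rw [← Nat.cast_le (α := ℝ)]
    push_cast
    linarith only [f1, f3, f4, f5, f14, g3, g6, g9, q1, q4, hyJ, hC, hN0, hw]
  · rw [← Nat.cast_le (α := ℝ)]
    push_cast
    linarith only [f3, f4, f5, f9, f10, f14, g3, q1, q4, hyJ, hC, hN0, b3]
  · rw [← Nat.cast_le (α := ℝ)]
    push_cast
    have e1 : t * (J : ℝ) = v.b * J + c * w * J := by rw [htm]; ring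
    linarith only [f1, f15, g15, b2, q3, e1, hyJ, hC, hN0, hw1]
  · refine Nat.floor_le_of_le ?_
    exact mul_le_of_le_one_left hJ0 hW₂1
  · refine Nat.floor_le_of_le ?_
    push_cast
    have e1 : t * (J : ℝ) = v.b * J + c * w * J := by rw [htm]; ring
    linarith only [f1', g14, b1, q2, e1, hyJ, hC, hN0, hw1]
  · linarith only [q1, hyJ, hN0]

end Pool.MIC6
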