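import Pool.Agent.H6.OWN.TieB

/-!
# Labels over two coordinates are affine

`aff_det`: a polynomial in the time and two coordinates which is near to affine functions on
separated lines of the plane, with slopes which are values of one affine function, is near to an
affine function.
-/

set_option autoImplicit false

namespace Pool.MIC6

open Finset MvPolynomial
open Pool.Agent.H49.Ent Pool.Agent.H32.Dense Pool.STK Pool.KA Pool.KSAT Pool.K2S Pool.PB Pool.GEN
open Pool.FLF (Fam.sub)
open Pool.GRD (LbP)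

variable {n J : ℕ}

/-- The point with the time `t` and the coordinates `y`, `x`. -/
noncomputable def bpt (κ ι : Fin n) (t y x : ℝ) : Option (Fin n) → ℝ
  | none => t
  | some i => if i = κ then y else if i = ι then x else 0

/-- The curve of the time and of two coordinates. -/
noncomputable def pli2 (κ ι : Fin n) (p q r : Polynomial ℝ) : Option (Fin n) → Polynomial ℝ
  | none => p
  | some i => if i = κ then q else if i = ι then r else 0

theorem eval_pli2 (κ ι : Fin n) (p q r : Polynomial ℝ) (x : ℝ) :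
    (fun o => (pli2 κ ι p q r o).eval x) = bpt κ ι (p.eval x) (q.eval x) (r.eval x) := by
  funext o
  cases o with
  | none => rfl
  | some i =>
    show (if i = κ then q else if i = ι then r else 0 : Polynomial ℝ).eval x =
      if i = κ then q.eval x else if i = ι then r.eval x else 0
    split_ifs
    · rfl
    · rfl
    · exact Polynomial.eval_zero

theorem natDegree_pli2 (κ ι : Fin n) {p q r : Polynomial ℝ} (hp : p.natDegree ≤ 1)
    (hq : q.natDegree ≤ 1) (hr : r.natDegree ≤ 1) (o : Option (Fin n)) :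
    (pli2 κ ι p q r o).natDegree ≤ 1 := by
  cases o with
  | none => exact hp
  | some i =>
    show (if i = κ then q else if i = ι then r else 0 : Polynomial ℝ).natDegree ≤ 1
    split_ifs
    · exact hq
    · exact hr
    · rw [Polynomial.natDegree_zero]
      exact Nat.zero_le _

/-- The difference of a polynomial on a curve and an affine function. -/
noncomputable def dvq (κ ι : Fin n) (G : MvPolynomial (Option (Fin n)) ℝ)
    (p q r e : Polynomial ℝ) : Polynomial ℝ := aeval (pli2 κ ι p q r) G - e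

theorem natDegree_dvq (κ ι : Fin n) {G : MvPolynomial (Option (Fin n)) ℝ} {K : ℕ}
    (hG : G.totalDegree ≤ K) {p q r e : Polynomial ℝ} (hp : p.natDegree ≤ 1)
    (hq : q.natDegree ≤ 1) (hr : r.natDegree ≤ 1) (he : e.natDegree ≤ 1) :
    (dvq κ ι G p q r e).natDegree ≤ K + 1 := by
  unfold dvq
  refine (Polynomial.natDegree_sub_le _ _).trans (max_le ?_ (he.trans (by omega)))
  exact (Pool.KBX.natDegree_aeval_le _ _ (natDegree_pli2 κ ι hp hq hr) hG).trans (by omega)

theorem eval_dvq (κ ι : Fin n) (G : MvPolynomial (Option (Fin n)) ℝ) (p q r e : Polynomial ℝ)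
    (x : ℝ) : (dvq κ ι G p q r e).eval x =
      eval (bpt κ ι (p.eval x) (q.eval x) (r.eval x)) G - e.eval x := by
  unfold dvq
  rw [Polynomial.eval_sub, Pool.KBX.eval_aeval_poly, eval_pli2]

/-- **A polynomial in the time and two coordinates** which is near to affine functions on
separated lines of the plane. -/
theorem aff_det (K : ℕ) {R : ℝ} (hR : 1 ≤ R) : ∃ C : ℝ, 1 ≤ C ∧ ∀ {n : ℕ} {G : MvPolynomial (Option (Fin n)) ℝ}
    (κ ι : Fin n) {t y x v a b c h H s S : ℝ} {Js al : Fin (K + 2) → ℝ},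
    G.totalDegree ≤ K → 0 < h → 0 < H → 0 < s → (∀ i, |Js i - c| * h ≤ H) →
    (∀ i j, i ≠ j → s ≤ |Js i - Js j|) →
    (∀ i, ∀ η : ℝ, |η| ≤ 1 →
      |eval (bpt κ ι t (y + h * η) (x + Js i * (h * η))) G - (v + al i * (h * η))| ≤ S) →
    (∀ i, |a + b * Js i - al i| * h ≤ S) →
    ∀ η ξ : ℝ, |η| ≤ R → |ξ| ≤ R →
      |eval (bpt κ ι t (y + h * η) (x + c * (h * η) + H * ξ)) G -
        (v + a * (h * η) + b * (c * (h * η) + H * ξ))| ≤ C * (H / (s * h)) ^ (K + 1) * S := by
  obtain ⟨C₁, hC₁, hlag⟩ := Pool.UNJ.lag1 (K + 1) (2 * (R + 1))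
  refine ⟨C₁ * ((K + 2) * 2 * (2 * (R + 1)) ^ (K + 1)), ?_, ?_⟩
  · have h1 : (1 : ℝ) ≤ (2 * (R + 1)) ^ (K + 1) := one_le_pow₀ (by linarith)
    have h2 : (1 : ℝ) ≤ (K + 2) * 2 := by
      have : (0 : ℝ) ≤ K := Nat.cast_nonneg K
      linarith
    exact one_le_mul_of_one_le_of_one_le hC₁ (one_le_mul_of_one_le_of_one_le h2 h1)
  intro n G κ ι t y x v a b c h H s S Js al hG hh hH hs hJH hsep hval hrel η ξ hη hξ
  have hS0 : 0 ≤ S := (mul_nonneg (abs_nonneg _) hh.le).trans (hrel 0)
  obtain ⟨Q, hQ⟩ : ∃ Q : ℝ, Q = (K + 2) * 2 * (2 * (R + 1)) ^ (K + 1) *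
    (H / (s * h)) ^ (K + 1) * S := ⟨_, rfl⟩
  have eQ : C₁ * ((K + 2) * 2 * (2 * (R + 1)) ^ (K + 1)) * (H / (s * h)) ^ (K + 1) * S =
      C₁ * Q := by
    rw [hQ]
    ring
  rw [eQ]
  -- the bound at the displacements which are not small
  have key : ∀ τ : ℝ, 1 / 2 ≤ τ → τ ≤ 1 →
      |eval (bpt κ ι t (y + h * τ) (x + c * (h * τ) + H * ξ)) G -
        (v + a * (h * τ) + b * (c * (h * τ) + H * ξ))| ≤ Q := by
    intro τ hτ hτ1
    have h1 := lagr_fin (D := K + 1) (dvq κ ι G (aff t 0) (aff (y + h * τ) 0)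
      (aff (x + c * (h * τ)) 1) (aff (v + a * (h * τ) + b * (c * (h * τ))) b))
      (natDegree_dvq κ ι hG (natDegree_aff _ _) (natDegree_aff _ _)
      (natDegree_aff _ _) (natDegree_aff _ _)) (fun i => (Js i - c) * (h * τ)) (M := 2 * S)
      (B := (R + 1) * H) (L := 2 / (s * h)) (s := H * ξ) (by positivity) (by positivity) ?_ ?_ ?_
    · rw [eval_dvq, eval_aff, eval_aff, eval_aff, eval_aff] at h1
      simp only [zero_mul, add_zero, one_mul] at h1
      have e0 : v + a * (h * τ) + b * (c * (h * τ)) + b * (H * ξ) =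
        v + a * (h * τ) + b * (c * (h * τ) + H * ξ) := by ring
      rw [e0] at h1
      refine h1.trans (le_of_eq ?_)
      rw [hQ]
      have e1 : (R + 1) * H * (2 / (s * h)) = 2 * (R + 1) * (H / (s * h)) := by ring
      rw [e1, mul_pow]
      push_cast
      ring
    · intro i j hij
      have e1 : (1 : ℝ) / (2 / (s * h)) = s * h / 2 := by rw [one_div_div]
      rw [e1]
      show s * h / 2 ≤ |(Js i - c) * (h * τ) - (Js j - c) * (h * τ)|
      rw [← sub_mul, sub_sub_sub_cancel_right, abs_mul, abs_of_pos (mul_pos hh (by linarith))]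
      have h2 := mul_le_mul (hsep i j hij) (mul_le_mul_of_nonneg_left hτ hh.le)
        (by positivity) (abs_nonneg _)
      have e2 : s * (h * (1 / 2)) = s * h / 2 := by ring
      rwa [e2] at h2
    · intro i
      show |H * ξ - (Js i - c) * (h * τ)| ≤ (R + 1) * H
      refine (abs_sub _ _).trans ?_
      rw [abs_mul, abs_mul, abs_of_pos hH, abs_of_pos (mul_pos hh (by linarith))]
      have h2 : H * |ξ| ≤ H * R := mul_le_mul_of_nonneg_left hξ hH.le
      have h3 : |Js i - c| * (h * τ) ≤ |Js i - c| * h :=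
        mul_le_mul_of_nonneg_left (mul_le_of_le_one_right hh.le hτ1) (abs_nonneg _)
      linarith [hJH i]
    · intro i
      rw [eval_dvq, eval_aff, eval_aff, eval_aff, eval_aff]
      simp only [zero_mul, add_zero, one_mul]
      have e0 : x + c * (h * τ) + (Js i - c) * (h * τ) = x + Js i * (h * τ) := by ring
      have e0' : v + a * (h * τ) + b * (c * (h * τ)) + b * ((Js i - c) * (h * τ)) =
        v + a * (h * τ) + b * (Js i * (h * τ)) := by ring
      rw [e0, e0']
      have h2 := hval i τ (by rw [abs_of_nonneg (by linarith)]; exact hτ1)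
      have e1 : eval (bpt κ ι t (y + h * τ) (x + Js i * (h * τ))) G -
          (v + a * (h * τ) + b * (Js i * (h * τ))) =
          (eval (bpt κ ι t (y + h * τ) (x + Js i * (h * τ))) G - (v + al i * (h * τ))) -
          (a + b * Js i - al i) * h * τ := by ring
      rw [e1]
      refine (abs_sub _ _).trans ?_
      have h3 : |(a + b * Js i - al i) * h * τ| ≤ S := by
        rw [abs_mul, abs_mul, abs_of_pos hh, abs_of_nonneg (by linarith : (0 : ℝ) ≤ τ)]
        calc |a + b * Js i - al i| * h * τ ≤ |a + b * Js i - al i| * h * 1 :=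
              mul_le_mul_of_nonneg_left hτ1 (by positivity)
          _ ≤ S := by rw [mul_one]; exact hrel i
      linarith
  obtain ⟨f, hf⟩ : ∃ f : Polynomial ℝ, f = dvq κ ι G (aff t 0) (aff (y + h) (-(h / 2)))
    (aff (x + c * h + H * ξ) (-(c * h / 2)))
    (aff (v + a * h + b * (c * h + H * ξ)) (-(a * h / 2) - b * (c * h / 2))) := ⟨_, rfl⟩
  have hfe : ∀ τ, f.eval τ =
      eval (bpt κ ι t (y + h * (1 - τ / 2)) (x + c * (h * (1 - τ / 2)) + H * ξ)) G -
      (v + a * (h * (1 - τ / 2)) + b * (c * (h * (1 - τ / 2)) + H * ξ)) := by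
    intro τ
    rw [hf, eval_dvq, eval_aff, eval_aff, eval_aff, eval_aff]
    simp only [zero_mul, add_zero]
    have e1 : y + h + -(h / 2) * τ = y + h * (1 - τ / 2) := by ring
    have e2 : x + c * h + H * ξ + -(c * h / 2) * τ = x + c * (h * (1 - τ / 2)) + H * ξ := by ring
    rw [e1, e2]
    ring
  have hfd : f.natDegree ≤ K + 1 := by
    rw [hf]
    exact natDegree_dvq κ ι hG (natDegree_aff _ _) (natDegree_aff _ _) (natDegree_aff _ _)
      (natDegree_aff _ _)
  have hη2 := abs_le.1 hη
  have h1 := hlag f Q hfd (fun i => by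
    rw [hfe]
    have h1 : ((i : ℕ) : ℝ) ≤ (K + 1 : ℕ) + 1 := by exact_mod_cast i.2.le
    have n1 : (0 : ℝ) ≤ ((i : ℕ) : ℝ) / ((K + 1 : ℕ) + 1) := by positivity
    have n2 : ((i : ℕ) : ℝ) / ((K + 1 : ℕ) + 1) ≤ 1 := div_le_one_of_le₀ h1 (by positivity)
    exact key _ (by linarith) (by linarith)) (2 * (1 - η)) ⟨by linarith [hη2.2],
      by linarith [hη2.1]⟩
  rw [hfe] at h1
  have e1 : 1 - 2 * (1 - η) / 2 = η := by ring
  rw [e1] at h1
  exact h1

end Pool.MIC6
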