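import Pool.Agent.H6.OWN.Aff

/-!
# Labels over two coordinates of a tube are affine, for one family

`aff_fam`: a closed label of the coordinate `k` over the coordinates `κ`, `ι` is affine on the
natural boxes around the lines, with slopes which are functions of the line in the window, if the
lines through one point have separated velocities `d κ`, if their velocities `d ι` and `d k` are on
lines of slopes `Ju` and `a`, and if the samples of one line in the window have separated slopes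
`Ju`. The slopes satisfy `ga + gb * Ju = a`.
-/

set_option autoImplicit false

namespace Pool.MIC6

open Finset MvPolynomial
open Pool.Agent.H49.Ent Pool.Agent.H32.Dense Pool.STK Pool.KA Pool.KSAT Pool.K2S Pool.PB Pool.GEN
open Pool.FLF (Fam.sub)
open Pool.GRD (LbP)
open Pool.PB.Trl (rt rt_mem t_rt)

variable {n J : ℕ}

/-- The point of the line at the start of the window. -/
noncomputable def gpt {F : Fam n J} (w : ℕ) (s : LnT F) : Option (Fin n) → ℝ :=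
  fun o => (lc w s o).eval 0

/-- The slope of a label at the start of the window. -/
noncomputable def gsl {F : Fam n J} {V : Type} (w : ℕ) (z' : LnT F → V)
    (G : V → MvPolynomial (Option (Fin n)) ℝ) (j : Fin n) (s : LnT F) : ℝ :=
  eval (gpt w s) (pderiv (some j) (G (z' s)))

theorem gpt_eq (F : Fam n J) {w : ℕ} (hw : w ≤ J) (ω : F.Ω) :
    gpt w (slam F w ω) = wpt F w ω 0 := by
  funext o
  cases o with
  | none =>
    show (lc w (slam F w ω) none).eval 0 = _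
    rw [lc_none]
    rfl
  | some j =>
    show (lc w (slam F w ω) (some j)).eval 0 = _
    rw [lc_some]
    rfl

theorem wt_slam {F : Fam n J} {w : ℕ} {ω ω' : F.Ω} (h : slam F w ω = slam F w ω') (σ : ℝ) :
    wt F w ω σ = wt F w ω' σ := by
  unfold wt
  rw [h]

theorem ud_slam {F : Fam n J} {w : ℕ} {ω ω' : F.Ω} (h : slam F w ω = slam F w ω') :
    F.u ω = F.u ω' ∧ F.d ω = F.d ω' := by
  have a1 := Prod.ext_iff.mp h
  exact Prod.ext_iff.mp a1.1

theorem wp_slam {F : Fam n J} {w : ℕ} {ω ω' : F.Ω} (h : slam F w ω = slam F w ω') (σ : ℝ)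
    (j : Fin n) : wp F w ω σ j = wp F w ω' σ j := by
  obtain ⟨h1, h2⟩ := ud_slam h
  unfold wp
  rw [h1, h2, wt_slam h]

/-- **Labels over two coordinates of a tube are affine.** -/
theorem aff_fam (n K : ℕ) {R : ℝ} (hR : 1 ≤ R) : ∃ C : ℝ, 1 ≤ C ∧ ∀ {J : ℕ} (F : Fam n J) (A : F.Ω → Prop)
    (hA : 0 < Pe F.p A) {κ ι k : Fin n} {r w P : ℕ} {V : Type}
    {z : PtT F → V} {z' : LnT F → V} {G : V → MvPolynomial (Option (Fin n)) ℝ} {U : Type}
    {Φ : F.Ω → U} {a Ju J0 : F.Ω → ℝ} {Hb H β μ s α ρ s₀ err θ : ℝ}, κ ≠ ι →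
    LbP F {κ, ι} k K r w P A z z' G → w ≤ J → 0 ≤ θ →
    (Fam.sub F A hA).Tm θ → C * (θ + 1) ≤ ((J : ℝ) - w) * Real.log 2 → 0 < ρ → ρ ≤ 1 →
    s₀ ≤ ρ * (1 / 2 ^ w) / 16 → 0 ≤ β → 0 ≤ μ → 0 < s → 0 < H →
    (∀ ω, A ω → |Ju ω - J0 ω| * (1 / 2 ^ w) ≤ H) →
    (∀ ω, A ω → |Ju ω| * (3 / 2 ^ w) + 2 * μ ≤ Hb) →
    (∀ ω, A ω → ∀ σ ∈ Set.Icc (0 : ℝ) 1, ∀ b : Option (Fin n) → ℝ,
      b none = wt F w ω σ → |b (some κ) - wp F w ω σ κ| ≤ 3 / 2 ^ w →
      |b (some ι) - wp F w ω σ ι| ≤ Hb →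
      |eval b (pderiv (some ι) (G (z' (slam F w ω))))| ≤ β) →
    (∀ ω ω', A ω → A ω' → Φ ω = Φ ω' → ptr F r ω = ptr F r ω' ∧ |F.x ω' κ - F.x ω κ| ≤ s₀ ∧
      |F.x ω' k - F.x ω k| ≤ s₀ ∧ |F.d ω' k - F.d ω k - a ω * (F.d ω' κ - F.d ω κ)| ≤ err ∧
      |F.x ω' ι - F.x ω ι - Ju ω * (F.x ω' κ - F.x ω κ)| ≤ μ ∧
        |F.d ω' ι - F.d ω ι - Ju ω * (F.d ω' κ - F.d ω κ)| ≤ 2 ^ w * μ) →
    (∀ ω, A ω → |a ω| ≤ α) →
    (∀ B : F.Ω → Prop, Sub B A → Pe F.p A / 2 ≤ Pe F.p B → ∃ B' : F.Ω → Prop, Sub B' B ∧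
      Pe F.p B / 2 ≤ Pe F.p B' ∧ ∀ ω, B' ω → ∃ ν : Fin (K + 2) → F.Ω,
        (∀ i, B (ν i) ∧ Φ (ν i) = Φ ω) ∧ ∀ i j, i ≠ j → ρ ≤ |F.d (ν i) κ - F.d (ν j) κ|) →
    (∀ B : F.Ω → Prop, Sub B A → Pe F.p A / 4 ≤ Pe F.p B → ∃ B' : F.Ω → Prop, Sub B' B ∧
      Pe F.p B / 2 ≤ Pe F.p B' ∧ ∀ ω, B' ω → ∃ ν : Fin (K + 2) → F.Ω,
        (∀ i, B (ν i) ∧ slam F w (ν i) = slam F w ω ∧ J0 (ν i) = J0 ω) ∧
          ∀ i j, i ≠ j → s ≤ |Ju (ν i) - Ju (ν j)|) →
    ∃ B : F.Ω → Prop, Sub B A ∧ Pe F.p A / 8 ≤ Pe F.p B ∧ ∀ ω, B ω →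
      |gsl w z' G κ (slam F w ω) + gsl w z' G ι (slam F w ω) * Ju ω - a ω| ≤
        2 ^ w * (C * (1 / ρ) ^ (K + 1) *
        (Real.exp (C * (θ + 1)) / 2 ^ P + β * (2 * μ) + (1 + α) * s₀ + 1 / 2 ^ w * err)) ∧
      ∀ σ ∈ Set.Icc (0 : ℝ) 1, ∀ η ξ : ℝ, |η| ≤ R → |ξ| ≤ R →
      |eval (bpt κ ι (wt F w ω σ) (wp F w ω σ κ + 1 / 2 ^ w * η)
        (wp F w ω σ ι + J0 ω * (1 / 2 ^ w * η) + H * ξ))
        (G (z' (slam F w ω))) - (wp F w ω σ k + gsl w z' G κ (slam F w ω) * (1 / 2 ^ w * η) +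
          gsl w z' G ι (slam F w ω) * (J0 ω * (1 / 2 ^ w * η) + H * ξ))| ≤
        C * (H / (s * (1 / 2 ^ w))) ^ (K + 1) * (C * (1 / ρ) ^ (K + 1) *
        (Real.exp (C * (θ + 1)) / 2 ^ P + β * (2 * μ) + (1 + α) * s₀ + 1 / 2 ^ w * err)) := by
  classical
  obtain ⟨C₁, hC₁, htie⟩ := tie_box n K
  obtain ⟨C₂, hC₂, haff⟩ := aff_det K hR
  refine ⟨C₁ * C₂, one_le_mul_of_one_le_of_one_le hC₁ hC₂, ?_⟩
  intro J F A hA κ ι k r w P V z z' G U Φ a Ju J0 Hb H β μ s α ρ s₀ err θ hκι hL hw hθ hTm hJ hρ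
    hρ1 hs hβ hμ hs0 hH0 hJ0 hJH hgr hfib ha hnod hnod2
  have hCC : C₁ ≤ C₁ * C₂ := le_mul_of_one_le_right (by linarith) hC₂
  have hCC2 : C₂ ≤ C₁ * C₂ := le_mul_of_one_le_left (by linarith) hC₁
  have pw : (0 : ℝ) < 1 / 2 ^ w := by positivity
  have hs₀1 : s₀ ≤ 1 / 2 ^ w := by
    refine hs.trans ?_
    have : ρ * (1 / 2 ^ w) ≤ 1 * (1 / 2 ^ w) := mul_le_mul_of_nonneg_right hρ1 pw.le
    linarith
  have hιe : ({κ, ι} : Finset (Fin n)).erase κ = {ι} := by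
    ext j
    simp only [Finset.mem_erase, Finset.mem_insert, Finset.mem_singleton]
    constructor
    · rintro ⟨h1, h2 | h2⟩
      · exact absurd h2 h1
      · exact h2
    · intro h
      exact ⟨fun h' => hκι (h'.symm.trans h), Or.inr h⟩
  obtain ⟨sl, hsl⟩ : ∃ sl : F.Ω → Fin n → ℝ, sl = fun ω j => if j = κ then 1 else Ju ω :=
    ⟨_, rfl⟩
  have hslκ : ∀ ω, sl ω κ = 1 := fun ω => by rw [hsl]; exact if_pos rfl
  have hslι : ∀ ω j, j ≠ κ → sl ω j = Ju ω := fun ω j h => by rw [hsl]; exact if_neg h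
  obtain ⟨B, hBA, hPB, hB⟩ := htie F A hA (κ := κ) (k := k) (Φ := Φ) (a := a) (sl := sl)
    (H := fun j => if j = κ then 3 / 2 ^ w else Hb) (β := fun _ => β)
    (μ := fun j => if j = κ then 0 else μ) (α := α) (ρ := ρ) (s₀ := s₀) (err := err) (θ := θ)
    hL hw hθ hTm (by
      refine le_trans ?_ hJ
      exact mul_le_mul_of_nonneg_right hCC (by linarith)) hρ hρ1 hs (fun ω _ => hslκ ω)
    (fun _ => hβ) (fun j => by
      show (0 : ℝ) ≤ if j = κ then 0 else μ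
      split_ifs
      · exact le_rfl
      · exact hμ) (fun ω hω j hj => by
      show |sl ω j| * (2 / 2 ^ w + s₀) + 2 * (if j = κ then 0 else μ) ≤
        if j = κ then 3 / 2 ^ w else Hb
      have e3 : (3 : ℝ) / 2 ^ w = 2 / 2 ^ w + 1 / 2 ^ w := by ring
      split_ifs with h
      · subst h
        rw [hslκ, abs_one, one_mul, mul_zero, add_zero, e3]
        linarith
      · rw [hslι ω j h]
        refine le_trans ?_ (hJH ω hω)
        have h1 : |Ju ω| * (2 / 2 ^ w + s₀) ≤ |Ju ω| * (3 / 2 ^ w) :=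
          mul_le_mul_of_nonneg_left (by rw [e3]; linarith) (abs_nonneg _)
        linarith) (fun ω hω σ hσ b hbn hb j hj hjκ => by
      have hjι : j = ι := by
        rcases Finset.mem_insert.1 hj with h | h
        · exact absurd h hjκ
        · exact Finset.mem_singleton.1 h
      subst hjι
      refine hgr ω hω σ hσ b hbn ?_ ?_
      · have h1 := hb κ (Finset.mem_insert_self _ _)
        simp only [if_true] at h1
        exact h1
      · have h1 := hb j hj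
        simp only [if_neg hjκ] at h1
        exact h1) (fun ω ω' hω hω' h => by
      obtain ⟨a1, a2, a3, a4, a5, a6⟩ := hfib ω ω' hω hω' h
      refine ⟨a1, a2, a3, a4, fun j hj hjκ => ?_⟩
      have hjι : j = ι := by
        rcases Finset.mem_insert.1 hj with h | h
        · exact absurd h hjκ
        · exact Finset.mem_singleton.1 h
      subst hjι
      show |F.x ω' j - F.x ω j - sl ω j * (F.x ω' κ - F.x ω κ)| ≤ (if j = κ then 0 else μ) ∧
        |F.d ω' j - F.d ω j - sl ω j * (F.d ω' κ - F.d ω κ)| ≤ 2 ^ w * (if j = κ then 0 else μ)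
      rw [if_neg hjκ, hslι ω j hjκ]
      exact ⟨a5, a6⟩) ha hnod
  obtain ⟨S, hS⟩ : ∃ S, S = C₁ * (1 / ρ) ^ (K + 1) * (Real.exp (C₁ * (θ + 1)) / 2 ^ P +
      β * (2 * μ) + (1 + α) * s₀ + 1 / 2 ^ w * err) := ⟨_, rfl⟩
  have hsum : ∑ j ∈ ({κ, ι} : Finset (Fin n)).erase κ,
      (fun _ => β) j * (2 * (fun j => if j = κ then 0 else μ) j) = β * (2 * μ) := by
    rw [hιe, Finset.sum_singleton]
    show β * (2 * (if ι = κ then 0 else μ)) = _
    rw [if_neg (Ne.symm hκι)]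
  rw [hsum] at hB
  rw [← hS] at hB
  have hpair : ∀ (g : Fin n → ℝ) (ω : F.Ω), ∑ j ∈ ({κ, ι} : Finset (Fin n)), sl ω j * g j =
      g κ + g ι * Ju ω := by
    intro g ω
    rw [Finset.sum_pair hκι, hslκ, hslι ω ι (Ne.symm hκι)]
    ring
  obtain ⟨B', hB'B, hPB', hB'⟩ := hnod2 B hBA hPB
  refine ⟨B', fun ω hω => hBA ω (hB'B ω hω), by linarith, fun ω hω => ?_⟩
  have hωB := hB'B ω hω
  have hωA := hBA ω hωB
  have hα : 0 ≤ α := (abs_nonneg _).trans (ha ω hωA)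
  have hself := hfib ω ω hωA hωA rfl
  have hs₀0 : 0 ≤ s₀ := (abs_nonneg _).trans hself.2.1
  have herr : 0 ≤ err := (abs_nonneg _).trans hself.2.2.2.1
  have hexp : Real.exp (C₁ * (θ + 1)) / 2 ^ P ≤ Real.exp (C₁ * C₂ * (θ + 1)) / 2 ^ P :=
    div_le_div_of_nonneg_right (Real.exp_le_exp.2 (mul_le_mul_of_nonneg_right hCC
      (by linarith))) (by positivity)
  have hSS : S ≤ C₁ * C₂ * (1 / ρ) ^ (K + 1) * (Real.exp (C₁ * C₂ * (θ + 1)) / 2 ^ P +
      β * (2 * μ) + (1 + α) * s₀ + 1 / 2 ^ w * err) := by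
    rw [hS]
    refine mul_le_mul (mul_le_mul_of_nonneg_right hCC (by positivity)) (by linarith)
      (by positivity) (by positivity)
  have hS0 : 0 ≤ S := by rw [hS]; positivity
  have hrel : ∀ ω', B ω' → |gsl w z' G κ (slam F w ω') + gsl w z' G ι (slam F w ω') * Ju ω' -
      a ω'| ≤ 2 ^ w * S := by
    intro ω' hω'
    have h1 := (hB ω' hω' 0 ⟨le_rfl, zero_le_one⟩).2
    rw [hpair, ← gpt_eq F hw] at h1
    exact h1
  refine ⟨(hrel ω hωB).trans (mul_le_mul_of_nonneg_left hSS (by positivity)), ?_⟩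
  intro σ hσ η ξ hη hξ
  obtain ⟨ν, hν, hsep⟩ := hB' ω hω
  have hGdep : ∀ (b b' : Option (Fin n) → ℝ), b none = b' none → b (some κ) = b' (some κ) →
      b (some ι) = b' (some ι) → eval b (G (z' (slam F w ω))) =
        eval b' (G (z' (slam F w ω))) := by
    intro b b' h1 h2 h3
    refine hL.dep _ b b' h1 fun i hi => ?_
    rcases Finset.mem_insert.1 hi with h | h
    · rw [h]
      exact h2
    · rw [Finset.mem_singleton.1 h]
      exact h3
  have hbι : ∀ t y x : ℝ, bpt κ ι t y x (some ι) = x := by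
    intro t y x
    show (if ι = κ then y else if ι = ι then x else 0) = x
    rw [if_neg (Ne.symm hκι), if_pos rfl]
  have hbκ : ∀ t y x : ℝ, bpt κ ι t y x (some κ) = y := fun t y x => if_pos rfl
  have h1 := haff (G := G (z' (slam F w ω))) κ ι (t := wt F w ω σ) (y := wp F w ω σ κ)
    (x := wp F w ω σ ι) (v := wp F w ω σ k) (a := gsl w z' G κ (slam F w ω))
    (b := gsl w z' G ι (slam F w ω)) (c := J0 ω) (h := 1 / 2 ^ w) (H := H) (s := s) (S := S)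
    (Js := fun i => Ju (ν i)) (al := fun i => a (ν i)) (hL.deg _) pw hH0 hs0 (fun i => by
      show |Ju (ν i) - J0 ω| * (1 / 2 ^ w) ≤ H
      have h2 := hJ0 (ν i) (hBA _ (hν i).1)
      rwa [(hν i).2.2] at h2) hsep (fun i η' hη' => by
      have h2 := (hB (ν i) (hν i).1 σ hσ).1 η' hη'
      obtain ⟨hu, hd⟩ := ud_slam (hν i).2.1
      rw [hu, hd, wt_slam (hν i).2.1, wp_slam (hν i).2.1, (hν i).2.1] at h2
      refine le_trans (le_of_eq ?_) h2
      congr 2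
      refine hGdep _ _ rfl ?_ ?_
      · rw [hbκ]
        show wp F w ω σ κ + 1 / 2 ^ w * η' = F.u ω κ + F.d ω κ * wt F w ω σ +
          sl (ν i) κ * (1 / 2 ^ w * η')
        rw [hslκ, one_mul]
        rfl
      · rw [hbι]
        show wp F w ω σ ι + Ju (ν i) * (1 / 2 ^ w * η') = F.u ω ι + F.d ω ι * wt F w ω σ +
          sl (ν i) ι * (1 / 2 ^ w * η')
        rw [hslι _ _ (Ne.symm hκι)]
        rfl) (fun i => by
      have h2 := hrel (ν i) (hν i).1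
      rw [(hν i).2.1] at h2
      have h3 := mul_le_mul_of_nonneg_right h2 pw.le
      refine le_trans (le_of_eq ?_) (h3.trans (le_of_eq ?_))
      · ring_nf
      · field_simp) η ξ hη hξ
  refine h1.trans ?_
  have hHs : (0 : ℝ) ≤ (H / (s * (1 / 2 ^ w))) ^ (K + 1) := by positivity
  refine mul_le_mul (mul_le_mul_of_nonneg_right hCC2 hHs) hSS hS0 (by positivity)

end Pool.MIC6
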