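import Pool.Agent.H6.OWN.Bal

/-!
# Affine labels from closed slopes

`lab_slp`: if the velocities are `cv + av d y`, with functions `cv`, `av` of the exact point, up to
`2 ^ (-M)`, and `av` is a function of the line in the window of length `2 ^ (-W)`, up to
`2 ^ (-M)`, there is an affine closed label of precision `W + M - 3` for this window.
-/

set_option autoImplicit false

namespace Pool.MIC6

open Finset MvPolynomial
open Pool.Agent.H49.Ent Pool.Agent.H32.Dense Pool.STK Pool.KA Pool.KSAT Pool.K2S Pool.PB Pool.GEN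

variable {m J : ℕ}

theorem floor_diff {a b : ℝ} {K : ℕ} (h : |a - b| ≤ K) : |⌊a⌋ - ⌊b⌋| ≤ (K : ℤ) := by
  have a1 := Int.floor_le a
  have a2 := Int.lt_floor_add_one a
  have b1 := Int.floor_le b
  have b2 := Int.lt_floor_add_one b
  rw [abs_le] at h ⊢
  have h1 : ((⌊a⌋ - ⌊b⌋ : ℤ) : ℝ) < (K : ℤ) + 1 := by
    push_cast
    linarith [h.2]
  have h2 : ((-(K : ℤ) - 1 : ℤ) : ℝ) < ((⌊a⌋ - ⌊b⌋ : ℤ) : ℝ) := by
    push_cast
    linarith [h.1]
  have h3 : ⌊a⌋ - ⌊b⌋ < (K : ℤ) + 1 := by exact_mod_cast h1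
  have h4 : -(K : ℤ) - 1 < ⌊a⌋ - ⌊b⌋ := by exact_mod_cast h2
  constructor <;> omega

theorem floor_div_near {a M : ℝ} (hM : 0 < M) : |a - (⌊M * a⌋ : ℝ) / M| ≤ 1 / M := by
  have a1 := Int.floor_le (M * a)
  have a2 := Int.lt_floor_add_one (M * a)
  have e1 : a - (⌊M * a⌋ : ℝ) / M = (M * a - ⌊M * a⌋) / M := by field_simp
  rw [e1, abs_div, abs_of_pos hM]
  refine div_le_div_of_nonneg_right ?_ hM.le
  rw [abs_le]
  constructor <;> linarith

/-- An affine polynomial in the time and one coordinate. -/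
noncomputable def afp (y : Fin m) (c a b : ℝ) : MvPolynomial (Option (Fin m)) ℝ :=
  C c + (C b * X none + C a * X (some y))

theorem eval_afp (y : Fin m) (c a b : ℝ) (x : Option (Fin m) → ℝ) :
    eval x (afp y c a b) = c + (b * x none + a * x (some y)) := by
  unfold afp
  simp only [map_add, map_mul, eval_C, eval_X]

theorem deg_afp (y : Fin m) (c a b : ℝ) : (afp y c a b).totalDegree ≤ 1 := by
  unfold afp
  have h : ∀ (r : ℝ) (o : Option (Fin m)), (C r * X o : MvPolynomial (Option (Fin m)) ℝ).totalDegree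
      ≤ 1 := by
    intro r o
    refine (totalDegree_mul _ _).trans ?_
    rw [totalDegree_C, totalDegree_X]
  refine (totalDegree_add _ _).trans (max_le ?_ ?_)
  · rw [totalDegree_C]
    exact Nat.zero_le _
  · exact (totalDegree_add _ _).trans (max_le (h _ _) (h _ _))

theorem pd_afp (y : Fin m) (c a b : ℝ) (x : Option (Fin m) → ℝ) (o : Option (Fin m)) :
    eval x (pderiv o (afp y c a b)) =
      if o = none then b else if o = some y then a else 0 := by
  classical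
  unfold afp
  simp only [map_add, Derivation.leibniz, pderiv_C, pderiv_X, smul_eq_mul, map_mul, eval_C, eval_X,
    map_zero, mul_zero, add_zero, zero_add]
  cases o with
  | none => simp [Pi.single_apply]
  | some i =>
    by_cases hi : i = y
    · subst hi
      simp [Pi.single_apply]
    · have h1 : (some y : Option (Fin m)) ≠ some i := fun h => hi (Option.some_injective _ h).symm
      have h2 : (some i : Option (Fin m)) ≠ some y := fun h => h1 h.symm
      simp [Pi.single_apply, h1, h2, hi]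

/-- **An affine label from a closed slope.** -/
theorem lab_slp {F : Fam m J} {A : F.Ω → Prop} {y v : Fin m} {av cv : PtT F → ℝ}
    {th : LnT F → ℝ} {W M e P : ℕ} (hW : W ≤ J)
    (h1 : ∀ ω, A ω → |F.d ω v - cv (ptr F J ω) - av (ptr F J ω) * F.d ω y| ≤ 1 / 2 ^ M)
    (h2 : ∀ ω, A ω → |av (ptr F J ω)| ≤ 2 ^ e ∧ |cv (ptr F J ω)| ≤ 2 ^ e)
    (h3 : ∀ ω, A ω → |th (slam F W ω) - av (ptr F J ω)| ≤ 1 / 2 ^ M)
    (h4 : W + M + e + 3 ≤ J) (h5 : P + 3 ≤ W + M) :
    ∃ B : F.Ω → Prop, Sub B A ∧ Pe F.p A ≤ 9 ^ 2 * 11 * Pe F.p B ∧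
      ∀ ρ : ℕ, Lb F {y} v 1 (e + 1) J W ρ P B := by
  classical
  have pM : (0 : ℝ) < 2 ^ M := by positivity
  have pJ : (0 : ℝ) < 2 ^ J := by positivity
  have pQ : (0 : ℝ) < 2 ^ (W + M) := by positivity
  have pW : (0 : ℝ) < 2 ^ W := by positivity
  have hlin : ∀ ω ω', slam F W ω = slam F W ω' → F.u ω = F.u ω' ∧ F.d ω = F.d ω' ∧
      |F.t ω - F.t ω'| ≤ 1 / 2 ^ W := by
    intro ω ω' h
    have a1 := Prod.ext_iff.mp h
    have a2 := Prod.ext_iff.mp a1.1
    have a3 : F.T1 W ω = F.T1 W ω' := (Prod.ext_iff.mp a1.2).2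
    refine ⟨a2.1, a2.2, ?_⟩
    have b1 := Pool.PB.Trl.t_rt F hW ω
    have b2 := Pool.PB.Trl.t_rt F hW ω'
    have c1 := Pool.PB.Trl.rt_mem F W ω
    have c2 := Pool.PB.Trl.rt_mem F W ω'
    have a4 : (slam F W ω).2.2 = (slam F W ω').2.2 := a3
    rw [b1, b2, a4]
    have e1 : (((slam F W ω').2.2 : ℝ) + Pool.PB.Trl.rt F W ω) / 2 ^ W -
        (((slam F W ω').2.2 : ℝ) + Pool.PB.Trl.rt F W ω') / 2 ^ W =
        (Pool.PB.Trl.rt F W ω - Pool.PB.Trl.rt F W ω') / 2 ^ W := by ring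
    rw [e1, abs_div, abs_of_pos pW]
    refine div_le_div_of_nonneg_right ?_ pW.le
    rw [abs_le]
    constructor <;> linarith [c1.1, c1.2, c2.1, c2.2]
  -- the codes of the slope and of the velocity
  obtain ⟨f0, hf0⟩ : ∃ f0 : PtT F → Fin 2 → ℤ, f0 = fun p =>
    ![⌊(2 : ℝ) ^ M * av p⌋, ⌊(2 : ℝ) ^ M * cv p⌋] := ⟨_, rfl⟩
  obtain ⟨B₁, b1, b2, φ₁, b3⟩ := Pool.S6K.exact_label F.isLaw 4 (slam F W)
    (fun ω => f0 (ptr F J ω)) A (fun ω ω' hω hω' h => by
      obtain ⟨-, hd, -⟩ := hlin ω ω' h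
      have k3 := h3 ω hω
      have k4 := h3 ω' hω'
      rw [h] at k3
      have k5 : |av (ptr F J ω) - av (ptr F J ω')| ≤ 2 / 2 ^ M := by
        have e1 : (2 : ℝ) / 2 ^ M = 1 / 2 ^ M + 1 / 2 ^ M := by ring
        rw [e1]
        rw [abs_le] at k3 k4 ⊢
        constructor <;> linarith [k3.1, k3.2, k4.1, k4.2]
      have k6 : |cv (ptr F J ω) - cv (ptr F J ω')| ≤ 4 / 2 ^ M := by
        have a1 := h1 ω hω
        have a2 := h1 ω' hω'
        rw [hd] at a1
        have a3 : |(av (ptr F J ω) - av (ptr F J ω')) * F.d ω' y| ≤ 2 / 2 ^ M := by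
          rw [abs_mul]
          have := mul_le_mul k5 (F.dir ω' y) (abs_nonneg _) (by positivity)
          linarith
        have e1 : (4 : ℝ) / 2 ^ M = 2 / 2 ^ M + (1 / 2 ^ M + 1 / 2 ^ M) := by ring
        have e2 : cv (ptr F J ω) - cv (ptr F J ω') =
            -((av (ptr F J ω) - av (ptr F J ω')) * F.d ω' y) +
            ((F.d ω' v - cv (ptr F J ω') - av (ptr F J ω') * F.d ω' y) -
            (F.d ω' v - cv (ptr F J ω) - av (ptr F J ω) * F.d ω' y)) := by ring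
        rw [e1, e2]
        refine (abs_add_le _ _).trans (add_le_add ?_ ((abs_sub _ _).trans (add_le_add a2 a1)))
        rw [abs_neg]
        exact a3
      intro i
      rw [hf0]
      have key : ∀ a b : ℝ, |a - b| ≤ 4 / 2 ^ M → |⌊(2 : ℝ) ^ M * a⌋ - ⌊(2 : ℝ) ^ M * b⌋| ≤
          (4 : ℕ) := by
        intro a b hab
        refine floor_diff ?_
        rw [← mul_sub, abs_mul, abs_of_pos pM]
        rw [le_div_iff₀ pM] at hab
        push_cast
        linarith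
      have k7 : (2 : ℝ) / 2 ^ M ≤ 4 / 2 ^ M :=
        div_le_div_of_nonneg_right (by norm_num) pM.le
      fin_cases i
      · exact_mod_cast key _ _ (k5.trans k7)
      · exact_mod_cast key _ _ k6)
  -- the code of the constant
  obtain ⟨A0, hA0⟩ : ∃ A0 : PtT F → ℝ, A0 = fun p => (f0 p 0 : ℝ) / 2 ^ M := ⟨_, rfl⟩
  obtain ⟨C0, hC0⟩ : ∃ C0 : PtT F → ℝ, C0 = fun p => (f0 p 1 : ℝ) / 2 ^ M := ⟨_, rfl⟩
  have hAn : ∀ p, |av p - A0 p| ≤ 1 / 2 ^ M := by
    intro p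
    rw [hA0, hf0]
    exact floor_div_near pM
  have hCn : ∀ p, |cv p - C0 p| ≤ 1 / 2 ^ M := by
    intro p
    rw [hC0, hf0]
    exact floor_div_near pM
  have hM1 : (1 : ℝ) / 2 ^ M ≤ 1 := by
    rw [div_le_one pM]
    exact one_le_pow₀ (by norm_num)
  have he1 : (1 : ℝ) ≤ 2 ^ e := one_le_pow₀ (by norm_num)
  have hAe : ∀ ω, A ω → |A0 (ptr F J ω)| ≤ 2 ^ (e + 1) := by
    intro ω hω
    have a1 := (h2 ω hω).1
    have a2 := hAn (ptr F J ω)
    rw [pow_succ]
    rw [abs_le] at a1 a2 ⊢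
    constructor <;> linarith [a1.1, a1.2, a2.1, a2.2]
  have hCe : ∀ ω, A ω → |C0 (ptr F J ω)| ≤ 2 ^ (e + 1) := by
    intro ω hω
    have a1 := (h2 ω hω).2
    have a2 := hCn (ptr F J ω)
    rw [pow_succ]
    rw [abs_le] at a1 a2 ⊢
    constructor <;> linarith [a1.1, a1.2, a2.1, a2.2]
  have hvel : ∀ ω, A ω → |F.d ω v - (C0 (ptr F J ω) + A0 (ptr F J ω) * F.d ω y)| ≤ 3 / 2 ^ M := by
    intro ω hω
    have a1 := h1 ω hω
    have a2 := hCn (ptr F J ω)
    have a3 : |(av (ptr F J ω) - A0 (ptr F J ω)) * F.d ω y| ≤ 1 / 2 ^ M := by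
      rw [abs_mul]
      have := mul_le_mul (hAn (ptr F J ω)) (F.dir ω y) (abs_nonneg _) (by positivity)
      linarith
    have e1 : F.d ω v - (C0 (ptr F J ω) + A0 (ptr F J ω) * F.d ω y) =
        (F.d ω v - cv (ptr F J ω) - av (ptr F J ω) * F.d ω y) +
        ((cv (ptr F J ω) - C0 (ptr F J ω)) + (av (ptr F J ω) - A0 (ptr F J ω)) * F.d ω y) := by
      ring
    have e2 : (3 : ℝ) / 2 ^ M = 1 / 2 ^ M + (1 / 2 ^ M + 1 / 2 ^ M) := by ring
    rw [e1, e2]
    exact (abs_add_le _ _).trans (add_le_add a1 ((abs_add_le _ _).trans (add_le_add a2 a3)))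
  obtain ⟨g, hg⟩ : ∃ g : F.Ω → ℝ, g = fun ω => F.x ω v -
    (C0 (ptr F J ω) * F.t ω + A0 (ptr F J ω) * F.x ω y) := ⟨_, rfl⟩
  obtain ⟨gd, hgd⟩ : ∃ gd : PtT F → ℝ, gd = fun p => dpt p (some v) -
    (C0 p * dpt p none + A0 p * dpt p (some y)) := ⟨_, rfl⟩
  have hgg : ∀ ω, A ω → |g ω - gd (ptr F J ω)| ≤ 1 / 2 ^ (W + M) := by
    intro ω hω
    have a1 := dpt_near F ω (some v)
    have a2 := dpt_near F ω (some y)
    have a3 : |A0 (ptr F J ω) * (dpt (ptr F J ω) (some y) - F.x ω y)| ≤ 2 ^ (e + 1) * (1 / 2 ^ J) := by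
      rw [abs_mul]
      exact mul_le_mul (hAe ω hω) a2 (abs_nonneg _) (by positivity)
    have e1 : g ω - gd (ptr F J ω) = A0 (ptr F J ω) * (dpt (ptr F J ω) (some y) - F.x ω y) -
        (dpt (ptr F J ω) (some v) - F.x ω v) := by
      rw [hg, hgd]
      show F.x ω v - (C0 (ptr F J ω) * F.t ω + A0 (ptr F J ω) * F.x ω y) -
        (dpt (ptr F J ω) (some v) - (C0 (ptr F J ω) * dpt (ptr F J ω) none +
          A0 (ptr F J ω) * dpt (ptr F J ω) (some y))) = _
      rw [dpt_none]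
      ring
    rw [e1]
    have a1' : |dpt (ptr F J ω) (some v) - F.x ω v| ≤ 1 / 2 ^ J := a1
    refine (abs_sub _ _).trans ((add_le_add a3 a1').trans ?_)
    have e2 : (2 : ℝ) ^ (e + 1) * (1 / 2 ^ J) + 1 / 2 ^ J ≤ 2 ^ (e + 2) / 2 ^ J := by
      rw [pow_succ 2 (e + 1), mul_one_div, ← add_div]
      refine div_le_div_of_nonneg_right ?_ pJ.le
      have : (1 : ℝ) ≤ 2 ^ (e + 1) := one_le_pow₀ (by norm_num)
      linarith
    refine e2.trans ?_
    rw [div_le_div_iff₀ pJ pQ, one_mul, ← pow_add]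
    exact pow_le_pow_right₀ (by norm_num) (by omega)
  obtain ⟨f1, hf1⟩ : ∃ f1 : PtT F → ℤ, f1 = fun p => ⌊(2 : ℝ) ^ (W + M) * gd p⌋ := ⟨_, rfl⟩
  obtain ⟨B₂, c1, c2, φ₂, c3⟩ := Pool.S6K.exact_label F.isLaw 5 (slam F W)
    (fun ω (_ : Fin 1) => f1 (ptr F J ω)) B₁ (fun ω ω' hω hω' h i => by
      obtain ⟨hu, hd, ht⟩ := hlin ω ω' h
      have hff : f0 (ptr F J ω) = f0 (ptr F J ω') := by
        have := (b3 ω hω).trans ((congrArg φ₁ h).trans (b3 ω' hω').symm)
        exact this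
      have hA' : A0 (ptr F J ω) = A0 (ptr F J ω') := by
        rw [hA0]
        show (f0 (ptr F J ω) 0 : ℝ) / 2 ^ M = (f0 (ptr F J ω') 0 : ℝ) / 2 ^ M
        rw [hff]
      have hC' : C0 (ptr F J ω) = C0 (ptr F J ω') := by
        rw [hC0]
        show (f0 (ptr F J ω) 1 : ℝ) / 2 ^ M = (f0 (ptr F J ω') 1 : ℝ) / 2 ^ M
        rw [hff]
      have k1 : |g ω - g ω'| ≤ 3 / 2 ^ (W + M) := by
        have e1 : g ω - g ω' = (F.t ω - F.t ω') *
            (F.d ω' v - (C0 (ptr F J ω') + A0 (ptr F J ω') * F.d ω' y)) := by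
          rw [hg]
          show F.x ω v - (C0 (ptr F J ω) * F.t ω + A0 (ptr F J ω) * F.x ω y) -
            (F.x ω' v - (C0 (ptr F J ω') * F.t ω' + A0 (ptr F J ω') * F.x ω' y)) = _
          rw [hA', hC']
          unfold Fam.x
          rw [hu, hd]
          ring
        rw [e1, abs_mul]
        have k2 := mul_le_mul ht (hvel ω' (b1 ω' hω')) (abs_nonneg _) (by positivity)
        refine k2.trans (le_of_eq ?_)
        rw [pow_add]
        field_simp
      have k2 := hgg ω (b1 ω hω)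
      have k3 := hgg ω' (b1 ω' hω')
      have k4 : |gd (ptr F J ω) - gd (ptr F J ω')| ≤ 5 / 2 ^ (W + M) := by
        have e1 : (5 : ℝ) / 2 ^ (W + M) = 3 / 2 ^ (W + M) + (1 / 2 ^ (W + M) + 1 / 2 ^ (W + M)) := by
          ring
        rw [e1]
        rw [abs_le] at k1 k2 k3 ⊢
        constructor <;> linarith [k1.1, k1.2, k2.1, k2.2, k3.1, k3.2]
      rw [hf1]
      have k5 : |⌊(2 : ℝ) ^ (W + M) * gd (ptr F J ω)⌋ - ⌊(2 : ℝ) ^ (W + M) * gd (ptr F J ω')⌋| ≤
          (5 : ℕ) := by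
        refine floor_diff ?_
        rw [← mul_sub, abs_mul, abs_of_pos pQ]
        rw [le_div_iff₀ pQ] at k4
        push_cast
        linarith
      exact_mod_cast k5)
  refine ⟨B₂, fun ω hω => b1 ω (c1 ω hω), ?_, fun ρ => ?_⟩
  · push_cast at b2 c2
    norm_num at b2 c2 ⊢
    linarith
  · refine ⟨(Fin 2 → ℤ) × ℤ, fun p => (f0 p, f1 p), fun s => (φ₁ s, φ₂ s 0), fun x =>
      afp y ((x.2 : ℝ) / 2 ^ (W + M)) ((x.1 0 : ℝ) / 2 ^ M) ((x.1 1 : ℝ) / 2 ^ M), ?_⟩
    have hval : ∀ ω, B₂ ω → (φ₁ (slam F W ω), φ₂ (slam F W ω) 0) =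
        (f0 (ptr F J ω), f1 (ptr F J ω)) := by
      intro ω hω
      have a1 : f0 (ptr F J ω) = φ₁ (slam F W ω) := b3 ω (c1 ω hω)
      have a2 : f1 (ptr F J ω) = φ₂ (slam F W ω) 0 := congrFun (c3 ω hω) 0
      rw [a1, a2]
    have hpd : ∀ ω, A ω → ∀ (b : Option (Fin m) → ℝ) (o : Option (Fin m)),
        |eval b (pderiv o (afp y ((f1 (ptr F J ω) : ℝ) / 2 ^ (W + M))
          ((f0 (ptr F J ω) 0 : ℝ) / 2 ^ M) ((f0 (ptr F J ω) 1 : ℝ) / 2 ^ M)))| ≤ 2 ^ (e + 1) := by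
      intro ω hω b o
      rw [pd_afp]
      have k1 := hAe ω hω
      have k2 := hCe ω hω
      rw [hA0] at k1
      rw [hC0] at k2
      split_ifs
      · exact k2
      · exact k1
      · rw [abs_zero]
        positivity
    refine ⟨fun x => deg_afp _ _ _ _, fun x b b' hb hb' => ?_, fun ω hω => (hval ω hω).symm,
      fun ω hω => ?_, fun ω hω => ?_, fun ω hω b hb o => ?_⟩
    · rw [eval_afp, eval_afp, hb, hb' y (Finset.mem_singleton_self y)]
    · show |F.x ω v - eval (bt F ω) (afp y _ _ _)| ≤ _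
      rw [hval ω hω, eval_afp]
      have a1 := hgg ω (b1 ω (c1 ω hω))
      have a2 : |gd (ptr F J ω) - (f1 (ptr F J ω) : ℝ) / 2 ^ (W + M)| ≤ 1 / 2 ^ (W + M) := by
        rw [hf1]
        exact floor_div_near pQ
      have e1 : F.x ω v - ((f1 (ptr F J ω) : ℝ) / 2 ^ (W + M) +
          ((f0 (ptr F J ω) 1 : ℝ) / 2 ^ M * bt F ω none +
          (f0 (ptr F J ω) 0 : ℝ) / 2 ^ M * bt F ω (some y))) =
          (g ω - gd (ptr F J ω)) + (gd (ptr F J ω) - (f1 (ptr F J ω) : ℝ) / 2 ^ (W + M)) := by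
        rw [hg, hA0, hC0]
        show _ = (F.x ω v - ((f0 (ptr F J ω) 1 : ℝ) / 2 ^ M * bt F ω none +
          (f0 (ptr F J ω) 0 : ℝ) / 2 ^ M * bt F ω (some y)) - gd (ptr F J ω)) + _
        ring
      show |F.x ω v - ((f1 (ptr F J ω) : ℝ) / 2 ^ (W + M) +
          ((f0 (ptr F J ω) 1 : ℝ) / 2 ^ M * bt F ω none +
          (f0 (ptr F J ω) 0 : ℝ) / 2 ^ M * bt F ω (some y)))| ≤ _
      rw [e1]
      refine (abs_add_le _ _).trans ((add_le_add a1 a2).trans ?_)
      rw [← two_mul, mul_one_div, div_le_div_iff₀ pQ (by positivity), one_mul, ← pow_succ']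
      exact pow_le_pow_right₀ (by norm_num) (by omega)
    · show |F.d ω v - ∑ o, bd F ω o * eval (bt F ω) (pderiv o (afp y _ _ _))| ≤ _
      rw [hval ω hω]
      have e1 : ∑ o, bd F ω o * eval (bt F ω) (pderiv o (afp y ((f1 (ptr F J ω) : ℝ) / 2 ^ (W + M))
          ((f0 (ptr F J ω) 0 : ℝ) / 2 ^ M) ((f0 (ptr F J ω) 1 : ℝ) / 2 ^ M))) =
          C0 (ptr F J ω) + A0 (ptr F J ω) * F.d ω y := by
        rw [Fintype.sum_option]
        have e2 : bd F ω none = 1 := rfl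
        rw [e2, one_mul, pd_afp, if_pos rfl, Finset.sum_eq_single y]
        · rw [pd_afp, if_neg (by simp), if_pos rfl, hA0, hC0]
          have e3 : bd F ω (some y) = F.d ω y := rfl
          rw [e3]
          ring
        · intro i _ hi
          rw [pd_afp, if_neg (by simp), if_neg (by
            intro hh
            exact hi (Option.some_injective _ hh)), mul_zero]
        · intro hh
          exact absurd (Finset.mem_univ _) hh
      show |F.d ω v - ∑ o, bd F ω o * eval (bt F ω) (pderiv o (afp y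
        ((f1 (ptr F J ω) : ℝ) / 2 ^ (W + M)) ((f0 (ptr F J ω) 0 : ℝ) / 2 ^ M)
        ((f0 (ptr F J ω) 1 : ℝ) / 2 ^ M)))| ≤ _
      rw [e1]
      refine (hvel ω (b1 ω (c1 ω hω))).trans ?_
      rw [div_le_div_iff₀ pM (by positivity), ← pow_add]
      calc (3 : ℝ) * 2 ^ P ≤ 2 ^ 3 * 2 ^ P := by
            refine mul_le_mul_of_nonneg_right (by norm_num) (by positivity)
        _ = 2 ^ (3 + P) := by rw [pow_add]
        _ ≤ 2 ^ (W + M) := pow_le_pow_right₀ (by norm_num) (by omega)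
    · show |eval b (pderiv o (afp y _ _ _))| ≤ _
      rw [hval ω hω]
      exact hpd ω (b1 ω (c1 ω hω)) b o

end Pool.MIC6
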