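import Pool.Agent.H6.OWN.AffF
import Pool.Agent.H6.OWN.Lab

/-!
# Affine labels over two coordinates, for one family

`aff_lab`: a closed label of `k` over `κ`, `ι` may be taken affine, with closed coefficients, in the
situation of `aff_fam`, if `ι` has a closed label over `κ` with the natural precision.
-/

set_option autoImplicit false

namespace Pool.MIC6

open Finset MvPolynomial
open Pool.Agent.H49.Ent Pool.Agent.H32.Dense Pool.STK Pool.KA Pool.KSAT Pool.K2S Pool.PB Pool.GEN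
open Pool.FLF (Fam.sub)
open Pool.GRD (LbP)
open Pool.PB.Trl (rt rt_mem t_rt)

variable {n J : ℕ}

/-- An affine polynomial in the time and two coordinates. -/
noncomputable def afq (κ ι : Fin n) (c₀ c₁ a b : ℝ) : MvPolynomial (Option (Fin n)) ℝ :=
  C c₀ + (C c₁ * X none + (C a * X (some κ) + C b * X (some ι)))

theorem eval_afq (κ ι : Fin n) (c₀ c₁ a b : ℝ) (x : Option (Fin n) → ℝ) :
    eval x (afq κ ι c₀ c₁ a b) = c₀ + (c₁ * x none + (a * x (some κ) + b * x (some ι))) := by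
  unfold afq
  simp only [map_add, map_mul, eval_C, eval_X]

theorem deg_afq (κ ι : Fin n) (c₀ c₁ a b : ℝ) : (afq κ ι c₀ c₁ a b).totalDegree ≤ 1 := by
  unfold afq
  have h : ∀ (r : ℝ) (o : Option (Fin n)), (C r * X o : MvPolynomial (Option (Fin n)) ℝ).totalDegree
      ≤ 1 := by
    intro r o
    refine (totalDegree_mul _ _).trans ?_
    rw [totalDegree_C, totalDegree_X]
  refine (totalDegree_add _ _).trans (max_le ?_ ?_)
  · rw [totalDegree_C]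
    exact Nat.zero_le _
  · exact (totalDegree_add _ _).trans (max_le (h _ _)
      ((totalDegree_add _ _).trans (max_le (h _ _) (h _ _))))

theorem fl_eq_near' {a : ℕ} {x x' : ℝ} (h : ⌊(2 : ℝ) ^ a * x⌋ = ⌊(2 : ℝ) ^ a * x'⌋) :
    |x - x'| ≤ 1 / 2 ^ a := by
  have pa : (0 : ℝ) < 2 ^ a := by positivity
  have a1 := Int.floor_le ((2 : ℝ) ^ a * x)
  have a2 := Int.lt_floor_add_one ((2 : ℝ) ^ a * x)
  have a3 := Int.floor_le ((2 : ℝ) ^ a * x')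
  have a4 := Int.lt_floor_add_one ((2 : ℝ) ^ a * x')
  rw [h] at a1 a2
  rw [le_div_iff₀ pa]
  have e1 : |x - x'| * 2 ^ a = |2 ^ a * x - 2 ^ a * x'| := by
    rw [← mul_sub, abs_mul, abs_of_pos pa, mul_comm]
  rw [e1, abs_le]
  constructor <;> linarith

/-- The label of the coordinate `ι` over `κ` is affine along the lines. -/
theorem tie_one (n K : ℕ) : ∃ C : ℝ, 1 ≤ C ∧ ∀ {J : ℕ} (F : Fam n J) (A : F.Ω → Prop)
    (hA : 0 < Pe F.p A) {κ ι : Fin n} {r w P : ℕ} {V : Type}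
    {z : PtT F → V} {z' : LnT F → V} {G : V → MvPolynomial (Option (Fin n)) ℝ} {U : Type}
    {Φ : F.Ω → U} {a : F.Ω → ℝ} {α ρ s₀ err θ : ℝ},
    LbP F {κ} ι K r w P A z z' G → w ≤ J → 0 ≤ θ →
    (Fam.sub F A hA).Tm θ → C * (θ + 1) ≤ ((J : ℝ) - w) * Real.log 2 → 0 < ρ → ρ ≤ 1 →
    s₀ ≤ ρ * (1 / 2 ^ w) / 16 →
    (∀ ω ω', A ω → A ω' → Φ ω = Φ ω' → ptr F r ω = ptr F r ω' ∧ |F.x ω' κ - F.x ω κ| ≤ s₀ ∧
      |F.x ω' ι - F.x ω ι| ≤ s₀ ∧ |F.d ω' ι - F.d ω ι - a ω * (F.d ω' κ - F.d ω κ)| ≤ err) →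
    (∀ ω, A ω → |a ω| ≤ α) →
    (∀ B : F.Ω → Prop, Sub B A → Pe F.p A / 2 ≤ Pe F.p B → ∃ B' : F.Ω → Prop, Sub B' B ∧
      Pe F.p B / 2 ≤ Pe F.p B' ∧ ∀ ω, B' ω → ∃ ν : Fin (K + 2) → F.Ω,
        (∀ i, B (ν i) ∧ Φ (ν i) = Φ ω) ∧ ∀ i j, i ≠ j → ρ ≤ |F.d (ν i) κ - F.d (ν j) κ|) →
    ∃ B : F.Ω → Prop, Sub B A ∧ Pe F.p A / 4 ≤ Pe F.p B ∧ ∀ ω, B ω →
      ∀ σ ∈ Set.Icc (0 : ℝ) 1, ∀ η : ℝ, |η| ≤ 1 → ∀ b : Option (Fin n) → ℝ,
      b none = wt F w ω σ → b (some κ) = wp F w ω σ κ + 1 / 2 ^ w * η →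
      |eval b (G (z' (slam F w ω))) - (wp F w ω σ ι + a ω * (1 / 2 ^ w * η))| ≤
        C * (1 / ρ) ^ (K + 1) *
        (Real.exp (C * (θ + 1)) / 2 ^ P + (1 + α) * s₀ + 1 / 2 ^ w * err) := by
  obtain ⟨C, hC, htie⟩ := tie_fam n K
  refine ⟨C, hC, ?_⟩
  intro J F A hA κ ι r w P V z z' G U Φ a α ρ s₀ err θ hL hw hθ hTm hJ hρ hρ1 hs hfib ha hnod
  obtain ⟨B, b1, b2, b3⟩ := htie F A hA (a := a) (sl := fun _ _ => 1) (α := α) (ρ := ρ)
    (s₀ := s₀) (err := err) (M₂ := 0) (θ := θ) (Φ := Φ) hL hw hθ hTm hJ hρ hρ1 hs le_rfl hfib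
    (fun ω ω' hω hω' h σ hσ b hbn hb => by
      rw [hL.dep (z' (slam F w ω)) b (mvp (F.u ω) (F.d ω) (fun _ => 1) (wt F w ω σ)
        (wp F w ω' σ κ - wp F w ω σ κ)) hbn (fun i hi => ?_), sub_self, abs_zero]
      rw [Finset.mem_singleton] at hi
      subst hi
      rw [hb i (Finset.mem_singleton_self i)]
      show wp F w ω' σ i = F.u ω i + F.d ω i * wt F w ω σ + 1 * (wp F w ω' σ i - wp F w ω σ i)
      unfold wp
      ring) ha hnod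
  refine ⟨B, b1, b2, fun ω hω σ hσ η hη b hbn hbκ => ?_⟩
  have h1 := b3 ω hω σ hσ η hη
  rw [add_zero] at h1
  rw [hL.dep (z' (slam F w ω)) b (mvp (F.u ω) (F.d ω) (fun _ => 1) (wt F w ω σ)
    (1 / 2 ^ w * η)) hbn (fun i hi => ?_)]
  · exact h1
  · rw [Finset.mem_singleton] at hi
    subst hi
    rw [hbκ]
    show _ = F.u ω i + F.d ω i * wt F w ω σ + 1 * (1 / 2 ^ w * η)
    rw [one_mul]
    rfl

/-- **Affine labels over two coordinates.** -/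
theorem aff_lab (n K K₂ : ℕ) (hKK : K ≤ K₂) : ∃ C : ℝ, 1 ≤ C ∧ ∀ {J : ℕ} (F : Fam n J)
    (A : F.Ω → Prop) (_ : 0 < Pe F.p A) {κ ι k : Fin n} {r w P P₂ Q : ℕ} {V : Type}
    {z : PtT F → V} {z' : LnT F → V} {G : V → MvPolynomial (Option (Fin n)) ℝ} {V₂ : Type}
    {z₂ : PtT F → V₂} {z₂' : LnT F → V₂} {G₂ : V₂ → MvPolynomial (Option (Fin n)) ℝ} {U : Type}
    {Φ : F.Ω → U} {a Ju J0 : F.Ω → ℝ} {Hb H β μ s α ρ s₀ err θ : ℝ}, κ ≠ ι →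
    LbP F {κ, ι} k K r w P A z z' G → LbP F {κ} ι K₂ r w P₂ A z₂ z₂' G₂ → w + 2 ≤ J →
    w + 2 ≤ r → 0 ≤ θ →
    (∀ (B : F.Ω → Prop) (hB : 0 < Pe F.p B), Sub B A → Pe F.p A / 4 ≤ Pe F.p B →
      (Fam.sub F B hB).Tm θ) → C * (θ + 1) ≤ ((J : ℝ) - w) * Real.log 2 → 0 < ρ → ρ ≤ 1 →
    s₀ ≤ ρ * (1 / 2 ^ w) / 16 → 0 ≤ β → 0 ≤ μ → 0 < s → 0 < H →
    (∀ ω, A ω → |Ju ω - J0 ω| * (1 / 2 ^ w) ≤ H) →
    (∀ ω, A ω → |Ju ω| * (3 / 2 ^ w) + 2 * μ ≤ Hb) →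
    (∀ ω, A ω → ∀ σ ∈ Set.Icc (0 : ℝ) 1, ∀ b : Option (Fin n) → ℝ,
      b none = wt F w ω σ → |b (some κ) - wp F w ω σ κ| ≤ 3 / 2 ^ w →
      |b (some ι) - wp F w ω σ ι| ≤ Hb →
      |eval b (pderiv (some ι) (G (z' (slam F w ω))))| ≤ β) →
    (∀ ω ω', A ω → A ω' → Φ ω = Φ ω' → ptr F r ω = ptr F r ω' ∧ |F.x ω' κ - F.x ω κ| ≤ s₀ ∧
      |F.x ω' k - F.x ω k| ≤ s₀ ∧ |F.x ω' ι - F.x ω ι| ≤ s₀ ∧
      |F.d ω' k - F.d ω k - a ω * (F.d ω' κ - F.d ω κ)| ≤ err ∧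
      |F.x ω' ι - F.x ω ι - Ju ω * (F.x ω' κ - F.x ω κ)| ≤ μ ∧
        |F.d ω' ι - F.d ω ι - Ju ω * (F.d ω' κ - F.d ω κ)| ≤ 2 ^ w * μ) →
    (∀ ω, A ω → |a ω| ≤ α) → (∀ ω, A ω → |Ju ω| ≤ α) →
    (∀ B : F.Ω → Prop, Sub B A → Pe F.p A / 8 ≤ Pe F.p B → ∃ B' : F.Ω → Prop, Sub B' B ∧
      Pe F.p B / 2 ≤ Pe F.p B' ∧ ∀ ω, B' ω → ∃ ν : Fin (K₂ + 2) → F.Ω,
        (∀ i, B (ν i) ∧ Φ (ν i) = Φ ω) ∧ ∀ i j, i ≠ j → ρ ≤ |F.d (ν i) κ - F.d (ν j) κ|) →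
    (∀ B : F.Ω → Prop, Sub B A → Pe F.p A / 16 ≤ Pe F.p B → ∃ B' : F.Ω → Prop, Sub B' B ∧
      Pe F.p B / 2 ≤ Pe F.p B' ∧ ∀ ω, B' ω → ∃ ν : Fin (K + 2) → F.Ω,
        (∀ i, B (ν i) ∧ slam F w (ν i) = slam F w ω ∧ J0 (ν i) = J0 ω) ∧
          ∀ i j, i ≠ j → s ≤ |Ju (ν i) - Ju (ν j)|) →
    2 * (C * (1 / ρ) ^ (K₂ + 1) *
      (Real.exp (C * (θ + 1)) / 2 ^ P₂ + (1 + α) * s₀ + μ)) ≤ H / 2 →
    2 * (C * (H / (s * (1 / 2 ^ w))) ^ (K + 1) * (C * (1 / ρ) ^ (K + 1) *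
      (Real.exp (C * (θ + 1)) / 2 ^ P + β * (2 * μ) + (1 + α) * s₀ + 1 / 2 ^ w * err))) ≤
      1 / 2 ^ Q →
    ∃ B : F.Ω → Prop, Sub B A ∧ Pe F.p A ≤ 160 * Pe F.p B ∧
      ∃ (V' : Type) (zp : PtT F → V') (zs : LnT F → V') (cf : V' → Fin 4 → ℝ),
        LbP F {κ, ι} k 1 r (w + 2) Q B zp zs
          (fun x => afq κ ι (cf x 0) (cf x 1) (cf x 2) (cf x 3)) ∧
        ∀ ω, B ω → |cf (zs (slam F (w + 2) ω)) 3| ≤ β ∧ ∀ σ ∈ Set.Icc (0 : ℝ) 1,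
          |wp F (w + 2) ω σ k - eval (wpt F (w + 2) ω σ) (afq κ ι (cf (zs (slam F (w + 2) ω)) 0)
            (cf (zs (slam F (w + 2) ω)) 1) (cf (zs (slam F (w + 2) ω)) 2)
            (cf (zs (slam F (w + 2) ω)) 3))| ≤ 1 / 2 ^ Q := by
  classical
  obtain ⟨C₁, hC₁, hone⟩ := tie_one n K₂
  obtain ⟨C₂, hC₂, haff⟩ := aff_fam n K (R := 2) (by norm_num)
  refine ⟨C₁ + C₂, by linarith, ?_⟩
  intro J F A hA κ ι k r w P P₂ Q V z z' G V₂ z₂ z₂' G₂ U Φ a Ju J0 Hb H β μ s α ρ s₀ err θ hκι hL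
    hL₂ hwJ hwr hθ hTm hJ hρ hρ1 hs hβ hμ hs0 hH0 hJ0 hJH hgr hfib ha hJu hnod hnod2 hH2 hQ
  obtain ⟨C, hC⟩ : ∃ C, C = C₁ + C₂ := ⟨_, rfl⟩
  rw [← hC] at hJ hH2 hQ
  have hCC₁ : C₁ ≤ C := by linarith
  have hCC₂ : C₂ ≤ C := by linarith
  have pw : (0 : ℝ) < 1 / 2 ^ w := by positivity
  -- the label of `ι`
  obtain ⟨B₁, b11, b12, b13⟩ := hone F A hA (a := Ju) (α := α) (ρ := ρ) (s₀ := s₀)
    (err := 2 ^ w * μ) (θ := θ) (Φ := Φ) hL₂ (by omega) hθ (hTm A hA (fun _ h => h) (by linarith))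
    ((mul_le_mul_of_nonneg_right hCC₁ (by linarith)).trans hJ) hρ hρ1 hs
    (fun ω ω' hω hω' h => by
      obtain ⟨a1, a2, a3, a4, a5, a6, a7⟩ := hfib ω ω' hω hω' h
      exact ⟨a1, a2, a4, a7⟩) hJu (fun B hB hPB => hnod B hB (by linarith))
  have hB₁0 : 0 < Pe F.p B₁ := by linarith
  -- the label of `k`
  obtain ⟨B₂, b21, b22, b23⟩ := haff F B₁ hB₁0 (κ := κ) (ι := ι) (k := k) (Φ := Φ) (a := a)
    (Ju := Ju) (J0 := J0) (Hb := Hb) (H := H) (β := β) (μ := μ) (s := s) (α := α) (ρ := ρ)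
    (s₀ := s₀) (err := err) (θ := θ) hκι (hL.sub b11) (by omega) hθ
    (hTm B₁ hB₁0 b11 b12) ((mul_le_mul_of_nonneg_right hCC₂ (by linarith)).trans hJ) hρ hρ1 hs
    hβ hμ hs0 hH0 (fun ω hω => hJ0 ω (b11 ω hω)) (fun ω hω => hJH ω (b11 ω hω))
    (fun ω hω => hgr ω (b11 ω hω)) (fun ω ω' hω hω' h => by
      obtain ⟨a1, a2, a3, a4, a5, a6, a7⟩ := hfib ω ω' (b11 ω hω) (b11 ω' hω') h
      exact ⟨a1, a2, a3, a5, a6, a7⟩) (fun ω hω => ha ω (b11 ω hω))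
    (fun B hB hPB => by
      obtain ⟨B', c1, c2, c3⟩ := hnod B (fun ω hω => b11 ω (hB ω hω)) (by linarith)
      refine ⟨B', c1, c2, fun ω hω => ?_⟩
      obtain ⟨ν, d1, d2⟩ := c3 ω hω
      exact ⟨fun i => ν (Fin.castLE (by omega) i), fun i => d1 _, fun i j hij => d2 _ _ fun he =>
        hij (Fin.castLE_injective _ he)⟩)
    (fun B hB hPB => hnod2 B (fun ω hω => b11 ω (hB ω hω)) (by linarith))
  -- the cell of the coordinate `κ`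
  obtain ⟨φ₀, hφ₀⟩ := ptr_coarse F hwr
  obtain ⟨B₃, b31, b32, φ₁, b33⟩ := Pool.S6K.exact_label F.isLaw 2 (slam F (w + 2))
    (fun ω (_ : Fin 1) => (φ₀ (ptr F r ω)).1 κ) B₂ (fun ω ω' hω hω' h i => by
      have e1 : ∀ ω, (φ₀ (ptr F r ω)).1 κ = ⌊(2 : ℝ) ^ (w + 2) * F.x ω κ⌋ := fun ω => by
        rw [← hφ₀]
        rfl
      rw [e1, e1]
      refine floor_diff ?_
      have k1 := wp_slam h (rt F (w + 2) ω) κ
      rw [wp_eq F hwJ, wp_eq F hwJ, sub_self, mul_zero, zero_mul, add_zero] at k1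
      have r1 := rt_mem F (w + 2) ω
      have r2 := rt_mem F (w + 2) ω'
      rw [← mul_sub, abs_mul, abs_of_pos (by positivity : (0 : ℝ) < 2 ^ (w + 2)), k1]
      have k2 : F.x ω' κ + 1 / 2 ^ (w + 2) * (rt F (w + 2) ω - rt F (w + 2) ω') * F.d ω' κ -
          F.x ω' κ = 1 / 2 ^ (w + 2) * ((rt F (w + 2) ω - rt F (w + 2) ω') * F.d ω' κ) := by ring
      rw [k2, abs_mul, abs_of_pos (by positivity : (0 : ℝ) < 1 / 2 ^ (w + 2)), ← mul_assoc,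
        mul_one_div_cancel (by positivity : (2 : ℝ) ^ (w + 2) ≠ 0), one_mul, abs_mul]
      have k3 : |rt F (w + 2) ω - rt F (w + 2) ω'| ≤ 1 := by
        rw [abs_le]
        constructor <;> linarith [r1.1, r1.2, r2.1, r2.2]
      have k4 := mul_le_mul k3 (F.dir ω' κ) (abs_nonneg _) zero_le_one
      push_cast
      linarith)
  -- the closed datum
  obtain ⟨zp, hzp⟩ : ∃ zp : PtT F → (V × V₂) × ℤ × ℕ, zp = fun p =>
    ((z p, z₂ p), (φ₀ p).1 κ, p.2.1 / 2 ^ (J - (w + 2))) := ⟨_, rfl⟩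
  obtain ⟨dn, hdn⟩ : ∃ dn : LnT F → LnT F, dn = fun s => (s.1, s.2.1, s.2.2 / 2 ^ (w + 2 - w)) :=
    ⟨_, rfl⟩
  have hdn' : ∀ ω, dn (slam F (w + 2) ω) = slam F w ω := fun ω => by
    rw [hdn]
    exact (slam_coarse F (by omega) hwJ ω).symm
  obtain ⟨zs, hzs⟩ : ∃ zs : LnT F → (V × V₂) × ℤ × ℕ, zs = fun s =>
    ((z' (dn s), z₂' (dn s)), φ₁ s 0, s.2.2) := ⟨_, rfl⟩
  have hcls : ∀ ω, B₃ ω → zp (ptr F r ω) = zs (slam F (w + 2) ω) := by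
    intro ω hω
    have hωA := b11 _ (b21 _ (b31 ω hω))
    rw [hzp, hzs]
    show ((z (ptr F r ω), z₂ (ptr F r ω)), (φ₀ (ptr F r ω)).1 κ, F.T ω / 2 ^ (J - (w + 2))) =
      ((z' (dn (slam F (w + 2) ω)), z₂' (dn (slam F (w + 2) ω))), φ₁ (slam F (w + 2) ω) 0,
        F.T ω / 2 ^ (J - (w + 2)))
    rw [hdn', hL.cls ω hωA, hL₂.cls ω hωA]
    have := congrFun (b33 ω hω) 0
    rw [← this]
  -- the coefficients
  obtain ⟨ce, hce⟩ : ∃ ce : F.Ω → Fin 4 → ℝ, ce = fun ω =>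
      ![F.u ω k - gsl w z' G κ (slam F w ω) * F.u ω κ - gsl w z' G ι (slam F w ω) * F.u ω ι,
        F.d ω k - gsl w z' G κ (slam F w ω) * F.d ω κ - gsl w z' G ι (slam F w ω) * F.d ω ι,
        gsl w z' G κ (slam F w ω), gsl w z' G ι (slam F w ω)] := ⟨_, rfl⟩
  obtain ⟨cf, hcf⟩ : ∃ cf : (V × V₂) × ℤ × ℕ → Fin 4 → ℝ, cf = fun x =>
      if h : ∃ ω, B₃ ω ∧ zp (ptr F r ω) = x then ce h.choose else 0 := ⟨_, rfl⟩
  have hβ : ∀ ω, B₃ ω → |cf (zs (slam F (w + 2) ω)) 3| ≤ β := by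
    intro ω hω
    have hex : ∃ ω₀, B₃ ω₀ ∧ zp (ptr F r ω₀) = zp (ptr F r ω) := ⟨ω, hω, rfl⟩
    have hB₀ := hex.choose_spec.1
    have hω₀A := b11 _ (b21 _ (b31 _ hB₀))
    rw [← hcls ω hω, hcf]
    show |(if h : ∃ ω', B₃ ω' ∧ zp (ptr F r ω') = zp (ptr F r ω) then ce h.choose else 0) 3| ≤ β
    rw [dif_pos hex, hce]
    show |gsl w z' G ι (slam F w hex.choose)| ≤ β
    unfold gsl
    rw [gpt_eq F (by omega)]
    refine hgr _ hω₀A 0 ⟨le_rfl, zero_le_one⟩ _ rfl ?_ ?_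
    · show |wp F w hex.choose 0 κ - wp F w hex.choose 0 κ| ≤ _
      rw [sub_self, abs_zero]
      positivity
    · show |wp F w hex.choose 0 ι - wp F w hex.choose 0 ι| ≤ _
      rw [sub_self, abs_zero]
      refine le_trans ?_ (hJH _ hω₀A)
      positivity
  have hall : ∀ ω, B₃ ω → ∀ σ ∈ Set.Icc (0 : ℝ) 1,
      |wp F (w + 2) ω σ k - eval (wpt F (w + 2) ω σ) (afq κ ι (cf (zs (slam F (w + 2) ω)) 0)
        (cf (zs (slam F (w + 2) ω)) 1) (cf (zs (slam F (w + 2) ω)) 2)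
        (cf (zs (slam F (w + 2) ω)) 3))| ≤ 1 / 2 ^ Q := by
    intro ω hω σ₂ hσ₂
    have hex : ∃ ω₀, B₃ ω₀ ∧ zp (ptr F r ω₀) = zp (ptr F r ω) := ⟨ω, hω, rfl⟩
    obtain ⟨ω₀, hω₀⟩ : ∃ ω₀, ω₀ = hex.choose := ⟨_, rfl⟩
    have hsp := hex.choose_spec
    rw [← hω₀] at hsp
    obtain ⟨hB₀, hkey⟩ := hsp
    have hcf' : cf (zs (slam F (w + 2) ω)) = ce ω₀ := by
      rw [← hcls ω hω, hcf]
      show (if h : ∃ ω', B₃ ω' ∧ zp (ptr F r ω') = zp (ptr F r ω) then ce h.choose else 0) = _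
      rw [dif_pos hex, hω₀]
    have hωA := b11 _ (b21 _ (b31 ω hω))
    have hω₀A := b11 _ (b21 _ (b31 ω₀ hB₀))
    have hωB₂ := b31 ω hω
    have hω₀B₂ := b31 ω₀ hB₀
    have hωB₁ := b21 _ hωB₂
    have hω₀B₁ := b21 _ hω₀B₂
    rw [hzp] at hkey
    have k1 := Prod.ext_iff.mp hkey
    have k2 := Prod.ext_iff.mp k1.1
    have k3 := Prod.ext_iff.mp k1.2
    have kz : z (ptr F r ω₀) = z (ptr F r ω) := k2.1
    have kz₂ : z₂ (ptr F r ω₀) = z₂ (ptr F r ω) := k2.2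
    have kc : (φ₀ (ptr F r ω₀)).1 κ = (φ₀ (ptr F r ω)).1 κ := k3.1
    have kT : F.T ω₀ / 2 ^ (J - (w + 2)) = F.T ω / 2 ^ (J - (w + 2)) := k3.2
    have hzz : z' (slam F w ω₀) = z' (slam F w ω) := by
      rw [← hL.cls ω hωA, ← hL.cls ω₀ hω₀A, kz]
    have hzz₂ : z₂' (slam F w ω₀) = z₂' (slam F w ω) := by
      rw [← hL₂.cls ω hωA, ← hL₂.cls ω₀ hω₀A, kz₂]
    have hT2 : ∀ ω : F.Ω, F.T ω / 2 ^ (J - w) = F.T ω / 2 ^ (J - (w + 2)) / 2 ^ 2 := by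
      intro ω
      rw [Nat.div_div_eq_div_mul, ← pow_add]
      congr 2
      omega
    -- the times
    obtain ⟨N, hN⟩ : ∃ N : ℕ, N = F.T ω / 2 ^ (J - (w + 2)) := ⟨_, rfl⟩
    have hs1 : (slam F w ω).2.2 = N / 2 ^ 2 := by
      rw [hN]
      exact hT2 ω
    have hs2 : (slam F w ω₀).2.2 = N / 2 ^ 2 := by
      rw [hN, ← kT]
      exact hT2 ω₀
    have hs3 : (slam F (w + 2) ω).2.2 = N := hN.symm
    have hs4 : (slam F (w + 2) ω₀).2.2 = N := by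
      rw [hN]
      exact kT
    obtain ⟨σ, hσ⟩ : ∃ σ : ℝ, σ = ((N : ℝ) - 4 * (N / 2 ^ 2 : ℕ) + σ₂) / 4 := ⟨_, rfl⟩
    have hσm : σ ∈ Set.Icc (0 : ℝ) 1 := by
      have m1 : 4 * (N / 2 ^ 2) ≤ N := by omega
      have m2 : N ≤ 4 * (N / 2 ^ 2) + 3 := by omega
      have m1' : (4 : ℝ) * (N / 2 ^ 2 : ℕ) ≤ N := by exact_mod_cast m1
      have m2' : (N : ℝ) ≤ 4 * (N / 2 ^ 2 : ℕ) + 3 := by exact_mod_cast m2
      rw [hσ]
      constructor <;> linarith [hσ₂.1, hσ₂.2]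
    obtain ⟨t, htd⟩ : ∃ t, t = wt F (w + 2) ω σ₂ := ⟨_, rfl⟩
    have hpw2 : (2 : ℝ) ^ (w + 2) = 4 * 2 ^ w := by rw [pow_add]; ring
    have htv : t = ((N : ℝ) + σ₂) / 2 ^ (w + 2) := by
      rw [htd]
      unfold wt
      rw [hs3]
      ring
    have htw : ∀ ω', (slam F w ω').2.2 = N / 2 ^ 2 → wt F w ω' σ = t := by
      intro ω' h'
      rw [htv, hσ]
      unfold wt
      rw [h', hpw2]
      field_simp
      ring
    have ht : wt F w ω₀ σ = t := htw ω₀ hs2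
    have ht' : wt F w ω σ = t := htw ω hs1
    have htt : ∀ ω', (slam F (w + 2) ω').2.2 = N → |t - F.t ω'| ≤ 1 / 2 ^ (w + 2) := by
      intro ω' h'
      have e2 := t_rt F hwJ ω'
      rw [e2, h', htv]
      have r2 := rt_mem F (w + 2) ω'
      have e4 : ((N : ℝ) + σ₂) / 2 ^ (w + 2) - ((N : ℝ) + rt F (w + 2) ω') / 2 ^ (w + 2) =
          (σ₂ - rt F (w + 2) ω') / 2 ^ (w + 2) := by ring
      rw [e4, abs_div, abs_of_pos (by positivity : (0 : ℝ) < 2 ^ (w + 2))]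
      refine div_le_div_of_nonneg_right ?_ (by positivity)
      rw [abs_le]
      constructor <;> linarith [r2.1, r2.2, hσ₂.1, hσ₂.2]
    have hwp : ∀ ω' j, wt F w ω' σ = t → wp F w ω' σ j = F.x ω' j + (t - F.t ω') * F.d ω' j := by
      intro ω' j h'
      unfold wp
      rw [h']
      show F.u ω' j + F.d ω' j * t = (F.u ω' j + F.t ω' * F.d ω' j) + _
      ring
    have hwp2 : ∀ j, wp F (w + 2) ω σ₂ j = wp F w ω σ j := by
      intro j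
      unfold wp
      rw [ht', htd]
    obtain ⟨bb, hbb⟩ : ∃ bb, bb = wpt F (w + 2) ω σ₂ := ⟨_, rfl⟩
    have hbn : bb none = t := by rw [hbb, htd]; rfl
    have hbs : ∀ j, bb (some j) = wp F w ω σ j := fun j => by rw [hbb, ← hwp2]; rfl
    -- the coordinate `κ`
    have hy : |wp F w ω σ κ - wp F w ω₀ σ κ| ≤ 1 / 2 ^ w := by
      have e1 : ∀ ω, (φ₀ (ptr F r ω)).1 κ = ⌊(2 : ℝ) ^ (w + 2) * F.x ω κ⌋ := fun ω => by
        rw [← hφ₀]
        rfl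
      rw [e1, e1] at kc
      have e2 := fl_eq_near' kc
      rw [hwp ω κ ht', hwp ω₀ κ ht]
      have e3 : ∀ ω', (slam F (w + 2) ω').2.2 = N → |(t - F.t ω') * F.d ω' κ| ≤
          1 / 2 ^ (w + 2) := by
        intro ω' h'
        rw [abs_mul]
        have := mul_le_mul (htt ω' h') (F.dir ω' κ) (abs_nonneg _) (by positivity)
        linarith
      have e4 : F.x ω κ + (t - F.t ω) * F.d ω κ - (F.x ω₀ κ + (t - F.t ω₀) * F.d ω₀ κ) =
          -(F.x ω₀ κ - F.x ω κ) + ((t - F.t ω) * F.d ω κ - (t - F.t ω₀) * F.d ω₀ κ) := by ring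
      rw [e4]
      refine (abs_add_le _ _).trans ((add_le_add le_rfl (abs_sub _ _)).trans ?_)
      rw [abs_neg]
      have e5 : (1 : ℝ) / 2 ^ (w + 2) = 1 / 2 ^ w / 4 := by
        rw [pow_add]
        field_simp
        norm_num
      have e6 := e3 ω hs3
      have e7 := e3 ω₀ hs4
      rw [e5] at e2 e6 e7
      linarith
    obtain ⟨η, hη⟩ : ∃ η, η = (wp F w ω σ κ - wp F w ω₀ σ κ) / (1 / 2 ^ w) := ⟨_, rfl⟩
    have hηm : 1 / 2 ^ w * η = wp F w ω σ κ - wp F w ω₀ σ κ := by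
      rw [hη]
      field_simp
    have hη1 : |η| ≤ 1 := by
      rw [hη, abs_div, abs_of_pos pw, div_le_one pw]
      exact hy
    have hα : 0 ≤ α := (abs_nonneg _).trans (ha ω hωA)
    have hs₀0 : 0 ≤ s₀ := (abs_nonneg _).trans (hfib ω ω hωA hωA rfl).2.1
    have herr : 0 ≤ err := (abs_nonneg _).trans (hfib ω ω hωA hωA rfl).2.2.2.2.1
    -- the coordinate `ι`
    have hu : |wp F w ω σ ι - (wp F w ω₀ σ ι + Ju ω₀ * (1 / 2 ^ w * η))| ≤ H / 2 := by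
      have e1 := b13 ω₀ hω₀B₁ σ hσm η hη1 bb (by rw [hbn, ht]) (by
        rw [hbs, hηm]
        ring)
      have e2 := b13 ω hωB₁ σ hσm 0 (by rw [abs_zero]; exact zero_le_one) bb (by rw [hbn, ht'])
        (by
        rw [hbs]
        ring)
      rw [hzz₂] at e1
      rw [mul_zero, mul_zero, add_zero, abs_sub_comm] at e2
      have e3 : wp F w ω σ ι - (wp F w ω₀ σ ι + Ju ω₀ * (1 / 2 ^ w * η)) =
          (wp F w ω σ ι - eval bb (G₂ (z₂' (slam F w ω)))) +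
          (eval bb (G₂ (z₂' (slam F w ω))) -
            (wp F w ω₀ σ ι + Ju ω₀ * (1 / 2 ^ w * η))) := by ring
      rw [e3]
      refine (abs_add_le _ _).trans ((add_le_add e2 e1).trans (le_trans ?_ hH2))
      rw [← two_mul]
      refine mul_le_mul_of_nonneg_left ?_ (by norm_num)
      have e4 : 1 / 2 ^ w * (2 ^ w * μ) = μ := by field_simp
      rw [e4]
      have e5 : Real.exp (C₁ * (θ + 1)) / 2 ^ P₂ ≤ Real.exp (C * (θ + 1)) / 2 ^ P₂ :=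
        div_le_div_of_nonneg_right (Real.exp_le_exp.2 (mul_le_mul_of_nonneg_right hCC₁
          (by linarith))) (by positivity)
      refine mul_le_mul (mul_le_mul_of_nonneg_right hCC₁ (by positivity)) (by linarith)
        (by positivity) (by rw [hC]; positivity)
    obtain ⟨ξ, hξ⟩ : ∃ ξ, ξ = (wp F w ω σ ι - wp F w ω₀ σ ι - J0 ω₀ * (1 / 2 ^ w * η)) / H :=
      ⟨_, rfl⟩
    have hξm : H * ξ = wp F w ω σ ι - wp F w ω₀ σ ι - J0 ω₀ * (1 / 2 ^ w * η) := by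
      rw [hξ]
      field_simp
    have hξ2 : |ξ| ≤ 2 := by
      rw [hξ, abs_div, abs_of_pos hH0, div_le_iff₀ hH0]
      have e1 : wp F w ω σ ι - wp F w ω₀ σ ι - J0 ω₀ * (1 / 2 ^ w * η) =
          (wp F w ω σ ι - (wp F w ω₀ σ ι + Ju ω₀ * (1 / 2 ^ w * η))) +
          (Ju ω₀ - J0 ω₀) * (1 / 2 ^ w) * η := by ring
      rw [e1]
      refine (abs_add_le _ _).trans ?_
      have e2 : |(Ju ω₀ - J0 ω₀) * (1 / 2 ^ w) * η| ≤ H := by
        rw [abs_mul, abs_mul, abs_of_pos pw]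
        exact (mul_le_of_le_one_right (by positivity) hη1).trans (hJ0 ω₀ hω₀A)
      linarith
    -- the coordinate `k`
    have hv := (b23 ω₀ hω₀B₂).2 σ hσm η ξ (by linarith) hξ2
    have hv' := (b23 ω hωB₂).2 σ hσm 0 0 (by rw [abs_zero]; norm_num) (by rw [abs_zero]; norm_num)
    have hpt : eval (bpt κ ι (wt F w ω₀ σ) (wp F w ω₀ σ κ + 1 / 2 ^ w * η)
        (wp F w ω₀ σ ι + J0 ω₀ * (1 / 2 ^ w * η) + H * ξ)) (G (z' (slam F w ω₀))) =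
        eval bb (G (z' (slam F w ω))) := by
      rw [hzz]
      refine hL.dep _ _ _ (show wt F w ω₀ σ = bb none by rw [hbn, ht]) fun i hi => ?_
      rcases Finset.mem_insert.1 hi with h | h
      · rw [h, hηm, hbs]
        show (if κ = κ then wp F w ω₀ σ κ + (wp F w ω σ κ - wp F w ω₀ σ κ) else _) = _
        rw [if_pos rfl]
        ring
      · rw [Finset.mem_singleton.1 h, hξm, hbs]
        show (if ι = κ then _ else if ι = ι then wp F w ω₀ σ ι + J0 ω₀ * (1 / 2 ^ w * η) +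
          (wp F w ω σ ι - wp F w ω₀ σ ι - J0 ω₀ * (1 / 2 ^ w * η)) else _) = _
        rw [if_neg (Ne.symm hκι), if_pos rfl]
        ring
    have hpt' : eval (bpt κ ι (wt F w ω σ) (wp F w ω σ κ + 1 / 2 ^ w * 0)
        (wp F w ω σ ι + J0 ω * (1 / 2 ^ w * 0) + H * 0)) (G (z' (slam F w ω))) =
        eval bb (G (z' (slam F w ω))) := by
      refine hL.dep _ _ _ (show wt F w ω σ = bb none by rw [hbn, ht']) fun i hi => ?_
      rcases Finset.mem_insert.1 hi with h | h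
      · rw [h, hbs]
        show (if κ = κ then wp F w ω σ κ + 1 / 2 ^ w * 0 else _) = _
        rw [if_pos rfl]
        ring
      · rw [Finset.mem_singleton.1 h, hbs]
        show (if ι = κ then _ else if ι = ι then wp F w ω σ ι + J0 ω * (1 / 2 ^ w * 0) +
          H * 0 else _) = _
        rw [if_neg (Ne.symm hκι), if_pos rfl]
        ring
    rw [hpt] at hv
    rw [hpt'] at hv'
    have e0 : wp F w ω σ k + gsl w z' G κ (slam F w ω) * (1 / 2 ^ w * 0) +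
        gsl w z' G ι (slam F w ω) * (J0 ω * (1 / 2 ^ w * 0) + H * 0) = wp F w ω σ k := by ring
    rw [e0, abs_sub_comm] at hv'
    rw [hcf', ← hbb, eval_afq, hwp2]
    have e1 : ce ω₀ 0 + (ce ω₀ 1 * bb none + (ce ω₀ 2 * bb (some κ) +
        ce ω₀ 3 * bb (some ι))) = wp F w ω₀ σ k + gsl w z' G κ (slam F w ω₀) *
        (1 / 2 ^ w * η) + gsl w z' G ι (slam F w ω₀) * (J0 ω₀ * (1 / 2 ^ w * η) + H * ξ) := by
      have c0 : ce ω₀ 0 = F.u ω₀ k - gsl w z' G κ (slam F w ω₀) * F.u ω₀ κ -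
        gsl w z' G ι (slam F w ω₀) * F.u ω₀ ι := by rw [hce]; rfl
      have c1 : ce ω₀ 1 = F.d ω₀ k - gsl w z' G κ (slam F w ω₀) * F.d ω₀ κ -
        gsl w z' G ι (slam F w ω₀) * F.d ω₀ ι := by rw [hce]; rfl
      have c2 : ce ω₀ 2 = gsl w z' G κ (slam F w ω₀) := by rw [hce]; rfl
      have c3 : ce ω₀ 3 = gsl w z' G ι (slam F w ω₀) := by rw [hce]; rfl
      have d2 : bb (some κ) = wp F w ω₀ σ κ + 1 / 2 ^ w * η := by
        rw [hηm, hbs]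
        ring
      have d3 : bb (some ι) = wp F w ω₀ σ ι + (J0 ω₀ * (1 / 2 ^ w * η) + H * ξ) := by
        rw [hξm, hbs]
        ring
      rw [c0, c1, c2, c3, hbn, ← ht, d2, d3]
      unfold wp
      ring
    rw [e1]
    obtain ⟨W, hW⟩ : ∃ W, W = wp F w ω₀ σ k + gsl w z' G κ (slam F w ω₀) *
        (1 / 2 ^ w * η) + gsl w z' G ι (slam F w ω₀) * (J0 ω₀ * (1 / 2 ^ w * η) + H * ξ) :=
      ⟨_, rfl⟩
    rw [← hW] at hv ⊢
    have e2 : wp F w ω σ k - W = (wp F w ω σ k - eval bb (G (z' (slam F w ω)))) +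
        (eval bb (G (z' (slam F w ω))) - W) := by ring
    rw [e2]
    refine (abs_add_le _ _).trans ((add_le_add hv' hv).trans (le_trans ?_ hQ))
    rw [← two_mul]
    refine mul_le_mul_of_nonneg_left ?_ (by norm_num)
    have e5 : Real.exp (C₂ * (θ + 1)) / 2 ^ P ≤ Real.exp (C * (θ + 1)) / 2 ^ P :=
      div_le_div_of_nonneg_right (Real.exp_le_exp.2 (mul_le_mul_of_nonneg_right hCC₂
        (by linarith))) (by positivity)
    refine mul_le_mul (mul_le_mul_of_nonneg_right hCC₂ (by positivity)) ?_ (by positivity)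
      (by rw [hC]; positivity)
    refine mul_le_mul (mul_le_mul_of_nonneg_right hCC₂ (by positivity)) (by linarith)
      (by positivity) (by rw [hC]; positivity)
  refine ⟨B₃, fun ω hω => b11 _ (b21 _ (b31 ω hω)), ?_, (V × V₂) × ℤ × ℕ, zp, zs, cf,
    ⟨fun x => deg_afq _ _ _ _ _ _, fun x b b' hb hb' => ?_, hcls, fun ω hω => ?_⟩,
    fun ω hω => ⟨hβ ω hω, hall ω hω⟩⟩
  · push_cast at b32
    norm_num at b32
    linarith
  · rw [eval_afq, eval_afq, hb, hb' κ (Finset.mem_insert_self _ _),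
      hb' ι (Finset.mem_insert_of_mem (Finset.mem_singleton_self _))]
  · have h1 := hall ω hω (rt F (w + 2) ω) (rt_mem F (w + 2) ω)
    have hp : ∀ j, wp F (w + 2) ω (rt F (w + 2) ω) j = F.x ω j := fun j => by
      rw [wp_eq F hwJ]
      ring
    have hb : wpt F (w + 2) ω (rt F (w + 2) ω) = bt F ω := by
      funext o
      cases o with
      | none =>
        show wt F (w + 2) ω (rt F (w + 2) ω) = F.t ω
        rw [t_rt F hwJ ω]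
        unfold wt
        ring
      | some j => exact hp j
    rw [hp, hb] at h1
    exact h1

end Pool.MIC6
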