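import Pool.Agent.H6.OWN.Afk
import Pool.Agent.H6.OWN.Afl

/-!
# The affine label from the affine approximation on the box

`lab_core`: if the labels of `k` over `κ`, `ι` are affine on the natural boxes, and those of `ι` over
`κ` are affine, then `k` has an affine label with closed coefficients.
-/

set_option autoImplicit false

namespace Pool.MIC6

open Finset MvPolynomial
open Pool.Agent.H49.Ent Pool.Agent.H32.Dense Pool.STK Pool.KA Pool.KSAT Pool.K2S Pool.PB Pool.GEN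
open Pool.FLF (Fam.sub)
open Pool.GRD (LbP)
open Pool.PB.Trl (rt rt_mem t_rt)

variable {n J : ℕ}

/-- **The affine label from the affine approximations**, with a bound of the slope of `κ`. -/
theorem lab_cor2 {F : Fam n J} {A : F.Ω → Prop} {κ ι k : Fin n} {K K₂ r w P P₂ Q : ℕ} {V : Type}
    {z : PtT F → V} {z' : LnT F → V} {G : V → MvPolynomial (Option (Fin n)) ℝ} {V₂ : Type}
    {z₂ : PtT F → V₂} {z₂' : LnT F → V₂} {G₂ : V₂ → MvPolynomial (Option (Fin n)) ℝ}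
    {Ju J0 : F.Ω → ℝ} {H T₂ T β : ℝ} (hκι : κ ≠ ι)
    (hL : LbP F {κ, ι} k K r w P A z z' G) (hL₂ : LbP F {κ} ι K₂ r w P₂ A z₂ z₂' G₂)
    (hwJ : w + 2 ≤ J) (hwr : w + 2 ≤ r) (hH0 : 0 < H)
    (hJ0 : ∀ ω, A ω → |Ju ω - J0 ω| * (1 / 2 ^ w) ≤ H)
    (b13 : ∀ ω, A ω → ∀ σ ∈ Set.Icc (0 : ℝ) 1, ∀ η : ℝ, |η| ≤ 1 →
      ∀ b : Option (Fin n) → ℝ, b none = wt F w ω σ →
      b (some κ) = wp F w ω σ κ + 1 / 2 ^ w * η →
      |eval b (G₂ (z₂' (slam F w ω))) - (wp F w ω σ ι + Ju ω * (1 / 2 ^ w * η))| ≤ T₂)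
    (b23 : ∀ ω, A ω → ∀ σ ∈ Set.Icc (0 : ℝ) 1, ∀ η ξ : ℝ, |η| ≤ 2 → |ξ| ≤ 2 →
      |psw F κ ι k w z' G (J0 ω) H ω σ η ξ| ≤ T)
    (hβ₀ : ∀ ω, A ω → |gsl w z' G ι (slam F w ω)| ≤ β) (hH2 : 2 * T₂ ≤ H / 2)
    (hQ : 2 * T ≤ 1 / 2 ^ Q) :
    ∃ B : F.Ω → Prop, Sub B A ∧ Pe F.p A ≤ 5 * Pe F.p B ∧
      ∃ (V' : Type) (zp : PtT F → V') (zs : LnT F → V') (cf : V' → Fin 4 → ℝ),
        LbP F {κ, ι} k 1 r (w + 2) Q B zp zs
          (fun x => afq κ ι (cf x 0) (cf x 1) (cf x 2) (cf x 3)) ∧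
        (∀ ω, B ω → |cf (zs (slam F (w + 2) ω)) 3| ≤ β ∧ ∀ σ ∈ Set.Icc (0 : ℝ) 1,
          |wp F (w + 2) ω σ k - eval (wpt F (w + 2) ω σ) (afq κ ι (cf (zs (slam F (w + 2) ω)) 0)
            (cf (zs (slam F (w + 2) ω)) 1) (cf (zs (slam F (w + 2) ω)) 2)
            (cf (zs (slam F (w + 2) ω)) 3))| ≤ 1 / 2 ^ Q) ∧
        ∀ β' : ℝ, (∀ ω, A ω → |gsl w z' G κ (slam F w ω)| ≤ β') →
          ∀ ω, B ω → |cf (zs (slam F (w + 2) ω)) 2| ≤ β' := by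
  classical
  have pw : (0 : ℝ) < 1 / 2 ^ w := by positivity
  -- the cell of the coordinate `κ`
  obtain ⟨φ₀, hφ₀⟩ := ptr_coarse F hwr
  obtain ⟨B₃, b31, b32, φ₁, b33⟩ := Pool.S6K.exact_label F.isLaw 2 (slam F (w + 2))
    (fun ω (_ : Fin 1) => (φ₀ (ptr F r ω)).1 κ) A (fun ω ω' hω hω' h i => by
      have e1 : ∀ ω, (φ₀ (ptr F r ω)).1 κ = ⌊(2 : ℝ) ^ (w + 2) * F.x ω κ⌋ := fun ω => by
        rw [← hφ₀]
        rfl
      rw [e1, e1]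
      refine floor_diff ?_
      have k1 := wp_slam h (rt F (w + 2) ω) κ
      rw [wp_eq F hwJ, wp_eq F hwJ, sub_self, mul_zero, zero_mul, add_zero] at k1
      have r1 := rt_mem F (w + 2) ω
      have r2 := rt_mem F (w + 2) ω'
      rw [← mul_sub, abs_mul, abs_of_pos (by positivity : (0 : ℝ) < 2 ^ (w + 2)), k1]
      have k2 : F.x ω' κ + 1 / 2 ^ (w + 2) * (rt F (w + 2) ω - rt F (w + 2) ω') * F.d ω' κ -
          F.x ω' κ = 1 / 2 ^ (w + 2) * ((rt F (w + 2) ω - rt F (w + 2) ω') * F.d ω' κ) := by ring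
      rw [k2, abs_mul, abs_of_pos (by positivity : (0 : ℝ) < 1 / 2 ^ (w + 2)), ← mul_assoc,
        mul_one_div_cancel (by positivity : (2 : ℝ) ^ (w + 2) ≠ 0), one_mul, abs_mul]
      have k3 : |rt F (w + 2) ω - rt F (w + 2) ω'| ≤ 1 := by
        rw [abs_le]
        constructor <;> linarith [r1.1, r1.2, r2.1, r2.2]
      have k4 := mul_le_mul k3 (F.dir ω' κ) (abs_nonneg _) zero_le_one
      push_cast
      linarith)
  -- the closed datum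
  obtain ⟨zp, hzp⟩ : ∃ zp : PtT F → (V × V₂) × ℤ × ℕ, zp = fun p =>
    ((z p, z₂ p), (φ₀ p).1 κ, p.2.1 / 2 ^ (J - (w + 2))) := ⟨_, rfl⟩
  obtain ⟨dn, hdn⟩ : ∃ dn : LnT F → LnT F, dn = fun s => (s.1, s.2.1, s.2.2 / 2 ^ (w + 2 - w)) :=
    ⟨_, rfl⟩
  have hdn' : ∀ ω, dn (slam F (w + 2) ω) = slam F w ω := fun ω => by
    rw [hdn]
    exact (slam_coarse F (by omega) hwJ ω).symm
  obtain ⟨zs, hzs⟩ : ∃ zs : LnT F → (V × V₂) × ℤ × ℕ, zs = fun s =>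
    ((z' (dn s), z₂' (dn s)), φ₁ s 0, s.2.2) := ⟨_, rfl⟩
  have hcls : ∀ ω, B₃ ω → zp (ptr F r ω) = zs (slam F (w + 2) ω) := by
    intro ω hω
    have hωA := b31 ω hω
    rw [hzp, hzs]
    show ((z (ptr F r ω), z₂ (ptr F r ω)), (φ₀ (ptr F r ω)).1 κ, F.T ω / 2 ^ (J - (w + 2))) =
      ((z' (dn (slam F (w + 2) ω)), z₂' (dn (slam F (w + 2) ω))), φ₁ (slam F (w + 2) ω) 0,
        F.T ω / 2 ^ (J - (w + 2)))
    rw [hdn', hL.cls ω hωA, hL₂.cls ω hωA]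
    have := congrFun (b33 ω hω) 0
    rw [← this]
  -- the coefficients
  obtain ⟨ce, hce⟩ : ∃ ce : F.Ω → Fin 4 → ℝ, ce = fun ω =>
      ![F.u ω k - gsl w z' G κ (slam F w ω) * F.u ω κ - gsl w z' G ι (slam F w ω) * F.u ω ι,
        F.d ω k - gsl w z' G κ (slam F w ω) * F.d ω κ - gsl w z' G ι (slam F w ω) * F.d ω ι,
        gsl w z' G κ (slam F w ω), gsl w z' G ι (slam F w ω)] := ⟨_, rfl⟩
  obtain ⟨cf, hcf⟩ : ∃ cf : (V × V₂) × ℤ × ℕ → Fin 4 → ℝ, cf = fun x =>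
      if h : ∃ ω, B₃ ω ∧ zp (ptr F r ω) = x then ce h.choose else 0 := ⟨_, rfl⟩
  have hβ : ∀ ω, B₃ ω → |cf (zs (slam F (w + 2) ω)) 3| ≤ β := by
    intro ω hω
    have hex : ∃ ω₀, B₃ ω₀ ∧ zp (ptr F r ω₀) = zp (ptr F r ω) := ⟨ω, hω, rfl⟩
    have hB₀ := hex.choose_spec.1
    have hω₀A := b31 _ hB₀
    rw [← hcls ω hω, hcf]
    show |(if h : ∃ ω', B₃ ω' ∧ zp (ptr F r ω') = zp (ptr F r ω) then ce h.choose else 0) 3| ≤ β
    rw [dif_pos hex, hce]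
    exact hβ₀ _ hω₀A
  have hβ2 : ∀ β' : ℝ, (∀ ω, A ω → |gsl w z' G κ (slam F w ω)| ≤ β') →
      ∀ ω, B₃ ω → |cf (zs (slam F (w + 2) ω)) 2| ≤ β' := by
    intro β' hβ' ω hω
    have hex : ∃ ω₀, B₃ ω₀ ∧ zp (ptr F r ω₀) = zp (ptr F r ω) := ⟨ω, hω, rfl⟩
    have hω₀A := b31 _ hex.choose_spec.1
    rw [← hcls ω hω, hcf]
    show |(if h : ∃ ω', B₃ ω' ∧ zp (ptr F r ω') = zp (ptr F r ω) then ce h.choose else 0) 2| ≤ β'
    rw [dif_pos hex, hce]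
    exact hβ' _ hω₀A
  have hall : ∀ ω, B₃ ω → ∀ σ ∈ Set.Icc (0 : ℝ) 1,
      |wp F (w + 2) ω σ k - eval (wpt F (w + 2) ω σ) (afq κ ι (cf (zs (slam F (w + 2) ω)) 0)
        (cf (zs (slam F (w + 2) ω)) 1) (cf (zs (slam F (w + 2) ω)) 2)
        (cf (zs (slam F (w + 2) ω)) 3))| ≤ 1 / 2 ^ Q := by
    intro ω hω σ₂ hσ₂
    have hex : ∃ ω₀, B₃ ω₀ ∧ zp (ptr F r ω₀) = zp (ptr F r ω) := ⟨ω, hω, rfl⟩
    obtain ⟨ω₀, hω₀⟩ : ∃ ω₀, ω₀ = hex.choose := ⟨_, rfl⟩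
    have hsp := hex.choose_spec
    rw [← hω₀] at hsp
    obtain ⟨hB₀, hkey⟩ := hsp
    have hcf' : cf (zs (slam F (w + 2) ω)) = ce ω₀ := by
      rw [← hcls ω hω, hcf]
      show (if h : ∃ ω', B₃ ω' ∧ zp (ptr F r ω') = zp (ptr F r ω) then ce h.choose else 0) = _
      rw [dif_pos hex, hω₀]
    have hωA := b31 ω hω
    have hω₀A := b31 ω₀ hB₀
    rw [hzp] at hkey
    have k1 := Prod.ext_iff.mp hkey
    have k2 := Prod.ext_iff.mp k1.1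
    have k3 := Prod.ext_iff.mp k1.2
    have kz : z (ptr F r ω₀) = z (ptr F r ω) := k2.1
    have kz₂ : z₂ (ptr F r ω₀) = z₂ (ptr F r ω) := k2.2
    have kc : (φ₀ (ptr F r ω₀)).1 κ = (φ₀ (ptr F r ω)).1 κ := k3.1
    have kT : F.T ω₀ / 2 ^ (J - (w + 2)) = F.T ω / 2 ^ (J - (w + 2)) := k3.2
    have hzz : z' (slam F w ω₀) = z' (slam F w ω) := by
      rw [← hL.cls ω hωA, ← hL.cls ω₀ hω₀A, kz]
    have hzz₂ : z₂' (slam F w ω₀) = z₂' (slam F w ω) := by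
      rw [← hL₂.cls ω hωA, ← hL₂.cls ω₀ hω₀A, kz₂]
    have hT2 : ∀ ω : F.Ω, F.T ω / 2 ^ (J - w) = F.T ω / 2 ^ (J - (w + 2)) / 2 ^ 2 := by
      intro ω
      rw [Nat.div_div_eq_div_mul, ← pow_add]
      congr 2
      omega
    -- the times
    obtain ⟨N, hN⟩ : ∃ N : ℕ, N = F.T ω / 2 ^ (J - (w + 2)) := ⟨_, rfl⟩
    have hs1 : (slam F w ω).2.2 = N / 2 ^ 2 := by
      rw [hN]
      exact hT2 ω
    have hs2 : (slam F w ω₀).2.2 = N / 2 ^ 2 := by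
      rw [hN, ← kT]
      exact hT2 ω₀
    have hs3 : (slam F (w + 2) ω).2.2 = N := hN.symm
    have hs4 : (slam F (w + 2) ω₀).2.2 = N := by
      rw [hN]
      exact kT
    obtain ⟨σ, hσ⟩ : ∃ σ : ℝ, σ = ((N : ℝ) - 4 * (N / 2 ^ 2 : ℕ) + σ₂) / 4 := ⟨_, rfl⟩
    have hσm : σ ∈ Set.Icc (0 : ℝ) 1 := by
      have m1 : 4 * (N / 2 ^ 2) ≤ N := by omega
      have m2 : N ≤ 4 * (N / 2 ^ 2) + 3 := by omega
      have m1' : (4 : ℝ) * (N / 2 ^ 2 : ℕ) ≤ N := by exact_mod_cast m1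
      have m2' : (N : ℝ) ≤ 4 * (N / 2 ^ 2 : ℕ) + 3 := by exact_mod_cast m2
      rw [hσ]
      constructor <;> linarith [hσ₂.1, hσ₂.2]
    obtain ⟨t, htd⟩ : ∃ t, t = wt F (w + 2) ω σ₂ := ⟨_, rfl⟩
    have hpw2 : (2 : ℝ) ^ (w + 2) = 4 * 2 ^ w := by rw [pow_add]; ring
    have htv : t = ((N : ℝ) + σ₂) / 2 ^ (w + 2) := by
      rw [htd]
      unfold wt
      rw [hs3]
      ring
    have htw : ∀ ω', (slam F w ω').2.2 = N / 2 ^ 2 → wt F w ω' σ = t := by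
      intro ω' h'
      rw [htv, hσ]
      unfold wt
      rw [h', hpw2]
      field_simp
      ring
    have ht : wt F w ω₀ σ = t := htw ω₀ hs2
    have ht' : wt F w ω σ = t := htw ω hs1
    have htt : ∀ ω', (slam F (w + 2) ω').2.2 = N → |t - F.t ω'| ≤ 1 / 2 ^ (w + 2) := by
      intro ω' h'
      have e2 := t_rt F hwJ ω'
      rw [e2, h', htv]
      have r2 := rt_mem F (w + 2) ω'
      have e4 : ((N : ℝ) + σ₂) / 2 ^ (w + 2) - ((N : ℝ) + rt F (w + 2) ω') / 2 ^ (w + 2) =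
          (σ₂ - rt F (w + 2) ω') / 2 ^ (w + 2) := by ring
      rw [e4, abs_div, abs_of_pos (by positivity : (0 : ℝ) < 2 ^ (w + 2))]
      refine div_le_div_of_nonneg_right ?_ (by positivity)
      rw [abs_le]
      constructor <;> linarith [r2.1, r2.2, hσ₂.1, hσ₂.2]
    have hwp : ∀ ω' j, wt F w ω' σ = t → wp F w ω' σ j = F.x ω' j + (t - F.t ω') * F.d ω' j := by
      intro ω' j h'
      unfold wp
      rw [h']
      show F.u ω' j + F.d ω' j * t = (F.u ω' j + F.t ω' * F.d ω' j) + _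
      ring
    have hwp2 : ∀ j, wp F (w + 2) ω σ₂ j = wp F w ω σ j := by
      intro j
      unfold wp
      rw [ht', htd]
    obtain ⟨bb, hbb⟩ : ∃ bb, bb = wpt F (w + 2) ω σ₂ := ⟨_, rfl⟩
    have hbn : bb none = t := by rw [hbb, htd]; rfl
    have hbs : ∀ j, bb (some j) = wp F w ω σ j := fun j => by rw [hbb, ← hwp2]; rfl
    -- the coordinate `κ`
    have hy : |wp F w ω σ κ - wp F w ω₀ σ κ| ≤ 1 / 2 ^ w := by
      have e1 : ∀ ω, (φ₀ (ptr F r ω)).1 κ = ⌊(2 : ℝ) ^ (w + 2) * F.x ω κ⌋ := fun ω => by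
        rw [← hφ₀]
        rfl
      rw [e1, e1] at kc
      have e2 := fl_eq_near' kc
      rw [hwp ω κ ht', hwp ω₀ κ ht]
      have e3 : ∀ ω', (slam F (w + 2) ω').2.2 = N → |(t - F.t ω') * F.d ω' κ| ≤
          1 / 2 ^ (w + 2) := by
        intro ω' h'
        rw [abs_mul]
        have := mul_le_mul (htt ω' h') (F.dir ω' κ) (abs_nonneg _) (by positivity)
        linarith
      have e4 : F.x ω κ + (t - F.t ω) * F.d ω κ - (F.x ω₀ κ + (t - F.t ω₀) * F.d ω₀ κ) =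
          -(F.x ω₀ κ - F.x ω κ) + ((t - F.t ω) * F.d ω κ - (t - F.t ω₀) * F.d ω₀ κ) := by ring
      rw [e4]
      refine (abs_add_le _ _).trans ((add_le_add le_rfl (abs_sub _ _)).trans ?_)
      rw [abs_neg]
      have e5 : (1 : ℝ) / 2 ^ (w + 2) = 1 / 2 ^ w / 4 := by
        rw [pow_add]
        field_simp
        norm_num
      have e6 := e3 ω hs3
      have e7 := e3 ω₀ hs4
      rw [e5] at e2 e6 e7
      linarith
    obtain ⟨η, hη⟩ : ∃ η, η = (wp F w ω σ κ - wp F w ω₀ σ κ) / (1 / 2 ^ w) := ⟨_, rfl⟩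
    have hηm : 1 / 2 ^ w * η = wp F w ω σ κ - wp F w ω₀ σ κ := by
      rw [hη]
      field_simp
    have hη1 : |η| ≤ 1 := by
      rw [hη, abs_div, abs_of_pos pw, div_le_one pw]
      exact hy
    -- the coordinate `ι`
    have hu : |wp F w ω σ ι - (wp F w ω₀ σ ι + Ju ω₀ * (1 / 2 ^ w * η))| ≤ H / 2 := by
      have e1 := b13 ω₀ hω₀A σ hσm η hη1 bb (by rw [hbn, ht]) (by
        rw [hbs, hηm]
        ring)
      have e2 := b13 ω hωA σ hσm 0 (by rw [abs_zero]; exact zero_le_one) bb (by rw [hbn, ht'])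
        (by
        rw [hbs]
        ring)
      rw [hzz₂] at e1
      rw [mul_zero, mul_zero, add_zero, abs_sub_comm] at e2
      have e3 : wp F w ω σ ι - (wp F w ω₀ σ ι + Ju ω₀ * (1 / 2 ^ w * η)) =
          (wp F w ω σ ι - eval bb (G₂ (z₂' (slam F w ω)))) +
          (eval bb (G₂ (z₂' (slam F w ω))) -
            (wp F w ω₀ σ ι + Ju ω₀ * (1 / 2 ^ w * η))) := by ring
      rw [e3]
      refine (abs_add_le _ _).trans ((add_le_add e2 e1).trans ?_)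
      linarith
    obtain ⟨ξ, hξ⟩ : ∃ ξ, ξ = (wp F w ω σ ι - wp F w ω₀ σ ι - J0 ω₀ * (1 / 2 ^ w * η)) / H :=
      ⟨_, rfl⟩
    have hξm : H * ξ = wp F w ω σ ι - wp F w ω₀ σ ι - J0 ω₀ * (1 / 2 ^ w * η) := by
      rw [hξ]
      field_simp
    have hξ2 : |ξ| ≤ 2 := by
      rw [hξ, abs_div, abs_of_pos hH0, div_le_iff₀ hH0]
      have e1 : wp F w ω σ ι - wp F w ω₀ σ ι - J0 ω₀ * (1 / 2 ^ w * η) =
          (wp F w ω σ ι - (wp F w ω₀ σ ι + Ju ω₀ * (1 / 2 ^ w * η))) +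
          (Ju ω₀ - J0 ω₀) * (1 / 2 ^ w) * η := by ring
      rw [e1]
      refine (abs_add_le _ _).trans ?_
      have e2 : |(Ju ω₀ - J0 ω₀) * (1 / 2 ^ w) * η| ≤ H := by
        rw [abs_mul, abs_mul, abs_of_pos pw]
        exact (mul_le_of_le_one_right (by positivity) hη1).trans (hJ0 ω₀ hω₀A)
      linarith
    -- the coordinate `k`
    have hv := b23 ω₀ hω₀A σ hσm η ξ (by linarith) hξ2
    unfold psw psi at hv
    have hv' := b23 ω hωA σ hσm 0 0 (by rw [abs_zero]; norm_num) (by rw [abs_zero]; norm_num)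
    unfold psw psi at hv'
    have hpt : eval (bpt κ ι (wt F w ω₀ σ) (wp F w ω₀ σ κ + 1 / 2 ^ w * η)
        (wp F w ω₀ σ ι + J0 ω₀ * (1 / 2 ^ w * η) + H * ξ)) (G (z' (slam F w ω₀))) =
        eval bb (G (z' (slam F w ω))) := by
      rw [hzz]
      refine hL.dep _ _ _ (show wt F w ω₀ σ = bb none by rw [hbn, ht]) fun i hi => ?_
      rcases Finset.mem_insert.1 hi with h | h
      · rw [h, hηm, hbs]
        show (if κ = κ then wp F w ω₀ σ κ + (wp F w ω σ κ - wp F w ω₀ σ κ) else _) = _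
        rw [if_pos rfl]
        ring
      · rw [Finset.mem_singleton.1 h, hξm, hbs]
        show (if ι = κ then _ else if ι = ι then wp F w ω₀ σ ι + J0 ω₀ * (1 / 2 ^ w * η) +
          (wp F w ω σ ι - wp F w ω₀ σ ι - J0 ω₀ * (1 / 2 ^ w * η)) else _) = _
        rw [if_neg (Ne.symm hκι), if_pos rfl]
        ring
    have hpt' : eval (bpt κ ι (wt F w ω σ) (wp F w ω σ κ + 1 / 2 ^ w * 0)
        (wp F w ω σ ι + J0 ω * (1 / 2 ^ w * 0) + H * 0)) (G (z' (slam F w ω))) =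
        eval bb (G (z' (slam F w ω))) := by
      refine hL.dep _ _ _ (show wt F w ω σ = bb none by rw [hbn, ht']) fun i hi => ?_
      rcases Finset.mem_insert.1 hi with h | h
      · rw [h, hbs]
        show (if κ = κ then wp F w ω σ κ + 1 / 2 ^ w * 0 else _) = _
        rw [if_pos rfl]
        ring
      · rw [Finset.mem_singleton.1 h, hbs]
        show (if ι = κ then _ else if ι = ι then wp F w ω σ ι + J0 ω * (1 / 2 ^ w * 0) +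
          H * 0 else _) = _
        rw [if_neg (Ne.symm hκι), if_pos rfl]
        ring
    rw [hpt] at hv
    rw [hpt'] at hv'
    have e0 : wp F w ω σ k + gsl w z' G κ (slam F w ω) * (1 / 2 ^ w * 0) +
        gsl w z' G ι (slam F w ω) * (J0 ω * (1 / 2 ^ w * 0) + H * 0) = wp F w ω σ k := by ring
    rw [e0, abs_sub_comm] at hv'
    rw [hcf', ← hbb, eval_afq, hwp2]
    have e1 : ce ω₀ 0 + (ce ω₀ 1 * bb none + (ce ω₀ 2 * bb (some κ) +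
        ce ω₀ 3 * bb (some ι))) = wp F w ω₀ σ k + gsl w z' G κ (slam F w ω₀) *
        (1 / 2 ^ w * η) + gsl w z' G ι (slam F w ω₀) * (J0 ω₀ * (1 / 2 ^ w * η) + H * ξ) := by
      have c0 : ce ω₀ 0 = F.u ω₀ k - gsl w z' G κ (slam F w ω₀) * F.u ω₀ κ -
        gsl w z' G ι (slam F w ω₀) * F.u ω₀ ι := by rw [hce]; rfl
      have c1 : ce ω₀ 1 = F.d ω₀ k - gsl w z' G κ (slam F w ω₀) * F.d ω₀ κ -
        gsl w z' G ι (slam F w ω₀) * F.d ω₀ ι := by rw [hce]; rfl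
      have c2 : ce ω₀ 2 = gsl w z' G κ (slam F w ω₀) := by rw [hce]; rfl
      have c3 : ce ω₀ 3 = gsl w z' G ι (slam F w ω₀) := by rw [hce]; rfl
      have d2 : bb (some κ) = wp F w ω₀ σ κ + 1 / 2 ^ w * η := by
        rw [hηm, hbs]
        ring
      have d3 : bb (some ι) = wp F w ω₀ σ ι + (J0 ω₀ * (1 / 2 ^ w * η) + H * ξ) := by
        rw [hξm, hbs]
        ring
      rw [c0, c1, c2, c3, hbn, ← ht, d2, d3]
      unfold wp
      ring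
    rw [e1]
    obtain ⟨W, hW⟩ : ∃ W, W = wp F w ω₀ σ k + gsl w z' G κ (slam F w ω₀) *
        (1 / 2 ^ w * η) + gsl w z' G ι (slam F w ω₀) * (J0 ω₀ * (1 / 2 ^ w * η) + H * ξ) :=
      ⟨_, rfl⟩
    rw [← hW] at hv ⊢
    have e2 : wp F w ω σ k - W = (wp F w ω σ k - eval bb (G (z' (slam F w ω)))) +
        (eval bb (G (z' (slam F w ω))) - W) := by ring
    rw [e2]
    refine (abs_add_le _ _).trans ((add_le_add hv' hv).trans (le_trans ?_ hQ))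
    rw [← two_mul]
  refine ⟨B₃, b31, ?_, (V × V₂) × ℤ × ℕ, zp, zs, cf,
    ⟨fun x => deg_afq _ _ _ _ _ _, fun x b b' hb hb' => ?_, hcls, fun ω hω => ?_⟩,
    fun ω hω => ⟨hβ ω hω, hall ω hω⟩, hβ2⟩
  · push_cast at b32
    norm_num at b32
    linarith
  · rw [eval_afq, eval_afq, hb, hb' κ (Finset.mem_insert_self _ _),
      hb' ι (Finset.mem_insert_of_mem (Finset.mem_singleton_self _))]
  · have h1 := hall ω hω (rt F (w + 2) ω) (rt_mem F (w + 2) ω)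
    have hp : ∀ j, wp F (w + 2) ω (rt F (w + 2) ω) j = F.x ω j := fun j => by
      rw [wp_eq F hwJ]
      ring
    have hb : wpt F (w + 2) ω (rt F (w + 2) ω) = bt F ω := by
      funext o
      cases o with
      | none =>
        show wt F (w + 2) ω (rt F (w + 2) ω) = F.t ω
        rw [t_rt F hwJ ω]
        unfold wt
        ring
      | some j => exact hp j
    rw [hp, hb] at h1
    exact h1

/-- **The affine label from the affine approximations.** -/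
theorem lab_core {F : Fam n J} {A : F.Ω → Prop} {κ ι k : Fin n} {K K₂ r w P P₂ Q : ℕ} {V : Type}
    {z : PtT F → V} {z' : LnT F → V} {G : V → MvPolynomial (Option (Fin n)) ℝ} {V₂ : Type}
    {z₂ : PtT F → V₂} {z₂' : LnT F → V₂} {G₂ : V₂ → MvPolynomial (Option (Fin n)) ℝ}
    {Ju J0 : F.Ω → ℝ} {H T₂ T β : ℝ} (hκι : κ ≠ ι)
    (hL : LbP F {κ, ι} k K r w P A z z' G) (hL₂ : LbP F {κ} ι K₂ r w P₂ A z₂ z₂' G₂)
    (hwJ : w + 2 ≤ J) (hwr : w + 2 ≤ r) (hH0 : 0 < H)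
    (hJ0 : ∀ ω, A ω → |Ju ω - J0 ω| * (1 / 2 ^ w) ≤ H)
    (b13 : ∀ ω, A ω → ∀ σ ∈ Set.Icc (0 : ℝ) 1, ∀ η : ℝ, |η| ≤ 1 →
      ∀ b : Option (Fin n) → ℝ, b none = wt F w ω σ →
      b (some κ) = wp F w ω σ κ + 1 / 2 ^ w * η →
      |eval b (G₂ (z₂' (slam F w ω))) - (wp F w ω σ ι + Ju ω * (1 / 2 ^ w * η))| ≤ T₂)
    (b23 : ∀ ω, A ω → ∀ σ ∈ Set.Icc (0 : ℝ) 1, ∀ η ξ : ℝ, |η| ≤ 2 → |ξ| ≤ 2 →
      |psw F κ ι k w z' G (J0 ω) H ω σ η ξ| ≤ T)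
    (hβ₀ : ∀ ω, A ω → |gsl w z' G ι (slam F w ω)| ≤ β) (hH2 : 2 * T₂ ≤ H / 2)
    (hQ : 2 * T ≤ 1 / 2 ^ Q) :
    ∃ B : F.Ω → Prop, Sub B A ∧ Pe F.p A ≤ 5 * Pe F.p B ∧
      ∃ (V' : Type) (zp : PtT F → V') (zs : LnT F → V') (cf : V' → Fin 4 → ℝ),
        LbP F {κ, ι} k 1 r (w + 2) Q B zp zs
          (fun x => afq κ ι (cf x 0) (cf x 1) (cf x 2) (cf x 3)) ∧
        ∀ ω, B ω → |cf (zs (slam F (w + 2) ω)) 3| ≤ β ∧ ∀ σ ∈ Set.Icc (0 : ℝ) 1,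
          |wp F (w + 2) ω σ k - eval (wpt F (w + 2) ω σ) (afq κ ι (cf (zs (slam F (w + 2) ω)) 0)
            (cf (zs (slam F (w + 2) ω)) 1) (cf (zs (slam F (w + 2) ω)) 2)
            (cf (zs (slam F (w + 2) ω)) 3))| ≤ 1 / 2 ^ Q := by
  obtain ⟨B, h1, h2, V', zp, zs, cf, h3, h4, -⟩ := lab_cor2 hκι hL hL₂ hwJ hwr hH0 hJ0 b13 b23
    hβ₀ hH2 hQ
  exact ⟨B, h1, h2, V', zp, zs, cf, h3, h4⟩

end Pool.MIC6
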