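import Pool.Agent.H6.OWN.NgN

/-!
# Numbers for affine labels
-/

set_option autoImplicit false

namespace Pool.MIC6

open Pool.PB

/-- Two powers. -/
theorem two_frac {a b q : ℕ} (h : a + q ≤ b) : (2 : ℝ) ^ a / 2 ^ b ≤ 1 / 2 ^ q := by
  rw [div_le_div_iff₀ (by positivity) (by positivity), one_mul, ← pow_add]
  exact pow_le_pow_right₀ (by norm_num) h

/-- The numbers of the natural box. -/
theorem num_a {C X : ℝ} {N g K P₂ R e P M w hh : ℕ} (hC : 1 ≤ C) (hX : 1 ≤ X)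
    (hN : C * X ≤ 2 ^ N) (h1 : N + g * (K + 1) + (hh + 6) ≤ P₂)
    (h2 : N + g * (K + 1) + e + (hh + 6) ≤ R)
    (h3 : N + g * (K + 1) + P + (hh + 6) ≤ M + w) :
    2 * (C * (1 / (1 / 2 ^ g)) ^ (K + 1) * (X / 2 ^ P₂ + (1 + 2 ^ e) * (1 / 2 ^ R) +
      (2 ^ P * (2 / 2 ^ M) / 2 ^ w + 2 ^ e * (2 / 2 ^ R)))) ≤ 1 / 2 ^ hh / 2 := by
  have f1 : (1 : ℝ) / (1 / 2 ^ g) = 2 ^ g := by rw [one_div_one_div]
  rw [f1, ← pow_mul]
  have k1 := two_frac h1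
  have k2 := two_frac h2
  have k3 := two_frac h3
  have pe : (1 : ℝ) ≤ 2 ^ e := one_le_pow₀ (by norm_num)
  obtain ⟨T, hT⟩ : ∃ T : ℝ, T = 2 ^ (g * (K + 1)) := ⟨_, rfl⟩
  have hT0 : 0 < T := by rw [hT]; positivity
  have hCN : C ≤ 2 ^ N := by
    refine le_trans ?_ hN
    exact le_mul_of_one_le_right (by linarith) hX
  have hX0 : (0 : ℝ) ≤ X := by linarith
  rw [← hT]
  have l1 : C * T * (X / 2 ^ P₂) ≤ 1 / 2 ^ (hh + 6) := by
    have e1 : C * T * (X / 2 ^ P₂) = (C * X) * (T / 2 ^ P₂) := by ring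
    rw [e1]
    refine (mul_le_mul_of_nonneg_right hN (by positivity)).trans (le_trans (le_of_eq ?_) k1)
    rw [hT, pow_add]
    ring
  have l2 : C * T * (2 ^ e / 2 ^ R) ≤ 1 / 2 ^ (hh + 6) := by
    have e1 : C * T * ((2 : ℝ) ^ e / 2 ^ R) = C * (T * 2 ^ e / 2 ^ R) := by ring
    rw [e1]
    refine (mul_le_mul_of_nonneg_right hCN (by positivity)).trans (le_trans (le_of_eq ?_) k2)
    rw [hT, pow_add, pow_add]
    ring
  have l3 : C * T * (2 ^ P / (2 ^ M * 2 ^ w)) ≤ 1 / 2 ^ (hh + 6) := by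
    have e1 : C * T * ((2 : ℝ) ^ P / (2 ^ M * 2 ^ w)) = C * (T * 2 ^ P / 2 ^ (M + w)) := by
      rw [pow_add]
      ring
    rw [e1]
    refine (mul_le_mul_of_nonneg_right hCN (by positivity)).trans (le_trans (le_of_eq ?_) k3)
    rw [hT, pow_add, pow_add]
    ring
  have l4 : (1 + (2 : ℝ) ^ e) * (1 / 2 ^ R) ≤ 2 * (2 ^ e / 2 ^ R) := by
    have e1 : 2 * ((2 : ℝ) ^ e / 2 ^ R) = (2 * 2 ^ e) * (1 / 2 ^ R) := by ring
    rw [e1]
    exact mul_le_mul_of_nonneg_right (by linarith) (by positivity)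
  have hCT : 0 ≤ C * T := by positivity
  have l5 := mul_le_mul_of_nonneg_left l4 hCT
  have e2 : C * T * (X / 2 ^ P₂ + (1 + 2 ^ e) * (1 / 2 ^ R) +
      (2 ^ P * (2 / 2 ^ M) / 2 ^ w + 2 ^ e * (2 / 2 ^ R))) = C * T * (X / 2 ^ P₂) +
      C * T * ((1 + 2 ^ e) * (1 / 2 ^ R)) + 2 * (C * T * (2 ^ P / (2 ^ M * 2 ^ w))) +
      2 * (C * T * (2 ^ e / 2 ^ R)) := by
    have : (2 : ℝ) ^ P * (2 / 2 ^ M) / 2 ^ w = 2 * (2 ^ P / (2 ^ M * 2 ^ w)) := by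
      field_simp
    rw [this]
    ring
  rw [e2]
  have e3 : (1 : ℝ) / 2 ^ hh / 2 = 32 * (1 / 2 ^ (hh + 6)) := by
    rw [pow_add]
    field_simp
    norm_num
  rw [e3]
  have pq : (0 : ℝ) < 1 / 2 ^ (hh + 6) := by positivity
  linarith

/-- The numbers of the affine label. -/
theorem num_b {C X S : ℝ} {N g K P₁ R e P M w d Q : ℕ} (hC : 1 ≤ C) (hX : 1 ≤ X)
    (hN : C * X ≤ 2 ^ N) (hS0 : 0 ≤ S) (hS : S ≤ 2 ^ d)
    (h1 : 2 * N + (d + g) * (K + 1) + (Q + 6) ≤ P₁)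
    (h2 : 2 * N + (d + g) * (K + 1) + 2 * e + (Q + 6) ≤ R)
    (h3 : 2 * N + (d + g) * (K + 1) + (e + P) + (Q + 6) ≤ M + w) :
    2 * (C * S ^ (K + 1) * (C * (1 / (1 / 2 ^ g)) ^ (K + 1) * (X / 2 ^ P₁ +
      2 ^ e * (2 * (2 ^ P * (2 / 2 ^ M) / 2 ^ w + 2 ^ e * (2 / 2 ^ R))) +
      (1 + 2 ^ e) * (1 / 2 ^ R) + 1 / 2 ^ w * (2 ^ P * (2 / 2 ^ M))))) ≤ 1 / 2 ^ Q := by
  have f1 : (1 : ℝ) / (1 / 2 ^ g) = 2 ^ g := by rw [one_div_one_div]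
  rw [f1]
  have k1 := two_frac h1
  have k2 := two_frac h2
  have k3 := two_frac h3
  have pe : (1 : ℝ) ≤ 2 ^ e := one_le_pow₀ (by norm_num)
  have hCN : C ≤ 2 ^ N := by
    refine le_trans ?_ hN
    exact le_mul_of_one_le_right (by linarith) hX
  have hX0 : (0 : ℝ) ≤ X := by linarith
  have hSK : S ^ (K + 1) ≤ (2 ^ d) ^ (K + 1) := pow_le_pow_left₀ hS0 hS _
  obtain ⟨Y, hY⟩ : ∃ Y : ℝ, Y = X / 2 ^ P₁ +
      2 ^ e * (2 * (2 ^ P * (2 / 2 ^ M) / 2 ^ w + 2 ^ e * (2 / 2 ^ R))) +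
      (1 + 2 ^ e) * (1 / 2 ^ R) + 1 / 2 ^ w * (2 ^ P * (2 / 2 ^ M)) := ⟨_, rfl⟩
  have hY0 : 0 ≤ Y := by rw [hY]; positivity
  rw [← hY]
  obtain ⟨T, hT⟩ : ∃ T : ℝ, T = 2 ^ ((d + g) * (K + 1)) := ⟨_, rfl⟩
  have hT0 : 0 < T := by rw [hT]; positivity
  have hYb : Y ≤ X * (1 / 2 ^ P₁) + 6 * (2 ^ (e + P) / 2 ^ (M + w)) +
      6 * (2 ^ (2 * e) / 2 ^ R) := by
    have e1 : (2 : ℝ) ^ e * (2 * (2 ^ P * (2 / 2 ^ M) / 2 ^ w + 2 ^ e * (2 / 2 ^ R))) =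
        4 * (2 ^ (e + P) / 2 ^ (M + w)) + 4 * (2 ^ (2 * e) / 2 ^ R) := by
      rw [two_mul e, pow_add, pow_add, pow_add]
      field_simp
      norm_num
    have e2 : (1 + (2 : ℝ) ^ e) * (1 / 2 ^ R) ≤ 2 * (2 ^ (2 * e) / 2 ^ R) := by
      have e3 : 2 * ((2 : ℝ) ^ (2 * e) / 2 ^ R) = (2 * (2 ^ e * 2 ^ e)) * (1 / 2 ^ R) := by
        rw [two_mul e, pow_add]
        ring
      rw [e3]
      refine mul_le_mul_of_nonneg_right ?_ (by positivity)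
      nlinarith only [pe]
    have e4 : 1 / 2 ^ w * ((2 : ℝ) ^ P * (2 / 2 ^ M)) ≤ 2 * (2 ^ (e + P) / 2 ^ (M + w)) := by
      have e5 : 2 * ((2 : ℝ) ^ (e + P) / 2 ^ (M + w)) =
          2 ^ e * (1 / 2 ^ w * (2 ^ P * (2 / 2 ^ M))) := by
        rw [pow_add, pow_add]
        field_simp
      rw [e5]
      exact le_mul_of_one_le_left (by positivity) pe
    rw [hY, e1]
    have e6 : X / 2 ^ P₁ = X * (1 / 2 ^ P₁) := by ring
    rw [e6]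
    linarith
  have hCC : C * C * T * Y ≤ 14 * (1 / 2 ^ (Q + 6)) := by
    have e1 := mul_le_mul_of_nonneg_left hYb (by positivity : 0 ≤ C * C * T)
    have e2 : C * C * T * (X * (1 / 2 ^ P₁)) ≤ 1 / 2 ^ (Q + 6) := by
      have e3 : C * C * T * (X * (1 / 2 ^ P₁)) = (C * (C * X)) * (T / 2 ^ P₁) := by ring
      rw [e3]
      have e4 : C * (C * X) ≤ 2 ^ N * 2 ^ N := mul_le_mul hCN hN (by positivity) (by positivity)
      refine (mul_le_mul_of_nonneg_right e4 (by positivity)).trans (le_trans (le_of_eq ?_) k1)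
      rw [hT, pow_add, two_mul, pow_add]
      ring
    have hC2 : C * C ≤ 2 ^ N * 2 ^ N := mul_le_mul hCN hCN (by linarith) (by positivity)
    have pq : (0 : ℝ) < 1 / 2 ^ (Q + 6) := by positivity
    have hpp : ∀ a b : ℕ, (2 : ℝ) ^ (2 * N + a + b) = 2 ^ N * 2 ^ N * 2 ^ a * 2 ^ b := by
      intro a b
      rw [← pow_add, ← pow_add, ← pow_add]
      congr 1
      ring
    have e5 : C * C * T * (2 ^ (e + P) / 2 ^ (M + w)) ≤ 1 / 2 ^ (Q + 6) := by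
      have e3 : C * C * T * ((2 : ℝ) ^ (e + P) / 2 ^ (M + w)) =
          (C * C) * (T * 2 ^ (e + P) / 2 ^ (M + w)) := by ring
      rw [e3]
      refine (mul_le_mul_of_nonneg_right hC2 (by positivity)).trans (le_trans (le_of_eq ?_) k3)
      rw [hT, hpp]
      ring
    have e6 : C * C * T * (2 ^ (2 * e) / 2 ^ R) ≤ 1 / 2 ^ (Q + 6) := by
      have e3 : C * C * T * ((2 : ℝ) ^ (2 * e) / 2 ^ R) =
          (C * C) * (T * 2 ^ (2 * e) / 2 ^ R) := by ring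
      rw [e3]
      refine (mul_le_mul_of_nonneg_right hC2 (by positivity)).trans (le_trans (le_of_eq ?_) k2)
      rw [hT, hpp]
      ring
    have e7 : C * C * T * (X * (1 / 2 ^ P₁) + 6 * (2 ^ (e + P) / 2 ^ (M + w)) +
        6 * (2 ^ (2 * e) / 2 ^ R)) = C * C * T * (X * (1 / 2 ^ P₁)) +
        6 * (C * C * T * (2 ^ (e + P) / 2 ^ (M + w))) +
        6 * (C * C * T * (2 ^ (2 * e) / 2 ^ R)) := by ring
    rw [e7] at e1
    linarith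
  have e8 : C * S ^ (K + 1) * (C * (2 ^ g) ^ (K + 1) * Y) ≤ C * C * T * Y := by
    have e9 : C * S ^ (K + 1) * (C * (2 ^ g) ^ (K + 1) * Y) =
        S ^ (K + 1) * (C * C * (2 ^ g) ^ (K + 1) * Y) := by ring
    have e10 : C * C * T * Y = (2 ^ d) ^ (K + 1) * (C * C * (2 ^ g) ^ (K + 1) * Y) := by
      rw [hT, ← pow_mul, ← pow_mul, add_mul, pow_add]
      ring
    rw [e9, e10]
    exact mul_le_mul_of_nonneg_right hSK (by positivity)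
  have e11 : (1 : ℝ) / 2 ^ Q = 64 * (1 / 2 ^ (Q + 6)) := by
    rw [pow_add]
    field_simp
    norm_num
  rw [e11]
  have pq : (0 : ℝ) < 1 / 2 ^ (Q + 6) := by positivity
  linarith

end Pool.MIC6
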