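import Pool.Agent.H6.OWN.AflZ

/-!
# The slopes of an affine label in a zoom

`rel_zom`: the slopes `a`, `b` of an affine closed label of `k` over `κ`, `ι` in the zoom satisfy
`a + b * au = av` with the slopes of `u = ε ι` and `v = ε k` over `y = ε κ` at the exact points.
-/

set_option autoImplicit false

namespace Pool.MIC6

open Finset MvPolynomial
open Pool.Agent.H49.Ent Pool.Agent.H32.Dense Pool.STK Pool.KA Pool.KSAT Pool.K2S Pool.PB Pool.GEN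
open Pool.FLF (Fam.sub)
open Pool.GRD (LbP)
open Pool.REX (zm zmV zmV_Z zmV_T zm_T)

variable {m n J : ℕ}

theorem pd_afq (κ ι : Fin n) (hκι : κ ≠ ι) (c₀ c₁ a b : ℝ) (x : Option (Fin n) → ℝ) :
    eval x (pderiv (some κ) (afq κ ι c₀ c₁ a b)) = a ∧
    eval x (pderiv (some ι) (afq κ ι c₀ c₁ a b)) = b := by
  classical
  have h1 : (some κ : Option (Fin n)) ≠ some ι := fun h => hκι (Option.some_injective _ h)
  unfold afq
  constructor
  · simp only [map_add, Derivation.leibniz, pderiv_C, pderiv_X, smul_eq_mul, map_mul, eval_C,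
      eval_X, map_zero, mul_zero, add_zero, zero_add]
    simp [Pi.single_apply, h1.symm]
  · simp only [map_add, Derivation.leibniz, pderiv_C, pderiv_X, smul_eq_mul, map_mul, eval_C,
      eval_X, map_zero, mul_zero, add_zero, zero_add]
    simp [Pi.single_apply, h1]

/-- The numbers of the relation. -/
theorem num_c {C X : ℝ} {N g Q R e P M w q : ℕ} (hC : 1 ≤ C) (hX : 1 ≤ X)
    (hN : C * X ≤ 2 ^ N) (h1 : N + 2 * g + w + (q + 6) ≤ Q)
    (h2 : N + 2 * g + 2 * e + w + (q + 6) ≤ R) (h3 : N + 2 * g + (e + P) + (q + 6) ≤ M) :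
    2 ^ w * (C * (1 / (1 / 2 ^ g)) ^ (1 + 1) * (X / 2 ^ Q +
      2 ^ e * (2 * (2 ^ P * (2 / 2 ^ M) / 2 ^ w + 2 ^ e * (2 / 2 ^ R))) +
      (1 + 2 ^ e) * (1 / 2 ^ R) + 1 / 2 ^ w * (2 ^ P * (2 / 2 ^ M)))) ≤ 1 / 2 ^ q := by
  have f1 : (1 : ℝ) / (1 / 2 ^ g) = 2 ^ g := by rw [one_div_one_div]
  rw [f1]
  have k1 := two_frac h1
  have k2 := two_frac h2
  have k3 := two_frac h3
  have pe : (1 : ℝ) ≤ 2 ^ e := one_le_pow₀ (by norm_num)
  have hCN : C ≤ 2 ^ N := by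
    refine le_trans ?_ hN
    exact le_mul_of_one_le_right (by linarith) hX
  have hX0 : (0 : ℝ) ≤ X := by linarith
  obtain ⟨T, hT⟩ : ∃ T : ℝ, T = (2 ^ g) ^ (1 + 1) := ⟨_, rfl⟩
  have hT2 : T = 2 ^ (2 * g) := by rw [hT, ← pow_mul]; congr 1; ring
  have hT0 : 0 < T := by rw [hT]; positivity
  rw [← hT]
  have pq : (0 : ℝ) < 1 / 2 ^ (q + 6) := by positivity
  have l1 : 2 ^ w * (C * T * (X / 2 ^ Q)) ≤ 1 / 2 ^ (q + 6) := by
    have e3 : 2 ^ w * (C * T * (X / 2 ^ Q)) = (C * X) * (T * 2 ^ w / 2 ^ Q) := by ring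
    rw [e3]
    refine (mul_le_mul_of_nonneg_right hN (by positivity)).trans (le_trans (le_of_eq ?_) k1)
    rw [hT2, pow_add (2 : ℝ) (N + 2 * g), pow_add]
    ring
  have l2 : 2 ^ w * (C * T * (2 ^ (2 * e) / 2 ^ R)) ≤ 1 / 2 ^ (q + 6) := by
    have e3 : 2 ^ w * (C * T * ((2 : ℝ) ^ (2 * e) / 2 ^ R)) =
        C * (T * 2 ^ (2 * e) * 2 ^ w / 2 ^ R) := by ring
    rw [e3]
    refine (mul_le_mul_of_nonneg_right hCN (by positivity)).trans (le_trans (le_of_eq ?_) k2)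
    rw [hT2, pow_add (2 : ℝ) (N + 2 * g + 2 * e), pow_add (2 : ℝ) (N + 2 * g), pow_add]
    ring
  have l3 : C * T * (2 ^ (e + P) / 2 ^ M) ≤ 1 / 2 ^ (q + 6) := by
    have e3 : C * T * ((2 : ℝ) ^ (e + P) / 2 ^ M) = C * (T * 2 ^ (e + P) / 2 ^ M) := by ring
    rw [e3]
    refine (mul_le_mul_of_nonneg_right hCN (by positivity)).trans (le_trans (le_of_eq ?_) k3)
    rw [hT2, pow_add (2 : ℝ) (N + 2 * g), pow_add (2 : ℝ) N]
    ring
  have e1 : 2 ^ w * (C * T * (X / 2 ^ Q +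
      2 ^ e * (2 * (2 ^ P * (2 / 2 ^ M) / 2 ^ w + 2 ^ e * (2 / 2 ^ R))) +
      (1 + 2 ^ e) * (1 / 2 ^ R) + 1 / 2 ^ w * (2 ^ P * (2 / 2 ^ M)))) =
      2 ^ w * (C * T * (X / 2 ^ Q)) + 4 * (C * T * (2 ^ (e + P) / 2 ^ M)) +
      4 * (2 ^ w * (C * T * (2 ^ (2 * e) / 2 ^ R))) +
      2 ^ w * (C * T * ((1 + 2 ^ e) * (1 / 2 ^ R))) + 2 * (C * T * (2 ^ P / 2 ^ M)) := by
    rw [two_mul e, pow_add, pow_add]
    field_simp
    ring
  have l4 : 2 ^ w * (C * T * ((1 + 2 ^ e) * (1 / 2 ^ R))) ≤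
      2 * (2 ^ w * (C * T * (2 ^ (2 * e) / 2 ^ R))) := by
    have e2 : (1 + (2 : ℝ) ^ e) * (1 / 2 ^ R) ≤ 2 * (2 ^ (2 * e) / 2 ^ R) := by
      have e3 : 2 * ((2 : ℝ) ^ (2 * e) / 2 ^ R) = (2 * (2 ^ e * 2 ^ e)) * (1 / 2 ^ R) := by
        rw [two_mul e, pow_add]
        ring
      rw [e3]
      refine mul_le_mul_of_nonneg_right ?_ (by positivity)
      nlinarith only [pe]
    have e4 : 2 * (2 ^ w * (C * T * (2 ^ (2 * e) / 2 ^ R))) =
        2 ^ w * (C * T * (2 * (2 ^ (2 * e) / 2 ^ R))) := by ring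
    rw [e4]
    exact mul_le_mul_of_nonneg_left (mul_le_mul_of_nonneg_left e2 (by positivity)) (by positivity)
  have l5 : C * T * (2 ^ P / 2 ^ M) ≤ C * T * (2 ^ (e + P) / 2 ^ M) := by
    refine mul_le_mul_of_nonneg_left ?_ (by positivity)
    refine div_le_div_of_nonneg_right ?_ (by positivity)
    exact pow_le_pow_right₀ (by norm_num) (by omega)
  have e11 : (1 : ℝ) / 2 ^ q = 64 * (1 / 2 ^ (q + 6)) := by
    rw [pow_add]
    field_simp
    norm_num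
  rw [e1, e11]
  linarith

/-- **The slopes of an affine label in a zoom.** -/
theorem rel_zom (m n : ℕ) : ∃ C : ℝ, 1 ≤ C ∧ ∀ {J : ℕ} (F : Fam m J)
    (A : F.Ω → Prop) (hA : 0 < Pe F.p A) {B P : ℕ} (hP : P ≤ J - B) {Y : Type} (yy : F.Ω → Y)
    (ε : Fin n → Fin m) {κ ι k : Fin n} {e r w g M N Q q : ℕ}
    {au cu av cv : PtT F → ℝ} {V' : Type} {zp : PtT (zmV F hP yy ε) → V'}
    {zs : LnT (zmV F hP yy ε) → V'} {cf : V' → Fin 4 → ℝ} {θ : ℝ}, κ ≠ ι →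
    Dp F A (ε κ) (ε ι) e M au cu → Dp F A (ε κ) (ε k) e M av cv →
    LbP (zmV F hP yy ε) {κ, ι} k 1 r w Q A zp zs
      (fun x => afq κ ι (cf x 0) (cf x 1) (cf x 2) (cf x 3)) →
    (∀ ω, A ω → |cf (zs (slam (zmV F hP yy ε) w ω)) 3| ≤ 2 ^ e) → r ≤ J - B - P →
    0 ≤ θ → (Fam.sub (zmV F hP yy ε) A hA).Tm θ →
    C * (θ + 1) ≤ (((J - B - P : ℕ) : ℝ) - w) * Real.log 2 → w + g + 4 ≤ J - B - P →
    (∀ B₀ : F.Ω → Prop, Sub B₀ A → Pe F.p A / 4 < Pe F.p B₀ → Real.log (2 * (1 + 2 : ℕ)) <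
      CH (Pool.Agent.H49.Ent.cond F.p B₀ True) (fun ω => (zmV F hP yy ε).D g ω κ)
        (phz F hP yy ε)) → C * Real.exp (C * (θ + 1)) ≤ 2 ^ N →
    N + 2 * g + w + (q + 6) ≤ Q → N + 2 * g + 2 * e + w + (q + 6) ≤ J - B - P →
    N + 2 * g + (e + P) + (q + 6) ≤ M →
    ∃ B' : F.Ω → Prop, Sub B' A ∧ Pe F.p A / 4 ≤ Pe F.p B' ∧ ∀ ω, B' ω →
      |cf (zs (slam (zmV F hP yy ε) w ω)) 2 + cf (zs (slam (zmV F hP yy ε) w ω)) 3 *
        au (ptr F J ω) - av (ptr F J ω)| ≤ 1 / 2 ^ q := by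
  classical
  obtain ⟨C, hC, htie⟩ := tie_box n 1
  refine ⟨C, hC, ?_⟩
  intro J F A hA B P hP Y yy ε κ ι k e r w g M N Q q au cu av cv V' zp zs cf θ hκι hu hv hlab hcf
    hr hθ hTm hJθ hwg hact hN n1 n2 n3
  have hX : 1 ≤ Real.exp (C * (θ + 1)) := Real.one_le_exp (by positivity)
  obtain ⟨φ, hφ⟩ := ptr_coarse (zmV F hP yy ε) hr
  have pe : (1 : ℝ) ≤ 2 ^ e := one_le_pow₀ (by norm_num)
  obtain ⟨E₁, hE₁⟩ : ∃ E₁ : ℝ, E₁ = 2 ^ P * (2 / 2 ^ M) := ⟨_, rfl⟩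
  have hE₁0 : 0 ≤ E₁ := by rw [hE₁]; positivity
  obtain ⟨μ, hμ⟩ : ∃ μ : ℝ, μ = E₁ / 2 ^ w + 2 ^ e * (2 / 2 ^ (J - B - P)) := ⟨_, rfl⟩
  have hμ0 : 0 ≤ μ := by rw [hμ]; positivity
  obtain ⟨sl, hsl⟩ : ∃ sl : F.Ω → Fin n → ℝ, sl = fun ω j =>
      if j = κ then 1 else au (ptr F J ω) := ⟨_, rfl⟩
  have hslκ : ∀ ω, sl ω κ = 1 := fun ω => by rw [hsl]; exact if_pos rfl
  have hslι : ∀ ω j, j ≠ κ → sl ω j = au (ptr F J ω) := fun ω j h => by
    rw [hsl]; exact if_neg h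
  have hsle : ∀ ω, A ω → ∀ j, |sl ω j| ≤ 2 ^ e := by
    intro ω hω j
    by_cases h : j = κ
    · rw [h, hslκ, abs_one]
      exact pe
    · rw [hslι ω j h]
      exact (hu ω hω).1
  have hιe : ({κ, ι} : Finset (Fin n)).erase κ = {ι} := by
    ext j
    simp only [Finset.mem_erase, Finset.mem_insert, Finset.mem_singleton]
    constructor
    · rintro ⟨h1, h2 | h2⟩
      · exact absurd h2 h1
      · exact h2
    · intro h
      exact ⟨fun h' => hκι (h'.symm.trans h), Or.inr h⟩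
  obtain ⟨B', b1, b2, b3⟩ := htie (zmV F hP yy ε) A hA (I := {κ, ι}) (κ := κ) (k := k)
    (Φ := phz F hP yy ε) (a := fun ω => av (ptr F J ω)) (sl := sl)
    (H := fun j => 2 ^ e * (2 / 2 ^ w + 1 / 2 ^ (J - B - P)) + 2 * (if j = κ then 0 else μ))
    (β := fun _ => 2 ^ e) (μ := fun j => if j = κ then 0 else μ) (α := 2 ^ e) (ρ := 1 / 2 ^ g)
    (s₀ := 1 / 2 ^ (J - B - P)) (err := E₁) (θ := θ) hlab (by omega) hθ hTm hJθ (by positivity)
    (by
      rw [div_le_one (by positivity)]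
      exact one_le_pow₀ (by norm_num)) (by
      have e1 : (1 : ℝ) / 2 ^ g * (1 / 2 ^ w) / 16 = 1 / 2 ^ (w + g + 4) := by
        rw [pow_add, pow_add]
        norm_num
        field_simp
      rw [e1]
      exact inv_mono hwg) (fun ω _ => hslκ ω) (fun _ => by positivity) (fun j => by
      show (0 : ℝ) ≤ if j = κ then 0 else μ
      split_ifs
      · exact le_rfl
      · exact hμ0) (fun ω hω j hj => by
      have := mul_le_mul_of_nonneg_right (hsle ω hω j)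
        (by positivity : (0 : ℝ) ≤ 2 / 2 ^ w + 1 / 2 ^ (J - B - P))
      exact add_le_add this le_rfl) (fun ω hω σ hσ b hbn hb j hj hjκ => by
      have hjι : j = ι := by
        rcases Finset.mem_insert.1 hj with h' | h'
        · exact absurd h' hjκ
        · exact Finset.mem_singleton.1 h'
      rw [hjι, (pd_afq κ ι hκι _ _ _ _ b).2]
      exact hcf ω hω) (fun ω ω' hω hω' h => by
      obtain ⟨c1, c2, c3⟩ := phz_ptr F hP yy ε h
      have hx := zom_x F hP yy ε h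
      have hdu := zom_d F hP yy ε hu hω hω' h
      have hdv := zom_d F hP yy ε hv hω hω' h
      rw [← hE₁] at hdu hdv
      refine ⟨by rw [hφ, hφ, c2], hx κ, hx k, hdv, fun j hj hjκ => ?_⟩
      have hjι : j = ι := by
        rcases Finset.mem_insert.1 hj with h' | h'
        · exact absurd h' hjκ
        · exact Finset.mem_singleton.1 h'
      subst hjι
      show |_ - _ - sl ω j * _| ≤ (if j = κ then 0 else μ) ∧
        |_ - _ - sl ω j * _| ≤ 2 ^ w * (if j = κ then 0 else μ)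
      rw [if_neg hjκ, hslι ω j hjκ]
      refine ⟨?_, ?_⟩
      · have k1 : |au (ptr F J ω) * ((zmV F hP yy ε).x ω' κ - (zmV F hP yy ε).x ω κ)| ≤
            2 ^ e * (1 / 2 ^ (J - B - P)) := by
          rw [abs_mul]
          exact mul_le_mul (hu ω hω).1 (hx κ) (abs_nonneg _) (by positivity)
        have k2 : 1 / 2 ^ (J - B - P) ≤ 2 ^ e * ((1 : ℝ) / 2 ^ (J - B - P)) :=
          le_mul_of_one_le_left (by positivity) pe
        refine (abs_sub _ _).trans ((add_le_add (hx j) k1).trans ?_)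
        have k3 : (2 : ℝ) ^ e * (2 / 2 ^ (J - B - P)) = 2 * (2 ^ e * (1 / 2 ^ (J - B - P))) := by
          ring
        have k4 : 0 ≤ E₁ / 2 ^ w := by positivity
        rw [hμ, k3]
        linarith
      · refine hdu.trans ?_
        have k1 : 2 ^ w * μ = E₁ + 2 ^ w * (2 ^ e * (2 / 2 ^ (J - B - P))) := by
          rw [hμ, mul_add]
          field_simp
        rw [k1]
        have : (0 : ℝ) ≤ 2 ^ w * (2 ^ e * (2 / 2 ^ (J - B - P))) := by positivity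
        linarith) (fun ω hω => (hv ω hω).1) (by
      intro B₁ hB₁ hPB₁
      have hPB₁' : Pe F.p A / 2 ≤ Pe F.p B₁ := hPB₁
      have hB₁0 : 0 < Pe F.p B₁ := by linarith
      obtain ⟨B', b1, b2, b3⟩ := nod_of (F := zmV F hP yy ε) (1 + 2) (B := B₁) hB₁0 (κ := κ)
        (g := g) (Φ := phz F hP yy ε) (fun B₀ hB₀ hPB₀ => by
          refine hact B₀ (fun ω hω => hB₁ ω (hB₀ ω hω)) ?_
          have hPB₀' : Pe F.p B₁ / 2 < Pe F.p B₀ := hPB₀
          linarith)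
      exact ⟨B', b1, b2, b3⟩)
  refine ⟨B', b1, b2, fun ω hω => ?_⟩
  have h1 := (b3 ω hω 0 ⟨le_rfl, zero_le_one⟩).2
  rw [Finset.sum_pair hκι, hslκ, hslι ω ι (Ne.symm hκι), (pd_afq κ ι hκι _ _ _ _ _).1,
    (pd_afq κ ι hκι _ _ _ _ _).2, hιe, Finset.sum_singleton, if_neg (Ne.symm hκι)] at h1
  have e1 : cf (zs (slam (zmV F hP yy ε) w ω)) 2 + cf (zs (slam (zmV F hP yy ε) w ω)) 3 *
      au (ptr F J ω) - av (ptr F J ω) = 1 * cf (zs (slam (zmV F hP yy ε) w ω)) 2 +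
      au (ptr F J ω) * cf (zs (slam (zmV F hP yy ε) w ω)) 3 - av (ptr F J ω) := by ring
  rw [e1]
  refine h1.trans ?_
  rw [hμ, hE₁]
  exact num_c hC hX hN n1 n2 n3

end Pool.MIC6
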