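import Pool.Agent.H6.OWN.Fib

/-!
# Labels over two coordinates are affine, without slopes of the third coordinate

`aff_fmn`: `aff_fam` without assumptions on the velocities of the coordinate `k`.
-/

set_option autoImplicit false

namespace Pool.MIC6

open Finset MvPolynomial
open Pool.Agent.H49.Ent Pool.Agent.H32.Dense Pool.STK Pool.KA Pool.KSAT Pool.K2S Pool.PB Pool.GEN
open Pool.FLF (Fam.sub)
open Pool.GRD (LbP)
open Pool.PB.Trl (rt rt_mem t_rt)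

variable {n J : ℕ}

/-- The difference of the label of a sample and of its linear part. -/
noncomputable def psw (F : Fam n J) {V : Type} (κ ι k : Fin n) (w : ℕ) (z' : LnT F → V)
    (G : V → MvPolynomial (Option (Fin n)) ℝ) (c H : ℝ) (ω : F.Ω) (σ η ξ : ℝ) : ℝ :=
  psi κ ι (G (z' (slam F w ω))) (wt F w ω σ) (wp F w ω σ κ) (wp F w ω σ ι) (wp F w ω σ k)
    (gsl w z' G κ (slam F w ω)) (gsl w z' G ι (slam F w ω)) c (1 / 2 ^ w) H η ξ

theorem psw_cont (F : Fam n J) {V : Type} (κ ι k : Fin n) (w : ℕ) (z' : LnT F → V)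
    (G : V → MvPolynomial (Option (Fin n)) ℝ) (c H : ℝ) (ω : F.Ω) :
    Continuous fun p : ℝ × ℝ × ℝ => psw F κ ι k w z' G c H ω p.1 p.2.1 p.2.2 := by
  have h1 : Continuous fun σ => wt F w ω σ := by
    unfold wt
    exact continuous_const.add (continuous_const.mul continuous_id)
  have h2 : ∀ j, Continuous fun σ => wp F w ω σ j := by
    intro j
    unfold wp
    exact continuous_const.add (continuous_const.mul h1)
  exact psi_cont κ ι _ h1 (h2 κ) (h2 ι) (h2 k) _ _ _ _ _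

theorem psw_slam {F : Fam n J} {V : Type} {κ ι k : Fin n} {w : ℕ} {z' : LnT F → V}
    {G : V → MvPolynomial (Option (Fin n)) ℝ} {c H : ℝ} {ω ω' : F.Ω}
    (h : slam F w ω = slam F w ω') : psw F κ ι k w z' G c H ω = psw F κ ι k w z' G c H ω' := by
  funext σ η ξ
  unfold psw
  rw [wt_slam h, wp_slam h, wp_slam h, wp_slam h, h]

/-- The numbers of `aff_fmn`: the size of the difference. -/
theorem sup_le {X Y Z S E : ℝ} (h : S ≤ Z * (X * (E + Y * S)))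
    (hs : Z * X * Y ≤ 1 / 2) (hS : 0 ≤ S) : S ≤ 2 * (Z * X * E) := by
  have h1 : Z * X * Y * S ≤ 1 / 2 * S := mul_le_mul_of_nonneg_right hs hS
  have h2 : Z * (X * (E + Y * S)) = Z * X * E + Z * X * Y * S := by ring
  linarith

/-- The derivative at the point and at the start of the window. -/
theorem grad_psi (K : ℕ) (hK : 1 ≤ K) : ∃ C : ℝ, 1 ≤ C ∧ ∀ {n J : ℕ} {F : Fam n J}
    {A : F.Ω → Prop} {κ ι k : Fin n} {r w P : ℕ} {V : Type} {z : PtT F → V} {z' : LnT F → V}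
    {G : V → MvPolynomial (Option (Fin n)) ℝ} {c H S : ℝ} {ω : F.Ω}, κ ≠ ι →
    LbP F {κ, ι} k K r w P A z z' G → w ≤ J → 0 < H →
    (∀ σ ∈ Set.Icc (0 : ℝ) 1, ∀ η ∈ Set.Icc (-4 : ℝ) 4, ∀ ξ ∈ Set.Icc (-4 : ℝ) 4,
      |psw F κ ι k w z' G c H ω σ η ξ| ≤ S) →
    |gdp F w z' G (some ι) ω - gsl w z' G ι (slam F w ω)| ≤ C * S / H ∧
    ∀ σ ∈ Set.Icc (0 : ℝ) 1, ∀ η ∈ Set.Icc (-4 : ℝ) 4, ∀ ξ ∈ Set.Icc (-4 : ℝ) 4,
      ∀ ξ' ∈ Set.Icc (-4 : ℝ) 4, |psw F κ ι k w z' G c H ω σ η ξ -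
        psw F κ ι k w z' G c H ω σ η ξ'| ≤ C * S * |ξ - ξ'| := by
  obtain ⟨C, hC, hmk⟩ := psi_mk K hK
  refine ⟨C, hC, ?_⟩
  intro n J F A κ ι k r w P V z z' G c H S ω hκι hL hw hH hS
  have m0 : (0 : ℝ) ∈ Set.Icc (-4 : ℝ) 4 := ⟨by norm_num, by norm_num⟩
  refine ⟨?_, fun σ hσ η hη ξ hξ ξ' hξ' => ?_⟩
  · have h1 := (hmk (G := G (z' (slam F w ω))) (κ := κ) (ι := ι) (t := wt F w ω (rt F w ω))
      (y := wp F w ω (rt F w ω) κ) (x := wp F w ω (rt F w ω) ι) (v := wp F w ω (rt F w ω) k)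
      (a := gsl w z' G κ (slam F w ω)) (b := gsl w z' G ι (slam F w ω)) (c := c)
      (h := 1 / 2 ^ w) (H := H) (η := 0) (S := S) (hL.deg _) hκι hH
      (fun ξ hξ => hS _ (rt_mem F w ω) 0 m0 ξ hξ)).1 0 m0
    have h2 : eval (bpt κ ι (wt F w ω (rt F w ω)) (wp F w ω (rt F w ω) κ + 1 / 2 ^ w * 0)
        (wp F w ω (rt F w ω) ι + c * (1 / 2 ^ w * 0) + H * 0))
        (pderiv (some ι) (G (z' (slam F w ω)))) = gdp F w z' G (some ι) ω := by
      unfold gdp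
      refine pd_congr (hL.dep _) ι ?_ fun i hi => ?_
      · show wt F w ω (rt F w ω) = F.t ω
        rw [t_rt F hw ω]
        unfold wt
        ring
      · have hp : wp F w ω (rt F w ω) i = F.x ω i := by
          rw [wp_eq F hw]
          ring
        rcases Finset.mem_insert.1 hi with h | h
        · show (if i = κ then wp F w ω (rt F w ω) κ + 1 / 2 ^ w * 0 else _) = F.x ω i
          rw [if_pos h, ← h, hp, mul_zero, add_zero]
        · rw [Finset.mem_singleton] at h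
          show (if i = κ then _ else if i = ι then wp F w ω (rt F w ω) ι + c * (1 / 2 ^ w * 0) +
            H * 0 else _) = F.x ω i
          rw [if_neg (by rw [h]; exact Ne.symm hκι), if_pos h, ← h, hp]
          ring
    rw [h2] at h1
    exact h1
  · exact (hmk (G := G (z' (slam F w ω))) (κ := κ) (ι := ι) (t := wt F w ω σ)
      (y := wp F w ω σ κ) (x := wp F w ω σ ι) (v := wp F w ω σ k)
      (a := gsl w z' G κ (slam F w ω)) (b := gsl w z' G ι (slam F w ω)) (c := c)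
      (h := 1 / 2 ^ w) (H := H) (η := η) (S := S) (hL.deg _) hκι hH
      (fun ξ hξ => hS σ hσ η hη ξ hξ)).2 ξ hξ ξ' hξ'

/-- The label on the lines of one fibre. -/
theorem mv_psi {K r w P : ℕ} {F : Fam n J} {A : F.Ω → Prop} {κ ι k : Fin n} {V : Type}
    {z : PtT F → V} {z' : LnT F → V} {G : V → MvPolynomial (Option (Fin n)) ℝ}
    {c H S C μ s₀ ju : ℝ} {ω ω' : F.Ω} (hκι : κ ≠ ι) (hL : LbP F {κ, ι} k K r w P A z z' G)
    (hw : w ≤ J) (hH : 0 < H)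
    (hpsi : ∀ σ ∈ Set.Icc (0 : ℝ) 1, ∀ η ∈ Set.Icc (-4 : ℝ) 4, ∀ ξ ∈ Set.Icc (-4 : ℝ) 4,
      ∀ ξ' ∈ Set.Icc (-4 : ℝ) 4, |psw F κ ι k w z' G c H ω σ η ξ -
        psw F κ ι k w z' G c H ω σ η ξ'| ≤ C * S * |ξ - ξ'|) (hCS : 0 ≤ C * S)
    (hp : ptr F r ω = ptr F r ω') (hs₀ : s₀ ≤ 1 / 2 ^ w) (hxκ : |F.x ω' κ - F.x ω κ| ≤ s₀)
    (hx : |F.x ω' ι - F.x ω ι - ju * (F.x ω' κ - F.x ω κ)| ≤ μ)
    (hd : |F.d ω' ι - F.d ω ι - ju * (F.d ω' κ - F.d ω κ)| ≤ 2 ^ w * μ) (hμH : 2 * μ ≤ H)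
    (hJ : |ju - c| * (1 / 2 ^ w) ≤ H)
    {σ : ℝ} (hσ : σ ∈ Set.Icc (0 : ℝ) 1) (sl : Fin n → ℝ) (hslκ : sl κ = 1) (hslι : sl ι = ju)
    (b : Option (Fin n) → ℝ)
    (hbn : b none = wt F w ω σ) (hb : ∀ j ∈ ({κ, ι} : Finset (Fin n)),
      b (some j) = wp F w ω' σ j) :
    |(eval b (G (z' (slam F w ω))) - gsl w z' G ι (slam F w ω) * b (some ι)) -
      (eval (mvp (F.u ω) (F.d ω) sl (wt F w ω σ) (wp F w ω' σ κ - wp F w ω σ κ))
        (G (z' (slam F w ω))) - gsl w z' G ι (slam F w ω) * (wp F w ω σ ι +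
          sl ι * (wp F w ω' σ κ - wp F w ω σ κ)))| ≤ C * S * (2 * μ / H) := by
  classical
  have pw : (0 : ℝ) < 2 ^ w := by positivity
  have ph : (0 : ℝ) < 1 / 2 ^ w := by positivity
  have hT : F.T ω' = F.T ω := (congrArg (fun p : PtT F => p.2.1) hp).symm
  have hrt : rt F w ω' = rt F w ω := by
    unfold rt
    rw [hT]
  obtain ⟨x, hxx⟩ : ∃ x, x = 1 / 2 ^ w * (σ - rt F w ω) := ⟨_, rfl⟩
  have hτ : |x| ≤ 1 / 2 ^ w := by
    rw [hxx, abs_mul, abs_of_pos ph]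
    refine mul_le_of_le_one_right (by positivity) ?_
    have h1 := rt_mem F w ω
    rw [abs_le]
    constructor <;> linarith [h1.1, h1.2, hσ.1, hσ.2]
  have hwp : ∀ j, wp F w ω σ j = F.x ω j + x * F.d ω j := fun j => by
    rw [wp_eq F hw, hxx]
  have hwp' : ∀ j, wp F w ω' σ j = F.x ω' j + x * F.d ω' j := fun j => by
    rw [wp_eq F hw, hrt, hxx]
  obtain ⟨Δ, hΔ⟩ : ∃ Δ, Δ = wp F w ω' σ κ - wp F w ω σ κ := ⟨_, rfl⟩
  have hyd : |Δ| ≤ 3 * (1 / 2 ^ w) := by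
    rw [hΔ, hwp, hwp']
    have e1 : F.x ω' κ + x * F.d ω' κ - (F.x ω κ + x * F.d ω κ) =
        x * (F.d ω' κ - F.d ω κ) + (F.x ω' κ - F.x ω κ) := by ring
    rw [e1]
    refine (abs_add_le _ _).trans ?_
    have h2 : |F.d ω' κ - F.d ω κ| ≤ 2 := (abs_sub _ _).trans (by
      linarith [F.dir ω' κ, F.dir ω κ])
    have h3 : |x * (F.d ω' κ - F.d ω κ)| ≤ 1 / 2 ^ w * 2 := by
      rw [abs_mul]
      exact mul_le_mul hτ h2 (abs_nonneg _) (by positivity)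
    linarith
  have hdif : |wp F w ω' σ ι - (wp F w ω σ ι + ju * Δ)| ≤ 2 * μ := by
    rw [hΔ, hwp, hwp', hwp, hwp']
    have e1 : F.x ω' ι + x * F.d ω' ι - (F.x ω ι + x * F.d ω ι +
        ju * (F.x ω' κ + x * F.d ω' κ - (F.x ω κ + x * F.d ω κ))) =
        (F.x ω' ι - F.x ω ι - ju * (F.x ω' κ - F.x ω κ)) +
        x * (F.d ω' ι - F.d ω ι - ju * (F.d ω' κ - F.d ω κ)) := by ring
    rw [e1]
    refine (abs_add_le _ _).trans ?_
    have h2 : |x * (F.d ω' ι - F.d ω ι - ju * (F.d ω' κ - F.d ω κ))| ≤ μ := by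
      rw [abs_mul]
      calc |x| * |F.d ω' ι - F.d ω ι - ju * (F.d ω' κ - F.d ω κ)| ≤
            1 / 2 ^ w * (2 ^ w * μ) := mul_le_mul hτ hd (abs_nonneg _)
              (by positivity)
        _ = μ := by field_simp
    linarith
  obtain ⟨η, hη⟩ : ∃ η, η = Δ / (1 / 2 ^ w) := ⟨_, rfl⟩
  have hηm : 1 / 2 ^ w * η = Δ := by
    rw [hη]
    field_simp
  have hη3 : |η| ≤ 3 := by
    rw [hη, abs_div, abs_of_pos ph, div_le_iff₀ ph]
    exact hyd
  obtain ⟨ξ', hξ'⟩ : ∃ ξ', ξ' = (ju - c) * Δ / H := ⟨_, rfl⟩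
  obtain ⟨ξ, hξ⟩ : ∃ ξ, ξ = (wp F w ω' σ ι - wp F w ω σ ι - c * Δ) / H := ⟨_, rfl⟩
  have hξm : H * ξ = wp F w ω' σ ι - wp F w ω σ ι - c * Δ := by
    rw [hξ]
    field_simp
  have hξm' : H * ξ' = (ju - c) * Δ := by
    rw [hξ']
    field_simp
  have hξ3 : |ξ'| ≤ 3 := by
    rw [hξ', abs_div, abs_of_pos hH, div_le_iff₀ hH, abs_mul]
    calc |ju - c| * |Δ| ≤ |ju - c| * (3 * (1 / 2 ^ w)) :=
          mul_le_mul_of_nonneg_left hyd (abs_nonneg _)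
      _ = 3 * (|ju - c| * (1 / 2 ^ w)) := by ring
      _ ≤ 3 * H := mul_le_mul_of_nonneg_left hJ (by norm_num)
  have hξξ : |ξ - ξ'| ≤ 2 * μ / H := by
    rw [le_div_iff₀ hH]
    have e1 : |ξ - ξ'| * H = |H * ξ - H * ξ'| := by
      rw [← mul_sub, abs_mul, abs_of_pos hH, mul_comm]
    rw [e1, hξm, hξm']
    have e2 : wp F w ω' σ ι - wp F w ω σ ι - c * Δ - (ju - c) * Δ =
        wp F w ω' σ ι - (wp F w ω σ ι + ju * Δ) := by ring
    rw [e2]
    exact hdif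
  have hξ4 : |ξ| ≤ 4 := by
    have h1 : 2 * μ / H ≤ 1 := by
      rw [div_le_one hH]
      exact hμH
    have e1 : ξ = ξ' + (ξ - ξ') := by ring
    rw [e1]
    refine (abs_add_le _ _).trans ?_
    linarith
  rw [abs_le] at hη3 hξ3 hξ4
  have key := hpsi σ hσ η ⟨by linarith [hη3.1], by linarith [hη3.2]⟩ ξ ⟨hξ4.1, hξ4.2⟩ ξ'
    ⟨by linarith [hξ3.1], by linarith [hξ3.2]⟩
  have k1 : eval b (G (z' (slam F w ω))) = eval (bpt κ ι (wt F w ω σ)
      (wp F w ω σ κ + 1 / 2 ^ w * η) (wp F w ω σ ι + c * (1 / 2 ^ w * η) + H * ξ))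
      (G (z' (slam F w ω))) := by
    refine hL.dep _ _ _ hbn fun i hi => ?_
    rw [hb i hi]
    rcases Finset.mem_insert.1 hi with h | h
    · rw [h, hηm, hΔ]
      show _ = if κ = κ then wp F w ω σ κ + (wp F w ω' σ κ - wp F w ω σ κ) else _
      rw [if_pos rfl]
      ring
    · rw [Finset.mem_singleton.1 h, hηm, hξm]
      show _ = if ι = κ then _ else if ι = ι then wp F w ω σ ι + c * Δ +
        (wp F w ω' σ ι - wp F w ω σ ι - c * Δ) else _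
      rw [if_neg (Ne.symm hκι), if_pos rfl]
      ring
  have k2 : eval (mvp (F.u ω) (F.d ω) sl (wt F w ω σ) Δ) (G (z' (slam F w ω))) =
      eval (bpt κ ι (wt F w ω σ) (wp F w ω σ κ + 1 / 2 ^ w * η)
      (wp F w ω σ ι + c * (1 / 2 ^ w * η) + H * ξ')) (G (z' (slam F w ω))) := by
    refine hL.dep _ _ _ rfl fun i hi => ?_
    rcases Finset.mem_insert.1 hi with h | h
    · rw [h, hηm]
      show wp F w ω σ κ + sl κ * Δ = if κ = κ then wp F w ω σ κ + Δ else _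
      rw [if_pos rfl, hslκ, one_mul]
    · rw [Finset.mem_singleton.1 h, hηm, hξm']
      show wp F w ω σ ι + sl ι * Δ = if ι = κ then _ else if ι = ι then
        wp F w ω σ ι + c * Δ + (ju - c) * Δ else _
      rw [if_neg (Ne.symm hκι), if_pos rfl, hslι]
      ring
  rw [← hΔ, k1, k2, hb ι (Finset.mem_insert_of_mem (Finset.mem_singleton_self _)), hslι]
  have k3 : wp F w ω' σ ι = wp F w ω σ ι + c * Δ + H * ξ := by
    rw [hξm]
    ring
  have k4 : wp F w ω σ ι + ju * Δ = wp F w ω σ ι + c * Δ + H * ξ' := by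
    rw [hξm']
    ring
  rw [k3, k4]
  refine le_trans (le_of_eq ?_) (key.trans (mul_le_mul_of_nonneg_left hξξ hCS))
  congr 1
  unfold psw psi
  rw [hηm]
  ring

end Pool.MIC6
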