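import Pool.Agent.H6.OWN.Gsl

/-!
# The natural bound of a coefficient

`coef_cls`: if `h + g * au` is small on an event of a class, with `g`, `h` functions of the line in
the window and `au` the slope of `u` over `y` at the exact points, then `g` is small on a part of
the event: the slopes are not functions of the line in the window up to less than the natural scale.
-/

set_option autoImplicit false

namespace Pool.MIC6

open Finset MvPolynomial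
open Pool.Agent.H49.Ent Pool.Agent.H32.Dense Pool.STK Pool.KA Pool.KSAT Pool.K2S Pool.PB Pool.GEN
open Pool.S6C
open Pool.FLF (Fam.sub)
open Pool.GRD (LbP)
open Pool.REX

variable {m n J : ℕ}

/-- **The natural bound of a coefficient.** -/
theorem coef_cls {S : PCl m} {C₀ : ℝ} (htm : TmC S C₀)
    {L : Finset (Fin m) → Fin m → ℝ → ℝ → ℝ} (hL : LamW S L) {y u : Fin m}
    {W s : ℝ} (hW0 : 0 ≤ W) (hs : 0 < s) (hLW : W ≤ L {y} u W 0) (hLs : L {y} u W 0 + 2 * s ≤ 1) :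
    ∃ d : ℝ, 0 < d ∧ ∀ e : ℝ, 0 < e → e ≤ d → Bas S (fun J F A => ∀ (au cu : PtT F → ℝ) (M : ℕ),
      Dp F A y u ⌊e * J⌋₊ M au cu → ⌊(L {y} u W 0 - W + s) * J⌋₊ ≤ M →
      ∀ (g h : LnT F → ℝ) (T E : ℝ), 0 < T → E * 2 ^ ⌊(L {y} u W 0 - W + s) * J⌋₊ ≤ T →
      (∀ ω, A ω → |h (slam F ⌊W * J⌋₊ ω) + g (slam F ⌊W * J⌋₊ ω) * au (ptr F J ω)| ≤ E) →
      ∃ B : F.Ω → Prop, Sub B A ∧ Pe F.p A / 2 ≤ Pe F.p B ∧ ∀ ω, B ω →
        |g (slam F ⌊W * J⌋₊ ω)| ≤ T) := by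
  classical
  obtain ⟨d, hd, habs⟩ := abs_cls htm hL (y := y) (v := u) hW0 hs hLW hLs
  refine ⟨d, hd, fun e he hed => ?_⟩
  obtain ⟨τ₁, hτ₁, J₁, hb⟩ := habs e he hed
  obtain ⟨J₂, hJ₂⟩ := exists_nat_ge (Real.log 2 / (τ₁ / 2))
  refine ⟨τ₁ / 2, by linarith, max J₁ J₂, ?_⟩
  intro J hJ F A hA au cu M hau hM g h T E hT hE hgh
  have j1 : J₁ ≤ J := (le_max_left _ _).trans hJ
  have j2 : (J₂ : ℝ) ≤ J := by exact_mod_cast (le_max_right _ _).trans hJ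
  have hlog : Real.log 2 ≤ τ₁ / 2 * J := by
    have h1 := hJ₂.trans j2
    rw [div_le_iff₀ (by linarith)] at h1
    linarith
  have hA0 := (htm (τ₁ / 2) J F A (by linarith) hA).1
  have hparts := Pe_parts (p := F.p) (B := A)
    (B' := fun ω => A ω ∧ T < |g (slam F ⌊W * J⌋₊ ω)|) fun ω hω => hω.1
  refine ⟨fun ω => A ω ∧ ¬ (A ω ∧ T < |g (slam F ⌊W * J⌋₊ ω)|), fun ω hω => hω.1, ?_,
    fun ω hω => ?_⟩
  · by_contra hcon
    rw [not_le] at hcon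
    have hbig : Pe F.p A / 2 < Pe F.p (fun ω => A ω ∧ T < |g (slam F ⌊W * J⌋₊ ω)|) := by
      linarith
    have hS := res_of (by linarith : (0 : ℝ) ≤ τ₁ / 2) hA
      (B := fun ω => A ω ∧ T < |g (slam F ⌊W * J⌋₊ ω)|) (fun ω hω => hω.1)
      (by norm_num : (0 : ℝ) < 2) hlog (by linarith)
    have e1 : 2 * (τ₁ / 2) = τ₁ := by ring
    rw [e1] at hS
    refine hb J j1 F _ hS au cu M (hau.sub fun ω hω => hω.1) hM
      (fun x => -h x / g x) fun ω hω => ?_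
    have h1 := hgh ω hω.1
    have hg : T < |g (slam F ⌊W * J⌋₊ ω)| := hω.2
    have hg0 : 0 < |g (slam F ⌊W * J⌋₊ ω)| := hT.trans hg
    have hgne : g (slam F ⌊W * J⌋₊ ω) ≠ 0 := abs_pos.1 hg0
    have e2 : -h (slam F ⌊W * J⌋₊ ω) / g (slam F ⌊W * J⌋₊ ω) - au (ptr F J ω) =
        -(h (slam F ⌊W * J⌋₊ ω) + g (slam F ⌊W * J⌋₊ ω) * au (ptr F J ω)) /
          g (slam F ⌊W * J⌋₊ ω) := by
      field_simp
      ring
    show |-h (slam F ⌊W * J⌋₊ ω) / g (slam F ⌊W * J⌋₊ ω) - au (ptr F J ω)| ≤ _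
    rw [e2, abs_div, abs_neg, div_le_div_iff₀ hg0 (by positivity), one_mul]
    refine (mul_le_mul_of_nonneg_right h1 (by positivity)).trans (hE.trans hg.le)
  · by_contra hcon
    rw [not_le] at hcon
    exact hω.2 ⟨hω.1, hcon⟩

end Pool.MIC6
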