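import Pool.Agent.H6.OWN.Afc
import Pool.Agent.H6.OWN.Cfn

/-!
# The natural bound of the coefficient of an affine label

`aff_nat`: the coefficient of `u` in the affine label of `v` over `y`, `u` in a zoom is bounded by
the natural scale `2 ^ (- (V - U) J)`, if `v` has the number `V` and `u` the number `U` over `y`.
-/

set_option autoImplicit false

namespace Pool.MIC6

open Finset MvPolynomial
open Pool.Agent.H49.Ent Pool.Agent.H32.Dense Pool.STK Pool.KA Pool.KSAT Pool.K2S Pool.PB Pool.GEN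
open Pool.S6C
open Pool.FLF (Fam.sub)
open Pool.GRD (LbP)
open Pool.REX

variable {m n J : ℕ}

/-- A real function factors. -/
theorem fac_fun {Ω X : Type} {f : Ω → X} {g : Ω → ℝ} (h : ∀ ω ω', f ω = f ω' → g ω = g ω') :
    ∃ φ : X → ℝ, ∀ ω, g ω = φ (f ω) := by
  classical
  refine ⟨fun x => if hx : ∃ ω, f ω = x then g hx.choose else 0, fun ω => ?_⟩
  have hx : ∃ ω', f ω' = f ω := ⟨ω, rfl⟩
  show g ω = if hx : ∃ ω', f ω' = f ω then g hx.choose else 0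
  rw [dif_pos hx]
  exact h _ _ hx.choose_spec.symm

/-- Functions of the line of the zoom are functions of the line in a slightly smaller window. -/
theorem zom_fac (F : Fam m J) {B P : ℕ} (hP : P ≤ J - B) {Y : Type} (yy : F.Ω → Y)
    (ε : Fin n → Fin m) (hB : B ≤ J) {w W : ℕ} (hw : w ≤ J - B - P) (hW : B + w ≤ W)
    (hWJ : W ≤ J) (hyy : ∀ ω ω', slam F (B + w) ω = slam F (B + w) ω' →
      slam (zmV F hP yy ε) w ω = slam (zmV F hP yy ε) w ω') (g : LnT (zmV F hP yy ε) → ℝ) :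
    ∃ φ : LnT F → ℝ, ∀ ω, g (slam (zmV F hP yy ε) w ω) = φ (slam F W ω) := by
  refine fac_fun (f := slam F W) (g := fun ω => g (slam (zmV F hP yy ε) w ω)) fun ω ω' h => ?_
  have h1 : slam F (B + w) ω = slam F (B + w) ω' := by
    rw [slam_coarse F hW hWJ ω, slam_coarse F hW hWJ ω', h]
  show g _ = g _
  rw [hyy ω ω' h1]

/-- **The natural bound of the coefficient.** -/
theorem aff_nat {S : PCl m} {C₀ : ℝ} (hC₀ : 0 ≤ C₀) (htm : TmC S C₀)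
    {L : Finset (Fin m) → Fin m → ℝ → ℝ → ℝ} (hL : LamW S L) (v : Vz m)
    (ε : Fin n → Fin m) {L' : Finset (Fin n) → Fin n → ℝ → ℝ → ℝ} (hL' : LamW (RecV S v ε) L')
    {κ ι k : Fin n} (hκι : κ ≠ ι) (hact : ActZ S v ε κ) (hactF : ActF S (ε κ))
    {w' w r' x q t : ℝ} (hw' : w' < w) (hr0 : 0 ≤ r') (hw0 : 0 < w) (hw1 : w < 1) (hx : 0 < x)
    (hrs : x ≤ (1 - v.b) * (1 - v.p) * (w - r')) (hqx : x ≤ q)
    (hLz : q + x ≤ v.sc (L' {κ, ι} k w' r') - v.p * (1 - v.b) - v.tm w)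
    (hcont : ContinuousAt (fun W => L {ε κ} (ε ι) W 0) (v.tm w))
    (hUt : v.tm w < L {ε κ} (ε ι) (v.tm w) 0)
    (hLu : L {ε κ} (ε ι) (v.tm w) 0 + v.p * (1 - v.b) ≤ v.sc (L' {κ} ι w' r'))
    (ht : 0 ≤ t) (hUV : t + 2 * x + L {ε κ} (ε ι) (v.tm w) 0 ≤ L {ε κ} (ε k) (v.tm w) 0)
    (hVq : L {ε κ} (ε k) (v.tm w) 0 - v.tm w ≤ q) :
    ∃ e₀ : ℝ, 0 < e₀ ∧ Bas S (fun J F A => ∀ (au cu av cv : PtT F → ℝ) (e M : ℕ),
      e ≤ ⌊e₀ * J⌋₊ → ⌊(q + v.p * (1 - v.b) + x) * J⌋₊ ≤ M → Dp F A (ε κ) (ε ι) e M au cu →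
      Dp F A (ε κ) (ε k) e M av cv → ∀ hP : v.P J ≤ J - v.B J,
      ∃ B : F.Ω → Prop, Sub B A ∧ Pe F.p A ≤ 20480 * Pe F.p B ∧
        ∃ (V : Type) (zp : PtT (zmV F hP (v.y J F) ε) → V) (zs : LnT (zmV F hP (v.y J F) ε) → V)
          (cf : V → Fin 4 → ℝ),
          AfC F hP (v.y J F) ε κ ι k (⌊w * v.R J⌋₊ + 2) (⌊w * v.R J⌋₊ + ⌊q * J⌋₊)
            ⌊(q - x) * J⌋₊ ⌊x / 32 * J⌋₊ au av B zp zs cf ∧
          ∀ ω, B ω → |cf (zs (slam (zmV F hP (v.y J F) ε) (⌊w * v.R J⌋₊ + 2) ω)) 3| ≤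
            1 / 2 ^ ⌊t * J⌋₊) := by
  classical
  have hb := v.b0
  have hb1 := v.b1
  have hp := v.p0
  have hp1 := v.p1
  have hcp : 0 < (1 - v.b) * (1 - v.p) := mul_pos (by linarith) (by linarith)
  have hpb : 0 ≤ v.p * (1 - v.b) := mul_nonneg hp (by linarith)
  obtain ⟨U, hUd⟩ : ∃ U, U = L {ε κ} (ε ι) (v.tm w) 0 := ⟨_, rfl⟩
  obtain ⟨V, hVd⟩ : ∃ V, V = L {ε κ} (ε k) (v.tm w) 0 := ⟨_, rfl⟩
  have hV1 : V ≤ 1 := by rw [hVd]; exact hL.le1 _ _ _ _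
  have htm0 : v.tm w = v.b + (1 - v.b) * (1 - v.p) * w := rfl
  have htw0 : 0 < v.tm w := by
    have : 0 < (1 - v.b) * (1 - v.p) * w := mul_pos hcp hw0
    rw [htm0]
    linarith
  obtain ⟨e₁, he₁, haff⟩ := aff_cls hC₀ htm hL v ε hL' hκι hact hactF hw' hr0 hw0 hw1 hx hrs hqx
    hLz hcont hUt (by linarith) hLu
  rw [← hUd, ← hVd] at hUV
  rw [← hVd] at hVq
  rw [← hUd] at hUt
  -- the window
  obtain ⟨s, hs⟩ : ∃ s, s = min (x / 64) ((V - v.tm w) / 16) := ⟨_, rfl⟩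
  have hs0 : 0 < s := by
    rw [hs]
    exact lt_min (by linarith) (by linarith)
  have hsx : 64 * s ≤ x := by
    have : s ≤ x / 64 := by rw [hs]; exact min_le_left _ _
    linarith
  have hsV : 16 * s ≤ V - v.tm w := by
    have : s ≤ (V - v.tm w) / 16 := by rw [hs]; exact min_le_right _ _
    linarith
  obtain ⟨η, hη, hηc⟩ := Metric.continuousAt_iff.1 hcont s hs0
  obtain ⟨o, hod⟩ : ∃ o, o = min s (η / 2) := ⟨_, rfl⟩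
  have ho0 : 0 < o := by rw [hod]; exact lt_min hs0 (by linarith)
  have ho1 : o ≤ s := by rw [hod]; exact min_le_left _ _
  have ho2 : o ≤ η / 2 := by rw [hod]; exact min_le_right _ _
  obtain ⟨W, hW⟩ : ∃ W, W = v.tm w + o := ⟨_, rfl⟩
  obtain ⟨U₂, hU₂⟩ : ∃ U₂, U₂ = L {ε κ} (ε ι) W 0 := ⟨_, rfl⟩
  have hUU₂ : |U₂ - U| < s := by
    have h1 := @hηc W (by
      rw [Real.dist_eq, hW]
      have : v.tm w + o - v.tm w = o := by ring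
      rw [this, abs_of_pos ho0]
      linarith)
    rw [Real.dist_eq] at h1
    rw [hU₂, hUd]
    exact h1
  rw [abs_lt] at hUU₂
  have hUU₂' : U ≤ U₂ := by
    rw [hU₂, hUd]
    exact hL.mono _ _ _ _ _ _ _ (Finset.Subset.refl _) (by rw [hW]; linarith) le_rfl
  have hnv := nat_cls hC₀ htm hL (v := ε k) hactF (W' := v.tm w) (W := W) (s := s)
    (by rw [hW]; linarith) (by rw [hW]; linarith) hs0 (by rw [← hVd, hW]; linarith)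
  obtain ⟨d, hd0, hcoef⟩ := coef_cls htm hL (y := ε κ) (u := ε ι) (W := W) (s := s)
    (by rw [hW]; linarith) hs0 (hL.low _ _ _ _ (by rw [hW]; linarith))
    (by rw [← hU₂]; linarith)
  rw [← hVd] at hnv
  rw [← hU₂] at hcoef
  obtain ⟨e₀, he₀⟩ : ∃ e₀, e₀ = min e₁ (min d s) := ⟨_, rfl⟩
  have he₀0 : 0 < e₀ := by rw [he₀]; exact lt_min he₁ (lt_min hd0 hs0)
  have he₀1 : e₀ ≤ e₁ := by rw [he₀]; exact min_le_left _ _
  have he₀d : e₀ ≤ d := by rw [he₀]; exact (min_le_right _ _).trans (min_le_left _ _)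
  have he₀s : e₀ ≤ s := by rw [he₀]; exact (min_le_right _ _).trans (min_le_right _ _)
  obtain ⟨τ₁, hτ₁, J₁, b₁⟩ := haff
  obtain ⟨τ₂, hτ₂, J₂, b₂⟩ := hnv
  obtain ⟨τ₃, hτ₃, J₃, b₃⟩ := hcoef e₀ he₀0 he₀d
  obtain ⟨τ, hτ⟩ : ∃ τ, τ = min τ₁ (min (τ₂ / 2) (τ₃ / 2)) := ⟨_, rfl⟩
  have hτ0 : 0 < τ := by rw [hτ]; exact lt_min hτ₁ (lt_min (by linarith) (by linarith))
  have t0 : τ ≤ τ₁ ∧ τ ≤ τ₂ / 2 ∧ τ ≤ τ₃ / 2 := by
    have := hτ.le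
    simp only [le_min_iff] at this
    exact this
  obtain ⟨t1, t2, t3⟩ := t0
  obtain ⟨J₄, hJ₄⟩ := exists_nat_ge (max ((100 : ℝ) / o) (Real.log 20480 / τ))
  refine ⟨e₀, he₀0, τ, hτ0, J₁ + J₂ + J₃ + J₄, ?_⟩
  intro J hJ F A hA au cu av cv e M he hM hau hav hP
  have hJ4 : (J₄ : ℝ) ≤ J := by exact_mod_cast (by omega : J₄ ≤ J)
  have hJ0 : (0 : ℝ) ≤ J := Nat.cast_nonneg J
  have q1 : (100 : ℝ) ≤ o * J := by
    have h1 := ((le_max_left _ _).trans hJ₄).trans hJ4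
    rw [div_le_iff₀ ho0] at h1
    linarith
  have hlog : Real.log 20480 ≤ τ * J := by
    have h1 := ((le_max_right _ _).trans hJ₄).trans hJ4
    rw [div_le_iff₀ hτ0] at h1
    linarith
  have hA0 := (htm τ J F A hτ0 hA).1
  have hres : ∀ (B' : F.Ω → Prop), Sub B' A → Pe F.p A ≤ 20480 * Pe F.p B' →
      S.St (2 * τ) J F B' := fun B' h1 h2 => res_of hτ0.le hA h1 (by norm_num) hlog h2
  have hes : ⌊e₀ * (J : ℝ)⌋₊ ≤ ⌊s * (J : ℝ)⌋₊ :=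
    Nat.floor_le_floor (mul_le_mul_of_nonneg_right he₀s hJ0)
  have hMge : ∀ z : ℝ, z ≤ q + v.p * (1 - v.b) + x → ⌊z * (J : ℝ)⌋₊ ≤ M := fun z hz =>
    (Nat.floor_le_floor (mul_le_mul_of_nonneg_right hz hJ0)).trans hM
  obtain ⟨B₁, a1, a2, V', zp, zs, cf, a3⟩ := b₁ J (by omega) F A (S.mono t1 hA) au cu av cv e M
    (he.trans (Nat.floor_le_floor (mul_le_mul_of_nonneg_right he₀1 hJ0))) hM hau hav hP
  obtain ⟨B₂, c1, c2, j, c3⟩ := b₂ J (by omega) F B₁ (S.mono (by linarith)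
    (hres B₁ a1 (by
      have : 0 ≤ Pe F.p B₁ := Pe_nonneg F.isLaw B₁
      linarith))) av cv e M (hav.sub a1) (he.trans hes) (hMge _ (by rw [hW]; linarith))
  have hB₂A : Sub B₂ A := fun ω hω => a1 ω (c1 ω hω)
  -- the window of the zoom
  obtain ⟨k1, -, -⟩ := v.floor_le J
  obtain ⟨r1, r2, r3, r4, r5⟩ := vz_real v J
  have hRJ : v.R J = J - v.B J - v.P J := rfl
  have fw : (⌊w * (v.R J : ℝ)⌋₊ : ℝ) ≤ w * v.R J := Nat.floor_le (by positivity)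
  have hwR : ⌊w * (v.R J : ℝ)⌋₊ + 2 ≤ J - v.B J - v.P J := by
    rw [← hRJ, ← Nat.cast_le (α := ℝ)]
    push_cast
    have h1 : w * (v.R J : ℝ) ≤ w * v.R J := le_rfl
    have h2 : (1 - w) * ((1 - v.b) * (1 - v.p) * J - 1) ≤ (1 - w) * v.R J :=
      mul_le_mul_of_nonneg_left r4 (by linarith)
    have h3 : v.sc (L' {κ, ι} k w' r') ≤ v.b + v.p * (1 - v.b) + (1 - v.b) * (1 - v.p) := by
      have h4 : v.sc (L' {κ, ι} k w' r') = v.b + v.p * (1 - v.b) +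
        (1 - v.b) * (1 - v.p) * L' {κ, ι} k w' r' := by unfold Vz.sc; ring
      rw [h4]
      have h5 : L' {κ, ι} k w' r' ≤ 1 := hL'.le1 _ _ _ _
      have h6 : (1 - v.b) * (1 - v.p) * L' {κ, ι} k w' r' ≤ (1 - v.b) * (1 - v.p) * 1 :=
        mul_le_mul_of_nonneg_left h5 hcp.le
      linarith
    have h4 : x ≤ (1 - v.b) * (1 - v.p) * (1 - w) := by
      rw [htm0] at hLz
      linarith
    have h5 : x * J ≤ (1 - v.b) * (1 - v.p) * (1 - w) * J := mul_le_mul_of_nonneg_right h4 hJ0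
    have h6 : o * J ≤ x * J := mul_le_mul_of_nonneg_right (by linarith) hJ0
    linarith only [fw, h2, h5, h6, q1, hw0]
  have hWJ : ⌊W * (J : ℝ)⌋₊ ≤ J := by
    refine Nat.floor_le_of_le ?_
    exact mul_le_of_le_one_left hJ0 (by rw [hW]; linarith)
  have hwW : v.B J + (⌊w * (v.R J : ℝ)⌋₊ + 2) ≤ ⌊W * (J : ℝ)⌋₊ := by
    rw [← Nat.cast_le (α := ℝ)]
    push_cast
    have h1 : w * (v.R J : ℝ) ≤ w * ((1 - v.b) * (1 - v.p) * J + 2) :=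
      mul_le_mul_of_nonneg_left r5 hw0.le
    have h2 : W * (J : ℝ) - 1 < ⌊W * (J : ℝ)⌋₊ := Nat.sub_one_lt_floor _
    have h3 : W * (J : ℝ) = v.b * J + (1 - v.b) * (1 - v.p) * w * J + o * J := by
      rw [hW, htm0]
      ring
    linarith only [fw, h1, h2, h3, q1, r2, hw1]
  have hfac := zom_fac F hP (v.y J F) ε k1 (w := ⌊w * (v.R J : ℝ)⌋₊ + 2) (W := ⌊W * (J : ℝ)⌋₊)
    hwR hwW hWJ (fun ω ω' h => Pool.GRW.zmV_of_slam F hP (v.y J F) ε k1 hwR (v.line J F) h)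
  obtain ⟨ga, hga⟩ := hfac (fun y => cf (zs y) 2)
  obtain ⟨gb, hgb⟩ := hfac (fun y => cf (zs y) 3)
  -- the exponents
  have hfl : ∀ z : ℝ, 0 ≤ z → (⌊z * (J : ℝ)⌋₊ : ℝ) ≤ z * J := fun z hz =>
    Nat.floor_le (mul_nonneg hz hJ0)
  have hfl' : ∀ z : ℝ, z * (J : ℝ) - 1 < ⌊z * (J : ℝ)⌋₊ := fun z => Nat.sub_one_lt_floor _
  have hos : o * (J : ℝ) ≤ s * J := mul_le_mul_of_nonneg_right ho1 hJ0
  have hsxJ : 64 * s * (J : ℝ) ≤ x * J := mul_le_mul_of_nonneg_right hsx hJ0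
  have htJ := hfl t ht
  have hUVJ : (t + 2 * x + U) * J ≤ V * J := mul_le_mul_of_nonneg_right hUV hJ0
  have hVqJ : (V - v.tm w) * J ≤ q * J := mul_le_mul_of_nonneg_right hVq hJ0
  have hWe : W * (J : ℝ) = v.tm w * J + o * J := by rw [hW]; ring
  have hU₂J : U₂ * (J : ℝ) ≤ (U + s) * J := mul_le_mul_of_nonneg_right (by linarith) hJ0
  have n1 : ⌊t * (J : ℝ)⌋₊ + ⌊(U₂ - W + s) * (J : ℝ)⌋₊ + 1 ≤ ⌊(V - W - 8 * s) * (J : ℝ)⌋₊ := by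
    rw [← Nat.cast_le (α := ℝ)]
    push_cast
    have a2 := hfl (U₂ - W + s) (by rw [hW]; linarith)
    have a3 := hfl' (V - W - 8 * s)
    linarith only [htJ, a2, a3, hos, hsxJ, hUVJ, hU₂J, q1]
  have n2 : ⌊t * (J : ℝ)⌋₊ + ⌊(U₂ - W + s) * (J : ℝ)⌋₊ + 1 ≤ ⌊(q - x) * (J : ℝ)⌋₊ := by
    rw [← Nat.cast_le (α := ℝ)]
    push_cast
    have a2 := hfl (U₂ - W + s) (by rw [hW]; linarith)
    have a3 := hfl' (q - x)
    linarith only [htJ, a2, a3, hos, hsxJ, hUVJ, hU₂J, hVqJ, hWe, q1]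
  obtain ⟨B₃, d1, d2, d3⟩ := b₃ J (by omega) F B₂ (S.mono (by linarith) (hres B₂ hB₂A (by
      have : 0 ≤ Pe F.p B₂ := Pe_nonneg F.isLaw B₂
      linarith))) au cu M ((hau.sub hB₂A).mono he le_rfl) (hMge _ (by rw [hW]; linarith))
    gb (fun y => ga y - j y) (1 / 2 ^ ⌊t * (J : ℝ)⌋₊)
    (1 / 2 ^ ⌊(V - W - 8 * s) * (J : ℝ)⌋₊ + 1 / 2 ^ ⌊(q - x) * (J : ℝ)⌋₊) (by positivity) (by
      have e1 := two_frac n1
      have e2 := two_frac n2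
      have hpos : (0 : ℝ) < 2 ^ (⌊t * (J : ℝ)⌋₊ + ⌊(U₂ - W + s) * (J : ℝ)⌋₊) := by positivity
      have e3 : (1 : ℝ) / 2 ^ ⌊(V - W - 8 * s) * (J : ℝ)⌋₊ ≤
          1 / 2 ^ (⌊t * (J : ℝ)⌋₊ + ⌊(U₂ - W + s) * (J : ℝ)⌋₊ + 1) := inv_mono n1
      have e4 : (1 : ℝ) / 2 ^ ⌊(q - x) * (J : ℝ)⌋₊ ≤
          1 / 2 ^ (⌊t * (J : ℝ)⌋₊ + ⌊(U₂ - W + s) * (J : ℝ)⌋₊ + 1) := inv_mono n2
      have e5 : (1 : ℝ) / 2 ^ ⌊t * (J : ℝ)⌋₊ =
          (1 / 2 ^ (⌊t * (J : ℝ)⌋₊ + ⌊(U₂ - W + s) * (J : ℝ)⌋₊ + 1) +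
          1 / 2 ^ (⌊t * (J : ℝ)⌋₊ + ⌊(U₂ - W + s) * (J : ℝ)⌋₊ + 1)) *
          2 ^ ⌊(U₂ - W + s) * (J : ℝ)⌋₊ := by
        rw [pow_succ, pow_add]
        field_simp
        norm_num
      rw [e5]
      exact mul_le_mul_of_nonneg_right (add_le_add e3 e4) (by positivity)) (fun ω hω => by
      have h1 := (a3.2 ω (c1 ω hω)).2.1
      have h2 := c3 ω hω
      rw [show cf (zs (slam (zmV F hP (v.y J F) ε) (⌊w * (v.R J : ℝ)⌋₊ + 2) ω)) 2 =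
        ga (slam F ⌊W * (J : ℝ)⌋₊ ω) from hga ω,
        show cf (zs (slam (zmV F hP (v.y J F) ε) (⌊w * (v.R J : ℝ)⌋₊ + 2) ω)) 3 =
        gb (slam F ⌊W * (J : ℝ)⌋₊ ω) from hgb ω] at h1
      show |ga (slam F ⌊W * (J : ℝ)⌋₊ ω) - j (slam F ⌊W * (J : ℝ)⌋₊ ω) +
        gb (slam F ⌊W * (J : ℝ)⌋₊ ω) * au (ptr F J ω)| ≤ _
      have e1 : ga (slam F ⌊W * (J : ℝ)⌋₊ ω) - j (slam F ⌊W * (J : ℝ)⌋₊ ω) +
          gb (slam F ⌊W * (J : ℝ)⌋₊ ω) * au (ptr F J ω) =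
          (ga (slam F ⌊W * (J : ℝ)⌋₊ ω) + gb (slam F ⌊W * (J : ℝ)⌋₊ ω) * au (ptr F J ω) -
            av (ptr F J ω)) - (j (slam F ⌊W * (J : ℝ)⌋₊ ω) - av (ptr F J ω)) := by ring
      rw [e1]
      have e2 := (abs_sub (ga (slam F ⌊W * (J : ℝ)⌋₊ ω) + gb (slam F ⌊W * (J : ℝ)⌋₊ ω) *
        au (ptr F J ω) - av (ptr F J ω)) (j (slam F ⌊W * (J : ℝ)⌋₊ ω) - av (ptr F J ω)))
      linarith only [e2, h1, h2])
  refine ⟨B₃, fun ω hω => hB₂A ω (d1 ω hω), by linarith, V', zp, zs, cf,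
    a3.sub (fun ω hω => c1 ω (d1 ω hω)), fun ω hω => ?_⟩
  have h1 := d3 ω hω
  rw [← hgb ω] at h1
  exact h1

end Pool.MIC6
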