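import Pool.Agent.H6.OWN.Fir

/-!
# Labels over two coordinates are affine, for one family, without a radius

`aff_fmr`: `aff_fmn` with a bound of the slopes at the start of the window in the place of the
bound of the gradients in a ball.
-/

set_option autoImplicit false

namespace Pool.MIC6

open Finset MvPolynomial
open Pool.Agent.H49.Ent Pool.Agent.H32.Dense Pool.STK Pool.KA Pool.KSAT Pool.K2S Pool.PB Pool.GEN
open Pool.FLF (Fam.sub)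
open Pool.GRD (LbP)
open Pool.PB.Trl (rt rt_mem t_rt)

variable {n J : ℕ}

/-- The errors of `aff_fmr`. -/
theorem err_fmr {CP CL X Y SS E0 s₀ h H μ ε α b₀ b a2 : ℝ} {P : ℝ} (hCL : 1 ≤ CL)
    (hb : 1 ≤ b) (hs₀ : 0 ≤ s₀) (hP : 0 ≤ P) (hE : 1 ≤ E0)
    (hα : α = 3 * b ^ 2) (hb₀ : b₀ = b) (ha2 : a2 = b ^ 3) (hH : 0 < H)
    (hh : 0 < h) (hX : 0 ≤ X) (hε : ε = CP * SS / H * (μ / h) + 2 * (P / h) +
      CL * SS * (μ / H) / h) (hY : Y = (3 * CP + CL) * (μ / H)) :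
    X * (E0 * P + CP * SS * (2 * μ / H) + (1 + α) * ((1 + b₀) * s₀) + h * ε) ≤
      X * ((8 + 3 * CL) * (E0 * P + a2 * s₀) + Y * SS) := by
  refine mul_le_mul_of_nonneg_left ?_ hX
  have e1 : h * ε = CP * SS * (μ / H) + 2 * P + CL * SS * (μ / H) := by
    rw [hε]
    field_simp
  have e3 : (1 + α) * ((1 + b₀) * s₀) ≤ 8 * (b ^ 3 * s₀) := by
    rw [hα, hb₀]
    have h1 : (1 : ℝ) ≤ b ^ 2 := one_le_pow₀ hb
    have h2 : (1 + 3 * b ^ 2) * ((1 + b) * s₀) ≤ (4 * b ^ 2) * ((2 * b) * s₀) :=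
      mul_le_mul (by linarith) (mul_le_mul_of_nonneg_right (by linarith) hs₀) (by positivity)
        (by positivity)
    refine h2.trans (le_of_eq ?_)
    ring
  have e5 : P ≤ E0 * P := le_mul_of_one_le_left hP hE
  have e6 : CP * SS * (2 * μ / H) = 2 * (CP * SS * (μ / H)) := by ring
  have e7 : Y * SS = 3 * (CP * SS * (μ / H)) + CL * SS * (μ / H) := by rw [hY]; ring
  have e9 : 0 ≤ CL * (E0 * P) := by positivity
  have e8 : 0 ≤ CL * (b ^ 3 * s₀) := by positivity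
  rw [e1, e6, e7, ha2]
  have e11 : (8 + 3 * CL) * (E0 * P + b ^ 3 * s₀) = 8 * (E0 * P) + 8 * (b ^ 3 * s₀) +
      3 * (CL * (E0 * P)) + 3 * (CL * (b ^ 3 * s₀)) := by ring
  have e10 : 0 ≤ E0 * P := by positivity
  rw [e11]
  linarith

/-- **Labels over two coordinates are affine**, without slopes of the third coordinate, for any
radius. -/
theorem aff_fmr (n K : ℕ) (hK : 1 ≤ K) : ∃ C : ℝ, 1 ≤ C ∧ ∀ {J : ℕ} (F : Fam n J)
    (A : F.Ω → Prop) (hA : 0 < Pe F.p A) {κ ι k : Fin n} {e₁ e r w ρ₀ P : ℕ} {V : Type}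
    {z : PtT F → V} {z' : LnT F → V} {G : V → MvPolynomial (Option (Fin n)) ℝ} {U : Type}
    {Φ : F.Ω → U} {Ju J0 : F.Ω → ℝ} {H μ s ρ s₀ θ : ℝ}, κ ≠ ι →
    LbOK F {κ, ι} k K e₁ r w ρ₀ P A z z' G → e₁ ≤ e → w ≤ J →
    (∀ ω, A ω → ∀ j, |gsl w z' G j (slam F w ω)| ≤ 2 ^ e) → 0 ≤ θ →
    (Fam.sub F A hA).Tm θ → C * (θ + 1) ≤ ((J : ℝ) - w) * Real.log 2 → 0 < ρ → ρ ≤ 1 →
    0 < s₀ → (1 + 2 ^ e) * s₀ ≤ ρ * (1 / 2 ^ w) / 16 → 0 ≤ μ → 2 * μ ≤ H → 0 < s → 0 < H →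
    s₀ * 2 ^ w ≤ μ / H →
    (∀ ω, A ω → |Ju ω - J0 ω| * (1 / 2 ^ w) ≤ H) →
    (∀ ω ω', A ω → A ω' → Φ ω = Φ ω' → ptr F r ω = ptr F r ω' ∧
      (∀ j, |F.x ω' j - F.x ω j| ≤ s₀) ∧
      |F.x ω' ι - F.x ω ι - Ju ω * (F.x ω' κ - F.x ω κ)| ≤ μ ∧
        |F.d ω' ι - F.d ω ι - Ju ω * (F.d ω' κ - F.d ω κ)| ≤ 2 ^ w * μ) →
    (∀ ω, A ω → |Ju ω| ≤ 2 ^ e) →
    (∀ B : F.Ω → Prop, Sub B A → Pe F.p A / 2 ≤ Pe F.p B → ∃ B' : F.Ω → Prop, Sub B' B ∧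
      Pe F.p B / 2 ≤ Pe F.p B' ∧ ∀ ω, B' ω → ∃ ν : Fin (K + 2) → F.Ω,
        (∀ i, B (ν i) ∧ Φ (ν i) = Φ ω) ∧ ∀ i j, i ≠ j → ρ ≤ |F.d (ν i) κ - F.d (ν j) κ|) →
    (∀ B : F.Ω → Prop, Sub B A → Pe F.p A / 4 ≤ Pe F.p B → ∃ B' : F.Ω → Prop, Sub B' B ∧
      Pe F.p B / 2 ≤ Pe F.p B' ∧ ∀ ω, B' ω → ∃ ν : Fin (K + 2) → F.Ω,
        (∀ i, B (ν i) ∧ slam F w (ν i) = slam F w ω ∧ J0 (ν i) = J0 ω) ∧
          ∀ i j, i ≠ j → s ≤ |Ju (ν i) - Ju (ν j)|) →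
    C * ((H / (s * (1 / 2 ^ w))) ^ (K + 1) * (1 / ρ) ^ (K + 1)) * (μ / H) ≤ 1 →
    ∃ B : F.Ω → Prop, Sub B A ∧ Pe F.p A / 8 ≤ Pe F.p B ∧ ∀ ω, B ω →
      ∀ σ ∈ Set.Icc (0 : ℝ) 1, ∀ η ξ : ℝ, |η| ≤ 4 → |ξ| ≤ 4 →
      |psw F κ ι k w z' G (J0 ω) H ω σ η ξ| ≤
        C * ((H / (s * (1 / 2 ^ w))) ^ (K + 1) * (1 / ρ) ^ (K + 1)) *
          (Real.exp (C * (θ + 1)) / 2 ^ P + (2 ^ e) ^ 3 * s₀) := by
  classical
  obtain ⟨CL, hCL, hfth⟩ := fib_tr K hK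
  obtain ⟨CP, hCP, hgps⟩ := grad_psi K hK
  obtain ⟨CT, hCT, htie⟩ := tie_th n K hK
  obtain ⟨CD, hCD, hder⟩ := tie_der n K
  obtain ⟨CA, hCA, haff⟩ := aff_det K (R := 4) (by norm_num)
  obtain ⟨C, hC⟩ : ∃ C, C = 22 * CL * CP * CT * CD * CA := ⟨_, rfl⟩
  have hC1 : CT ≤ C := by
    have h1 : 1 ≤ CL * CP := one_le_mul_of_one_le_of_one_le hCL hCP
    have h2 : 1 ≤ CD * CA := one_le_mul_of_one_le_of_one_le hCD hCA
    have h3 : 1 ≤ (CL * CP) * (CD * CA) := one_le_mul_of_one_le_of_one_le h1 h2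
    have h4 : CT * 1 ≤ CT * (22 * ((CL * CP) * (CD * CA))) :=
      mul_le_mul_of_nonneg_left (by linarith) (by linarith)
    rw [hC]
    calc CT = CT * 1 := (mul_one _).symm
      _ ≤ _ := h4
      _ = _ := by ring
  refine ⟨C, hCT.trans hC1, ?_⟩
  intro J F A hA κ ι k e₁ e r w ρ₀ P V z z' G U Φ Ju J0 H μ s ρ s₀ θ hκι hL he₁ hw hgb hθ hTm hJ
    hρ hρ1 hs₀ hs hμ hμH hs0 hH0 hsμ hJ0 hfib hJu hnod hnod2 hsm
  have hLP := LbP.of hL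
  have pw : (0 : ℝ) < 2 ^ w := by positivity
  have ph : (0 : ℝ) < 1 / 2 ^ w := by positivity
  have pe : (1 : ℝ) ≤ 2 ^ e := one_le_pow₀ (by norm_num)
  have m0 : (0 : ℝ) ∈ Set.Icc (-4 : ℝ) 4 := ⟨by norm_num, by norm_num⟩
  have hs₀w : s₀ ≤ 1 / 2 ^ w := by
    have h1 : s₀ ≤ (1 + 2 ^ e) * s₀ := le_mul_of_one_le_left hs₀.le (by linarith)
    have h2 : ρ * (1 / 2 ^ w) ≤ 1 * (1 / 2 ^ w) := mul_le_mul_of_nonneg_right hρ1 ph.le
    linarith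
  -- the size of the difference
  obtain ⟨SS, hSS⟩ : ∃ SS : F.Ω → ℝ, ∀ ω, (∀ σ ∈ Set.Icc (0 : ℝ) 1, ∀ η ∈ Set.Icc (-4 : ℝ) 4,
      ∀ ξ ∈ Set.Icc (-4 : ℝ) 4, |psw F κ ι k w z' G (J0 ω) H ω σ η ξ| ≤ SS ω) ∧
      ∃ σ ∈ Set.Icc (0 : ℝ) 1, ∃ η ∈ Set.Icc (-4 : ℝ) 4, ∃ ξ ∈ Set.Icc (-4 : ℝ) 4,
      |psw F κ ι k w z' G (J0 ω) H ω σ η ξ| = SS ω :=
    ⟨fun ω => (psi_sup _ (psw_cont F κ ι k w z' G (J0 ω) H ω)).choose, fun ω =>
      (psi_sup _ (psw_cont F κ ι k w z' G (J0 ω) H ω)).choose_spec⟩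
  have hSS0 : ∀ ω, 0 ≤ SS ω := fun ω => (abs_nonneg _).trans
    ((hSS ω).1 0 ⟨le_rfl, zero_le_one⟩ 0 m0 0 m0)
  have hSSe : ∀ ω ω', slam F w ω = slam F w ω' → J0 ω = J0 ω' → SS ω ≤ SS ω' := by
    intro ω ω' h h'
    obtain ⟨σ, hσ, η, hη, ξ, hξ, he⟩ := (hSS ω).2
    rw [← he, psw_slam h, h']
    exact (hSS ω').1 σ hσ η hη ξ hξ
  obtain ⟨th, hth⟩ : ∃ th : F.Ω → ℝ, th = fun ω => gsl w z' G ι (slam F w ω) := ⟨_, rfl⟩
  have hgd : ∀ ω, A ω → ∀ o, |gdp F w z' G o ω| ≤ 2 ^ e := by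
    intro ω hω o
    refine (hL.lip ω hω _ (fun o => ?_) o).trans (pow_le_pow_right₀ (by norm_num) he₁)
    rw [sub_self, abs_zero]
    positivity
  obtain ⟨a, ha⟩ : ∃ a : F.Ω → ℝ, a = fun ω => gdp F w z' G (some κ) ω +
      Ju ω * (gdp F w z' G (some ι) ω - th ω) := ⟨_, rfl⟩
  obtain ⟨sl, hsl⟩ : ∃ sl : F.Ω → Fin n → ℝ, sl = fun ω j => if j = κ then 1 else Ju ω :=
    ⟨_, rfl⟩
  have hslκ : ∀ ω, sl ω κ = 1 := fun ω => by rw [hsl]; exact if_pos rfl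
  have hslι : ∀ ω, sl ω ι = Ju ω := fun ω => by rw [hsl]; exact if_neg (Ne.symm hκι)
  obtain ⟨err, herr⟩ : ∃ err : F.Ω → ℝ, err = fun ω => CP * SS ω / H * (2 ^ w * μ) +
      2 * (2 ^ w / 2 ^ P) + CL * SS ω * (μ / H) * 2 ^ w := ⟨_, rfl⟩
  obtain ⟨E0, hE0⟩ : ∃ E0, E0 = Real.exp (CT * (θ + 1)) := ⟨_, rfl⟩
  have hE01 : 1 ≤ E0 := by
    rw [hE0]
    exact Real.one_le_exp (by positivity)
  obtain ⟨X, hX⟩ : ∃ X, X = CT * (1 / ρ) ^ (K + 1) := ⟨_, rfl⟩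
  have hX0 : 0 ≤ X := by rw [hX]; positivity
  obtain ⟨Y, hY⟩ : ∃ Y, Y = (3 * CP + CL) * (μ / H) := ⟨_, rfl⟩
  obtain ⟨B, hBA, hPB, hB⟩ := htie F A hA (I := {κ, ι}) (κ := κ) (ι := ι) (k := k) (Φ := Φ)
    (a := a) (th := th) (M₂ := fun ω => CP * SS ω * (2 * μ / H)) (err := err) (sl := sl)
    (α := 3 * (2 ^ e) ^ 2) (ρ := ρ) (s₀ := s₀) (b₀ := 2 ^ e) (θ := θ)
    (Finset.mem_insert_of_mem (Finset.mem_singleton_self _)) hLP hw hθ hTm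
    ((mul_le_mul_of_nonneg_right hC1 (by linarith)).trans hJ) hρ hρ1 hs₀.le hs
    (fun ω hω => by rw [hth]; exact hgb ω hω ι) (fun ω hω => by
      have := hSS0 ω
      positivity) (fun ω ω' hω hω' h => by
      obtain ⟨a1, a2, a3, a4⟩ := hfib ω ω' hω hω' h
      refine ⟨a1, a2 κ, a2 k, a2 ι, ?_⟩
      have h1 := hfth hκι hL hw hH0 (c := J0 ω) (H := H) (S := SS ω) (th := th ω) (ju := Ju ω)
        (μ := μ) (s₀ := s₀) (hSS ω).1 hω hω' a1 hs₀.le hs₀w (a2 κ) a3 a4 hμH (hJ0 ω hω) hsμ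
      have h2 := (hgps (F := F) (κ := κ) (ι := ι) (k := k) (z' := z') (G := G) (c := J0 ω)
        (H := H) (S := SS ω) (ω := ω) hκι hLP hw hH0 (hSS ω).1).1
      rw [ha, herr]
      refine h1.trans ?_
      have h3 : |gdp F w z' G (some ι) ω - th ω| * (2 ^ w * μ) ≤
          CP * SS ω / H * (2 ^ w * μ) := by
        rw [hth]
        exact mul_le_mul_of_nonneg_right h2 (by positivity)
      linarith) (fun ω ω' hω hω' h σ hσ b hbn hb => by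
      obtain ⟨a1, a2, a3, a4⟩ := hfib ω ω' hω hω' h
      rw [hth]
      exact mv_psi hκι hLP hw hH0 (hgps (F := F) (κ := κ) (ι := ι) (k := k) (z' := z') (G := G)
        (c := J0 ω) (H := H) (S := SS ω) (ω := ω) hκι hLP hw hH0 (hSS ω).1).2
        (mul_nonneg (by linarith) (hSS0 ω)) a1 hs₀w (a2 κ) a3 a4 hμH (hJ0 ω hω) hσ (sl ω)
        (hslκ ω) (hslι ω) b hbn hb) (fun ω hω => by
      rw [ha]
      refine (abs_add_le _ _).trans ?_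
      rw [abs_mul]
      have h1 : |gdp F w z' G (some ι) ω - th ω| ≤ 2 * 2 ^ e := by
        rw [hth, two_mul]
        exact (abs_sub _ _).trans (add_le_add (hgd ω hω _) (hgb ω hω ι))
      have h2 : |Ju ω| * |gdp F w z' G (some ι) ω - th ω| ≤ 2 ^ e * (2 * 2 ^ e) :=
        mul_le_mul (hJu ω hω) h1 (abs_nonneg _) (by positivity)
      have h3 := hgd ω hω (some κ)
      have h4 : (2 : ℝ) ^ e ≤ (2 ^ e) ^ 2 := by
        rw [sq]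
        exact le_mul_of_one_le_left (by positivity) pe
      have h5 : (2 : ℝ) ^ e * (2 * 2 ^ e) = 2 * (2 ^ e) ^ 2 := by ring
      linarith) hnod
  -- the bound along the direction
  obtain ⟨S₁, hS₁⟩ : ∃ S₁ : F.Ω → ℝ, S₁ = fun ω => X * ((8 + 3 * CL) * (E0 * (1 / 2 ^ P) +
      (2 ^ e) ^ 3 * s₀) + Y * SS ω) := ⟨_, rfl⟩
  have hS₁0 : ∀ ω, 0 ≤ S₁ ω := by
    intro ω
    have := hSS0 ω
    rw [hS₁, hY]
    positivity
  have hdir : ∀ ω, B ω → ∀ σ ∈ Set.Icc (0 : ℝ) 1, ∀ η : ℝ, |η| ≤ 1 →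
      |eval (mvp (F.u ω) (F.d ω) (sl ω) (wt F w ω σ) (1 / 2 ^ w * η)) (G (z' (slam F w ω))) -
        (wp F w ω σ k + (a ω + th ω * sl ω ι) * (1 / 2 ^ w * η))| ≤ S₁ ω := by
    intro ω hω σ hσ η hη
    refine (hB ω hω σ hσ η hη).trans ?_
    rw [← hE0, ← hX, hS₁, ← mul_one_div E0]
    refine err_fmr (CP := CP) (μ := μ) (H := H) (b := 2 ^ e) (h := 1 / 2 ^ w)
      hCL pe hs₀.le (by positivity) hE01 rfl rfl rfl hH0 ph hX0 ?_ hY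
    rw [herr]
    field_simp
  obtain ⟨B', hB'B, hPB', hB'⟩ := hnod2 B hBA hPB
  refine ⟨B', fun ω hω => hBA ω (hB'B ω hω), by linarith, fun ω hω => ?_⟩
  have hωB := hB'B ω hω
  have hωA := hBA ω hωB
  obtain ⟨ν, hν, hsep⟩ := hB' ω hω
  obtain ⟨Z, hZ⟩ : ∃ Z, Z = CA * CD * (H / (s * (1 / 2 ^ w))) ^ (K + 1) := ⟨_, rfl⟩
  have hZ0 : 0 ≤ Z := by rw [hZ]; positivity
  have hrel : ∀ ω', B ω' → |gsl w z' G κ (slam F w ω') + gsl w z' G ι (slam F w ω') * Ju ω' -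
      (a ω' + th ω' * sl ω' ι)| ≤ CD * S₁ ω' / (1 / 2 ^ w) := by
    intro ω' hω'
    have h1 := hder (I := {κ, ι}) (G := G (z' (slam F w ω'))) (F.u ω') (F.d ω') (sl ω')
      (t := wt F w ω' 0) (v := wp F w ω' 0 k) (a := a ω' + th ω' * sl ω' ι) (h := 1 / 2 ^ w)
      (S := S₁ ω') (hL.deg _) (hL.dep _) ph (hdir ω' hω' 0 ⟨le_rfl, zero_le_one⟩)
    rw [mvp_zero, Finset.sum_pair hκι, hslκ, one_mul] at h1
    unfold gsl
    rw [gpt_eq F hw]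
    refine le_trans (le_of_eq ?_) h1
    congr 2
    rw [hslι, mul_comm (Ju ω')]
  have hGdep : ∀ (b b' : Option (Fin n) → ℝ), b none = b' none → b (some κ) = b' (some κ) →
      b (some ι) = b' (some ι) → eval b (G (z' (slam F w ω))) =
        eval b' (G (z' (slam F w ω))) := by
    intro b b' h1 h2 h3
    refine hL.dep _ b b' h1 fun i hi => ?_
    rcases Finset.mem_insert.1 hi with h | h
    · rw [h]
      exact h2
    · rw [Finset.mem_singleton.1 h]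
      exact h3
  have hbι : ∀ t y x : ℝ, bpt κ ι t y x (some ι) = x := by
    intro t y x
    show (if ι = κ then y else if ι = ι then x else 0) = x
    rw [if_neg (Ne.symm hκι), if_pos rfl]
  have hbκ : ∀ t y x : ℝ, bpt κ ι t y x (some κ) = y := fun t y x => if_pos rfl
  have hSν : ∀ i, S₁ (ν i) ≤ S₁ ω := by
    intro i
    have h1 := hSSe (ν i) ω (hν i).2.1 (hν i).2.2
    have hY0 : 0 ≤ Y := by rw [hY]; positivity
    rw [hS₁]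
    refine mul_le_mul_of_nonneg_left ?_ hX0
    have := mul_le_mul_of_nonneg_left h1 hY0
    show _ + Y * SS (ν i) ≤ _ + Y * SS ω
    linarith
  have hbox : ∀ σ ∈ Set.Icc (0 : ℝ) 1, ∀ η ξ : ℝ, |η| ≤ 4 → |ξ| ≤ 4 →
      |psw F κ ι k w z' G (J0 ω) H ω σ η ξ| ≤ Z * S₁ ω := by
    intro σ hσ η ξ hη hξ
    have h1 := haff (G := G (z' (slam F w ω))) κ ι (t := wt F w ω σ) (y := wp F w ω σ κ)
      (x := wp F w ω σ ι) (v := wp F w ω σ k) (a := gsl w z' G κ (slam F w ω))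
      (b := gsl w z' G ι (slam F w ω)) (c := J0 ω) (h := 1 / 2 ^ w) (H := H) (s := s)
      (S := CD * S₁ ω)
      (Js := fun i => Ju (ν i)) (al := fun i => a (ν i) + th (ν i) * sl (ν i) ι) (hL.deg _) ph
      hH0 hs0 (fun i => by
        show |Ju (ν i) - J0 ω| * (1 / 2 ^ w) ≤ H
        have h2 := hJ0 (ν i) (hBA _ (hν i).1)
        rwa [(hν i).2.2] at h2) hsep (fun i η' hη' => by
        have h2 := (hdir (ν i) (hν i).1 σ hσ η' hη').trans (hSν i)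
        obtain ⟨hu, hd⟩ := ud_slam (hν i).2.1
        rw [hu, hd, wt_slam (hν i).2.1, wp_slam (hν i).2.1, (hν i).2.1] at h2
        refine le_trans (le_of_eq ?_) (h2.trans (le_mul_of_one_le_left (hS₁0 ω) hCD))
        congr 2
        refine hGdep _ _ rfl ?_ ?_
        · rw [hbκ]
          show wp F w ω σ κ + 1 / 2 ^ w * η' = F.u ω κ + F.d ω κ * wt F w ω σ +
            sl (ν i) κ * (1 / 2 ^ w * η')
          rw [hslκ, one_mul]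
          rfl
        · rw [hbι]
          show wp F w ω σ ι + Ju (ν i) * (1 / 2 ^ w * η') = F.u ω ι + F.d ω ι * wt F w ω σ +
            sl (ν i) ι * (1 / 2 ^ w * η')
          rw [hslι]
          rfl) (fun i => by
        have h2 := hrel (ν i) (hν i).1
        rw [(hν i).2.1] at h2
        have h3 := mul_le_mul_of_nonneg_right h2 ph.le
        refine h3.trans ?_
        rw [div_mul_cancel₀ _ ph.ne']
        exact mul_le_mul_of_nonneg_left (hSν i) (by linarith)) η ξ hη hξ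
    have e1 : Z * S₁ ω = CA * (H / (s * (1 / 2 ^ w))) ^ (K + 1) * (CD * S₁ ω) := by
      rw [hZ]
      ring
    rw [e1]
    exact h1
  -- the size
  have hZXY : Z * X * Y ≤ 1 / 2 := by
    obtain ⟨Λ, hΛ⟩ : ∃ Λ, Λ = (H / (s * (1 / 2 ^ w))) ^ (K + 1) * (1 / ρ) ^ (K + 1) := ⟨_, rfl⟩
    have hΛ0 : 0 ≤ Λ := by rw [hΛ]; positivity
    rw [← hΛ] at hsm
    have e1 : Z * X * Y = (3 * CP + CL) * ((CT * CD * CA) * Λ * (μ / H)) := by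
      rw [hZ, hX, hY, hΛ]
      ring
    rw [e1]
    have e2 : C * Λ * (μ / H) = 22 * (CL * CP) * ((CT * CD * CA) * Λ * (μ / H)) := by
      rw [hC]
      ring
    rw [e2] at hsm
    have e3 : 0 ≤ (CT * CD * CA) * Λ * (μ / H) := by positivity
    have e5 : 3 * CP + CL ≤ 4 * (CL * CP) := by
      have h1 : 1 * CP ≤ CL * CP := mul_le_mul_of_nonneg_right hCL (by linarith)
      have h2 : CL * 1 ≤ CL * CP := mul_le_mul_of_nonneg_left hCP (by linarith)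
      linarith
    have e4 : (3 * CP + CL) * ((CT * CD * CA) * Λ * (μ / H)) ≤
        4 * (CL * CP) * ((CT * CD * CA) * Λ * (μ / H)) := mul_le_mul_of_nonneg_right e5 e3
    linarith
  have hfin : SS ω ≤ 2 * (Z * X * ((8 + 3 * CL) * (E0 * (1 / 2 ^ P) + (2 ^ e) ^ 3 * s₀))) := by
    refine sup_le ?_ hZXY (hSS0 ω)
    obtain ⟨σ, hσ, η, hη, ξ, hξ, he⟩ := (hSS ω).2
    rw [← he]
    have h1 := hbox σ hσ η ξ (abs_le.2 ⟨hη.1, hη.2⟩) (abs_le.2 ⟨hξ.1, hξ.2⟩)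
    rw [he]
    rw [he] at h1
    rw [hS₁] at h1
    exact h1
  intro σ hσ η ξ hη hξ
  refine ((hSS ω).1 σ hσ η (abs_le.1 hη) ξ (abs_le.1 hξ)).trans (hfin.trans ?_)
  have e1 : 2 * (Z * X * ((8 + 3 * CL) * (E0 * (1 / 2 ^ P) + (2 ^ e) ^ 3 * s₀))) =
      (CA * CD * CT * (2 * (8 + 3 * CL))) *
      ((H / (s * (1 / 2 ^ w))) ^ (K + 1) * (1 / ρ) ^ (K + 1)) *
      (E0 / 2 ^ P + (2 ^ e) ^ 3 * s₀) := by
    rw [hZ, hX]
    ring
  rw [e1]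
  have e2 : CA * CD * CT * (2 * (8 + 3 * CL)) ≤ C := by
    have h1 : 2 * (8 + 3 * CL) ≤ 22 * CL := by linarith
    have h2 : 22 * CL ≤ 22 * CL * CP := le_mul_of_one_le_right (by linarith) hCP
    have h3 : CA * CD * CT * (2 * (8 + 3 * CL)) ≤ CA * CD * CT * (22 * CL * CP) :=
      mul_le_mul_of_nonneg_left (h1.trans h2) (by positivity)
    refine h3.trans (le_of_eq ?_)
    rw [hC]
    ring
  have e3 : E0 / 2 ^ P ≤ Real.exp (C * (θ + 1)) / 2 ^ P := by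
    rw [hE0]
    exact div_le_div_of_nonneg_right (Real.exp_le_exp.2
      (mul_le_mul_of_nonneg_right hC1 (by linarith))) (by positivity)
  refine mul_le_mul ?_ (by linarith) (by positivity) ?_
  · exact mul_le_mul_of_nonneg_right e2 (by positivity)
  · have : 0 ≤ C := by linarith
    positivity

end Pool.MIC6
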