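import Pool.Agent.H6.OWN.AflC
import Pool.Agent.H6.OWN.Bfl

/-!
# Affine labels over one coordinate in a family

`one_core`: if the labels of `ι` over `κ` are affine on the boxes of the window, then `ι` has an
affine label with closed coefficients. `aff_one`: this is so if the slope of `ι` over `κ` at the
exact points is known.
-/

set_option autoImplicit false

namespace Pool.MIC6

open Finset MvPolynomial
open Pool.Agent.H49.Ent Pool.Agent.H32.Dense Pool.STK Pool.KA Pool.KSAT Pool.K2S Pool.PB Pool.GEN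
open Pool.FLF (Fam.sub)
open Pool.GRD (LbP)
open Pool.PB.Trl (rt rt_mem t_rt)

variable {n m J : ℕ}

/-- The affine closed labels of `ι` over `κ`, with their codes. -/
def AfO (F : Fam m J) (κ ι : Fin m) (w Q e : ℕ) (A : F.Ω → Prop) {V : Type} (zp : PtT F → V)
    (zs : LnT F → V) (cf : V → Fin 4 → ℝ) : Prop :=
  LbP F {κ} ι 1 J w Q A zp zs (fun x => afq κ κ (cf x 0) (cf x 1) (cf x 2) (cf x 3)) ∧
    (∀ x, cf x 3 = 0) ∧ ∀ ω, A ω → |cf (zs (slam F w ω)) 2| ≤ 2 ^ e ∧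
      ∀ σ ∈ Set.Icc (0 : ℝ) 1, |wp F w ω σ ι - eval (wpt F w ω σ) (afq κ κ
        (cf (zs (slam F w ω)) 0) (cf (zs (slam F w ω)) 1) (cf (zs (slam F w ω)) 2)
        (cf (zs (slam F w ω)) 3))| ≤ 1 / 2 ^ Q

/-- **The affine label from the affine approximations**, over one coordinate. -/
theorem one_core {F : Fam n J} {A : F.Ω → Prop} {κ ι : Fin n} {K w P Q e : ℕ} {V : Type}
    {z : PtT F → V} {z' : LnT F → V} {G : V → MvPolynomial (Option (Fin n)) ℝ}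
    {Ju : F.Ω → ℝ} {T₂ : ℝ} (hL : LbP F {κ} ι K J w P A z z' G) (hwJ : w + 2 ≤ J)
    (b13 : ∀ ω, A ω → ∀ σ ∈ Set.Icc (0 : ℝ) 1, ∀ η : ℝ, |η| ≤ 1 →
      ∀ b : Option (Fin n) → ℝ, b none = wt F w ω σ →
      b (some κ) = wp F w ω σ κ + 1 / 2 ^ w * η →
      |eval b (G (z' (slam F w ω))) - (wp F w ω σ ι + Ju ω * (1 / 2 ^ w * η))| ≤ T₂)
    (hα : ∀ ω, A ω → |Ju ω| ≤ 2 ^ e) (hQ : 2 * T₂ ≤ 1 / 2 ^ Q) :
    ∃ B : F.Ω → Prop, Sub B A ∧ Pe F.p A ≤ 5 * Pe F.p B ∧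
      ∃ (V' : Type) (zp : PtT F → V') (zs : LnT F → V') (cf : V' → Fin 4 → ℝ),
        AfO F κ ι (w + 2) Q e B zp zs cf := by
  classical
  have pw : (0 : ℝ) < 1 / 2 ^ w := by positivity
  have hwr : w + 2 ≤ J := hwJ
  -- the cell of the coordinate `κ`
  obtain ⟨φ₀, hφ₀⟩ := ptr_coarse F hwr
  obtain ⟨B₃, b31, b32, φ₁, b33⟩ := Pool.S6K.exact_label F.isLaw 2 (slam F (w + 2))
    (fun ω (_ : Fin 1) => (φ₀ (ptr F J ω)).1 κ) A (fun ω ω' hω hω' h i => by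
      have e1 : ∀ ω, (φ₀ (ptr F J ω)).1 κ = ⌊(2 : ℝ) ^ (w + 2) * F.x ω κ⌋ := fun ω => by
        rw [← hφ₀]
        rfl
      rw [e1, e1]
      refine floor_diff ?_
      have k1 := wp_slam h (rt F (w + 2) ω) κ
      rw [wp_eq F hwJ, wp_eq F hwJ, sub_self, mul_zero, zero_mul, add_zero] at k1
      have r1 := rt_mem F (w + 2) ω
      have r2 := rt_mem F (w + 2) ω'
      rw [← mul_sub, abs_mul, abs_of_pos (by positivity : (0 : ℝ) < 2 ^ (w + 2)), k1]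
      have k2 : F.x ω' κ + 1 / 2 ^ (w + 2) * (rt F (w + 2) ω - rt F (w + 2) ω') * F.d ω' κ -
          F.x ω' κ = 1 / 2 ^ (w + 2) * ((rt F (w + 2) ω - rt F (w + 2) ω') * F.d ω' κ) := by ring
      rw [k2, abs_mul, abs_of_pos (by positivity : (0 : ℝ) < 1 / 2 ^ (w + 2)), ← mul_assoc,
        mul_one_div_cancel (by positivity : (2 : ℝ) ^ (w + 2) ≠ 0), one_mul, abs_mul]
      have k3 : |rt F (w + 2) ω - rt F (w + 2) ω'| ≤ 1 := by
        rw [abs_le]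
        constructor <;> linarith [r1.1, r1.2, r2.1, r2.2]
      have k4 := mul_le_mul k3 (F.dir ω' κ) (abs_nonneg _) zero_le_one
      push_cast
      linarith)
  -- the closed datum
  obtain ⟨zp, hzp⟩ : ∃ zp : PtT F → V × ℤ × ℕ, zp = fun p =>
    (z p, (φ₀ p).1 κ, p.2.1 / 2 ^ (J - (w + 2))) := ⟨_, rfl⟩
  obtain ⟨dn, hdn⟩ : ∃ dn : LnT F → LnT F, dn = fun s => (s.1, s.2.1, s.2.2 / 2 ^ (w + 2 - w)) :=
    ⟨_, rfl⟩
  have hdn' : ∀ ω, dn (slam F (w + 2) ω) = slam F w ω := fun ω => by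
    rw [hdn]
    exact (slam_coarse F (by omega) hwJ ω).symm
  obtain ⟨zs, hzs⟩ : ∃ zs : LnT F → V × ℤ × ℕ, zs = fun s =>
    (z' (dn s), φ₁ s 0, s.2.2) := ⟨_, rfl⟩
  have hcls : ∀ ω, B₃ ω → zp (ptr F J ω) = zs (slam F (w + 2) ω) := by
    intro ω hω
    have hωA := b31 ω hω
    rw [hzp, hzs]
    show (z (ptr F J ω), (φ₀ (ptr F J ω)).1 κ, F.T ω / 2 ^ (J - (w + 2))) =
      (z' (dn (slam F (w + 2) ω)), φ₁ (slam F (w + 2) ω) 0, F.T ω / 2 ^ (J - (w + 2)))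
    rw [hdn', hL.cls ω hωA]
    have := congrFun (b33 ω hω) 0
    rw [← this]
  -- the coefficients
  obtain ⟨ce, hce⟩ : ∃ ce : F.Ω → Fin 4 → ℝ, ce = fun ω =>
      ![F.u ω ι - Ju ω * F.u ω κ, F.d ω ι - Ju ω * F.d ω κ, Ju ω, 0] := ⟨_, rfl⟩
  obtain ⟨cf, hcf⟩ : ∃ cf : V × ℤ × ℕ → Fin 4 → ℝ, cf = fun x =>
      if h : ∃ ω, B₃ ω ∧ zp (ptr F J ω) = x then ce h.choose else 0 := ⟨_, rfl⟩
  have hcf3 : ∀ x, cf x 3 = 0 := by
    intro x
    rw [hcf]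
    show (if h : ∃ ω, B₃ ω ∧ zp (ptr F J ω) = x then ce h.choose else 0) 3 = 0
    split_ifs with hx
    · rw [hce]
      rfl
    · rfl
  have hβ : ∀ ω, B₃ ω → |cf (zs (slam F (w + 2) ω)) 2| ≤ 2 ^ e := by
    intro ω hω
    have hex : ∃ ω₀, B₃ ω₀ ∧ zp (ptr F J ω₀) = zp (ptr F J ω) := ⟨ω, hω, rfl⟩
    have hω₀A := b31 _ hex.choose_spec.1
    rw [← hcls ω hω, hcf]
    show |(if h : ∃ ω', B₃ ω' ∧ zp (ptr F J ω') = zp (ptr F J ω) then ce h.choose else 0) 2| ≤ _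
    rw [dif_pos hex, hce]
    exact hα _ hω₀A
  have hall : ∀ ω, B₃ ω → ∀ σ ∈ Set.Icc (0 : ℝ) 1,
      |wp F (w + 2) ω σ ι - eval (wpt F (w + 2) ω σ) (afq κ κ (cf (zs (slam F (w + 2) ω)) 0)
        (cf (zs (slam F (w + 2) ω)) 1) (cf (zs (slam F (w + 2) ω)) 2)
        (cf (zs (slam F (w + 2) ω)) 3))| ≤ 1 / 2 ^ Q := by
    intro ω hω σ₂ hσ₂
    have hex : ∃ ω₀, B₃ ω₀ ∧ zp (ptr F J ω₀) = zp (ptr F J ω) := ⟨ω, hω, rfl⟩
    obtain ⟨ω₀, hω₀⟩ : ∃ ω₀, ω₀ = hex.choose := ⟨_, rfl⟩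
    have hsp := hex.choose_spec
    rw [← hω₀] at hsp
    obtain ⟨hB₀, hkey⟩ := hsp
    have hcf' : cf (zs (slam F (w + 2) ω)) = ce ω₀ := by
      rw [← hcls ω hω, hcf]
      show (if h : ∃ ω', B₃ ω' ∧ zp (ptr F J ω') = zp (ptr F J ω) then ce h.choose else 0) = _
      rw [dif_pos hex, hω₀]
    have hωA := b31 ω hω
    have hω₀A := b31 ω₀ hB₀
    rw [hzp] at hkey
    have k1 := Prod.ext_iff.mp hkey
    have k3 := Prod.ext_iff.mp k1.2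
    have kz : z (ptr F J ω₀) = z (ptr F J ω) := k1.1
    have kc : (φ₀ (ptr F J ω₀)).1 κ = (φ₀ (ptr F J ω)).1 κ := k3.1
    have kT : F.T ω₀ / 2 ^ (J - (w + 2)) = F.T ω / 2 ^ (J - (w + 2)) := k3.2
    have hzz : z' (slam F w ω₀) = z' (slam F w ω) := by
      rw [← hL.cls ω hωA, ← hL.cls ω₀ hω₀A, kz]
    have hT2 : ∀ ω : F.Ω, F.T ω / 2 ^ (J - w) = F.T ω / 2 ^ (J - (w + 2)) / 2 ^ 2 := by
      intro ω
      rw [Nat.div_div_eq_div_mul, ← pow_add]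
      congr 2
      omega
    -- the times
    obtain ⟨N, hN⟩ : ∃ N : ℕ, N = F.T ω / 2 ^ (J - (w + 2)) := ⟨_, rfl⟩
    have hs1 : (slam F w ω).2.2 = N / 2 ^ 2 := by
      rw [hN]
      exact hT2 ω
    have hs2 : (slam F w ω₀).2.2 = N / 2 ^ 2 := by
      rw [hN, ← kT]
      exact hT2 ω₀
    have hs3 : (slam F (w + 2) ω).2.2 = N := hN.symm
    have hs4 : (slam F (w + 2) ω₀).2.2 = N := by
      rw [hN]
      exact kT
    obtain ⟨σ, hσ⟩ : ∃ σ : ℝ, σ = ((N : ℝ) - 4 * (N / 2 ^ 2 : ℕ) + σ₂) / 4 := ⟨_, rfl⟩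
    have hσm : σ ∈ Set.Icc (0 : ℝ) 1 := by
      have m1 : 4 * (N / 2 ^ 2) ≤ N := by omega
      have m2 : N ≤ 4 * (N / 2 ^ 2) + 3 := by omega
      have m1' : (4 : ℝ) * (N / 2 ^ 2 : ℕ) ≤ N := by exact_mod_cast m1
      have m2' : (N : ℝ) ≤ 4 * (N / 2 ^ 2 : ℕ) + 3 := by exact_mod_cast m2
      rw [hσ]
      constructor <;> linarith [hσ₂.1, hσ₂.2]
    obtain ⟨t, htd⟩ : ∃ t, t = wt F (w + 2) ω σ₂ := ⟨_, rfl⟩
    have hpw2 : (2 : ℝ) ^ (w + 2) = 4 * 2 ^ w := by rw [pow_add]; ring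
    have htv : t = ((N : ℝ) + σ₂) / 2 ^ (w + 2) := by
      rw [htd]
      unfold wt
      rw [hs3]
      ring
    have htw : ∀ ω', (slam F w ω').2.2 = N / 2 ^ 2 → wt F w ω' σ = t := by
      intro ω' h'
      rw [htv, hσ]
      unfold wt
      rw [h', hpw2]
      field_simp
      ring
    have ht : wt F w ω₀ σ = t := htw ω₀ hs2
    have ht' : wt F w ω σ = t := htw ω hs1
    have htt : ∀ ω', (slam F (w + 2) ω').2.2 = N → |t - F.t ω'| ≤ 1 / 2 ^ (w + 2) := by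
      intro ω' h'
      have e2 := t_rt F hwJ ω'
      rw [e2, h', htv]
      have r2 := rt_mem F (w + 2) ω'
      have e4 : ((N : ℝ) + σ₂) / 2 ^ (w + 2) - ((N : ℝ) + rt F (w + 2) ω') / 2 ^ (w + 2) =
          (σ₂ - rt F (w + 2) ω') / 2 ^ (w + 2) := by ring
      rw [e4, abs_div, abs_of_pos (by positivity : (0 : ℝ) < 2 ^ (w + 2))]
      refine div_le_div_of_nonneg_right ?_ (by positivity)
      rw [abs_le]
      constructor <;> linarith [r2.1, r2.2, hσ₂.1, hσ₂.2]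
    have hwp : ∀ ω' j, wt F w ω' σ = t → wp F w ω' σ j = F.x ω' j + (t - F.t ω') * F.d ω' j := by
      intro ω' j h'
      unfold wp
      rw [h']
      show F.u ω' j + F.d ω' j * t = (F.u ω' j + F.t ω' * F.d ω' j) + _
      ring
    have hwp2 : ∀ j, wp F (w + 2) ω σ₂ j = wp F w ω σ j := by
      intro j
      unfold wp
      rw [ht', htd]
    obtain ⟨bb, hbb⟩ : ∃ bb, bb = wpt F (w + 2) ω σ₂ := ⟨_, rfl⟩
    have hbn : bb none = t := by rw [hbb, htd]; rfl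
    have hbs : ∀ j, bb (some j) = wp F w ω σ j := fun j => by rw [hbb, ← hwp2]; rfl
    -- the coordinate `κ`
    have hy : |wp F w ω σ κ - wp F w ω₀ σ κ| ≤ 1 / 2 ^ w := by
      have e1 : ∀ ω, (φ₀ (ptr F J ω)).1 κ = ⌊(2 : ℝ) ^ (w + 2) * F.x ω κ⌋ := fun ω => by
        rw [← hφ₀]
        rfl
      rw [e1, e1] at kc
      have e2 := fl_eq_near' kc
      rw [hwp ω κ ht', hwp ω₀ κ ht]
      have e3 : ∀ ω', (slam F (w + 2) ω').2.2 = N → |(t - F.t ω') * F.d ω' κ| ≤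
          1 / 2 ^ (w + 2) := by
        intro ω' h'
        rw [abs_mul]
        have := mul_le_mul (htt ω' h') (F.dir ω' κ) (abs_nonneg _) (by positivity)
        linarith
      have e4 : F.x ω κ + (t - F.t ω) * F.d ω κ - (F.x ω₀ κ + (t - F.t ω₀) * F.d ω₀ κ) =
          -(F.x ω₀ κ - F.x ω κ) + ((t - F.t ω) * F.d ω κ - (t - F.t ω₀) * F.d ω₀ κ) := by ring
      rw [e4]
      refine (abs_add_le _ _).trans ((add_le_add le_rfl (abs_sub _ _)).trans ?_)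
      rw [abs_neg]
      have e5 : (1 : ℝ) / 2 ^ (w + 2) = 1 / 2 ^ w / 4 := by
        rw [pow_add]
        field_simp
        norm_num
      have e6 := e3 ω hs3
      have e7 := e3 ω₀ hs4
      rw [e5] at e2 e6 e7
      linarith
    obtain ⟨η, hη⟩ : ∃ η, η = (wp F w ω σ κ - wp F w ω₀ σ κ) / (1 / 2 ^ w) := ⟨_, rfl⟩
    have hηm : 1 / 2 ^ w * η = wp F w ω σ κ - wp F w ω₀ σ κ := by
      rw [hη]
      field_simp
    have hη1 : |η| ≤ 1 := by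
      rw [hη, abs_div, abs_of_pos pw, div_le_one pw]
      exact hy
    have e1 := b13 ω₀ hω₀A σ hσm η hη1 bb (by rw [hbn, ht]) (by
      rw [hbs, hηm]
      ring)
    have e2 := b13 ω hωA σ hσm 0 (by rw [abs_zero]; exact zero_le_one) bb (by rw [hbn, ht'])
      (by
      rw [hbs]
      ring)
    rw [hzz, hηm] at e1
    rw [mul_zero, mul_zero, add_zero, abs_sub_comm] at e2
    rw [hcf', ← hbb, eval_afq, hwp2]
    have c0 : ce ω₀ 0 = F.u ω₀ ι - Ju ω₀ * F.u ω₀ κ := by rw [hce]; rfl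
    have c1 : ce ω₀ 1 = F.d ω₀ ι - Ju ω₀ * F.d ω₀ κ := by rw [hce]; rfl
    have c2 : ce ω₀ 2 = Ju ω₀ := by rw [hce]; rfl
    have c3 : ce ω₀ 3 = 0 := by rw [hce]; rfl
    have e3 : ce ω₀ 0 + (ce ω₀ 1 * bb none + (ce ω₀ 2 * bb (some κ) +
        ce ω₀ 3 * bb (some κ))) = wp F w ω₀ σ ι + Ju ω₀ * (wp F w ω σ κ - wp F w ω₀ σ κ) := by
      rw [c0, c1, c2, c3, hbn, ← ht, hbs]
      obtain ⟨x, hx⟩ : ∃ x, x = wp F w ω σ κ := ⟨_, rfl⟩
      rw [← hx]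
      unfold wp
      ring
    rw [e3]
    obtain ⟨W, hW⟩ : ∃ W, W = wp F w ω₀ σ ι + Ju ω₀ * (wp F w ω σ κ - wp F w ω₀ σ κ) := ⟨_, rfl⟩
    rw [← hW] at e1 ⊢
    have e4 : wp F w ω σ ι - W = (wp F w ω σ ι - eval bb (G (z' (slam F w ω)))) +
        (eval bb (G (z' (slam F w ω))) - W) := by ring
    rw [e4]
    refine (abs_add_le _ _).trans ((add_le_add e2 e1).trans (le_trans ?_ hQ))
    rw [← two_mul]
  refine ⟨B₃, b31, ?_, V × ℤ × ℕ, zp, zs, cf,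
    ⟨fun x => deg_afq _ _ _ _ _ _, fun x b b' hb hb' => ?_, hcls, fun ω hω => ?_⟩, hcf3,
    fun ω hω => ⟨hβ ω hω, hall ω hω⟩⟩
  · push_cast at b32
    norm_num at b32
    linarith
  · rw [eval_afq, eval_afq, hb, hb' κ (Finset.mem_singleton_self _)]
  · have h1 := hall ω hω (rt F (w + 2) ω) (rt_mem F (w + 2) ω)
    have hp : ∀ j, wp F (w + 2) ω (rt F (w + 2) ω) j = F.x ω j := fun j => by
      rw [wp_eq F hwJ]
      ring
    have hb : wpt F (w + 2) ω (rt F (w + 2) ω) = bt F ω := by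
      funext o
      cases o with
      | none =>
        show wt F (w + 2) ω (rt F (w + 2) ω) = F.t ω
        rw [t_rt F hwJ ω]
        unfold wt
        ring
      | some j => exact hp j
    rw [hp, hb] at h1
    exact h1

/-- **Affine labels over one coordinate in a family.** -/
theorem aff_one (m K : ℕ) : ∃ C : ℝ, 1 ≤ C ∧ ∀ {J : ℕ}
    (F : Fam m J) (A : F.Ω → Prop) (hA : 0 < Pe F.p A) {κ ι : Fin m}
    {e w P g M N Q : ℕ} {au cu : PtT F → ℝ} {θ : ℝ} {V : Type}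
    {z : PtT F → V} {z' : LnT F → V} {G : V → MvPolynomial (Option (Fin m)) ℝ},
    Dp F A κ ι e M au cu → LbP F {κ} ι K J w P A z z' G → w + 2 ≤ J → 0 ≤ θ →
    (Fam.sub F A hA).Tm θ →
    C * (θ + 1) ≤ ((J : ℝ) - w) * Real.log 2 → w + g + e + 5 ≤ J →
    (∀ B₀ : F.Ω → Prop, Sub B₀ A → Pe F.p A / 4 < Pe F.p B₀ → Real.log (2 * (K + 2 : ℕ)) <
      CH (Pool.Agent.H49.Ent.cond F.p B₀ True) (fun ω => F.D g ω κ) (ptr F J)) →
    C * Real.exp (C * (θ + 1)) ≤ 2 ^ N →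
    N + g * (K + 1) + (Q + 6) ≤ P → N + g * (K + 1) + e + (Q + 6) ≤ J →
    N + g * (K + 1) + 0 + (Q + 6) ≤ M + w →
    ∃ B' : F.Ω → Prop, Sub B' A ∧ Pe F.p A ≤ 20 * Pe F.p B' ∧
      ∃ (V' : Type) (zp : PtT F → V') (zs : LnT F → V') (cf : V' → Fin 4 → ℝ),
        AfO F κ ι (w + 2) Q e B' zp zs cf := by
  classical
  obtain ⟨C, hC, hone⟩ := tie_one m K
  refine ⟨C, hC, ?_⟩
  intro J F A hA κ ι e w P g M N Q au cu θ V z z' G hu hlab hwR hθ hTm hJθ hwg hact hN n1 n2 n3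
  have hX : 1 ≤ Real.exp (C * (θ + 1)) := Real.one_le_exp (by positivity)
  have pe : (1 : ℝ) ≤ 2 ^ e := one_le_pow₀ (by norm_num)
  have pM : (0 : ℝ) < 2 ^ M := by positivity
  have pw : (0 : ℝ) < 1 / 2 ^ w := by positivity
  obtain ⟨E₁, hE₁⟩ : ∃ E₁ : ℝ, E₁ = 2 ^ 0 * (2 / 2 ^ M) := ⟨_, rfl⟩
  have hE₁0 : 0 ≤ E₁ := by rw [hE₁]; positivity
  obtain ⟨μ, hμ⟩ : ∃ μ : ℝ, μ = E₁ / 2 ^ w + 2 ^ e * (2 / 2 ^ J) := ⟨_, rfl⟩
  have hμ0 : 0 ≤ μ := by rw [hμ]; positivity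
  have hfib : ∀ ω ω', A ω → A ω' → ptr F J ω = ptr F J ω' →
      (∀ j, |F.x ω' j - F.x ω j| ≤ 1 / 2 ^ J) ∧
      |F.d ω' ι - F.d ω ι - au (ptr F J ω) * (F.d ω' κ - F.d ω κ)| ≤ 2 ^ w * μ := by
    intro ω ω' hω hω' h'
    have hx := ptr_x F h'
    have hdu := hu.two hω hω' h'
    rw [← hE₁] at hdu
    refine ⟨hx, hdu.trans ?_⟩
    have k1 : 2 ^ w * μ = E₁ + 2 ^ w * (2 ^ e * (2 / 2 ^ J)) := by
      rw [hμ, mul_add]
      field_simp
    rw [k1]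
    have : (0 : ℝ) ≤ 2 ^ w * (2 ^ e * (2 / 2 ^ J)) := by positivity
    linarith only [this]
  have hgJ : (1 : ℝ) / 2 ^ J ≤ 1 / 2 ^ g * (1 / 2 ^ w) / 16 := by
    have e1 : (1 : ℝ) / 2 ^ g * (1 / 2 ^ w) / 16 = 1 / 2 ^ (w + g + 4) := by
      rw [pow_add, pow_add]
      norm_num
      field_simp
    rw [e1]
    exact inv_mono (by omega)
  -- the label of `ι`
  obtain ⟨B₁, b11, b12, b13⟩ := hone F A hA (a := fun ω => au (ptr F J ω)) (α := 2 ^ e)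
    (ρ := 1 / 2 ^ g) (s₀ := 1 / 2 ^ J) (err := 2 ^ w * μ) (θ := θ) (Φ := ptr F J) hlab
    (by omega) hθ hTm hJθ (by positivity) (by
      rw [div_le_one (by positivity)]
      exact one_le_pow₀ (by norm_num)) hgJ
    (fun ω ω' hω hω' h' => by
      obtain ⟨a1, a2⟩ := hfib ω ω' hω hω' h'
      exact ⟨h', a1 κ, a1 ι, a2⟩) (fun ω hω => (hu ω hω).1)
    (fun B hB hPB => by
      have hB0 : 0 < Pe F.p B := by linarith only [hPB, hA]
      exact nod_of (F := F) (K + 2) (B := B) hB0 (κ := κ)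
        (g := g) (Φ := ptr F J) (fun B₀ hB₀ hPB₀ => by
          refine hact B₀ (fun ω hω => hB ω (hB₀ ω hω)) ?_
          have hPB₀' : Pe F.p B / 2 < Pe F.p B₀ := hPB₀
          linarith only [hPB₀', hPB]))
  -- the affine label
  obtain ⟨B₃, c1, c2, V', zp, zs, cf, c3⟩ := one_core (F := F) (A := B₁) (κ := κ) (ι := ι)
    (K := K) (w := w) (P := P) (Q := Q) (e := e) (z := z) (z' := z') (G := G)
    (Ju := fun ω => au (ptr F J ω))
    (T₂ := C * (1 / (1 / 2 ^ g)) ^ (K + 1) * (Real.exp (C * (θ + 1)) / 2 ^ P +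
      (1 + 2 ^ e) * (1 / 2 ^ J) + 1 / 2 ^ w * (2 ^ w * μ)))
    (hlab.sub b11) hwR (fun ω hω => b13 ω hω) (fun ω hω => (hu ω (b11 ω hω)).1) (by
      have h3 := num_a hC hX hN n1 n2 n3
      have e4 : 1 / 2 ^ w * (2 ^ w * μ) = μ := by field_simp
      rw [e4, hμ, hE₁]
      refine h3.trans ?_
      have : (0 : ℝ) < 1 / 2 ^ Q := by positivity
      linarith only [this])
  exact ⟨B₃, fun ω hω => b11 ω (c1 ω hω), by linarith only [b12, c2], V', zp, zs, cf, c3⟩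

end Pool.MIC6
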