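import Pool.Agent.H6.OWN.Rzm
import Pool.Agent.H6.OWN.AfcG

/-!
# Affine labels over two coordinates in a zoom, without slopes of the third coordinate

`aff_zmn`: `aff_zom` without assumptions on the velocities of the coordinate `k`.
-/

set_option autoImplicit false

namespace Pool.MIC6

open Finset MvPolynomial
open Pool.Agent.H49.Ent Pool.Agent.H32.Dense Pool.STK Pool.KA Pool.KSAT Pool.K2S Pool.PB Pool.GEN
open Pool.FLF (Fam.sub)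
open Pool.GRD (LbP)
open Pool.REX (zm zmV zmV_Z zmV_T zm_T)

variable {m n J : ℕ}

/-- **Affine labels over two coordinates in a zoom**, without slopes of the third one, with a
bound of the slope of `κ`. -/
theorem aff_zmb (m n K K₂ : ℕ) (hK : 1 ≤ K) (hKK : K ≤ K₂) : ∃ C : ℝ, 1 ≤ C ∧ ∀ {J : ℕ}
    (F : Fam m J) (A : F.Ω → Prop) (hA : 0 < Pe F.p A) {B P : ℕ} (hP : P ≤ J - B) {Y : Type}
    (yy : F.Ω → Y) (ε : Fin n → Fin m) {κ ι k : Fin n}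
    {e w ρ ρ₂ P₁ P₂ g M N h hh sp d Q : ℕ}
    {au cu : PtT F → ℝ} {J0 : F.Ω → ℝ} {θ : ℝ}, κ ≠ ι → Dp F A (ε κ) (ε ι) e M au cu →
    Lb (zmV F hP yy ε) {κ, ι} k K e (J - B - P) w ρ P₁ A →
    Lb (zmV F hP yy ε) {κ} ι K₂ e (J - B - P) w ρ₂ P₂ A →
    w + 2 ≤ J - B - P → ρ + e + 5 ≤ w → 0 ≤ θ →
    (∀ (B₀ : F.Ω → Prop) (hB₀ : 0 < Pe F.p B₀), Sub B₀ A → Pe F.p A / 4 ≤ Pe F.p B₀ →
      (Fam.sub (zmV F hP yy ε) B₀ hB₀).Tm θ) →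
    C * (θ + 1) ≤ (((J - B - P : ℕ) : ℝ) - w) * Real.log 2 → w + g + e + 5 ≤ J - B - P →
    (∀ B₀ : F.Ω → Prop, Sub B₀ A → Pe F.p A / 16 < Pe F.p B₀ → Real.log (2 * (K₂ + 2 : ℕ)) <
      CH (Pool.Agent.H49.Ent.cond F.p B₀ True) (fun ω => (zmV F hP yy ε).D g ω κ)
        (phz F hP yy ε)) →
    (∀ ω, A ω → |au (ptr F J ω) - J0 ω| ≤ 1 / 2 ^ h) → hh ≤ w + h →
    (∀ B₁ : F.Ω → Prop, Sub B₁ A → Pe F.p A / 16 ≤ Pe F.p B₁ → ∃ B' : F.Ω → Prop, Sub B' B₁ ∧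
      Pe F.p B₁ / 2 ≤ Pe F.p B' ∧ ∀ ω, B' ω → ∃ ν : Fin (K + 2) → F.Ω,
        (∀ i, B₁ (ν i) ∧ slam (zmV F hP yy ε) w (ν i) = slam (zmV F hP yy ε) w ω ∧
          J0 (ν i) = J0 ω) ∧
          ∀ i j, i ≠ j → 1 / 2 ^ sp ≤ |au (ptr F J (ν i)) - au (ptr F J (ν j))|) →
    w + sp ≤ hh + d → C * Real.exp (C * (θ + 1)) ≤ 2 ^ N →
    N + g * (K₂ + 1) + (hh + 6) ≤ P₂ → N + g * (K₂ + 1) + e + (hh + 6) ≤ J - B - P →
    N + g * (K₂ + 1) + P + (hh + 6) ≤ M + w →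
    N + (d + g) * (K + 1) + (Q + 2) ≤ P₁ →
    N + (d + g) * (K + 1) + 3 * e + (Q + 2) ≤ J - B - P →
    N + (d + g) * (K + 1) + P + (hh + 2) ≤ M + w →
    N + (d + g) * (K + 1) + e + (hh + 2) ≤ J - B - P →
    ∃ B' : F.Ω → Prop, Sub B' A ∧ Pe F.p A ≤ 160 * Pe F.p B' ∧
      ∃ (V' : Type) (zp : PtT (zmV F hP yy ε) → V') (zs : LnT (zmV F hP yy ε) → V')
        (cf : V' → Fin 4 → ℝ), AfCn F hP yy ε κ ι k (w + 2) Q e B' zp zs cf ∧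
          ∀ ω, B' ω → |cf (zs (slam (zmV F hP yy ε) (w + 2) ω)) 2| ≤ 2 ^ e := by
  classical
  obtain ⟨C₁, hC₁, hone⟩ := tie_one n K₂
  obtain ⟨C₂, hC₂, haff⟩ := aff_fmn n K hK
  refine ⟨C₁ + C₂, by linarith, ?_⟩
  intro J F A hA B P hP Y yy ε κ ι k e w ρ ρ₂ P₁ P₂ g M N h hh sp d Q au cu J0 θ hκι hu
    hlab hlab₂ hwR hρ hθ hTm hJθ hwg hact hJ0 hhh hnod hd hN n1 n2 n3 n4 n5 n6 n7
  obtain ⟨C, hCd⟩ : ∃ C, C = C₁ + C₂ := ⟨_, rfl⟩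
  rw [← hCd] at hJθ hN
  have hCC₁ : C₁ ≤ C := by linarith
  have hCC₂ : C₂ ≤ C := by linarith
  have hC : 1 ≤ C := by linarith
  obtain ⟨V₁, z₁, z₁', G₁, h₁⟩ := hlab
  obtain ⟨V₂, z₂, z₂', G₂, h₂⟩ := hlab₂
  have hX : 1 ≤ Real.exp (C * (θ + 1)) := Real.one_le_exp (by positivity)
  have pe : (1 : ℝ) ≤ 2 ^ e := one_le_pow₀ (by norm_num)
  have pM : (0 : ℝ) < 2 ^ M := by positivity
  have pw : (0 : ℝ) < 1 / 2 ^ w := by positivity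
  obtain ⟨R, hR⟩ : ∃ R, R = J - B - P := ⟨_, rfl⟩
  rw [← hR] at hwR hwg n2 n5 n7
  obtain ⟨E₁, hE₁⟩ : ∃ E₁ : ℝ, E₁ = 2 ^ P * (2 / 2 ^ M) := ⟨_, rfl⟩
  have hE₁0 : 0 ≤ E₁ := by rw [hE₁]; positivity
  obtain ⟨μ, hμ⟩ : ∃ μ : ℝ, μ = E₁ / 2 ^ w + 2 ^ e * (2 / 2 ^ R) := ⟨_, rfl⟩
  have hμ0 : 0 ≤ μ := by rw [hμ]; positivity
  have hμH : 2 * μ ≤ 1 / 2 ^ hh := by
    have k1 : E₁ / 2 ^ w = 2 * (2 ^ P / 2 ^ (M + w)) := by
      rw [hE₁, pow_add]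
      field_simp
    have k2 : (2 : ℝ) ^ P / 2 ^ (M + w) ≤ 1 / 2 ^ (hh + 6) := two_frac (by omega)
    have k3 : (2 : ℝ) ^ e * (2 / 2 ^ R) = 2 * (2 ^ e / 2 ^ R) := by ring
    have k4 : (2 : ℝ) ^ e / 2 ^ R ≤ 1 / 2 ^ (hh + 6) := two_frac (by omega)
    have k5 : (1 : ℝ) / 2 ^ (hh + 6) = 1 / 2 ^ hh / 64 := by
      rw [pow_add]
      field_simp
      norm_num
    have k6 : (0 : ℝ) < 1 / 2 ^ hh := by positivity
    rw [hμ, k1, k3]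
    linarith
  have hS : (1 : ℝ) / 2 ^ hh / (1 / 2 ^ sp * (1 / 2 ^ w)) ≤ 2 ^ d := by
    rw [div_le_iff₀ (by positivity)]
    have k1 : (2 : ℝ) ^ d * (1 / 2 ^ sp * (1 / 2 ^ w)) = 2 ^ d / 2 ^ (w + sp) := by
      rw [pow_add]
      field_simp
    rw [k1, div_le_div_iff₀ (by positivity) (by positivity), one_mul, ← pow_add]
    exact pow_le_pow_right₀ (by norm_num) (by omega)
  obtain ⟨Λ, hΛ⟩ : ∃ Λ : ℝ, Λ = (1 / 2 ^ hh / (1 / 2 ^ sp * (1 / 2 ^ w))) ^ (K + 1) *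
      (1 / (1 / 2 ^ g)) ^ (K + 1) := ⟨_, rfl⟩
  have hΛ0 : 0 ≤ Λ := by rw [hΛ]; positivity
  have hΛD : Λ ≤ 2 ^ ((d + g) * (K + 1)) := by
    have k1 : (1 : ℝ) / (1 / 2 ^ g) = 2 ^ g := by field_simp
    have k4 : (2 : ℝ) ^ ((d + g) * (K + 1)) = (2 ^ d * 2 ^ g) ^ (K + 1) := by
      rw [pow_mul, pow_add 2 d g]
    rw [hΛ, k1, ← mul_pow, k4]
    have k2 : (1 : ℝ) / 2 ^ hh / (1 / 2 ^ sp * (1 / 2 ^ w)) * 2 ^ g ≤ 2 ^ d * 2 ^ g :=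
      mul_le_mul_of_nonneg_right hS (by positivity)
    have k3 : (0 : ℝ) ≤ 1 / 2 ^ hh / (1 / 2 ^ sp * (1 / 2 ^ w)) * 2 ^ g := by positivity
    exact pow_le_pow_left₀ k3 k2 _
  have hexp₁ : Real.exp (C₁ * (θ + 1)) ≤ Real.exp (C * (θ + 1)) :=
    Real.exp_le_exp.2 (mul_le_mul_of_nonneg_right hCC₁ (by linarith))
  have hexp₂ : Real.exp (C₂ * (θ + 1)) ≤ Real.exp (C * (θ + 1)) :=
    Real.exp_le_exp.2 (mul_le_mul_of_nonneg_right hCC₂ (by linarith))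
  have hfib : ∀ ω ω', A ω → A ω' → phz F hP yy ε ω = phz F hP yy ε ω' →
      ptr (zmV F hP yy ε) (J - B - P) ω = ptr (zmV F hP yy ε) (J - B - P) ω' ∧
      (∀ j, |(zmV F hP yy ε).x ω' j - (zmV F hP yy ε).x ω j| ≤ 1 / 2 ^ R) ∧
      |(zmV F hP yy ε).x ω' ι - (zmV F hP yy ε).x ω ι - au (ptr F J ω) *
        ((zmV F hP yy ε).x ω' κ - (zmV F hP yy ε).x ω κ)| ≤ μ ∧
      |(zmV F hP yy ε).d ω' ι - (zmV F hP yy ε).d ω ι - au (ptr F J ω) *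
        ((zmV F hP yy ε).d ω' κ - (zmV F hP yy ε).d ω κ)| ≤ 2 ^ w * μ := by
    intro ω ω' hω hω' h'
    have hx : ∀ j, |(zmV F hP yy ε).x ω' j - (zmV F hP yy ε).x ω j| ≤ 1 / 2 ^ R := by
      intro j
      rw [hR]
      exact zom_x F hP yy ε h' j
    have hdu := zom_d F hP yy ε hu hω hω' h'
    obtain ⟨c1, c2, c3⟩ := phz_ptr F hP yy ε h'
    rw [← hE₁] at hdu
    refine ⟨c2, hx, ?_, ?_⟩
    · have k1 : |au (ptr F J ω) * ((zmV F hP yy ε).x ω' κ - (zmV F hP yy ε).x ω κ)| ≤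
          2 ^ e * (1 / 2 ^ R) := by
        rw [abs_mul]
        exact mul_le_mul (hu ω hω).1 (hx κ) (abs_nonneg _) (by positivity)
      have k2 : 1 / 2 ^ R ≤ 2 ^ e * ((1 : ℝ) / 2 ^ R) :=
        le_mul_of_one_le_left (by positivity) pe
      refine (abs_sub _ _).trans ((add_le_add (hx ι) k1).trans ?_)
      have k3 : (2 : ℝ) ^ e * (2 / 2 ^ R) = 2 * (2 ^ e * (1 / 2 ^ R)) := by
        ring
      have k4 : 0 ≤ E₁ / 2 ^ w := by positivity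
      rw [hμ, k3]
      linarith
    · refine hdu.trans ?_
      have k1 : 2 ^ w * μ = E₁ + 2 ^ w * (2 ^ e * (2 / 2 ^ R)) := by
        rw [hμ, mul_add]
        field_simp
      rw [k1]
      have : (0 : ℝ) ≤ 2 ^ w * (2 ^ e * (2 / 2 ^ R)) := by positivity
      linarith
  have hJ0' : ∀ ω, A ω → |au (ptr F J ω) - J0 ω| * (1 / 2 ^ w) ≤ 1 / 2 ^ hh := by
    intro ω hω
    have k1 := mul_le_mul_of_nonneg_right (hJ0 ω hω) (by positivity : (0 : ℝ) ≤ 1 / 2 ^ w)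
    refine k1.trans ?_
    have k2 : (1 : ℝ) / 2 ^ h * (1 / 2 ^ w) = 1 / 2 ^ (w + h) := by
      rw [pow_add]
      field_simp
    rw [k2]
    exact inv_mono hhh
  have hnod1 : ∀ B₁ : F.Ω → Prop, Sub B₁ A → Pe F.p A / 8 ≤ Pe F.p B₁ → ∃ B' : F.Ω → Prop,
      Sub B' B₁ ∧ Pe F.p B₁ / 2 ≤ Pe F.p B' ∧ ∀ ω, B' ω → ∃ ν : Fin (K₂ + 2) → F.Ω,
        (∀ i, B₁ (ν i) ∧ phz F hP yy ε (ν i) = phz F hP yy ε ω) ∧
        ∀ i j, i ≠ j → 1 / 2 ^ g ≤ |(zmV F hP yy ε).d (ν i) κ - (zmV F hP yy ε).d (ν j) κ| := by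
    intro B₁ hB₁ hPB₁
    have hB₁0 : 0 < Pe F.p B₁ := by linarith
    exact nod_of (F := zmV F hP yy ε) (K₂ + 2) (B := B₁) hB₁0 (κ := κ)
      (g := g) (Φ := phz F hP yy ε) (fun B₀ hB₀ hPB₀ => by
        refine hact B₀ (fun ω hω => hB₁ ω (hB₀ ω hω)) ?_
        have hPB₀' : Pe F.p B₁ / 2 < Pe F.p B₀ := hPB₀
        linarith)
  have hgJ : (1 + 2 ^ e) * ((1 : ℝ) / 2 ^ R) ≤ 1 / 2 ^ g * (1 / 2 ^ w) / 16 := by
    have e1 : (1 : ℝ) / 2 ^ g * (1 / 2 ^ w) / 16 = 1 / 2 ^ (w + g + 4) := by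
      rw [pow_add, pow_add]
      norm_num
      field_simp
    rw [e1]
    have k1 : (1 + 2 ^ e) * ((1 : ℝ) / 2 ^ R) ≤ (2 ^ (e + 1)) / 2 ^ R := by
      rw [mul_one_div]
      refine div_le_div_of_nonneg_right ?_ (by positivity)
      rw [pow_succ]
      linarith
    exact k1.trans (two_frac (by omega))
  -- the label of `ι`
  obtain ⟨B₁, b11, b12, b13⟩ := hone (zmV F hP yy ε) A hA (a := fun ω => au (ptr F J ω)) (α := 2 ^ e)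
    (ρ := 1 / 2 ^ g) (s₀ := 1 / 2 ^ R) (err := 2 ^ w * μ) (θ := θ) (Φ := phz F hP yy ε) (LbP.of h₂)
    (by omega) hθ (hTm A hA (fun _ h => h) (by linarith))
    ((mul_le_mul_of_nonneg_right hCC₁ (by linarith)).trans hJθ) (by positivity) (by
      rw [div_le_one (by positivity)]
      exact one_le_pow₀ (by norm_num)) (by
      refine le_trans ?_ hgJ
      exact le_mul_of_one_le_left (by positivity) (by linarith))
    (fun ω ω' hω hω' h' => by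
      obtain ⟨a0, a1, a2, a3⟩ := hfib ω ω' hω hω' h'
      exact ⟨a0, a1 κ, a1 ι, a3⟩) (fun ω hω => (hu ω hω).1)
    (fun B hB hPB => hnod1 B hB (by
      have h1 : Pe F.p A / 2 ≤ Pe F.p B := hPB
      linarith))
  have hPB₁ : Pe F.p A / 4 ≤ Pe F.p B₁ := b12
  have hB₁0 : 0 < Pe F.p B₁ := by linarith
  -- the label of `k`
  obtain ⟨B₂, b21, b22, b23⟩ := haff (zmV F hP yy ε) B₁ hB₁0 (κ := κ) (ι := ι) (k := k)
    (Φ := phz F hP yy ε)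
    (Ju := fun ω => au (ptr F J ω)) (J0 := J0) (H := 1 / 2 ^ hh) (μ := μ) (s := 1 / 2 ^ sp)
    (ρ := 1 / 2 ^ g) (s₀ := 1 / 2 ^ R) (θ := θ) hκι (h₁.sub b11) (by omega) hρ hθ
    (hTm B₁ hB₁0 b11 b12) ((mul_le_mul_of_nonneg_right hCC₂ (by linarith)).trans hJθ)
    (by positivity) (by
      rw [div_le_one (by positivity)]
      exact one_le_pow₀ (by norm_num)) (by positivity) hgJ hμ0 hμH (by positivity)
    (by positivity) (fun ω hω => hJ0' ω (b11 ω hω))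
    (fun ω ω' hω hω' h' => hfib ω ω' (b11 ω hω) (b11 ω' hω') h')
    (fun ω hω => (hu ω (b11 ω hω)).1)
    (fun B hB hPB => by
      obtain ⟨B', c1, c2, c3⟩ := hnod1 B (fun ω hω => b11 ω (hB ω hω)) (by
        have h1 : Pe F.p B₁ / 2 ≤ Pe F.p B := hPB
        linarith)
      refine ⟨B', c1, c2, fun ω hω => ?_⟩
      obtain ⟨ν, d1, d2⟩ := c3 ω hω
      exact ⟨fun i => ν (Fin.castLE (by omega) i), fun i => d1 _, fun i j hij => d2 _ _ fun he =>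
        hij (Fin.castLE_injective _ he)⟩)
    (fun B hB hPB => hnod B (fun ω hω => b11 ω (hB ω hω)) (by
      have h1 : Pe F.p B₁ / 4 ≤ Pe F.p B := hPB
      linarith)) (by
      rw [← hΛ, hμ, hE₁]
      have h3 := num_h (e := e) (R := R) (hh := hh) hC hX hN hΛ0 hΛD n6 n7
      refine le_trans ?_ h3
      refine mul_le_mul_of_nonneg_right (mul_le_mul_of_nonneg_right hCC₂ hΛ0) ?_
      positivity)
  -- the affine label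
  have hgr : ∀ i, ∀ ω, B₂ ω → |gsl w z₁' G₁ i (slam (zmV F hP yy ε) w ω)| ≤ 2 ^ e := fun i ω hω => by
      unfold gsl
      rw [gpt_eq (zmV F hP yy ε) (by omega)]
      refine grad_box h₁ (by omega) hρ (b11 ω (b21 ω hω)) ⟨le_rfl, zero_le_one⟩ rfl
        (fun i _ => ?_) i
      show |wp (zmV F hP yy ε) w ω 0 i - wp (zmV F hP yy ε) w ω 0 i| ≤ _
      rw [sub_self, abs_zero]
      positivity
  obtain ⟨B₃, c1, c2, V', zp, zs, cf, c3, c4, c5⟩ := lab_cor2 (F := zmV F hP yy ε) (A := B₂) (κ := κ) (ι := ι)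
    (k := k) (K := K) (K₂ := K₂) (r := J - B - P) (w := w) (P := P₁) (P₂ := P₂) (Q := Q) (z := z₁)
    (z' := z₁') (G := G₁) (z₂ := z₂) (z₂' := z₂') (G₂ := G₂) (Ju := fun ω => au (ptr F J ω))
    (J0 := J0) (H := 1 / 2 ^ hh) (β := 2 ^ e)
    (T₂ := C₁ * (1 / (1 / 2 ^ g)) ^ (K₂ + 1) * (Real.exp (C₁ * (θ + 1)) / 2 ^ P₂ +
      (1 + 2 ^ e) * (1 / 2 ^ R) + 1 / 2 ^ w * (2 ^ w * μ)))
    (T := C₂ * Λ * (Real.exp (C₂ * (θ + 1)) / 2 ^ P₁ + (2 ^ e) ^ 3 * (1 / 2 ^ R)))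
    hκι ((LbP.of h₁).sub fun ω hω => b11 ω (b21 ω hω))
    ((LbP.of h₂).sub fun ω hω => b11 ω (b21 ω hω)) (by rw [← hR]; exact hwR)
    (by rw [← hR]; exact hwR) (by positivity)
    (fun ω hω => hJ0' ω (b11 ω (b21 ω hω))) (fun ω hω => b13 ω (b21 ω hω))
    (fun ω hω σ hσ η ξ hη hξ => by
      rw [hΛ]
      exact b23 ω hω σ hσ η ξ (by linarith) (by linarith)) (hgr ι) (by
      have h3 := num_a hC hX hN n1 n2 n3
      refine le_trans ?_ h3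
      refine mul_le_mul_of_nonneg_left ?_ (by norm_num)
      have e4 : 1 / 2 ^ w * (2 ^ w * μ) = μ := by field_simp
      rw [e4, ← hE₁, ← hμ]
      have e5 : Real.exp (C₁ * (θ + 1)) / 2 ^ P₂ ≤ Real.exp (C * (θ + 1)) / 2 ^ P₂ :=
        div_le_div_of_nonneg_right hexp₁ (by positivity)
      refine mul_le_mul (mul_le_mul_of_nonneg_right hCC₁ (by positivity)) (by linarith)
        (by positivity) (by positivity)) (by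
      have h3 := num_d (E := 3 * e) hC hX hN hΛ0 hΛD n4 n5
      refine le_trans ?_ h3
      refine mul_le_mul_of_nonneg_left ?_ (by norm_num)
      have e5 : Real.exp (C₂ * (θ + 1)) / 2 ^ P₁ ≤ Real.exp (C * (θ + 1)) / 2 ^ P₁ :=
        div_le_div_of_nonneg_right hexp₂ (by positivity)
      have e6 : ((2 : ℝ) ^ e) ^ 3 = 2 ^ (3 * e) := by
        rw [← pow_mul, mul_comm]
      rw [e6]
      refine mul_le_mul (mul_le_mul_of_nonneg_right hCC₂ hΛ0) (by linarith)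
        (by positivity) (by positivity))
  have hPB : Pe F.p A ≤ 160 * Pe F.p B₃ := by
    have h1 : Pe F.p A / 4 ≤ Pe F.p B₁ := b12
    have h2 : Pe F.p B₁ / 8 ≤ Pe F.p B₂ := b22
    have h3 : Pe F.p B₂ ≤ 5 * Pe F.p B₃ := c2
    linarith
  exact ⟨B₃, fun ω hω => b11 ω (b21 ω (c1 ω hω)), hPB, V', zp, zs, cf, ⟨c3, c4⟩, c5 _ (hgr κ)⟩

/-- **Affine labels over two coordinates in a zoom**, without slopes of the third one. -/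
theorem aff_zmn (m n K K₂ : ℕ) (hK : 1 ≤ K) (hKK : K ≤ K₂) : ∃ C : ℝ, 1 ≤ C ∧ ∀ {J : ℕ}
    (F : Fam m J) (A : F.Ω → Prop) (hA : 0 < Pe F.p A) {B P : ℕ} (hP : P ≤ J - B) {Y : Type}
    (yy : F.Ω → Y) (ε : Fin n → Fin m) {κ ι k : Fin n}
    {e w ρ ρ₂ P₁ P₂ g M N h hh sp d Q : ℕ}
    {au cu : PtT F → ℝ} {J0 : F.Ω → ℝ} {θ : ℝ}, κ ≠ ι → Dp F A (ε κ) (ε ι) e M au cu →
    Lb (zmV F hP yy ε) {κ, ι} k K e (J - B - P) w ρ P₁ A →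
    Lb (zmV F hP yy ε) {κ} ι K₂ e (J - B - P) w ρ₂ P₂ A →
    w + 2 ≤ J - B - P → ρ + e + 5 ≤ w → 0 ≤ θ →
    (∀ (B₀ : F.Ω → Prop) (hB₀ : 0 < Pe F.p B₀), Sub B₀ A → Pe F.p A / 4 ≤ Pe F.p B₀ →
      (Fam.sub (zmV F hP yy ε) B₀ hB₀).Tm θ) →
    C * (θ + 1) ≤ (((J - B - P : ℕ) : ℝ) - w) * Real.log 2 → w + g + e + 5 ≤ J - B - P →
    (∀ B₀ : F.Ω → Prop, Sub B₀ A → Pe F.p A / 16 < Pe F.p B₀ → Real.log (2 * (K₂ + 2 : ℕ)) <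
      CH (Pool.Agent.H49.Ent.cond F.p B₀ True) (fun ω => (zmV F hP yy ε).D g ω κ)
        (phz F hP yy ε)) →
    (∀ ω, A ω → |au (ptr F J ω) - J0 ω| ≤ 1 / 2 ^ h) → hh ≤ w + h →
    (∀ B₁ : F.Ω → Prop, Sub B₁ A → Pe F.p A / 16 ≤ Pe F.p B₁ → ∃ B' : F.Ω → Prop, Sub B' B₁ ∧
      Pe F.p B₁ / 2 ≤ Pe F.p B' ∧ ∀ ω, B' ω → ∃ ν : Fin (K + 2) → F.Ω,
        (∀ i, B₁ (ν i) ∧ slam (zmV F hP yy ε) w (ν i) = slam (zmV F hP yy ε) w ω ∧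
          J0 (ν i) = J0 ω) ∧
          ∀ i j, i ≠ j → 1 / 2 ^ sp ≤ |au (ptr F J (ν i)) - au (ptr F J (ν j))|) →
    w + sp ≤ hh + d → C * Real.exp (C * (θ + 1)) ≤ 2 ^ N →
    N + g * (K₂ + 1) + (hh + 6) ≤ P₂ → N + g * (K₂ + 1) + e + (hh + 6) ≤ J - B - P →
    N + g * (K₂ + 1) + P + (hh + 6) ≤ M + w →
    N + (d + g) * (K + 1) + (Q + 2) ≤ P₁ →
    N + (d + g) * (K + 1) + 3 * e + (Q + 2) ≤ J - B - P →
    N + (d + g) * (K + 1) + P + (hh + 2) ≤ M + w →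
    N + (d + g) * (K + 1) + e + (hh + 2) ≤ J - B - P →
    ∃ B' : F.Ω → Prop, Sub B' A ∧ Pe F.p A ≤ 160 * Pe F.p B' ∧
      ∃ (V' : Type) (zp : PtT (zmV F hP yy ε) → V') (zs : LnT (zmV F hP yy ε) → V')
        (cf : V' → Fin 4 → ℝ), AfCn F hP yy ε κ ι k (w + 2) Q e B' zp zs cf := by
  obtain ⟨C, hC, h⟩ := aff_zmb m n K K₂ hK hKK
  refine ⟨C, hC, ?_⟩
  intro J F A hA B P hP Y yy ε κ ι k e w ρ ρ₂ P₁ P₂ g M N h' hh sp d Q au cu J0 θ h1 h2 h3 h4 h5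
    h6 h7 h8 h9 h10 h11 h12 h13 h14 h15 h16 h17 h18 h19 h20 h21 h22 h23
  obtain ⟨B', c1, c2, V', zp, zs, cf, c3, -⟩ := h F A hA hP yy ε h1 h2 h3 h4 h5 h6 h7 h8 h9 h10
    h11 h12 h13 h14 h15 h16 h17 h18 h19 h20 h21 h22 h23
  exact ⟨B', c1, c2, V', zp, zs, cf, c3⟩

end Pool.MIC6
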