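import Pool.Agent.H6.OWN.Slp
import Pool.Agent.H71.GEN.Lip
import Pool.Agent.H80.KS6.Plk

/-!
# Slopes of ball charts

`bal_slp`: a closed label of the coordinate `v` over the coordinate `y` gives the slope `av` and the
velocity `cv` as functions of the exact point. `lab_slp`: if the slope is a function of the line in
a window, up to `2 ^ (-M)`, there is an affine closed label for this window.
-/

set_option autoImplicit false

namespace Pool.MIC6

open Finset MvPolynomial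
open Pool.Agent.H49.Ent Pool.Agent.H32.Dense Pool.STK Pool.KA Pool.KSAT Pool.K2S Pool.PB Pool.GEN
open Pool.GRD (LbP dir_markov)

variable {m J : ℕ}

/-- The point with the digits `p`. -/
noncomputable def dpt {F : Fam m J} (p : PtT F) : Option (Fin m) → ℝ
  | none => (p.2.1 : ℝ) / 2 ^ J
  | some i => (p.1 i : ℝ) / 2 ^ J

theorem dpt_none (F : Fam m J) (ω : F.Ω) : dpt (ptr F J ω) none = F.t ω := rfl

theorem dpt_near (F : Fam m J) (ω : F.Ω) (o : Option (Fin m)) :
    |dpt (ptr F J ω) o - bt F ω o| ≤ 1 / 2 ^ J := by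
  have p0 : (0 : ℝ) < 2 ^ J := by positivity
  cases o with
  | none =>
    rw [dpt_none]
    show |F.t ω - F.t ω| ≤ _
    rw [sub_self, abs_zero]
    positivity
  | some i =>
    show |((⌊(2 : ℝ) ^ J * F.x ω i⌋ : ℤ) : ℝ) / 2 ^ J - F.x ω i| ≤ _
    have h1 := Int.floor_le ((2 : ℝ) ^ J * F.x ω i)
    have h2 := Int.lt_floor_add_one ((2 : ℝ) ^ J * F.x ω i)
    have e1 : ((⌊(2 : ℝ) ^ J * F.x ω i⌋ : ℤ) : ℝ) / 2 ^ J - F.x ω i =
        (((⌊(2 : ℝ) ^ J * F.x ω i⌋ : ℤ) : ℝ) - 2 ^ J * F.x ω i) / 2 ^ J := by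
      field_simp
    rw [e1, abs_div, abs_of_pos p0]
    refine div_le_div_of_nonneg_right ?_ p0.le
    rw [abs_le]
    constructor <;> linarith

/-- **The slope of a ball chart, at the exact point.** -/
theorem bal_slp (m K : ℕ) : ∃ C : ℝ, 1 ≤ C ∧ ∀ {J : ℕ} {F : Fam m J} {A : F.Ω → Prop}
    {y v : Fin m} {e r w ρ P : ℕ} {V : Type} {z : PtT F → V} {z' : LnT F → V}
    {G : V → MvPolynomial (Option (Fin m)) ℝ}, LbOK F {y} v K e r w ρ P A z z' G → r ≤ J →
    ρ + 1 ≤ J → ∃ av cv : PtT F → ℝ, ∀ ω, A ω → |av (ptr F J ω)| ≤ 2 ^ e ∧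
      |cv (ptr F J ω)| ≤ 2 ^ e ∧ |F.d ω v - cv (ptr F J ω) - av (ptr F J ω) * F.d ω y| ≤
        2 ^ w / 2 ^ P + C * (2 ^ (e + ρ) / 2 ^ J) := by
  classical
  obtain ⟨C₁, hC₁, hmk⟩ := dir_markov (m := m) K
  refine ⟨1 + 2 * (C₁ * 2 * (m + 1)), by
    have : 0 ≤ C₁ * 2 * ((m : ℝ) + 1) := by positivity
    linarith, ?_⟩
  intro J F A y v e r w ρ P V z z' G h hr hρ
  obtain ⟨φ, hφ⟩ := ptr_coarse F hr
  refine ⟨fun p => eval (dpt p) (pderiv (some y) (G (z (φ p)))),
    fun p => eval (dpt p) (pderiv none (G (z (φ p)))), fun ω hω => ?_⟩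
  have hz : z (φ (ptr F J ω)) = z' (slam F w ω) := by rw [← hφ ω, h.cls ω hω]
  have hJρ : (1 : ℝ) / 2 ^ J ≤ 1 / 2 ^ (ρ + 1) := inv_mono hρ
  have hρ2 : (1 : ℝ) / 2 ^ (ρ + 1) = 1 / 2 ^ ρ / 2 := by
    rw [pow_succ]
    field_simp
  have hρ0 : (0 : ℝ) < 1 / 2 ^ ρ := by positivity
  have hball : ∀ o, |dpt (ptr F J ω) o - bt F ω o| ≤ 1 / 2 ^ ρ := fun o =>
    (dpt_near F ω o).trans (by linarith)
  show |eval (dpt (ptr F J ω)) (pderiv (some y) (G (z (φ (ptr F J ω)))))| ≤ 2 ^ e ∧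
    |eval (dpt (ptr F J ω)) (pderiv none (G (z (φ (ptr F J ω)))))| ≤ 2 ^ e ∧
    |F.d ω v - eval (dpt (ptr F J ω)) (pderiv none (G (z (φ (ptr F J ω))))) -
      eval (dpt (ptr F J ω)) (pderiv (some y) (G (z (φ (ptr F J ω))))) * F.d ω y| ≤ _
  rw [hz]
  obtain ⟨Q, hQ⟩ : ∃ Q, Q = G (z' (slam F w ω)) := ⟨_, rfl⟩
  have hlip : ∀ b : Option (Fin m) → ℝ, (∀ o, |b o - bt F ω o| ≤ 1 / 2 ^ ρ) → ∀ o,
      |eval b (pderiv o Q)| ≤ 2 ^ e := by
    intro b hb o
    rw [hQ]
    exact h.lip ω hω b hb o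
  have hvel := h.vel ω hω
  have hdeg : Q.totalDegree ≤ K := by rw [hQ]; exact h.deg _
  have hdep : ∀ b b' : Option (Fin m) → ℝ, b none = b' none →
      (∀ i ∈ ({y} : Finset (Fin m)), b (some i) = b' (some i)) → eval b Q = eval b' Q := by
    rw [hQ]
    exact h.dep _
  rw [← hQ] at hvel ⊢
  refine ⟨hlip _ hball _, hlip _ hball _, ?_⟩
  -- the gradients at the two points
  have hgr : ∀ o, |eval (bt F ω) (pderiv o Q) - eval (dpt (ptr F J ω)) (pderiv o Q)| ≤
      C₁ * 2 * (m + 1) * (2 ^ (e + ρ) / 2 ^ J) := by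
    intro o
    rw [abs_sub_comm]
    have h1 := mvσ (pderiv o Q) (bt F ω) (dpt (ptr F J ω)) (C₁ * 2 ^ e / (1 / 2 ^ (ρ + 1)))
      fun b hb i => hmk (pderiv o Q) b i (1 / 2 ^ (ρ + 1)) (2 ^ e)
        (totalDegree_pdσ hdeg o) (by positivity) fun s hs => hlip _ (fun o' => ?_) o
    · have h2 : ∑ i, |dpt (ptr F J ω) i - bt F ω i| ≤ (m + 1) * (1 / 2 ^ J) := by
        refine (Finset.sum_le_card_nsmul _ _ _ fun i _ => dpt_near F ω i).trans (le_of_eq ?_)
        rw [Finset.card_univ, Fintype.card_option, Fintype.card_fin, nsmul_eq_mul]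
        push_cast
        ring
      refine h1.trans ((mul_le_mul_of_nonneg_left h2 (by positivity)).trans (le_of_eq ?_))
      rw [pow_succ, pow_add]
      field_simp
    · have h2 := (hb o').trans (dpt_near F ω o')
      by_cases ho : o' = i
      · subst ho
        rw [Function.update_self]
        have e1 : b o' + s - bt F ω o' = (b o' - bt F ω o') + s := by ring
        rw [e1]
        refine (abs_add_le _ _).trans ?_
        linarith
      · rw [Function.update_of_ne ho]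
        linarith
  have hsum : ∑ o, bd F ω o * eval (bt F ω) (pderiv o Q) =
      eval (bt F ω) (pderiv none Q) + F.d ω y * eval (bt F ω) (pderiv (some y) Q) := by
    rw [Fintype.sum_option]
    have e1 : bd F ω none = 1 := rfl
    rw [e1, one_mul]
    congr 1
    rw [Finset.sum_eq_single y]
    · rfl
    · intro i _ hi
      rw [pderiv_dep Q (some i) (fun b b' hb => hdep b b' (hb none (by simp)) fun i' hi' => by
        rw [Finset.mem_singleton] at hi'
        subst hi'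
        exact hb _ fun hh => hi (Option.some_injective _ hh).symm), mul_zero]
    · intro hh
      exact absurd (Finset.mem_univ _) hh
  rw [hsum] at hvel
  have h1 := hgr none
  have h2 := hgr (some y)
  obtain ⟨E, hE⟩ : ∃ E : ℝ, E = C₁ * 2 * (m + 1) * (2 ^ (e + ρ) / 2 ^ J) := ⟨_, rfl⟩
  rw [← hE] at h1 h2
  have h3 : |F.d ω y * (eval (bt F ω) (pderiv (some y) Q) -
      eval (dpt (ptr F J ω)) (pderiv (some y) Q))| ≤ E := by
    rw [abs_mul]
    have := mul_le_mul (F.dir ω y) h2 (abs_nonneg _) zero_le_one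
    linarith
  have e2 : F.d ω v - eval (dpt (ptr F J ω)) (pderiv none Q) -
      eval (dpt (ptr F J ω)) (pderiv (some y) Q) * F.d ω y =
      (F.d ω v - (eval (bt F ω) (pderiv none Q) + F.d ω y * eval (bt F ω) (pderiv (some y) Q))) +
      ((eval (bt F ω) (pderiv none Q) - eval (dpt (ptr F J ω)) (pderiv none Q)) +
      F.d ω y * (eval (bt F ω) (pderiv (some y) Q) -
        eval (dpt (ptr F J ω)) (pderiv (some y) Q))) := by ring
  rw [e2]
  refine (abs_add_le _ _).trans ?_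
  have h4 := abs_add_le (eval (bt F ω) (pderiv none Q) - eval (dpt (ptr F J ω)) (pderiv none Q))
    (F.d ω y * (eval (bt F ω) (pderiv (some y) Q) - eval (dpt (ptr F J ω)) (pderiv (some y) Q)))
  have h5 : (1 + 2 * (C₁ * 2 * (m + 1))) * (2 ^ (e + ρ) / 2 ^ J) =
      2 ^ (e + ρ) / 2 ^ J + 2 * E := by
    rw [hE]
    ring
  rw [h5]
  have h6 : (0 : ℝ) ≤ 2 ^ (e + ρ) / 2 ^ J := by positivity
  linarith

end Pool.MIC6
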