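import Pool.Agent.H6.OWN.Dps
import Pool.Agent.H6.OWN.AffF

/-!
# The relation of the slopes of a label of a zoom, for one family

`pd_congr`: the derivative of a label over `I` is a function of the coordinates in `I`.
`tie_zom`: a closed label of `k` over `κ`, `ι` in the zoom, with the slopes `au`, `av` of `u = ε ι`
and of `v = ε k` over `y = ε κ` at the exact points: `ga + gb * au = av`, with functions `ga`, `gb`
of the line and of the window.
-/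

set_option autoImplicit false

namespace Pool.MIC6

open Finset MvPolynomial
open Pool.Agent.H49.Ent Pool.Agent.H32.Dense Pool.STK Pool.KA Pool.KSAT Pool.K2S Pool.PB Pool.GEN
open Pool.FLF (Fam.sub)
open Pool.GRD (LbP)
open Pool.REX (zm zmV zmV_Z zmV_T zm_T)

variable {m n J : ℕ}

/-- The derivative of a label over `I` is a function of the coordinates in `I`. -/
theorem pd_congr {I : Finset (Fin n)} {G : MvPolynomial (Option (Fin n)) ℝ}
    (hdep : ∀ b b' : Option (Fin n) → ℝ, b none = b' none →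
      (∀ i ∈ I, b (some i) = b' (some i)) → eval b G = eval b' G)
    (j : Fin n) {b b' : Option (Fin n) → ℝ} (hn : b none = b' none)
    (hb : ∀ i ∈ I, b (some i) = b' (some i)) :
    eval b (pderiv (some j) G) = eval b' (pderiv (some j) G) := by
  classical
  obtain ⟨g, hg⟩ : ∃ g : (Option (Fin n) → ℝ) → Option (Fin n) → Polynomial ℝ, g = fun b o =>
      Polynomial.C (b o) + Polynomial.C (if o = some j then 1 else 0) * Polynomial.X := ⟨_, rfl⟩
  have hge : ∀ (b : Option (Fin n) → ℝ) (o : Option (Fin n)) (x : ℝ),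
      (g b o).eval x = b o + (if o = some j then 1 else 0) * x := by
    intro b o x
    rw [hg]
    simp only [Polynomial.eval_add, Polynomial.eval_mul, Polynomial.eval_C, Polynomial.eval_X]
  have h1 : aeval (g b) G = aeval (g b') G := by
    refine Polynomial.funext fun x => ?_
    rw [Pool.KBX.eval_aeval_poly, Pool.KBX.eval_aeval_poly]
    refine hdep _ _ ?_ fun i hi => ?_
    · show (g b none).eval x = (g b' none).eval x
      rw [hge, hge, hn]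
    · show (g b (some i)).eval x = (g b' (some i)).eval x
      rw [hge, hge, hb i hi]
  have h2 : ∀ b : Option (Fin n) → ℝ, (Polynomial.derivative (aeval (g b) G)).eval 0 =
      eval b (pderiv (some j) G) := by
    intro b
    rw [der_aevalσ, Polynomial.eval_finsetSum, Finset.sum_eq_single (some j)]
    · rw [Polynomial.eval_mul, Pool.KBX.eval_aeval_poly]
      have e1 : (fun o => (g b o).eval 0) = b := by
        funext o
        rw [hge, mul_zero, add_zero]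
      rw [e1, hg]
      simp
    · intro o _ ho
      rw [Polynomial.eval_mul, hg]
      simp [ho]
    · intro h
      exact absurd (Finset.mem_univ _) h
  rw [← h2 b, ← h2 b', h1]

/-- Gradients on the boxes around the lines. -/
theorem grad_box {F : Fam n J} {A : F.Ω → Prop} {κ ι k : Fin n} {K e r w ρ P : ℕ} {V : Type}
    {z : PtT F → V} {z' : LnT F → V} {G : V → MvPolynomial (Option (Fin n)) ℝ}
    (h : LbOK F {κ, ι} k K e r w ρ P A z z' G) (hw : w ≤ J) (hρ : ρ + e + 5 ≤ w) {ω : F.Ω}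
    (hω : A ω) {σ : ℝ} (hσ : σ ∈ Set.Icc (0 : ℝ) 1) {b : Option (Fin n) → ℝ}
    (hbn : b none = wt F w ω σ)
    (hb : ∀ i ∈ ({κ, ι} : Finset (Fin n)), |b (some i) - wp F w ω σ i| ≤
      16 * 2 ^ e * (1 / 2 ^ w)) (j : Fin n) :
    |eval b (pderiv (some j) (G (z' (slam F w ω))))| ≤ 2 ^ e := by
  classical
  have pe : (1 : ℝ) ≤ 2 ^ e := one_le_pow₀ (by norm_num)
  obtain ⟨b', hb'⟩ : ∃ b' : Option (Fin n) → ℝ, b' = fun o => o.elim (b none) fun i =>
    if i ∈ ({κ, ι} : Finset (Fin n)) then b (some i) else bt F ω (some i) := ⟨_, rfl⟩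
  have hb'n : b' none = b none := by rw [hb']; rfl
  have hb's : ∀ i, b' (some i) = if i ∈ ({κ, ι} : Finset (Fin n)) then b (some i) else
    bt F ω (some i) := fun i => by rw [hb']; rfl
  rw [pd_congr (h.dep _) j (b := b) (b' := b') hb'n.symm (fun i hi => by
    rw [hb's, if_pos hi])]
  refine h.lip ω hω b' (fun o => ?_) (some j)
  have hρ1 : 32 * 2 ^ e * (1 / 2 ^ w) ≤ (1 : ℝ) / 2 ^ ρ := by
    have k1 : (1 : ℝ) / 2 ^ w ≤ 1 / 2 ^ (ρ + e + 5) := inv_mono hρ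
    have k2 : 32 * 2 ^ e * ((1 : ℝ) / 2 ^ (ρ + e + 5)) = 1 / 2 ^ ρ := by
      rw [pow_add, pow_add]
      field_simp
      norm_num
    rw [← k2]
    exact mul_le_mul_of_nonneg_left k1 (by positivity)
  have hpos : (0 : ℝ) < 1 / 2 ^ w := by positivity
  have hpe : 1 / 2 ^ w ≤ 2 ^ e * ((1 : ℝ) / 2 ^ w) := le_mul_of_one_le_left hpos.le pe
  have hrt := Pool.PB.Trl.rt_mem F w ω
  have hwt : |wt F w ω σ - F.t ω| ≤ 1 / 2 ^ w := by
    have k1 := Pool.PB.Trl.t_rt F hw ω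
    unfold wt
    rw [k1]
    have k2 : ((slam F w ω).2.2 : ℝ) / 2 ^ w + 1 / 2 ^ w * σ -
        (((slam F w ω).2.2 : ℝ) + Pool.PB.Trl.rt F w ω) / 2 ^ w =
        1 / 2 ^ w * (σ - Pool.PB.Trl.rt F w ω) := by ring
    rw [k2, abs_mul, abs_of_pos hpos]
    refine mul_le_of_le_one_right hpos.le ?_
    rw [abs_le]
    constructor <;> linarith [hrt.1, hrt.2, hσ.1, hσ.2]
  have hwp : ∀ i, |wp F w ω σ i - F.x ω i| ≤ 1 / 2 ^ w := by
    intro i
    rw [wp_eq F hw]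
    have k2 : F.x ω i + 1 / 2 ^ w * (σ - Pool.PB.Trl.rt F w ω) * F.d ω i - F.x ω i =
        1 / 2 ^ w * ((σ - Pool.PB.Trl.rt F w ω) * F.d ω i) := by ring
    rw [k2, abs_mul, abs_of_pos hpos]
    refine mul_le_of_le_one_right hpos.le ?_
    rw [abs_mul]
    refine mul_le_one₀ ?_ (abs_nonneg _) (F.dir ω i)
    rw [abs_le]
    constructor <;> linarith [hrt.1, hrt.2, hσ.1, hσ.2]
  cases o with
  | none =>
    rw [hb'n, hbn]
    have k1 : bt F ω none = F.t ω := rfl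
    rw [k1]
    refine hwt.trans (le_trans ?_ hρ1)
    linarith
  | some i =>
    rw [hb's]
    split_ifs with hi
    · have k1 : bt F ω (some i) = F.x ω i := rfl
      rw [k1]
      have k2 := hb i hi
      have k3 := hwp i
      have k6 : b (some i) - F.x ω i = (b (some i) - wp F w ω σ i) +
        (wp F w ω σ i - F.x ω i) := by ring
      rw [k6]
      refine (abs_add_le _ _).trans (le_trans ?_ hρ1)
      linarith
    · rw [sub_self, abs_zero]
      positivity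

/-- **The relation of the slopes of a label of a zoom.** -/
theorem tie_zom (m n K : ℕ) : ∃ C : ℝ, 1 ≤ C ∧ ∀ {J : ℕ} (F : Fam m J) (A : F.Ω → Prop)
    (hA : 0 < Pe F.p A) {B P : ℕ} (hP : P ≤ J - B) {Y : Type} (yy : F.Ω → Y)
    (ε : Fin n → Fin m) {κ ι k : Fin n} {e r w ρ P₁ g M : ℕ} {au cu av cv : PtT F → ℝ}
    {θ : ℝ}, κ ≠ ι → B ≤ J →
    (∀ ω ω' : F.Ω, slam F B ω = slam F B ω' → yy ω = yy ω') →
    Dp F A (ε κ) (ε ι) e M au cu → Dp F A (ε κ) (ε k) e M av cv →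
    Lb (zmV F hP yy ε) {κ, ι} k K e r w ρ P₁ A → r ≤ J - B - P → w ≤ J - B - P →
    ρ + e + 5 ≤ w → P ≤ M → 0 ≤ θ → (Fam.sub (zmV F hP yy ε) A hA).Tm θ →
    C * (θ + 1) ≤ (((J - B - P : ℕ) : ℝ) - w) * Real.log 2 → w + g + 4 ≤ J - B - P →
    (∀ B₀ : F.Ω → Prop, Sub B₀ A → Pe F.p A / 4 < Pe F.p B₀ → Real.log (2 * (K + 2 : ℕ)) <
      CH (Pool.Agent.H49.Ent.cond F.p B₀ True) (fun ω => (zmV F hP yy ε).D g ω κ)
        (phz F hP yy ε)) →
    ∃ B' : F.Ω → Prop, Sub B' A ∧ Pe F.p A / 4 ≤ Pe F.p B' ∧ ∃ ga gb : LnT F → ℝ, ∀ ω, B' ω →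
      |gb (slam F (B + w) ω)| ≤ 2 ^ e ∧
      |ga (slam F (B + w) ω) + gb (slam F (B + w) ω) * au (ptr F J ω) - av (ptr F J ω)| ≤
        C * (2 ^ g) ^ (K + 1) * (Real.exp (C * (θ + 1)) * 2 ^ w / 2 ^ P₁ +
          2 ^ (2 * e + w) / 2 ^ (J - B - P) + 2 ^ P * (2 ^ e / 2 ^ M)) := by
  classical
  obtain ⟨C, hC, htie⟩ := tie_box n K
  refine ⟨16 * C, by linarith, ?_⟩
  intro J F A hA B P hP Y yy ε κ ι k e r w ρ P₁ g M au cu av cv θ hκι hB hyy hu hv hlab hr hw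
    hρ hPM hθ hTm hJθ hwg hact
  obtain ⟨V₁, z₁, z₁', G₁, h₁⟩ := hlab
  have hC16 : C ≤ 16 * C := by linarith
  have hJθ' : C * (θ + 1) ≤ (((J - B - P : ℕ) : ℝ) - w) * Real.log 2 :=
    (mul_le_mul_of_nonneg_right hC16 (by linarith)).trans hJθ
  obtain ⟨R, hR⟩ : ∃ R, R = J - B - P := ⟨_, rfl⟩
  have hwR : w + 1 ≤ R := by omega
  obtain ⟨φ, hφ⟩ := ptr_coarse (zmV F hP yy ε) hr
  have p0 : (0 : ℝ) < 2 ^ w := by positivity
  have pR : (0 : ℝ) < 2 ^ R := by positivity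
  have pM : (0 : ℝ) < 2 ^ M := by positivity
  have pe : (1 : ℝ) ≤ 2 ^ e := one_le_pow₀ (by norm_num)
  have hRw : (1 : ℝ) / 2 ^ R ≤ 1 / 2 ^ w := inv_mono (by omega)
  have hRw2 : (2 : ℝ) / 2 ^ R ≤ 1 / 2 ^ w := by
    have k1 : (1 : ℝ) / 2 ^ R ≤ 1 / 2 ^ (w + 1) := inv_mono hwR
    have k2 : (1 : ℝ) / 2 ^ (w + 1) = 1 / 2 ^ w / 2 := by
      rw [pow_succ]
      field_simp
    have k3 : (2 : ℝ) / 2 ^ R = 2 * (1 / 2 ^ R) := by ring
    rw [k3]
    linarith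
  have hPM' : (2 : ℝ) ^ P / 2 ^ M ≤ 1 := by
    rw [div_le_one pM]
    exact pow_le_pow_right₀ (by norm_num) hPM
  obtain ⟨sl, hsl⟩ : ∃ sl : F.Ω → Fin n → ℝ, sl = fun ω j =>
      if j = κ then 1 else au (ptr F J ω) := ⟨_, rfl⟩
  have hslκ : ∀ ω, sl ω κ = 1 := fun ω => by rw [hsl]; exact if_pos rfl
  have hslι : ∀ ω j, j ≠ κ → sl ω j = au (ptr F J ω) := fun ω j h => by
    rw [hsl]; exact if_neg h
  obtain ⟨E₁, hE₁⟩ : ∃ E₁ : ℝ, E₁ = 2 ^ P * (2 / 2 ^ M) := ⟨_, rfl⟩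
  have hE₁0 : 0 ≤ E₁ := by rw [hE₁]; positivity
  have hE₁2 : E₁ ≤ 2 := by
    have k1 : E₁ = 2 * (2 ^ P / 2 ^ M) := by rw [hE₁]; ring
    rw [k1]
    linarith
  obtain ⟨μ, hμ⟩ : ∃ μ : ℝ, μ = E₁ / 2 ^ w + 2 ^ e * (2 / 2 ^ R) := ⟨_, rfl⟩
  have hμ0 : 0 ≤ μ := by rw [hμ]; positivity
  have hμ1 : μ ≤ 3 * 2 ^ e * (1 / 2 ^ w) := by
    have k1 : E₁ / 2 ^ w ≤ 2 * 2 ^ e * (1 / 2 ^ w) := by
      have k2 : E₁ / 2 ^ w = E₁ * (1 / 2 ^ w) := by ring
      rw [k2]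
      exact mul_le_mul_of_nonneg_right (by linarith) (by positivity)
    have k3 : (2 : ℝ) ^ e * (2 / 2 ^ R) ≤ 2 ^ e * (1 / 2 ^ w) :=
      mul_le_mul_of_nonneg_left hRw2 (by positivity)
    rw [hμ]
    linarith
  have hx : ∀ ω ω', phz F hP yy ε ω = phz F hP yy ε ω' → ∀ j,
      |(zmV F hP yy ε).x ω' j - (zmV F hP yy ε).x ω j| ≤ 1 / 2 ^ R := by
    intro ω ω' h j
    obtain ⟨c1, c2, c3⟩ := phz_ptr F hP yy ε h
    have d1 : (zmV F hP yy ε).X (J - B - P) ω j = (zmV F hP yy ε).X (J - B - P) ω' j :=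
      congrFun (Prod.ext_iff.mp c2).1 j
    have d2 := fl_eq_near d1
    rw [abs_sub_comm, hR]
    exact d2
  have hd : ∀ (f cf : PtT F → ℝ) (j : Fin n), Dp F A (ε κ) (ε j) e M f cf → ∀ ω ω', A ω → A ω' →
      phz F hP yy ε ω = phz F hP yy ε ω' →
      |(zmV F hP yy ε).d ω' j - (zmV F hP yy ε).d ω j - f (ptr F J ω) *
        ((zmV F hP yy ε).d ω' κ - (zmV F hP yy ε).d ω κ)| ≤ E₁ := by
    intro f cf j hf ω ω' hω hω' h
    obtain ⟨c1, c2, c3⟩ := phz_ptr F hP yy ε h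
    have a1 := (hf ω hω).2.2
    have a2 := (hf ω' hω').2.2
    rw [← c1] at a2
    rw [zmV_d, zmV_d, zmV_d, zmV_d, c3, c3]
    have e1 : 2 ^ P * F.d ω' (ε j) - (((F.win B).L P ω').2 (ε j) : ℝ) -
        (2 ^ P * F.d ω (ε j) - (((F.win B).L P ω').2 (ε j) : ℝ)) - f (ptr F J ω) *
        (2 ^ P * F.d ω' (ε κ) - (((F.win B).L P ω').2 (ε κ) : ℝ) -
        (2 ^ P * F.d ω (ε κ) - (((F.win B).L P ω').2 (ε κ) : ℝ))) =
        2 ^ P * ((F.d ω' (ε j) - cf (ptr F J ω) - f (ptr F J ω) * F.d ω' (ε κ)) -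
        (F.d ω (ε j) - cf (ptr F J ω) - f (ptr F J ω) * F.d ω (ε κ))) := by ring
    rw [e1, abs_mul, abs_of_pos (by positivity : (0 : ℝ) < 2 ^ P), hE₁]
    refine mul_le_mul_of_nonneg_left ?_ (by positivity)
    have e2 : (2 : ℝ) / 2 ^ M = 1 / 2 ^ M + 1 / 2 ^ M := by ring
    rw [e2]
    exact (abs_sub _ _).trans (add_le_add a2 a1)
  obtain ⟨B', b1, b2, b3⟩ := htie (zmV F hP yy ε) A hA (I := {κ, ι}) (κ := κ) (k := k)
    (Φ := phz F hP yy ε)
    (a := fun ω => av (ptr F J ω)) (sl := sl)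
    (H := fun j => if j = κ then 3 / 2 ^ w else 16 * 2 ^ e * (1 / 2 ^ w)) (β := fun _ => 2 ^ e)
    (μ := fun j => if j = κ then 0 else μ) (α := 2 ^ e) (ρ := 1 / 2 ^ g) (s₀ := 1 / 2 ^ R)
    (err := E₁) (θ := θ) (LbP.of h₁) hw hθ hTm hJθ' (by positivity) (by
      rw [div_le_one (by positivity)]
      exact one_le_pow₀ (by norm_num)) (by
      have e1 : (1 : ℝ) / 2 ^ g * (1 / 2 ^ w) / 16 = 1 / 2 ^ (w + g + 4) := by
        rw [pow_add, pow_add]
        norm_num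
        field_simp
      rw [e1, hR]
      exact inv_mono hwg) (fun ω _ => hslκ ω) (fun _ => by positivity) (fun j => by
      show (0 : ℝ) ≤ if j = κ then 0 else μ
      split_ifs
      · exact le_rfl
      · exact hμ0) (fun ω hω j hj => by
      show |sl ω j| * (2 / 2 ^ w + 1 / 2 ^ R) + 2 * (if j = κ then 0 else μ) ≤
        if j = κ then 3 / 2 ^ w else 16 * 2 ^ e * (1 / 2 ^ w)
      have e3 : (3 : ℝ) / 2 ^ w = 2 / 2 ^ w + 1 / 2 ^ w := by ring
      split_ifs with h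
      · subst h
        rw [hslκ, abs_one, one_mul, mul_zero, add_zero, e3]
        linarith
      · rw [hslι ω j h]
        have h1 : |au (ptr F J ω)| * (2 / 2 ^ w + 1 / 2 ^ R) ≤ 2 ^ e * (3 / 2 ^ w) :=
          mul_le_mul (hu ω hω).1 (by rw [e3]; linarith) (by positivity) (by positivity)
        have e4 : (2 : ℝ) ^ e * (3 / 2 ^ w) = 3 * 2 ^ e * (1 / 2 ^ w) := by ring
        have h2 : (0 : ℝ) ≤ 2 ^ e * (1 / 2 ^ w) := by positivity
        linarith) (by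
      intro ω hω σ hσ b hbn hb j hj hjκ
      obtain ⟨b', hb'⟩ : ∃ b' : Option (Fin n) → ℝ, b' = fun o => o.elim (b none) fun i =>
        if i ∈ ({κ, ι} : Finset (Fin n)) then b (some i) else bt (zmV F hP yy ε) ω (some i) :=
        ⟨_, rfl⟩
      have hb'n : b' none = b none := by rw [hb']; rfl
      have hb's : ∀ i, b' (some i) = if i ∈ ({κ, ι} : Finset (Fin n)) then b (some i) else
        bt (zmV F hP yy ε) ω (some i) := fun i => by rw [hb']; rfl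
      rw [pd_congr (h₁.dep _) j (b := b) (b' := b') hb'n.symm (fun i hi => by
        rw [hb's, if_pos hi])]
      refine h₁.lip ω hω b' (fun o => ?_) (some j)
      have hρ1 : 32 * 2 ^ e * (1 / 2 ^ w) ≤ (1 : ℝ) / 2 ^ ρ := by
        have k1 : (1 : ℝ) / 2 ^ w ≤ 1 / 2 ^ (ρ + e + 5) := inv_mono hρ
        have k2 : 32 * 2 ^ e * ((1 : ℝ) / 2 ^ (ρ + e + 5)) = 1 / 2 ^ ρ := by
          rw [pow_add, pow_add]
          field_simp
          norm_num
        rw [← k2]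
        exact mul_le_mul_of_nonneg_left k1 (by positivity)
      have hpos : (0 : ℝ) < 1 / 2 ^ w := by positivity
      have hpe : 1 / 2 ^ w ≤ 2 ^ e * ((1 : ℝ) / 2 ^ w) := le_mul_of_one_le_left hpos.le pe
      have hrt := Pool.PB.Trl.rt_mem (zmV F hP yy ε) w ω
      have hwt : |wt (zmV F hP yy ε) w ω σ - (zmV F hP yy ε).t ω| ≤ 1 / 2 ^ w := by
        have k1 := Pool.PB.Trl.t_rt (zmV F hP yy ε) hw ω
        unfold wt
        rw [k1]
        have k2 : ((slam (zmV F hP yy ε) w ω).2.2 : ℝ) / 2 ^ w + 1 / 2 ^ w * σ -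
            (((slam (zmV F hP yy ε) w ω).2.2 : ℝ) + Pool.PB.Trl.rt (zmV F hP yy ε) w ω) / 2 ^ w =
            1 / 2 ^ w * (σ - Pool.PB.Trl.rt (zmV F hP yy ε) w ω) := by ring
        rw [k2, abs_mul, abs_of_pos hpos]
        refine mul_le_of_le_one_right hpos.le ?_
        rw [abs_le]
        constructor <;> linarith [hrt.1, hrt.2, hσ.1, hσ.2]
      have hwp : ∀ i, |wp (zmV F hP yy ε) w ω σ i - (zmV F hP yy ε).x ω i| ≤ 1 / 2 ^ w := by
        intro i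
        rw [wp_eq (zmV F hP yy ε) hw]
        have k2 : (zmV F hP yy ε).x ω i + 1 / 2 ^ w * (σ - Pool.PB.Trl.rt (zmV F hP yy ε) w ω) *
            (zmV F hP yy ε).d ω i - (zmV F hP yy ε).x ω i =
            1 / 2 ^ w * ((σ - Pool.PB.Trl.rt (zmV F hP yy ε) w ω) * (zmV F hP yy ε).d ω i) := by
          ring
        rw [k2, abs_mul, abs_of_pos hpos]
        refine mul_le_of_le_one_right hpos.le ?_
        rw [abs_mul]
        refine mul_le_one₀ ?_ (abs_nonneg _) ((zmV F hP yy ε).dir ω i)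
        rw [abs_le]
        constructor <;> linarith [hrt.1, hrt.2, hσ.1, hσ.2]
      cases o with
      | none =>
        rw [hb'n, hbn]
        have k1 : bt (zmV F hP yy ε) ω none = (zmV F hP yy ε).t ω := rfl
        rw [k1]
        refine hwt.trans (le_trans ?_ hρ1)
        linarith
      | some i =>
        rw [hb's]
        split_ifs with hi
        · have k1 : bt (zmV F hP yy ε) ω (some i) = (zmV F hP yy ε).x ω i := rfl
          rw [k1]
          have k2 : |b (some i) - wp (zmV F hP yy ε) w ω σ i| ≤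
            if i = κ then 3 / 2 ^ w else 16 * 2 ^ e * (1 / 2 ^ w) := hb i hi
          have k3 := hwp i
          have k4 : (if i = κ then (3 : ℝ) / 2 ^ w else 16 * 2 ^ e * (1 / 2 ^ w)) ≤
              16 * 2 ^ e * (1 / 2 ^ w) := by
            split_ifs
            · have k5 : (3 : ℝ) / 2 ^ w = 3 * (1 / 2 ^ w) := by ring
              rw [k5]
              linarith
            · exact le_rfl
          have k6 : b (some i) - (zmV F hP yy ε).x ω i =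
            (b (some i) - wp (zmV F hP yy ε) w ω σ i) +
            (wp (zmV F hP yy ε) w ω σ i - (zmV F hP yy ε).x ω i) := by ring
          rw [k6]
          refine (abs_add_le _ _).trans (le_trans ?_ hρ1)
          linarith
        · rw [sub_self, abs_zero]
          positivity) (by
      intro ω ω' hω hω' h
      obtain ⟨c1, c2, c3⟩ := phz_ptr F hP yy ε h
      refine ⟨by rw [hφ, hφ, c2], hx ω ω' h κ, hx ω ω' h k, hd av cv k hv ω ω' hω hω' h,
        fun j hj hjκ => ?_⟩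
      have hjι : j = ι := by
        rcases Finset.mem_insert.1 hj with h' | h'
        · exact absurd h' hjκ
        · exact Finset.mem_singleton.1 h'
      subst hjι
      show |_ - _ - sl ω j * _| ≤ (if j = κ then 0 else μ) ∧
        |_ - _ - sl ω j * _| ≤ 2 ^ w * (if j = κ then 0 else μ)
      rw [if_neg hjκ, hslι ω j hjκ]
      refine ⟨?_, ?_⟩
      · have k1 : |au (ptr F J ω) * ((zmV F hP yy ε).x ω' κ - (zmV F hP yy ε).x ω κ)| ≤
            2 ^ e * (1 / 2 ^ R) := by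
          rw [abs_mul]
          exact mul_le_mul (hu ω hω).1 (hx ω ω' h κ) (abs_nonneg _) (by positivity)
        have k2 : 1 / 2 ^ R ≤ 2 ^ e * ((1 : ℝ) / 2 ^ R) :=
          le_mul_of_one_le_left (by positivity) pe
        refine (abs_sub _ _).trans ((add_le_add (hx ω ω' h j) k1).trans ?_)
        have k3 : (2 : ℝ) ^ e * (2 / 2 ^ R) = 2 * (2 ^ e * (1 / 2 ^ R)) := by ring
        have k4 : 0 ≤ E₁ / 2 ^ w := by positivity
        rw [hμ, k3]
        linarith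
      · refine (hd au cu j hu ω ω' hω hω' h).trans ?_
        have k1 : 2 ^ w * μ = E₁ + 2 ^ w * (2 ^ e * (2 / 2 ^ R)) := by
          rw [hμ, mul_add]
          field_simp
        rw [k1]
        have : (0 : ℝ) ≤ 2 ^ w * (2 ^ e * (2 / 2 ^ R)) := by positivity
        linarith) (fun ω hω => (hv ω hω).1) (by
      intro B₁ hB₁ hPB₁
      have hPB₁' : Pe F.p A / 2 ≤ Pe F.p B₁ := hPB₁
      have hB₁0 : 0 < Pe F.p B₁ := by linarith
      obtain ⟨B', b1, b2, b3⟩ := nod_of (F := zmV F hP yy ε) (K + 2) (B := B₁) hB₁0 (κ := κ)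
        (g := g) (Φ := phz F hP yy ε) (fun B₀ hB₀ hPB₀ => by
          refine hact B₀ (fun ω hω => hB₁ ω (hB₀ ω hω)) ?_
          have hPB₀' : Pe F.p B₁ / 2 < Pe F.p B₀ := hPB₀
          linarith)
      exact ⟨B', b1, b2, b3⟩)
  -- the slopes in the family
  have hcl : ∀ ω ω', slam F (B + w) ω = slam F (B + w) ω' →
      slam (zmV F hP yy ε) w ω = slam (zmV F hP yy ε) w ω' := fun ω ω' h =>
    Pool.GRW.zmV_of_slam F hP yy ε hB hw hyy h
  have hfac : ∀ f : LnT (zmV F hP yy ε) → ℝ, ∃ th : LnT F → ℝ, ∀ ω, th (slam F (B + w) ω) =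
      f (slam (zmV F hP yy ε) w ω) := by
    intro f
    refine ⟨fun s => if hs : ∃ ω, slam F (B + w) ω = s then
      f (slam (zmV F hP yy ε) w hs.choose) else 0, fun ω => ?_⟩
    have hs : ∃ ω', slam F (B + w) ω' = slam F (B + w) ω := ⟨ω, rfl⟩
    simp only [dif_pos hs]
    rw [hcl _ _ hs.choose_spec]
  obtain ⟨ga, hga⟩ := hfac (gsl w z₁' G₁ κ)
  obtain ⟨gb, hgb⟩ := hfac (gsl w z₁' G₁ ι)
  refine ⟨B', b1, b2, ga, gb, fun ω hω => ⟨?_, ?_⟩⟩
  · rw [hgb]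
    unfold gsl
    rw [gpt_eq (zmV F hP yy ε) hw]
    refine grad_box h₁ hw hρ (b1 ω hω) (σ := 0) ⟨le_rfl, zero_le_one⟩ rfl (fun i _ => ?_) ι
    show |wp (zmV F hP yy ε) w ω 0 i - wp (zmV F hP yy ε) w ω 0 i| ≤ _
    rw [sub_self, abs_zero]
    positivity
  rw [hga, hgb]
  have h1 := (b3 ω hω 0 ⟨le_rfl, zero_le_one⟩).2
  rw [← gpt_eq (zmV F hP yy ε) hw, Finset.sum_pair hκι, hslκ, hslι ω ι (Ne.symm hκι)] at h1
  have hιe : ({κ, ι} : Finset (Fin n)).erase κ = {ι} := by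
    ext j
    simp only [Finset.mem_erase, Finset.mem_insert, Finset.mem_singleton]
    constructor
    · rintro ⟨h1, h2 | h2⟩
      · exact absurd h2 h1
      · exact h2
    · intro h
      exact ⟨fun h' => hκι (h'.symm.trans h), Or.inr h⟩
  rw [hιe, Finset.sum_singleton, if_neg (Ne.symm hκι)] at h1
  have e1 : gsl w z₁' G₁ κ (slam (zmV F hP yy ε) w ω) +
      gsl w z₁' G₁ ι (slam (zmV F hP yy ε) w ω) * au (ptr F J ω) - av (ptr F J ω) =
      1 * eval (gpt w (slam (zmV F hP yy ε) w ω))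
        (pderiv (some κ) (G₁ (z₁' (slam (zmV F hP yy ε) w ω)))) +
      au (ptr F J ω) * eval (gpt w (slam (zmV F hP yy ε) w ω))
        (pderiv (some ι) (G₁ (z₁' (slam (zmV F hP yy ε) w ω)))) - av (ptr F J ω) := by
    unfold gsl
    ring
  rw [e1]
  refine h1.trans ?_
  have f1 : (1 : ℝ) / (1 / 2 ^ g) = 2 ^ g := by rw [one_div_one_div]
  rw [f1]
  have hX : Real.exp (C * (θ + 1)) ≤ Real.exp (16 * C * (θ + 1)) :=
    Real.exp_le_exp.2 (mul_le_mul_of_nonneg_right hC16 (by linarith))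
  obtain ⟨X, hXe⟩ : ∃ X, X = Real.exp (C * (θ + 1)) := ⟨_, rfl⟩
  obtain ⟨X', hXe'⟩ : ∃ X', X' = Real.exp (16 * C * (θ + 1)) := ⟨_, rfl⟩
  rw [← hXe, ← hXe'] at hX
  rw [← hXe, ← hXe', ← hR]
  have hX0 : 0 < X := by rw [hXe]; exact Real.exp_pos _
  obtain ⟨T₁, hT₁⟩ : ∃ T₁ : ℝ, T₁ = 2 ^ (2 * e + w) / 2 ^ R := ⟨_, rfl⟩
  obtain ⟨T₂, hT₂⟩ : ∃ T₂ : ℝ, T₂ = 2 ^ P * (2 ^ e / 2 ^ M) := ⟨_, rfl⟩
  have hT₁0 : 0 ≤ T₁ := by rw [hT₁]; positivity
  have hT₂0 : 0 ≤ T₂ := by rw [hT₂]; positivity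
  rw [← hT₁, ← hT₂]
  have k1 : 2 ^ w * (X / 2 ^ P₁) ≤ X' * 2 ^ w / 2 ^ P₁ := by
    have : 2 ^ w * (X / 2 ^ P₁) = X * (2 ^ w / 2 ^ P₁) := by ring
    have e2 : X' * 2 ^ w / 2 ^ P₁ = X' * (2 ^ w / 2 ^ P₁) := by ring
    rw [this, e2]
    exact mul_le_mul_of_nonneg_right hX (by positivity)
  have hE₁T : 2 ^ e * E₁ = 2 * T₂ := by
    rw [hE₁, hT₂]
    ring
  have k2 : 2 ^ w * (2 ^ e * (2 * μ)) = 4 * T₂ + 4 * T₁ := by
    have e2 : 2 ^ w * (2 ^ e * (2 * μ)) = 2 * (2 ^ e * E₁) +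
        4 * (2 ^ e * 2 ^ e * 2 ^ w / 2 ^ R) := by
      rw [hμ]
      field_simp
      ring
    rw [e2, hE₁T, hT₁, two_mul e, pow_add, pow_add]
    ring
  have k3 : (2 : ℝ) ^ w * ((1 + 2 ^ e) * (1 / 2 ^ R)) ≤ 2 * T₁ := by
    have e2 : (2 : ℝ) ^ w * ((1 + 2 ^ e) * (1 / 2 ^ R)) = (1 + 2 ^ e) * (2 ^ w / 2 ^ R) := by ring
    have e3 : 2 * T₁ = (2 * ((2 : ℝ) ^ e * 2 ^ e)) * (2 ^ w / 2 ^ R) := by
      rw [hT₁, two_mul e, pow_add, pow_add]
      ring
    rw [e2, e3]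
    refine mul_le_mul_of_nonneg_right ?_ (by positivity)
    nlinarith only [pe]
  have k4 : 2 ^ w * (1 / 2 ^ w * E₁) ≤ 2 * T₂ := by
    have e2 : 2 ^ w * (1 / 2 ^ w * E₁) = E₁ := by field_simp
    rw [e2, ← hE₁T]
    exact le_mul_of_one_le_left hE₁0 pe
  have k5 : 2 ^ w * (X / 2 ^ P₁ + 2 ^ e * (2 * μ) + (1 + 2 ^ e) * (1 / 2 ^ R) +
      1 / 2 ^ w * E₁) ≤ 16 * (X' * 2 ^ w / 2 ^ P₁ + T₁ + T₂) := by
    have e2 : 2 ^ w * (X / 2 ^ P₁ + 2 ^ e * (2 * μ) + (1 + 2 ^ e) * (1 / 2 ^ R) +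
      1 / 2 ^ w * E₁) = 2 ^ w * (X / 2 ^ P₁) + 2 ^ w * (2 ^ e * (2 * μ)) +
        2 ^ w * ((1 + 2 ^ e) * (1 / 2 ^ R)) + 2 ^ w * (1 / 2 ^ w * E₁) := by ring
    rw [e2, k2]
    have e3 : (0 : ℝ) ≤ X' * 2 ^ w / 2 ^ P₁ := by
      have : 0 ≤ X' := by linarith
      positivity
    linarith
  have e2 : 2 ^ w * (C * (2 ^ g) ^ (K + 1) * (X / 2 ^ P₁ + 2 ^ e * (2 * μ) +
      (1 + 2 ^ e) * (1 / 2 ^ R) + 1 / 2 ^ w * E₁)) = C * (2 ^ g) ^ (K + 1) *
      (2 ^ w * (X / 2 ^ P₁ + 2 ^ e * (2 * μ) + (1 + 2 ^ e) * (1 / 2 ^ R) +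
      1 / 2 ^ w * E₁)) := by ring
  have e3 : 16 * C * (2 ^ g) ^ (K + 1) * (X' * 2 ^ w / 2 ^ P₁ + T₁ + T₂) =
    C * (2 ^ g) ^ (K + 1) * (16 * (X' * 2 ^ w / 2 ^ P₁ + T₁ + T₂)) := by ring
  rw [e2, e3]
  exact mul_le_mul_of_nonneg_left k5 (by positivity)

end Pool.MIC6
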