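import Pool.Agent.H6.OWN.TieT
import Pool.Agent.H6.OWN.TieZ

/-!
# The velocities of a label over two coordinates on the fibres of the points

`fib_th`: two samples with nearly the same point: the difference of the velocities of `k`, minus
`th` times that of `ι`, is a multiple of the difference of the velocities of `κ`.
-/

set_option autoImplicit false

namespace Pool.MIC6

open Finset MvPolynomial
open Pool.Agent.H49.Ent Pool.Agent.H32.Dense Pool.STK Pool.KA Pool.KSAT Pool.K2S Pool.PB Pool.GEN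
open Pool.FLF (Fam.sub)
open Pool.GRD (LbP)

variable {n J : ℕ}

/-- The derivative of the label of a sample at its point. -/
noncomputable def gdp (F : Fam n J) {V : Type} (w : ℕ) (z' : LnT F → V)
    (G : V → MvPolynomial (Option (Fin n)) ℝ) (o : Option (Fin n)) (ω : F.Ω) : ℝ :=
  eval (bt F ω) (pderiv o (G (z' (slam F w ω))))

/-- The velocity of a label over two coordinates. -/
theorem vel_two {F : Fam n J} {A : F.Ω → Prop} {κ ι k : Fin n} (hκι : κ ≠ ι) {K e r w ρ P : ℕ}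
    {V : Type} {z : PtT F → V} {z' : LnT F → V} {G : V → MvPolynomial (Option (Fin n)) ℝ}
    (h : LbOK F {κ, ι} k K e r w ρ P A z z' G) {ω : F.Ω} (hω : A ω) :
    |F.d ω k - (gdp F w z' G none ω + (F.d ω κ * gdp F w z' G (some κ) ω +
      F.d ω ι * gdp F w z' G (some ι) ω))| ≤ 2 ^ w / 2 ^ P := by
  classical
  have h1 := h.vel ω hω
  have h2 : ∑ o, bd F ω o * eval (bt F ω) (pderiv o (G (z' (slam F w ω)))) =
      gdp F w z' G none ω + (F.d ω κ * gdp F w z' G (some κ) ω +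
      F.d ω ι * gdp F w z' G (some ι) ω) := by
    rw [Fintype.sum_option, ← Finset.sum_subset (Finset.subset_univ ({κ, ι} : Finset (Fin n))),
      Finset.sum_pair hκι]
    · show 1 * _ + _ = _
      rw [one_mul]
      rfl
    · intro i _ hi
      rw [pd_out (h.dep _) hi, mul_zero]
  rw [h2] at h1
  exact h1

/-- **The velocities on the fibres of the points.** -/
theorem fib_th (n K : ℕ) : ∃ C : ℝ, 1 ≤ C ∧ ∀ {J : ℕ} {F : Fam n J} {A : F.Ω → Prop}
    {κ ι k : Fin n} {e r w ρ P : ℕ} {V : Type} {z : PtT F → V} {z' : LnT F → V}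
    {G : V → MvPolynomial (Option (Fin n)) ℝ}, κ ≠ ι → LbOK F {κ, ι} k K e r w ρ P A z z' G →
    ∀ {ω ω' : F.Ω} {s₀ th ju μ : ℝ}, A ω → A ω' → ptr F r ω = ptr F r ω' → 0 < s₀ →
    s₀ ≤ 1 / 2 ^ ρ → (∀ j, |F.x ω' j - F.x ω j| ≤ s₀) →
    |F.d ω' ι - F.d ω ι - ju * (F.d ω' κ - F.d ω κ)| ≤ 2 ^ w * μ →
    |(F.d ω' k - th * F.d ω' ι) - (F.d ω k - th * F.d ω ι) - (gdp F w z' G (some κ) ω +
      ju * (gdp F w z' G (some ι) ω - th)) * (F.d ω' κ - F.d ω κ)| ≤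
      |gdp F w z' G (some ι) ω - th| * (2 ^ w * μ) + 2 * (2 ^ w / 2 ^ P) +
        3 * (C * 2 ^ e * (s₀ / (1 / 2 ^ ρ))) := by
  classical
  obtain ⟨C, hC, hmk⟩ := lip_mk n K
  refine ⟨C, hC, ?_⟩
  intro J F A κ ι k e r w ρ P V z z' G hκι h ω ω' s₀ th ju μ hω hω' hp hs hsρ hx hd
  have hT : F.T ω' = F.T ω := (congrArg (fun p : PtT F => p.2.1) hp).symm
  have hz : z' (slam F w ω') = z' (slam F w ω) := by
    rw [← h.cls _ hω', ← h.cls _ hω, hp]
  have hbt : ∀ o, |bt F ω' o - bt F ω o| ≤ s₀ := by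
    intro o
    cases o with
    | none =>
      show |F.t ω' - F.t ω| ≤ s₀
      have : F.t ω' = F.t ω := by
        unfold Fam.t
        rw [hT]
      rw [this, sub_self, abs_zero]
      exact hs.le
    | some j => exact hx j
  have hg : ∀ o, |gdp F w z' G o ω' - gdp F w z' G o ω| ≤ C * 2 ^ e * (s₀ / (1 / 2 ^ ρ)) := by
    intro o
    unfold gdp
    rw [hz]
    refine hmk (Pool.KS3.SML.totalDegree_pderiv_le o _ K ((h.deg _).trans (Nat.le_succ K)))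
      (by positivity) hs hsρ (fun b hb => h.lip ω hω b hb o) hbt
  have v1 := vel_two hκι h hω
  have v2 := vel_two hκι h hω'
  obtain ⟨L, hL⟩ : ∃ L, L = C * 2 ^ e * (s₀ / (1 / 2 ^ ρ)) := ⟨_, rfl⟩
  rw [← hL] at hg ⊢
  obtain ⟨g0, hg0⟩ : ∃ x, x = gdp F w z' G none ω := ⟨_, rfl⟩
  obtain ⟨g1, hg1⟩ : ∃ x, x = gdp F w z' G (some κ) ω := ⟨_, rfl⟩
  obtain ⟨g2, hg2⟩ : ∃ x, x = gdp F w z' G (some ι) ω := ⟨_, rfl⟩
  obtain ⟨g0', hg0'⟩ : ∃ x, x = gdp F w z' G none ω' := ⟨_, rfl⟩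
  obtain ⟨g1', hg1'⟩ : ∃ x, x = gdp F w z' G (some κ) ω' := ⟨_, rfl⟩
  obtain ⟨g2', hg2'⟩ : ∃ x, x = gdp F w z' G (some ι) ω' := ⟨_, rfl⟩
  have a0 := hg none
  have a1 := hg (some κ)
  have a2 := hg (some ι)
  rw [← hg0, ← hg0'] at a0
  rw [← hg1, ← hg1'] at a1
  rw [← hg2, ← hg2'] at a2
  rw [← hg0, ← hg1, ← hg2] at v1
  rw [← hg0', ← hg1', ← hg2'] at v2
  rw [← hg1, ← hg2]
  have e1 : (F.d ω' k - th * F.d ω' ι) - (F.d ω k - th * F.d ω ι) - (g1 + ju * (g2 - th)) *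
      (F.d ω' κ - F.d ω κ) = (g2 - th) * (F.d ω' ι - F.d ω ι - ju * (F.d ω' κ - F.d ω κ)) +
      ((F.d ω' k - (g0' + (F.d ω' κ * g1' + F.d ω' ι * g2'))) -
        (F.d ω k - (g0 + (F.d ω κ * g1 + F.d ω ι * g2)))) +
      ((g0' - g0) + F.d ω' κ * (g1' - g1) + F.d ω' ι * (g2' - g2)) := by ring
  rw [e1]
  have b1 : |(g2 - th) * (F.d ω' ι - F.d ω ι - ju * (F.d ω' κ - F.d ω κ))| ≤
      |g2 - th| * (2 ^ w * μ) := by
    rw [abs_mul]
    exact mul_le_mul_of_nonneg_left hd (abs_nonneg _)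
  have b2 : |(F.d ω' k - (g0' + (F.d ω' κ * g1' + F.d ω' ι * g2'))) -
      (F.d ω k - (g0 + (F.d ω κ * g1 + F.d ω ι * g2)))| ≤ 2 * (2 ^ w / 2 ^ P) := by
    rw [two_mul]
    exact (abs_sub _ _).trans (add_le_add v2 v1)
  have b3 : |F.d ω' κ * (g1' - g1)| ≤ L := by
    rw [abs_mul]
    calc |F.d ω' κ| * |g1' - g1| ≤ 1 * L := mul_le_mul (F.dir ω' κ) a1 (abs_nonneg _) zero_le_one
      _ = L := one_mul L
  have b4 : |F.d ω' ι * (g2' - g2)| ≤ L := by
    rw [abs_mul]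
    calc |F.d ω' ι| * |g2' - g2| ≤ 1 * L := mul_le_mul (F.dir ω' ι) a2 (abs_nonneg _) zero_le_one
      _ = L := one_mul L
  refine (abs_add_le _ _).trans (add_le_add ((abs_add_le _ _).trans (add_le_add b1 b2)) ?_)
  refine (abs_add_le _ _).trans ?_
  have := abs_add_le (g0' - g0) (F.d ω' κ * (g1' - g1))
  linarith

end Pool.MIC6
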