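import Pool.Agent.H6.OWN.Afm

/-!
# The velocities of a label on the fibres of the points, without a radius

`psi_eta`: the difference of a label and of an affine function is Lipschitz in the first coordinate.
`dir_psi`: the derivative of the label along one line at two near points. `fib_tr`: `fib_th` where
the ball of the gradient bound is replaced by the size of the difference on the natural box.
-/

set_option autoImplicit false

namespace Pool.MIC6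

open Finset MvPolynomial
open Pool.Agent.H49.Ent Pool.Agent.H32.Dense Pool.STK Pool.KA Pool.KSAT Pool.K2S Pool.PB Pool.GEN
open Pool.FLF (Fam.sub)
open Pool.GRD (LbP)
open Pool.PB.Trl (rt rt_mem t_rt)

variable {n J : ℕ}

/-- The difference is Lipschitz in the first coordinate. -/
theorem psi_eta (K : ℕ) (hK : 1 ≤ K) : ∃ C : ℝ, 1 ≤ C ∧ ∀ {n : ℕ}
    {G : MvPolynomial (Option (Fin n)) ℝ} {κ ι : Fin n} {t y x v a b c h H ξ S : ℝ},
    G.totalDegree ≤ K →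
    (∀ η ∈ Set.Icc (-4 : ℝ) 4, |psi κ ι G t y x v a b c h H η ξ| ≤ S) →
    ∀ η ∈ Set.Icc (-4 : ℝ) 4, ∀ η' ∈ Set.Icc (-4 : ℝ) 4,
      |psi κ ι G t y x v a b c h H η ξ - psi κ ι G t y x v a b c h H η' ξ| ≤
        C * S * |η - η'| := by
  obtain ⟨C, hC, hmk⟩ := pol_mk K
  refine ⟨C, hC, ?_⟩
  intro n G κ ι t y x v a b c h H ξ S hG hS
  obtain ⟨g, hg⟩ : ∃ g : Option (Fin n) → Polynomial ℝ, g = pli2 κ ι (aff t 0) (aff y h)
    (aff (x + H * ξ) (c * h)) := ⟨_, rfl⟩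
  have hgd : ∀ o, (g o).natDegree ≤ 1 := fun o => by
    rw [hg]
    exact natDegree_pli2 κ ι (natDegree_aff _ _) (natDegree_aff _ _) (natDegree_aff _ _) o
  have hge : ∀ x', (fun o => (g o).eval x') =
      bpt κ ι t (y + h * x') (x + c * (h * x') + H * ξ) := fun x' => by
    rw [hg, eval_pli2, eval_aff, eval_aff, eval_aff]
    congr 1
    · ring
    · ring
  obtain ⟨f, hf⟩ : ∃ f : Polynomial ℝ, f = MvPolynomial.aeval g G -
    aff (v + b * (H * ξ)) (a * h + b * (c * h)) := ⟨_, rfl⟩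
  have hfd : f.natDegree ≤ K := by
    rw [hf]
    refine (Polynomial.natDegree_sub_le _ _).trans (max_le ?_ ((natDegree_aff _ _).trans hK))
    exact Pool.KBX.natDegree_aeval_le _ _ hgd hG
  have hfe : ∀ x', f.eval x' = psi κ ι G t y x v a b c h H x' ξ := fun x' => by
    rw [hf, Polynomial.eval_sub, Pool.KBX.eval_aeval_poly, hge, eval_aff]
    unfold psi
    ring
  intro η hη η' hη'
  have h3 := (hmk f S hfd (fun x' hx' => by rw [hfe]; exact hS x' hx')).2 η hη η' hη'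
  rw [hfe, hfe] at h3
  exact h3

/-- The label at a point near the line, by the difference. -/
theorem psw_eval {K r w P : ℕ} {F : Fam n J} {A : F.Ω → Prop} {κ ι k : Fin n} {V : Type}
    {z : PtT F → V} {z' : LnT F → V} {G : V → MvPolynomial (Option (Fin n)) ℝ}
    {c H : ℝ} {ω : F.Ω} (hκι : κ ≠ ι) (hL : LbP F {κ, ι} k K r w P A z z' G)
    (hH : 0 < H) {σ η ξ : ℝ} {b : Option (Fin n) → ℝ} (hbn : b none = wt F w ω σ)
    (hη : 1 / 2 ^ w * η = b (some κ) - wp F w ω σ κ)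
    (hξ : H * ξ = b (some ι) - wp F w ω σ ι - c * (b (some κ) - wp F w ω σ κ)) :
    eval b (G (z' (slam F w ω))) = psw F κ ι k w z' G c H ω σ η ξ + (wp F w ω σ k +
      gsl w z' G κ (slam F w ω) * (b (some κ) - wp F w ω σ κ) +
      gsl w z' G ι (slam F w ω) * (b (some ι) - wp F w ω σ ι)) := by
  have k1 : eval b (G (z' (slam F w ω))) = eval (bpt κ ι (wt F w ω σ)
      (wp F w ω σ κ + 1 / 2 ^ w * η) (wp F w ω σ ι + c * (1 / 2 ^ w * η) + H * ξ))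
      (G (z' (slam F w ω))) := by
    refine hL.dep _ _ _ hbn fun i hi => ?_
    rcases Finset.mem_insert.1 hi with h | h
    · rw [h, hη]
      show _ = if κ = κ then wp F w ω σ κ + (b (some κ) - wp F w ω σ κ) else _
      rw [if_pos rfl]
      ring
    · rw [Finset.mem_singleton.1 h, hη, hξ]
      show _ = if ι = κ then _ else if ι = ι then wp F w ω σ ι +
        c * (b (some κ) - wp F w ω σ κ) +
        (b (some ι) - wp F w ω σ ι - c * (b (some κ) - wp F w ω σ κ)) else _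
      rw [if_neg (Ne.symm hκι), if_pos rfl]
      ring
  rw [k1]
  unfold psw psi
  rw [hη, hξ]
  ring

/-- **The derivative of the label along one line at two near points.** -/
theorem dir_psi (K : ℕ) (hK : 1 ≤ K) : ∃ C : ℝ, 1 ≤ C ∧ ∀ {n J : ℕ} {F : Fam n J}
    {A : F.Ω → Prop} {κ ι k : Fin n} {r w P : ℕ} {V : Type} {z : PtT F → V} {z' : LnT F → V}
    {G : V → MvPolynomial (Option (Fin n)) ℝ} {c H S s₀ μ ju : ℝ} {ω ω' : F.Ω}, κ ≠ ι →
    LbP F {κ, ι} k K r w P A z z' G → w ≤ J → 0 < H →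
    (∀ σ ∈ Set.Icc (0 : ℝ) 1, ∀ η ∈ Set.Icc (-4 : ℝ) 4, ∀ ξ ∈ Set.Icc (-4 : ℝ) 4,
      |psw F κ ι k w z' G c H ω σ η ξ| ≤ S) → ptr F r ω = ptr F r ω' →
    z' (slam F w ω') = z' (slam F w ω) → 0 ≤ s₀ → s₀ ≤ 1 / 2 ^ w →
    |F.x ω' κ - F.x ω κ| ≤ s₀ →
    |F.x ω' ι - F.x ω ι - ju * (F.x ω' κ - F.x ω κ)| ≤ μ →
    |F.d ω' ι - F.d ω ι - ju * (F.d ω' κ - F.d ω κ)| ≤ 2 ^ w * μ → 2 * μ ≤ H →
    |ju - c| * (1 / 2 ^ w) ≤ H →
    |(gdp F w z' G none ω' - gdp F w z' G none ω) +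
      F.d ω' κ * (gdp F w z' G (some κ) ω' - gdp F w z' G (some κ) ω) +
      F.d ω' ι * (gdp F w z' G (some ι) ω' - gdp F w z' G (some ι) ω)| ≤
      C * S * 2 ^ w * (2 * (s₀ * 2 ^ w) + μ / H) := by
  classical
  obtain ⟨C₁, hC₁, he₁⟩ := psi_eta K hK
  obtain ⟨C₂, hC₂, he₂⟩ := psi_mk K hK
  obtain ⟨C₃, hC₃, hmk⟩ := Pool.Agent.H40.BFL.unit_markov K
  refine ⟨C₃ * (C₁ * C₂), one_le_mul_of_one_le_of_one_le hC₃
    (one_le_mul_of_one_le_of_one_le hC₁ hC₂), ?_⟩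
  intro n J F A κ ι k r w P V z z' G c H S s₀ μ ju ω ω' hκι hL hw hH hS hp hz hs0 hs₀ hxκ hx hd
    hμH hJ
  have pw : (0 : ℝ) < 2 ^ w := by positivity
  have ph : (0 : ℝ) < 1 / 2 ^ w := by positivity
  have m0 : (0 : ℝ) ∈ Set.Icc (-4 : ℝ) 4 := ⟨by norm_num, by norm_num⟩
  have hS0 : 0 ≤ S := (abs_nonneg _).trans (hS 0 ⟨le_rfl, zero_le_one⟩ 0 m0 0 m0)
  have hT : F.T ω' = F.T ω := (congrArg (fun p : PtT F => p.2.1) hp).symm
  have hrt : rt F w ω' = rt F w ω := by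
    unfold rt
    rw [hT]
  have hs2 : (slam F w ω').2.2 = (slam F w ω).2.2 := by
    show F.T ω' / 2 ^ (J - w) = F.T ω / 2 ^ (J - w)
    rw [hT]
  have hwt : ∀ σ, wt F w ω' σ = wt F w ω σ := fun σ => by
    unfold wt
    rw [hs2]
  obtain ⟨Δx, hΔx⟩ : ∃ Δx, Δx = F.x ω' κ - F.x ω κ := ⟨_, rfl⟩
  obtain ⟨Δv, hΔv⟩ : ∃ Δv, Δv = F.x ω' ι - F.x ω ι := ⟨_, rfl⟩
  obtain ⟨ga, hga⟩ : ∃ ga, ga = gsl w z' G κ (slam F w ω) := ⟨_, rfl⟩
  obtain ⟨gb, hgb⟩ : ∃ gb, gb = gsl w z' G ι (slam F w ω) := ⟨_, rfl⟩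
  obtain ⟨G₀, hG₀⟩ : ∃ G₀, G₀ = G (z' (slam F w ω)) := ⟨_, rfl⟩
  obtain ⟨g', hg'⟩ : ∃ g' : Option (Fin n) → Polynomial ℝ, g' = lc w (slam F w ω') := ⟨_, rfl⟩
  obtain ⟨g, hg⟩ : ∃ g : Option (Fin n) → Polynomial ℝ, g = fun o =>
    lc w (slam F w ω') o - Polynomial.C (bt F ω' o - bt F ω o) := ⟨_, rfl⟩
  have hg'd : ∀ o, (g' o).natDegree ≤ 1 := fun o => by
    rw [hg']
    exact natDegree_lc w _ o
  have hgd : ∀ o, (g o).natDegree ≤ 1 := fun o => by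
    rw [hg]
    refine (Polynomial.natDegree_sub_le _ _).trans (max_le (natDegree_lc w _ o) ?_)
    rw [Polynomial.natDegree_C]
    exact Nat.zero_le _
  have hg'n : ∀ σ, (g' none).eval σ = wt F w ω σ := fun σ => by
    rw [hg', ← hwt]
    simp only [lc, Polynomial.eval_add, Polynomial.eval_mul, Polynomial.eval_C, Polynomial.eval_X]
    rfl
  have hg's : ∀ σ j, (g' (some j)).eval σ = wp F w ω' σ j := fun σ j => by
    rw [hg']
    simp only [lc, Polynomial.eval_add, Polynomial.eval_mul, Polynomial.eval_C, Polynomial.eval_X]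
    rfl
  have hgn : ∀ σ, (g none).eval σ = wt F w ω σ := fun σ => by
    have e1 : bt F ω' none - bt F ω none = 0 := by
      show F.t ω' - F.t ω = 0
      unfold Fam.t
      rw [hT, sub_self]
    rw [hg]
    show (lc w (slam F w ω') none - Polynomial.C (bt F ω' none - bt F ω none)).eval σ = _
    rw [e1, map_zero, sub_zero, ← hg'n, hg']
  have hgs : ∀ σ j, (g (some j)).eval σ = wp F w ω' σ j - (F.x ω' j - F.x ω j) := fun σ j => by
    rw [hg]
    show (lc w (slam F w ω') (some j) - Polynomial.C (bt F ω' (some j) -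
      bt F ω (some j))).eval σ = _
    rw [Polynomial.eval_sub, Polynomial.eval_C, ← hg's, hg']
    rfl
  obtain ⟨p, hpd⟩ : ∃ p : Polynomial ℝ, p = MvPolynomial.aeval g' G₀ -
    MvPolynomial.aeval g G₀ - Polynomial.C (ga * Δx + gb * Δv) := ⟨_, rfl⟩
  have hpdeg : p.natDegree ≤ K := by
    have hGd : G₀.totalDegree ≤ K := by rw [hG₀]; exact hL.deg _
    rw [hpd]
    refine (Polynomial.natDegree_sub_le _ _).trans (max_le ((Polynomial.natDegree_sub_le _ _).trans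
      (max_le (Pool.KBX.natDegree_aeval_le _ _ hg'd hGd)
        (Pool.KBX.natDegree_aeval_le _ _ hgd hGd))) ?_)
    rw [Polynomial.natDegree_C]
    exact Nat.zero_le _
  -- the bound on the window
  obtain ⟨M, hM⟩ : ∃ M, M = C₁ * C₂ * S * (2 * (s₀ * 2 ^ w) + μ / H) := ⟨_, rfl⟩
  have hbd : ∀ σ ∈ Set.Icc (0 : ℝ) 1, |p.eval σ| ≤ M := by
    intro σ hσ
    obtain ⟨x, hxx⟩ : ∃ x, x = 1 / 2 ^ w * (σ - rt F w ω) := ⟨_, rfl⟩
    have hτ : |x| ≤ 1 / 2 ^ w := by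
      rw [hxx, abs_mul, abs_of_pos ph]
      refine mul_le_of_le_one_right (by positivity) ?_
      have h1 := rt_mem F w ω
      rw [abs_le]
      constructor <;> linarith [h1.1, h1.2, hσ.1, hσ.2]
    have hwp : ∀ j, wp F w ω σ j = F.x ω j + x * F.d ω j := fun j => by
      rw [wp_eq F hw, hxx]
    have hwp' : ∀ j, wp F w ω' σ j = F.x ω' j + x * F.d ω' j := fun j => by
      rw [wp_eq F hw, hrt, hxx]
    obtain ⟨δd, hδd⟩ : ∃ δd, δd = F.d ω' κ - F.d ω κ := ⟨_, rfl⟩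
    obtain ⟨δe, hδe⟩ : ∃ δe, δe = F.d ω' ι - F.d ω ι := ⟨_, rfl⟩
    rw [← hΔx] at hxκ hx
    rw [← hΔv] at hx
    rw [← hδd, ← hδe] at hd
    have hd2 : |δd| ≤ 2 := by
      rw [hδd]
      exact (abs_sub _ _).trans (by linarith [F.dir ω' κ, F.dir ω κ])
    have hxd : |x * δd| ≤ 2 * (1 / 2 ^ w) := by
      rw [abs_mul, mul_comm]
      exact mul_le_mul hd2 hτ (abs_nonneg _) (by norm_num)
    have hxe : |x * (δe - ju * δd)| ≤ μ := by
      rw [abs_mul]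
      calc |x| * |δe - ju * δd| ≤ 1 / 2 ^ w * (2 ^ w * μ) :=
            mul_le_mul hτ hd (abs_nonneg _) (by positivity)
        _ = μ := by field_simp
    have hjx : |(ju - c) * (x * δd)| ≤ 2 * H := by
      rw [abs_mul]
      calc |ju - c| * |x * δd| ≤ |ju - c| * (2 * (1 / 2 ^ w)) :=
            mul_le_mul_of_nonneg_left hxd (abs_nonneg _)
        _ = 2 * (|ju - c| * (1 / 2 ^ w)) := by ring
        _ ≤ 2 * H := mul_le_mul_of_nonneg_left hJ (by norm_num)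
    have hjs : |(ju - c) * Δx| ≤ H * (s₀ * 2 ^ w) := by
      rw [abs_mul]
      calc |ju - c| * |Δx| ≤ |ju - c| * s₀ := mul_le_mul_of_nonneg_left hxκ (abs_nonneg _)
        _ = (|ju - c| * (1 / 2 ^ w)) * (s₀ * 2 ^ w) := by field_simp
        _ ≤ H * (s₀ * 2 ^ w) := mul_le_mul_of_nonneg_right hJ (by positivity)
    have hsw : s₀ * 2 ^ w ≤ 1 := by
      have h1 := mul_le_mul_of_nonneg_right hs₀ pw.le
      rwa [div_mul_cancel₀ _ pw.ne'] at h1
    have hHs : H * (s₀ * 2 ^ w) ≤ H := mul_le_of_le_one_right hH.le hsw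
    -- the two points
    obtain ⟨η₁, hη₁⟩ : ∃ η₁, η₁ = 2 ^ w * (Δx + x * δd) := ⟨_, rfl⟩
    obtain ⟨η₂, hη₂⟩ : ∃ η₂, η₂ = 2 ^ w * (x * δd) := ⟨_, rfl⟩
    obtain ⟨ξ₁, hξ₁⟩ : ∃ ξ₁, ξ₁ = ((Δv + x * δe) - c * (Δx + x * δd)) / H := ⟨_, rfl⟩
    obtain ⟨ξ₂, hξ₂⟩ : ∃ ξ₂, ξ₂ = (x * δe - c * (x * δd)) / H := ⟨_, rfl⟩
    have mη₁ : η₁ ∈ Set.Icc (-4 : ℝ) 4 := by
      refine abs_le.1 ?_
      rw [hη₁, abs_mul, abs_of_pos pw]
      have h1 : |Δx + x * δd| ≤ 3 * (1 / 2 ^ w) := by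
        refine (abs_add_le _ _).trans ?_
        linarith
      calc 2 ^ w * |Δx + x * δd| ≤ 2 ^ w * (3 * (1 / 2 ^ w)) := mul_le_mul_of_nonneg_left h1 pw.le
        _ = 3 := by field_simp
        _ ≤ 4 := by norm_num
    have mη₂ : η₂ ∈ Set.Icc (-4 : ℝ) 4 := by
      refine abs_le.1 ?_
      rw [hη₂, abs_mul, abs_of_pos pw]
      calc 2 ^ w * |x * δd| ≤ 2 ^ w * (2 * (1 / 2 ^ w)) := mul_le_mul_of_nonneg_left hxd pw.le
        _ = 2 := by field_simp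
        _ ≤ 4 := by norm_num
    have mξ₁ : ξ₁ ∈ Set.Icc (-4 : ℝ) 4 := by
      refine abs_le.1 ?_
      rw [hξ₁, abs_div, abs_of_pos hH, div_le_iff₀ hH]
      have e1 : Δv + x * δe - c * (Δx + x * δd) = (Δv - ju * Δx) + (ju - c) * Δx +
          x * (δe - ju * δd) + (ju - c) * (x * δd) := by ring
      rw [e1]
      have h1 := abs_add_le ((Δv - ju * Δx) + (ju - c) * Δx + x * (δe - ju * δd))
        ((ju - c) * (x * δd))
      have h2 := abs_add_le ((Δv - ju * Δx) + (ju - c) * Δx) (x * (δe - ju * δd))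
      have h3 := abs_add_le (Δv - ju * Δx) ((ju - c) * Δx)
      linarith
    have mξ₂ : ξ₂ ∈ Set.Icc (-4 : ℝ) 4 := by
      refine abs_le.1 ?_
      rw [hξ₂, abs_div, abs_of_pos hH, div_le_iff₀ hH]
      have e1 : x * δe - c * (x * δd) = x * (δe - ju * δd) + (ju - c) * (x * δd) := by ring
      rw [e1]
      have h1 := abs_add_le (x * (δe - ju * δd)) ((ju - c) * (x * δd))
      linarith
    have dη : |η₁ - η₂| ≤ s₀ * 2 ^ w := by
      rw [hη₁, hη₂]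
      have e1 : 2 ^ w * (Δx + x * δd) - 2 ^ w * (x * δd) = 2 ^ w * Δx := by ring
      rw [e1, abs_mul, abs_of_pos pw, mul_comm]
      exact mul_le_mul_of_nonneg_right hxκ pw.le
    have dξ : |ξ₁ - ξ₂| ≤ s₀ * 2 ^ w + μ / H := by
      have e1 : ξ₁ - ξ₂ = ((Δv - ju * Δx) + (ju - c) * Δx) / H := by
        rw [hξ₁, hξ₂]
        ring
      rw [e1, abs_div, abs_of_pos hH, div_le_iff₀ hH]
      have h3 := abs_add_le (Δv - ju * Δx) ((ju - c) * Δx)
      have e2 : (s₀ * 2 ^ w + μ / H) * H = H * (s₀ * 2 ^ w) + μ := by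
        rw [add_mul, div_mul_cancel₀ _ hH.ne']
        ring
      rw [e2]
      linarith
    -- the values
    have v1 := psw_eval (c := c) (H := H) (ω := ω) (σ := σ) (η := η₁) (ξ := ξ₁)
      (b := fun o => (g' o).eval σ) hκι hL hH (hg'n σ) (by
        show 1 / 2 ^ w * η₁ = (g' (some κ)).eval σ - wp F w ω σ κ
        rw [hg's, hwp, hwp', hη₁, hΔx, hδd]
        field_simp
        ring) (by
        show H * ξ₁ = (g' (some ι)).eval σ - wp F w ω σ ι - c * ((g' (some κ)).eval σ -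
          wp F w ω σ κ)
        rw [hg's, hg's, hwp, hwp', hwp, hwp', hξ₁, hΔx, hΔv, hδd, hδe]
        field_simp
        ring)
    have v2 := psw_eval (c := c) (H := H) (ω := ω) (σ := σ) (η := η₂) (ξ := ξ₂)
      (b := fun o => (g o).eval σ) hκι hL hH (hgn σ) (by
        show 1 / 2 ^ w * η₂ = (g (some κ)).eval σ - wp F w ω σ κ
        rw [hgs, hwp, hwp', hη₂, hδd]
        field_simp
        ring) (by
        show H * ξ₂ = (g (some ι)).eval σ - wp F w ω σ ι - c * ((g (some κ)).eval σ -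
          wp F w ω σ κ)
        rw [hgs, hgs, hwp, hwp', hwp, hwp', hξ₂, hδd, hδe]
        field_simp
        ring)
    have hpe : p.eval σ = (psw F κ ι k w z' G c H ω σ η₁ ξ₁ - psw F κ ι k w z' G c H ω σ η₂ ξ₁) +
        (psw F κ ι k w z' G c H ω σ η₂ ξ₁ - psw F κ ι k w z' G c H ω σ η₂ ξ₂) := by
      rw [hpd, Polynomial.eval_sub, Polynomial.eval_sub, Polynomial.eval_C,
        Pool.KBX.eval_aeval_poly, Pool.KBX.eval_aeval_poly, hG₀, v1, v2, ← hga, ← hgb]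
      show _ + (wp F w ω σ k + ga * ((g' (some κ)).eval σ - wp F w ω σ κ) +
        gb * ((g' (some ι)).eval σ - wp F w ω σ ι)) - (_ + (wp F w ω σ k +
        ga * ((g (some κ)).eval σ - wp F w ω σ κ) +
        gb * ((g (some ι)).eval σ - wp F w ω σ ι))) - (ga * Δx + gb * Δv) = _
      rw [hg's, hg's, hgs, hgs, hΔx, hΔv]
      ring
    have k1 : |psw F κ ι k w z' G c H ω σ η₁ ξ₁ - psw F κ ι k w z' G c H ω σ η₂ ξ₁| ≤
        C₁ * S * |η₁ - η₂| := he₁ (hL.deg _) (fun η hη => hS σ hσ η hη ξ₁ mξ₁) η₁ mη₁ η₂ mη₂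
    have k2 : |psw F κ ι k w z' G c H ω σ η₂ ξ₁ - psw F κ ι k w z' G c H ω σ η₂ ξ₂| ≤
        C₂ * S * |ξ₁ - ξ₂| := (he₂ (hL.deg _) hκι hH (fun ξ hξ => hS σ hσ η₂ mη₂ ξ hξ)).2
          ξ₁ mξ₁ ξ₂ mξ₂
    have k3 : C₁ * S * |η₁ - η₂| ≤ C₁ * C₂ * S * (s₀ * 2 ^ w) := by
      have h1 : C₁ * S ≤ C₁ * C₂ * S := by
        have : C₁ * S * 1 ≤ C₁ * S * C₂ := mul_le_mul_of_nonneg_left hC₂ (by positivity)
        linarith
      exact mul_le_mul h1 dη (abs_nonneg _) (by positivity)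
    have k4 : C₂ * S * |ξ₁ - ξ₂| ≤ C₁ * C₂ * S * (s₀ * 2 ^ w + μ / H) := by
      have h1 : C₂ * S ≤ C₁ * C₂ * S := by
        have : 1 * (C₂ * S) ≤ C₁ * (C₂ * S) := mul_le_mul_of_nonneg_right hC₁ (by positivity)
        linarith
      exact mul_le_mul h1 dξ (abs_nonneg _) (by positivity)
    rw [hpe, hM]
    refine (abs_add_le _ _).trans ?_
    have e1 : C₁ * C₂ * S * (2 * (s₀ * 2 ^ w) + μ / H) = C₁ * C₂ * S * (s₀ * 2 ^ w) +
        C₁ * C₂ * S * (s₀ * 2 ^ w + μ / H) := by ring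
    rw [e1]
    linarith
  have h1 := hmk p M hpdeg hbd (rt F w ω) (rt_mem F w ω)
  -- the derivative
  have hsum : ∀ b : Option (Fin n) → ℝ, ∑ o, eval b (pderiv o G₀) * (1 / 2 ^ w * bd F ω' o) =
      1 / 2 ^ w * (eval b (pderiv none G₀) + (F.d ω' κ * eval b (pderiv (some κ) G₀) +
        F.d ω' ι * eval b (pderiv (some ι) G₀))) := by
    intro b
    rw [Fintype.sum_option, ← Finset.sum_subset (Finset.subset_univ ({κ, ι} : Finset (Fin n))),
      Finset.sum_pair hκι]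
    · have e1 : bd F ω' none = 1 := rfl
      have e2 : ∀ j, bd F ω' (some j) = F.d ω' j := fun _ => rfl
      rw [e1, e2, e2]
      ring
    · intro i _ hi
      rw [hG₀, pd_out (hL.dep _) hi, zero_mul]
  have hder : p.derivative.eval (rt F w ω) = 1 / 2 ^ w *
      ((gdp F w z' G none ω' - gdp F w z' G none ω) +
      F.d ω' κ * (gdp F w z' G (some κ) ω' - gdp F w z' G (some κ) ω) +
      F.d ω' ι * (gdp F w z' G (some ι) ω' - gdp F w z' G (some ι) ω)) := by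
    have d1 : ∀ o, Polynomial.derivative (g' o) = Polynomial.C (1 / 2 ^ w * bd F ω' o) := by
      intro o
      rw [hg']
      exact der_lc F w ω' o
    have d2 : ∀ o, Polynomial.derivative (g o) = Polynomial.C (1 / 2 ^ w * bd F ω' o) := by
      intro o
      rw [hg]
      show Polynomial.derivative (lc w (slam F w ω') o - Polynomial.C (bt F ω' o - bt F ω o)) = _
      rw [Polynomial.derivative_sub, Polynomial.derivative_C, sub_zero, der_lc]
    have b1 : (fun o => (g' o).eval (rt F w ω)) = bt F ω' := by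
      funext o
      rw [hg', ← hrt]
      exact eval_lc F hw ω' o
    have b2 : (fun o => (g o).eval (rt F w ω)) = bt F ω := by
      funext o
      rw [hg]
      show (lc w (slam F w ω') o - Polynomial.C (bt F ω' o - bt F ω o)).eval (rt F w ω) = _
      rw [Polynomial.eval_sub, Polynomial.eval_C, ← hrt, eval_lc F hw ω' o]
      ring
    have s1 : (MvPolynomial.aeval g' G₀).derivative.eval (rt F w ω) =
        ∑ o, eval (bt F ω') (pderiv o G₀) * (1 / 2 ^ w * bd F ω' o) := by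
      rw [der_aevalσ, Polynomial.eval_finsetSum]
      refine Finset.sum_congr rfl fun o _ => ?_
      rw [Polynomial.eval_mul, Pool.KBX.eval_aeval_poly, b1, d1, Polynomial.eval_C]
    have s2 : (MvPolynomial.aeval g G₀).derivative.eval (rt F w ω) =
        ∑ o, eval (bt F ω) (pderiv o G₀) * (1 / 2 ^ w * bd F ω' o) := by
      rw [der_aevalσ, Polynomial.eval_finsetSum]
      refine Finset.sum_congr rfl fun o _ => ?_
      rw [Polynomial.eval_mul, Pool.KBX.eval_aeval_poly, b2, d2, Polynomial.eval_C]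
    rw [hpd, Polynomial.derivative_sub, Polynomial.derivative_sub, Polynomial.derivative_C,
      sub_zero, Polynomial.eval_sub, s1, s2, hsum, hsum]
    unfold gdp
    rw [hz, ← hG₀]
    ring
  rw [hder, abs_mul, abs_of_pos ph] at h1
  have h2 := mul_le_mul_of_nonneg_left h1 pw.le
  have e3 : ∀ y : ℝ, 2 ^ w * (1 / 2 ^ w * y) = y := fun y => by field_simp
  rw [e3] at h2
  refine h2.trans (le_of_eq ?_)
  rw [hM]
  ring

/-- **The velocities on the fibres of the points**, without a radius. -/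
theorem fib_tr (K : ℕ) (hK : 1 ≤ K) : ∃ C : ℝ, 1 ≤ C ∧ ∀ {n J : ℕ} {F : Fam n J} {A : F.Ω → Prop}
    {κ ι k : Fin n} {e r w ρ P : ℕ} {V : Type} {z : PtT F → V} {z' : LnT F → V}
    {G : V → MvPolynomial (Option (Fin n)) ℝ} {c H S : ℝ}, κ ≠ ι →
    LbOK F {κ, ι} k K e r w ρ P A z z' G → w ≤ J → 0 < H →
    ∀ {ω ω' : F.Ω} {s₀ th ju μ : ℝ},
    (∀ σ ∈ Set.Icc (0 : ℝ) 1, ∀ η ∈ Set.Icc (-4 : ℝ) 4, ∀ ξ ∈ Set.Icc (-4 : ℝ) 4,
      |psw F κ ι k w z' G c H ω σ η ξ| ≤ S) → A ω → A ω' → ptr F r ω = ptr F r ω' → 0 ≤ s₀ →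
    s₀ ≤ 1 / 2 ^ w → |F.x ω' κ - F.x ω κ| ≤ s₀ →
    |F.x ω' ι - F.x ω ι - ju * (F.x ω' κ - F.x ω κ)| ≤ μ →
    |F.d ω' ι - F.d ω ι - ju * (F.d ω' κ - F.d ω κ)| ≤ 2 ^ w * μ → 2 * μ ≤ H →
    |ju - c| * (1 / 2 ^ w) ≤ H → s₀ * 2 ^ w ≤ μ / H →
    |(F.d ω' k - th * F.d ω' ι) - (F.d ω k - th * F.d ω ι) - (gdp F w z' G (some κ) ω +
      ju * (gdp F w z' G (some ι) ω - th)) * (F.d ω' κ - F.d ω κ)| ≤
      |gdp F w z' G (some ι) ω - th| * (2 ^ w * μ) + 2 * (2 ^ w / 2 ^ P) +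
        C * S * (μ / H) * 2 ^ w := by
  classical
  obtain ⟨C, hC, hdir⟩ := dir_psi K hK
  refine ⟨3 * C, by linarith, ?_⟩
  intro n J F A κ ι k e r w ρ P V z z' G c H S hκι h hw hH ω ω' s₀ th ju μ hS hω hω' hp hs hsw hxκ
    hx hd hμH hJ hsμ
  have hz : z' (slam F w ω') = z' (slam F w ω) := by
    rw [← h.cls _ hω', ← h.cls _ hω, hp]
  have m0 : (0 : ℝ) ∈ Set.Icc (-4 : ℝ) 4 := ⟨by norm_num, by norm_num⟩
  have hS0 : 0 ≤ S := (abs_nonneg _).trans (hS 0 ⟨le_rfl, zero_le_one⟩ 0 m0 0 m0)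
  have b3 := hdir hκι (LbP.of h) hw hH hS hp hz hs hsw hxκ hx hd hμH hJ
  have b3' : C * S * 2 ^ w * (2 * (s₀ * 2 ^ w) + μ / H) ≤ 3 * C * S * (μ / H) * 2 ^ w := by
    have h1 : C * S * 2 ^ w * (2 * (s₀ * 2 ^ w) + μ / H) ≤ C * S * 2 ^ w * (3 * (μ / H)) :=
      mul_le_mul_of_nonneg_left (by linarith) (by positivity)
    refine h1.trans (le_of_eq ?_)
    ring
  have v1 := vel_two hκι h hω
  have v2 := vel_two hκι h hω'
  obtain ⟨L, hL⟩ : ∃ L, L = 3 * C * S * (μ / H) * 2 ^ w := ⟨_, rfl⟩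
  rw [← hL] at b3' ⊢
  obtain ⟨g0, hg0⟩ : ∃ x, x = gdp F w z' G none ω := ⟨_, rfl⟩
  obtain ⟨g1, hg1⟩ : ∃ x, x = gdp F w z' G (some κ) ω := ⟨_, rfl⟩
  obtain ⟨g2, hg2⟩ : ∃ x, x = gdp F w z' G (some ι) ω := ⟨_, rfl⟩
  obtain ⟨g0', hg0'⟩ : ∃ x, x = gdp F w z' G none ω' := ⟨_, rfl⟩
  obtain ⟨g1', hg1'⟩ : ∃ x, x = gdp F w z' G (some κ) ω' := ⟨_, rfl⟩
  obtain ⟨g2', hg2'⟩ : ∃ x, x = gdp F w z' G (some ι) ω' := ⟨_, rfl⟩
  rw [← hg0, ← hg0', ← hg1, ← hg1', ← hg2, ← hg2'] at b3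
  rw [← hg0, ← hg1, ← hg2] at v1
  rw [← hg0', ← hg1', ← hg2'] at v2
  rw [← hg1, ← hg2]
  have e1 : (F.d ω' k - th * F.d ω' ι) - (F.d ω k - th * F.d ω ι) - (g1 + ju * (g2 - th)) *
      (F.d ω' κ - F.d ω κ) = (g2 - th) * (F.d ω' ι - F.d ω ι - ju * (F.d ω' κ - F.d ω κ)) +
      ((F.d ω' k - (g0' + (F.d ω' κ * g1' + F.d ω' ι * g2'))) -
        (F.d ω k - (g0 + (F.d ω κ * g1 + F.d ω ι * g2)))) +
      ((g0' - g0) + F.d ω' κ * (g1' - g1) + F.d ω' ι * (g2' - g2)) := by ring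
  rw [e1]
  have b1 : |(g2 - th) * (F.d ω' ι - F.d ω ι - ju * (F.d ω' κ - F.d ω κ))| ≤
      |g2 - th| * (2 ^ w * μ) := by
    rw [abs_mul]
    exact mul_le_mul_of_nonneg_left hd (abs_nonneg _)
  have b2 : |(F.d ω' k - (g0' + (F.d ω' κ * g1' + F.d ω' ι * g2'))) -
      (F.d ω k - (g0 + (F.d ω κ * g1 + F.d ω ι * g2)))| ≤ 2 * (2 ^ w / 2 ^ P) := by
    rw [two_mul]
    exact (abs_sub _ _).trans (add_le_add v2 v1)
  exact (abs_add_le _ _).trans (add_le_add ((abs_add_le _ _).trans (add_le_add b1 b2))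
    (b3.trans b3'))

end Pool.MIC6
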