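import Pool.Agent.H6.OWN.Gsl

/-!
# A gain over two coordinates forces that the tied coordinate is not finer

`gain_low`: if the label of `v` over `y`, `u` in the zooms is better than the natural label of `v`
over `y`, then `u` is not finer than `v`.
-/

set_option autoImplicit false

namespace Pool.MIC6

open Finset MvPolynomial
open Pool.Agent.H49.Ent Pool.Agent.H32.Dense Pool.STK Pool.KA Pool.KSAT Pool.K2S Pool.PB Pool.GEN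
open Pool.S6C
open Pool.FLF (Fam.sub)
open Pool.GRD (LbP)
open Pool.REX

variable {m n J : ℕ}

/-- The window of the zoom in a smaller window of the family. -/
theorem zom_win (v : Vz m) {w W δ : ℝ} (hw0 : 0 < w) (hw1 : w < 1) (hδ : 0 < δ)
    (hW : v.tm w + δ ≤ W) (hW1 : W ≤ 1) {J : ℕ} (hJ : 100 ≤ δ * J) :
    v.B J + ⌊w * v.R J⌋₊ + 2 ≤ ⌊W * J⌋₊ ∧ ⌊W * J⌋₊ ≤ J := by
  have hJ0 : (0 : ℝ) ≤ J := Nat.cast_nonneg J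
  obtain ⟨r1, r2, r3, r4, r5⟩ := vz_real v J
  have f1 : (⌊w * (v.R J : ℝ)⌋₊ : ℝ) ≤ w * v.R J := Nat.floor_le (by positivity)
  have htm' : v.tm w = v.b + (1 - v.b) * (1 - v.p) * w := rfl
  have f2 : w * (v.R J : ℝ) ≤ w * ((1 - v.b) * (1 - v.p) * J + 2) :=
    mul_le_mul_of_nonneg_left r5 hw0.le
  have f3 : (v.tm w + δ) * J ≤ W * J := mul_le_mul_of_nonneg_right hW hJ0
  have f4 : W * (J : ℝ) - 1 < ⌊W * (J : ℝ)⌋₊ := Nat.sub_one_lt_floor _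
  constructor
  · rw [← Nat.cast_le (α := ℝ)]
    push_cast
    rw [htm'] at f3
    linarith only [r2, f1, f2, f3, f4, hJ, hw1, hw0]
  · refine Nat.floor_le_of_le ?_
    exact mul_le_of_le_one_left hJ0 hW1

/-- **A gain over two coordinates: the tied coordinate is not finer.** -/
theorem gain_low {S : PCl m} {C₀ : ℝ} (hC₀ : 0 ≤ C₀) (htm : TmC S C₀) (hne : S.Ne) (v : Vz m)
    (ε : Fin n → Fin m) {L : Finset (Fin m) → Fin m → ℝ → ℝ → ℝ} (hL : LamW S L)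
    {L' : Finset (Fin n) → Fin n → ℝ → ℝ → ℝ} (hL' : LamW (RecV S v ε) L')
    {κ ι k : Fin n} (hκι : κ ≠ ι) (hact : ActZ S v ε κ) (hactF : ActF S (ε κ))
    {w' w r' a₀ a : ℝ} (hw' : w' < w) (hr0 : 0 ≤ r') (hr' : r' < w) (hw0 : 0 < w) (hw1 : w < 1)
    (ha0 : 0 ≤ a₀) (ha : a₀ < a) (ha1 : a < 1) {V₂' W₂ D : ℝ}
    (hV₂ : V₂' < W₂) (hW₂ : v.tm w < W₂)
    (hD : D ≤ L {ε κ} (ε ι) a₀ a₀ - a - v.p * (1 - v.b))
    (hD' : D ≤ L {ε κ} (ε k) a₀ a₀ - a - v.p * (1 - v.b))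
    (hd3 : L {ε κ} (ε k) W₂ 0 - W₂ < D) (hd4 : L {ε κ} (ε ι) V₂' 0 - W₂ < D)
    (hg2 : L {ε κ} (ε k) W₂ 0 - W₂ < v.sc (L' {κ, ι} k w' r') - v.p * (1 - v.b) - v.tm w)
    (hp2 : W₂ < L {ε κ} (ε ι) V₂' 0) (hl2 : L {ε κ} (ε k) W₂ 0 < 1) :
    L {ε κ} (ε ι) V₂' 0 ≤ L {ε κ} (ε k) W₂ 0 := by
  classical
  by_contra hcon
  push Not at hcon
  have hb := v.b0
  have hb1 := v.b1
  have hp := v.p0
  have hpp1 := v.p1
  have hcp : 0 < (1 - v.b) * (1 - v.p) := mul_pos (by linarith) (by linarith)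
  have hpb : 0 ≤ v.p * (1 - v.b) := mul_nonneg hp (by linarith)
  have htw0 : 0 ≤ v.tm w := by
    have h1 : v.tm w = v.b + (1 - v.b) * (1 - v.p) * w := rfl
    rw [h1]
    have : 0 < (1 - v.b) * (1 - v.p) * w := mul_pos hcp hw0
    linarith
  obtain ⟨Λ, hΛ⟩ : ∃ Λ, Λ = v.sc (L' {κ, ι} k w' r') - v.p * (1 - v.b) - v.tm w := ⟨_, rfl⟩
  obtain ⟨x₂, hx₂⟩ : ∃ x, x = L {ε κ} (ε k) W₂ 0 := ⟨_, rfl⟩
  obtain ⟨y₂, hy₂⟩ : ∃ x, x = L {ε κ} (ε ι) V₂' 0 := ⟨_, rfl⟩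
  rw [← hx₂, ← hy₂] at hcon
  rw [← hx₂] at hd3 hg2 hl2
  rw [← hy₂] at hd4 hp2
  rw [← hΛ] at hg2
  have hy₂1 : y₂ ≤ 1 := by rw [hy₂]; exact hL.le1 _ _ _ _
  have hW₂1 : W₂ < 1 := by linarith
  have hx₂W : W₂ ≤ x₂ := by rw [hx₂]; exact hL.low _ _ _ _ hW₂1.le
  -- the small parameter
  obtain ⟨s₀, hs₀⟩ : ∃ s₀, s₀ = min (min (min 1 ((1 - v.b) * (1 - v.p) * (w - r')))
    (min (y₂ - x₂) (min (D - (x₂ - W₂)) (D - (y₂ - W₂))))) (min (Λ - (x₂ - W₂))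
      (min (y₂ - W₂) (min (1 - x₂) (W₂ - v.tm w)))) := ⟨_, rfl⟩
  have hs₀0 : 0 < s₀ := by
    rw [hs₀]
    refine lt_min (lt_min (lt_min one_pos (mul_pos hcp (by linarith))) (lt_min (by linarith)
      (lt_min (by linarith) (by linarith))))
      (lt_min (by linarith) (lt_min (by linarith) (lt_min (by linarith) (by linarith))))
  have c0 : s₀ ≤ 1 ∧ s₀ ≤ (1 - v.b) * (1 - v.p) * (w - r') ∧ s₀ ≤ y₂ - x₂ ∧
      s₀ ≤ D - (x₂ - W₂) ∧ s₀ ≤ D - (y₂ - W₂) ∧ s₀ ≤ Λ - (x₂ - W₂) ∧ s₀ ≤ y₂ - W₂ ∧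
      s₀ ≤ 1 - x₂ ∧ s₀ ≤ W₂ - v.tm w := by
    have := hs₀.le
    simp only [le_min_iff] at this
    tauto
  obtain ⟨c1, c2, c3, c4, c5, c6, c7, c8, c9⟩ := c0
  obtain ⟨s, hs⟩ : ∃ s, s = s₀ / 64 := ⟨_, rfl⟩
  have hs0 : 0 < s := by rw [hs]; linarith
  have hss : s₀ = 64 * s := by rw [hs]; ring
  -- the statements of the class
  have hrel := rel_bnd hC₀ htm v ε hL' hκι hact (k := k) (q := x₂ - W₂ + 8 * s) hw' hr0 hw0 hw1 hs0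
    (by linarith) (by linarith) (by linarith) (by rw [← hΛ]; linarith)
  have hnu := nat_cls hC₀ htm hL (v := ε ι) hactF hV₂ (by linarith) hs0
    (by rw [← hy₂]; linarith)
  obtain ⟨d₂, hd₂0, hav⟩ := abs_cls htm hL (y := ε κ) (v := ε k) (W := W₂) (s := s)
    (by linarith) hs0 (by rw [← hx₂]; exact hx₂W) (by rw [← hx₂]; linarith)
  obtain ⟨e, he⟩ : ∃ e, e = min d₂ (min s ((a - a₀) / 3)) := ⟨_, rfl⟩
  have he0 : 0 < e := by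
    rw [he]
    exact lt_min hd₂0 (lt_min hs0 (by linarith))
  have he2 : e ≤ d₂ := by rw [he]; exact min_le_left _ _
  have hes : e ≤ s := by rw [he]; exact (min_le_right _ _).trans (min_le_left _ _)
  have hea : a₀ + 3 * e ≤ a := by
    have : e ≤ (a - a₀) / 3 := by rw [he]; exact (min_le_right _ _).trans (min_le_right _ _)
    linarith
  have hdu := dp_cls hL (ε κ) (ε ι) ha0 ha ha1 he0 hea (by linarith)
  have hdv := dp_cls hL (ε κ) (ε k) ha0 ha ha1 he0 hea (by linarith)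
  obtain ⟨τ₁, hτ₁, J₁, b₁⟩ := hrel
  obtain ⟨τ₃, hτ₃, J₃, b₃⟩ := hnu
  obtain ⟨τ₅, hτ₅, J₅, b₅⟩ := hav e he0 he2
  obtain ⟨τ₆, hτ₆, J₆, b₆⟩ := hdu
  obtain ⟨τ₇, hτ₇, J₇, b₇⟩ := hdv
  rw [← hy₂] at b₃
  rw [← hx₂] at b₅
  obtain ⟨τ, hτ⟩ : ∃ τ, τ = min (min τ₁ (min τ₆ τ₇)) (min (τ₃ / 2) (τ₅ / 2)) := ⟨_, rfl⟩
  have hτ0 : 0 < τ := by
    rw [hτ]
    exact lt_min (lt_min hτ₁ (lt_min hτ₆ hτ₇)) (lt_min (by linarith) (by linarith))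
  have t0 : τ ≤ τ₁ ∧ τ ≤ τ₆ ∧ τ ≤ τ₇ ∧ τ ≤ τ₃ / 2 ∧ τ ≤ τ₅ / 2 := by
    have := hτ.le
    simp only [le_min_iff] at this
    tauto
  obtain ⟨t1, t6, t7, t3, t5⟩ := t0
  obtain ⟨J₈, hJ₈⟩ := exists_nat_ge (max ((100 : ℝ) / s) (Real.log 64 / τ))
  obtain ⟨J, hJ, F, A, hA⟩ := hne τ hτ0 (J₁ + J₃ + J₅ + J₆ + J₇ + J₈)
  have hJ8 : (J₈ : ℝ) ≤ J := by exact_mod_cast (by omega : J₈ ≤ J)
  have hJ0 : (0 : ℝ) ≤ J := Nat.cast_nonneg J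
  have q1 : (100 : ℝ) ≤ s * J := by
    have h1 := ((le_max_left _ _).trans hJ₈).trans hJ8
    rw [div_le_iff₀ hs0] at h1
    linarith only [h1]
  have hlog : Real.log 64 ≤ τ * J := by
    have h1 := ((le_max_right _ _).trans hJ₈).trans hJ8
    rw [div_le_iff₀ hτ0] at h1
    linarith only [h1]
  have hA0 := (htm τ J F A hτ0 hA).1
  obtain ⟨au, cu, hdu⟩ := b₆ J (by omega) F A (S.mono t6 hA)
  obtain ⟨av, cv, hdv⟩ := b₇ J (by omega) F A (S.mono t7 hA)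
  obtain ⟨M, hM⟩ : ∃ M, M = ⌊(D + v.p * (1 - v.b) - 4 * e) * J⌋₊ := ⟨_, rfl⟩
  have hdu' : Dp F A (ε κ) (ε ι) ⌊e * J⌋₊ M au cu := by
    refine hdu.mono le_rfl ?_
    rw [hM]
    exact Nat.floor_le_floor (mul_le_mul_of_nonneg_right (by linarith) hJ0)
  have hdv' : Dp F A (ε κ) (ε k) ⌊e * J⌋₊ M av cv := by
    refine hdv.mono le_rfl ?_
    rw [hM]
    exact Nat.floor_le_floor (mul_le_mul_of_nonneg_right (by linarith) hJ0)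
  have hMge : ∀ x : ℝ, x ≤ D + v.p * (1 - v.b) - 4 * e → ⌊x * J⌋₊ ≤ M := by
    intro x hx
    rw [hM]
    exact Nat.floor_le_floor (mul_le_mul_of_nonneg_right hx hJ0)
  have heJ : ⌊e * (J : ℝ)⌋₊ ≤ ⌊s * (J : ℝ)⌋₊ :=
    Nat.floor_le_floor (mul_le_mul_of_nonneg_right hes hJ0)
  obtain ⟨B, hBA, hPB, ga, gb, hB⟩ := b₁ J (by omega) F A (S.mono t1 hA) au cu av cv _ M heJ
    (hMge _ (by linarith)) hdu' hdv'
  have hres : ∀ (B' : F.Ω → Prop), Sub B' A → Pe F.p A ≤ 64 * Pe F.p B' →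
      S.St (2 * τ) J F B' := fun B' h1 h2 => res_of hτ0.le hA h1 (by norm_num) hlog h2
  obtain ⟨hw1', hw1''⟩ := zom_win v hw0 hw1 hs0 (W := W₂) (by linarith) hW₂1.le q1
  obtain ⟨φ, hφ⟩ := slam_fac F (by omega : v.B J + ⌊w * v.R J⌋₊ ≤ ⌊W₂ * J⌋₊) hw1''
  obtain ⟨B', e1, e2, j, e3⟩ := b₃ J (by omega) F B (S.mono (by linarith : 2 * τ ≤ τ₃)
    (hres B hBA (by linarith))) au cu _ M (hdu'.sub hBA) heJ (hMge _ (by linarith))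
  refine b₅ J (by omega) F B' (S.mono (by linarith : 2 * τ ≤ τ₅)
    (hres B' (fun ω hω => hBA ω (e1 ω hω)) (by linarith))) av cv M
    (hdv'.sub fun ω hω => hBA ω (e1 ω hω)) (hMge _ (by linarith))
    (fun s' => ga (φ s') + gb (φ s') * j s') ?_
  intro ω hω
  obtain ⟨h3, h1⟩ := hB ω (e1 ω hω)
  have h2 := e3 ω hω
  rw [hφ] at h1 h3
  refine rel_mul h1 h2 h3 ?_
  -- the exponents
  have hfl : ∀ x : ℝ, 0 ≤ x → (⌊x * (J : ℝ)⌋₊ : ℝ) ≤ x * J := fun x hx =>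
    Nat.floor_le (mul_nonneg hx hJ0)
  have hfl' : ∀ x : ℝ, x * (J : ℝ) - 1 < ⌊x * (J : ℝ)⌋₊ := fun x => Nat.sub_one_lt_floor _
  have k1 := hfl (x₂ - W₂ + s) (by linarith)
  have k2 := hfl' (x₂ - W₂ + 8 * s)
  have k3 := hfl' (y₂ - W₂ - 8 * s)
  have k4 := hfl s hs0.le
  have k5 : s₀ * J ≤ (y₂ - x₂) * J := mul_le_mul_of_nonneg_right c3 hJ0
  rw [hss] at k5
  have n1 : ⌊(x₂ - W₂ + s) * (J : ℝ)⌋₊ + 1 ≤ ⌊(x₂ - W₂ + 8 * s) * (J : ℝ)⌋₊ := by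
    rw [← Nat.cast_le (α := ℝ)]
    push_cast
    linarith only [k1, k2, q1]
  have n2 : ⌊s * (J : ℝ)⌋₊ + (⌊(x₂ - W₂ + s) * (J : ℝ)⌋₊ + 1) ≤
      ⌊(y₂ - W₂ - 8 * s) * (J : ℝ)⌋₊ := by
    rw [← Nat.cast_le (α := ℝ)]
    push_cast
    linarith only [k1, k3, k4, k5, q1]
  have e4 : (2 : ℝ) ^ ⌊s * (J : ℝ)⌋₊ * (1 / 2 ^ ⌊(y₂ - W₂ - 8 * s) * (J : ℝ)⌋₊) =
      2 ^ ⌊s * (J : ℝ)⌋₊ / 2 ^ ⌊(y₂ - W₂ - 8 * s) * (J : ℝ)⌋₊ := by ring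
  have e5 : (1 : ℝ) / 2 ^ (⌊(x₂ - W₂ + s) * (J : ℝ)⌋₊ + 1) +
      1 / 2 ^ (⌊(x₂ - W₂ + s) * (J : ℝ)⌋₊ + 1) = 1 / 2 ^ ⌊(x₂ - W₂ + s) * (J : ℝ)⌋₊ := by
    rw [pow_succ]
    field_simp
    norm_num
  rw [e4, ← e5]
  exact add_le_add (inv_mono n1) (pow_frac n2)

end Pool.MIC6
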