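import Pool.Agent.H63.LBW.Rem
import Pool.Agent.H95.GN.Lag
import Pool.Agent.H71.GEN.Vel

/-!
# Slopes of a polynomial from separated lines through one point

`slp_det`: a polynomial `G` in the time and one coordinate is close to the second coordinate on
`K + 2` lines through one point, with separated velocities. If the velocities of these lines are on
a line of slope `a`, the slope of `G` at the start of the window is close to `a`.
-/

set_option autoImplicit false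

namespace Pool.MIC6

open Finset MvPolynomial

variable {m : ℕ}

/-- The point with the time `t` and the coordinate `y`. -/
noncomputable def pnt (κ : Fin m) (t y : ℝ) : Option (Fin m) → ℝ
  | none => t
  | some i => if i = κ then y else 0

theorem pnt_none (κ : Fin m) (t y : ℝ) : pnt κ t y none = t := rfl

theorem pnt_some (κ : Fin m) (t y : ℝ) : pnt κ t y (some κ) = y := if_pos rfl

/-- The line of the time and one coordinate. -/
noncomputable def plin (κ : Fin m) (p q : Polynomial ℝ) : Option (Fin m) → Polynomial ℝ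
  | none => p
  | some i => if i = κ then q else 0

theorem eval_plin (κ : Fin m) (p q : Polynomial ℝ) (x : ℝ) :
    (fun o => (plin κ p q o).eval x) = pnt κ (p.eval x) (q.eval x) := by
  funext o
  cases o with
  | none => rfl
  | some i =>
    show (if i = κ then q else 0 : Polynomial ℝ).eval x = if i = κ then q.eval x else 0
    split_ifs
    · rfl
    · exact Polynomial.eval_zero

theorem natDegree_plin (κ : Fin m) {p q : Polynomial ℝ} (hp : p.natDegree ≤ 1)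
    (hq : q.natDegree ≤ 1) (o : Option (Fin m)) : (plin κ p q o).natDegree ≤ 1 := by
  cases o with
  | none => exact hp
  | some i =>
    show (if i = κ then q else 0 : Polynomial ℝ).natDegree ≤ 1
    split_ifs
    · exact hq
    · rw [Polynomial.natDegree_zero]
      exact Nat.zero_le _

/-- An affine polynomial. -/
noncomputable def aff (a b : ℝ) : Polynomial ℝ := Polynomial.C a + Polynomial.C b * Polynomial.X

theorem eval_aff (a b x : ℝ) : (aff a b).eval x = a + b * x := by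
  unfold aff
  simp only [Polynomial.eval_add, Polynomial.eval_mul, Polynomial.eval_C, Polynomial.eval_X]

theorem natDegree_aff (a b : ℝ) : (aff a b).natDegree ≤ 1 := by
  unfold aff
  refine (Polynomial.natDegree_add_le _ _).trans (max_le ?_ ?_)
  · rw [Polynomial.natDegree_C]
    exact Nat.zero_le _
  · exact (Polynomial.natDegree_C_mul_le _ _).trans Polynomial.natDegree_X_le

/-- The difference of a polynomial along a line and an affine function. -/
noncomputable def dvp (κ : Fin m) (G : MvPolynomial (Option (Fin m)) ℝ) (p q e : Polynomial ℝ) :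
    Polynomial ℝ := aeval (plin κ p q) G - e

theorem natDegree_dvp (κ : Fin m) {G : MvPolynomial (Option (Fin m)) ℝ} {K : ℕ}
    (hG : G.totalDegree ≤ K) {p q e : Polynomial ℝ} (hp : p.natDegree ≤ 1) (hq : q.natDegree ≤ 1)
    (he : e.natDegree ≤ 1) : (dvp κ G p q e).natDegree ≤ K + 1 := by
  unfold dvp
  refine (Polynomial.natDegree_sub_le _ _).trans (max_le ?_ (he.trans (by omega)))
  exact (Pool.KBX.natDegree_aeval_le _ _ (natDegree_plin κ hp hq) hG).trans (by omega)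

theorem eval_dvp (κ : Fin m) (G : MvPolynomial (Option (Fin m)) ℝ) (p q e : Polynomial ℝ)
    (x : ℝ) : (dvp κ G p q e).eval x = eval (pnt κ (p.eval x) (q.eval x)) G - e.eval x := by
  unfold dvp
  rw [Polynomial.eval_sub, Pool.KBX.eval_aeval_poly, eval_plin]

/-- Interpolation at indexed separated nodes. -/
theorem lagr_fin {D : ℕ} (r : Polynomial ℝ) (hr : r.natDegree ≤ D) (N : Fin (D + 1) → ℝ)
    {M B L s : ℝ} (hL : 0 < L) (hB : 0 ≤ B)
    (hsep : ∀ i j, i ≠ j → 1 / L ≤ |N i - N j|) (hs : ∀ i, |s - N i| ≤ B)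
    (hm : ∀ i, |r.eval (N i)| ≤ M) : |r.eval s| ≤ (D + 1) * (M * (B * L) ^ D) := by
  classical
  have hinj : Function.Injective N := by
    intro i j h
    by_contra hne
    have h1 := hsep i j hne
    rw [h, sub_self, abs_zero] at h1
    have : 0 < 1 / L := by positivity
    linarith
  refine Pool.LBW.lagr r hr (univ.image N) ?_ hL hB ?_ ?_ ?_
  · rw [Finset.card_image_of_injective _ hinj, Finset.card_univ, Fintype.card_fin]
  · intro a ha b hb hab
    obtain ⟨i, -, rfl⟩ := Finset.mem_image.1 ha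
    obtain ⟨j, -, rfl⟩ := Finset.mem_image.1 hb
    exact hsep i j fun h => hab (by rw [h])
  · intro b hb
    obtain ⟨i, -, rfl⟩ := Finset.mem_image.1 hb
    exact hs i
  · intro b hb
    obtain ⟨i, -, rfl⟩ := Finset.mem_image.1 hb
    exact hm i

/-- The lines through the point, at a time which is not close to the time of the point. -/
theorem slp_time {K : ℕ} {G : MvPolynomial (Option (Fin m)) ℝ} (hG : G.totalDegree ≤ K)
    (κ : Fin m) {t₀ h τ₀ ρ s₀ err α M₁ a y v d D : ℝ} {y' v' d' D' : Fin (K + 2) → ℝ}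
    (hh : 0 < h) (hρ : 0 < ρ) (hs : s₀ ≤ ρ * h / 16) (hρ1 : ρ ≤ 1)
    (hτ₀ : τ₀ ∈ Set.Icc (0 : ℝ) 1)
    (hd : |d| ≤ 1) (hd' : ∀ i, |d' i| ≤ 1) (hy : ∀ i, |y' i - y| ≤ s₀)
    (hv : ∀ i, |v' i - v| ≤ s₀) (hD : ∀ i, |D' i - D - a * (d' i - d)| ≤ err) (ha : |a| ≤ α)
    (hsep : ∀ i j, i ≠ j → ρ ≤ |d' i - d' j|)
    (hM : ∀ i, ∀ τ ∈ Set.Icc (0 : ℝ) 1, |v' i + h * (τ - τ₀) * D' i -
      eval (pnt κ (t₀ + h * τ) (y' i + h * (τ - τ₀) * d' i)) G| ≤ M₁)
    {τ η : ℝ} (hτ : τ ∈ Set.Icc (0 : ℝ) 1) (hττ : 1 / 4 ≤ |τ - τ₀|) (hη : |η| ≤ 1) :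
    |eval (pnt κ (t₀ + h * τ) (y + h * (τ - τ₀) * d + h * η)) G -
      ((v + h * (τ - τ₀) * D) + a * (h * η))| ≤
      (K + 2) * (32 / ρ) ^ (K + 1) * (M₁ + (1 + α) * s₀ + h * err) := by
  have hs0 : 0 ≤ s₀ := (abs_nonneg _).trans (hy 0)
  have he0 : 0 ≤ err := (abs_nonneg _).trans (hD 0)
  have hα : 0 ≤ α := (abs_nonneg _).trans ha
  have hlt : |τ - τ₀| ≤ 1 := by
    rw [abs_le]
    constructor <;> linarith [hτ.1, hτ.2, hτ₀.1, hτ₀.2]
  obtain ⟨x, hx⟩ : ∃ x, x = h * (τ - τ₀) := ⟨_, rfl⟩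
  have hxa : |x| = h * |τ - τ₀| := by rw [hx, abs_mul, abs_of_pos hh]
  have hx1 : |x| ≤ h := by rw [hxa]; exact mul_le_of_le_one_right hh.le hlt
  have hx4 : h / 4 ≤ |x| := by
    rw [hxa]
    have := mul_le_mul_of_nonneg_left hττ hh.le
    linarith
  have h1 := lagr_fin (D := K + 1)
    (dvp κ G (aff (t₀ + h * τ) 0) (aff 0 1) (aff (v + x * D - a * (y + x * d)) a))
    (natDegree_dvp κ hG (natDegree_aff _ _) (natDegree_aff _ _) (natDegree_aff _ _))
    (fun i => y' i + x * d' i) (M := M₁ + (1 + α) * s₀ + h * err) (B := 4 * h)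
    (L := 8 / (h * ρ)) (s := y + x * d + h * η) (by positivity) (by positivity) ?_ ?_ ?_
  · rw [eval_dvp, eval_aff, eval_aff, eval_aff] at h1
    have e1 : eval (pnt κ (t₀ + h * τ + 0 * (y + x * d + h * η)) (0 + 1 * (y + x * d + h * η))) G -
        (v + x * D - a * (y + x * d) + a * (y + x * d + h * η)) =
        eval (pnt κ (t₀ + h * τ) (y + x * d + h * η)) G - ((v + x * D) + a * (h * η)) := by
      rw [zero_mul, add_zero, zero_add, one_mul]
      ring
    rw [e1, hx] at h1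
    refine h1.trans (le_of_eq ?_)
    have e2 : 4 * h * (8 / (h * ρ)) = 32 / ρ := by
      field_simp
      ring
    rw [e2]
    push_cast
    ring
  · intro i j hij
    have h2 := hsep i j hij
    have e1 : (1 : ℝ) / (8 / (h * ρ)) = h * ρ / 8 := by field_simp
    rw [e1]
    show h * ρ / 8 ≤ |y' i + x * d' i - (y' j + x * d' j)|
    have e2 : y' i + x * d' i - (y' j + x * d' j) =
        x * (d' i - d' j) - ((y' j - y) - (y' i - y)) := by ring
    rw [e2]
    have h3 : |x * (d' i - d' j)| - |(y' j - y) - (y' i - y)| ≤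
        |x * (d' i - d' j) - ((y' j - y) - (y' i - y))| := abs_sub_abs_le_abs_sub _ _
    have h4 : |(y' j - y) - (y' i - y)| ≤ s₀ + s₀ :=
      (abs_sub _ _).trans (add_le_add (hy j) (hy i))
    have h5 : h / 4 * ρ ≤ |x * (d' i - d' j)| := by
      rw [abs_mul]
      exact mul_le_mul hx4 h2 hρ.le (abs_nonneg _)
    have e3 : h / 4 * ρ = ρ * h / 4 := by ring
    have e4 : h * ρ / 8 = ρ * h / 8 := by ring
    rw [e3] at h5
    rw [e4]
    linarith
  · intro i
    show |y + x * d + h * η - (y' i + x * d' i)| ≤ 4 * h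
    have e1 : y + x * d + h * η - (y' i + x * d' i) =
        x * (d - d' i) + (h * η - (y' i - y)) := by ring
    rw [e1]
    have h2 : |x * (d - d' i)| ≤ h * 2 := by
      rw [abs_mul]
      refine mul_le_mul hx1 ?_ (abs_nonneg _) hh.le
      exact (abs_sub _ _).trans (by linarith [hd' i])
    have h3 : |h * η - (y' i - y)| ≤ h + s₀ := by
      refine (abs_sub _ _).trans (add_le_add ?_ (hy i))
      rw [abs_mul, abs_of_pos hh]
      exact mul_le_of_le_one_right hh.le hη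
    have h4 : s₀ ≤ h := by
      refine hs.trans ?_
      have : ρ * h ≤ 1 * h := mul_le_mul_of_nonneg_right hρ1 hh.le
      linarith
    exact (abs_add_le _ _).trans (by linarith)
  · intro i
    rw [eval_dvp, eval_aff, eval_aff, eval_aff]
    rw [zero_mul, add_zero, zero_add, one_mul]
    have h2 := hM i τ hτ
    rw [← hx] at h2
    have e1 : eval (pnt κ (t₀ + h * τ) (y' i + x * d' i)) G -
        (v + x * D - a * (y + x * d) + a * (y' i + x * d' i)) =
        -(v' i + x * D' i - eval (pnt κ (t₀ + h * τ) (y' i + x * d' i)) G) +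
        (((v' i - v) - a * (y' i - y)) + x * (D' i - D - a * (d' i - d))) := by ring
    rw [e1]
    refine (abs_add_le _ _).trans ?_
    rw [abs_neg]
    have h3 : |(v' i - v) - a * (y' i - y)| ≤ (1 + α) * s₀ := by
      refine (abs_sub _ _).trans ?_
      rw [abs_mul]
      have := mul_le_mul ha (hy i) (abs_nonneg _) hα
      linarith [hv i]
    have h4 : |x * (D' i - D - a * (d' i - d))| ≤ h * err := by
      rw [abs_mul]
      exact mul_le_mul hx1 (hD i) (abs_nonneg _) hh.le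
    have h5 := abs_add_le ((v' i - v) - a * (y' i - y)) (x * (D' i - D - a * (d' i - d)))
    linarith

/-- **A polynomial on separated lines through one point**, at every time of the window. -/
theorem slp_key (K : ℕ) : ∃ C : ℝ, 1 ≤ C ∧ ∀ {m : ℕ} {G : MvPolynomial (Option (Fin m)) ℝ}
    (κ : Fin m) {t₀ h τ₀ ρ s₀ err α M₁ a y v d D : ℝ} {y' v' d' D' : Fin (K + 2) → ℝ},
    G.totalDegree ≤ K → 0 < h → 0 < ρ → s₀ ≤ ρ * h / 16 → ρ ≤ 1 →
    τ₀ ∈ Set.Icc (0 : ℝ) 1 → |d| ≤ 1 → (∀ i, |d' i| ≤ 1) → (∀ i, |y' i - y| ≤ s₀) →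
    (∀ i, |v' i - v| ≤ s₀) → (∀ i, |D' i - D - a * (d' i - d)| ≤ err) → |a| ≤ α →
    (∀ i j, i ≠ j → ρ ≤ |d' i - d' j|) →
    (∀ i, ∀ τ ∈ Set.Icc (0 : ℝ) 1, |v' i + h * (τ - τ₀) * D' i -
      eval (pnt κ (t₀ + h * τ) (y' i + h * (τ - τ₀) * d' i)) G| ≤ M₁) →
    ∀ σ ∈ Set.Icc (0 : ℝ) 1, ∀ η : ℝ, |η| ≤ 1 →
      |eval (pnt κ (t₀ + h * σ) (y + h * (σ - τ₀) * d + h * η)) G -
        ((v + h * (σ - τ₀) * D) + a * (h * η))| ≤
        C * (1 / ρ) ^ (K + 1) * (M₁ + (1 + α) * s₀ + h * err) := by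
  obtain ⟨C₁, hC₁, hlag⟩ := Pool.UNJ.lag1 (K + 1) 4
  refine ⟨C₁ * ((K + 2) * 32 ^ (K + 1)), ?_, ?_⟩
  · have h1 : (1 : ℝ) ≤ 32 ^ (K + 1) := one_le_pow₀ (by norm_num)
    have h2 : (1 : ℝ) ≤ K + 2 := by
      have : (0 : ℝ) ≤ K := Nat.cast_nonneg K
      linarith
    have h3 : (1 : ℝ) ≤ (K + 2) * 32 ^ (K + 1) := one_le_mul_of_one_le_of_one_le h2 h1
    exact one_le_mul_of_one_le_of_one_le hC₁ h3
  intro m G κ t₀ h τ₀ ρ s₀ err α M₁ a y v d D y' v' d' D' hG hh hρ hs hρ1 hτ₀ hd hd' hy hv hD ha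
    hsep hM
  obtain ⟨S, hS⟩ : ∃ S : ℝ, S = (K + 2) * (32 / ρ) ^ (K + 1) *
    (M₁ + (1 + α) * s₀ + h * err) := ⟨_, rfl⟩
  have e2 : C₁ * ((K + 2) * 32 ^ (K + 1)) * (1 / ρ) ^ (K + 1) *
      (M₁ + (1 + α) * s₀ + h * err) = C₁ * S := by
    have e3 : (32 / ρ) ^ (K + 1) = 32 ^ (K + 1) * (1 / ρ) ^ (K + 1) := by
      rw [← mul_pow]
      congr 1
      ring
    rw [hS, e3]
    ring
  rw [e2]
  intro σ hσ η hη
  obtain ⟨f, hf⟩ : ∃ f : Polynomial ℝ, f = dvp κ G (aff t₀ h)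
    (aff (y - h * τ₀ * d + h * η) (h * d)) (aff (v - h * τ₀ * D + a * (h * η)) (h * D)) :=
    ⟨_, rfl⟩
  have hfd : f.natDegree ≤ K + 1 := by
    rw [hf]
    exact natDegree_dvp κ hG (natDegree_aff _ _) (natDegree_aff _ _) (natDegree_aff _ _)
  have hfe : ∀ τ, f.eval τ = eval (pnt κ (t₀ + h * τ) (y + h * (τ - τ₀) * d + h * η)) G -
      ((v + h * (τ - τ₀) * D) + a * (h * η)) := by
    intro τ
    rw [hf, eval_dvp, eval_aff, eval_aff, eval_aff]
    have e1 : y - h * τ₀ * d + h * η + h * d * τ = y + h * (τ - τ₀) * d + h * η := by ring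
    rw [e1]
    ring
  have hft : ∀ τ ∈ Set.Icc (0 : ℝ) 1, 1 / 4 ≤ |τ - τ₀| → |f.eval τ| ≤ S := by
    intro τ hτ hττ
    rw [hfe, hS]
    exact slp_time hG κ hh hρ hs hρ1 hτ₀ hd hd' hy hv hD ha hsep hM hτ hττ hη
  rw [← hfe]
  have hcomp : ∀ c e : ℝ, (f.comp (aff c e)).natDegree ≤ K + 1 := by
    intro c e
    refine (Polynomial.natDegree_comp_le).trans ?_
    calc f.natDegree * (aff c e).natDegree ≤ (K + 1) * 1 :=
          Nat.mul_le_mul hfd (natDegree_aff _ _)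
      _ = K + 1 := mul_one _
  have hnode : ∀ i : Fin (K + 1 + 1), (0 : ℝ) ≤ ((i : ℕ) : ℝ) / ((K + 1 : ℕ) + 1) ∧
      ((i : ℕ) : ℝ) / ((K + 1 : ℕ) + 1) ≤ 1 := by
    intro i
    have h1 : ((i : ℕ) : ℝ) ≤ (K + 1 : ℕ) + 1 := by exact_mod_cast i.2.le
    exact ⟨by positivity, div_le_one_of_le₀ h1 (by positivity)⟩
  rcases le_total (1 / 2) τ₀ with h12 | h12
  · have h1 := hlag (f.comp (aff 0 (1 / 4))) S (hcomp _ _) (fun i => by
      rw [Polynomial.eval_comp, eval_aff]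
      obtain ⟨n1, n2⟩ := hnode i
      refine hft _ ⟨by linarith, by linarith⟩ ?_
      rw [abs_sub_comm, abs_of_nonneg (by linarith)]
      linarith) (4 * σ) ⟨by linarith [hσ.1], by linarith [hσ.2]⟩
    rw [Polynomial.eval_comp, eval_aff] at h1
    have e1 : (0 : ℝ) + 1 / 4 * (4 * σ) = σ := by ring
    rwa [e1] at h1
  · have h1 := hlag (f.comp (aff 1 (-(1 / 4)))) S (hcomp _ _) (fun i => by
      rw [Polynomial.eval_comp, eval_aff]
      obtain ⟨n1, n2⟩ := hnode i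
      refine hft _ ⟨by linarith, by linarith⟩ ?_
      rw [abs_of_nonneg (by linarith)]
      linarith) (4 * (1 - σ)) ⟨by linarith [hσ.2], by linarith [hσ.1]⟩
    rw [Polynomial.eval_comp, eval_aff] at h1
    have e1 : (1 : ℝ) + -(1 / 4) * (4 * (1 - σ)) = σ := by ring
    rwa [e1] at h1

/-- **The slope of a polynomial from separated lines through one point.** -/
theorem slp_det (K : ℕ) : ∃ C : ℝ, 1 ≤ C ∧ ∀ {m : ℕ} {G : MvPolynomial (Option (Fin m)) ℝ}
    (κ : Fin m) {t₀ h τ₀ ρ s₀ err α M₁ a y v d D : ℝ} {y' v' d' D' : Fin (K + 2) → ℝ},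
    G.totalDegree ≤ K → 0 < h → 0 < ρ → s₀ ≤ ρ * h / 16 → ρ ≤ 1 →
    τ₀ ∈ Set.Icc (0 : ℝ) 1 → |d| ≤ 1 → (∀ i, |d' i| ≤ 1) → (∀ i, |y' i - y| ≤ s₀) →
    (∀ i, |v' i - v| ≤ s₀) → (∀ i, |D' i - D - a * (d' i - d)| ≤ err) → |a| ≤ α →
    (∀ i j, i ≠ j → ρ ≤ |d' i - d' j|) →
    (∀ i, ∀ τ ∈ Set.Icc (0 : ℝ) 1, |v' i + h * (τ - τ₀) * D' i -
      eval (pnt κ (t₀ + h * τ) (y' i + h * (τ - τ₀) * d' i)) G| ≤ M₁) →
    |(eval (pnt κ t₀ (y - h * τ₀ * d + h)) G - eval (pnt κ t₀ (y - h * τ₀ * d)) G) / h - a| ≤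
      C * (1 / ρ) ^ (K + 1) * (M₁ / h + (1 + α) * s₀ / h + err) := by
  obtain ⟨C₁, hC₁, hkey⟩ := slp_key K
  refine ⟨2 * C₁, by linarith, ?_⟩
  intro m G κ t₀ h τ₀ ρ s₀ err α M₁ a y v d D y' v' d' D' hG hh hρ hs hρ1 hτ₀ hd hd' hy hv hD ha
    hsep hM
  have key := hkey κ hG hh hρ hs hρ1 hτ₀ hd hd' hy hv hD ha hsep hM
  obtain ⟨S, hS⟩ : ∃ S : ℝ, S = C₁ * (1 / ρ) ^ (K + 1) * (M₁ + (1 + α) * s₀ + h * err) :=
    ⟨_, rfl⟩
  rw [← hS] at key
  have k1 := key 0 ⟨le_rfl, zero_le_one⟩ 1 (by rw [abs_one])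
  have k0 := key 0 ⟨le_rfl, zero_le_one⟩ 0 (by rw [abs_zero]; norm_num)
  have c1 : h * (0 - τ₀) * d = -(h * τ₀ * d) := by ring
  have c2 : h * (0 - τ₀) * D = -(h * τ₀ * D) := by ring
  rw [c1, c2, mul_zero, add_zero, ← sub_eq_add_neg, ← sub_eq_add_neg] at k1 k0
  rw [mul_one] at k1
  rw [mul_zero, add_zero, add_zero] at k0
  have e1 : (eval (pnt κ t₀ (y - h * τ₀ * d + h)) G - eval (pnt κ t₀ (y - h * τ₀ * d)) G) / h - a =
      ((eval (pnt κ t₀ (y - h * τ₀ * d + h)) G - (v - h * τ₀ * D + a * h)) -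
      (eval (pnt κ t₀ (y - h * τ₀ * d)) G - (v - h * τ₀ * D))) / h := by
    field_simp
    ring
  rw [e1, abs_div, abs_of_pos hh, div_le_iff₀ hh]
  refine (abs_sub _ _).trans ?_
  have e4 : (M₁ / h + (1 + α) * s₀ / h + err) * h = M₁ + (1 + α) * s₀ + h * err := by
    field_simp
  have e2 : 2 * C₁ * (1 / ρ) ^ (K + 1) * (M₁ / h + (1 + α) * s₀ / h + err) * h = 2 * S := by
    rw [mul_assoc (2 * C₁ * (1 / ρ) ^ (K + 1)), e4, hS]
    ring
  rw [e2]
  linarith

end Pool.MIC6
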