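import Pool.Agent.H6.OWN.Glo
import Pool.Agent.H6.OWN.Afs
import Pool.Agent.H62.OWN.TrL

/-!
# A gain over two coordinates, in nested numbers

`gain_nes`: if the label of `v` over `y`, `u` in the zooms is better than the natural label of the
balls (over `y`, `u` as well), then the difference of the numbers of `v` over `y`, `u` and of `u`
over `y` does not depend on the window.
-/

set_option autoImplicit false

namespace Pool.MIC6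

open Finset MvPolynomial
open Pool.Agent.H49.Ent Pool.Agent.H32.Dense Pool.STK Pool.KA Pool.KSAT Pool.K2S Pool.PB Pool.GEN
open Pool.S6C
open Pool.FLF (Fam.sub)
open Pool.GRD (LbP)
open Pool.REX
open Pool.JVE (TrD tr_lev DpI)

variable {m n J : ℕ}

/-- **A gain over two coordinates, in nested numbers.** -/
theorem gain_nes {S : PCl m} {C₀ : ℝ} (hC₀ : 0 ≤ C₀) (htm : TmC S C₀) (hne : S.Ne) (v : Vz m)
    (ε : Fin n → Fin m) {L : Finset (Fin m) → Fin m → ℝ → ℝ → ℝ} (hL : LamW S L)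
    {L' : Finset (Fin n) → Fin n → ℝ → ℝ → ℝ} (hL' : LamW (RecV S v ε) L')
    {κ ι k : Fin n} (hκι : κ ≠ ι) (hεκι : ε κ ≠ ε ι) (hact : ActZ S v ε κ)
    (hactF : ActF S (ε κ))
    {w' w r' a₀ a : ℝ} (hw' : w' < w) (hr0 : 0 ≤ r') (hr' : r' < w) (hw0 : 0 < w) (hw1 : w < 1)
    (ha0 : 0 ≤ a₀) (ha : a₀ < a) (ha1 : a < 1) {W₁' W₁ r₁ V₂' W₂ r₂ D : ℝ} (hV₁ : W₁' < W₁)
    (hr₁ : 0 ≤ r₁) (hr₁' : r₁ < W₁) (hW₁ : v.tm w ≤ W₁) (hV₂ : V₂' < W₂) (hW₂ : v.tm w < W₂)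
    (hr₂ : 0 ≤ r₂) (hcont : ContinuousAt (fun W => L {ε κ} (ε ι) W 0) W₁)
    (hU₁ : W₁ < L {ε κ} (ε ι) W₁ 0) (hU₁' : L {ε κ} (ε ι) W₁ 0 < 1)
    (hD : D ≤ L {ε κ} (ε ι) a₀ a₀ - a - v.p * (1 - v.b))
    (hD' : D ≤ L {ε κ} (ε k) a₀ a₀ - a - v.p * (1 - v.b))
    (hd1 : L {ε κ, ε ι} (ε k) W₁' r₁ - W₁ < D)
    (hd3 : L {ε κ, ε ι} (ε k) W₂ r₂ - W₂ < D) (hd4 : L {ε κ} (ε ι) V₂' 0 - W₂ < D)
    (hg1 : L {ε κ, ε ι} (ε k) W₁' r₁ - W₁ <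
      v.sc (L' {κ, ι} k w' r') - v.p * (1 - v.b) - v.tm w)
    (hg2 : L {ε κ, ε ι} (ε k) W₂ r₂ - W₂ <
      v.sc (L' {κ, ι} k w' r') - v.p * (1 - v.b) - v.tm w)
    (hp2 : W₂ < L {ε κ} (ε ι) V₂' 0) (hl2 : L {ε κ, ε ι} (ε k) W₂ r₂ < 1) :
    L {ε κ, ε ι} (ε k) W₁' r₁ - L {ε κ} (ε ι) W₁ 0 ≤
      L {ε κ, ε ι} (ε k) W₂ r₂ - L {ε κ} (ε ι) V₂' 0 := by
  classical
  by_contra hcon
  push Not at hcon
  have hb := v.b0
  have hb1 := v.b1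
  have hp := v.p0
  have hpp1 := v.p1
  have hcp : 0 < (1 - v.b) * (1 - v.p) := mul_pos (by linarith) (by linarith)
  have hpb : 0 ≤ v.p * (1 - v.b) := mul_nonneg hp (by linarith)
  have htw0 : 0 < v.tm w := by
    have h1 : v.tm w = v.b + (1 - v.b) * (1 - v.p) * w := rfl
    rw [h1]
    have : 0 < (1 - v.b) * (1 - v.p) * w := mul_pos hcp hw0
    linarith
  -- the tied coordinate is not finer
  have hmono : L {ε κ} (ε k) W₂ 0 ≤ L {ε κ, ε ι} (ε k) W₂ r₂ :=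
    hL.mono _ _ _ _ _ _ _ (Finset.singleton_subset_iff.2 (Finset.mem_insert_self _ _)) le_rfl hr₂
  have hlow : L {ε κ} (ε ι) V₂' 0 ≤ L {ε κ, ε ι} (ε k) W₂ r₂ :=
    (gain_low hC₀ htm hne v ε hL hL' hκι hact hactF hw' hr0 hr' hw0 hw1 ha0 ha ha1 hV₂ hW₂ hD hD'
      (by linarith) hd4 (by linarith) hp2 (by linarith)).trans hmono
  obtain ⟨Λ, hΛ⟩ : ∃ Λ, Λ = v.sc (L' {κ, ι} k w' r') - v.p * (1 - v.b) - v.tm w := ⟨_, rfl⟩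
  obtain ⟨x₁, hx₁⟩ : ∃ x, x = L {ε κ, ε ι} (ε k) W₁' r₁ := ⟨_, rfl⟩
  obtain ⟨y₁, hy₁⟩ : ∃ x, x = L {ε κ} (ε ι) W₁ 0 := ⟨_, rfl⟩
  obtain ⟨x₂, hx₂⟩ : ∃ x, x = L {ε κ, ε ι} (ε k) W₂ r₂ := ⟨_, rfl⟩
  obtain ⟨y₂, hy₂⟩ : ∃ x, x = L {ε κ} (ε ι) V₂' 0 := ⟨_, rfl⟩
  rw [← hx₁, ← hy₁, ← hx₂, ← hy₂] at hcon
  rw [← hx₂, ← hy₂] at hlow
  rw [← hx₁] at hd1 hg1
  rw [← hy₁] at hU₁ hU₁'
  rw [← hx₂] at hd3 hg2 hl2
  rw [← hy₂] at hd4 hp2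
  rw [← hΛ] at hg1 hg2
  have hx₁1 : x₁ ≤ 1 := by rw [hx₁]; exact hL.le1 _ _ _ _
  have hW₁1 : W₁ < 1 := by linarith
  have hW₂1 : W₂ < 1 := by linarith
  have hx₂W : W₂ ≤ x₂ := by linarith
  have hx₁y₁ : y₁ < x₁ := by linarith
  -- the small parameter
  obtain ⟨s₀, hs₀⟩ : ∃ s₀, s₀ = min (min (min 1 ((1 - v.b) * (1 - v.p) * (w - r')))
    (min (x₁ - y₁ - (x₂ - y₂)) (min (D - (x₁ - W₁)) (min (D - (y₁ - W₁))
      (min (D - (x₂ - W₂)) (D - (y₂ - W₂))))))) (min (min (Λ - (x₁ - W₁)) (Λ - (x₂ - W₂)))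
      (min (min (y₁ - W₁) (y₂ - W₂)) (min (min (1 - y₁) (1 - x₂))
      (min (W₁ - r₁) (W₂ - v.tm w))))) := ⟨_, rfl⟩
  have hs₀0 : 0 < s₀ := by
    rw [hs₀]
    refine lt_min (lt_min (lt_min one_pos (mul_pos hcp (by linarith))) (lt_min (by linarith)
      (lt_min (by linarith) (lt_min (by linarith) (lt_min (by linarith) (by linarith))))))
      (lt_min (lt_min (by linarith) (by linarith)) (lt_min (lt_min (by linarith) (by linarith))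
      (lt_min (lt_min (by linarith) (by linarith)) (lt_min (by linarith) (by linarith)))))
  have c0 : s₀ ≤ 1 ∧ s₀ ≤ (1 - v.b) * (1 - v.p) * (w - r') ∧ s₀ ≤ x₁ - y₁ - (x₂ - y₂) ∧
      s₀ ≤ D - (x₁ - W₁) ∧ s₀ ≤ D - (y₁ - W₁) ∧ s₀ ≤ D - (x₂ - W₂) ∧ s₀ ≤ D - (y₂ - W₂) ∧
      s₀ ≤ Λ - (x₁ - W₁) ∧ s₀ ≤ Λ - (x₂ - W₂) ∧ s₀ ≤ y₁ - W₁ ∧ s₀ ≤ y₂ - W₂ ∧ s₀ ≤ 1 - y₁ ∧
      s₀ ≤ 1 - x₂ ∧ s₀ ≤ W₁ - r₁ ∧ s₀ ≤ W₂ - v.tm w := by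
    have := hs₀.le
    simp only [le_min_iff] at this
    tauto
  obtain ⟨c1, c2, c3, c4, c5, c6, c7, c8, c9, c10, c11, c12, c13, c14, c15⟩ := c0
  obtain ⟨s, hs⟩ : ∃ s, s = s₀ / 128 := ⟨_, rfl⟩
  have hs0 : 0 < s := by rw [hs]; linarith
  have hss : s₀ = 128 * s := by rw [hs]; ring
  clear hs₀
  -- the window for the comparison
  obtain ⟨η, hη, hηc⟩ := Metric.continuousAt_iff.1 hcont s hs0
  obtain ⟨o, hod⟩ : ∃ o, o = min s (η / 2) := ⟨_, rfl⟩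
  have ho0 : 0 < o := by rw [hod]; exact lt_min hs0 (by linarith)
  have ho1 : o ≤ s := by rw [hod]; exact min_le_left _ _
  have ho2 : o ≤ η / 2 := by rw [hod]; exact min_le_right _ _
  obtain ⟨Wm, hWm⟩ : ∃ W, W = W₁ + o := ⟨_, rfl⟩
  obtain ⟨ym, hym⟩ : ∃ U₂, U₂ = L {ε κ} (ε ι) Wm 0 := ⟨_, rfl⟩
  have hymy : |ym - y₁| < s := by
    have h1 := @hηc Wm (by
      rw [Real.dist_eq, hWm]
      have : W₁ + o - W₁ = o := by ring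
      rw [this, abs_of_pos ho0]
      linarith)
    rw [Real.dist_eq] at h1
    rw [hym, hy₁]
    exact h1
  rw [abs_lt] at hymy
  have hWm1 : Wm ≤ 1 := by rw [hWm]; linarith
  -- the transversality at the window `W₂`
  have hins : insert (ε ι) ({ε κ} : Finset (Fin m)) = {ε κ, ε ι} := Finset.pair_comm _ _
  obtain ⟨d₃, hd₃0, htr⟩ := tr_lev hL (Y := {ε κ}) (u := ε ι) (v := ε k)
    (fun h => hεκι (Finset.mem_singleton.1 h).symm) (W := W₂) (r := r₂) (s := s) (by linarith) hs0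
    (by rw [hins, ← hx₂]; exact hx₂W) (by rw [hins, ← hx₂]; linarith)
  rw [hins, ← hx₂] at htr
  obtain ⟨d₂, hd₂0, hnes⟩ := nes_cls htm hL (y := ε κ) (u := ε ι) (W := Wm) (s := s)
    (by rw [hWm]; linarith) hs0 (hL.low _ _ _ _ hWm1) (by rw [← hym]; linarith)
  rw [← hym] at hnes
  obtain ⟨et, het⟩ : ∃ et, et = min d₃ s := ⟨_, rfl⟩
  have het0 : 0 < et := by rw [het]; exact lt_min hd₃0 hs0
  have hetd : et ≤ d₃ := by rw [het]; exact min_le_left _ _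
  have hets : et ≤ s := by rw [het]; exact min_le_right _ _
  obtain ⟨δt, hδt, htr'⟩ := htr et het0 hetd
  obtain ⟨s', hs'⟩ : ∃ s', s' = et / 4 := ⟨_, rfl⟩
  have hs'0 : 0 < s' := by rw [hs']; linarith
  have hs's : 4 * s' ≤ s := by rw [hs']; linarith
  have hs'e : 4 * s' = et := by rw [hs']; ring
  obtain ⟨q, hq⟩ : ∃ q, q = max (x₁ - W₁) (x₂ - W₂) + 8 * s := ⟨_, rfl⟩
  have hq1 : x₁ - W₁ + 8 * s ≤ q := by rw [hq]; linarith [le_max_left (x₁ - W₁) (x₂ - W₂)]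
  have hq2 : x₂ - W₂ + 8 * s ≤ q := by rw [hq]; linarith [le_max_right (x₁ - W₁) (x₂ - W₂)]
  have hqΛ : q + 8 * s ≤ Λ := by
    rw [hq]
    rcases max_choice (x₁ - W₁) (x₂ - W₂) with h | h <;> rw [h] <;> linarith
  have hqD : q + 16 * s ≤ D := by
    rw [hq]
    rcases max_choice (x₁ - W₁) (x₂ - W₂) with h | h <;> rw [h] <;> linarith
  have hrel := rel_bnd hC₀ htm v ε hL' hκι hact (k := k) (s := s') (q := q) hw' hr0 hw0 hw1 hs'0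
    (by linarith) (by linarith) (by linarith) (by rw [← hΛ]; linarith)
  have hnu := nat_cls hC₀ htm hL (v := ε ι) hactF hV₂ (by linarith) hs0
    (by rw [← hy₂]; linarith)
  obtain ⟨eb, heb0, hbcl⟩ := aff_bcl hC₀ htm hL (κ := ε κ) (ι := ε ι) (k := ε k) hεκι hactF
    (W' := W₁') (W := W₁) (r' := r₁) (x := s) (q := x₁ - W₁ - s) hV₁ hr₁ hs0 (by linarith)
    (by linarith) (by rw [← hx₁]; linarith) hcont (by rw [← hy₁]; exact hU₁)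
    (by rw [← hy₁]; linarith)
  rw [← hy₁] at hbcl
  rw [← hy₂] at hnu
  obtain ⟨e, he⟩ : ∃ e, e = min (min d₂ s') (min eb ((a - a₀) / 3)) := ⟨_, rfl⟩
  have he0 : 0 < e := by
    rw [he]
    exact lt_min (lt_min hd₂0 hs'0) (lt_min heb0 (by linarith))
  have he2 : e ≤ d₂ := by rw [he]; exact (min_le_left _ _).trans (min_le_left _ _)
  have hes' : e ≤ s' := by rw [he]; exact (min_le_left _ _).trans (min_le_right _ _)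
  have heb : e ≤ eb := by rw [he]; exact (min_le_right _ _).trans (min_le_left _ _)
  have hea : a₀ + 3 * e ≤ a := by
    have : e ≤ (a - a₀) / 3 := by rw [he]; exact (min_le_right _ _).trans (min_le_right _ _)
    linarith
  have hdu := dp_cls hL (ε κ) (ε ι) ha0 ha ha1 he0 hea (by linarith)
  have hdv := dp_cls hL (ε κ) (ε k) ha0 ha ha1 he0 hea (by linarith)
  obtain ⟨τ₁, hτ₁, J₁, b₁⟩ := hrel
  obtain ⟨τ₂, hτ₂, J₂, b₂⟩ := hbcl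
  obtain ⟨τ₃, hτ₃, J₃, b₃⟩ := hnes e he0 he2
  obtain ⟨τ₄, hτ₄, J₄, b₄⟩ := hnu
  obtain ⟨τ₅, hτ₅, J₅, b₅⟩ := htr'
  obtain ⟨τ₆, hτ₆, J₆, b₆⟩ := hdu
  obtain ⟨τ₇, hτ₇, J₇, b₇⟩ := hdv
  obtain ⟨τ, hτ⟩ : ∃ τ, τ = min (min τ₁ (min τ₆ τ₇)) (min (min (τ₂ / 2) (τ₃ / 2))
    (min (τ₄ / 2) τ₅)) := ⟨_, rfl⟩
  have hτ0 : 0 < τ := by
    rw [hτ]
    exact lt_min (lt_min hτ₁ (lt_min hτ₆ hτ₇)) (lt_min (lt_min (by linarith) (by linarith))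
      (lt_min (by linarith) hτ₅))
  have t0 : τ ≤ τ₁ ∧ τ ≤ τ₆ ∧ τ ≤ τ₇ ∧ τ ≤ τ₂ / 2 ∧ τ ≤ τ₃ / 2 ∧ τ ≤ τ₄ / 2 ∧ τ ≤ τ₅ := by
    have := hτ.le
    simp only [le_min_iff] at this
    tauto
  obtain ⟨t1, t6, t7, t2, t3, t4, t5⟩ := t0
  clear hτ
  obtain ⟨J₈, hJ₈⟩ := exists_nat_ge (max ((100 : ℝ) / min o s') (max (Real.log 81920 / τ)
    ((Real.log 81920 + 1) / δt)))
  obtain ⟨J, hJ, F, A, hA⟩ := hne τ hτ0 (J₁ + J₂ + J₃ + J₄ + J₅ + J₆ + J₇ + J₈)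
  have hJ8 : (J₈ : ℝ) ≤ J := by exact_mod_cast (by omega : J₈ ≤ J)
  have hJ0 : (0 : ℝ) ≤ J := Nat.cast_nonneg J
  have q0 : (100 : ℝ) ≤ min o s' * J := by
    have h1 := ((le_max_left _ _).trans hJ₈).trans hJ8
    rw [div_le_iff₀ (lt_min ho0 hs'0)] at h1
    linarith only [h1]
  have q1 : (100 : ℝ) ≤ o * J := q0.trans (mul_le_mul_of_nonneg_right (min_le_left _ _) hJ0)
  have q2 : (100 : ℝ) ≤ s' * J := q0.trans (mul_le_mul_of_nonneg_right (min_le_right _ _) hJ0)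
  have hlog : Real.log 81920 ≤ τ * J := by
    have h1 := (((le_max_left _ _).trans (le_max_right _ _)).trans hJ₈).trans hJ8
    rw [div_le_iff₀ hτ0] at h1
    linarith only [h1]
  have hlog2 : Real.log 81920 + 1 ≤ δt * J := by
    have h1 := (((le_max_right _ _).trans (le_max_right _ _)).trans hJ₈).trans hJ8
    rw [div_le_iff₀ hδt] at h1
    linarith only [h1]
  have hA0 := (htm τ J F A hτ0 hA).1
  obtain ⟨au, cu, hdu⟩ := b₆ J (by omega) F A (S.mono t6 hA)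
  obtain ⟨av, cv, hdv⟩ := b₇ J (by omega) F A (S.mono t7 hA)
  obtain ⟨M, hM⟩ : ∃ M, M = ⌊(D + v.p * (1 - v.b) - 4 * e) * J⌋₊ := ⟨_, rfl⟩
  have hdu' : Dp F A (ε κ) (ε ι) ⌊e * J⌋₊ M au cu := by
    refine hdu.mono le_rfl ?_
    rw [hM]
    exact Nat.floor_le_floor (mul_le_mul_of_nonneg_right (by linarith) hJ0)
  have hdv' : Dp F A (ε κ) (ε k) ⌊e * J⌋₊ M av cv := by
    refine hdv.mono le_rfl ?_
    rw [hM]
    exact Nat.floor_le_floor (mul_le_mul_of_nonneg_right (by linarith) hJ0)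
  clear hdu hdv
  have hMge : ∀ x : ℝ, x ≤ D + v.p * (1 - v.b) - 4 * e → ⌊x * J⌋₊ ≤ M := by
    intro x hx
    rw [hM]
    exact Nat.floor_le_floor (mul_le_mul_of_nonneg_right hx hJ0)
  have hfm : ∀ {x y : ℝ}, x ≤ y → ⌊x * (J : ℝ)⌋₊ ≤ ⌊y * (J : ℝ)⌋₊ := fun h =>
    Nat.floor_le_floor (mul_le_mul_of_nonneg_right h hJ0)
  have hres : ∀ (B' : F.Ω → Prop), Sub B' A → Pe F.p A ≤ 81920 * Pe F.p B' →
      S.St (2 * τ) J F B' := fun B' h1 h2 => res_of hτ0.le hA h1 (by norm_num) hlog h2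
  -- the events
  obtain ⟨B₁, a1, p1, ga, gb, hB₁⟩ := b₁ J (by omega) F A (S.mono t1 hA) au cu av cv _ M
    (hfm hes') (hMge _ (by linarith)) hdu' hdv'
  have hB₁0 : 0 < Pe F.p B₁ := by linarith
  obtain ⟨B₂, a2, p2, V, zp, zs, cf, hB₂⟩ := b₂ J (by omega) F B₁ (S.mono (by linarith)
    (hres B₁ a1 (by linarith))) au cu av cv _ M (hfm heb) (hMge _ (by linarith))
    (hMge _ (by linarith)) (hdu'.sub a1) (hdv'.sub a1)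
  have a2' : Sub B₂ A := fun ω hω => a1 ω (a2 ω hω)
  have hB₂0 : 0 < Pe F.p B₂ := by linarith
  -- the windows
  obtain ⟨w1, w2⟩ := zom_win v hw0 hw1 ho0 (W := Wm) (by rw [hWm]; linarith) hWm1 q1
  obtain ⟨w3, w4⟩ := zom_win v hw0 hw1 ho0 (W := W₂) (by linarith) hW₂1.le q1
  have w5 : ⌊W₁ * (J : ℝ)⌋₊ + 2 ≤ ⌊Wm * (J : ℝ)⌋₊ := by
    rw [← Nat.cast_le (α := ℝ)]
    push_cast
    have h1 : (⌊W₁ * (J : ℝ)⌋₊ : ℝ) ≤ W₁ * J := Nat.floor_le (mul_nonneg (by linarith) hJ0)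
    have h2 : Wm * (J : ℝ) - 1 < ⌊Wm * (J : ℝ)⌋₊ := Nat.sub_one_lt_floor _
    have h3 : Wm * (J : ℝ) = W₁ * J + o * J := by rw [hWm]; ring
    linarith only [h1, h2, h3, q1]
  obtain ⟨gam, hgam⟩ := slam_fac' F (by omega : v.B J + ⌊w * v.R J⌋₊ ≤ ⌊Wm * J⌋₊) w2 ga
  obtain ⟨gbm, hgbm⟩ := slam_fac' F (by omega : v.B J + ⌊w * v.R J⌋₊ ≤ ⌊Wm * J⌋₊) w2 gb
  obtain ⟨ga₂, hga₂⟩ := slam_fac' F (by omega : v.B J + ⌊w * v.R J⌋₊ ≤ ⌊W₂ * J⌋₊) w4 ga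
  obtain ⟨gb₂, hgb₂⟩ := slam_fac' F (by omega : v.B J + ⌊w * v.R J⌋₊ ≤ ⌊W₂ * J⌋₊) w4 gb
  obtain ⟨gac, hgac⟩ := slam_fac' F w5 w2 (fun y => cf (zs y) 2)
  obtain ⟨gbc, hgbc⟩ := slam_fac' F w5 w2 (fun y => cf (zs y) 3)
  -- the exponents
  have hfl : ∀ x : ℝ, 0 ≤ x → (⌊x * (J : ℝ)⌋₊ : ℝ) ≤ x * J := fun x hx =>
    Nat.floor_le (mul_nonneg hx hJ0)
  have hfl' : ∀ x : ℝ, x * (J : ℝ) - 1 < ⌊x * (J : ℝ)⌋₊ := fun x => Nat.sub_one_lt_floor _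
  have hs's' : 4 * s' * (J : ℝ) ≤ s * J := mul_le_mul_of_nonneg_right hs's hJ0
  have hoJ : o * (J : ℝ) ≤ s * J := mul_le_mul_of_nonneg_right ho1 hJ0
  have hymJ : ym * (J : ℝ) ≤ (y₁ + s) * J := mul_le_mul_of_nonneg_right (by linarith) hJ0
  have hc3 : s₀ * J ≤ (x₁ - y₁ - (x₂ - y₂)) * J := mul_le_mul_of_nonneg_right c3 hJ0
  rw [hss] at hc3
  have hQ0 : 0 ≤ x₁ - y₁ - 8 * s := by linarith
  have hWmJ : Wm * (J : ℝ) = W₁ * J + o * J := by rw [hWm]; ring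
  have f1 := hfl (ym - Wm + s) (by rw [hWm]; linarith)
  have f2 := hfl (x₁ - y₁ - 8 * s) hQ0
  have f2' := hfl' (x₁ - y₁ - 8 * s)
  have f3 := hfl' (x₁ - W₁ - s - s)
  have f4 := hfl' q
  have f5 := hfl (x₂ - W₂ + s) (by linarith)
  have f6 := hfl' (y₂ - W₂ - 8 * s)
  have f7 := hfl' D
  have f8 := hfl s' hs'0.le
  have f9 := hfl' et
  have hq1J : (x₁ - W₁ + 8 * s) * J ≤ q * J := mul_le_mul_of_nonneg_right hq1 hJ0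
  have hq2J : (x₂ - W₂ + 8 * s) * J ≤ q * J := mul_le_mul_of_nonneg_right hq2 hJ0
  have n1 : ⌊(x₁ - y₁ - 8 * s) * (J : ℝ)⌋₊ + ⌊(ym - Wm + s) * (J : ℝ)⌋₊ + 1 ≤
      ⌊(x₁ - W₁ - s - s) * (J : ℝ)⌋₊ := by
    rw [← Nat.cast_le (α := ℝ)]
    push_cast
    linarith only [f1, f2, f3, hymJ, hWmJ, q1, hoJ]
  have n2 : ⌊(x₁ - y₁ - 8 * s) * (J : ℝ)⌋₊ + ⌊(ym - Wm + s) * (J : ℝ)⌋₊ + 1 ≤
      ⌊q * (J : ℝ)⌋₊ := by
    rw [← Nat.cast_le (α := ℝ)]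
    push_cast
    linarith only [f1, f2, f4, hymJ, hWmJ, q1, hoJ, hq1J]
  have n3 : ⌊(x₂ - W₂ + s) * (J : ℝ)⌋₊ ≤ ⌊(y₂ - W₂ - 8 * s) * (J : ℝ)⌋₊ +
      ⌊(x₁ - y₁ - 8 * s) * (J : ℝ)⌋₊ := by
    rw [← Nat.cast_le (α := ℝ)]
    push_cast
    linarith only [f5, f6, f2', hc3, q1, hoJ]
  have n4 : ⌊(x₂ - W₂ + s) * (J : ℝ)⌋₊ ≤ ⌊q * (J : ℝ)⌋₊ := hfm (by linarith)
  have n5 : ⌊(x₂ - W₂ + s) * (J : ℝ)⌋₊ + (⌊s' * (J : ℝ)⌋₊ + 2) ≤ M := by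
    have h1 : ⌊(x₂ - W₂ + s) * (J : ℝ)⌋₊ + (⌊s' * (J : ℝ)⌋₊ + 2) ≤
        ⌊(x₂ - W₂ + 8 * s) * (J : ℝ)⌋₊ := by
      rw [← Nat.cast_le (α := ℝ)]
      push_cast
      have f10 := hfl' (x₂ - W₂ + 8 * s)
      linarith only [f5, f8, f10, hs's', q2]
    exact h1.trans (hMge _ (by linarith))
  have n6 : ⌊s' * (J : ℝ)⌋₊ + 2 ≤ ⌊et * (J : ℝ)⌋₊ := by
    rw [← Nat.cast_le (α := ℝ)]
    push_cast
    have h1 : et * (J : ℝ) = 4 * s' * J := by rw [hs'e]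
    linarith only [f8, f9, h1, q2]
  -- the coefficient is near to a function of the exact point
  obtain ⟨B₃, a3, p3, hB₃⟩ := b₃ J (by omega) F B₂ (S.mono (by linarith) (hres B₂ a2' (by
      linarith))) au cu av M (hdu'.sub a2') (hMge _ (by rw [hWm]; linarith)) gam gbm gac gbc
    (1 / 2 ^ ⌊(x₁ - y₁ - 8 * s) * (J : ℝ)⌋₊) (1 / 2 ^ ⌊q * (J : ℝ)⌋₊)
    (1 / 2 ^ ⌊(x₁ - W₁ - s - s) * (J : ℝ)⌋₊) (by positivity) (by
      have e3 : (1 : ℝ) / 2 ^ ⌊q * (J : ℝ)⌋₊ ≤ 1 / 2 ^ (⌊(x₁ - y₁ - 8 * s) * (J : ℝ)⌋₊ +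
          ⌊(ym - Wm + s) * (J : ℝ)⌋₊ + 1) := inv_mono n2
      have e4 : (1 : ℝ) / 2 ^ ⌊(x₁ - W₁ - s - s) * (J : ℝ)⌋₊ ≤
          1 / 2 ^ (⌊(x₁ - y₁ - 8 * s) * (J : ℝ)⌋₊ + ⌊(ym - Wm + s) * (J : ℝ)⌋₊ + 1) :=
        inv_mono n1
      have e5 : (1 : ℝ) / 2 ^ ⌊(x₁ - y₁ - 8 * s) * (J : ℝ)⌋₊ =
          (1 / 2 ^ (⌊(x₁ - y₁ - 8 * s) * (J : ℝ)⌋₊ + ⌊(ym - Wm + s) * (J : ℝ)⌋₊ + 1) +
          1 / 2 ^ (⌊(x₁ - y₁ - 8 * s) * (J : ℝ)⌋₊ + ⌊(ym - Wm + s) * (J : ℝ)⌋₊ + 1)) *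
          2 ^ ⌊(ym - Wm + s) * (J : ℝ)⌋₊ := by
        rw [pow_succ, pow_add]
        field_simp
        norm_num
      rw [e5]
      exact mul_le_mul_of_nonneg_right (add_le_add e3 e4) (by positivity)) (fun ω hω => by
      have h1 := (hB₁ ω (a2 ω hω)).2
      rw [hgam ω, hgbm ω] at h1
      exact h1) (fun ω hω => by
      have h1 := (hB₂.2 ω hω).2.1
      rw [show cf (zs (slam F (⌊W₁ * (J : ℝ)⌋₊ + 2) ω)) 2 = gac (slam F ⌊Wm * (J : ℝ)⌋₊ ω) from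
        hgac ω, show cf (zs (slam F (⌊W₁ * (J : ℝ)⌋₊ + 2) ω)) 3 =
        gbc (slam F ⌊Wm * (J : ℝ)⌋₊ ω) from hgbc ω] at h1
      exact h1)
  have hB₃0 : 0 < Pe F.p B₃ := by linarith
  have a3' : Sub B₃ A := fun ω hω => a2' ω (a3 ω hω)
  -- the natural slope
  obtain ⟨B₄, a4, p4, j, hB₄⟩ := b₄ J (by omega) F B₃ (S.mono (by linarith) (hres B₃ a3' (by
      linarith))) au cu _ M (hdu'.sub a3') (hfm (by linarith)) (hMge _ (by linarith))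
  have a4' : Sub B₄ A := fun ω hω => a3' ω (a4 ω hω)
  have hB₄0 : 0 < Pe F.p B₄ := by linarith
  -- the transversality
  have hpe : (2 : ℝ) ^ ⌊e * (J : ℝ)⌋₊ ≤ 2 ^ ⌊et * (J : ℝ)⌋₊ :=
    pow_le_pow_right₀ (by norm_num) (hfm (by linarith))
  have key := b₅ J (by omega) F A (S.mono t5 hA) B₄ ⌊(x₂ - W₂ + s) * (J : ℝ)⌋₊
    ⌊(y₂ - W₂ - 8 * s) * (J : ℝ)⌋₊ ⌊(x₁ - y₁ - 8 * s) * (J : ℝ)⌋₊ (fun p _ => au p)
    (fun p _ => av p) cu cv gb₂ (fun y _ => ga₂ y) (fun y _ => j y)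
    (2 ^ (⌊s' * (J : ℝ)⌋₊ + 2)) a4'
    { bd := fun ω hω => ⟨fun i _ => ⟨((hdu' ω (a4' ω hω)).1).trans hpe,
        ((hdv' ω (a4' ω hω)).1).trans hpe⟩, ((hdu' ω (a4' ω hω)).2.1).trans hpe,
        ((hdv' ω (a4' ω hω)).2.1).trans hpe⟩
      slo := fun ω hω => by
        have h1 := (hB₁ ω (a2 ω (a3 ω (a4 ω hω)))).1
        rw [hgb₂ ω] at h1
        have h2 : (2 : ℝ) / 2 ^ ⌊(x₁ - y₁ - 8 * s) * (J : ℝ)⌋₊ ≤ 2 := by
          rw [div_le_iff₀ (by positivity)]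
          have h3 : (1 : ℝ) ≤ 2 ^ ⌊(x₁ - y₁ - 8 * s) * (J : ℝ)⌋₊ := one_le_pow₀ (by norm_num)
          linarith only [h3]
        have h3 : (1 : ℝ) ≤ 2 ^ ⌊s' * (J : ℝ)⌋₊ := one_le_pow₀ (by norm_num)
        have h4 : (2 : ℝ) ^ (⌊s' * (J : ℝ)⌋₊ + 2) = 4 * 2 ^ ⌊s' * (J : ℝ)⌋₊ := by
          rw [pow_add]
          norm_num
          ring
        rw [h4]
        linarith only [h1, h2, h3]
      b₀e := pow_le_pow_right₀ (by norm_num) n6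
      velv := fun ω hω => by
        have h1 := (hdv' ω (a4' ω hω)).2.2
        rw [Finset.sum_singleton]
        exact h1.trans (inv_mono (by omega))
      velu := fun ω hω => by
        have h1 := (hdu' ω (a4' ω hω)).2.2
        rw [Finset.sum_singleton]
        have h2 := mul_le_mul_of_nonneg_left h1
          (by positivity : (0 : ℝ) ≤ 2 ^ (⌊s' * (J : ℝ)⌋₊ + 2))
        refine h2.trans ?_
        rw [mul_one_div]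
        exact pow_frac (by omega)
      rel := fun ω hω i _ => by
        have h1 := (hB₁ ω (a2 ω (a3 ω (a4 ω hω)))).2
        rw [hga₂ ω, hgb₂ ω] at h1
        exact h1.trans (inv_mono n4)
      nat := fun ω hω i _ => hB₄ ω hω
      num := n3 } le_rfl (fun p => cf (zp p) 3) (fun ω hω => by
      have h1 := hB₃ ω (a4 ω hω)
      have h2 := hB₂.1.cls ω (a3 ω (a4 ω hω))
      rw [← hgbm ω, ← hgbc ω, hgb₂ ω] at h1
      show |gb₂ (slam F ⌊W₂ * (J : ℝ)⌋₊ ω) - cf (zp (ptr F J ω)) 3| ≤ _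
      rw [h2]
      exact h1)
  -- the contradiction
  have h1 : Real.exp (-(δt * J)) * 81920 ≤ Real.exp (-1) := by
    have h2 : (81920 : ℝ) = Real.exp (Real.log 81920) := (Real.exp_log (by norm_num)).symm
    rw [h2, ← Real.exp_add]
    exact Real.exp_le_exp.2 (by linarith only [hlog2])
  have h2 : Real.exp (-1) < 1 := by
    rw [Real.exp_lt_one_iff]
    norm_num
  have h3 : Real.exp (-(δt * J)) * Pe F.p A ≤ Real.exp (-(δt * J)) * (81920 * Pe F.p B₄) :=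
    mul_le_mul_of_nonneg_left (by linarith) (Real.exp_pos _).le
  have h4 : Real.exp (-(δt * J)) * (81920 * Pe F.p B₄) ≤ Real.exp (-1) * Pe F.p B₄ := by
    have := mul_le_mul_of_nonneg_right h1 hB₄0.le
    linarith only [this]
  have h5 : Real.exp (-1) * Pe F.p B₄ < 1 * Pe F.p B₄ := mul_lt_mul_of_pos_right h2 hB₄0
  linarith only [key, h3, h4, h5]

end Pool.MIC6
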