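import Pool.Agent.H6.OWN.NgN

/-!
# No gain over one coordinate in a tube, for a class

`ng_num`: the number `L'` of the closed labels of the coordinate `v` over the coordinate `y` in the
zooms into windows and tubes, with any record, is not larger than the number `L` of the closed
labels of `v` over `y` for the windows of the zoom, plus the tube, if the velocity of `y` behind
the tube has positive entropy given the exact point, the tube and the record (`ActZ`).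
-/

set_option autoImplicit false

namespace Pool.MIC6

open Finset
open Pool.Agent.H49.Ent Pool.Agent.H32.Dense Pool.STK Pool.KA Pool.KSAT Pool.K2S Pool.PB Pool.GEN
open Pool.S6C
open Pool.FLF (Fam.sub)
open Pool.REX

variable {m n : ℕ}

/-- The numbers fit for large resolutions. -/
theorem ng_fit (v : Vz m) {s μ w Lz La a h : ℝ} {K N₀ : ℕ} {C C₀ τ γ e d : ℝ} (hs : 0 < s)
    (hs1 : s ≤ 1) (hw : 0 < w) (hw1 : w < 1) (he : 0 < e) (hes : e ≤ s) (hed : 2 * e ≤ d)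
    (hγ : 0 < γ)
    (hγs : γ * (K + 1) ≤ s) (hC : 1 ≤ C) (hCτ : C * (C₀ * τ) ≤ s / 2)
    (hCτ' : C * (C₀ * τ) ≤ (1 - v.b) * (1 - v.p) * (1 - w) / 8)
    (hN₀ : 2 * (Real.log C + C) ≤ N₀) (hμ : 0 ≤ μ) (hμh : v.tm w + μ = h + s)
    (hLz1 : Lz ≤ 1) (hLa1 : La ≤ 1) (ha : 0 < a) (ha1 : a < 1) (hd : v.tm w + d ≤ 1)
    (hLz : h + 8 * s ≤ v.sc Lz - v.p * (1 - v.b))
    (hLa : h + 8 * s ≤ La - (a - v.tm w) - v.p * (1 - v.b)) (hh : 0 ≤ h) :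
    ∃ J₁ : ℕ, ∀ J ≥ J₁,
      ⌊w * v.R J⌋₊ + (⌊μ * J⌋₊ + (N₀ + ⌊2 * s * J⌋₊) + ⌊γ * v.R J⌋₊ * (K + 1) + 2) ≤
        ⌊(Lz - e) * v.R J⌋₊ ∧
      ⌊e * J⌋₊ + ⌊w * v.R J⌋₊ + (⌊μ * J⌋₊ + (N₀ + ⌊2 * s * J⌋₊) + ⌊γ * v.R J⌋₊ * (K + 1) + 2) ≤
        v.R J ∧
      v.P J + ⌊a * J⌋₊ + (⌊μ * J⌋₊ + (N₀ + ⌊2 * s * J⌋₊) + ⌊γ * v.R J⌋₊ * (K + 1) + 2) ≤
        ⌊(La - e) * J⌋₊ ∧
      v.P J + (⌊e * J⌋₊ + ⌊a * J⌋₊) +
        (⌊μ * J⌋₊ + (N₀ + ⌊2 * s * J⌋₊) + ⌊γ * v.R J⌋₊ * (K + 1) + 2) ≤ J ∧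
      C * (C₀ * τ * J + 1) ≤ (((v.R J : ℕ) : ℝ) - (⌊w * v.R J⌋₊ : ℕ)) * Real.log 2 ∧
      ⌊w * v.R J⌋₊ + ⌊γ * v.R J⌋₊ + 4 ≤ v.R J ∧
      ⌊w * v.R J⌋₊ ≤ v.R J ∧ ⌊a * J⌋₊ + 1 ≤ J ∧
      v.B J + ⌊w * v.R J⌋₊ + ⌊μ * J⌋₊ + ⌊e * J⌋₊ + 3 ≤ J ∧
      ⌊h * J⌋₊ + 3 ≤ v.B J + ⌊w * v.R J⌋₊ + ⌊μ * J⌋₊ ∧
      v.B J + ⌊w * v.R J⌋₊ ≤ ⌊(v.tm w + d) * J⌋₊ ∧ ⌊(v.tm w + d) * J⌋₊ ≤ J ∧
      ⌊e * J⌋₊ + 1 ≤ ⌊d * J⌋₊ ∧
      C * Real.exp (C * (C₀ * τ * J + 1)) ≤ 2 ^ (N₀ + ⌊2 * s * J⌋₊) := by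
  have hb := v.b0
  have hb1 := v.b1
  have hp := v.p0
  have hp1 := v.p1
  obtain ⟨c, hc⟩ : ∃ c, c = (1 - v.b) * (1 - v.p) := ⟨_, rfl⟩
  have hc0 : 0 < c := by rw [hc]; exact mul_pos (by linarith) (by linarith)
  have hc1 : c ≤ 1 := by
    rw [hc]
    exact mul_le_one₀ (by linarith) (by linarith) (by linarith)
  have htm : v.tm w = v.b + c * w := by rw [hc]; rfl
  have hsc : v.sc Lz - v.p * (1 - v.b) = v.b + c * Lz := by
    rw [hc]
    unfold Vz.sc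
    ring
  have hbc : v.b + c ≤ 1 := by
    rw [hc]
    have : 0 ≤ (1 - v.b) * v.p := mul_nonneg (by linarith) hp
    linarith only [this]
  rw [hsc] at hLz
  rw [← hc] at hCτ'
  rw [htm] at hμh hd hLa ⊢
  have hγ1 : γ ≤ s := by
    have : γ * 1 ≤ γ * (K + 1) := by
      refine mul_le_mul_of_nonneg_left ?_ hγ.le
      have : (0 : ℝ) ≤ K := Nat.cast_nonneg K
      linarith
    linarith
  have hK0 : (0 : ℝ) ≤ K := Nat.cast_nonneg K
  have hcL : μ + 7 * s ≤ c * Lz - c * w := by linarith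
  have hcw : μ + 7 * s ≤ c - c * w := by
    have : c * Lz ≤ c * 1 := mul_le_mul_of_nonneg_left hLz1 hc0.le
    linarith
  have hL7 : 7 * s ≤ Lz - w := by
    by_contra hcon
    push Not at hcon
    have h1 : c * (Lz - w) ≤ c * (7 * s) := mul_le_mul_of_nonneg_left hcon.le hc0.le
    have h2 : c * (7 * s) ≤ 1 * (7 * s) := mul_le_mul_of_nonneg_right hc1 (by linarith)
    rcases le_or_gt (Lz - w) 0 with h3 | h3
    · have : c * (Lz - w) ≤ 0 := mul_nonpos_of_nonneg_of_nonpos hc0.le h3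
      linarith
    · have : c * (Lz - w) ≤ 1 * (Lz - w) := mul_le_mul_of_nonneg_right hc1 h3.le
      linarith
  have hw7 : 7 * s ≤ 1 - w := by linarith
  obtain ⟨x, hx⟩ : ∃ x, x = min (min s e) (min (c * s) (min (1 - a) (c * (1 - w)))) := ⟨_, rfl⟩
  have hx0 : 0 < x := by
    rw [hx]
    exact lt_min (lt_min hs he) (lt_min (by positivity) (lt_min (by linarith)
      (mul_pos hc0 (by linarith))))
  have hx1 : x ≤ s := by rw [hx]; exact (min_le_left _ _).trans (min_le_left _ _)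
  have hx2 : x ≤ e := by rw [hx]; exact (min_le_left _ _).trans (min_le_right _ _)
  have hx3 : x ≤ c * s := by rw [hx]; exact (min_le_right _ _).trans (min_le_left _ _)
  have hx4 : x ≤ 1 - a := by
    rw [hx]
    exact (min_le_right _ _).trans ((min_le_right _ _).trans (min_le_left _ _))
  have hx5 : x ≤ c * (1 - w) := by
    rw [hx]
    exact (min_le_right _ _).trans ((min_le_right _ _).trans (min_le_right _ _))
  obtain ⟨J₁, hJ₁⟩ := exists_nat_ge ((N₀ + 4 * C + 40 : ℝ) / x)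
  refine ⟨J₁, fun J hJ => ?_⟩
  have hJr : (J₁ : ℝ) ≤ J := by exact_mod_cast hJ
  have hJ0 : (0 : ℝ) ≤ J := Nat.cast_nonneg J
  have hN0 : (0 : ℝ) ≤ N₀ := Nat.cast_nonneg N₀
  have hxJ : (N₀ + 4 * C + 40 : ℝ) ≤ x * J := by
    have h1 := hJ₁.trans hJr
    rw [div_le_iff₀ hx0] at h1
    linarith
  have q1 := hxJ.trans (mul_le_mul_of_nonneg_right hx1 hJ0)
  have q2 := hxJ.trans (mul_le_mul_of_nonneg_right hx2 hJ0)
  have q3 := hxJ.trans (mul_le_mul_of_nonneg_right hx3 hJ0)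
  have q4 := hxJ.trans (mul_le_mul_of_nonneg_right hx4 hJ0)
  have q5 := hxJ.trans (mul_le_mul_of_nonneg_right hx5 hJ0)
  obtain ⟨b1, b2, b3, b4, b5⟩ := vz_real v J
  rw [← hc] at b4 b5
  obtain ⟨R, hR⟩ : ∃ R, R = v.R J := ⟨_, rfl⟩
  rw [← hR] at b4 b5 ⊢
  have hR0 : (0 : ℝ) ≤ R := Nat.cast_nonneg R
  -- the floors
  have f1 : (⌊w * (R : ℝ)⌋₊ : ℝ) ≤ w * R := Nat.floor_le (by positivity)
  have f1' : w * (R : ℝ) - 1 < ⌊w * (R : ℝ)⌋₊ := Nat.sub_one_lt_floor _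
  have f2 : (⌊μ * (J : ℝ)⌋₊ : ℝ) ≤ μ * J := Nat.floor_le (by positivity)
  have f2' : μ * (J : ℝ) - 1 < ⌊μ * (J : ℝ)⌋₊ := Nat.sub_one_lt_floor _
  have f3 : (⌊2 * s * (J : ℝ)⌋₊ : ℝ) ≤ 2 * s * J := Nat.floor_le (by positivity)
  have f3' : 2 * s * (J : ℝ) - 1 < ⌊2 * s * (J : ℝ)⌋₊ := Nat.sub_one_lt_floor _
  have f4 : (⌊γ * (R : ℝ)⌋₊ : ℝ) ≤ γ * R := Nat.floor_le (by positivity)
  have f5 : (⌊e * (J : ℝ)⌋₊ : ℝ) ≤ e * J := Nat.floor_le (by positivity)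
  have f6 : (⌊a * (J : ℝ)⌋₊ : ℝ) ≤ a * J := Nat.floor_le (by positivity)
  have f7 : (Lz - e) * (R : ℝ) - 1 < ⌊(Lz - e) * (R : ℝ)⌋₊ := Nat.sub_one_lt_floor _
  have f8 : (La - e) * (J : ℝ) - 1 < ⌊(La - e) * (J : ℝ)⌋₊ := Nat.sub_one_lt_floor _
  have f9 : (⌊h * (J : ℝ)⌋₊ : ℝ) ≤ h * J := Nat.floor_le (by positivity)
  have f10 : d * (J : ℝ) - 1 < ⌊d * (J : ℝ)⌋₊ := Nat.sub_one_lt_floor _
  have f11 : (v.b + c * w + d) * (J : ℝ) - 1 < ⌊(v.b + c * w + d) * (J : ℝ)⌋₊ :=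
    Nat.sub_one_lt_floor _
  have hd0 : 0 < d := by linarith
  have f12 : (⌊(v.b + c * w + d) * (J : ℝ)⌋₊ : ℝ) ≤ (v.b + c * w + d) * J :=
    Nat.floor_le (by positivity)
  -- products
  have g1 : γ * (R : ℝ) * (K + 1) ≤ s * R := by
    calc γ * (R : ℝ) * (K + 1) = γ * (K + 1) * R := by ring
      _ ≤ s * R := mul_le_mul_of_nonneg_right hγs hR0
  have g2 : (⌊γ * (R : ℝ)⌋₊ : ℝ) * (K + 1) ≤ γ * R * (K + 1) :=
    mul_le_mul_of_nonneg_right f4 (by linarith)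
  have g3 : s * (R : ℝ) ≤ s * J + 2 := by
    have h1 : s * (R : ℝ) ≤ s * (c * J + 2) := mul_le_mul_of_nonneg_left b5 hs.le
    have h2 : s * (c * J) ≤ s * (1 * J) :=
      mul_le_mul_of_nonneg_left (mul_le_mul_of_nonneg_right hc1 hJ0) hs.le
    linarith only [h1, h2, hs1]
  have g4 : (μ + 7 * s) * J ≤ (c * Lz - c * w) * J := mul_le_mul_of_nonneg_right hcL hJ0
  have g5 : (μ + 7 * s) * J ≤ (c - c * w) * J := mul_le_mul_of_nonneg_right hcw hJ0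
  have g6 : (Lz - e - w) * (c * J - 1) ≤ (Lz - e - w) * R :=
    mul_le_mul_of_nonneg_left b4 (by linarith)
  have g7 : (1 - w) * (c * J - 1) ≤ (1 - w) * R := mul_le_mul_of_nonneg_left b4 (by linarith)
  have g8 : e * (c * J) ≤ s * (1 * J) :=
    mul_le_mul hes (mul_le_mul_of_nonneg_right hc1 hJ0) (by positivity) hs.le
  have g9 : e * (J : ℝ) ≤ s * J := mul_le_mul_of_nonneg_right hes hJ0
  have g10 : w * (R : ℝ) ≤ w * (c * J + 2) := mul_le_mul_of_nonneg_left b5 hw.le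
  have g11 : w * (c * J - 1) ≤ w * R := mul_le_mul_of_nonneg_left b4 hw.le
  have g12 : (h + 8 * s) * J ≤ (La - (a - (v.b + c * w)) - v.p * (1 - v.b)) * J :=
    mul_le_mul_of_nonneg_right hLa hJ0
  have g13 : La * J ≤ 1 * J := mul_le_mul_of_nonneg_right hLa1 hJ0
  have g14 : (v.b + c * w + μ) * J = (h + s) * J := by rw [hμh]
  have g15 : γ * (R : ℝ) ≤ s * R := mul_le_mul_of_nonneg_right hγ1 hR0
  have g16 : 7 * s * (R : ℝ) ≤ (1 - w) * R := mul_le_mul_of_nonneg_right hw7 hR0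
  have g17 : s * (c * J - 1) ≤ s * R := mul_le_mul_of_nonneg_left b4 hs.le
  have g18 : (h + 8 * s) * J ≤ (v.b + c * Lz) * J := mul_le_mul_of_nonneg_right hLz hJ0
  have g19 : (v.b + c * Lz) * J ≤ 1 * J := by
    refine mul_le_mul_of_nonneg_right ?_ hJ0
    have : c * Lz ≤ c * 1 := mul_le_mul_of_nonneg_left hLz1 hc0.le
    linarith
  have g20 : (v.b + c * w + d) * J ≤ 1 * J := mul_le_mul_of_nonneg_right hd hJ0
  have g21 : 2 * e * J ≤ d * J := mul_le_mul_of_nonneg_right hed hJ0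
  have l2 := Real.log_two_gt_d9
  have l2' := Real.log_two_lt_d9
  have hτJ : C * (C₀ * τ * J) ≤ s / 2 * J := by
    calc C * (C₀ * τ * J) = C * (C₀ * τ) * J := by ring
      _ ≤ s / 2 * J := mul_le_mul_of_nonneg_right hCτ hJ0
  have hτJ' : C * (C₀ * τ * J) ≤ c * (1 - w) / 8 * J := by
    calc C * (C₀ * τ * J) = C * (C₀ * τ) * J := by ring
      _ ≤ c * (1 - w) / 8 * J := mul_le_mul_of_nonneg_right hCτ' hJ0
  refine ⟨?_, ?_, ?_, ?_, ?_, ?_, ?_, ?_, ?_, ?_, ?_, ?_, ?_, ?_⟩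
  · rw [← Nat.cast_le (α := ℝ)]
    push_cast
    linarith only [f1, f2, f3, f7, g1, g2, g3, g4, g6, g8, q1, hC, hw7, hL7, hLz1, hN0, he, hw, hs]
  · rw [← Nat.cast_le (α := ℝ)]
    push_cast
    linarith only [f1, f2, f3, f5, g1, g2, g3, g5, g7, g9, q1, hC, hw7, hN0, hw, hs]
  · rw [← Nat.cast_le (α := ℝ)]
    push_cast
    linarith only [f2, f3, f6, f8, g1, g2, g3, g12, g14, g9, q1, hC, hN0, b3]
  · rw [← Nat.cast_le (α := ℝ)]
    push_cast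
    linarith only [f2, f3, f5, f6, g1, g2, g3, g12, g13, g14, g9, q1, hC, hN0, b3]
  · have h1 : (1 - w) * (c * J - 1) ≤ (R : ℝ) - ⌊w * (R : ℝ)⌋₊ := by linarith only [f1, g7]
    have h2 : 0 ≤ (1 - w) * (c * J - 1) := by linarith only [q5, hC, hN0, hw]
    have h3 : (1 - w) * (c * J - 1) * (1 / 2) ≤ ((R : ℝ) - ⌊w * (R : ℝ)⌋₊) * Real.log 2 :=
      mul_le_mul h1 (by linarith only [l2]) (by norm_num) (h2.trans h1)
    linarith only [h3, q5, hτJ', hC, hN0, hw]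
  · rw [← Nat.cast_le (α := ℝ)]
    push_cast
    linarith only [f1, f4, g15, g16, g17, q3, hC, hN0, hs1]
  · rw [← Nat.cast_le (α := ℝ)]
    have h1 : w * (R : ℝ) ≤ 1 * R := mul_le_mul_of_nonneg_right hw1.le hR0
    linarith only [f1, h1]
  · rw [← Nat.cast_le (α := ℝ)]
    push_cast
    linarith only [f6, q4, hC, hN0]
  · rw [← Nat.cast_le (α := ℝ)]
    push_cast
    linarith only [b2, f1, f2, f5, g10, g14, g18, g19, g9, q1, hC, hN0, hw1]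
  · rw [← Nat.cast_le (α := ℝ)]
    push_cast
    linarith only [b1, f1', f2', f9, g11, g14, q1, hC, hN0, hw1]
  · rw [← Nat.cast_le (α := ℝ)]
    push_cast
    linarith only [b2, f1, g10, f11, q2, g21, hC, hN0, hw1]
  · rw [← Nat.cast_le (α := ℝ)]
    linarith only [f12, g20]
  · rw [← Nat.cast_le (α := ℝ)]
    push_cast
    linarith only [f5, f10, g21, q2, hC, hN0]
  · have h1 : Real.log (C * Real.exp (C * (C₀ * τ * J + 1))) ≤
        Real.log (2 ^ (N₀ + ⌊2 * s * J⌋₊)) := by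
      rw [Real.log_mul (by linarith) (Real.exp_pos _).ne', Real.log_exp, Real.log_pow]
      push_cast
      have l0 : 0 < Real.log 2 := by linarith only [l2]
      have h2 : (2 * s * J - 1) * Real.log 2 ≤ (⌊2 * s * (J : ℝ)⌋₊ : ℝ) * Real.log 2 :=
        mul_le_mul_of_nonneg_right f3'.le l0.le
      have h3 : 2 * (Real.log C + C) * Real.log 2 ≤ N₀ * Real.log 2 :=
        mul_le_mul_of_nonneg_right hN₀ l0.le
      have h4 : 0 ≤ Real.log C := Real.log_nonneg hC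
      have h5 : (Real.log C + C) * 1 ≤ (Real.log C + C) * (2 * Real.log 2) :=
        mul_le_mul_of_nonneg_left (by linarith only [l2]) (by linarith only [h4, hC])
      have h6 : s * J * (13 / 10) ≤ s * J * (2 * Real.log 2) :=
        mul_le_mul_of_nonneg_left (by linarith only [l2]) (by positivity)
      linarith only [h2, h3, h5, h6, hτJ, q1, l2', hC, hN0]
    exact (Real.log_le_log_iff (by positivity) (by positivity)).1 h1

end Pool.MIC6
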