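import Pool.Agent.H6.OWN.Slp
import Pool.Agent.H40.LX.Sh
import Pool.Agent.H75.S6C.Exh

/-!
# Separated velocities from entropy

`nod_of`: if the digits of a velocity have more than `log (2 N)` of entropy given `Φ` on every large
part of an event, then most fibres of `Φ` contain `N` lines with separated velocities.
-/

set_option autoImplicit false

namespace Pool.MIC6

open Finset
open Pool.Agent.H49.Ent Pool.Agent.H32.Dense Pool.STK Pool.KA Pool.KSAT Pool.K2S Pool.PB Pool.GEN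
open Pool.S6C

variable {n J : ℕ}

/-- Many integers contain many integers with differences at least `2`. -/
theorem sep_int {S : Finset ℤ} {N : ℕ} (hS : 2 * N < S.card) :
    ∃ f : Fin N → ℤ, (∀ i, f i ∈ S) ∧ ∀ i j, i ≠ j → (2 : ℤ) ≤ |f i - f j| := by
  classical
  obtain ⟨b, hb⟩ : ∃ b : ℤ, N ≤ (S.filter fun x => x % 2 = b).card := by
    by_contra hcon
    push Not at hcon
    have h0 := hcon 0
    have h1 := hcon 1
    have h2 : S.card ≤ (S.filter fun x => x % 2 = 0).card + (S.filter fun x => x % 2 = 1).card := by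
      rw [← Finset.card_union_of_disjoint]
      · refine Finset.card_le_card fun x hx => ?_
        rw [Finset.mem_union, Finset.mem_filter, Finset.mem_filter]
        rcases Int.emod_two_eq_zero_or_one x with h | h
        · exact Or.inl ⟨hx, h⟩
        · exact Or.inr ⟨hx, h⟩
      · rw [Finset.disjoint_filter]
        intro x _ h3 h4
        omega
    omega
  obtain ⟨T, hT, hTc⟩ := Finset.exists_subset_card_eq hb
  have e := T.equivFinOfCardEq hTc
  refine ⟨fun i => (e.symm i : ℤ), fun i => ?_, fun i j hij => ?_⟩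
  · exact (Finset.mem_filter.1 (hT (e.symm i).2)).1
  · have h1 := (Finset.mem_filter.1 (hT (e.symm i).2)).2
    have h2 := (Finset.mem_filter.1 (hT (e.symm j).2)).2
    have h3 : ((e.symm i : T) : ℤ) ≠ (e.symm j : T) := fun h =>
      hij (e.symm.injective (Subtype.ext h))
    have h4 : ((e.symm i : ℤ) - (e.symm j : ℤ)) % 2 = 0 := by omega
    have h5 : ((e.symm i : ℤ) - (e.symm j : ℤ)) ≠ 0 := sub_ne_zero.2 h3
    show (2 : ℤ) ≤ |(e.symm i : ℤ) - (e.symm j : ℤ)|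
    rcases abs_cases ((e.symm i : ℤ) - (e.symm j : ℤ)) with h6 | h6 <;> omega

/-- **Separated velocities from entropy.** -/
theorem nod_of (N : ℕ) {F : Fam n J} {B : F.Ω → Prop} (hB : 0 < Pe F.p B) {κ : Fin n} {g : ℕ}
    {U : Type} {Φ : F.Ω → U}
    (h : ∀ B₀ : F.Ω → Prop, Sub B₀ B → Pe F.p B / 2 < Pe F.p B₀ → Real.log (2 * N) <
      CH (Pool.Agent.H49.Ent.cond F.p B₀ True) (fun ω => F.D g ω κ) Φ) :
    ∃ B' : F.Ω → Prop, Sub B' B ∧ Pe F.p B / 2 ≤ Pe F.p B' ∧ ∀ ω, B' ω →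
      ∃ ν : Fin N → F.Ω, (∀ i, B (ν i) ∧ Φ (ν i) = Φ ω) ∧
        ∀ i j, i ≠ j → 1 / (2 : ℝ) ^ g ≤ |F.d (ν i) κ - F.d (ν j) κ| := by
  classical
  obtain ⟨S, hS⟩ : ∃ S : U → Finset ℤ, S = fun u =>
    (univ.filter fun ω => B ω ∧ Φ ω = u).image fun ω => F.D g ω κ := ⟨_, rfl⟩
  refine ⟨fun ω => B ω ∧ 2 * N < (S (Φ ω)).card, fun ω hω => hω.1, ?_, ?_⟩
  · have h1 := Pe_parts (p := F.p) (B := B) (B' := fun ω => B ω ∧ 2 * N < (S (Φ ω)).card)
      fun ω hω => hω.1
    by_contra hcon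
    rw [not_le] at hcon
    have h2 : Pe F.p B / 2 < Pe F.p (fun ω => B ω ∧ ¬ (B ω ∧ 2 * N < (S (Φ ω)).card)) := by
      linarith
    have h3 := h _ (fun ω hω => hω.1) h2
    refine absurd h3 (not_lt.2 ?_)
    have hq := isLaw_cond F.isLaw ((by linarith : 0 ≤ Pe F.p B / 2).trans_lt h2)
    refine Pool.LX.CH_le_log hq _ _ S (fun ω hω => ?_) fun ω hω => ?_
    · have h4 := ((cond_pos_iff F.isLaw.nonneg _ _ _).1 hω).2
      have h5 := of_eq_true h4
      rw [hS]
      exact Finset.mem_image.2 ⟨ω, Finset.mem_filter.2 ⟨Finset.mem_univ _, h5.1, rfl⟩, rfl⟩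
    · have h4 := ((cond_pos_iff F.isLaw.nonneg _ _ _).1 hω).2
      have h5 := of_eq_true h4
      have h6 : (S (Φ ω)).card ≤ 2 * N := by
        by_contra h7
        exact h5.2 ⟨h5.1, not_le.1 h7⟩
      exact_mod_cast h6
  · rintro ω ⟨hω, hc⟩
    obtain ⟨f, hf, hsep⟩ := sep_int hc
    have hex : ∀ i, ∃ ω', (B ω' ∧ Φ ω' = Φ ω) ∧ F.D g ω' κ = f i := by
      intro i
      have h1 := hf i
      rw [hS] at h1
      obtain ⟨ω', h2, h3⟩ := Finset.mem_image.1 h1
      exact ⟨ω', (Finset.mem_filter.1 h2).2, h3⟩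
    choose ν hν hνf using hex
    refine ⟨ν, hν, fun i j hij => ?_⟩
    have h1 := hsep i j hij
    rw [← hνf i, ← hνf j] at h1
    have h2 : (2 : ℝ) ≤ |(F.D g (ν i) κ : ℝ) - F.D g (ν j) κ| := by exact_mod_cast h1
    have a1 : (F.D g (ν i) κ : ℝ) ≤ 2 ^ g * F.d (ν i) κ := Int.floor_le _
    have a2 : 2 ^ g * F.d (ν i) κ < (F.D g (ν i) κ : ℝ) + 1 := Int.lt_floor_add_one _
    have b1 : (F.D g (ν j) κ : ℝ) ≤ 2 ^ g * F.d (ν j) κ := Int.floor_le _
    have b2 : 2 ^ g * F.d (ν j) κ < (F.D g (ν j) κ : ℝ) + 1 := Int.lt_floor_add_one _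
    rw [div_le_iff₀ (by positivity)]
    have e1 : |F.d (ν i) κ - F.d (ν j) κ| * 2 ^ g =
        |2 ^ g * F.d (ν i) κ - 2 ^ g * F.d (ν j) κ| := by
      rw [← mul_sub, abs_mul, abs_of_pos (by positivity : (0 : ℝ) < 2 ^ g), mul_comm]
    rw [e1]
    rcases le_abs'.1 h2 with h3 | h3
    · rw [abs_of_nonpos (by linarith)]
      linarith
    · rw [abs_of_nonneg (by linarith)]
      linarith

end Pool.MIC6
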