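import Pool.Agent.H6.OWN.AffF

/-!
# The difference of a label and of an affine function on the natural box

`pol_mk`, `lip_mk`: Markov inequalities. `psi`: the difference, `psi_mk`: its derivative in the
second coordinate, `psi_sup`: its maximum.
-/

set_option autoImplicit false

namespace Pool.MIC6

open Finset MvPolynomial
open Pool.Agent.H49.Ent Pool.Agent.H32.Dense Pool.STK Pool.KA Pool.KSAT Pool.K2S Pool.PB Pool.GEN
open Pool.GRD (LbP)

variable {n J : ℕ}

/-- The mean value inequality for a polynomial on an interval. -/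
theorem pol_mv {q : Polynomial ℝ} {a b M : ℝ}
    (h : ∀ x ∈ Set.Icc a b, |q.derivative.eval x| ≤ M) :
    ∀ x ∈ Set.Icc a b, ∀ y ∈ Set.Icc a b, |q.eval x - q.eval y| ≤ M * |x - y| := by
  intro x hx y hy
  have h1 := (convex_Icc a b).norm_image_sub_le_of_norm_deriv_le (f := fun x => q.eval x)
    (C := M) (fun x _ => (Polynomial.differentiable q).differentiableAt) (fun x hx => by
      rw [Polynomial.deriv, Real.norm_eq_abs]
      exact h x hx) hy hx
  rw [Real.norm_eq_abs, Real.norm_eq_abs] at h1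
  exact h1

/-- **Derivative and differences of a polynomial** on `[-4, 4]`. -/
theorem pol_mk (K : ℕ) : ∃ C : ℝ, 1 ≤ C ∧ ∀ (q : Polynomial ℝ) (S : ℝ), q.natDegree ≤ K →
    (∀ x ∈ Set.Icc (-4 : ℝ) 4, |q.eval x| ≤ S) →
    (∀ x ∈ Set.Icc (-4 : ℝ) 4, |q.derivative.eval x| ≤ C * S) ∧
      ∀ x ∈ Set.Icc (-4 : ℝ) 4, ∀ y ∈ Set.Icc (-4 : ℝ) 4,
        |q.eval x - q.eval y| ≤ C * S * |x - y| := by
  obtain ⟨C, hC, hmk⟩ := Pool.Agent.H40.BFL.unit_markov K
  refine ⟨C, hC, ?_⟩
  intro q S hq hS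
  have h1 : ∀ x ∈ Set.Icc (-4 : ℝ) 4, |q.derivative.eval x| ≤ C * S := by
    intro x hx
    obtain ⟨f, hf⟩ : ∃ f : Polynomial ℝ, f = q.comp (aff (-4) 8) := ⟨_, rfl⟩
    have hfd : f.natDegree ≤ K := by
      rw [hf]
      refine (Polynomial.natDegree_comp_le).trans ?_
      calc q.natDegree * (aff (-4) 8).natDegree ≤ K * 1 := Nat.mul_le_mul hq (natDegree_aff _ _)
        _ = K := mul_one _
    have h2 := hmk f S hfd (fun t ht => by
      rw [hf, Polynomial.eval_comp, eval_aff]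
      exact hS _ ⟨by linarith [ht.1], by linarith [ht.2]⟩) ((x + 4) / 8)
      ⟨by linarith [hx.1], by linarith [hx.2]⟩
    have h3 : f.derivative.eval ((x + 4) / 8) = q.derivative.eval x * 8 := by
      rw [hf, Polynomial.derivative_comp, Polynomial.eval_mul, Polynomial.eval_comp, eval_aff]
      have e1 : (-4 : ℝ) + 8 * ((x + 4) / 8) = x := by ring
      rw [e1]
      unfold aff
      simp only [Polynomial.derivative_add, Polynomial.derivative_C, Polynomial.derivative_mul,
        Polynomial.derivative_X, zero_mul, zero_add, mul_one, Polynomial.eval_C]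
      ring
    rw [h3, abs_mul, abs_of_pos (by norm_num : (0 : ℝ) < 8)] at h2
    have h4 := abs_nonneg (q.derivative.eval x)
    linarith
  exact ⟨h1, pol_mv h1⟩

/-- **The Lipschitz constant of a polynomial** inside a box. -/
theorem lip_mk (n K : ℕ) : ∃ C : ℝ, 1 ≤ C ∧ ∀ {Q : MvPolynomial (Option (Fin n)) ℝ}
    {c b' : Option (Fin n) → ℝ} {M R s : ℝ}, Q.totalDegree ≤ K → 0 < R → 0 < s → s ≤ R →
    (∀ b : Option (Fin n) → ℝ, (∀ o, |b o - c o| ≤ R) → |eval b Q| ≤ M) →
    (∀ o, |b' o - c o| ≤ s) → |eval b' Q - eval c Q| ≤ C * M * (s / R) := by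
  obtain ⟨C, hC, hmk⟩ := Pool.Agent.H40.BFL.unit_markov K
  refine ⟨C, hC, ?_⟩
  intro Q c b' M R s hQ hR hs hsR hM hb
  obtain ⟨g, hg⟩ : ∃ g : Option (Fin n) → Polynomial ℝ, g = fun o =>
    aff (c o) ((b' o - c o) / s * R) := ⟨_, rfl⟩
  obtain ⟨q, hq⟩ : ∃ q : Polynomial ℝ, q = MvPolynomial.aeval g Q := ⟨_, rfl⟩
  have hqe : ∀ x, q.eval x = eval (fun o => c o + (b' o - c o) / s * R * x) Q := by
    intro x
    rw [hq, Pool.KBX.eval_aeval_poly]
    congr 2
    funext o
    rw [hg, eval_aff]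
  have hqd : q.natDegree ≤ K := by
    rw [hq]
    refine (Pool.KBX.natDegree_aeval_le _ _ (fun o => ?_) hQ)
    rw [hg]
    exact natDegree_aff _ _
  have hbd : ∀ t ∈ Set.Icc (0 : ℝ) 1, |q.eval t| ≤ M := by
    intro t ht
    rw [hqe]
    refine hM _ fun o => ?_
    have e1 : c o + (b' o - c o) / s * R * t - c o = (b' o - c o) / s * R * t := by ring
    rw [e1, abs_mul, abs_mul, abs_div, abs_of_pos hs, abs_of_pos hR, abs_of_nonneg ht.1]
    have h1 : |b' o - c o| / s ≤ 1 := by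
      rw [div_le_one hs]
      exact hb o
    calc |b' o - c o| / s * R * t ≤ 1 * R * 1 :=
          mul_le_mul (mul_le_mul_of_nonneg_right h1 hR.le) ht.2 ht.1 (by positivity)
      _ = R := by ring
  have h1 := hmk q M hqd hbd
  have hsR1 : s / R ∈ Set.Icc (0 : ℝ) 1 := ⟨by positivity, by rw [div_le_one hR]; exact hsR⟩
  have h2 := pol_mv h1 (s / R) hsR1 0 ⟨le_rfl, zero_le_one⟩
  rw [hqe, hqe, sub_zero, abs_of_nonneg hsR1.1] at h2
  have e1 : (fun o => c o + (b' o - c o) / s * R * (s / R)) = b' := by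
    funext o
    field_simp
    ring
  have e2 : (fun o => c o + (b' o - c o) / s * R * 0) = c := by
    funext o
    ring
  rw [e1, e2] at h2
  exact h2

/-- The difference of a label and of an affine function. -/
noncomputable def psi (κ ι : Fin n) (G : MvPolynomial (Option (Fin n)) ℝ)
    (t y x v a b c h H η ξ : ℝ) : ℝ :=
  eval (bpt κ ι t (y + h * η) (x + c * (h * η) + H * ξ)) G -
    (v + a * (h * η) + b * (c * (h * η) + H * ξ))

/-- **The derivative of the difference** in the second coordinate. -/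
theorem psi_mk (K : ℕ) (hK : 1 ≤ K) : ∃ C : ℝ, 1 ≤ C ∧ ∀ {n : ℕ}
    {G : MvPolynomial (Option (Fin n)) ℝ} {κ ι : Fin n} {t y x v a b c h H η S : ℝ},
    G.totalDegree ≤ K → κ ≠ ι → 0 < H →
    (∀ ξ ∈ Set.Icc (-4 : ℝ) 4, |psi κ ι G t y x v a b c h H η ξ| ≤ S) →
    (∀ ξ ∈ Set.Icc (-4 : ℝ) 4, |eval (bpt κ ι t (y + h * η) (x + c * (h * η) + H * ξ))
      (pderiv (some ι) G) - b| ≤ C * S / H) ∧
    ∀ ξ ∈ Set.Icc (-4 : ℝ) 4, ∀ ξ' ∈ Set.Icc (-4 : ℝ) 4,
      |psi κ ι G t y x v a b c h H η ξ - psi κ ι G t y x v a b c h H η ξ'| ≤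
        C * S * |ξ - ξ'| := by
  obtain ⟨C, hC, hmk⟩ := pol_mk K
  refine ⟨C, hC, ?_⟩
  intro n G κ ι t y x v a b c h H η S hG hκι hH hS
  obtain ⟨g, hg⟩ : ∃ g : Option (Fin n) → Polynomial ℝ, g = pli2 κ ι (aff t 0) (aff (y + h * η) 0)
    (aff (x + c * (h * η)) H) := ⟨_, rfl⟩
  have hgd : ∀ o, (g o).natDegree ≤ 1 := fun o => by
    rw [hg]
    exact natDegree_pli2 κ ι (natDegree_aff _ _) (natDegree_aff _ _) (natDegree_aff _ _) o
  have hge : ∀ x', (fun o => (g o).eval x') =
      bpt κ ι t (y + h * η) (x + c * (h * η) + H * x') := fun x' => by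
    rw [hg, eval_pli2, eval_aff, eval_aff, eval_aff]
    congr 1
    · ring
    · ring
  obtain ⟨f, hf⟩ : ∃ f : Polynomial ℝ, f = MvPolynomial.aeval g G -
    aff (v + a * (h * η) + b * (c * (h * η))) (b * H) := ⟨_, rfl⟩
  have hfd : f.natDegree ≤ K := by
    rw [hf]
    refine (Polynomial.natDegree_sub_le _ _).trans (max_le ?_ ((natDegree_aff _ _).trans hK))
    exact Pool.KBX.natDegree_aeval_le _ _ hgd hG
  have hfe : ∀ x', f.eval x' = psi κ ι G t y x v a b c h H η x' := fun x' => by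
    rw [hf, Polynomial.eval_sub, Pool.KBX.eval_aeval_poly, hge, eval_aff]
    unfold psi
    ring
  have hder : ∀ x', f.derivative.eval x' = H * (eval (bpt κ ι t (y + h * η)
      (x + c * (h * η) + H * x')) (pderiv (some ι) G) - b) := by
    intro x'
    rw [hf, Polynomial.derivative_sub, Polynomial.eval_sub, der_aevalσ,
      Polynomial.eval_finsetSum, Finset.sum_eq_single (some ι)]
    · rw [Polynomial.eval_mul, Pool.KBX.eval_aeval_poly, hge]
      have e1 : g (some ι) = aff (x + c * (h * η)) H := by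
        rw [hg]
        show (if ι = κ then _ else if ι = ι then aff (x + c * (h * η)) H else 0) = _
        rw [if_neg (Ne.symm hκι), if_pos rfl]
      rw [e1]
      unfold aff
      simp only [Polynomial.derivative_add, Polynomial.derivative_C, Polynomial.derivative_mul,
        Polynomial.derivative_X, zero_mul, zero_add, mul_one, Polynomial.eval_C]
      ring
    · intro o _ ho
      have e1 : (g o).derivative = 0 := by
        rw [hg]
        cases o with
        | none =>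
          show (aff t 0).derivative = 0
          unfold aff
          simp
        | some i =>
          show (if i = κ then aff (y + h * η) 0 else if i = ι then aff (x + c * (h * η)) H else
            0 : Polynomial ℝ).derivative = 0
          split_ifs with h1 h2
          · unfold aff
            simp
          · exact absurd (by rw [h2]) ho
          · exact Polynomial.derivative_zero
      rw [Polynomial.eval_mul, e1, Polynomial.eval_zero, mul_zero]
    · intro h1
      exact absurd (Finset.mem_univ _) h1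
  obtain ⟨h1, h2⟩ := hmk f S hfd (fun x' hx' => by rw [hfe]; exact hS x' hx')
  refine ⟨fun ξ hξ => ?_, fun ξ hξ ξ' hξ' => ?_⟩
  · have h3 := h1 ξ hξ
    rw [hder, abs_mul, abs_of_pos hH] at h3
    rw [le_div_iff₀ hH, mul_comm]
    exact h3
  · have h3 := h2 ξ hξ ξ' hξ'
    rw [hfe, hfe] at h3
    exact h3

/-- **The maximum of a continuous function** on the box. -/
theorem psi_sup (Ψ : ℝ → ℝ → ℝ → ℝ) (hΨ : Continuous fun p : ℝ × ℝ × ℝ => Ψ p.1 p.2.1 p.2.2) :
    ∃ S : ℝ, (∀ σ ∈ Set.Icc (0 : ℝ) 1, ∀ η ∈ Set.Icc (-4 : ℝ) 4, ∀ ξ ∈ Set.Icc (-4 : ℝ) 4,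
      |Ψ σ η ξ| ≤ S) ∧ ∃ σ ∈ Set.Icc (0 : ℝ) 1, ∃ η ∈ Set.Icc (-4 : ℝ) 4,
      ∃ ξ ∈ Set.Icc (-4 : ℝ) 4, |Ψ σ η ξ| = S := by
  have hK : IsCompact (Set.Icc (0 : ℝ) 1 ×ˢ (Set.Icc (-4 : ℝ) 4 ×ˢ Set.Icc (-4 : ℝ) 4)) :=
    isCompact_Icc.prod (isCompact_Icc.prod isCompact_Icc)
  have hne : (Set.Icc (0 : ℝ) 1 ×ˢ (Set.Icc (-4 : ℝ) 4 ×ˢ Set.Icc (-4 : ℝ) 4)).Nonempty :=
    ⟨(0, 0, 0), ⟨le_rfl, zero_le_one⟩, ⟨by norm_num, by norm_num⟩, ⟨by norm_num, by norm_num⟩⟩
  obtain ⟨p, hp, hmax⟩ := hK.exists_isMaxOn hne (f := fun p : ℝ × ℝ × ℝ => |Ψ p.1 p.2.1 p.2.2|)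
    (continuous_abs.comp hΨ).continuousOn
  refine ⟨|Ψ p.1 p.2.1 p.2.2|, fun σ hσ η hη ξ hξ => ?_, p.1, hp.1, p.2.1, hp.2.1, p.2.2,
    hp.2.2, rfl⟩
  exact hmax (show (σ, η, ξ) ∈ Set.Icc (0 : ℝ) 1 ×ˢ (Set.Icc (-4 : ℝ) 4 ×ˢ Set.Icc (-4 : ℝ) 4)
    from ⟨hσ, hη, hξ⟩)

/-- The difference is continuous, if the lines are. -/
theorem psi_cont (κ ι : Fin n) (G : MvPolynomial (Option (Fin n)) ℝ) {t y x v : ℝ → ℝ}
    (ht : Continuous t) (hy : Continuous y) (hx : Continuous x) (hv : Continuous v)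
    (a b c h H : ℝ) : Continuous fun p : ℝ × ℝ × ℝ =>
      psi κ ι G (t p.1) (y p.1) (x p.1) (v p.1) a b c h H p.2.1 p.2.2 := by
  unfold psi
  refine Continuous.sub ?_ ?_
  · refine (MvPolynomial.continuous_eval G).comp (continuous_pi fun o => ?_)
    cases o with
    | none => exact ht.comp continuous_fst
    | some i =>
      show Continuous fun p : ℝ × ℝ × ℝ => if i = κ then y p.1 + h * p.2.1 else
        if i = ι then x p.1 + c * (h * p.2.1) + H * p.2.2 else 0
      split_ifs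
      · exact (hy.comp continuous_fst).add (continuous_const.mul
          (continuous_fst.comp continuous_snd))
      · exact ((hx.comp continuous_fst).add (continuous_const.mul (continuous_const.mul
          (continuous_fst.comp continuous_snd)))).add (continuous_const.mul
          (continuous_snd.comp continuous_snd))
      · exact continuous_const
  · have h1 : Continuous fun p : ℝ × ℝ × ℝ => h * p.2.1 :=
      continuous_const.mul (continuous_fst.comp continuous_snd)
    exact ((hv.comp continuous_fst).add (continuous_const.mul h1)).add (continuous_const.mul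
      ((continuous_const.mul h1).add (continuous_const.mul
        (continuous_snd.comp continuous_snd))))

end Pool.MIC6
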