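import Pool.Agent.H6.OWN.TieZ
import Pool.Agent.H6.OWN.Nat

/-!
# The relation of the slopes of the labels of a zoom, for a class

`rel_cls`: in the zooms with a closed label of `k` over `κ`, `ι`, the slopes of `u = ε ι` and of
`v = ε k` over `y = ε κ` at the exact points satisfy `ga + gb * au = av`, with functions `ga`, `gb`
of the line and of the window, up to the precision of the label.
-/

set_option autoImplicit false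

namespace Pool.MIC6

open Finset MvPolynomial
open Pool.Agent.H49.Ent Pool.Agent.H32.Dense Pool.STK Pool.KA Pool.KSAT Pool.K2S Pool.PB Pool.GEN
open Pool.S6C
open Pool.FLF (Fam.sub)
open Pool.GRD (LbP)
open Pool.REX

variable {m n J : ℕ}

/-- The numbers fit for large resolutions. -/
theorem rel_fit (v : Vz m) {s w Lz r' q : ℝ} {K N₀ : ℕ} {C C₀ τ γ : ℝ} (hs : 0 < s)
    (hs1 : s ≤ 1) (hw : 0 < w) (hw1 : w < 1) (hγ : 0 < γ)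
    (hγs : γ * (K + 1) ≤ s) (hC : 1 ≤ C) (hCτ : C * (C₀ * τ) ≤ s / 2)
    (hr0 : 0 ≤ r') (hrs : 8 * s ≤ (1 - v.b) * (1 - v.p) * (w - r'))
    (hLz1 : Lz ≤ 1) (hq : 0 ≤ q)
    (hLz : q + 8 * s ≤ v.sc Lz - v.p * (1 - v.b) - v.tm w) :
    ∃ J₁ : ℕ, ∀ J ≥ J₁, ∀ e M : ℕ, e ≤ ⌊s * J⌋₊ → ⌊(q + v.p * (1 - v.b) + 6 * s) * J⌋₊ ≤ M →
      ⌊w * v.R J⌋₊ + (⌊q * J⌋₊ + (N₀ + ⌊2 * s * J⌋₊) + ⌊γ * v.R J⌋₊ * (K + 1) + 2) ≤
        ⌊(Lz - s) * v.R J⌋₊ ∧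
      ⌊s * J⌋₊ + ⌊s * J⌋₊ + ⌊w * v.R J⌋₊ +
        (⌊q * J⌋₊ + (N₀ + ⌊2 * s * J⌋₊) + ⌊γ * v.R J⌋₊ * (K + 1) + 2) ≤ v.R J ∧
      v.P J + ⌊s * J⌋₊ + (⌊q * J⌋₊ + (N₀ + ⌊2 * s * J⌋₊) + ⌊γ * v.R J⌋₊ * (K + 1) + 2) ≤ M ∧
      C * (C₀ * τ * J + 1) ≤ (((v.R J : ℕ) : ℝ) - (⌊w * v.R J⌋₊ : ℕ)) * Real.log 2 ∧
      ⌊w * v.R J⌋₊ + ⌊γ * v.R J⌋₊ + 4 ≤ v.R J ∧
      ⌊(r' + s) * v.R J⌋₊ + ⌊s * J⌋₊ + 5 ≤ ⌊w * v.R J⌋₊ ∧
      v.P J ≤ M ∧ ⌊s * v.R J⌋₊ ≤ ⌊s * J⌋₊ ∧ (N₀ + 4 * C + 40 : ℝ) ≤ s * J := by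
  have hb := v.b0
  have hb1 := v.b1
  have hp := v.p0
  have hp1 := v.p1
  obtain ⟨c, hc⟩ : ∃ c, c = (1 - v.b) * (1 - v.p) := ⟨_, rfl⟩
  have hc0 : 0 < c := by rw [hc]; exact mul_pos (by linarith) (by linarith)
  have hc1 : c ≤ 1 := by
    rw [hc]
    exact mul_le_one₀ (by linarith) (by linarith) (by linarith)
  have htm : v.tm w = v.b + c * w := by rw [hc]; rfl
  have hsc : v.sc Lz - v.p * (1 - v.b) = v.b + c * Lz := by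
    rw [hc]
    unfold Vz.sc
    ring
  rw [hsc, htm] at hLz
  rw [← hc] at hrs
  have hK0 : (0 : ℝ) ≤ K := Nat.cast_nonneg K
  have hγ1 : γ ≤ s := by
    have : γ * 1 ≤ γ * (K + 1) := mul_le_mul_of_nonneg_left (by linarith) hγ.le
    linarith
  have hcL : q + 8 * s ≤ c * Lz - c * w := by linarith
  have hcw : q + 8 * s ≤ c - c * w := by
    have : c * Lz ≤ c * 1 := mul_le_mul_of_nonneg_left hLz1 hc0.le
    linarith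
  have hL7 : 8 * s ≤ Lz - w := by
    by_contra hcon
    push Not at hcon
    have h1 : c * (Lz - w) ≤ c * (8 * s) := mul_le_mul_of_nonneg_left hcon.le hc0.le
    have h2 : c * (8 * s) ≤ 1 * (8 * s) := mul_le_mul_of_nonneg_right hc1 (by linarith)
    rcases le_or_gt (Lz - w) 0 with h3 | h3
    · have : c * (Lz - w) ≤ 0 := mul_nonpos_of_nonneg_of_nonpos hc0.le h3
      linarith
    · have : c * (Lz - w) < c * (8 * s) := mul_lt_mul_of_pos_left hcon hc0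
      linarith
  have hw7 : 8 * s ≤ 1 - w := by linarith
  obtain ⟨x, hx⟩ : ∃ x, x = c * s := ⟨_, rfl⟩
  have hx0 : 0 < x := by rw [hx]; positivity
  have hx1 : x ≤ s := by rw [hx]; exact mul_le_of_le_one_left hs.le hc1
  obtain ⟨J₁, hJ₁⟩ := exists_nat_ge ((N₀ + 4 * C + 40 : ℝ) / x)
  refine ⟨J₁, fun J hJ e M he hM => ?_⟩
  have hJr : (J₁ : ℝ) ≤ J := by exact_mod_cast hJ
  have hJ0 : (0 : ℝ) ≤ J := Nat.cast_nonneg J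
  have hN0 : (0 : ℝ) ≤ N₀ := Nat.cast_nonneg N₀
  have hxJ : (N₀ + 4 * C + 40 : ℝ) ≤ x * J := by
    have h1 := hJ₁.trans hJr
    rw [div_le_iff₀ hx0] at h1
    linarith
  have q1 := hxJ.trans (mul_le_mul_of_nonneg_right hx1 hJ0)
  have q3 : (N₀ + 4 * C + 40 : ℝ) ≤ c * s * J := by rw [← hx]; exact hxJ
  obtain ⟨b1, b2, b3, b4, b5⟩ := vz_real v J
  rw [← hc] at b4 b5
  obtain ⟨R, hR⟩ : ∃ R, R = v.R J := ⟨_, rfl⟩
  rw [← hR] at b4 b5 ⊢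
  have hR0 : (0 : ℝ) ≤ R := Nat.cast_nonneg R
  have hRJ : (R : ℝ) ≤ J := by
    have : R ≤ J := by
      rw [hR]
      unfold Vz.R
      omega
    exact_mod_cast this
  -- the floors
  have f1 : (⌊w * (R : ℝ)⌋₊ : ℝ) ≤ w * R := Nat.floor_le (by positivity)
  have f1' : w * (R : ℝ) - 1 < ⌊w * (R : ℝ)⌋₊ := Nat.sub_one_lt_floor _
  have f2 : (⌊q * (J : ℝ)⌋₊ : ℝ) ≤ q * J := Nat.floor_le (by positivity)
  have f3 : (⌊2 * s * (J : ℝ)⌋₊ : ℝ) ≤ 2 * s * J := Nat.floor_le (by positivity)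
  have f4 : (⌊γ * (R : ℝ)⌋₊ : ℝ) ≤ γ * R := Nat.floor_le (by positivity)
  have f5 : (⌊s * (J : ℝ)⌋₊ : ℝ) ≤ s * J := Nat.floor_le (by positivity)
  have f6 : (⌊(r' + s) * (R : ℝ)⌋₊ : ℝ) ≤ (r' + s) * R := Nat.floor_le (by positivity)
  have f7 : (Lz - s) * (R : ℝ) - 1 < ⌊(Lz - s) * (R : ℝ)⌋₊ := Nat.sub_one_lt_floor _
  have f8 : (q + v.p * (1 - v.b) + 6 * s) * (J : ℝ) - 1 <
    ⌊(q + v.p * (1 - v.b) + 6 * s) * (J : ℝ)⌋₊ := Nat.sub_one_lt_floor _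
  have f9 : (⌊(q + v.p * (1 - v.b) + 6 * s) * (J : ℝ)⌋₊ : ℝ) ≤ M := by exact_mod_cast hM
  -- products
  have g1 : γ * (R : ℝ) * (K + 1) ≤ s * R := by
    calc γ * (R : ℝ) * (K + 1) = γ * (K + 1) * R := by ring
      _ ≤ s * R := mul_le_mul_of_nonneg_right hγs hR0
  have g2 : (⌊γ * (R : ℝ)⌋₊ : ℝ) * (K + 1) ≤ γ * R * (K + 1) :=
    mul_le_mul_of_nonneg_right f4 (by linarith)
  have g3 : s * (R : ℝ) ≤ s * J := mul_le_mul_of_nonneg_left hRJ hs.le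
  have g4 : (q + 8 * s) * J ≤ (c * Lz - c * w) * J := mul_le_mul_of_nonneg_right hcL hJ0
  have g5 : (q + 8 * s) * J ≤ (c - c * w) * J := mul_le_mul_of_nonneg_right hcw hJ0
  have g6 : (Lz - s - w) * (c * J - 1) ≤ (Lz - s - w) * R :=
    mul_le_mul_of_nonneg_left b4 (by linarith)
  have g7 : (1 - w) * (c * J - 1) ≤ (1 - w) * R := mul_le_mul_of_nonneg_left b4 (by linarith)
  have g8 : s * (c * J) ≤ s * (1 * J) :=
    mul_le_mul_of_nonneg_left (mul_le_mul_of_nonneg_right hc1 hJ0) hs.le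
  have g15 : γ * (R : ℝ) ≤ s * R := mul_le_mul_of_nonneg_right hγ1 hR0
  have g17 : s * (c * J - 1) ≤ s * R := mul_le_mul_of_nonneg_left b4 hs.le
  have g18 : 8 * s * J ≤ c * (w - r') * J := mul_le_mul_of_nonneg_right hrs hJ0
  have hwr : 0 ≤ w - r' := by
    by_contra hcon
    push Not at hcon
    have : c * (w - r') ≤ 0 := mul_nonpos_of_nonneg_of_nonpos hc0.le hcon.le
    linarith
  have hwr1 : w - r' ≤ 1 := by linarith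
  have g19 : (w - r') * (c * J - 1) ≤ (w - r') * R := mul_le_mul_of_nonneg_left b4 hwr
  have l2 := Real.log_two_gt_d9
  have hτJ : C * (C₀ * τ * J) ≤ s / 2 * J := by
    calc C * (C₀ * τ * J) = C * (C₀ * τ) * J := by ring
      _ ≤ s / 2 * J := mul_le_mul_of_nonneg_right hCτ hJ0
  refine ⟨?_, ?_, ?_, ?_, ?_, ?_, ?_, ?_, q1⟩
  · rw [← Nat.cast_le (α := ℝ)]
    push_cast
    linarith only [f1, f2, f3, f7, g1, g2, g3, g4, g6, g8, q1, hC, hw7, hLz1, hN0, hs, hw]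
  · rw [← Nat.cast_le (α := ℝ)]
    push_cast
    linarith only [f1, f2, f3, f5, g1, g2, g3, g5, g7, q1, hC, hw7, hN0, hw, hs]
  · rw [← Nat.cast_le (α := ℝ)]
    push_cast
    linarith only [f2, f3, f5, f8, f9, g1, g2, g3, q1, hC, hN0, b3]
  · have h1 : (1 - w) * (c * J - 1) ≤ (R : ℝ) - ⌊w * (R : ℝ)⌋₊ := by linarith only [f1, g7]
    have h2 : 0 ≤ (1 - w) * (c * J - 1) := by
      have h4 : (0 : ℝ) ≤ (q + 8 * s) * J := by positivity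
      linarith only [q1, hC, hN0, hw, g5, h4, hq, hs, g3, mul_nonneg hq hJ0]
    have h3 : (1 - w) * (c * J - 1) * (1 / 2) ≤ ((R : ℝ) - ⌊w * (R : ℝ)⌋₊) * Real.log 2 :=
      mul_le_mul h1 (by linarith only [l2]) (by norm_num) (h2.trans h1)
    linarith only [h3, q1, hτJ, g5, hC, hN0, hw, mul_nonneg hq hJ0]
  · rw [← Nat.cast_le (α := ℝ)]
    push_cast
    have g16 : 8 * s * (R : ℝ) ≤ (1 - w) * R := mul_le_mul_of_nonneg_right hw7 hR0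
    linarith only [f1, f4, g15, g16, g17, q3, hC, hN0, hs1]
  · rw [← Nat.cast_le (α := ℝ)]
    push_cast
    linarith only [f1', f5, f6, g3, g18, g19, q1, hC, hN0, hwr1]
  · rw [← Nat.cast_le (α := ℝ)]
    linarith only [f8, f9, b3, q1, hC, hN0, mul_nonneg hq hJ0]
  · exact Nat.floor_le_floor g3

/-- **The relation of the slopes in a class**, with the bound of the coefficient. -/
theorem rel_bnd {S : PCl m} {C₀ : ℝ} (hC₀ : 0 ≤ C₀) (htm : TmC S C₀) (v : Vz m)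
    (ε : Fin n → Fin m) {L' : Finset (Fin n) → Fin n → ℝ → ℝ → ℝ} (hL' : LamW (RecV S v ε) L')
    {κ ι k : Fin n} (hκι : κ ≠ ι) (hact : ActZ S v ε κ) {w' w r' s q : ℝ} (hw' : w' < w)
    (hr0 : 0 ≤ r') (hw0 : 0 < w) (hw1 : w < 1) (hs : 0 < s) (hs1 : s ≤ 1) (hq : 0 ≤ q)
    (hrs : 8 * s ≤ (1 - v.b) * (1 - v.p) * (w - r'))
    (hL : q + 8 * s ≤ v.sc (L' {κ, ι} k w' r') - v.p * (1 - v.b) - v.tm w) :
    Bas S (fun J F A => ∀ (au cu av cv : PtT F → ℝ) (e M : ℕ), e ≤ ⌊s * J⌋₊ →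
      ⌊(q + v.p * (1 - v.b) + 6 * s) * J⌋₊ ≤ M → Dp F A (ε κ) (ε ι) e M au cu →
      Dp F A (ε κ) (ε k) e M av cv → ∃ B : F.Ω → Prop, Sub B A ∧ Pe F.p A / 4 ≤ Pe F.p B ∧
        ∃ ga gb : LnT F → ℝ, ∀ ω, B ω →
          |gb (slam F (v.B J + ⌊w * v.R J⌋₊) ω)| ≤ 2 ^ ⌊s * J⌋₊ ∧
          |ga (slam F (v.B J + ⌊w * v.R J⌋₊) ω) + gb (slam F (v.B J + ⌊w * v.R J⌋₊) ω) *
            au (ptr F J ω) - av (ptr F J ω)| ≤ 1 / 2 ^ ⌊q * J⌋₊) := by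
  classical
  obtain ⟨Lz, hLz⟩ : ∃ Lz, Lz = L' {κ, ι} k w' r' := ⟨_, rfl⟩
  have hLz1 : Lz ≤ 1 := by rw [hLz]; exact hL'.le1 _ _ _ _
  obtain ⟨K, hK⟩ := hL'.att {κ, ι} k w' w r' s hw0 hw1.le hw' hs
  rw [← hLz] at hK hL
  obtain ⟨C, hC, htie⟩ := tie_zom m n K
  obtain ⟨γ, hγ⟩ : ∃ γ, γ = s / (K + 1) := ⟨_, rfl⟩
  have hγ0 : 0 < γ := by rw [hγ]; positivity
  have hγs : γ * (K + 1) ≤ s := by
    rw [hγ]
    exact (div_mul_cancel₀ s (by positivity : ((K : ℝ) + 1) ≠ 0)).le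
  obtain ⟨c, hc0, hcB⟩ := hact γ hγ0
  obtain ⟨τ₁, hτ₁, J₁, hb₁⟩ := bas_recV hK
  obtain ⟨τ₃, hτ₃, J₃, hb₃⟩ := hcB
  have hD0 : 0 < C * (C₀ + 1) := by positivity
  obtain ⟨τ, hτ⟩ : ∃ τ, τ = min τ₁ (min (τ₃ / 2) (s / 2 / (C * (C₀ + 1)))) := ⟨_, rfl⟩
  have hτ0 : 0 < τ := by
    rw [hτ]
    exact lt_min hτ₁ (lt_min (by linarith) (by positivity))
  have t1 : τ ≤ τ₁ := by rw [hτ]; exact min_le_left _ _
  have t3 : 2 * τ ≤ τ₃ := by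
    have : τ ≤ τ₃ / 2 := by rw [hτ]; exact (min_le_right _ _).trans (min_le_left _ _)
    linarith
  have t5 : C * (C₀ * τ) ≤ s / 2 := by
    have hx : τ ≤ s / 2 / (C * (C₀ + 1)) := by
      rw [hτ]; exact (min_le_right _ _).trans (min_le_right _ _)
    rw [le_div_iff₀ hD0] at hx
    have : 0 ≤ C * τ := by positivity
    linarith only [hx, this]
  obtain ⟨N₀, hN₀⟩ := exists_nat_ge (2 * (Real.log C + C))
  obtain ⟨J₅, hfit⟩ := rel_fit v (s := s) (w := w) (Lz := Lz) (r' := r') (q := q) (K := K)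
    (N₀ := N₀) (C := C) (C₀ := C₀) (τ := τ) (γ := γ) hs hs1 hw0 hw1 hγ0 hγs hC t5 hr0 hrs hLz1
    hq hL
  obtain ⟨J₆, hJ₆⟩ := exists_nat_ge (Real.log 4 / τ)
  obtain ⟨J₇, hJ₇⟩ := exists_nat_ge ((n * k99 + Real.log (2 * (K + 2 : ℕ)) + 1) / c)
  refine ⟨τ, hτ0, max (max J₁ J₃) (max J₅ (max J₆ J₇)), ?_⟩
  intro J hJ F A hA au cu av cv e M he hM hau hav
  have j1 : J₁ ≤ J := ((le_max_left _ _).trans (le_max_left _ _)).trans hJ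
  have j3 : J₃ ≤ J := ((le_max_right _ _).trans (le_max_left _ _)).trans hJ
  have j5 : J₅ ≤ J := ((le_max_left _ _).trans (le_max_right _ _)).trans hJ
  have j6 : (J₆ : ℝ) ≤ J := by
    exact_mod_cast ((le_max_left _ _).trans ((le_max_right _ _).trans (le_max_right _ _))).trans hJ
  have j7 : (J₇ : ℝ) ≤ J := by
    exact_mod_cast ((le_max_right _ _).trans ((le_max_right _ _).trans (le_max_right _ _))).trans hJ
  obtain ⟨k1, k2, -⟩ := v.floor_le J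
  have hA0 := (htm τ J F A hτ0 hA).1
  have hlab := hb₁ J j1 F A (S.mono t1 hA) k2
  obtain ⟨p1, p2, p3, p4, p5, p6, p7, p8, p9⟩ := hfit J j5 e M he hM
  have hτJ : Real.log 4 ≤ τ * J := by
    have h1 := hJ₆.trans j6
    rw [div_le_iff₀ hτ0] at h1
    linarith
  have hcJ : n * k99 + Real.log (2 * (K + 2 : ℕ)) + 1 ≤ c * J := by
    have h1 := hJ₇.trans j7
    rw [div_le_iff₀ hc0] at h1
    linarith
  have hact' : ∀ B₀ : F.Ω → Prop, Sub B₀ A → Pe F.p A / 4 < Pe F.p B₀ →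
      Real.log (2 * (K + 2 : ℕ)) < CH (Pool.Agent.H49.Ent.cond F.p B₀ True)
        (fun ω => (zmV F k2 (v.y J F) ε).D ⌊γ * v.R J⌋₊ ω κ) (phz F k2 (v.y J F) ε) := by
    intro B₀ hB₀ hPB₀
    have hB₀S := res_of hτ0.le hA hB₀ (by norm_num : (0 : ℝ) < 4) (by linarith) (by linarith)
    have h1 := hb₃ J j3 F B₀ (S.mono t3 hB₀S) k2
    have h2 := phz_loss F k2 (v.y J F) ε k1 (isLaw_cond F.isLaw (by linarith : 0 < Pe F.p B₀))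
      (fun ω => (zmV F k2 (v.y J F) ε).D ⌊γ * v.R J⌋₊ ω κ)
    have h3 : c * J ≤ CH (Pool.Agent.H49.Ent.cond F.p B₀ True)
      (fun ω => (zmV F k2 (v.y J F) ε).D ⌊γ * v.R J⌋₊ ω κ)
      (fun ω => (F.X J ω, F.T ω, (zmV F k2 (v.y J F) ε).Z ω)) := h1
    linarith
  have p14 := exp_pow (J := J) hC t5 hN₀ p9
  obtain ⟨D, hD⟩ : ∃ D, D = ⌊q * J⌋₊ + (N₀ + ⌊2 * s * J⌋₊) + ⌊γ * v.R J⌋₊ * (K + 1) + 2 :=
    ⟨_, rfl⟩
  have hnum := num4 (C := C) (X := Real.exp (C * (C₀ * τ * J + 1))) (N := N₀ + ⌊2 * s * J⌋₊)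
    (g := ⌊γ * v.R J⌋₊) (K := K) (w := ⌊w * v.R J⌋₊) (P₁ := ⌊(Lz - s) * v.R J⌋₊)
    (e := 2 * ⌊s * J⌋₊) (J' := v.R J) (P := v.P J) (w₂ := ⌊s * J⌋₊) (P₂ := M) (ρ₂ := 0)
    (J := v.P J + (2 * ⌊s * J⌋₊ + 0) + D)
    (M := ⌊q * J⌋₊) (by linarith) (Real.one_le_exp (by positivity)) p14 p1
    (by rw [two_mul]; exact p2) p3 (by rw [hD])
  have hlab' : Lb (zmV F k2 (v.y J F) ε) {κ, ι} k K ⌊s * J⌋₊ (v.R J) ⌊w * v.R J⌋₊
      ⌊(r' + s) * v.R J⌋₊ ⌊(Lz - s) * v.R J⌋₊ A := by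
    obtain ⟨V, z, z', G, h⟩ := hlab
    refine ⟨V, z, z', G, h.deg, h.dep, h.cls, h.pos, h.vel, fun ω hω b hb o => ?_⟩
    exact (h.lip ω hω b hb o).trans (pow_le_pow_right₀ (by norm_num) p8)
  obtain ⟨B', b1, b2, ga, gb, b3⟩ := htie F A hA0 k2 (v.y J F) ε (κ := κ) (ι := ι) (k := k)
    (e := ⌊s * J⌋₊) (M := M) (g := ⌊γ * v.R J⌋₊) (θ := C₀ * τ * J) hκι k1 (v.line J F)
    (hau.mono he le_rfl) (hav.mono he le_rfl) hlab' le_rfl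
    (show ⌊w * v.R J⌋₊ ≤ v.R J by omega) p6 p7 (by positivity)
    (zoom_tm htm v ε hτ0 hA k2 hA0) p4 p5 hact'
  refine ⟨B', b1, b2, ga, gb, fun ω hω => ⟨(b3 ω hω).1, (b3 ω hω).2.trans (le_trans ?_ hnum)⟩⟩
  refine mul_le_mul_of_nonneg_left ?_ (by positivity)
  have h1 : (0 : ℝ) ≤ 2 ^ (2 * ⌊s * J⌋₊ + 0) / 2 ^ (v.P J + (2 * ⌊s * J⌋₊ + 0) + D) := by
    positivity
  have h2 : (2 : ℝ) ^ v.P J * (2 ^ ⌊s * J⌋₊ / 2 ^ M) ≤ 2 ^ v.P J * (2 ^ ⌊s * J⌋₊ / 2 ^ M +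
      2 ^ (2 * ⌊s * J⌋₊ + 0) / 2 ^ (v.P J + (2 * ⌊s * J⌋₊ + 0) + D)) :=
    mul_le_mul_of_nonneg_left (by linarith) (by positivity)
  exact add_le_add le_rfl h2

/-- **The relation of the slopes** of the labels of the zooms of a class. -/
theorem rel_cls {S : PCl m} {C₀ : ℝ} (hC₀ : 0 ≤ C₀) (htm : TmC S C₀) (v : Vz m)
    (ε : Fin n → Fin m) {L' : Finset (Fin n) → Fin n → ℝ → ℝ → ℝ} (hL' : LamW (RecV S v ε) L')
    {κ ι k : Fin n} (hκι : κ ≠ ι) (hact : ActZ S v ε κ) {w' w r' s q : ℝ} (hw' : w' < w)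
    (hr0 : 0 ≤ r') (hw0 : 0 < w) (hw1 : w < 1) (hs : 0 < s) (hs1 : s ≤ 1) (hq : 0 ≤ q)
    (hrs : 8 * s ≤ (1 - v.b) * (1 - v.p) * (w - r'))
    (hL : q + 8 * s ≤ v.sc (L' {κ, ι} k w' r') - v.p * (1 - v.b) - v.tm w) :
    Bas S (fun J F A => ∀ (au cu av cv : PtT F → ℝ) (e M : ℕ), e ≤ ⌊s * J⌋₊ →
      ⌊(q + v.p * (1 - v.b) + 6 * s) * J⌋₊ ≤ M → Dp F A (ε κ) (ε ι) e M au cu →
      Dp F A (ε κ) (ε k) e M av cv → ∃ B : F.Ω → Prop, Sub B A ∧ Pe F.p A / 4 ≤ Pe F.p B ∧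
        ∃ ga gb : LnT F → ℝ, ∀ ω, B ω →
          |ga (slam F (v.B J + ⌊w * v.R J⌋₊) ω) + gb (slam F (v.B J + ⌊w * v.R J⌋₊) ω) *
            au (ptr F J ω) - av (ptr F J ω)| ≤ 1 / 2 ^ ⌊q * J⌋₊) := by
  obtain ⟨τ, hτ, J₁, h⟩ := rel_bnd hC₀ htm v ε hL' hκι hact hw' hr0 hw0 hw1 hs hs1 hq hrs hL
  refine ⟨τ, hτ, J₁, ?_⟩
  intro J hJ F A hA au cu av cv e M he hM hau hav
  obtain ⟨B, b1, b2, ga, gb, b3⟩ := h J hJ F A hA au cu av cv e M he hM hau hav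
  exact ⟨B, b1, b2, ga, gb, fun ω hω => (b3 ω hω).2⟩

end Pool.MIC6
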