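import Pool.Agent.H6.OWN.Rfm
import Pool.Agent.H6.OWN.AflZ
import Pool.Agent.H6.OWN.Bfm

/-!
# The relation of the slopes of a label of a zoom, with the natural errors

`rel_zmn`: `rel_fmn` in the zooms of a family.
-/

set_option autoImplicit false

namespace Pool.MIC6

open Finset MvPolynomial
open Pool.Agent.H49.Ent Pool.Agent.H32.Dense Pool.STK Pool.KA Pool.KSAT Pool.K2S Pool.PB Pool.GEN
open Pool.FLF (Fam.sub)
open Pool.GRD (LbP)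
open Pool.REX (zm zmV zmV_Z zmV_T zm_T)

variable {m n J : ℕ}

theorem num_g {C X T : ℝ} {N g K w P₁ R e P Mu Mv q₁ q₂ : ℕ} (hC : 1 ≤ C) (hX : 1 ≤ X)
    (hN : C * X ≤ 2 ^ N) (hT : 0 ≤ T) (n1 : N + g * (K + 1) + w + (q₁ + 3) ≤ P₁)
    (n2 : N + g * (K + 1) + w + 3 * e + (q₁ + 3) ≤ R)
    (n3 : N + g * (K + 1) + P + (q₁ + 3) ≤ Mv) (n4 : N + g * (K + 1) + P + (q₂ + 3) ≤ Mu)
    (n5 : N + g * (K + 1) + w + e + (q₂ + 3) ≤ R) :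
    C * (1 / (1 / 2 ^ g)) ^ (K + 1) * 2 ^ w * (X / 2 ^ P₁ + (2 ^ e) ^ 3 * (1 / 2 ^ R) +
      1 / 2 ^ w * (2 ^ P * (2 / 2 ^ Mv)) + T * (2 ^ P * (2 / 2 ^ Mu) / 2 ^ w +
        2 ^ e * (2 / 2 ^ R))) ≤ 1 / 2 ^ q₁ + T * (1 / 2 ^ q₂) := by
  have f1 : (1 : ℝ) / (1 / 2 ^ g) = 2 ^ g := by rw [one_div_one_div]
  rw [f1, ← pow_mul]
  have hCN : C ≤ 2 ^ N := (le_mul_of_one_le_right (by linarith) hX).trans hN
  have b : ∀ (Y : ℝ) (a b c : ℕ), 0 ≤ Y → Y ≤ 2 ^ N → N + g * (K + 1) + a + c ≤ b →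
      Y * 2 ^ (g * (K + 1)) * (2 ^ a / 2 ^ b) ≤ 1 / 2 ^ c := by
    intro Y a b c hY0 hY hab
    have h1 : Y * 2 ^ (g * (K + 1)) * (2 ^ a / 2 ^ b) ≤
        2 ^ N * 2 ^ (g * (K + 1)) * (2 ^ a / 2 ^ b) :=
      mul_le_mul_of_nonneg_right (mul_le_mul_of_nonneg_right hY (by positivity)) (by positivity)
    refine h1.trans ?_
    have e1 : (2 : ℝ) ^ N * 2 ^ (g * (K + 1)) * (2 ^ a / 2 ^ b) =
        2 ^ (N + g * (K + 1) + a) / 2 ^ b := by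
      rw [pow_add, pow_add]
      ring
    rw [e1]
    exact two_frac hab
  have c1 := b (C * X) w P₁ (q₁ + 3) (by positivity) hN (by omega)
  have c2 := b C (w + 3 * e) R (q₁ + 3) (by linarith) hCN (by omega)
  have c3 := b C P Mv (q₁ + 3) (by linarith) hCN (by omega)
  have c4 := b C P Mu (q₂ + 3) (by linarith) hCN (by omega)
  have c5 := b C (w + e) R (q₂ + 3) (by linarith) hCN (by omega)
  have e1 : C * 2 ^ (g * (K + 1)) * 2 ^ w * (X / 2 ^ P₁ + (2 ^ e) ^ 3 * (1 / 2 ^ R) +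
      1 / 2 ^ w * (2 ^ P * (2 / 2 ^ Mv)) + T * (2 ^ P * (2 / 2 ^ Mu) / 2 ^ w +
        2 ^ e * (2 / 2 ^ R))) = (C * X) * 2 ^ (g * (K + 1)) * (2 ^ w / 2 ^ P₁) +
      C * 2 ^ (g * (K + 1)) * (2 ^ (w + 3 * e) / 2 ^ R) +
      2 * (C * 2 ^ (g * (K + 1)) * (2 ^ P / 2 ^ Mv)) +
      T * (2 * (C * 2 ^ (g * (K + 1)) * (2 ^ P / 2 ^ Mu)) +
        2 * (C * 2 ^ (g * (K + 1)) * (2 ^ (w + e) / 2 ^ R))) := by
    have e0 : ((2 : ℝ) ^ e) ^ 3 = 2 ^ (3 * e) := by rw [← pow_mul, mul_comm]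
    rw [pow_add 2 w (3 * e), pow_add 2 w e, ← e0]
    field_simp
  rw [e1]
  have e2 : (1 : ℝ) / 2 ^ (q₁ + 3) = 1 / 2 ^ q₁ / 8 := by
    rw [pow_add]
    field_simp
    norm_num
  have e3 : (1 : ℝ) / 2 ^ (q₂ + 3) = 1 / 2 ^ q₂ / 8 := by
    rw [pow_add]
    field_simp
    norm_num
  rw [e2] at c1 c2 c3
  rw [e3] at c4 c5
  have p1 : (0 : ℝ) < 1 / 2 ^ q₁ := by positivity
  have p2 : (0 : ℝ) < 1 / 2 ^ q₂ := by positivity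
  have c6 : T * (2 * (C * 2 ^ (g * (K + 1)) * (2 ^ P / 2 ^ Mu)) +
        2 * (C * 2 ^ (g * (K + 1)) * (2 ^ (w + e) / 2 ^ R))) ≤ T * (1 / 2 ^ q₂) :=
    mul_le_mul_of_nonneg_left (by linarith) hT
  linarith

theorem num_h {C X Λ : ℝ} {N D M w hh R e P : ℕ} (hC : 1 ≤ C) (hX : 1 ≤ X) (hN : C * X ≤ 2 ^ N)
    (hΛ0 : 0 ≤ Λ) (hΛ : Λ ≤ 2 ^ D) (n1 : N + D + P + (hh + 2) ≤ M + w)
    (n2 : N + D + e + (hh + 2) ≤ R) :
    C * Λ * (((2 ^ P * (2 / 2 ^ M)) / 2 ^ w + 2 ^ e * (2 / 2 ^ R)) / (1 / 2 ^ hh)) ≤ 1 := by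
  have hCN : C ≤ 2 ^ N := (le_mul_of_one_le_right (by linarith) hX).trans hN
  have hCΛ : C * Λ ≤ 2 ^ N * 2 ^ D := mul_le_mul hCN hΛ hΛ0 (by positivity)
  rw [← pow_add] at hCΛ
  have h1 : 2 ^ (N + D) * (2 ^ P * (1 / 2 ^ (M + w))) ≤ (1 : ℝ) / 2 ^ (hh + 2) := by
    rw [← mul_assoc, ← pow_add, mul_one_div]
    exact two_frac n1
  have h2 : 2 ^ (N + D) * (2 ^ e * (1 / 2 ^ R)) ≤ (1 : ℝ) / 2 ^ (hh + 2) := by
    rw [← mul_assoc, ← pow_add, mul_one_div]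
    exact two_frac n2
  have e1 : C * Λ * (((2 ^ P * (2 / 2 ^ M)) / 2 ^ w + 2 ^ e * (2 / 2 ^ R)) / (1 / 2 ^ hh)) =
      2 ^ hh * 2 * (C * Λ * (2 ^ P * (1 / 2 ^ (M + w))) + C * Λ * (2 ^ e * (1 / 2 ^ R))) := by
    rw [pow_add 2 M w]
    field_simp
  rw [e1]
  have h3 : C * Λ * (2 ^ P * (1 / 2 ^ (M + w))) ≤ 1 / 2 ^ (hh + 2) :=
    (mul_le_mul_of_nonneg_right hCΛ (by positivity)).trans h1
  have h4 : C * Λ * (2 ^ e * (1 / 2 ^ R)) ≤ 1 / 2 ^ (hh + 2) :=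
    (mul_le_mul_of_nonneg_right hCΛ (by positivity)).trans h2
  have e2 : (2 : ℝ) ^ hh * 2 * (1 / 2 ^ (hh + 2) + 1 / 2 ^ (hh + 2)) = 1 := by
    rw [pow_add]
    field_simp
    norm_num
  calc 2 ^ hh * 2 * (C * Λ * (2 ^ P * (1 / 2 ^ (M + w))) + C * Λ * (2 ^ e * (1 / 2 ^ R))) ≤
        2 ^ hh * 2 * (1 / 2 ^ (hh + 2) + 1 / 2 ^ (hh + 2)) :=
        mul_le_mul_of_nonneg_left (add_le_add h3 h4) (by positivity)
    _ = 1 := e2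

/-- Samples with one exact point: the velocities in the zoom, with a linear part. -/
theorem zom_dt (F : Fam m J) {B P : ℕ} (hP : P ≤ J - B) {Y : Type} (yy : F.Ω → Y)
    (ε : Fin n → Fin m) {κ ι j : Fin n} {M : ℕ} {t a c : ℝ} {ω ω' : F.Ω}
    (a1 : |F.d ω (ε j) - t * F.d ω (ε ι) - c - a * F.d ω (ε κ)| ≤ 1 / 2 ^ M)
    (a2 : |F.d ω' (ε j) - t * F.d ω' (ε ι) - c - a * F.d ω' (ε κ)| ≤ 1 / 2 ^ M)
    (h : phz F hP yy ε ω = phz F hP yy ε ω') :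
    |((zmV F hP yy ε).d ω' j - t * (zmV F hP yy ε).d ω' ι) -
      ((zmV F hP yy ε).d ω j - t * (zmV F hP yy ε).d ω ι) -
      a * ((zmV F hP yy ε).d ω' κ - (zmV F hP yy ε).d ω κ)| ≤ 2 ^ P * (2 / 2 ^ M) := by
  obtain ⟨c1, c2, c3⟩ := phz_ptr F hP yy ε h
  rw [zmV_d, zmV_d, zmV_d, zmV_d, zmV_d, zmV_d, c3, c3, c3]
  have e1 : (2 ^ P * F.d ω' (ε j) - (((F.win B).L P ω').2 (ε j) : ℝ) -
      t * (2 ^ P * F.d ω' (ε ι) - (((F.win B).L P ω').2 (ε ι) : ℝ))) -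
      (2 ^ P * F.d ω (ε j) - (((F.win B).L P ω').2 (ε j) : ℝ) -
      t * (2 ^ P * F.d ω (ε ι) - (((F.win B).L P ω').2 (ε ι) : ℝ))) - a *
      (2 ^ P * F.d ω' (ε κ) - (((F.win B).L P ω').2 (ε κ) : ℝ) -
      (2 ^ P * F.d ω (ε κ) - (((F.win B).L P ω').2 (ε κ) : ℝ))) =
      2 ^ P * ((F.d ω' (ε j) - t * F.d ω' (ε ι) - c - a * F.d ω' (ε κ)) -
      (F.d ω (ε j) - t * F.d ω (ε ι) - c - a * F.d ω (ε κ))) := by ring
  rw [e1, abs_mul, abs_of_pos (by positivity : (0 : ℝ) < 2 ^ P)]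
  refine mul_le_mul_of_nonneg_left ?_ (by positivity)
  have e2 : (2 : ℝ) / 2 ^ M = 1 / 2 ^ M + 1 / 2 ^ M := by ring
  rw [e2]
  exact (abs_sub _ _).trans (add_le_add a2 a1)

/-- The hypotheses on the coordinate `k - th * ι` at the exact points. -/
def Dt (F : Fam m J) (A : F.Ω → Prop) (κ ι k : Fin m) (e M W : ℕ) (th cv av : PtT F → ℝ)
    (th' : LnT F → ℝ) : Prop :=
  ∀ ω, A ω → |th (ptr F J ω)| ≤ 2 ^ e ∧ |av (ptr F J ω)| ≤ 2 ^ e ∧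
    |F.d ω k - th (ptr F J ω) * F.d ω ι - cv (ptr F J ω) - av (ptr F J ω) * F.d ω κ| ≤
      1 / 2 ^ M ∧ th (ptr F J ω) = th' (slam F W ω)

/-- **The relation of the slopes of a label of a zoom**, with the natural errors. -/
theorem rel_zmn (m n K : ℕ) (hK : 1 ≤ K) : ∃ C : ℝ, 1 ≤ C ∧ ∀ {J : ℕ} (F : Fam m J)
    (A : F.Ω → Prop) (hA : 0 < Pe F.p A) {B P : ℕ} (hP : P ≤ J - B) {Y : Type} (yy : F.Ω → Y)
    (ε : Fin n → Fin m) {κ ι k : Fin n} {e r w W W₃ ρ P₁ g Mu Mv N h hh sp d q₁ q₂ : ℕ}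
    {au cu av cv th : PtT F → ℝ} {th' : LnT F → ℝ} {J0 : F.Ω → ℝ} {θ : ℝ}, κ ≠ ι → B ≤ J →
    (∀ ω ω' : F.Ω, slam F B ω = slam F B ω' → yy ω = yy ω') →
    Dp F A (ε κ) (ε ι) e Mu au cu → Dt F A (ε κ) (ε ι) (ε k) e Mv W th cv av th' →
    Lb (zmV F hP yy ε) {κ, ι} k K e r w ρ P₁ A → r ≤ J - B - P → w ≤ J - B - P →
    W ≤ W₃ → B + w ≤ W₃ → W₃ ≤ J → ρ + e + 5 ≤ w → 0 ≤ θ → (Fam.sub (zmV F hP yy ε) A hA).Tm θ →
    C * (θ + 1) ≤ (((J - B - P : ℕ) : ℝ) - w) * Real.log 2 → w + g + e + 5 ≤ J - B - P →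
    (∀ B₀ : F.Ω → Prop, Sub B₀ A → Pe F.p A / 4 < Pe F.p B₀ → Real.log (2 * (K + 2 : ℕ)) <
      CH (Pool.Agent.H49.Ent.cond F.p B₀ True) (fun ω => (zmV F hP yy ε).D g ω κ)
        (phz F hP yy ε)) →
    (∀ ω, A ω → |au (ptr F J ω) - J0 ω| ≤ 1 / 2 ^ h) → hh ≤ w + h →
    (∀ B₁ : F.Ω → Prop, Sub B₁ A → Pe F.p A / 4 ≤ Pe F.p B₁ → ∃ B' : F.Ω → Prop, Sub B' B₁ ∧
      Pe F.p B₁ / 2 ≤ Pe F.p B' ∧ ∀ ω, B' ω → ∃ ν : Fin (K + 2) → F.Ω,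
        (∀ i, B₁ (ν i) ∧ slam F W₃ (ν i) = slam F W₃ ω ∧
          J0 (ν i) = J0 ω) ∧
          ∀ i j, i ≠ j → 1 / 2 ^ sp ≤ |au (ptr F J (ν i)) - au (ptr F J (ν j))|) →
    w + sp ≤ hh + d → C * Real.exp (C * (θ + 1)) ≤ 2 ^ N →
    N + (d + g) * (K + 1) + P + (hh + 2) ≤ Mu + w →
    N + (d + g) * (K + 1) + e + (hh + 2) ≤ J - B - P →
    N + g * (K + 1) + w + (q₁ + 3) ≤ P₁ → N + g * (K + 1) + w + 3 * e + (q₁ + 3) ≤ J - B - P →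
    N + g * (K + 1) + P + (q₁ + 3) ≤ Mv → N + g * (K + 1) + P + (q₂ + 3) ≤ Mu →
    N + g * (K + 1) + w + e + (q₂ + 3) ≤ J - B - P →
    ∃ B' : F.Ω → Prop, Sub B' A ∧ Pe F.p A ≤ 8 * Pe F.p B' ∧
      ∃ sg tu : LnT F → ℝ, ∀ ω, B' ω →
        |tu (slam F W₃ ω)| ≤ 2 * 2 ^ e ∧
        |sg (slam F W₃ ω) + tu (slam F W₃ ω) * au (ptr F J ω) - av (ptr F J ω)| ≤
          1 / 2 ^ q₁ + |tu (slam F W₃ ω)| * (1 / 2 ^ q₂) := by
  classical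
  obtain ⟨C, hC, hrel⟩ := rel_fmn n K hK
  refine ⟨C, hC, ?_⟩
  intro J F A hA B P hP Y yy ε κ ι k e r w W W₃ ρ P₁ g Mu Mv N h hh sp d q₁ q₂ au cu av cv th th' J0
    θ hκι hB hyy hu hv hlab hr hw hW hW₃ hW₃J hρ hθ hTm hJθ hwg hact hJ0 hhh hnod hd hN n1 n2 n3 n4 n5 n6
    n7
  obtain ⟨V₁, z₁, z₁', G₁, h₁⟩ := hlab
  have hX : 1 ≤ Real.exp (C * (θ + 1)) := Real.one_le_exp (by positivity)
  have pe : (1 : ℝ) ≤ 2 ^ e := one_le_pow₀ (by norm_num)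
  obtain ⟨φ, hφ⟩ := ptr_coarse (zmV F hP yy ε) hr
  obtain ⟨R, hR⟩ : ∃ R, R = J - B - P := ⟨_, rfl⟩
  rw [← hR] at hw hwg n2 n4 n7
  obtain ⟨E₁, hE₁⟩ : ∃ E₁ : ℝ, E₁ = 2 ^ P * (2 / 2 ^ Mu) := ⟨_, rfl⟩
  have hE₁0 : 0 ≤ E₁ := by rw [hE₁]; positivity
  obtain ⟨μ, hμ⟩ : ∃ μ : ℝ, μ = E₁ / 2 ^ w + 2 ^ e * (2 / 2 ^ R) := ⟨_, rfl⟩
  have hμ0 : 0 ≤ μ := by rw [hμ]; positivity
  have hμH : 2 * μ ≤ 1 / 2 ^ hh := by
    have k1 : E₁ / 2 ^ w = 2 * (2 ^ P / 2 ^ (Mu + w)) := by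
      rw [hE₁, pow_add]
      field_simp
    have k2 : (2 : ℝ) ^ P / 2 ^ (Mu + w) ≤ 1 / 2 ^ (hh + 2) := two_frac (by omega)
    have k3 : (2 : ℝ) ^ e * (2 / 2 ^ R) = 2 * (2 ^ e / 2 ^ R) := by ring
    have k4 : (2 : ℝ) ^ e / 2 ^ R ≤ 1 / 2 ^ (hh + 2) := two_frac (by omega)
    have k5 : (1 : ℝ) / 2 ^ (hh + 2) = 1 / 2 ^ hh / 4 := by
      rw [pow_add]
      field_simp
      norm_num
    rw [hμ, k1, k3]
    have k7 : 0 < N + (d + g) * (K + 1) ∨ N + (d + g) * (K + 1) = 0 := by omega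
    rcases k7 with k7 | k7
    · have k8 : (2 : ℝ) ^ P / 2 ^ (Mu + w) ≤ 1 / 2 ^ (hh + 3) := two_frac (by omega)
      have k9 : (2 : ℝ) ^ e / 2 ^ R ≤ 1 / 2 ^ (hh + 3) := two_frac (by omega)
      have k10 : (1 : ℝ) / 2 ^ (hh + 3) = 1 / 2 ^ hh / 8 := by
        rw [pow_add]
        field_simp
        norm_num
      have k6 : (0 : ℝ) < 1 / 2 ^ hh := by positivity
      linarith
    · exfalso
      have k11 : N = 0 := by omega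
      rw [k11, pow_zero] at hN
      have k12 : 1 < Real.exp (C * (θ + 1)) := Real.one_lt_exp_iff.2 (by positivity)
      have k13 : Real.exp (C * (θ + 1)) ≤ C * Real.exp (C * (θ + 1)) :=
        le_mul_of_one_le_left (by positivity) hC
      linarith
  have hS : (1 : ℝ) / 2 ^ hh / (1 / 2 ^ sp * (1 / 2 ^ w)) ≤ 2 ^ d := by
    rw [div_le_iff₀ (by positivity)]
    have k1 : (2 : ℝ) ^ d * (1 / 2 ^ sp * (1 / 2 ^ w)) = 2 ^ d / 2 ^ (w + sp) := by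
      rw [pow_add]
      field_simp
    rw [k1, div_le_div_iff₀ (by positivity) (by positivity), one_mul, ← pow_add]
    exact pow_le_pow_right₀ (by norm_num) (by omega)
  obtain ⟨Λ, hΛ⟩ : ∃ Λ : ℝ, Λ = (1 / 2 ^ hh / (1 / 2 ^ sp * (1 / 2 ^ w))) ^ (K + 1) *
      (1 / (1 / 2 ^ g)) ^ (K + 1) := ⟨_, rfl⟩
  have hΛ0 : 0 ≤ Λ := by rw [hΛ]; positivity
  have hΛD : Λ ≤ 2 ^ ((d + g) * (K + 1)) := by
    have k1 : (1 : ℝ) / (1 / 2 ^ g) = 2 ^ g := by field_simp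
    have k4 : (2 : ℝ) ^ ((d + g) * (K + 1)) = (2 ^ d * 2 ^ g) ^ (K + 1) := by
      rw [pow_mul, pow_add 2 d g]
    rw [hΛ, k1, ← mul_pow, k4]
    have k2 : (1 : ℝ) / 2 ^ hh / (1 / 2 ^ sp * (1 / 2 ^ w)) * 2 ^ g ≤ 2 ^ d * 2 ^ g :=
      mul_le_mul_of_nonneg_right hS (by positivity)
    have k3 : (0 : ℝ) ≤ 1 / 2 ^ hh / (1 / 2 ^ sp * (1 / 2 ^ w)) * 2 ^ g := by positivity
    exact pow_le_pow_left₀ k3 k2 _
  have hclW : ∀ W', W' ≤ W₃ → ∀ ω ω' : F.Ω, slam F W₃ ω = slam F W₃ ω' →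
      slam F W' ω = slam F W' ω' := by
    intro W' hW' ω ω' h
    rw [slam_coarse F hW' hW₃J ω, slam_coarse F hW' hW₃J ω', h]
  have hcl : ∀ ω ω', slam F W₃ ω = slam F W₃ ω' →
      slam (zmV F hP yy ε) w ω = slam (zmV F hP yy ε) w ω' := fun ω ω' h =>
    Pool.GRW.zmV_of_slam F hP yy ε hB (by rw [← hR]; exact hw) hyy (hclW _ hW₃ _ _ h)
  obtain ⟨B', b1, b2, b3⟩ := hrel (zmV F hP yy ε) A hA (κ := κ) (ι := ι) (k := k)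
    (Φ := phz F hP yy ε) (Ju := fun ω => au (ptr F J ω)) (J0 := J0)
    (a₁ := fun ω => av (ptr F J ω)) (t₁ := fun ω => th (ptr F J ω))
    (H := 1 / 2 ^ hh) (μ := μ) (s := 1 / 2 ^ sp)
    (ρ := 1 / 2 ^ g) (s₀ := 1 / 2 ^ R) (θ := θ) (E₁ := 2 ^ P * (2 / 2 ^ Mv)) hκι h₁
    (by rw [← hR]; exact hw) hρ hθ
    hTm hJθ (by positivity) (by
      rw [div_le_one (by positivity)]
      exact one_le_pow₀ (by norm_num)) (by positivity) (by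
      have e1 : (1 : ℝ) / 2 ^ g * (1 / 2 ^ w) / 16 = 1 / 2 ^ (w + g + 4) := by
        rw [pow_add, pow_add]
        norm_num
        field_simp
      rw [e1]
      have k1 : (1 + 2 ^ e) * ((1 : ℝ) / 2 ^ R) ≤ (2 ^ (e + 1)) / 2 ^ R := by
        rw [mul_one_div]
        refine div_le_div_of_nonneg_right ?_ (by positivity)
        rw [pow_succ]
        linarith
      exact k1.trans (two_frac (by omega))) hμ0 hμH (by positivity)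
    (by positivity) (fun ω hω => by
      have k1 := mul_le_mul_of_nonneg_right (hJ0 ω hω) (by positivity : (0 : ℝ) ≤ 1 / 2 ^ w)
      refine k1.trans ?_
      have k2 : (1 : ℝ) / 2 ^ h * (1 / 2 ^ w) = 1 / 2 ^ (w + h) := by
        rw [pow_add]
        field_simp
      rw [k2]
      exact inv_mono hhh)
    (fun ω ω' hω hω' h' => by
      have hx : ∀ j, |(zmV F hP yy ε).x ω' j - (zmV F hP yy ε).x ω j| ≤ 1 / 2 ^ R := by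
        intro j
        rw [hR]
        exact zom_x F hP yy ε h' j
      have hdu := zom_d F hP yy ε hu hω hω' h'
      obtain ⟨c1, c2, c3⟩ := phz_ptr F hP yy ε h'
      rw [← hE₁] at hdu
      refine ⟨by rw [hφ, hφ, c2], hx, ?_, ?_, ?_⟩
      · have k1 : |au (ptr F J ω) * ((zmV F hP yy ε).x ω' κ - (zmV F hP yy ε).x ω κ)| ≤
            2 ^ e * (1 / 2 ^ R) := by
          rw [abs_mul]
          exact mul_le_mul (hu ω hω).1 (hx κ) (abs_nonneg _) (by positivity)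
        have k2 : 1 / 2 ^ R ≤ 2 ^ e * ((1 : ℝ) / 2 ^ R) :=
          le_mul_of_one_le_left (by positivity) pe
        refine (abs_sub _ _).trans ((add_le_add (hx ι) k1).trans ?_)
        have k3 : (2 : ℝ) ^ e * (2 / 2 ^ R) = 2 * (2 ^ e * (1 / 2 ^ R)) := by
          ring
        have k4 : 0 ≤ E₁ / 2 ^ w := by positivity
        rw [hμ, k3]
        linarith
      · refine hdu.trans ?_
        have k1 : 2 ^ w * μ = E₁ + 2 ^ w * (2 ^ e * (2 / 2 ^ R)) := by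
          rw [hμ, mul_add]
          field_simp
        rw [k1]
        have : (0 : ℝ) ≤ 2 ^ w * (2 ^ e * (2 / 2 ^ R)) := by positivity
        linarith
      · have a1 := (hv ω hω).2.2.1
        have a2 := (hv ω' hω').2.2.1
        rw [← c1] at a2
        exact zom_dt F hP yy ε a1 a2 h')
    (fun ω hω => (hu ω hω).1) (fun ω hω => (hv ω hω).2.1) (fun ω hω => (hv ω hω).1)
    (by positivity) (by
      intro B₁ hB₁ hPB₁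
      have hPB₁' : Pe F.p A / 2 ≤ Pe F.p B₁ := hPB₁
      have hB₁0 : 0 < Pe F.p B₁ := by linarith
      obtain ⟨B', b1, b2, b3⟩ := nod_of (F := zmV F hP yy ε) (K + 2) (B := B₁) hB₁0 (κ := κ)
        (g := g) (Φ := phz F hP yy ε) (fun B₀ hB₀ hPB₀ => by
          refine hact B₀ (fun ω hω => hB₁ ω (hB₀ ω hω)) ?_
          have hPB₀' : Pe F.p B₁ / 2 < Pe F.p B₀ := hPB₀
          linarith)
      exact ⟨B', b1, b2, b3⟩) (by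
      intro B₁ hB₁ hPB₁
      obtain ⟨B', b1, b2, b3⟩ := hnod B₁ hB₁ hPB₁
      refine ⟨B', b1, b2, fun ω hω => ?_⟩
      obtain ⟨ν, d1, d2⟩ := b3 ω hω
      refine ⟨ν, fun i => ⟨(d1 i).1, hcl _ _ (d1 i).2.1, (d1 i).2.2, ?_⟩, d2⟩
      show th (ptr F J (ν i)) = th (ptr F J ω)
      rw [(hv _ (hB₁ _ (d1 i).1)).2.2.2, (hv _ (hB₁ _ (b1 ω hω))).2.2.2,
        hclW _ hW _ _ (d1 i).2.1]) (by
      rw [← hΛ, hμ, hE₁]
      exact num_h hC hX hN hΛ0 hΛD n1 n2)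
  have hfac : ∀ f : LnT (zmV F hP yy ε) → ℝ, ∃ th : LnT F → ℝ, ∀ ω, th (slam F W₃ ω) =
      f (slam (zmV F hP yy ε) w ω) := by
    intro f
    refine ⟨fun s => if hs : ∃ ω, slam F W₃ ω = s then
      f (slam (zmV F hP yy ε) w hs.choose) else 0, fun ω => ?_⟩
    have hs : ∃ ω', slam F W₃ ω' = slam F W₃ ω := ⟨ω, rfl⟩
    simp only [dif_pos hs]
    rw [hcl _ _ hs.choose_spec]
  obtain ⟨ga, hga⟩ := hfac (gsl w z₁' G₁ κ)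
  obtain ⟨gb, hgb⟩ := hfac (gsl w z₁' G₁ ι)
  obtain ⟨td, htd⟩ : ∃ td : LnT F → ℝ, ∀ ω, td (slam F W₃ ω) = th' (slam F W ω) := by
    refine ⟨fun s => if hs : ∃ ω, slam F W₃ ω = s then
      th' (slam F W hs.choose) else 0, fun ω => ?_⟩
    have hs : ∃ ω', slam F W₃ ω' = slam F W₃ ω := ⟨ω, rfl⟩
    simp only [dif_pos hs]
    rw [hclW _ hW _ _ hs.choose_spec]
  have hPB' : Pe F.p A ≤ 8 * Pe F.p B' := by
    have : Pe F.p A / 8 ≤ Pe F.p B' := b2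
    linarith
  refine ⟨B', b1, hPB', ga, fun s => gb s - td s, fun ω hω => ?_⟩
  have hωA := b1 ω hω
  have htt : td (slam F W₃ ω) = th (ptr F J ω) := by
    rw [htd, (hv ω hωA).2.2.2]
  show |gb (slam F W₃ ω) - td (slam F W₃ ω)| ≤ _ ∧
    |ga (slam F W₃ ω) + (gb (slam F W₃ ω) - td (slam F W₃ ω)) *
      au (ptr F J ω) - av (ptr F J ω)| ≤ _ + |gb (slam F W₃ ω) -
        td (slam F W₃ ω)| * _
  rw [htt, hga, hgb]
  refine ⟨?_, ?_⟩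
  · rw [two_mul]
    refine (abs_sub _ _).trans (add_le_add ?_ (hv ω hωA).1)
    unfold gsl
    rw [gpt_eq (zmV F hP yy ε) (by rw [← hR]; exact hw)]
    refine grad_box h₁ (by rw [← hR]; exact hw) hρ hωA (σ := 0) ⟨le_rfl, zero_le_one⟩ rfl
      (fun i _ => ?_) ι
    show |wp (zmV F hP yy ε) w ω 0 i - wp (zmV F hP yy ε) w ω 0 i| ≤ _
    rw [sub_self, abs_zero]
    positivity
  · refine (b3 ω hω).trans ?_
    rw [hμ, hE₁]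
    exact num_g hC hX hN (abs_nonneg _) n3 n4 n5 n6 n7

end Pool.MIC6
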