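import Pool.Agent.H6.OWN.Rfr
import Pool.Agent.H6.OWN.Rzm

/-!
# The relation of the slopes of a label of a zoom, for any radius

`rel_zmr`: `rel_zmn` with a bound of the slopes at the start of the window in the place of the bound
of the gradients in a ball.
-/

set_option autoImplicit false

namespace Pool.MIC6

open Finset MvPolynomial
open Pool.Agent.H49.Ent Pool.Agent.H32.Dense Pool.STK Pool.KA Pool.KSAT Pool.K2S Pool.PB Pool.GEN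
open Pool.FLF (Fam.sub)
open Pool.GRD (LbP)
open Pool.REX (zm zmV zmV_Z zmV_T zm_T)

variable {m n J : ℕ}

/-- **The relation of the slopes of a label of a zoom**, with the natural errors, for any radius. -/
theorem rel_zmr (m n K : ℕ) (hK : 1 ≤ K) : ∃ C : ℝ, 1 ≤ C ∧ ∀ {J : ℕ} (F : Fam m J)
    (A : F.Ω → Prop) (hA : 0 < Pe F.p A) {B P : ℕ} (hP : P ≤ J - B) {Y : Type} (yy : F.Ω → Y)
    (ε : Fin n → Fin m) {κ ι k : Fin n} {e r w W W₃ P₁ g Mu Mv N h hh sp d q₁ q₂ : ℕ}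
    {au cu av cv th : PtT F → ℝ} {th' : LnT F → ℝ} {J0 : F.Ω → ℝ} {θ : ℝ} {V₁ : Type}
    {z₁ : PtT (zmV F hP yy ε) → V₁} {z₁' : LnT (zmV F hP yy ε) → V₁}
    {G₁ : V₁ → MvPolynomial (Option (Fin n)) ℝ}, κ ≠ ι → B ≤ J →
    (∀ ω ω' : F.Ω, slam F B ω = slam F B ω' → yy ω = yy ω') →
    Dp F A (ε κ) (ε ι) e Mu au cu → Dt F A (ε κ) (ε ι) (ε k) e Mv W th cv av th' →
    LbP (zmV F hP yy ε) {κ, ι} k K r w P₁ A z₁ z₁' G₁ → r ≤ J - B - P → w ≤ J - B - P →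
    W ≤ W₃ → B + w ≤ W₃ → W₃ ≤ J →
    (∀ ω, A ω → ∀ j, |gsl w z₁' G₁ j (slam (zmV F hP yy ε) w ω)| ≤ 2 ^ e) → 0 ≤ θ →
    (Fam.sub (zmV F hP yy ε) A hA).Tm θ →
    C * (θ + 1) ≤ (((J - B - P : ℕ) : ℝ) - w) * Real.log 2 → w + g + e + 5 ≤ J - B - P →
    (∀ B₀ : F.Ω → Prop, Sub B₀ A → Pe F.p A / 4 < Pe F.p B₀ → Real.log (2 * (K + 2 : ℕ)) <
      CH (Pool.Agent.H49.Ent.cond F.p B₀ True) (fun ω => (zmV F hP yy ε).D g ω κ)
        (phz F hP yy ε)) →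
    (∀ ω, A ω → |au (ptr F J ω) - J0 ω| ≤ 1 / 2 ^ h) → hh ≤ w + h →
    (∀ B₁ : F.Ω → Prop, Sub B₁ A → Pe F.p A / 4 ≤ Pe F.p B₁ → ∃ B' : F.Ω → Prop, Sub B' B₁ ∧
      Pe F.p B₁ / 2 ≤ Pe F.p B' ∧ ∀ ω, B' ω → ∃ ν : Fin (K + 2) → F.Ω,
        (∀ i, B₁ (ν i) ∧ slam F W₃ (ν i) = slam F W₃ ω ∧
          J0 (ν i) = J0 ω) ∧
          ∀ i j, i ≠ j → 1 / 2 ^ sp ≤ |au (ptr F J (ν i)) - au (ptr F J (ν j))|) →
    w + sp ≤ hh + d → C * Real.exp (C * (θ + 1)) ≤ 2 ^ N →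
    N + (d + g) * (K + 1) + P + (hh + 2) ≤ Mu + w →
    N + (d + g) * (K + 1) + e + (hh + 2) ≤ J - B - P →
    N + g * (K + 1) + w + (q₁ + 3) ≤ P₁ → N + g * (K + 1) + w + 3 * e + (q₁ + 3) ≤ J - B - P →
    N + g * (K + 1) + P + (q₁ + 3) ≤ Mv → N + g * (K + 1) + P + (q₂ + 3) ≤ Mu →
    N + g * (K + 1) + w + e + (q₂ + 3) ≤ J - B - P →
    ∃ B' : F.Ω → Prop, Sub B' A ∧ Pe F.p A ≤ 8 * Pe F.p B' ∧
      ∃ sg tu : LnT F → ℝ, ∀ ω, B' ω →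
        |tu (slam F W₃ ω)| ≤ 2 * 2 ^ e ∧
        |sg (slam F W₃ ω) + tu (slam F W₃ ω) * au (ptr F J ω) - av (ptr F J ω)| ≤
          1 / 2 ^ q₁ + |tu (slam F W₃ ω)| * (1 / 2 ^ q₂) := by
  classical
  obtain ⟨C, hC, hrel⟩ := rel_fmr n K hK
  refine ⟨C, hC, ?_⟩
  intro J F A hA B P hP Y yy ε κ ι k e r w W W₃ P₁ g Mu Mv N h hh sp d q₁ q₂ au cu av cv th th' J0
    θ V₁ z₁ z₁' G₁ hκι hB hyy hu hv h₁ hr hw hW hW₃ hW₃J hgs hθ hTm hJθ hwg hact hJ0 hhh hnod hd hN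
    n1 n2 n3 n4 n5 n6 n7
  have hX : 1 ≤ Real.exp (C * (θ + 1)) := Real.one_le_exp (by positivity)
  have pe : (1 : ℝ) ≤ 2 ^ e := one_le_pow₀ (by norm_num)
  obtain ⟨φ, hφ⟩ := ptr_coarse (zmV F hP yy ε) hr
  obtain ⟨R, hR⟩ : ∃ R, R = J - B - P := ⟨_, rfl⟩
  rw [← hR] at hw hwg n2 n4 n7
  obtain ⟨E₁, hE₁⟩ : ∃ E₁ : ℝ, E₁ = 2 ^ P * (2 / 2 ^ Mu) := ⟨_, rfl⟩
  have hE₁0 : 0 ≤ E₁ := by rw [hE₁]; positivity
  obtain ⟨μ, hμ⟩ : ∃ μ : ℝ, μ = E₁ / 2 ^ w + 2 ^ e * (2 / 2 ^ R) := ⟨_, rfl⟩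
  have hμ0 : 0 ≤ μ := by rw [hμ]; positivity
  have hμH : 2 * μ ≤ 1 / 2 ^ hh := by
    have k1 : E₁ / 2 ^ w = 2 * (2 ^ P / 2 ^ (Mu + w)) := by
      rw [hE₁, pow_add]
      field_simp
    have k2 : (2 : ℝ) ^ P / 2 ^ (Mu + w) ≤ 1 / 2 ^ (hh + 2) := two_frac (by omega)
    have k3 : (2 : ℝ) ^ e * (2 / 2 ^ R) = 2 * (2 ^ e / 2 ^ R) := by ring
    have k4 : (2 : ℝ) ^ e / 2 ^ R ≤ 1 / 2 ^ (hh + 2) := two_frac (by omega)
    have k5 : (1 : ℝ) / 2 ^ (hh + 2) = 1 / 2 ^ hh / 4 := by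
      rw [pow_add]
      field_simp
      norm_num
    rw [hμ, k1, k3]
    have k7 : 0 < N + (d + g) * (K + 1) ∨ N + (d + g) * (K + 1) = 0 := by omega
    rcases k7 with k7 | k7
    · have k8 : (2 : ℝ) ^ P / 2 ^ (Mu + w) ≤ 1 / 2 ^ (hh + 3) := two_frac (by omega)
      have k9 : (2 : ℝ) ^ e / 2 ^ R ≤ 1 / 2 ^ (hh + 3) := two_frac (by omega)
      have k10 : (1 : ℝ) / 2 ^ (hh + 3) = 1 / 2 ^ hh / 8 := by
        rw [pow_add]
        field_simp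
        norm_num
      have k6 : (0 : ℝ) < 1 / 2 ^ hh := by positivity
      linarith
    · exfalso
      have k11 : N = 0 := by omega
      rw [k11, pow_zero] at hN
      have k12 : 1 < Real.exp (C * (θ + 1)) := Real.one_lt_exp_iff.2 (by positivity)
      have k13 : Real.exp (C * (θ + 1)) ≤ C * Real.exp (C * (θ + 1)) :=
        le_mul_of_one_le_left (by positivity) hC
      linarith
  have hS : (1 : ℝ) / 2 ^ hh / (1 / 2 ^ sp * (1 / 2 ^ w)) ≤ 2 ^ d := by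
    rw [div_le_iff₀ (by positivity)]
    have k1 : (2 : ℝ) ^ d * (1 / 2 ^ sp * (1 / 2 ^ w)) = 2 ^ d / 2 ^ (w + sp) := by
      rw [pow_add]
      field_simp
    rw [k1, div_le_div_iff₀ (by positivity) (by positivity), one_mul, ← pow_add]
    exact pow_le_pow_right₀ (by norm_num) (by omega)
  obtain ⟨Λ, hΛ⟩ : ∃ Λ : ℝ, Λ = (1 / 2 ^ hh / (1 / 2 ^ sp * (1 / 2 ^ w))) ^ (K + 1) *
      (1 / (1 / 2 ^ g)) ^ (K + 1) := ⟨_, rfl⟩
  have hΛ0 : 0 ≤ Λ := by rw [hΛ]; positivity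
  have hΛD : Λ ≤ 2 ^ ((d + g) * (K + 1)) := by
    have k1 : (1 : ℝ) / (1 / 2 ^ g) = 2 ^ g := by field_simp
    have k4 : (2 : ℝ) ^ ((d + g) * (K + 1)) = (2 ^ d * 2 ^ g) ^ (K + 1) := by
      rw [pow_mul, pow_add 2 d g]
    rw [hΛ, k1, ← mul_pow, k4]
    have k2 : (1 : ℝ) / 2 ^ hh / (1 / 2 ^ sp * (1 / 2 ^ w)) * 2 ^ g ≤ 2 ^ d * 2 ^ g :=
      mul_le_mul_of_nonneg_right hS (by positivity)
    have k3 : (0 : ℝ) ≤ 1 / 2 ^ hh / (1 / 2 ^ sp * (1 / 2 ^ w)) * 2 ^ g := by positivity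
    exact pow_le_pow_left₀ k3 k2 _
  have hclW : ∀ W', W' ≤ W₃ → ∀ ω ω' : F.Ω, slam F W₃ ω = slam F W₃ ω' →
      slam F W' ω = slam F W' ω' := by
    intro W' hW' ω ω' h
    rw [slam_coarse F hW' hW₃J ω, slam_coarse F hW' hW₃J ω', h]
  have hcl : ∀ ω ω', slam F W₃ ω = slam F W₃ ω' →
      slam (zmV F hP yy ε) w ω = slam (zmV F hP yy ε) w ω' := fun ω ω' h =>
    Pool.GRW.zmV_of_slam F hP yy ε hB (by rw [← hR]; exact hw) hyy (hclW _ hW₃ _ _ h)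
  obtain ⟨B', b1, b2, b3⟩ := hrel (zmV F hP yy ε) A hA (κ := κ) (ι := ι) (k := k)
    (Φ := phz F hP yy ε) (Ju := fun ω => au (ptr F J ω)) (J0 := J0)
    (a₁ := fun ω => av (ptr F J ω)) (t₁ := fun ω => th (ptr F J ω))
    (H := 1 / 2 ^ hh) (μ := μ) (s := 1 / 2 ^ sp)
    (ρ := 1 / 2 ^ g) (s₀ := 1 / 2 ^ R) (θ := θ) (E₁ := 2 ^ P * (2 / 2 ^ Mv)) hκι h₁
    (by rw [← hR]; exact hw) hgs hθ
    hTm hJθ (by positivity) (by
      rw [div_le_one (by positivity)]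
      exact one_le_pow₀ (by norm_num)) (by positivity) (by
      have e1 : (1 : ℝ) / 2 ^ g * (1 / 2 ^ w) / 16 = 1 / 2 ^ (w + g + 4) := by
        rw [pow_add, pow_add]
        norm_num
        field_simp
      rw [e1]
      have k1 : (1 + 2 ^ e) * ((1 : ℝ) / 2 ^ R) ≤ (2 ^ (e + 1)) / 2 ^ R := by
        rw [mul_one_div]
        refine div_le_div_of_nonneg_right ?_ (by positivity)
        rw [pow_succ]
        linarith
      exact k1.trans (two_frac (by omega))) hμ0 hμH (by positivity)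
    (by positivity) (fun ω hω => by
      have k1 := mul_le_mul_of_nonneg_right (hJ0 ω hω) (by positivity : (0 : ℝ) ≤ 1 / 2 ^ w)
      refine k1.trans ?_
      have k2 : (1 : ℝ) / 2 ^ h * (1 / 2 ^ w) = 1 / 2 ^ (w + h) := by
        rw [pow_add]
        field_simp
      rw [k2]
      exact inv_mono hhh)
    (fun ω ω' hω hω' h' => by
      have hx : ∀ j, |(zmV F hP yy ε).x ω' j - (zmV F hP yy ε).x ω j| ≤ 1 / 2 ^ R := by
        intro j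
        rw [hR]
        exact zom_x F hP yy ε h' j
      have hdu := zom_d F hP yy ε hu hω hω' h'
      obtain ⟨c1, c2, c3⟩ := phz_ptr F hP yy ε h'
      rw [← hE₁] at hdu
      refine ⟨by rw [hφ, hφ, c2], hx, ?_, ?_, ?_⟩
      · have k1 : |au (ptr F J ω) * ((zmV F hP yy ε).x ω' κ - (zmV F hP yy ε).x ω κ)| ≤
            2 ^ e * (1 / 2 ^ R) := by
          rw [abs_mul]
          exact mul_le_mul (hu ω hω).1 (hx κ) (abs_nonneg _) (by positivity)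
        have k2 : 1 / 2 ^ R ≤ 2 ^ e * ((1 : ℝ) / 2 ^ R) :=
          le_mul_of_one_le_left (by positivity) pe
        refine (abs_sub _ _).trans ((add_le_add (hx ι) k1).trans ?_)
        have k3 : (2 : ℝ) ^ e * (2 / 2 ^ R) = 2 * (2 ^ e * (1 / 2 ^ R)) := by
          ring
        have k4 : 0 ≤ E₁ / 2 ^ w := by positivity
        rw [hμ, k3]
        linarith
      · refine hdu.trans ?_
        have k1 : 2 ^ w * μ = E₁ + 2 ^ w * (2 ^ e * (2 / 2 ^ R)) := by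
          rw [hμ, mul_add]
          field_simp
        rw [k1]
        have : (0 : ℝ) ≤ 2 ^ w * (2 ^ e * (2 / 2 ^ R)) := by positivity
        linarith
      · have a1 := (hv ω hω).2.2.1
        have a2 := (hv ω' hω').2.2.1
        rw [← c1] at a2
        exact zom_dt F hP yy ε a1 a2 h')
    (fun ω hω => (hu ω hω).1) (fun ω hω => (hv ω hω).2.1) (fun ω hω => (hv ω hω).1)
    (by positivity) (by
      intro B₁ hB₁ hPB₁
      have hPB₁' : Pe F.p A / 2 ≤ Pe F.p B₁ := hPB₁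
      have hB₁0 : 0 < Pe F.p B₁ := by linarith
      obtain ⟨B', b1, b2, b3⟩ := nod_of (F := zmV F hP yy ε) (K + 2) (B := B₁) hB₁0 (κ := κ)
        (g := g) (Φ := phz F hP yy ε) (fun B₀ hB₀ hPB₀ => by
          refine hact B₀ (fun ω hω => hB₁ ω (hB₀ ω hω)) ?_
          have hPB₀' : Pe F.p B₁ / 2 < Pe F.p B₀ := hPB₀
          linarith)
      exact ⟨B', b1, b2, b3⟩) (by
      intro B₁ hB₁ hPB₁
      obtain ⟨B', b1, b2, b3⟩ := hnod B₁ hB₁ hPB₁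
      refine ⟨B', b1, b2, fun ω hω => ?_⟩
      obtain ⟨ν, d1, d2⟩ := b3 ω hω
      refine ⟨ν, fun i => ⟨(d1 i).1, hcl _ _ (d1 i).2.1, (d1 i).2.2, ?_⟩, d2⟩
      show th (ptr F J (ν i)) = th (ptr F J ω)
      rw [(hv _ (hB₁ _ (d1 i).1)).2.2.2, (hv _ (hB₁ _ (b1 ω hω))).2.2.2,
        hclW _ hW _ _ (d1 i).2.1]) (by
      rw [← hΛ, hμ, hE₁]
      exact num_h hC hX hN hΛ0 hΛD n1 n2)
  have hfac : ∀ f : LnT (zmV F hP yy ε) → ℝ, ∃ th : LnT F → ℝ, ∀ ω, th (slam F W₃ ω) =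
      f (slam (zmV F hP yy ε) w ω) := by
    intro f
    refine ⟨fun s => if hs : ∃ ω, slam F W₃ ω = s then
      f (slam (zmV F hP yy ε) w hs.choose) else 0, fun ω => ?_⟩
    have hs : ∃ ω', slam F W₃ ω' = slam F W₃ ω := ⟨ω, rfl⟩
    simp only [dif_pos hs]
    rw [hcl _ _ hs.choose_spec]
  obtain ⟨ga, hga⟩ := hfac (gsl w z₁' G₁ κ)
  obtain ⟨gb, hgb⟩ := hfac (gsl w z₁' G₁ ι)
  obtain ⟨td, htd⟩ : ∃ td : LnT F → ℝ, ∀ ω, td (slam F W₃ ω) = th' (slam F W ω) := by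
    refine ⟨fun s => if hs : ∃ ω, slam F W₃ ω = s then
      th' (slam F W hs.choose) else 0, fun ω => ?_⟩
    have hs : ∃ ω', slam F W₃ ω' = slam F W₃ ω := ⟨ω, rfl⟩
    simp only [dif_pos hs]
    rw [hclW _ hW _ _ hs.choose_spec]
  have hPB' : Pe F.p A ≤ 8 * Pe F.p B' := by
    have : Pe F.p A / 8 ≤ Pe F.p B' := b2
    linarith
  refine ⟨B', b1, hPB', ga, fun s => gb s - td s, fun ω hω => ?_⟩
  have hωA := b1 ω hω
  have htt : td (slam F W₃ ω) = th (ptr F J ω) := by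
    rw [htd, (hv ω hωA).2.2.2]
  show |gb (slam F W₃ ω) - td (slam F W₃ ω)| ≤ _ ∧
    |ga (slam F W₃ ω) + (gb (slam F W₃ ω) - td (slam F W₃ ω)) *
      au (ptr F J ω) - av (ptr F J ω)| ≤ _ + |gb (slam F W₃ ω) -
        td (slam F W₃ ω)| * _
  rw [htt, hga, hgb]
  refine ⟨?_, ?_⟩
  · rw [two_mul]
    refine (abs_sub _ _).trans (add_le_add ?_ (hv ω hωA).1)
    exact hgs ω hωA ι
  · refine (b3 ω hω).trans ?_
    rw [hμ, hE₁]
    exact num_g hC hX hN (abs_nonneg _) n3 n4 n5 n6 n7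

end Pool.MIC6
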