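import Pool.Agent.H6.OWN.Her
import Pool.Agent.H6.OWN.Afs

/-!
# The coefficients of the labels in different windows

`slo_two`: if the zooms have a gain, then two relations `ga + gb au = av` in two windows, with
functions of the line in the window, have coefficients `gb` which differ by the natural amount,
except on a small event. `dp_uni`: the velocity data are unique up to a small event.
-/

set_option autoImplicit false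

namespace Pool.MIC6

open Finset MvPolynomial
open Pool.Agent.H49.Ent Pool.Agent.H32.Dense Pool.STK Pool.KA Pool.KSAT Pool.K2S Pool.PB Pool.GEN
open Pool.S6C
open Pool.FLF (Fam.sub)
open Pool.GRD (LbP)
open Pool.REX

variable {m n J : ℕ}

/-- **The coefficient in a window and in a zoom.** -/
theorem slo_one {S : PCl m} {C₀ : ℝ} (htm : TmC S C₀)
    {L : Finset (Fin m) → Fin m → ℝ → ℝ → ℝ} (hL : LamW S L) (v : Vz m) {y u : Fin m}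
    {w W t qz q x : ℝ} (hw0 : 0 < w) (hw1 : w < 1) (hW : v.tm w ≤ W)
    (hcont : ContinuousAt (fun W => L {y} u W 0) W) (hUW : W < L {y} u W 0)
    (hU1 : L {y} u W 0 + x ≤ 1) (hx : 0 < x) (ht : 0 ≤ t)
    (hqz : t + (L {y} u W 0 - W) + x ≤ qz) (hq : t + (L {y} u W 0 - W) + x ≤ q) :
    ∃ e₀ : ℝ, 0 < e₀ ∧ Bas S (fun J F A => ∀ (au cu av : PtT F → ℝ) (e M : ℕ),
      e ≤ ⌊e₀ * J⌋₊ → ⌊(L {y} u W 0 - W + x) * J⌋₊ ≤ M → Dp F A y u e M au cu →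
      ∀ ga gb ga₁ gb₁ : LnT F → ℝ,
      (∀ ω, A ω → |ga (slam F (v.B J + ⌊w * v.R J⌋₊) ω) +
        gb (slam F (v.B J + ⌊w * v.R J⌋₊) ω) * au (ptr F J ω) - av (ptr F J ω)| ≤
          1 / 2 ^ ⌊qz * J⌋₊) →
      (∀ ω, A ω → |ga₁ (slam F (⌊W * J⌋₊ + 2) ω) + gb₁ (slam F (⌊W * J⌋₊ + 2) ω) *
        au (ptr F J ω) - av (ptr F J ω)| ≤ 1 / 2 ^ ⌊q * J⌋₊) →
      ∃ B : F.Ω → Prop, Sub B A ∧ Pe F.p A / 2 ≤ Pe F.p B ∧ ∀ ω, B ω →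
        |gb (slam F (v.B J + ⌊w * v.R J⌋₊) ω) - gb₁ (slam F (⌊W * J⌋₊ + 2) ω)| ≤
          1 / 2 ^ (⌊t * J⌋₊ + 1)) := by
  classical
  have hb := v.b0
  have hb1 := v.b1
  have hp := v.p0
  have hp1 := v.p1
  have hcp : 0 < (1 - v.b) * (1 - v.p) := mul_pos (by linarith) (by linarith)
  have htw0 : 0 < v.tm w := by
    have h1 : v.tm w = v.b + (1 - v.b) * (1 - v.p) * w := rfl
    rw [h1]
    have : 0 < (1 - v.b) * (1 - v.p) * w := mul_pos hcp hw0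
    linarith
  obtain ⟨U, hUd⟩ : ∃ U, U = L {y} u W 0 := ⟨_, rfl⟩
  rw [← hUd] at hUW hU1 hqz hq ⊢
  obtain ⟨s, hs⟩ : ∃ s, s = x / 16 := ⟨_, rfl⟩
  have hs0 : 0 < s := by rw [hs]; linarith
  obtain ⟨η, hη, hηc⟩ := Metric.continuousAt_iff.1 hcont s hs0
  obtain ⟨o, hod⟩ : ∃ o, o = min (min s ((U - W) / 2)) (η / 2) := ⟨_, rfl⟩
  have ho0 : 0 < o := by rw [hod]; exact lt_min (lt_min hs0 (by linarith)) (by linarith)
  have ho1 : o ≤ s := by rw [hod]; exact (min_le_left _ _).trans (min_le_left _ _)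
  have ho3 : o ≤ (U - W) / 2 := by rw [hod]; exact (min_le_left _ _).trans (min_le_right _ _)
  have ho2 : o ≤ η / 2 := by rw [hod]; exact min_le_right _ _
  obtain ⟨Wm, hWm⟩ : ∃ W', W' = W + o := ⟨_, rfl⟩
  obtain ⟨Um, hUm⟩ : ∃ U', U' = L {y} u Wm 0 := ⟨_, rfl⟩
  have hUmU : |Um - U| < s := by
    have h1 := @hηc Wm (by
      rw [Real.dist_eq, hWm]
      have : W + o - W = o := by ring
      rw [this, abs_of_pos ho0]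
      linarith)
    rw [Real.dist_eq] at h1
    rw [hUm, hUd]
    exact h1
  rw [abs_lt] at hUmU
  have hUmm : U ≤ Um := by
    rw [hUm, hUd]
    exact hL.mono _ _ _ _ _ _ _ (Finset.Subset.refl _) (by rw [hWm]; linarith) le_rfl
  have hWm1 : Wm ≤ 1 := by rw [hWm]; linarith
  obtain ⟨d, hd0, hnes⟩ := nes_cls htm hL (y := y) (u := u) (W := Wm) (s := s)
    (by rw [hWm]; linarith) hs0 (hL.low _ _ _ _ hWm1) (by rw [← hUm]; linarith)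
  rw [← hUm] at hnes
  obtain ⟨e₀, he₀⟩ : ∃ e₀, e₀ = min d s := ⟨_, rfl⟩
  have he₀0 : 0 < e₀ := by rw [he₀]; exact lt_min hd0 hs0
  obtain ⟨τ, hτ, J₁, b₁⟩ := hnes e₀ he₀0 (by rw [he₀]; exact min_le_left _ _)
  obtain ⟨J₂, hJ₂⟩ := exists_nat_ge ((100 : ℝ) / o)
  refine ⟨e₀, he₀0, τ, hτ, J₁ + J₂, ?_⟩
  intro J hJ F A hA au cu av e M he hM hau ga gb ga₁ gb₁ h1 h2
  have hJ2 : (J₂ : ℝ) ≤ J := by exact_mod_cast (by omega : J₂ ≤ J)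
  have hJ0 : (0 : ℝ) ≤ J := Nat.cast_nonneg J
  have q1 : (100 : ℝ) ≤ o * J := by
    have h1 := hJ₂.trans hJ2
    rw [div_le_iff₀ ho0] at h1
    linarith only [h1]
  obtain ⟨w1, w2⟩ := zom_win v hw0 hw1 ho0 (W := Wm) (by rw [hWm]; linarith) hWm1 q1
  have w5 : ⌊W * (J : ℝ)⌋₊ + 2 ≤ ⌊Wm * (J : ℝ)⌋₊ := by
    rw [← Nat.cast_le (α := ℝ)]
    push_cast
    have h1 : (⌊W * (J : ℝ)⌋₊ : ℝ) ≤ W * J := Nat.floor_le (mul_nonneg (by linarith) hJ0)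
    have h2 : Wm * (J : ℝ) - 1 < ⌊Wm * (J : ℝ)⌋₊ := Nat.sub_one_lt_floor _
    have h3 : Wm * (J : ℝ) = W * J + o * J := by rw [hWm]; ring
    linarith only [h1, h2, h3, q1]
  obtain ⟨gam, hgam⟩ := slam_fac' F (by omega : v.B J + ⌊w * v.R J⌋₊ ≤ ⌊Wm * J⌋₊) w2 ga
  obtain ⟨gbm, hgbm⟩ := slam_fac' F (by omega : v.B J + ⌊w * v.R J⌋₊ ≤ ⌊Wm * J⌋₊) w2 gb
  obtain ⟨gac, hgac⟩ := slam_fac' F w5 w2 ga₁
  obtain ⟨gbc, hgbc⟩ := slam_fac' F w5 w2 gb₁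
  -- the exponents
  have hfl : ∀ x : ℝ, 0 ≤ x → (⌊x * (J : ℝ)⌋₊ : ℝ) ≤ x * J := fun x hx =>
    Nat.floor_le (mul_nonneg hx hJ0)
  have hfl' : ∀ x : ℝ, x * (J : ℝ) - 1 < ⌊x * (J : ℝ)⌋₊ := fun x => Nat.sub_one_lt_floor _
  have f1 := hfl (Um - Wm + s) (by rw [hWm]; linarith)
  have f2 := hfl t ht
  have f3 := hfl' q
  have f4 := hfl' qz
  have f5 := hfl' (U - W + x)
  have hUmJ : Um * (J : ℝ) ≤ (U + s) * J := mul_le_mul_of_nonneg_right (by linarith) hJ0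
  have hWmJ : Wm * (J : ℝ) = W * J + o * J := by rw [hWm]; ring
  have hxJ : x * (J : ℝ) = 16 * (s * J) := by rw [hs]; ring
  have hosJ : o * (J : ℝ) ≤ s * J := mul_le_mul_of_nonneg_right ho1 hJ0
  have hqJ : (t + (U - W) + x) * J ≤ q * J := mul_le_mul_of_nonneg_right hq hJ0
  have hqzJ : (t + (U - W) + x) * J ≤ qz * J := mul_le_mul_of_nonneg_right hqz hJ0
  have n1 : ⌊t * (J : ℝ)⌋₊ + 1 + ⌊(Um - Wm + s) * (J : ℝ)⌋₊ + 1 ≤ ⌊q * (J : ℝ)⌋₊ := by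
    rw [← Nat.cast_le (α := ℝ)]
    push_cast
    linarith only [f1, f2, f3, hUmJ, hWmJ, hxJ, hosJ, hqJ, q1]
  have n2 : ⌊t * (J : ℝ)⌋₊ + 1 + ⌊(Um - Wm + s) * (J : ℝ)⌋₊ + 1 ≤ ⌊qz * (J : ℝ)⌋₊ := by
    rw [← Nat.cast_le (α := ℝ)]
    push_cast
    linarith only [f1, f2, f4, hUmJ, hWmJ, hxJ, hosJ, hqzJ, q1]
  have n3 : ⌊(Um - Wm + s) * (J : ℝ)⌋₊ ≤ ⌊(U - W + x) * (J : ℝ)⌋₊ := by
    rw [← Nat.cast_le (α := ℝ)]
    linarith only [f1, f5, hUmJ, hWmJ, hxJ, hosJ, q1]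
  obtain ⟨B, e1, e2, e3⟩ := b₁ J (by omega) F A hA au cu av M (hau.mono he le_rfl) (n3.trans hM)
    gam gbm gac gbc (1 / 2 ^ (⌊t * (J : ℝ)⌋₊ + 1)) (1 / 2 ^ ⌊qz * (J : ℝ)⌋₊)
    (1 / 2 ^ ⌊q * (J : ℝ)⌋₊) (by positivity) (by
      have e3 : (1 : ℝ) / 2 ^ ⌊q * (J : ℝ)⌋₊ ≤ 1 / 2 ^ (⌊t * (J : ℝ)⌋₊ + 1 +
          ⌊(Um - Wm + s) * (J : ℝ)⌋₊ + 1) := inv_mono n1
      have e4 : (1 : ℝ) / 2 ^ ⌊qz * (J : ℝ)⌋₊ ≤ 1 / 2 ^ (⌊t * (J : ℝ)⌋₊ + 1 +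
          ⌊(Um - Wm + s) * (J : ℝ)⌋₊ + 1) := inv_mono n2
      have e5 : (1 : ℝ) / 2 ^ (⌊t * (J : ℝ)⌋₊ + 1) =
          (1 / 2 ^ (⌊t * (J : ℝ)⌋₊ + 1 + ⌊(Um - Wm + s) * (J : ℝ)⌋₊ + 1) +
          1 / 2 ^ (⌊t * (J : ℝ)⌋₊ + 1 + ⌊(Um - Wm + s) * (J : ℝ)⌋₊ + 1)) *
          2 ^ ⌊(Um - Wm + s) * (J : ℝ)⌋₊ := by
        rw [pow_succ 2 (⌊t * (J : ℝ)⌋₊ + 1 + ⌊(Um - Wm + s) * (J : ℝ)⌋₊),
          pow_add 2 (⌊t * (J : ℝ)⌋₊ + 1)]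
        field_simp
        norm_num
      rw [e5]
      exact mul_le_mul_of_nonneg_right (add_le_add e4 e3) (by positivity)) (fun ω hω => by
      have h3 := h1 ω hω
      rw [hgam ω, hgbm ω] at h3
      exact h3) (fun ω hω => by
      have h3 := h2 ω hω
      rw [hgac ω, hgbc ω] at h3
      exact h3)
  refine ⟨B, e1, e2, fun ω hω => ?_⟩
  have h3 := e3 ω hω
  rw [← hgbm ω, ← hgbc ω] at h3
  exact h3

/-- **Natural differences of the coefficients in different windows.** -/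
theorem slo_two {S : PCl m} {C₀ : ℝ} (hC₀ : 0 ≤ C₀) (htm : TmC S C₀)
    {L : Finset (Fin m) → Fin m → ℝ → ℝ → ℝ} (hL : LamW S L) (v : Vz m)
    (ε : Fin n → Fin m) {L' : Finset (Fin n) → Fin n → ℝ → ℝ → ℝ} (hL' : LamW (RecV S v ε) L')
    {κ ι k : Fin n} (hκι : κ ≠ ι) (hact : ActZ S v ε κ) {w' w r' t x Wa Wb qa qb : ℝ}
    (hw' : w' < w) (hr0 : 0 ≤ r') (hr' : r' < w) (hw0 : 0 < w) (hw1 : w < 1) (hx : 0 < x)
    (ht : 0 ≤ t) (hWa : v.tm w ≤ Wa) (hca : ContinuousAt (fun W => L {ε κ} (ε ι) W 0) Wa)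
    (hUa : Wa < L {ε κ} (ε ι) Wa 0) (hUa1 : L {ε κ} (ε ι) Wa 0 < 1) (hWb : v.tm w ≤ Wb)
    (hcb : ContinuousAt (fun W => L {ε κ} (ε ι) W 0) Wb) (hUb : Wb < L {ε κ} (ε ι) Wb 0)
    (hUb1 : L {ε κ} (ε ι) Wb 0 < 1)
    (hΛa : t + (L {ε κ} (ε ι) Wa 0 - Wa) + x ≤
      v.sc (L' {κ, ι} k w' r') - v.p * (1 - v.b) - v.tm w)
    (hΛb : t + (L {ε κ} (ε ι) Wb 0 - Wb) + x ≤
      v.sc (L' {κ, ι} k w' r') - v.p * (1 - v.b) - v.tm w)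
    (hqa : t + (L {ε κ} (ε ι) Wa 0 - Wa) + x ≤ qa)
    (hqb : t + (L {ε κ} (ε ι) Wb 0 - Wb) + x ≤ qb) :
    ∃ e₀ : ℝ, 0 < e₀ ∧ ∃ δ : ℝ, 0 < δ ∧ Bas S (fun J F A => ∀ (au cu av cv : PtT F → ℝ)
      (e M : ℕ), e ≤ ⌊e₀ * J⌋₊ →
      ⌊(v.sc (L' {κ, ι} k w' r') - v.tm w) * J⌋₊ ≤ M → Dp F A (ε κ) (ε ι) e M au cu →
      Dp F A (ε κ) (ε k) e M av cv → ∀ ga₁ gb₁ ga₂ gb₂ : LnT F → ℝ,
      (∀ ω, A ω → |ga₁ (slam F (⌊Wa * J⌋₊ + 2) ω) + gb₁ (slam F (⌊Wa * J⌋₊ + 2) ω) *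
        au (ptr F J ω) - av (ptr F J ω)| ≤ 1 / 2 ^ ⌊qa * J⌋₊) →
      (∀ ω, A ω → |ga₂ (slam F (⌊Wb * J⌋₊ + 2) ω) + gb₂ (slam F (⌊Wb * J⌋₊ + 2) ω) *
        au (ptr F J ω) - av (ptr F J ω)| ≤ 1 / 2 ^ ⌊qb * J⌋₊) →
      Pe F.p (fun ω => A ω ∧ 1 / 2 ^ ⌊t * J⌋₊ <
        |gb₁ (slam F (⌊Wa * J⌋₊ + 2) ω) - gb₂ (slam F (⌊Wb * J⌋₊ + 2) ω)|) ≤
          Real.exp (-(δ * J)) * Pe F.p A) := by
  classical
  have hb := v.b0
  have hb1 := v.b1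
  have hp := v.p0
  have hp1 := v.p1
  have hcp : 0 < (1 - v.b) * (1 - v.p) := mul_pos (by linarith) (by linarith)
  have hpb : 0 ≤ v.p * (1 - v.b) := mul_nonneg hp (by linarith)
  obtain ⟨Λ, hΛ⟩ : ∃ Λ, Λ = v.sc (L' {κ, ι} k w' r') - v.p * (1 - v.b) - v.tm w := ⟨_, rfl⟩
  obtain ⟨Ua, hUad⟩ : ∃ U, U = L {ε κ} (ε ι) Wa 0 := ⟨_, rfl⟩
  obtain ⟨Ub, hUbd⟩ : ∃ U, U = L {ε κ} (ε ι) Wb 0 := ⟨_, rfl⟩
  have hMeq : v.sc (L' {κ, ι} k w' r') - v.tm w = Λ + v.p * (1 - v.b) := by rw [hΛ]; ring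
  rw [hMeq]
  rw [← hΛ] at hΛa hΛb
  rw [← hUad] at hUa hUa1 hΛa hqa
  rw [← hUbd] at hUb hUb1 hΛb hqb
  obtain ⟨s, hs⟩ : ∃ s, s = min (min (x / 32) 1) (min (min ((1 - Ua) / 2) ((1 - Ub) / 2))
    ((1 - v.b) * (1 - v.p) * (w - r') / 8)) := ⟨_, rfl⟩
  have hs0 : 0 < s := by
    rw [hs]
    exact lt_min (lt_min (by linarith) one_pos) (lt_min (lt_min (by linarith) (by linarith))
      (div_pos (mul_pos hcp (by linarith)) (by norm_num)))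
  have s0 : s ≤ x / 32 ∧ s ≤ 1 ∧ s ≤ (1 - Ua) / 2 ∧ s ≤ (1 - Ub) / 2 ∧
      s ≤ (1 - v.b) * (1 - v.p) * (w - r') / 8 := by
    have := hs.le
    simp only [le_min_iff] at this
    tauto
  obtain ⟨s1, s2, s3, s4, s5⟩ := s0
  clear hs
  obtain ⟨q, hq⟩ : ∃ q, q = Λ - 8 * s := ⟨_, rfl⟩
  have hrel := rel_bnd hC₀ htm v ε hL' hκι hact (k := k) (s := s) (q := q) hw' hr0 hw0 hw1 hs0
    s2 (by rw [hq]; linarith) (by linarith) (by rw [← hΛ, hq]; linarith)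
  obtain ⟨ea, hea0, hsa⟩ := slo_one htm hL v (y := ε κ) (u := ε ι) (w := w) (W := Wa) (t := t)
    (qz := q) (q := qa) (x := s) hw0 hw1 hWa hca (by rw [← hUad]; exact hUa)
    (by rw [← hUad]; linarith) hs0 ht (by rw [← hUad, hq]; linarith) (by rw [← hUad]; linarith)
  obtain ⟨eb, heb0, hsb⟩ := slo_one htm hL v (y := ε κ) (u := ε ι) (w := w) (W := Wb) (t := t)
    (qz := q) (q := qb) (x := s) hw0 hw1 hWb hcb (by rw [← hUbd]; exact hUb)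
    (by rw [← hUbd]; linarith) hs0 ht (by rw [← hUbd, hq]; linarith) (by rw [← hUbd]; linarith)
  rw [← hUad] at hsa
  rw [← hUbd] at hsb
  obtain ⟨e₀, he₀⟩ : ∃ e₀, e₀ = min s (min ea eb) := ⟨_, rfl⟩
  have he₀0 : 0 < e₀ := by rw [he₀]; exact lt_min hs0 (lt_min hea0 heb0)
  have he₀s : e₀ ≤ s := by rw [he₀]; exact min_le_left _ _
  have he₀a : e₀ ≤ ea := by rw [he₀]; exact (min_le_right _ _).trans (min_le_left _ _)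
  have he₀b : e₀ ≤ eb := by rw [he₀]; exact (min_le_right _ _).trans (min_le_right _ _)
  obtain ⟨τ₁, hτ₁, J₁, b₁⟩ := hrel
  obtain ⟨τ₂, hτ₂, J₂, b₂⟩ := hsa
  obtain ⟨τ₃, hτ₃, J₃, b₃⟩ := hsb
  obtain ⟨τ, hτ⟩ : ∃ τ, τ = min (τ₁ / 2) (min (τ₂ / 4) (τ₃ / 4)) := ⟨_, rfl⟩
  have hτ0 : 0 < τ := by
    rw [hτ]
    exact lt_min (by linarith) (lt_min (by linarith) (by linarith))
  have t1 : τ ≤ τ₁ / 2 := by rw [hτ]; exact min_le_left _ _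
  have t2 : τ ≤ τ₂ / 4 := by rw [hτ]; exact (min_le_right _ _).trans (min_le_left _ _)
  have t3 : τ ≤ τ₃ / 4 := by rw [hτ]; exact (min_le_right _ _).trans (min_le_right _ _)
  obtain ⟨J₄, hJ₄⟩ := exists_nat_ge (Real.log 8 / (2 * τ))
  refine ⟨e₀, he₀0, τ, hτ0, τ, hτ0, J₁ + J₂ + J₃ + J₄, ?_⟩
  intro J hJ F A hA au cu av cv e M he hM hau hav ga₁ gb₁ ga₂ gb₂ h1 h2
  have hJ4 : (J₄ : ℝ) ≤ J := by exact_mod_cast (by omega : J₄ ≤ J)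
  have hJ0 : (0 : ℝ) ≤ J := Nat.cast_nonneg J
  have hlog : Real.log 8 ≤ 2 * τ * J := by
    have h3 := hJ₄.trans hJ4
    rw [div_le_iff₀ (by linarith)] at h3
    linarith only [h3]
  by_contra hcon
  push Not at hcon
  obtain ⟨Bd, hBd⟩ : ∃ Bd : F.Ω → Prop, Bd = fun ω => A ω ∧ 1 / 2 ^ ⌊t * (J : ℝ)⌋₊ <
    |gb₁ (slam F (⌊Wa * (J : ℝ)⌋₊ + 2) ω) - gb₂ (slam F (⌊Wb * (J : ℝ)⌋₊ + 2) ω)| := ⟨_, rfl⟩
  rw [← hBd] at hcon
  have hBdA : Sub Bd A := fun ω hω => by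
    rw [hBd] at hω
    exact hω.1
  have hSd : S.St (2 * τ) J F Bd := by
    have h3 := S.res hτ0.le hA hBdA hcon.le
    rw [show τ + τ = 2 * τ by ring] at h3
    exact h3
  have hfm : ∀ {x y : ℝ}, x ≤ y → ⌊x * (J : ℝ)⌋₊ ≤ ⌊y * (J : ℝ)⌋₊ := fun h =>
    Nat.floor_le_floor (mul_le_mul_of_nonneg_right h hJ0)
  have hMge : ∀ x : ℝ, x ≤ Λ + v.p * (1 - v.b) → ⌊x * (J : ℝ)⌋₊ ≤ M := fun x hx =>
    (hfm hx).trans hM
  obtain ⟨B₁, a1, p1, ga, gb, g1⟩ := b₁ J (by omega) F Bd (S.mono (by linarith) hSd) au cu av cv e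
    M (he.trans (hfm he₀s)) (hMge _ (by rw [hq]; linarith)) (hau.sub hBdA) (hav.sub hBdA)
  have hPd : 0 ≤ Pe F.p Bd := Pe_nonneg F.isLaw Bd
  have hPB₁ : 0 ≤ Pe F.p B₁ := Pe_nonneg F.isLaw B₁
  have a1' : Sub B₁ A := fun ω hω => hBdA ω (a1 ω hω)
  obtain ⟨B₂, a2, p2, g2⟩ := b₂ J (by omega) F B₁ (S.mono (by linarith)
    (res_of (by linarith) hSd a1 (by norm_num : (0 : ℝ) < 8) hlog (by linarith))) au cu av e M
    (he.trans (hfm he₀a)) (hMge _ (by linarith)) (hau.sub a1') ga gb ga₁ gb₁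
    (fun ω hω => (g1 ω hω).2) (fun ω hω => h1 ω (a1' ω hω))
  have a2' : Sub B₂ Bd := fun ω hω => a1 ω (a2 ω hω)
  obtain ⟨B₃, a3, p3, g3⟩ := b₃ J (by omega) F B₂ (S.mono (by linarith)
    (res_of (by linarith) hSd a2' (by norm_num : (0 : ℝ) < 8) hlog (by linarith))) au cu av e M
    (he.trans (hfm he₀b)) (hMge _ (by linarith)) (hau.sub fun ω hω => hBdA ω (a2' ω hω)) ga gb
    ga₂ gb₂ (fun ω hω => (g1 ω (a2 ω hω)).2) (fun ω hω => h2 ω (hBdA ω (a2' ω hω)))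
  have hA0 := (htm τ J F A hτ0 hA).1
  have hB₃ : 0 < Pe F.p B₃ := by
    have h3 : 0 < Real.exp (-(τ * J)) * Pe F.p A := mul_pos (Real.exp_pos _) hA0
    linarith
  obtain ⟨ω, hω⟩ : ∃ ω, B₃ ω := by
    by_contra h
    push Not at h
    rw [Pool.JVE.pe_sum] at hB₃
    rw [Finset.sum_eq_zero (fun ω _ => if_neg (h ω))] at hB₃
    exact lt_irrefl _ hB₃
  have k1 := g2 ω (a3 ω hω)
  have k2 := g3 ω hω
  have k3 := a2' ω (a3 ω hω)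
  rw [hBd] at k3
  have k4 := k3.2
  have k5 : (1 : ℝ) / 2 ^ ⌊t * (J : ℝ)⌋₊ = 1 / 2 ^ (⌊t * (J : ℝ)⌋₊ + 1) +
      1 / 2 ^ (⌊t * (J : ℝ)⌋₊ + 1) := by
    rw [pow_succ]
    field_simp
    norm_num
  have k6 := abs_sub_le (gb₁ (slam F (⌊Wa * (J : ℝ)⌋₊ + 2) ω))
    (gb (slam F (v.B J + ⌊w * v.R J⌋₊) ω)) (gb₂ (slam F (⌊Wb * (J : ℝ)⌋₊ + 2) ω))
  rw [abs_sub_comm (gb₁ (slam F (⌊Wa * (J : ℝ)⌋₊ + 2) ω))
    (gb (slam F (v.B J + ⌊w * v.R J⌋₊) ω))] at k6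
  linarith only [k1, k2, k4, k5, k6]

/-- **The velocity data are unique**, up to a small event. -/
theorem dp_uni {S : PCl m} {C₀ : ℝ} (htm : TmC S C₀) {y u : Fin m} (hact : ActF S y) {x : ℝ}
    (hx : 0 < x) : ∃ δ : ℝ, 0 < δ ∧ Bas S (fun J F A => ∀ (au cu au' cu' : PtT F → ℝ)
      (e e' M : ℕ), Dp F A y u e M au cu → Dp F A y u e' M au' cu' →
      Pe F.p (fun ω => A ω ∧ 2 ^ (⌊x * J⌋₊ + 1) * (1 / 2 ^ M) <
        |au (ptr F J ω) - au' (ptr F J ω)|) ≤ Real.exp (-(δ * J)) * Pe F.p A) := by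
  classical
  obtain ⟨c, hc, τ, hτ, J₁, b₁⟩ := hact x hx
  obtain ⟨J₂, hJ₂⟩ := exists_nat_ge ((Real.log 9 + 1) / c)
  refine ⟨τ / 2, by linarith, τ / 2, by linarith, J₁ + J₂, ?_⟩
  intro J hJ F A hA au cu au' cu' e e' M h1 h2
  by_contra hcon
  push Not at hcon
  have hJ2 : (J₂ : ℝ) ≤ J := by exact_mod_cast (by omega : J₂ ≤ J)
  have hlog9 : Real.log 9 + 1 ≤ c * J := by
    have h3 := hJ₂.trans hJ2
    rw [div_le_iff₀ hc] at h3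
    linarith only [h3]
  obtain ⟨Bd, hBd⟩ : ∃ Bd : F.Ω → Prop, Bd = fun ω => A ω ∧ 2 ^ (⌊x * (J : ℝ)⌋₊ + 1) *
    (1 / 2 ^ M) < |au (ptr F J ω) - au' (ptr F J ω)| := ⟨_, rfl⟩
  rw [← hBd] at hcon
  have hBdA : Sub Bd A := fun ω hω => by
    rw [hBd] at hω
    exact hω.1
  have hSd : S.St (τ / 2 + τ / 2) J F Bd := S.res (by linarith) hA hBdA hcon.le
  rw [add_halves] at hSd
  have hA0 := (htm (τ / 2) J F A (by linarith) hA).1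
  have hBd0 : 0 < Pe F.p Bd := lt_trans (mul_pos (Real.exp_pos _) hA0) hcon
  have k1 : c * J ≤ CH (cond F.p Bd True) (fun ω => F.D ⌊x * (J : ℝ)⌋₊ ω y) (ptr F J) :=
    b₁ J (by omega) F Bd hSd
  have hq : IsLaw (cond F.p Bd True) := isLaw_cond F.isLaw hBd0
  have hon : ∀ ω, 0 < cond F.p Bd True ω → Bd ω := fun ω hω => by
    by_contra h
    have : Pool.Agent.H49.Ent.cond F.p Bd True ω = 0 := by
      unfold Pool.Agent.H49.Ent.cond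
      rw [if_neg (fun h' : Bd ω = True => h (of_eq_true h'))]
    rw [this] at hω
    exact lt_irrefl _ hω
  obtain ⟨X, hX⟩ : ∃ X, X = ⌊x * (J : ℝ)⌋₊ := ⟨_, rfl⟩
  rw [← hX] at k1 hBd
  have pM : (0 : ℝ) < 2 ^ M := by positivity
  have k2 : CH (cond F.p Bd True) (fun ω (_ : Fin 1) => F.D X ω y) (ptr F J) ≤
      (1 : ℕ) * Real.log (2 * 4 + 1) := by
    refine Plk.CH_vec_const hq _ _ fun ω ω' h3 h4 h5 _ => ?_
    have a1 := hon ω h3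
    have a2 := hon ω' h4
    rw [hBd] at a1 a2
    obtain ⟨a1, a3⟩ := a1
    obtain ⟨a2, -⟩ := a2
    have d1 := (h1 ω a1).2.2
    have d2 := (h2 ω a1).2.2
    have d3 := (h1 ω' a2).2.2
    have d4 := (h2 ω' a2).2.2
    rw [← h5] at d3 d4
    obtain ⟨a, ha⟩ : ∃ a, a = au (ptr F J ω) := ⟨_, rfl⟩
    obtain ⟨a', ha'⟩ : ∃ a, a = au' (ptr F J ω) := ⟨_, rfl⟩
    obtain ⟨b, hb⟩ : ∃ a, a = cu (ptr F J ω) := ⟨_, rfl⟩
    obtain ⟨b', hb'⟩ : ∃ a, a = cu' (ptr F J ω) := ⟨_, rfl⟩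
    obtain ⟨z, hz⟩ : ∃ z, z = F.d ω y := ⟨_, rfl⟩
    obtain ⟨z', hz'⟩ : ∃ z, z = F.d ω' y := ⟨_, rfl⟩
    rw [← ha, ← ha'] at a3
    rw [← ha, ← hb, ← hz] at d1
    rw [← ha', ← hb', ← hz] at d2
    rw [← ha, ← hb, ← hz'] at d3
    rw [← ha', ← hb', ← hz'] at d4
    obtain ⟨T, hT⟩ : ∃ T : ℝ, T = 2 ^ X := ⟨_, rfl⟩
    have hT0 : 0 < T := by rw [hT]; positivity
    have e1 : |(a - a') * (z - z')| ≤ 4 * (1 / 2 ^ M) := by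
      have e2 : (a - a') * (z - z') = -((F.d ω u - b - a * z) - (F.d ω u - b' - a' * z)) +
        ((F.d ω' u - b - a * z') - (F.d ω' u - b' - a' * z')) := by ring
      rw [e2]
      have e3 := abs_add_le (-((F.d ω u - b - a * z) - (F.d ω u - b' - a' * z)))
        ((F.d ω' u - b - a * z') - (F.d ω' u - b' - a' * z'))
      rw [abs_neg] at e3
      have e4 := abs_sub (F.d ω u - b - a * z) (F.d ω u - b' - a' * z)
      have e5 := abs_sub (F.d ω' u - b - a * z') (F.d ω' u - b' - a' * z')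
      linarith only [e3, e4, e5, d1, d2, d3, d4]
    rw [abs_mul] at e1
    have e6 : |z - z'| * T ≤ 2 := by
      by_contra hcon2
      push Not at hcon2
      have e7 : 2 ^ (X + 1) * (1 / 2 ^ M) * |z - z'| ≤ |a - a'| * |z - z'| :=
        mul_le_mul_of_nonneg_right a3.le (abs_nonneg _)
      have e8 : (2 : ℝ) ^ (X + 1) * (1 / 2 ^ M) * |z - z'| = 2 * (1 / 2 ^ M) * (|z - z'| * T) := by
        rw [hT, pow_succ]
        ring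
      rw [e8] at e7
      have e9 : 2 * (1 / 2 ^ M) * 2 < 2 * (1 / (2 : ℝ) ^ M) * (|z - z'| * T) :=
        mul_lt_mul_of_pos_left hcon2 (by positivity)
      linarith only [e1, e7, e9]
    have g2 : |T * z - T * z'| ≤ 2 := by
      rw [← mul_sub, abs_mul, abs_of_pos hT0]
      linarith only [e6]
    rw [abs_le] at g2
    have d5 : F.D X ω y = ⌊T * z⌋ := by rw [hT, hz]; rfl
    have d6 : F.D X ω' y = ⌊T * z'⌋ := by rw [hT, hz']; rfl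
    rw [d5, d6]
    have f1 := Int.floor_le (T * z)
    have f2 := Int.lt_floor_add_one (T * z)
    have f3 := Int.floor_le (T * z')
    have f4 := Int.lt_floor_add_one (T * z')
    rw [abs_le]
    push_cast
    constructor <;> linarith only [f1, f2, f3, f4, g2.1, g2.2]
  have k3 : CH (cond F.p Bd True) (fun ω => F.D X ω y) (ptr F J) ≤
      CH (cond F.p Bd True) (fun ω (_ : Fin 1) => F.D X ω y) (ptr F J) :=
    CH_mono_left hq.nonneg fun ω ω' _ _ h => congrFun (Prod.ext_iff.mp h).1 0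
  have k4 : ((1 : ℕ) : ℝ) * Real.log (2 * 4 + 1) = Real.log 9 := by norm_num
  rw [k4] at k2
  linarith only [k1, k2, k3, hlog9]

end Pool.MIC6
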