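import Pool.Agent.H6.OWN.Lag
import Pool.Agent.H99.GEN.Gr

/-!
# The slope of a closed label is a function of the line

`slp_fam`: a label of the coordinate `k` over the coordinate `κ` which is a function of `Φ` and of
the line in the window. If many lines of one fibre of `Φ` have separated velocities `d κ`, and their
velocities are on a line of slope `a`, then `a` is a function of the line, up to a small error.
-/

set_option autoImplicit false

namespace Pool.MIC6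

open Finset MvPolynomial
open Pool.Agent.H49.Ent Pool.Agent.H32.Dense Pool.STK Pool.KA Pool.KSAT Pool.K2S Pool.PB Pool.GEN
open Pool.FLF (Fam.sub)
open Pool.GRD (LbP)
open Pool.PB.Trl (rt rt_mem t_rt)

variable {n J : ℕ}

/-- The slope of a label at the start of the window. -/
noncomputable def slope {F : Fam n J} {V : Type} (κ : Fin n) (w : ℕ) (z' : LnT F → V)
    (G : V → MvPolynomial (Option (Fin n)) ℝ) (s : LnT F) : ℝ :=
  (eval (pnt κ ((s.2.2 : ℝ) / 2 ^ w) (s.1.1 κ + s.1.2 κ * ((s.2.2 : ℝ) / 2 ^ w) + 1 / 2 ^ w))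
      (G (z' s)) -
    eval (pnt κ ((s.2.2 : ℝ) / 2 ^ w) (s.1.1 κ + s.1.2 κ * ((s.2.2 : ℝ) / 2 ^ w)))
      (G (z' s))) / (1 / 2 ^ w)

theorem lc_some {ζ : Type} (w : ℕ) (s : ((Fin n → ℝ) × (Fin n → ℝ)) × ζ × ℕ) (j : Fin n)
    (τ : ℝ) : (lc w s (some j)).eval τ =
      s.1.1 j + s.1.2 j * ((s.2.2 : ℝ) / 2 ^ w + 1 / 2 ^ w * τ) := by
  simp only [lc, Polynomial.eval_add, Polynomial.eval_mul, Polynomial.eval_C, Polynomial.eval_X]

theorem lc_none {ζ : Type} (w : ℕ) (s : ((Fin n → ℝ) × (Fin n → ℝ)) × ζ × ℕ) (τ : ℝ) :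
    (lc w s none).eval τ = (s.2.2 : ℝ) / 2 ^ w + 1 / 2 ^ w * τ := by
  simp only [lc, Polynomial.eval_add, Polynomial.eval_mul, Polynomial.eval_C, Polynomial.eval_X]

/-- The position of the line at the relative time `τ`. -/
theorem lc_pos (F : Fam n J) {w : ℕ} (hw : w ≤ J) (ω : F.Ω) (j : Fin n) (τ : ℝ) :
    (lc w (slam F w ω) (some j)).eval τ =
      F.x ω j + 1 / 2 ^ w * (τ - rt F w ω) * F.d ω j := by
  rw [lc_some]
  have h := t_rt F hw ω
  show F.u ω j + F.d ω j * _ = (F.u ω j + F.t ω * F.d ω j) + _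
  rw [h]
  ring

/-- **The slope of a closed label is a function of the line.** -/
theorem slp_fam (n K : ℕ) : ∃ C : ℝ, 1 ≤ C ∧ ∀ {J : ℕ} (F : Fam n J) (A : F.Ω → Prop)
    (hA : 0 < Pe F.p A) {κ k : Fin n} {r w P : ℕ} {V : Type} {z : PtT F → V}
    {z' : LnT F → V} {G : V → MvPolynomial (Option (Fin n)) ℝ} {U : Type} {Φ : F.Ω → U}
    {a : F.Ω → ℝ} {α ρ s₀ err θ : ℝ}, LbP F {κ} k K r w P A z z' G → w ≤ J → 0 ≤ θ →
    (Fam.sub F A hA).Tm θ → C * (θ + 1) ≤ ((J : ℝ) - w) * Real.log 2 → 0 < ρ → ρ ≤ 1 →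
    s₀ ≤ ρ * (1 / 2 ^ w) / 16 →
    (∀ ω ω', A ω → A ω' → Φ ω = Φ ω' → ptr F r ω = ptr F r ω' ∧ |F.x ω' κ - F.x ω κ| ≤ s₀ ∧
      |F.x ω' k - F.x ω k| ≤ s₀ ∧ |F.d ω' k - F.d ω k - a ω * (F.d ω' κ - F.d ω κ)| ≤ err) →
    (∀ ω, A ω → |a ω| ≤ α) →
    (∀ B : F.Ω → Prop, Sub B A → Pe F.p A / 2 ≤ Pe F.p B → ∃ B' : F.Ω → Prop, Sub B' B ∧
      Pe F.p B / 2 ≤ Pe F.p B' ∧ ∀ ω, B' ω → ∃ ν : Fin (K + 2) → F.Ω,
        (∀ i, B (ν i) ∧ Φ (ν i) = Φ ω) ∧ ∀ i j, i ≠ j → ρ ≤ |F.d (ν i) κ - F.d (ν j) κ|) →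
    ∃ B : F.Ω → Prop, Sub B A ∧ Pe F.p A / 4 ≤ Pe F.p B ∧ ∀ ω, B ω →
      |slope κ w z' G (slam F w ω) - a ω| ≤ C * (1 / ρ) ^ (K + 1) *
        (Real.exp (C * (θ + 1)) * 2 ^ w / 2 ^ P + (1 + α) * s₀ * 2 ^ w + err) := by
  classical
  obtain ⟨C₁, hC₁, hrem⟩ := Pool.PZ.Zrt.rem_ev (m := n) (K + 1)
  obtain ⟨C₂, hC₂, hslp⟩ := slp_det K
  refine ⟨C₁ + C₂, by linarith, ?_⟩
  intro J F A hA κ k r w P V z z' G U Φ a α ρ s₀ err θ hL hw hθ hTm hJ hρ hρ1 hs hfib ha hnod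
  have hS₀ : (0 : ℝ) < 1 / 2 ^ P := by positivity
  obtain ⟨B, hBA, hPB, hB⟩ := hrem J F A hA w (fun s => dv w (fun s _ => G (z' s)) k s)
    (1 / 2 ^ P) θ hw (fun s => natDegree_dv w (fun s _ => hL.deg (z' s)) k s) hS₀ hθ hTm (by
      refine le_trans ?_ hJ
      refine mul_le_mul_of_nonneg_right ?_ (by linarith)
      linarith) (by
      intro ω hω
      show |(dv w (fun s _ => G (z' s)) k (slam F w ω)).eval (rt F w ω)| ≤ _
      rw [eval_dv F hw (fun s _ => G (z' s)) ω k]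
      exact hL.pos ω hω)
  obtain ⟨B', hB'B, hPB', hB'⟩ := hnod B hBA hPB
  refine ⟨B', fun ω hω => hBA ω (hB'B ω hω), by linarith, fun ω hω => ?_⟩
  have hωB := hB'B ω hω
  have hωA := hBA ω hωB
  obtain ⟨ν, hν, hsep⟩ := hB' ω hω
  have hνA : ∀ i, A (ν i) := fun i => hBA _ (hν i).1
  have hf := fun i => hfib ω (ν i) hωA (hνA i) (hν i).2.symm
  have hptr := fun i => (hf i).1
  have hT : ∀ i, F.T (ν i) = F.T ω := fun i =>
    (congrArg (fun p : PtT F => p.2.1) (hptr i)).symm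
  have hT1 : ∀ i, (slam F w (ν i)).2.2 = (slam F w ω).2.2 := by
    intro i
    show F.T (ν i) / 2 ^ (J - w) = F.T ω / 2 ^ (J - w)
    rw [hT i]
  have hrt : ∀ i, rt F w (ν i) = rt F w ω := by
    intro i
    unfold rt
    rw [hT i]
  have hz : ∀ i, z' (slam F w (ν i)) = z' (slam F w ω) := by
    intro i
    rw [← hL.cls _ (hνA i), ← hL.cls _ hωA, hptr i]
  have hG := hL.deg (z' (slam F w ω))
  have h1 := hslp (G := G (z' (slam F w ω))) κ (t₀ := ((slam F w ω).2.2 : ℝ) / 2 ^ w)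
    (h := 1 / 2 ^ w) (τ₀ := rt F w ω) (ρ := ρ) (s₀ := s₀) (err := err) (α := α)
    (M₁ := Real.exp (C₁ * (θ + 1)) * (1 / 2 ^ P)) (a := a ω) (y := F.x ω κ) (v := F.x ω k)
    (d := F.d ω κ) (D := F.d ω k) (y' := fun i => F.x (ν i) κ) (v' := fun i => F.x (ν i) k)
    (d' := fun i => F.d (ν i) κ) (D' := fun i => F.d (ν i) k) hG (by positivity) hρ hs hρ1
    (rt_mem F w ω) (F.dir ω κ) (fun i => F.dir _ κ) (fun i => (hf i).2.1)
    (fun i => (hf i).2.2.1) (fun i => (hf i).2.2.2) (ha ω hωA) hsep ?_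
  · have e1 : slope κ w z' G (slam F w ω) =
        (eval (pnt κ (((slam F w ω).2.2 : ℝ) / 2 ^ w)
          (F.x ω κ - 1 / 2 ^ w * rt F w ω * F.d ω κ + 1 / 2 ^ w)) (G (z' (slam F w ω))) -
        eval (pnt κ (((slam F w ω).2.2 : ℝ) / 2 ^ w)
          (F.x ω κ - 1 / 2 ^ w * rt F w ω * F.d ω κ)) (G (z' (slam F w ω)))) / (1 / 2 ^ w) := by
      have e2 : (slam F w ω).1.1 κ + (slam F w ω).1.2 κ * (((slam F w ω).2.2 : ℝ) / 2 ^ w) =
          F.x ω κ - 1 / 2 ^ w * rt F w ω * F.d ω κ := by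
        have h2 := lc_pos F hw ω κ 0
        rw [lc_some] at h2
        rw [mul_zero, add_zero] at h2
        rw [h2]
        ring
      unfold slope
      rw [e2]
    rw [e1]
    refine h1.trans ?_
    have h0 : 0 ≤ s₀ := (abs_nonneg _).trans (hf 0).2.1
    have he : 0 ≤ err := (abs_nonneg _).trans (hf 0).2.2.2
    have hα : 0 ≤ α := (abs_nonneg _).trans (ha ω hωA)
    have e3 : Real.exp (C₁ * (θ + 1)) * (1 / 2 ^ P) / (1 / 2 ^ w) + (1 + α) * s₀ / (1 / 2 ^ w) +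
        err = Real.exp (C₁ * (θ + 1)) * 2 ^ w / 2 ^ P + (1 + α) * s₀ * 2 ^ w + err := by
      field_simp
    rw [e3]
    have h3 : Real.exp (C₁ * (θ + 1)) ≤ Real.exp ((C₁ + C₂) * (θ + 1)) := by
      refine Real.exp_le_exp.2 (mul_le_mul_of_nonneg_right ?_ (by linarith))
      linarith
    have h4 : Real.exp (C₁ * (θ + 1)) * 2 ^ w / 2 ^ P ≤
        Real.exp ((C₁ + C₂) * (θ + 1)) * 2 ^ w / 2 ^ P :=
      div_le_div_of_nonneg_right (mul_le_mul_of_nonneg_right h3 (by positivity)) (by positivity)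
    refine mul_le_mul ?_ (by linarith) (by positivity) (by positivity)
    refine mul_le_mul_of_nonneg_right ?_ (by positivity)
    linarith
  · intro i τ hτ
    have h2 := hB (ν i) (hν i).1 τ hτ
    have h3 : (dv w (fun s _ => G (z' s)) k (slam F w (ν i))).eval τ =
        F.x (ν i) k + 1 / 2 ^ w * (τ - rt F w ω) * F.d (ν i) k -
        eval (pnt κ (((slam F w ω).2.2 : ℝ) / 2 ^ w + 1 / 2 ^ w * τ)
          (F.x (ν i) κ + 1 / 2 ^ w * (τ - rt F w ω) * F.d (ν i) κ))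
          (G (z' (slam F w ω))) := by
      unfold dv
      rw [Polynomial.eval_sub, Pool.KBX.eval_aeval_poly, lc_pos F hw, hrt i]
      show _ - eval _ (G (z' (slam F w (ν i)))) = _
      rw [hz i]
      congr 1
      refine hL.dep _ _ _ ?_ ?_
      · show (lc w (slam F w (ν i)) none).eval τ = _
        rw [lc_none, hT1 i, pnt_none]
      · intro i' hi'
        rw [Finset.mem_singleton] at hi'
        subst hi'
        show (lc w (slam F w (ν i)) (some i')).eval τ = _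
        rw [pnt_some, lc_pos F hw, hrt i]
    have h4 : |(dv w (fun s _ => G (z' s)) k (slam F w (ν i))).eval τ| ≤
        Real.exp (C₁ * (θ + 1)) * (1 / 2 ^ P) := h2
    rw [h3] at h4
    exact h4

end Pool.MIC6
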