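import Pool.Agent.H6.OWN.Swp

/-!
# Numbers from labels in the zooms

`lab_num`: labels in the zooms bound the number of the closed labels of the zooms from below.
`swap_num`: if the label of `u` over `y`, `v` in the zooms is better than the natural one and `v` is
at least as fine as `u`, the label of `v` over `y`, `u` is not worse.
-/

set_option autoImplicit false

namespace Pool.MIC6

open Finset MvPolynomial
open Pool.Agent.H49.Ent Pool.Agent.H32.Dense Pool.STK Pool.KA Pool.KSAT Pool.K2S Pool.PB Pool.GEN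
open Pool.S6C
open Pool.FLF (Fam.sub)
open Pool.GRD (LbP)
open Pool.REX

variable {m n J : ℕ}

/-- The slopes of an affine label are bounded by the relation. -/
theorem rel_bd {a b au av E : ℝ} {e : ℕ} (h : |a + b * au - av| ≤ E) (hE : E ≤ 1)
    (hb : |b| ≤ 2 ^ e) (hu : |au| ≤ 2 ^ e) (hv : |av| ≤ 2 ^ e) : |a| ≤ 2 ^ (2 * e + 2) := by
  have pe : (1 : ℝ) ≤ 2 ^ e := one_le_pow₀ (by norm_num)
  have h1 : |b * au| ≤ 2 ^ e * 2 ^ e := by
    rw [abs_mul]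
    exact mul_le_mul hb hu (abs_nonneg _) (by positivity)
  have e1 : (2 : ℝ) ^ (2 * e + 2) = 4 * (2 ^ e * 2 ^ e) := by
    rw [pow_add, two_mul, pow_add]
    norm_num
    ring
  have h2 : (2 : ℝ) ^ e ≤ 2 ^ e * 2 ^ e := le_mul_of_one_le_left (by positivity) pe
  rw [e1]
  rw [abs_le] at h h1 hv ⊢
  constructor <;> linarith only [h.1, h.2, h1.1, h1.2, hv.1, hv.2, hE, h2, pe]

/-- **An affine label of a zoom is a label with bounded gradients.** -/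
theorem AfC.lb {F : Fam m J} {B P : ℕ} {hP : P ≤ J - B} {Y : Type} {yy : F.Ω → Y}
    {ε : Fin n → Fin m} {κ ι k : Fin n} {w Q q e e' M P' : ℕ} {au av cu cv : PtT F → ℝ}
    {A : F.Ω → Prop} {V : Type} {zp : PtT (zmV F hP yy ε) → V} {zs : LnT (zmV F hP yy ε) → V}
    {cf : V → Fin 4 → ℝ} (h : AfC F hP yy ε κ ι k w Q q e au av A zp zs cf)
    (hau : Dp F A (ε κ) (ε ι) e' M au cu) (hav : Dp F A (ε κ) (ε k) e' M av cv) (he : e' ≤ e)
    (hP' : P' + 1 ≤ Q) (hw : w ≤ P') (ρ : ℕ) :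
    Lb (zmV F hP yy ε) {κ, ι} k 1 (2 * e + 5) (J - B - P) w ρ P' A := by
  obtain ⟨h1, h2⟩ := h
  refine ⟨V, zp, zs, _, lb_afq (e := 2 * e + 2) h1 (fun ω hω => ⟨?_, ?_⟩)
    (fun ω hω => (h2 ω hω).2.2) hP' hw ρ⟩
  · have hx : (2 : ℝ) ^ e' ≤ 2 ^ e := pow_le_pow_right₀ (by norm_num) he
    exact rel_bd (h2 ω hω).2.1 (by
      rw [div_le_one (by positivity)]
      exact one_le_pow₀ (by norm_num)) (h2 ω hω).1 ((hau ω hω).1.trans hx)
      ((hav ω hω).1.trans hx)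
  · refine (h2 ω hω).1.trans (pow_le_pow_right₀ (by norm_num) (by omega))

/-- **Labels in the zooms bound the numbers from below.** -/
theorem lab_num {S : PCl m} (hne : S.Ne) {C₀ : ℝ} (htm : TmC S C₀) (v : Vz m) (ε : Fin n → Fin m)
    {L' : Finset (Fin n) → Fin n → ℝ → ℝ → ℝ} (hL' : LamW (RecV S v ε) L')
    {I : Finset (Fin n)} {k : Fin n} {w r G : ℝ} {K : ℕ} {Cp : ℝ} (hCp : 0 < Cp) (hw0 : 0 ≤ w)
    (hr0 : 0 ≤ r) (hG : G ≤ (1 - v.b) * (1 - v.p) * (1 - w))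
    (h : ∀ x : ℝ, 0 < x → ∃ x' : ℝ, 0 < x' ∧ x' ≤ x ∧ Bas S (fun J F A =>
      ∀ hP : v.P J ≤ J - v.B J, ∃ B : F.Ω → Prop, Sub B A ∧ Pe F.p A ≤ Cp * Pe F.p B ∧
      ∀ ρ : ℕ, Lb (zmV F hP (v.y J F) ε) I k K ⌊x' * J⌋₊ (v.R J) (⌊w * v.R J⌋₊ + 2) ρ
        (⌊w * v.R J⌋₊ + ⌊(G - x') * J⌋₊) B)) :
    G ≤ (1 - v.b) * (1 - v.p) * (L' I k w r - w) := by
  classical
  by_contra hcon
  push Not at hcon
  have hb := v.b0
  have hb1 := v.b1
  have hp := v.p0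
  have hp1 := v.p1
  obtain ⟨c, hc⟩ : ∃ c, c = (1 - v.b) * (1 - v.p) := ⟨_, rfl⟩
  have hc0 : 0 < c := by rw [hc]; exact mul_pos (by linarith) (by linarith)
  rw [← hc] at hG hcon
  obtain ⟨l, hl⟩ : ∃ l, l = L' I k w r := ⟨_, rfl⟩
  rw [← hl] at hcon
  have hlG : l < w + G / c := by
    have h1 : c * (l - w) / c < G / c := div_lt_div_of_pos_right hcon hc0
    rw [mul_div_cancel_left₀ _ hc0.ne'] at h1
    linarith only [h1]
  have hG1 : w + G / c ≤ 1 := by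
    have h1 : G / c ≤ c * (1 - w) / c := div_le_div_of_nonneg_right hG hc0.le
    rw [mul_div_cancel_left₀ _ hc0.ne'] at h1
    linarith only [h1]
  obtain ⟨η, hη⟩ : ∃ η, η = (w + G / c - l) / 2 := ⟨_, rfl⟩
  have hη0 : 0 < η := by rw [hη]; linarith only [hlG]
  obtain ⟨hh, hhd⟩ : ∃ hh, hh = w + G / c - η := ⟨_, rfl⟩
  obtain ⟨d, hd0, hd1, habs⟩ := hL'.abs I k w r hh (by rw [← hl, hhd, hη]; linarith only [hlG])
    (by rw [hhd]; linarith only [hG1, hη0])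
  obtain ⟨x, hx⟩ : ∃ x, x = min (c * d / 4) (c * η / 4) := ⟨_, rfl⟩
  have hx0 : 0 < x := by rw [hx]; exact lt_min (by positivity) (by positivity)
  obtain ⟨x', hx'0, hx'x, hbas⟩ := h x hx0
  have hxd : 4 * x' ≤ c * d := by
    have : x ≤ c * d / 4 := by rw [hx]; exact min_le_left _ _
    linarith only [this, hx'x]
  have hxη : 4 * x' ≤ c * η := by
    have : x ≤ c * η / 4 := by rw [hx]; exact min_le_right _ _
    linarith only [this, hx'x]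
  obtain ⟨τ₁, hτ₁, J₁, b₁⟩ := hbas
  obtain ⟨τ₂, hτ₂, J₂, b₂⟩ := bas_recV (habs d le_rfl K)
  obtain ⟨τ, hτ⟩ : ∃ τ, τ = min τ₁ (τ₂ / 2) := ⟨_, rfl⟩
  have hτ0 : 0 < τ := by rw [hτ]; exact lt_min hτ₁ (by linarith only [hτ₂])
  have t1 : τ ≤ τ₁ := by rw [hτ]; exact min_le_left _ _
  have t2 : 2 * τ ≤ τ₂ := by
    have : τ ≤ τ₂ / 2 := by rw [hτ]; exact min_le_right _ _
    linarith only [this]
  obtain ⟨J₃, hJ₃⟩ := exists_nat_ge (max ((100 + 4 * |hh - w|) / x') (Real.log Cp / τ))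
  obtain ⟨J, hJ, F, A, hA⟩ := hne τ hτ0 (J₁ + J₂ + J₃)
  have hJ0 : (0 : ℝ) ≤ J := Nat.cast_nonneg J
  have hJ3 : (J₃ : ℝ) ≤ J := by exact_mod_cast (by omega : J₃ ≤ J)
  have q1 : 100 + 4 * |hh - w| ≤ x' * J := by
    have h1 := ((le_max_left _ _).trans hJ₃).trans hJ3
    rw [div_le_iff₀ hx'0] at h1
    linarith only [h1]
  have hlog : Real.log Cp ≤ τ * J := by
    have h1 := ((le_max_right _ _).trans hJ₃).trans hJ3
    rw [div_le_iff₀ hτ0] at h1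
    linarith only [h1]
  obtain ⟨k1, k2, -⟩ := v.floor_le J
  obtain ⟨B, a1, a2, a3⟩ := b₁ J (by omega) F A (S.mono t1 hA) k2
  have hBS := res_of hτ0.le hA a1 hCp hlog a2
  obtain ⟨r1, r2, r3, r4, r5⟩ := vz_real v J
  rw [← hc] at r4 r5
  have hR0 : (0 : ℝ) ≤ v.R J := Nat.cast_nonneg _
  have habs0 : 0 ≤ |hh - w| := abs_nonneg _
  have hxdJ : 4 * x' * J ≤ c * d * J := mul_le_mul_of_nonneg_right hxd hJ0
  have hxηJ : 4 * x' * J ≤ c * η * J := mul_le_mul_of_nonneg_right hxη hJ0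
  have d1 : d ≤ 1 := by linarith only [hd1, hw0]
  have hdR : d * (c * J - 1) ≤ d * v.R J := mul_le_mul_of_nonneg_left r4 hd0.le
  have f1 : (⌊w * (v.R J : ℝ)⌋₊ : ℝ) ≤ w * v.R J := Nat.floor_le (by positivity)
  have f1' : w * (v.R J : ℝ) - 1 < ⌊w * (v.R J : ℝ)⌋₊ := Nat.sub_one_lt_floor _
  have f2 : (⌊x' * (J : ℝ)⌋₊ : ℝ) ≤ x' * J := Nat.floor_le (by positivity)
  have f3 : d * (v.R J : ℝ) - 1 < ⌊d * (v.R J : ℝ)⌋₊ := Nat.sub_one_lt_floor _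
  have f4 : (w + d) * (v.R J : ℝ) - 1 < ⌊(w + d) * (v.R J : ℝ)⌋₊ := Nat.sub_one_lt_floor _
  have f5 : (G - x') * (J : ℝ) - 1 < ⌊(G - x') * (J : ℝ)⌋₊ := Nat.sub_one_lt_floor _
  have hWR : ⌊(w + d) * (v.R J : ℝ)⌋₊ ≤ v.R J := by
    refine Nat.floor_le_of_le ?_
    exact mul_le_of_le_one_left hR0 hd1
  refine b₂ J (by omega) F B (S.mono t2 hBS) k2 ?_
  refine Lb.mono (a3 ⌊(r + d) * v.R J⌋₊) (Finset.Subset.refl _) le_rfl ?_ le_rfl ?_ hWR le_rfl ?_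
  · rw [← Nat.cast_le (α := ℝ)]
    linarith only [f2, f3, hdR, hxdJ, q1, d1, habs0]
  · rw [← Nat.cast_le (α := ℝ)]
    push_cast
    linarith only [f1, f4, hdR, hxdJ, q1, d1, habs0]
  · have hhG : c * (hh - w) = G - c * η := by
      rw [hhd]
      field_simp
      ring
    have hhR : (hh - w) * v.R J ≤ (G - c * η) * J + 2 * |hh - w| := by
      have h1 : (hh - w) * v.R J = (hh - w) * (c * J) + (hh - w) * (v.R J - c * J) := by ring
      have h2 : (hh - w) * (v.R J - c * J) ≤ |hh - w| * 2 := by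
        refine (le_abs_self _).trans ?_
        rw [abs_mul]
        refine mul_le_mul_of_nonneg_left ?_ habs0
        rw [abs_le]
        constructor <;> linarith only [r4, r5]
      have h3 : (hh - w) * (c * J) = (G - c * η) * J := by rw [← hhG]; ring
      linarith only [h1, h2, h3]
    rcases le_or_gt 0 hh with h0 | h0
    · rw [← Nat.cast_le (α := ℝ)]
      push_cast
      have f6 : (⌊hh * (v.R J : ℝ)⌋₊ : ℝ) ≤ hh * v.R J := Nat.floor_le (by positivity)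
      linarith only [f1', f5, f6, hhR, hxηJ, q1, habs0]
    · rw [Nat.floor_of_nonpos (mul_nonpos_of_nonpos_of_nonneg h0.le hR0)]
      exact Nat.zero_le _

/-- **Swapping the tied coordinates: the numbers.** -/
theorem swap_num {S : PCl m} (hne : S.Ne) {C₀ : ℝ} (hC₀ : 0 ≤ C₀) (htm : TmC S C₀)
    {L : Finset (Fin m) → Fin m → ℝ → ℝ → ℝ} (hL : LamW S L) (v : Vz m)
    (ε : Fin n → Fin m) {L' : Finset (Fin n) → Fin n → ℝ → ℝ → ℝ} (hL' : LamW (RecV S v ε) L')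
    {κ ι k : Fin n} (hκk : κ ≠ k) (hact : ActZ S v ε κ) (hactF : ActF S (ε κ))
    {w' w r' r a₀ a D : ℝ} (hw' : w' < w) (hr0 : 0 ≤ r') (hr' : r' < w) (hr : 0 ≤ r) (hw0 : 0 < w)
    (hw1 : w < 1) (ha0 : 0 ≤ a₀) (ha : a₀ < a) (ha1 : a < 1)
    (hD : D ≤ L {ε κ} (ε ι) a₀ a₀ - a - v.p * (1 - v.b))
    (hD' : D ≤ L {ε κ} (ε k) a₀ a₀ - a - v.p * (1 - v.b))
    (hΛD : v.sc (L' {κ, k} ι w' r') - v.p * (1 - v.b) - v.tm w < D)
    (hcont : ContinuousAt (fun W => L {ε κ} (ε k) W 0) (v.tm w))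
    (hcontU : ContinuousAt (fun W => L {ε κ} (ε ι) W 0) (v.tm w))
    (hVt : v.tm w < L {ε κ} (ε k) (v.tm w) 0)
    (hV : L {ε κ} (ε k) (v.tm w) 0 + v.p * (1 - v.b) < v.sc (L' {κ, k} ι w' r'))
    (hLv : L {ε κ} (ε k) (v.tm w) 0 + v.p * (1 - v.b) ≤ v.sc (L' {κ} k w' r'))
    (hUV : L {ε κ} (ε ι) (v.tm w) 0 ≤ L {ε κ} (ε k) (v.tm w) 0) :
    L' {κ, k} ι w' r' ≤ L' {κ, ι} k w r := by
  classical
  have hb := v.b0
  have hb1 := v.b1
  have hp := v.p0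
  have hp1 := v.p1
  obtain ⟨c, hc⟩ : ∃ c, c = (1 - v.b) * (1 - v.p) := ⟨_, rfl⟩
  have hc0 : 0 < c := by rw [hc]; exact mul_pos (by linarith) (by linarith)
  have hpb : 0 ≤ v.p * (1 - v.b) := mul_nonneg hp (by linarith)
  obtain ⟨Λ, hΛ⟩ : ∃ Λ, Λ = v.sc (L' {κ, k} ι w' r') - v.p * (1 - v.b) - v.tm w := ⟨_, rfl⟩
  obtain ⟨V, hVd⟩ : ∃ V, V = L {ε κ} (ε k) (v.tm w) 0 := ⟨_, rfl⟩
  have hΛc : Λ = c * (L' {κ, k} ι w' r' - w) := by
    rw [hΛ, hc]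
    have h1 : v.tm w = v.b + (1 - v.b) * (1 - v.p) * w := rfl
    rw [h1]
    unfold Vz.sc
    ring
  have hL1 : L' {κ, k} ι w' r' ≤ 1 := hL'.le1 _ _ _ _
  rw [← hΛ] at hΛD
  have hVΛ : V - v.tm w < Λ := by rw [hVd, hΛ]; linarith
  have hVt' : v.tm w < V := by rw [hVd]; exact hVt
  have hUV' : L {ε κ} (ε ι) (v.tm w) 0 ≤ V := by rw [hVd]; exact hUV
  have hcw : 0 < c * (w - r') := mul_pos hc0 (by linarith)
  suffices hs : Λ ≤ (1 - v.b) * (1 - v.p) * (L' {κ, ι} k w r - w) by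
    rw [← hc, hΛc] at hs
    have := le_of_mul_le_mul_left hs hc0
    linarith only [this]
  refine lab_num (K := 1) (Cp := 20480) hne htm v ε hL' (by norm_num) hw0.le hr ?_ ?_
  · rw [← hc, hΛc]
    exact mul_le_mul_of_nonneg_left (by linarith only [hL1]) hc0.le
  intro X hX
  obtain ⟨x, hx⟩ : ∃ x, x = min (min (X / 4) ((Λ - (V - v.tm w)) / 4))
    (min ((D - Λ) / 4) (min (c * (w - r')) (V - v.tm w))) := ⟨_, rfl⟩
  have hx0 : 0 < x := by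
    rw [hx]
    exact lt_min (lt_min (by linarith) (by linarith)) (lt_min (by linarith)
      (lt_min hcw (by linarith)))
  have c0 : x ≤ X / 4 ∧ x ≤ (Λ - (V - v.tm w)) / 4 ∧ x ≤ (D - Λ) / 4 ∧ x ≤ c * (w - r') ∧
      x ≤ V - v.tm w := by
    have := hx.le
    simp only [le_min_iff] at this
    tauto
  obtain ⟨c1, c2, c3, c4, c5⟩ := c0
  obtain ⟨e₀, he₀, hswap⟩ := swap_cls hC₀ htm hL v ε hL' (κ := κ) (ι := ι) (k := k) hκk hact hactF
    (x := x) (q := Λ - x) hw' hr0 hw0 hw1 hx0 (by rw [← hc]; exact c4) (by linarith)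
    (by rw [← hΛ]; linarith) hcont hVt (by rw [← hVd]; linarith) hLv hcontU hUV (by linarith)
  obtain ⟨e, he⟩ : ∃ e, e = min (min e₀ x) (min ((a - a₀) / 3) ((D - Λ) / 8)) := ⟨_, rfl⟩
  have he0 : 0 < e := by
    rw [he]
    exact lt_min (lt_min he₀ hx0) (lt_min (by linarith) (by linarith))
  have e1 : e ≤ e₀ ∧ e ≤ x ∧ e ≤ (a - a₀) / 3 ∧ e ≤ (D - Λ) / 8 := by
    have := he.le
    simp only [le_min_iff] at this
    tauto
  obtain ⟨e1, e2, e3, e4⟩ := e1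
  have hΛ0 : 0 < Λ := by linarith
  have hdu := dp_cls hL (ε κ) (ε ι) ha0 ha ha1 he0 (by linarith) (by linarith)
  have hdv := dp_cls hL (ε κ) (ε k) ha0 ha ha1 he0 (by linarith) (by linarith)
  obtain ⟨τ₁, hτ₁, J₁, b₁⟩ := hswap
  obtain ⟨τ₂, hτ₂, J₂, b₂⟩ := hdu
  obtain ⟨τ₃, hτ₃, J₃, b₃⟩ := hdv
  obtain ⟨J₄, hJ₄⟩ := exists_nat_ge ((100 : ℝ) / x)
  refine ⟨4 * x, by linarith, by linarith, min τ₁ (min τ₂ τ₃), lt_min hτ₁ (lt_min hτ₂ hτ₃),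
    J₁ + J₂ + J₃ + J₄, ?_⟩
  intro J hJ F A hA hP
  have hJ4 : (J₄ : ℝ) ≤ J := by exact_mod_cast (by omega : J₄ ≤ J)
  have hJ0 : (0 : ℝ) ≤ J := Nat.cast_nonneg J
  have q1 : (100 : ℝ) ≤ x * J := by
    have h1 := hJ₄.trans hJ4
    rw [div_le_iff₀ hx0] at h1
    linarith only [h1]
  obtain ⟨au, cu, hau⟩ := b₂ J (by omega) F A
    (S.mono ((min_le_right _ _).trans (min_le_left _ _)) hA)
  obtain ⟨av, cv, hav⟩ := b₃ J (by omega) F A
    (S.mono ((min_le_right _ _).trans (min_le_right _ _)) hA)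
  obtain ⟨M, hM⟩ : ∃ M, M = ⌊(D + v.p * (1 - v.b) - 4 * e) * J⌋₊ := ⟨_, rfl⟩
  have hau' : Dp F A (ε κ) (ε ι) ⌊e * J⌋₊ M au cu := by
    refine hau.mono le_rfl ?_
    rw [hM]
    exact Nat.floor_le_floor (mul_le_mul_of_nonneg_right (by linarith) hJ0)
  have hav' : Dp F A (ε κ) (ε k) ⌊e * J⌋₊ M av cv := by
    refine hav.mono le_rfl ?_
    rw [hM]
    exact Nat.floor_le_floor (mul_le_mul_of_nonneg_right (by linarith) hJ0)
  obtain ⟨B, a1, a2, V', zp, zs, cf, a3⟩ := b₁ J (by omega) F A (S.mono (min_le_left _ _) hA)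
    au cu av cv _ M (Nat.floor_le_floor (mul_le_mul_of_nonneg_right e1 hJ0)) (by
      rw [hM]
      exact Nat.floor_le_floor (mul_le_mul_of_nonneg_right (by linarith) hJ0)) hau' hav' hP
  refine ⟨B, a1, a2, fun ρ => ?_⟩
  have f1 : (Λ - 4 * x) * (J : ℝ) = Λ * J - 4 * (x * J) := by ring
  have f2 : (⌊(Λ - 4 * x) * (J : ℝ)⌋₊ : ℝ) ≤ (Λ - 4 * x) * J := Nat.floor_le (mul_nonneg
    (by linarith) hJ0)
  have f3 : (Λ - x - x) * (J : ℝ) - 1 < ⌊(Λ - x - x) * (J : ℝ)⌋₊ := Nat.sub_one_lt_floor _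
  have f4 : (⌊x * (J : ℝ)⌋₊ : ℝ) ≤ x * J := Nat.floor_le (by positivity)
  have f5 : 4 * x * (J : ℝ) - 1 < ⌊4 * x * (J : ℝ)⌋₊ := Nat.sub_one_lt_floor _
  have f6 : (Λ - 4 * x) * (J : ℝ) - 1 < ⌊(Λ - 4 * x) * (J : ℝ)⌋₊ := Nat.sub_one_lt_floor _
  have hexp : ⌊e * (J : ℝ)⌋₊ ≤ ⌊x * (J : ℝ)⌋₊ :=
    Nat.floor_le_floor (mul_le_mul_of_nonneg_right e2 hJ0)
  rcases le_or_gt 2 ⌊(Λ - 4 * x) * (J : ℝ)⌋₊ with h2 | h2
  · have hlb := a3.lb (hau'.sub a1) (hav'.sub a1) hexp (P' := ⌊w * (v.R J : ℝ)⌋₊ +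
      ⌊(Λ - 4 * x) * (J : ℝ)⌋₊) (by
      have : ⌊(Λ - 4 * x) * (J : ℝ)⌋₊ + 1 ≤ ⌊(Λ - x - x) * (J : ℝ)⌋₊ := by
        rw [← Nat.cast_le (α := ℝ)]
        push_cast
        linarith only [f1, f2, f3, q1]
      omega) (by omega) ρ
    have hRJ : v.R J = J - v.B J - v.P J := rfl
    refine Lb.mono hlb (Finset.Subset.refl _) le_rfl ?_ le_rfl le_rfl ?_ le_rfl le_rfl
    · rw [← Nat.cast_le (α := ℝ)]
      push_cast
      linarith only [f4, f5, q1]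
    · obtain ⟨r1, r2, r3, r4, r5⟩ := vz_real v J
      rw [← hRJ, ← Nat.cast_le (α := ℝ)]
      push_cast
      rw [← hc] at r4
      have g1 : (1 - w) * (c * J - 1) ≤ (1 - w) * v.R J :=
        mul_le_mul_of_nonneg_left r4 (by linarith)
      have g2 : (⌊w * (v.R J : ℝ)⌋₊ : ℝ) ≤ w * v.R J := Nat.floor_le (by positivity)
      have g3 : Λ * J ≤ c * (1 - w) * J := mul_le_mul_of_nonneg_right (by
        rw [hΛc]
        exact mul_le_mul_of_nonneg_left (by linarith only [hL1]) hc0.le) hJ0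
      have g4 : 4 * x * J ≤ Λ * J := mul_le_mul_of_nonneg_right (by linarith) hJ0
      linarith only [g1, g2, g3, g4, q1, hw0]
  · have hlb := a3.lb (hau'.sub a1) (hav'.sub a1) hexp (P' := ⌊w * (v.R J : ℝ)⌋₊ + 2) (by
      have : 2 + 1 ≤ ⌊(Λ - x - x) * (J : ℝ)⌋₊ := by
        rw [← Nat.cast_le (α := ℝ)]
        push_cast
        have h3 : (4 * x) * J ≤ Λ * J := mul_le_mul_of_nonneg_right (by linarith) hJ0
        linarith only [h3, f3, q1]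
      omega) le_rfl ρ
    have hRJ : v.R J = J - v.B J - v.P J := rfl
    refine Lb.mono hlb (Finset.Subset.refl _) le_rfl ?_ le_rfl le_rfl ?_ le_rfl (by omega)
    · rw [← Nat.cast_le (α := ℝ)]
      push_cast
      linarith only [f4, f5, q1]
    · obtain ⟨r1, r2, r3, r4, r5⟩ := vz_real v J
      rw [← hRJ, ← Nat.cast_le (α := ℝ)]
      push_cast
      rw [← hc] at r4
      have g1 : (1 - w) * (c * J - 1) ≤ (1 - w) * v.R J :=
        mul_le_mul_of_nonneg_left r4 (by linarith)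
      have g2 : (⌊w * (v.R J : ℝ)⌋₊ : ℝ) ≤ w * v.R J := Nat.floor_le (by positivity)
      have g3 : Λ * J ≤ c * (1 - w) * J := mul_le_mul_of_nonneg_right (by
        rw [hΛc]
        exact mul_le_mul_of_nonneg_left (by linarith only [hL1]) hc0.le) hJ0
      have g4 : 4 * x * J ≤ Λ * J := mul_le_mul_of_nonneg_right (by linarith) hJ0
      linarith only [g1, g2, g3, g4, q1, hw0]

end Pool.MIC6
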