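import Pool.Agent.H6.OWN.Afn
import Pool.Agent.H6.OWN.Lbf

/-!
# Swapping the tied coordinates

`swap_cls`: an affine label of `u` over `y`, `v` in the zooms which is better than the natural one,
where `v` is at least as fine as `u`, can be solved for `v`: an affine label of `v` over `y`, `u`.
-/

set_option autoImplicit false

namespace Pool.MIC6

open Finset MvPolynomial
open Pool.Agent.H49.Ent Pool.Agent.H32.Dense Pool.STK Pool.KA Pool.KSAT Pool.K2S Pool.PB Pool.GEN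
open Pool.S6C
open Pool.FLF (Fam.sub)
open Pool.GRD (LbP)
open Pool.REX

variable {m n J : ℕ}

/-- The coefficients of the solved equation. -/
noncomputable def icf {V : Type} (cf : V → Fin 4 → ℝ) (x : V) : Fin 4 → ℝ :=
  ![-cf x 0 / cf x 3, -cf x 1 / cf x 3, -cf x 2 / cf x 3, 1 / cf x 3]

theorem icf0 {V : Type} (cf : V → Fin 4 → ℝ) (x : V) : icf cf x 0 = -cf x 0 / cf x 3 := rfl
theorem icf1 {V : Type} (cf : V → Fin 4 → ℝ) (x : V) : icf cf x 1 = -cf x 1 / cf x 3 := rfl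
theorem icf2 {V : Type} (cf : V → Fin 4 → ℝ) (x : V) : icf cf x 2 = -cf x 2 / cf x 3 := rfl
theorem icf3 {V : Type} (cf : V → Fin 4 → ℝ) (x : V) : icf cf x 3 = 1 / cf x 3 := rfl

/-- The solved equation. -/
theorem icf_val {c₀ c₁ c₂ c₃ t y u v E : ℝ} {g : ℕ} (h : |u - (c₀ + (c₁ * t + (c₂ * y + c₃ * v)))| ≤ E)
    (h3 : 1 / 2 ^ g ≤ |c₃|) :
    |v - (-c₀ / c₃ + (-c₁ / c₃ * t + (-c₂ / c₃ * y + 1 / c₃ * u)))| ≤ 2 ^ g * E := by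
  have pg : (0 : ℝ) < 1 / 2 ^ g := by positivity
  have h4 : 0 < |c₃| := pg.trans_le h3
  have h5 : c₃ ≠ 0 := abs_pos.1 h4
  have e1 : v - (-c₀ / c₃ + (-c₁ / c₃ * t + (-c₂ / c₃ * y + 1 / c₃ * u))) =
      -(u - (c₀ + (c₁ * t + (c₂ * y + c₃ * v)))) / c₃ := by
    field_simp
    ring
  rw [e1, abs_div, abs_neg, div_le_iff₀ h4]
  have h6 : 0 ≤ E := (abs_nonneg _).trans h
  have h7 : 2 ^ g * E * (1 / 2 ^ g) ≤ 2 ^ g * E * |c₃| :=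
    mul_le_mul_of_nonneg_left h3 (by positivity)
  have e2 : (2 : ℝ) ^ g * E * (1 / 2 ^ g) = E := by field_simp
  rw [e2] at h7
  exact h.trans h7

/-- **Swapping the tied coordinates in an affine label of a zoom.** -/
theorem AfC.swap {F : Fam m J} {B P : ℕ} {hP : P ≤ J - B} {Y : Type} {yy : F.Ω → Y}
    {ε : Fin n → Fin m} {κ ι k : Fin n} {w Q q e g Q' q' : ℕ} {au av : PtT F → ℝ}
    {A : F.Ω → Prop} {V : Type} {zp : PtT (zmV F hP yy ε) → V} {zs : LnT (zmV F hP yy ε) → V}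
    {cf : V → Fin 4 → ℝ} (h : AfC F hP yy ε κ k ι w Q q e av au A zp zs cf)
    (h3 : ∀ ω, A ω → 1 / 2 ^ g ≤ |cf (zs (slam (zmV F hP yy ε) w ω)) 3|) (hQ : Q' + g ≤ Q)
    (hq : q' + g ≤ q) :
    AfC F hP yy ε κ ι k w Q' q' g au av A zp zs (icf cf) := by
  obtain ⟨h1, h2⟩ := h
  have hgQ : ∀ a b : ℕ, a + g ≤ b → (2 : ℝ) ^ g * (1 / 2 ^ b) ≤ 1 / 2 ^ a := by
    intro a b hab
    rw [mul_one_div, div_le_div_iff₀ (by positivity) (by positivity), one_mul, ← pow_add]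
    exact pow_le_pow_right₀ (by norm_num) (by omega)
  refine ⟨⟨fun x => deg_afq _ _ _ _ _ _, fun x b b' hn hb => ?_, h1.cls, fun ω hω => ?_⟩,
    fun ω hω => ⟨?_, ?_, fun σ hσ => ?_⟩⟩
  · rw [eval_afq, eval_afq, hn, hb κ (Finset.mem_insert_self _ _),
      hb ι (Finset.mem_insert_of_mem (Finset.mem_singleton_self _))]
  · have k1 := h1.pos ω hω
    rw [eval_afq] at k1 ⊢
    exact (icf_val k1 (h3 ω hω)).trans (hgQ _ _ hQ)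
  · have k1 := h3 ω hω
    rw [icf3, abs_div, abs_one]
    have pg : (0 : ℝ) < 1 / 2 ^ g := by positivity
    rw [div_le_iff₀ (pg.trans_le k1)]
    have := mul_le_mul_of_nonneg_left k1 (by positivity : (0 : ℝ) ≤ 2 ^ g)
    rw [mul_one_div, div_self (by positivity)] at this
    exact this
  · have k1 := (h2 ω hω).2.1
    have k2 : |au (ptr F J ω) - (cf (zs (slam (zmV F hP yy ε) w ω)) 2 + (0 * 0 + (0 * 0 +
        cf (zs (slam (zmV F hP yy ε) w ω)) 3 * av (ptr F J ω))))| ≤ 1 / 2 ^ q := by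
      rw [abs_sub_comm]
      refine le_trans (le_of_eq ?_) k1
      congr 1
      ring
    have k3 := (icf_val k2 (h3 ω hω)).trans (hgQ _ _ hq)
    rw [icf2, icf3, abs_sub_comm]
    refine le_trans (le_of_eq ?_) k3
    congr 1
    ring
  · have k1 := (h2 ω hω).2.2 σ hσ
    rw [eval_afq] at k1 ⊢
    exact (icf_val k1 (h3 ω hω)).trans (hgQ _ _ hQ)

/-- **Swapping the tied coordinates in a class.** -/
theorem swap_cls {S : PCl m} {C₀ : ℝ} (hC₀ : 0 ≤ C₀) (htm : TmC S C₀)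
    {L : Finset (Fin m) → Fin m → ℝ → ℝ → ℝ} (hL : LamW S L) (v : Vz m)
    (ε : Fin n → Fin m) {L' : Finset (Fin n) → Fin n → ℝ → ℝ → ℝ} (hL' : LamW (RecV S v ε) L')
    {κ ι k : Fin n} (hκk : κ ≠ k) (hact : ActZ S v ε κ) (hactF : ActF S (ε κ))
    {w' w r' x q : ℝ} (hw' : w' < w) (hr0 : 0 ≤ r') (hw0 : 0 < w) (hw1 : w < 1) (hx : 0 < x)
    (hrs : x ≤ (1 - v.b) * (1 - v.p) * (w - r')) (hqx : x ≤ q)
    (hLz : q + x ≤ v.sc (L' {κ, k} ι w' r') - v.p * (1 - v.b) - v.tm w)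
    (hcont : ContinuousAt (fun W => L {ε κ} (ε k) W 0) (v.tm w))
    (hVt : v.tm w < L {ε κ} (ε k) (v.tm w) 0)
    (hVq : L {ε κ} (ε k) (v.tm w) 0 - v.tm w ≤ q)
    (hLv : L {ε κ} (ε k) (v.tm w) 0 + v.p * (1 - v.b) ≤ v.sc (L' {κ} k w' r'))
    (hcontU : ContinuousAt (fun W => L {ε κ} (ε ι) W 0) (v.tm w))
    (hUV : L {ε κ} (ε ι) (v.tm w) 0 ≤ L {ε κ} (ε k) (v.tm w) 0)
    (hUq : L {ε κ} (ε ι) (v.tm w) 0 - v.tm w + 2 * x ≤ q) :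
    ∃ e₀ : ℝ, 0 < e₀ ∧ Bas S (fun J F A => ∀ (au cu av cv : PtT F → ℝ) (e M : ℕ),
      e ≤ ⌊e₀ * J⌋₊ → ⌊(q + v.p * (1 - v.b) + x) * J⌋₊ ≤ M → Dp F A (ε κ) (ε ι) e M au cu →
      Dp F A (ε κ) (ε k) e M av cv → ∀ hP : v.P J ≤ J - v.B J,
      ∃ B : F.Ω → Prop, Sub B A ∧ Pe F.p A ≤ 20480 * Pe F.p B ∧
        ∃ (V : Type) (zp : PtT (zmV F hP (v.y J F) ε) → V) (zs : LnT (zmV F hP (v.y J F) ε) → V)
          (cf : V → Fin 4 → ℝ),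
          AfC F hP (v.y J F) ε κ ι k (⌊w * v.R J⌋₊ + 2) (⌊w * v.R J⌋₊ + ⌊(q - x) * J⌋₊)
            ⌊(q - 2 * x) * J⌋₊ ⌊x * J⌋₊ au av B zp zs cf) := by
  classical
  have hb := v.b0
  have hb1 := v.b1
  have hp := v.p0
  have hp1 := v.p1
  have hcp : 0 < (1 - v.b) * (1 - v.p) := mul_pos (by linarith) (by linarith)
  have hpb : 0 ≤ v.p * (1 - v.b) := mul_nonneg hp (by linarith)
  obtain ⟨U, hUd⟩ : ∃ U, U = L {ε κ} (ε ι) (v.tm w) 0 := ⟨_, rfl⟩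
  obtain ⟨V, hVd⟩ : ∃ V, V = L {ε κ} (ε k) (v.tm w) 0 := ⟨_, rfl⟩
  have hV1 : V ≤ 1 := by rw [hVd]; exact hL.le1 _ _ _ _
  have htm0 : v.tm w = v.b + (1 - v.b) * (1 - v.p) * w := rfl
  have htw0 : 0 < v.tm w := by
    have : 0 < (1 - v.b) * (1 - v.p) * w := mul_pos hcp hw0
    rw [htm0]
    linarith
  have h4w : x ≤ (1 - v.b) * (1 - v.p) * (1 - w) ∧ q + x + v.tm w + v.p * (1 - v.b) ≤ 1 := by
    have h3 : v.sc (L' {κ, k} ι w' r') ≤ v.b + v.p * (1 - v.b) + (1 - v.b) * (1 - v.p) := by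
      have h4 : v.sc (L' {κ, k} ι w' r') = v.b + v.p * (1 - v.b) +
        (1 - v.b) * (1 - v.p) * L' {κ, k} ι w' r' := by unfold Vz.sc; ring
      rw [h4]
      have h5 : L' {κ, k} ι w' r' ≤ 1 := hL'.le1 _ _ _ _
      have h6 : (1 - v.b) * (1 - v.p) * L' {κ, k} ι w' r' ≤ (1 - v.b) * (1 - v.p) * 1 :=
        mul_le_mul_of_nonneg_left h5 hcp.le
      linarith
    have h5 : v.b + v.p * (1 - v.b) + (1 - v.b) * (1 - v.p) = 1 := by ring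
    constructor
    · rw [htm0] at hLz
      linarith
    · linarith
  obtain ⟨h4w, h4q⟩ := h4w
  obtain ⟨e₁, he₁, haff⟩ := aff_cls hC₀ htm hL v ε hL' (κ := κ) (ι := k) (k := ι) hκk hact hactF
    hw' hr0 hw0 hw1 hx hrs hqx hLz hcont hVt hVq hLv
  rw [← hUd, ← hVd] at hUV
  rw [← hVd] at hVq hVt
  rw [← hUd] at hUq
  -- the window
  obtain ⟨s, hs⟩ : ∃ s, s = min (x / 64) ((V - v.tm w) / 16) := ⟨_, rfl⟩
  have hs0 : 0 < s := by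
    rw [hs]
    exact lt_min (by linarith) (by linarith)
  have hsx : 64 * s ≤ x := by
    have : s ≤ x / 64 := by rw [hs]; exact min_le_left _ _
    linarith
  have hsV : 16 * s ≤ V - v.tm w := by
    have : s ≤ (V - v.tm w) / 16 := by rw [hs]; exact min_le_right _ _
    linarith
  obtain ⟨η, hη, hηc⟩ := Metric.continuousAt_iff.1 hcontU s hs0
  obtain ⟨o, hod⟩ : ∃ o, o = min s (η / 2) := ⟨_, rfl⟩
  have ho0 : 0 < o := by rw [hod]; exact lt_min hs0 (by linarith)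
  have ho1 : o ≤ s := by rw [hod]; exact min_le_left _ _
  have ho2 : o ≤ η / 2 := by rw [hod]; exact min_le_right _ _
  obtain ⟨W, hW⟩ : ∃ W, W = v.tm w + o := ⟨_, rfl⟩
  obtain ⟨U₂, hU₂⟩ : ∃ U₂, U₂ = L {ε κ} (ε ι) W 0 := ⟨_, rfl⟩
  have hUU₂ : |U₂ - U| < s := by
    have h1 := @hηc W (by
      rw [Real.dist_eq, hW]
      have : v.tm w + o - v.tm w = o := by ring
      rw [this, abs_of_pos ho0]
      linarith)
    rw [Real.dist_eq] at h1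
    rw [hU₂, hUd]
    exact h1
  rw [abs_lt] at hUU₂
  have hWW1 : W ≤ 1 := by rw [hW]; linarith
  have hU₂W : W ≤ U₂ := by rw [hU₂]; exact hL.low _ _ _ _ hWW1
  have hnv := nat_cls hC₀ htm hL (v := ε k) hactF (W' := v.tm w) (W := W) (s := s)
    (by rw [hW]; linarith) (by rw [hW]; linarith) hs0 (by rw [← hVd, hW]; linarith)
  obtain ⟨d, hd0, habs⟩ := abs_cls htm hL (y := ε κ) (v := ε ι) (W := W) (s := s)
    (by rw [hW]; linarith) hs0 (by rw [← hU₂]; exact hU₂W) (by rw [← hU₂]; linarith)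
  rw [← hVd] at hnv
  rw [← hU₂] at habs
  obtain ⟨e₀, he₀⟩ : ∃ e₀, e₀ = min e₁ (min d s) := ⟨_, rfl⟩
  have he₀0 : 0 < e₀ := by rw [he₀]; exact lt_min he₁ (lt_min hd0 hs0)
  have he₀1 : e₀ ≤ e₁ := by rw [he₀]; exact min_le_left _ _
  have he₀d : e₀ ≤ d := by rw [he₀]; exact (min_le_right _ _).trans (min_le_left _ _)
  have he₀s : e₀ ≤ s := by rw [he₀]; exact (min_le_right _ _).trans (min_le_right _ _)
  obtain ⟨τ₁, hτ₁, J₁, b₁⟩ := haff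
  obtain ⟨τ₂, hτ₂, J₂, b₂⟩ := hnv
  obtain ⟨τ₃, hτ₃, J₃, b₃⟩ := habs e₀ he₀0 he₀d
  obtain ⟨τ, hτ⟩ : ∃ τ, τ = min τ₁ (min (τ₂ / 2) (τ₃ / 2)) := ⟨_, rfl⟩
  have hτ0 : 0 < τ := by rw [hτ]; exact lt_min hτ₁ (lt_min (by linarith) (by linarith))
  have t0 : τ ≤ τ₁ ∧ τ ≤ τ₂ / 2 ∧ τ ≤ τ₃ / 2 := by
    have := hτ.le
    simp only [le_min_iff] at this
    exact this
  obtain ⟨t1, t2, t3⟩ := t0
  obtain ⟨J₄, hJ₄⟩ := exists_nat_ge (max ((100 : ℝ) / o) (Real.log 20480 / τ))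
  refine ⟨e₀, he₀0, τ, hτ0, J₁ + J₂ + J₃ + J₄, ?_⟩
  intro J hJ F A hA au cu av cv e M he hM hau hav hP
  have hJ4 : (J₄ : ℝ) ≤ J := by exact_mod_cast (by omega : J₄ ≤ J)
  have hJ0 : (0 : ℝ) ≤ J := Nat.cast_nonneg J
  have q1 : (100 : ℝ) ≤ o * J := by
    have h1 := ((le_max_left _ _).trans hJ₄).trans hJ4
    rw [div_le_iff₀ ho0] at h1
    linarith
  have hlog : Real.log 20480 ≤ τ * J := by
    have h1 := ((le_max_right _ _).trans hJ₄).trans hJ4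
    rw [div_le_iff₀ hτ0] at h1
    linarith
  have hA0 := (htm τ J F A hτ0 hA).1
  have hres : ∀ (B' : F.Ω → Prop), Sub B' A → Pe F.p A ≤ 20480 * Pe F.p B' →
      S.St (2 * τ) J F B' := fun B' h1 h2 => res_of hτ0.le hA h1 (by norm_num) hlog h2
  have hes : ⌊e₀ * (J : ℝ)⌋₊ ≤ ⌊s * (J : ℝ)⌋₊ :=
    Nat.floor_le_floor (mul_le_mul_of_nonneg_right he₀s hJ0)
  have hMge : ∀ z : ℝ, z ≤ q + v.p * (1 - v.b) + x → ⌊z * (J : ℝ)⌋₊ ≤ M := fun z hz =>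
    (Nat.floor_le_floor (mul_le_mul_of_nonneg_right hz hJ0)).trans hM
  obtain ⟨B₁, a1, a2, V', zp, zs, cf, a3⟩ := b₁ J (by omega) F A (S.mono t1 hA) av cv au cu e M
    (he.trans (Nat.floor_le_floor (mul_le_mul_of_nonneg_right he₀1 hJ0))) hM hav hau hP
  obtain ⟨B₂, c1, c2, j, c3⟩ := b₂ J (by omega) F B₁ (S.mono (by linarith)
    (hres B₁ a1 (by
      have : 0 ≤ Pe F.p B₁ := Pe_nonneg F.isLaw B₁
      linarith))) av cv e M (hav.sub a1) (he.trans hes) (hMge _ (by rw [hW]; linarith))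
  have hB₂A : Sub B₂ A := fun ω hω => a1 ω (c1 ω hω)
  -- the window of the zoom
  obtain ⟨k1, -, -⟩ := v.floor_le J
  obtain ⟨r1, r2, r3, r4, r5⟩ := vz_real v J
  have hRJ : v.R J = J - v.B J - v.P J := rfl
  have fw : (⌊w * (v.R J : ℝ)⌋₊ : ℝ) ≤ w * v.R J := Nat.floor_le (by positivity)
  have hos : o * (J : ℝ) ≤ s * J := mul_le_mul_of_nonneg_right ho1 hJ0
  have hsxJ : 64 * s * (J : ℝ) ≤ x * J := mul_le_mul_of_nonneg_right hsx hJ0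
  have hwR : ⌊w * (v.R J : ℝ)⌋₊ + 2 ≤ J - v.B J - v.P J := by
    rw [← hRJ, ← Nat.cast_le (α := ℝ)]
    push_cast
    have h2 : (1 - w) * ((1 - v.b) * (1 - v.p) * J - 1) ≤ (1 - w) * v.R J :=
      mul_le_mul_of_nonneg_left r4 (by linarith)
    have h5 : x * J ≤ (1 - v.b) * (1 - v.p) * (1 - w) * J := mul_le_mul_of_nonneg_right h4w hJ0
    linarith only [fw, h2, h5, hos, hsxJ, q1, hw0]
  have hWJ : ⌊W * (J : ℝ)⌋₊ ≤ J := by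
    refine Nat.floor_le_of_le ?_
    exact mul_le_of_le_one_left hJ0 hWW1
  have hwW : v.B J + (⌊w * (v.R J : ℝ)⌋₊ + 2) ≤ ⌊W * (J : ℝ)⌋₊ := by
    rw [← Nat.cast_le (α := ℝ)]
    push_cast
    have h1 : w * (v.R J : ℝ) ≤ w * ((1 - v.b) * (1 - v.p) * J + 2) :=
      mul_le_mul_of_nonneg_left r5 hw0.le
    have h2 : W * (J : ℝ) - 1 < ⌊W * (J : ℝ)⌋₊ := Nat.sub_one_lt_floor _
    have h3 : W * (J : ℝ) = v.b * J + (1 - v.b) * (1 - v.p) * w * J + o * J := by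
      rw [hW, htm0]
      ring
    linarith only [fw, h1, h2, h3, q1, r2, hw1]
  have hfac := zom_fac F hP (v.y J F) ε k1 (w := ⌊w * (v.R J : ℝ)⌋₊ + 2) (W := ⌊W * (J : ℝ)⌋₊)
    hwR hwW hWJ (fun ω ω' h => Pool.GRW.zmV_of_slam F hP (v.y J F) ε k1 hwR (v.line J F) h)
  obtain ⟨ga, hga⟩ := hfac (fun y => cf (zs y) 2)
  obtain ⟨gb, hgb⟩ := hfac (fun y => cf (zs y) 3)
  -- the exponents
  have hfl : ∀ z : ℝ, 0 ≤ z → (⌊z * (J : ℝ)⌋₊ : ℝ) ≤ z * J := fun z hz =>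
    Nat.floor_le (mul_nonneg hz hJ0)
  have hfl' : ∀ z : ℝ, z * (J : ℝ) - 1 < ⌊z * (J : ℝ)⌋₊ := fun z => Nat.sub_one_lt_floor _
  have hUVJ : U * J ≤ V * J := mul_le_mul_of_nonneg_right hUV hJ0
  have hUqJ : (U - v.tm w + 2 * x) * J ≤ q * J := mul_le_mul_of_nonneg_right hUq hJ0
  have hWe : W * (J : ℝ) = v.tm w * J + o * J := by rw [hW]; ring
  have hU₂J : U₂ * (J : ℝ) ≤ (U + s) * J := mul_le_mul_of_nonneg_right (by linarith) hJ0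
  have a2' := hfl (U₂ - W + s) (by linarith)
  have n1 : ⌊(U₂ - W + s) * (J : ℝ)⌋₊ + 1 ≤ ⌊x * (J : ℝ)⌋₊ + ⌊(V - W - 8 * s) * (J : ℝ)⌋₊ := by
    rw [← Nat.cast_le (α := ℝ)]
    push_cast
    have a3 := hfl' (V - W - 8 * s)
    have a4 := hfl' x
    linarith only [a2', a3, a4, hos, hsxJ, hUVJ, hU₂J, q1]
  have n2 : ⌊(U₂ - W + s) * (J : ℝ)⌋₊ + 1 ≤ ⌊(q - x) * (J : ℝ)⌋₊ := by
    rw [← Nat.cast_le (α := ℝ)]
    push_cast
    have a3 := hfl' (q - x)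
    linarith only [a2', a3, hos, hsxJ, hU₂J, hUqJ, hWe, q1]
  have n3 : ⌊w * (v.R J : ℝ)⌋₊ + ⌊(q - x) * (J : ℝ)⌋₊ + ⌊x * (J : ℝ)⌋₊ ≤
      ⌊w * (v.R J : ℝ)⌋₊ + ⌊q * (J : ℝ)⌋₊ := by
    have h1 : ⌊(q - x) * (J : ℝ)⌋₊ + ⌊x * (J : ℝ)⌋₊ ≤ ⌊q * (J : ℝ)⌋₊ := by
      refine (Nat.le_floor ?_)
      push_cast
      have a1 := hfl (q - x) (by linarith)
      have a2 := hfl x hx.le
      linarith only [a1, a2]
    omega
  have hUt : v.tm w ≤ U := by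
    rw [hUd]
    exact hL.low _ _ _ _ (by linarith)
  have hqx2 : 2 * x ≤ q := by linarith only [hUt, hUq]
  have n4 : ⌊(q - 2 * x) * (J : ℝ)⌋₊ + ⌊x * (J : ℝ)⌋₊ ≤ ⌊(q - x) * (J : ℝ)⌋₊ := by
    refine (Nat.le_floor ?_)
    push_cast
    have a1 := hfl (q - 2 * x) (by linarith)
    have a2 := hfl x hx.le
    linarith only [a1, a2]
  -- large slopes
  have hparts := Pe_parts (p := F.p) (B := B₂)
    (B' := fun ω => B₂ ω ∧ |gb (slam F ⌊W * (J : ℝ)⌋₊ ω)| < 1 / 2 ^ ⌊x * (J : ℝ)⌋₊)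
    fun ω hω => hω.1
  have hB₂0 : 0 < Pe F.p B₂ := by
    linarith
  have hsmall : Pe F.p (fun ω => B₂ ω ∧ |gb (slam F ⌊W * (J : ℝ)⌋₊ ω)| <
      1 / 2 ^ ⌊x * (J : ℝ)⌋₊) < Pe F.p B₂ / 2 := by
    by_contra hcon
    rw [not_lt] at hcon
    refine b₃ J (by omega) F (fun ω => B₂ ω ∧ |gb (slam F ⌊W * (J : ℝ)⌋₊ ω)| <
      1 / 2 ^ ⌊x * (J : ℝ)⌋₊) (S.mono (by linarith) (hres _ (fun ω hω => hB₂A ω hω.1) (by
        linarith))) au cu M ((hau.sub fun ω hω => hB₂A ω hω.1).mono he le_rfl)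
      (hMge _ (by rw [hW]; linarith)) (fun y => ga y + gb y * j y) fun ω hω => ?_
    have h1 := (a3.2 ω (c1 ω hω.1)).2.1
    rw [show cf (zs (slam (zmV F hP (v.y J F) ε) (⌊w * (v.R J : ℝ)⌋₊ + 2) ω)) 2 =
      ga (slam F ⌊W * (J : ℝ)⌋₊ ω) from hga ω,
      show cf (zs (slam (zmV F hP (v.y J F) ε) (⌊w * (v.R J : ℝ)⌋₊ + 2) ω)) 3 =
      gb (slam F ⌊W * (J : ℝ)⌋₊ ω) from hgb ω] at h1
    refine rel_mul h1 (c3 ω hω.1) hω.2.le ?_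
    have e1 : (1 : ℝ) / 2 ^ ⌊x * (J : ℝ)⌋₊ * (1 / 2 ^ ⌊(V - W - 8 * s) * (J : ℝ)⌋₊) =
        1 / 2 ^ (⌊x * (J : ℝ)⌋₊ + ⌊(V - W - 8 * s) * (J : ℝ)⌋₊) := by
      rw [pow_add]
      field_simp
    rw [e1]
    have e2 : (1 : ℝ) / 2 ^ (⌊(U₂ - W + s) * (J : ℝ)⌋₊ + 1) +
        1 / 2 ^ (⌊(U₂ - W + s) * (J : ℝ)⌋₊ + 1) = 1 / 2 ^ ⌊(U₂ - W + s) * (J : ℝ)⌋₊ := by
      rw [pow_succ]
      field_simp
      norm_num
    rw [← e2]
    exact add_le_add (inv_mono n2) (inv_mono n1)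
  obtain ⟨B₃, hB₃⟩ : ∃ B₃ : F.Ω → Prop, B₃ = fun ω => B₂ ω ∧ ¬ (B₂ ω ∧
    |gb (slam F ⌊W * (J : ℝ)⌋₊ ω)| < 1 / 2 ^ ⌊x * (J : ℝ)⌋₊) := ⟨_, rfl⟩
  have hB₃2 : Sub B₃ B₂ := fun ω hω => by
    rw [hB₃] at hω
    exact hω.1
  refine ⟨B₃, fun ω hω => hB₂A ω (hB₃2 ω hω), by rw [hB₃]; linarith, V', zp, zs, icf cf,
    AfC.swap (a3.sub fun ω hω => c1 ω (hB₃2 ω hω)) (fun ω hω => ?_) n3 n4⟩
  have h1 : ¬ (B₂ ω ∧ |gb (slam F ⌊W * (J : ℝ)⌋₊ ω)| < 1 / 2 ^ ⌊x * (J : ℝ)⌋₊) := by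
    rw [hB₃] at hω
    exact hω.2
  by_contra hcon
  rw [not_le] at hcon
  have h2 := hgb ω
  refine h1 ⟨hB₃2 ω hω, ?_⟩
  rw [← h2]
  exact hcon

end Pool.MIC6
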