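import Pool.Agent.H6.OWN.TieD

/-!
# Labels over several coordinates along one direction: the relation of the slopes

`tie_box`: `tie_fam` with the input from bounds for the partial derivatives on boxes around the
lines, and the relation of the slopes.
-/

set_option autoImplicit false

namespace Pool.MIC6

open Finset MvPolynomial
open Pool.Agent.H49.Ent Pool.Agent.H32.Dense Pool.STK Pool.KA Pool.KSAT Pool.K2S Pool.PB Pool.GEN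
open Pool.FLF (Fam.sub)
open Pool.GRD (LbP)

variable {n J : ℕ}

/-- The point of the line of the sample at the relative time `σ` of the window. -/
noncomputable def wpt (F : Fam n J) (w : ℕ) (ω : F.Ω) (σ : ℝ) : Option (Fin n) → ℝ
  | none => wt F w ω σ
  | some j => wp F w ω σ j

theorem mvp_zero (F : Fam n J) (w : ℕ) (ω : F.Ω) (σ : ℝ) (sl : Fin n → ℝ) :
    mvp (F.u ω) (F.d ω) sl (wt F w ω σ) 0 = wpt F w ω σ := by
  funext o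
  cases o with
  | none => rfl
  | some j =>
    show F.u ω j + F.d ω j * wt F w ω σ + sl j * 0 = _
    rw [mul_zero, add_zero]
    rfl

/-- **Labels along one direction**, with the relation of the slopes. -/
theorem tie_box (n K : ℕ) : ∃ C : ℝ, 1 ≤ C ∧ ∀ {J : ℕ} (F : Fam n J) (A : F.Ω → Prop)
    (hA : 0 < Pe F.p A) {I : Finset (Fin n)} {κ k : Fin n} {r w P : ℕ} {V : Type}
    {z : PtT F → V} {z' : LnT F → V} {G : V → MvPolynomial (Option (Fin n)) ℝ} {U : Type}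
    {Φ : F.Ω → U} {a : F.Ω → ℝ} {sl : F.Ω → Fin n → ℝ} {H β μ : Fin n → ℝ}
    {α ρ s₀ err θ : ℝ},
    LbP F I k K r w P A z z' G → w ≤ J → 0 ≤ θ →
    (Fam.sub F A hA).Tm θ → C * (θ + 1) ≤ ((J : ℝ) - w) * Real.log 2 → 0 < ρ → ρ ≤ 1 →
    s₀ ≤ ρ * (1 / 2 ^ w) / 16 → (∀ ω, A ω → sl ω κ = 1) → (∀ j, 0 ≤ β j) → (∀ j, 0 ≤ μ j) →
    (∀ ω, A ω → ∀ j ∈ I, |sl ω j| * (2 / 2 ^ w + s₀) + 2 * μ j ≤ H j) →
    (∀ ω, A ω → ∀ σ ∈ Set.Icc (0 : ℝ) 1, ∀ b : Option (Fin n) → ℝ,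
      b none = wt F w ω σ → (∀ j ∈ I, |b (some j) - wp F w ω σ j| ≤ H j) →
      ∀ j ∈ I, j ≠ κ → |eval b (pderiv (some j) (G (z' (slam F w ω))))| ≤ β j) →
    (∀ ω ω', A ω → A ω' → Φ ω = Φ ω' → ptr F r ω = ptr F r ω' ∧ |F.x ω' κ - F.x ω κ| ≤ s₀ ∧
      |F.x ω' k - F.x ω k| ≤ s₀ ∧ |F.d ω' k - F.d ω k - a ω * (F.d ω' κ - F.d ω κ)| ≤ err ∧
      ∀ j ∈ I, j ≠ κ → |F.x ω' j - F.x ω j - sl ω j * (F.x ω' κ - F.x ω κ)| ≤ μ j ∧
        |F.d ω' j - F.d ω j - sl ω j * (F.d ω' κ - F.d ω κ)| ≤ 2 ^ w * μ j) →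
    (∀ ω, A ω → |a ω| ≤ α) →
    (∀ B : F.Ω → Prop, Sub B A → Pe F.p A / 2 ≤ Pe F.p B → ∃ B' : F.Ω → Prop, Sub B' B ∧
      Pe F.p B / 2 ≤ Pe F.p B' ∧ ∀ ω, B' ω → ∃ ν : Fin (K + 2) → F.Ω,
        (∀ i, B (ν i) ∧ Φ (ν i) = Φ ω) ∧ ∀ i j, i ≠ j → ρ ≤ |F.d (ν i) κ - F.d (ν j) κ|) →
    ∃ B : F.Ω → Prop, Sub B A ∧ Pe F.p A / 4 ≤ Pe F.p B ∧ ∀ ω, B ω →
      ∀ σ ∈ Set.Icc (0 : ℝ) 1, (∀ η : ℝ, |η| ≤ 1 →
      |eval (mvp (F.u ω) (F.d ω) (sl ω) (wt F w ω σ) (1 / 2 ^ w * η)) (G (z' (slam F w ω))) -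
        (wp F w ω σ k + a ω * (1 / 2 ^ w * η))| ≤ C * (1 / ρ) ^ (K + 1) *
        (Real.exp (C * (θ + 1)) / 2 ^ P + ∑ j ∈ I.erase κ, β j * (2 * μ j) + (1 + α) * s₀ +
          1 / 2 ^ w * err)) ∧
      |∑ j ∈ I, sl ω j * eval (wpt F w ω σ) (pderiv (some j) (G (z' (slam F w ω)))) - a ω| ≤
        2 ^ w * (C * (1 / ρ) ^ (K + 1) *
        (Real.exp (C * (θ + 1)) / 2 ^ P + ∑ j ∈ I.erase κ, β j * (2 * μ j) + (1 + α) * s₀ +
          1 / 2 ^ w * err)) := by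
  classical
  obtain ⟨C₁, hC₁, hfam⟩ := tie_fam n K
  obtain ⟨C₂, hC₂, hder⟩ := tie_der n K
  refine ⟨C₁ * C₂, one_le_mul_of_one_le_of_one_le hC₁ hC₂, ?_⟩
  intro J F A hA I κ k r w P V z z' G U Φ a sl H β μ α ρ s₀ err θ hL hw hθ hTm hJ hρ hρ1 hs hκ hβ
    hμ hH hgr hfib ha hnod
  have hCC : C₁ ≤ C₁ * C₂ := le_mul_of_one_le_right (by linarith) hC₂
  obtain ⟨M, hM⟩ : ∃ M, M = ∑ j ∈ I.erase κ, β j * (2 * μ j) := ⟨_, rfl⟩
  have hM0 : 0 ≤ M := by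
    rw [hM]
    exact Finset.sum_nonneg fun j _ => mul_nonneg (hβ j) (by linarith [hμ j])
  obtain ⟨B, hBA, hPB, hB⟩ := hfam F A hA (a := a) (sl := sl) (α := α) (ρ := ρ) (s₀ := s₀)
    (err := err) (M₂ := M) (θ := θ) (Φ := Φ) hL hw hθ hTm (by
      refine le_trans ?_ hJ
      exact mul_le_mul_of_nonneg_right hCC (by linarith)) hρ hρ1 hs hM0
    (fun ω ω' hω hω' h => by
      obtain ⟨a1, a2, a3, a4, -⟩ := hfib ω ω' hω hω' h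
      exact ⟨a1, a2, a3, a4⟩)
    (fun ω ω' hω hω' h σ hσ b hbn hb => by
      obtain ⟨a1, a2, a3, a4, a5⟩ := hfib ω ω' hω hω' h
      rw [hM]
      exact mv_box hL hw hκ hβ hμ hH hgr hω a1 a2 (fun j hj hjκ => (a5 j hj hjκ).1)
        (fun j hj hjκ => (a5 j hj hjκ).2) hσ b hbn hb) ha hnod
  refine ⟨B, hBA, hPB, fun ω hω σ hσ => ?_⟩
  have h1 := hB ω hω σ hσ
  rw [← hM]
  obtain ⟨N, hN⟩ : ∃ N, N = Real.exp (C₁ * (θ + 1)) / 2 ^ P + M + (1 + α) * s₀ +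
      1 / 2 ^ w * err := ⟨_, rfl⟩
  obtain ⟨N', hN'⟩ : ∃ N', N' = Real.exp (C₁ * C₂ * (θ + 1)) / 2 ^ P + M + (1 + α) * s₀ +
      1 / 2 ^ w * err := ⟨_, rfl⟩
  rw [← hN] at h1
  rw [← hN']
  have hN0 : 0 ≤ N := by
    by_contra hcon
    have h2 := (abs_nonneg _).trans (h1 0 (by rw [abs_zero]; exact zero_le_one))
    have h3 : C₁ * (1 / ρ) ^ (K + 1) * N < 0 :=
      mul_neg_of_pos_of_neg (by positivity) (not_le.1 hcon)
    linarith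
  have hNN : N ≤ N' := by
    rw [hN, hN']
    have h2 : Real.exp (C₁ * (θ + 1)) ≤ Real.exp (C₁ * C₂ * (θ + 1)) :=
      Real.exp_le_exp.2 (mul_le_mul_of_nonneg_right hCC (by linarith))
    have h3 : Real.exp (C₁ * (θ + 1)) / 2 ^ P ≤ Real.exp (C₁ * C₂ * (θ + 1)) / 2 ^ P :=
      div_le_div_of_nonneg_right h2 (by positivity)
    linarith
  have hle : C₁ * (1 / ρ) ^ (K + 1) * N ≤ C₁ * C₂ * (1 / ρ) ^ (K + 1) * N' := by
    refine mul_le_mul ?_ hNN hN0 (by positivity)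
    exact mul_le_mul_of_nonneg_right hCC (by positivity)
  refine ⟨fun η hη => (h1 η hη).trans hle, ?_⟩
  have h2 := hder (I := I) (G := G (z' (slam F w ω))) (F.u ω) (F.d ω) (sl ω) (t := wt F w ω σ)
    (v := wp F w ω σ k) (a := a ω) (h := 1 / 2 ^ w) (S := C₁ * (1 / ρ) ^ (K + 1) * N) (hL.deg _)
    (hL.dep _) (by positivity) h1
  rw [mvp_zero] at h2
  refine h2.trans ?_
  have e1 : C₂ * (C₁ * (1 / ρ) ^ (K + 1) * N) / (1 / 2 ^ w) =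
      2 ^ w * (C₁ * C₂ * (1 / ρ) ^ (K + 1) * N) := by
    field_simp
  rw [e1]
  refine mul_le_mul_of_nonneg_left ?_ (by positivity)
  exact mul_le_mul_of_nonneg_left hNN (by positivity)

end Pool.MIC6
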