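import Pool.Agent.H6.OWN.Tie
import Pool.Agent.H40.BFL.MKO

/-!
# The relation of the slopes of a label over several coordinates

`mva`: the mean value inequality with a bound for every partial derivative. `mv_box`: the input of
`tie_fam` from bounds for the partial derivatives on a box. `tie_der`: the slopes of the label
satisfy `∑ sl j * ∂_j G = a`.
-/

set_option autoImplicit false

namespace Pool.MIC6

open Finset MvPolynomial
open Pool.Agent.H49.Ent Pool.Agent.H32.Dense Pool.STK Pool.KA Pool.KSAT Pool.K2S Pool.PB Pool.GEN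
open Pool.GRD (LbP)

variable {n J : ℕ}

/-- **The mean value inequality**, with a bound for every partial derivative. -/
theorem mva {σ : Type} [Fintype σ] (P : MvPolynomial σ ℝ) (a b : σ → ℝ) (M : σ → ℝ)
    (hM : ∀ y : σ → ℝ, (∀ j, |y j - a j| ≤ |b j - a j|) → ∀ i, b i ≠ a i →
      |eval y (pderiv i P)| ≤ M i) :
    |eval b P - eval a P| ≤ ∑ i, M i * |b i - a i| := by
  classical
  obtain ⟨g, hg⟩ : ∃ g : σ → Polynomial ℝ, g = fun j =>
      Polynomial.C (a j) + Polynomial.C (b j - a j) * Polynomial.X := ⟨_, rfl⟩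
  have hge : ∀ (Q : MvPolynomial σ ℝ) (t : ℝ), (MvPolynomial.aeval g Q).eval t =
      MvPolynomial.eval (fun j => a j + (b j - a j) * t) Q := by
    intro Q t
    rw [Pool.KBX.eval_aeval_poly]
    congr 1
    congr 1
    funext j
    rw [hg]
    simp
  have hd : ∀ t, (Polynomial.derivative (MvPolynomial.aeval g P)).eval t =
      ∑ i, eval (fun j => a j + (b j - a j) * t) (pderiv i P) * (b i - a i) := by
    intro t
    rw [der_aevalσ, Polynomial.eval_finsetSum]
    refine Finset.sum_congr rfl fun i _ => ?_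
    rw [Polynomial.eval_mul, hge]
    congr 1
    rw [hg]
    simp
  obtain ⟨c, hc, hcd⟩ := exists_deriv_eq_slope (fun t => (MvPolynomial.aeval g P).eval t)
    (zero_lt_one' ℝ) (Polynomial.continuous _).continuousOn
    (Polynomial.differentiable _).differentiableOn
  rw [Polynomial.deriv, hd, sub_zero, div_one, hge, hge] at hcd
  have e1 : (fun j => a j + (b j - a j) * 1) = b := by
    funext j
    ring
  have e2 : (fun j => a j + (b j - a j) * 0) = a := by
    funext j
    ring
  rw [e1, e2] at hcd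
  rw [← hcd]
  refine (Finset.abs_sum_le_sum_abs _ _).trans (Finset.sum_le_sum fun i _ => ?_)
  rw [abs_mul]
  by_cases hi : b i = a i
  · rw [hi, sub_self, abs_zero, mul_zero, mul_zero]
  · refine mul_le_mul_of_nonneg_right (hM _ (fun j => ?_) i hi) (abs_nonneg _)
    have e3 : a j + (b j - a j) * c - a j = (b j - a j) * c := by ring
    rw [e3, abs_mul, abs_of_pos hc.1]
    exact mul_le_of_le_one_right (abs_nonneg _) hc.2.le

/-- The point `b` on the coordinates `I`, and the point `a` on the other coordinates. -/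
def mix (I : Finset (Fin n)) (a b : Option (Fin n) → ℝ) : Option (Fin n) → ℝ
  | none => b none
  | some j => if j ∈ I then b (some j) else a (some j)

/-- **The mean value inequality for a label** over the coordinates `I`. -/
theorem mv_lab {I : Finset (Fin n)} {G : MvPolynomial (Option (Fin n)) ℝ}
    (hdep : ∀ b b' : Option (Fin n) → ℝ, b none = b' none →
      (∀ i ∈ I, b (some i) = b' (some i)) → eval b G = eval b' G)
    (a b : Option (Fin n) → ℝ) (hn : b none = a none) (M : Fin n → ℝ)
    (hM : ∀ y : Option (Fin n) → ℝ, y none = a none →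
      (∀ j ∈ I, |y (some j) - a (some j)| ≤ |b (some j) - a (some j)|) →
      ∀ i ∈ I, b (some i) ≠ a (some i) → |eval y (pderiv (some i) G)| ≤ M i) :
    |eval b G - eval a G| ≤ ∑ i ∈ I, M i * |b (some i) - a (some i)| := by
  classical
  have h1 : eval b G = eval (mix I a b) G := hdep _ _ rfl fun i hi => (if_pos hi).symm
  rw [h1]
  have h2 := mva G a (mix I a b) (fun o => o.elim 0 M) (by
    intro y hy o ho
    cases o with
    | none => exact absurd hn ho
    | some i =>
      by_cases hi : i ∈ I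
      · have e1 : mix I a b (some i) = b (some i) := if_pos hi
        rw [e1] at ho
        refine hM y ?_ (fun j hj => ?_) i hi ho
        · have h3 := hy none
          have e2 : mix I a b none = a none := hn
          rw [e2, sub_self, abs_zero] at h3
          have h4 := abs_nonneg (y none - a none)
          have h5 : |y none - a none| = 0 := le_antisymm h3 h4
          exact sub_eq_zero.1 (abs_eq_zero.1 h5)
        · have h3 := hy (some j)
          have e2 : mix I a b (some j) = b (some j) := if_pos hj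
          rwa [e2] at h3
      · exact absurd (if_neg hi) ho)
  refine h2.trans (le_of_eq ?_)
  rw [Fintype.sum_option]
  have e3 : mix I a b none - a none = 0 := sub_eq_zero.2 hn
  rw [e3, abs_zero, mul_zero, zero_add, ← Finset.sum_subset (Finset.subset_univ I)]
  · refine Finset.sum_congr rfl fun i hi => ?_
    have e1 : mix I a b (some i) = b (some i) := if_pos hi
    rw [e1]
    rfl
  · intro i _ hi
    have e1 : mix I a b (some i) = a (some i) := if_neg hi
    rw [e1, sub_self, abs_zero, mul_zero]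

/-- A label over `I` has no derivative in the other coordinates. -/
theorem pd_out {I : Finset (Fin n)} {G : MvPolynomial (Option (Fin n)) ℝ}
    (hdep : ∀ b b' : Option (Fin n) → ℝ, b none = b' none →
      (∀ i ∈ I, b (some i) = b' (some i)) → eval b G = eval b' G)
    {i : Fin n} (hi : i ∉ I) (b : Option (Fin n) → ℝ) : eval b (pderiv (some i) G) = 0 :=
  pderiv_dep G (some i) (fun b b' hb => hdep b b' (hb none (by simp)) fun i' hi' =>
    hb _ fun hh => hi (by rw [← Option.some_injective _ hh]; exact hi')) b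

/-- **The relation of the slopes.** -/
theorem tie_der (n K : ℕ) : ∃ C : ℝ, 1 ≤ C ∧ ∀ {I : Finset (Fin n)}
    {G : MvPolynomial (Option (Fin n)) ℝ} (u d sl : Fin n → ℝ) {t v a h S : ℝ},
    G.totalDegree ≤ K → (∀ b b' : Option (Fin n) → ℝ, b none = b' none →
      (∀ i ∈ I, b (some i) = b' (some i)) → eval b G = eval b' G) → 0 < h →
    (∀ η : ℝ, |η| ≤ 1 → |eval (mvp u d sl t (h * η)) G - (v + a * (h * η))| ≤ S) →
    |∑ j ∈ I, sl j * eval (mvp u d sl t 0) (pderiv (some j) G) - a| ≤ C * S / h := by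
  classical
  obtain ⟨C, hC, hmk⟩ := Pool.Agent.H40.BFL.unit_markov (K + 1)
  refine ⟨C, hC, ?_⟩
  intro I G u d sl t v a h S hG hdep hh hS
  obtain ⟨g, hg⟩ : ∃ g : Option (Fin n) → Polynomial ℝ, g = fun o =>
      o.elim (Polynomial.C t) fun j => Polynomial.C (u j + d j * t) +
        Polynomial.C (sl j * h) * Polynomial.X := ⟨_, rfl⟩
  have hgn : g none = Polynomial.C t := by rw [hg]; rfl
  have hgs : ∀ j, g (some j) = Polynomial.C (u j + d j * t) +
      Polynomial.C (sl j * h) * Polynomial.X := fun j => by rw [hg]; rfl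
  have hge : ∀ (Q : MvPolynomial (Option (Fin n)) ℝ) (x : ℝ),
      (MvPolynomial.aeval g Q).eval x = eval (mvp u d sl t (h * x)) Q := by
    intro Q x
    rw [Pool.KBX.eval_aeval_poly]
    congr 1
    congr 1
    funext o
    cases o with
    | none =>
      rw [hgn, Polynomial.eval_C]
      rfl
    | some j =>
      rw [hgs]
      simp only [Polynomial.eval_add, Polynomial.eval_mul, Polynomial.eval_C, Polynomial.eval_X]
      show _ = u j + d j * t + sl j * (h * x)
      ring
  have hgd : ∀ o, (g o).natDegree ≤ 1 := by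
    intro o
    cases o with
    | none =>
      rw [hgn, Polynomial.natDegree_C]
      exact Nat.zero_le _
    | some j =>
      rw [hgs]
      refine (Polynomial.natDegree_add_le _ _).trans (max_le ?_ ?_)
      · rw [Polynomial.natDegree_C]
        exact Nat.zero_le _
      · exact (Polynomial.natDegree_C_mul_le _ _).trans Polynomial.natDegree_X_le
  obtain ⟨f, hf⟩ : ∃ f : Polynomial ℝ, f = MvPolynomial.aeval g G - aff v (a * h) := ⟨_, rfl⟩
  have hfd : f.natDegree ≤ K + 1 := by
    rw [hf]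
    refine (Polynomial.natDegree_sub_le _ _).trans (max_le ?_ ((natDegree_aff _ _).trans
      (by omega)))
    exact (Pool.KBX.natDegree_aeval_le _ _ hgd hG).trans (by omega)
  have hfe : ∀ x, f.eval x = eval (mvp u d sl t (h * x)) G - (v + a * (h * x)) := by
    intro x
    rw [hf, Polynomial.eval_sub, hge, eval_aff]
    ring
  have h1 := hmk f S hfd (fun x hx => by
    rw [hfe]
    refine hS x ?_
    rw [abs_of_nonneg hx.1]
    exact hx.2) 0 ⟨le_rfl, zero_le_one⟩
  have h2 : f.derivative.eval 0 =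
      h * (∑ j ∈ I, sl j * eval (mvp u d sl t 0) (pderiv (some j) G) - a) := by
    rw [hf]
    unfold aff
    simp only [Polynomial.derivative_sub, Polynomial.derivative_add, Polynomial.derivative_C,
      Polynomial.derivative_mul, Polynomial.derivative_X, zero_mul, zero_add, mul_one,
      Polynomial.eval_sub, Polynomial.eval_C]
    rw [der_aevalσ, Polynomial.eval_finsetSum, Fintype.sum_option, hgn, Polynomial.derivative_C,
      mul_zero, Polynomial.eval_zero, zero_add, mul_sub, Finset.mul_sum,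
      ← Finset.sum_subset (Finset.subset_univ I)]
    · rw [mul_comm a h]
      congr 1
      refine Finset.sum_congr rfl fun j _ => ?_
      rw [Polynomial.eval_mul, hge, hgs, mul_zero]
      simp only [Polynomial.derivative_add, Polynomial.derivative_C,
        Polynomial.derivative_mul, Polynomial.derivative_X, zero_mul, zero_add, mul_one,
        Polynomial.eval_C]
      ring
    · intro i _ hi
      rw [Polynomial.eval_mul, hge, pd_out hdep hi, zero_mul]
  rw [h2, abs_mul, abs_of_pos hh] at h1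
  rw [le_div_iff₀ hh, mul_comm]
  exact h1

/-- **The input of `tie_fam`** from bounds for the partial derivatives on boxes. -/
theorem mv_box {K r w P : ℕ} {F : Fam n J} {A : F.Ω → Prop} {I : Finset (Fin n)} {κ k : Fin n}
    {V : Type} {z : PtT F → V} {z' : LnT F → V} {G : V → MvPolynomial (Option (Fin n)) ℝ}
    (hL : LbP F I k K r w P A z z' G) (hw : w ≤ J) {sl : F.Ω → Fin n → ℝ} {H β μ : Fin n → ℝ}
    {s₀ : ℝ} (hκ : ∀ ω, A ω → sl ω κ = 1) (hβ : ∀ j, 0 ≤ β j)
    (hμ : ∀ j, 0 ≤ μ j)
    (hH : ∀ ω, A ω → ∀ j ∈ I, |sl ω j| * (2 / 2 ^ w + s₀) + 2 * μ j ≤ H j)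
    (hgr : ∀ ω, A ω → ∀ σ ∈ Set.Icc (0 : ℝ) 1, ∀ b : Option (Fin n) → ℝ,
      b none = wt F w ω σ → (∀ j ∈ I, |b (some j) - wp F w ω σ j| ≤ H j) →
      ∀ j ∈ I, j ≠ κ → |eval b (pderiv (some j) (G (z' (slam F w ω))))| ≤ β j)
    {ω ω' : F.Ω} (hω : A ω) (hp : ptr F r ω = ptr F r ω') (hs₀ : |F.x ω' κ - F.x ω κ| ≤ s₀)
    (hx : ∀ j ∈ I, j ≠ κ → |F.x ω' j - F.x ω j - sl ω j * (F.x ω' κ - F.x ω κ)| ≤ μ j)
    (hd : ∀ j ∈ I, j ≠ κ →
      |F.d ω' j - F.d ω j - sl ω j * (F.d ω' κ - F.d ω κ)| ≤ 2 ^ w * μ j)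
    {σ : ℝ} (hσ : σ ∈ Set.Icc (0 : ℝ) 1) (b : Option (Fin n) → ℝ)
    (hbn : b none = wt F w ω σ) (hb : ∀ j ∈ I, b (some j) = wp F w ω' σ j) :
    |eval b (G (z' (slam F w ω))) - eval (mvp (F.u ω) (F.d ω) (sl ω) (wt F w ω σ)
      (wp F w ω' σ κ - wp F w ω σ κ)) (G (z' (slam F w ω)))| ≤
      ∑ j ∈ I.erase κ, β j * (2 * μ j) := by
  classical
  have pw : (0 : ℝ) < 2 ^ w := by positivity
  have hT : F.T ω' = F.T ω := (congrArg (fun p : PtT F => p.2.1) hp).symm
  have hrt : Pool.PB.Trl.rt F w ω' = Pool.PB.Trl.rt F w ω := by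
    unfold Pool.PB.Trl.rt
    rw [hT]
  have hτ : |1 / 2 ^ w * (σ - Pool.PB.Trl.rt F w ω)| ≤ 1 / 2 ^ w := by
    rw [abs_mul, abs_of_pos (by positivity : (0 : ℝ) < 1 / 2 ^ w)]
    refine mul_le_of_le_one_right (by positivity) ?_
    have h1 := Pool.PB.Trl.rt_mem F w ω
    rw [abs_le]
    constructor <;> linarith [h1.1, h1.2, hσ.1, hσ.2]
  obtain ⟨x, hxx⟩ : ∃ x, x = 1 / 2 ^ w * (σ - Pool.PB.Trl.rt F w ω) := ⟨_, rfl⟩
  rw [← hxx] at hτ
  have hwp : ∀ j, wp F w ω σ j = F.x ω j + x * F.d ω j := fun j => by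
    rw [wp_eq F hw, hxx]
  have hwp' : ∀ j, wp F w ω' σ j = F.x ω' j + x * F.d ω' j := fun j => by
    rw [wp_eq F hw, hrt, hxx]
  have hyd : |wp F w ω' σ κ - wp F w ω σ κ| ≤ 2 / 2 ^ w + s₀ := by
    rw [hwp, hwp']
    have e1 : F.x ω' κ + x * F.d ω' κ - (F.x ω κ + x * F.d ω κ) =
        x * (F.d ω' κ - F.d ω κ) + (F.x ω' κ - F.x ω κ) := by ring
    rw [e1]
    refine (abs_add_le _ _).trans (add_le_add ?_ hs₀)
    rw [abs_mul]
    have h2 : |F.d ω' κ - F.d ω κ| ≤ 2 := (abs_sub _ _).trans (by
      linarith [F.dir ω' κ, F.dir ω κ])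
    calc |x| * |F.d ω' κ - F.d ω κ| ≤ 1 / 2 ^ w * 2 :=
          mul_le_mul hτ h2 (abs_nonneg _) (by positivity)
      _ = 2 / 2 ^ w := by ring
  have hdif : ∀ j ∈ I, |b (some j) - (wp F w ω σ j + sl ω j * (wp F w ω' σ κ - wp F w ω σ κ))| ≤
      if j = κ then 0 else 2 * μ j := by
    intro j hj
    rw [hb j hj]
    split_ifs with h
    · subst h
      rw [hκ ω hω, one_mul]
      have e1 : wp F w ω' σ j - (wp F w ω σ j + (wp F w ω' σ j - wp F w ω σ j)) = 0 := by ring
      rw [e1, abs_zero]
    · rw [hwp, hwp', hwp, hwp']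
      have e1 : F.x ω' j + x * F.d ω' j - (F.x ω j + x * F.d ω j +
          sl ω j * (F.x ω' κ + x * F.d ω' κ - (F.x ω κ + x * F.d ω κ))) =
          (F.x ω' j - F.x ω j - sl ω j * (F.x ω' κ - F.x ω κ)) +
          x * (F.d ω' j - F.d ω j - sl ω j * (F.d ω' κ - F.d ω κ)) := by ring
      rw [e1]
      refine (abs_add_le _ _).trans ?_
      have h2 : |x * (F.d ω' j - F.d ω j - sl ω j * (F.d ω' κ - F.d ω κ))| ≤ μ j := by
        rw [abs_mul]
        calc |x| * |F.d ω' j - F.d ω j - sl ω j * (F.d ω' κ - F.d ω κ)| ≤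
              1 / 2 ^ w * (2 ^ w * μ j) := mul_le_mul hτ (hd j hj h) (abs_nonneg _)
                (by positivity)
          _ = μ j := by field_simp
      linarith [hx j hj h]
  have key := mv_lab (G := G (z' (slam F w ω))) (hL.dep _)
    (mvp (F.u ω) (F.d ω) (sl ω) (wt F w ω σ) (wp F w ω' σ κ - wp F w ω σ κ)) b hbn
    (fun j => if j = κ then 0 else β j) (by
      intro y hyn hy i hi hne
      have hiκ : i ≠ κ := by
        intro h
        have h1 := hdif i hi
        rw [if_pos h] at h1
        have h2 : b (some i) - (wp F w ω σ i + sl ω i * (wp F w ω' σ κ - wp F w ω σ κ)) = 0 :=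
          abs_eq_zero.1 (le_antisymm h1 (abs_nonneg _))
        exact hne (sub_eq_zero.1 h2)
      rw [if_neg hiκ]
      refine hgr ω hω σ hσ y hyn (fun j hj => ?_) i hi hiκ
      have h1 := hy j hj
      have h2 := hdif j hj
      have e0 : mvp (F.u ω) (F.d ω) (sl ω) (wt F w ω σ) (wp F w ω' σ κ - wp F w ω σ κ) (some j) =
        wp F w ω σ j + sl ω j * (wp F w ω' σ κ - wp F w ω σ κ) := rfl
      rw [e0] at h1
      have h3 : |sl ω j * (wp F w ω' σ κ - wp F w ω σ κ)| ≤ |sl ω j| * (2 / 2 ^ w + s₀) := by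
        rw [abs_mul]
        exact mul_le_mul_of_nonneg_left hyd (abs_nonneg _)
      have h4 := hH ω hω j hj
      have h5 : (if j = κ then (0 : ℝ) else 2 * μ j) ≤ H j - |sl ω j| * (2 / 2 ^ w + s₀) := by
        split_ifs with h
        · linarith [hμ j]
        · linarith
      have e1 : y (some j) - wp F w ω σ j = (y (some j) -
        (wp F w ω σ j + sl ω j * (wp F w ω' σ κ - wp F w ω σ κ))) +
        sl ω j * (wp F w ω' σ κ - wp F w ω σ κ) := by ring
      rw [e1]
      refine (abs_add_le _ _).trans ?_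
      linarith)
  refine key.trans ?_
  by_cases hκI : κ ∈ I
  · rw [← Finset.add_sum_erase I _ hκI, if_pos rfl, zero_mul, zero_add]
    refine Finset.sum_le_sum fun j hj => ?_
    have h1 := hdif j (Finset.mem_of_mem_erase hj)
    rw [if_neg (Finset.ne_of_mem_erase hj)] at h1
    rw [if_neg (Finset.ne_of_mem_erase hj)]
    exact mul_le_mul_of_nonneg_left h1 (hβ j)
  · rw [Finset.erase_eq_of_notMem hκI]
    refine Finset.sum_le_sum fun j hj => ?_
    have hjκ : j ≠ κ := fun h => hκI (h ▸ hj)
    have h1 := hdif j hj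
    rw [if_neg hjκ] at h1
    rw [if_neg hjκ]
    exact mul_le_mul_of_nonneg_left h1 (hβ j)

end Pool.MIC6
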