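import Pool.Agent.H6.OWN.Psi

/-!
# Labels along one direction, with a linear part

`tie_th`: `tie_fam` with a number `th` for every sample: the bounds are those of the label minus
`th` times the coordinate `ι`.
-/

set_option autoImplicit false

namespace Pool.MIC6

open Finset MvPolynomial
open Pool.Agent.H49.Ent Pool.Agent.H32.Dense Pool.STK Pool.KA Pool.KSAT Pool.K2S Pool.PB Pool.GEN
open Pool.FLF (Fam.sub)
open Pool.GRD (LbP)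
open Pool.PB.Trl (rt rt_mem t_rt)

variable {n J : ℕ}

/-- **Labels along one direction, with a linear part.** -/
theorem tie_th (n K : ℕ) (hK : 1 ≤ K) : ∃ C : ℝ, 1 ≤ C ∧ ∀ {J : ℕ} (F : Fam n J)
    (A : F.Ω → Prop) (hA : 0 < Pe F.p A) {I : Finset (Fin n)} {κ ι k : Fin n} {r w P : ℕ}
    {V : Type} {z : PtT F → V} {z' : LnT F → V} {G : V → MvPolynomial (Option (Fin n)) ℝ}
    {U : Type} {Φ : F.Ω → U} {a th M₂ err : F.Ω → ℝ} {sl : F.Ω → Fin n → ℝ}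
    {α ρ s₀ b₀ θ : ℝ}, ι ∈ I →
    LbP F I k K r w P A z z' G → w ≤ J → 0 ≤ θ →
    (Fam.sub F A hA).Tm θ → C * (θ + 1) ≤ ((J : ℝ) - w) * Real.log 2 → 0 < ρ → ρ ≤ 1 →
    0 ≤ s₀ → (1 + b₀) * s₀ ≤ ρ * (1 / 2 ^ w) / 16 → (∀ ω, A ω → |th ω| ≤ b₀) →
    (∀ ω, A ω → 0 ≤ M₂ ω) →
    (∀ ω ω', A ω → A ω' → Φ ω = Φ ω' → ptr F r ω = ptr F r ω' ∧ |F.x ω' κ - F.x ω κ| ≤ s₀ ∧
      |F.x ω' k - F.x ω k| ≤ s₀ ∧ |F.x ω' ι - F.x ω ι| ≤ s₀ ∧
      |(F.d ω' k - th ω * F.d ω' ι) - (F.d ω k - th ω * F.d ω ι) -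
        a ω * (F.d ω' κ - F.d ω κ)| ≤ err ω) →
    (∀ ω ω', A ω → A ω' → Φ ω = Φ ω' → ∀ σ ∈ Set.Icc (0 : ℝ) 1, ∀ b : Option (Fin n) → ℝ,
      b none = wt F w ω σ → (∀ j ∈ I, b (some j) = wp F w ω' σ j) →
      |(eval b (G (z' (slam F w ω))) - th ω * b (some ι)) -
        (eval (mvp (F.u ω) (F.d ω) (sl ω) (wt F w ω σ) (wp F w ω' σ κ - wp F w ω σ κ))
          (G (z' (slam F w ω))) - th ω * (wp F w ω σ ι +
            sl ω ι * (wp F w ω' σ κ - wp F w ω σ κ)))| ≤ M₂ ω) →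
    (∀ ω, A ω → |a ω| ≤ α) →
    (∀ B : F.Ω → Prop, Sub B A → Pe F.p A / 2 ≤ Pe F.p B → ∃ B' : F.Ω → Prop, Sub B' B ∧
      Pe F.p B / 2 ≤ Pe F.p B' ∧ ∀ ω, B' ω → ∃ ν : Fin (K + 2) → F.Ω,
        (∀ i, B (ν i) ∧ Φ (ν i) = Φ ω) ∧ ∀ i j, i ≠ j → ρ ≤ |F.d (ν i) κ - F.d (ν j) κ|) →
    ∃ B : F.Ω → Prop, Sub B A ∧ Pe F.p A / 4 ≤ Pe F.p B ∧ ∀ ω, B ω →
      ∀ σ ∈ Set.Icc (0 : ℝ) 1, ∀ η : ℝ, |η| ≤ 1 →
      |eval (mvp (F.u ω) (F.d ω) (sl ω) (wt F w ω σ) (1 / 2 ^ w * η)) (G (z' (slam F w ω))) -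
        (wp F w ω σ k + (a ω + th ω * sl ω ι) * (1 / 2 ^ w * η))| ≤ C * (1 / ρ) ^ (K + 1) *
        (Real.exp (C * (θ + 1)) / 2 ^ P + M₂ ω + (1 + α) * ((1 + b₀) * s₀) +
          1 / 2 ^ w * err ω) := by
  classical
  obtain ⟨C₁, hC₁, hrem⟩ := Pool.PZ.Zrt.rem_ev (m := n) (K + 1)
  obtain ⟨C₂, hC₂, hslp⟩ := slp_key K
  refine ⟨C₁ + C₂, by linarith, ?_⟩
  intro J F A hA I κ ι k r w P V z z' G U Φ a th M₂ err sl α ρ s₀ b₀ θ hιI hL hw hθ hTm hJ hρ hρ1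
    hs0 hs hth hM₂ hfib hmv ha hnod
  have hS₀ : (0 : ℝ) < 1 / 2 ^ P := by positivity
  obtain ⟨B, hBA, hPB, hB⟩ := hrem J F A hA w (fun s => dv w (fun s _ => G (z' s)) k s)
    (1 / 2 ^ P) θ hw (fun s => natDegree_dv w (fun s _ => hL.deg (z' s)) k s) hS₀ hθ hTm (by
      refine le_trans ?_ hJ
      refine mul_le_mul_of_nonneg_right ?_ (by linarith)
      linarith) (by
      intro ω hω
      show |(dv w (fun s _ => G (z' s)) k (slam F w ω)).eval (rt F w ω)| ≤ _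
      rw [eval_dv F hw (fun s _ => G (z' s)) ω k]
      exact hL.pos ω hω)
  obtain ⟨B', hB'B, hPB', hB'⟩ := hnod B hBA hPB
  refine ⟨B', fun ω hω => hBA ω (hB'B ω hω), by linarith, fun ω hω => ?_⟩
  have hωB := hB'B ω hω
  have hωA := hBA ω hωB
  obtain ⟨ν, hν, hsep⟩ := hB' ω hω
  have hνA : ∀ i, A (ν i) := fun i => hBA _ (hν i).1
  have hf := fun i => hfib ω (ν i) hωA (hνA i) (hν i).2.symm
  have hptr := fun i => (hf i).1
  have hT : ∀ i, F.T (ν i) = F.T ω := fun i =>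
    (congrArg (fun p : PtT F => p.2.1) (hptr i)).symm
  have hT1 : ∀ i, (slam F w (ν i)).2.2 = (slam F w ω).2.2 := by
    intro i
    show F.T (ν i) / 2 ^ (J - w) = F.T ω / 2 ^ (J - w)
    rw [hT i]
  have hrt : ∀ i, rt F w (ν i) = rt F w ω := by
    intro i
    unfold rt
    rw [hT i]
  have hz : ∀ i, z' (slam F w (ν i)) = z' (slam F w ω) := by
    intro i
    rw [← hL.cls _ (hνA i), ← hL.cls _ hωA, hptr i]
  obtain ⟨Gz, hGz⟩ : ∃ Gz, Gz = G (z' (slam F w ω)) := ⟨_, rfl⟩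
  have hG : Gz.totalDegree ≤ K := by rw [hGz]; exact hL.deg _
  obtain ⟨h₀, hh₀⟩ : ∃ h₀, h₀ = th ω := ⟨_, rfl⟩
  obtain ⟨Gs, hGs⟩ : ∃ Gs : MvPolynomial (Option (Fin n)) ℝ, Gs = Gz - C h₀ * X (some ι) :=
    ⟨_, rfl⟩
  have hGsd : Gs.totalDegree ≤ K := by
    rw [hGs]
    refine (totalDegree_sub _ _).trans (max_le hG ?_)
    refine (totalDegree_mul _ _).trans ?_
    rw [totalDegree_C, totalDegree_X]
    exact hK
  have hGse : ∀ b, eval b Gs = eval b Gz - h₀ * b (some ι) := fun b => by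
    rw [hGs]
    simp only [map_sub, map_mul, eval_C, eval_X]
  have hpath : ∀ (ω' : F.Ω) (τ : ℝ) (j : Fin n), rt F w ω' = rt F w ω →
      F.x ω' j + 1 / 2 ^ w * (τ - rt F w ω) * F.d ω' j = wp F w ω' τ j := by
    intro ω' τ j hr
    rw [wp_eq F hw, hr]
  have hb₀ : 0 ≤ b₀ := (abs_nonneg _).trans (hth ω hωA)
  have hs1 : s₀ ≤ (1 + b₀) * s₀ := le_mul_of_one_le_left hs0 (by linarith)
  have hmvι : ∀ (σ x : ℝ), mvp (F.u ω) (F.d ω) (sl ω) (wt F w ω σ) x (some ι) =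
      wp F w ω σ ι + sl ω ι * x := fun σ x => rfl
  have h1 := hslp (G := dlb κ (F.u ω) (F.d ω) (sl ω) Gs) κ
    (t₀ := ((slam F w ω).2.2 : ℝ) / 2 ^ w)
    (h := 1 / 2 ^ w) (τ₀ := rt F w ω) (ρ := ρ) (s₀ := (1 + b₀) * s₀) (err := err ω) (α := α)
    (M₁ := Real.exp (C₁ * (θ + 1)) * (1 / 2 ^ P) + M₂ ω) (a := a ω) (y := F.x ω κ)
    (v := F.x ω k - h₀ * F.x ω ι)
    (d := F.d ω κ) (D := F.d ω k - h₀ * F.d ω ι) (y' := fun i => F.x (ν i) κ)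
    (v' := fun i => F.x (ν i) k - h₀ * F.x (ν i) ι)
    (d' := fun i => F.d (ν i) κ) (D' := fun i => F.d (ν i) k - h₀ * F.d (ν i) ι)
    (deg_dlb κ _ _ _ hGsd)
    (by positivity) hρ hs hρ1
    (rt_mem F w ω) (F.dir ω κ) (fun i => F.dir _ κ) (fun i => (hf i).2.1.trans hs1)
    (fun i => by
      have e1 : F.x (ν i) k - h₀ * F.x (ν i) ι - (F.x ω k - h₀ * F.x ω ι) =
        (F.x (ν i) k - F.x ω k) - h₀ * (F.x (ν i) ι - F.x ω ι) := by ring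
      rw [e1]
      refine (abs_sub _ _).trans ?_
      rw [abs_mul]
      have h2 : |h₀| * |F.x (ν i) ι - F.x ω ι| ≤ b₀ * s₀ := by
        rw [hh₀]
        exact mul_le_mul (hth ω hωA) (hf i).2.2.2.1 (abs_nonneg _) hb₀
      linarith [(hf i).2.2.1])
    (fun i => by rw [hh₀]; exact (hf i).2.2.2.2) (ha ω hωA) hsep ?_
  · intro σ hσ η hη
    have h2 := h1 σ hσ η hη
    have e3 : F.x ω k - h₀ * F.x ω ι + 1 / 2 ^ w * (σ - rt F w ω) * (F.d ω k - h₀ * F.d ω ι) =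
        wp F w ω σ k - h₀ * wp F w ω σ ι := by
      rw [← hpath ω σ k rfl, ← hpath ω σ ι rfl]
      ring
    rw [hpath ω σ κ rfl, e3, eval_dlb] at h2
    have e1 : wp F w ω σ κ + 1 / 2 ^ w * η - (F.u ω κ + F.d ω κ *
        (((slam F w ω).2.2 : ℝ) / 2 ^ w + 1 / 2 ^ w * σ)) = 1 / 2 ^ w * η := by
      unfold wp wt
      ring
    rw [e1, hGse] at h2
    have e4 : mvp (F.u ω) (F.d ω) (sl ω) (((slam F w ω).2.2 : ℝ) / 2 ^ w + 1 / 2 ^ w * σ)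
        (1 / 2 ^ w * η) = mvp (F.u ω) (F.d ω) (sl ω) (wt F w ω σ) (1 / 2 ^ w * η) := rfl
    rw [e4, hmvι] at h2
    rw [← hGz, ← hh₀]
    have e5 : eval (mvp (F.u ω) (F.d ω) (sl ω) (wt F w ω σ) (1 / 2 ^ w * η)) Gz -
        (wp F w ω σ k + (a ω + h₀ * sl ω ι) * (1 / 2 ^ w * η)) =
        eval (mvp (F.u ω) (F.d ω) (sl ω) (wt F w ω σ) (1 / 2 ^ w * η)) Gz -
        h₀ * (wp F w ω σ ι + sl ω ι * (1 / 2 ^ w * η)) -
        (wp F w ω σ k - h₀ * wp F w ω σ ι + a ω * (1 / 2 ^ w * η)) := by ring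
    rw [e5]
    refine h2.trans ?_
    have he : 0 ≤ err ω := (abs_nonneg _).trans (hf 0).2.2.2.2
    have hα : 0 ≤ α := (abs_nonneg _).trans (ha ω hωA)
    have h3 : Real.exp (C₁ * (θ + 1)) ≤ Real.exp ((C₁ + C₂) * (θ + 1)) := by
      refine Real.exp_le_exp.2 (mul_le_mul_of_nonneg_right ?_ (by linarith))
      linarith
    have h4 : Real.exp (C₁ * (θ + 1)) * (1 / 2 ^ P) ≤
        Real.exp ((C₁ + C₂) * (θ + 1)) / 2 ^ P := by
      rw [mul_one_div]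
      exact div_le_div_of_nonneg_right h3 (by positivity)
    have h5 := hM₂ ω hωA
    refine mul_le_mul ?_ (by linarith) (by positivity) (by positivity)
    refine mul_le_mul_of_nonneg_right ?_ (by positivity)
    linarith
  · intro i τ hτ
    have h2 := hB (ν i) (hν i).1 τ hτ
    obtain ⟨b, hb⟩ : ∃ b : Option (Fin n) → ℝ, b = fun o => (lc w (slam F w (ν i)) o).eval τ :=
      ⟨_, rfl⟩
    have h3 : (dv w (fun s _ => G (z' s)) k (slam F w (ν i))).eval τ =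
        wp F w (ν i) τ k - eval b Gz := by
      unfold dv
      rw [Polynomial.eval_sub, Pool.KBX.eval_aeval_poly, lc_pos F hw, ← hb,
        ← hpath (ν i) τ k (hrt i), hrt i]
      show _ - eval _ (G (z' (slam F w (ν i)))) = _
      rw [hz i, ← hGz]
    have h4 : |(dv w (fun s _ => G (z' s)) k (slam F w (ν i))).eval τ| ≤
        Real.exp (C₁ * (θ + 1)) * (1 / 2 ^ P) := h2
    rw [h3] at h4
    have hbj : ∀ j, b (some j) = wp F w (ν i) τ j := by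
      intro j
      rw [hb]
      show (lc w (slam F w (ν i)) (some j)).eval τ = _
      rw [lc_pos F hw, ← hpath (ν i) τ j (hrt i), hrt i]
    have h5 := hmv ω (ν i) hωA (hνA i) (hν i).2.symm τ hτ b (by
      rw [hb]
      show (lc w (slam F w (ν i)) none).eval τ = _
      rw [lc_none, hT1 i]
      rfl) (fun j _ => hbj j)
    rw [← hGz, ← hh₀] at h5
    have e1 : F.x (ν i) κ + 1 / 2 ^ w * (τ - rt F w ω) * F.d (ν i) κ = wp F w (ν i) τ κ :=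
      hpath (ν i) τ κ (hrt i)
    have e2 : F.x (ν i) k - h₀ * F.x (ν i) ι + 1 / 2 ^ w * (τ - rt F w ω) *
        (F.d (ν i) k - h₀ * F.d (ν i) ι) = wp F w (ν i) τ k - h₀ * wp F w (ν i) τ ι := by
      rw [← hpath (ν i) τ k (hrt i), ← hpath (ν i) τ ι (hrt i)]
      ring
    show |F.x (ν i) k - h₀ * F.x (ν i) ι + 1 / 2 ^ w * (τ - rt F w ω) *
      (F.d (ν i) k - h₀ * F.d (ν i) ι) -
      eval (pnt κ (((slam F w ω).2.2 : ℝ) / 2 ^ w + 1 / 2 ^ w * τ)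
        (F.x (ν i) κ + 1 / 2 ^ w * (τ - rt F w ω) * F.d (ν i) κ))
        (dlb κ (F.u ω) (F.d ω) (sl ω) Gs)| ≤ _
    rw [e1, e2, eval_dlb]
    have e3 : wp F w (ν i) τ κ - (F.u ω κ + F.d ω κ *
        (((slam F w ω).2.2 : ℝ) / 2 ^ w + 1 / 2 ^ w * τ)) =
        wp F w (ν i) τ κ - wp F w ω τ κ := rfl
    have e4 : ((slam F w ω).2.2 : ℝ) / 2 ^ w + 1 / 2 ^ w * τ = wt F w ω τ := rfl
    rw [e3, e4, hGse, hmvι]
    rw [hbj ι] at h5
    obtain ⟨q, hq⟩ : ∃ q, q = eval (mvp (F.u ω) (F.d ω) (sl ω) (wt F w ω τ)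
      (wp F w (ν i) τ κ - wp F w ω τ κ)) Gz - h₀ * (wp F w ω τ ι + sl ω ι *
        (wp F w (ν i) τ κ - wp F w ω τ κ)) := ⟨_, rfl⟩
    rw [← hq] at h5 ⊢
    have e5 : wp F w (ν i) τ k - h₀ * wp F w (ν i) τ ι - q = (wp F w (ν i) τ k - eval b Gz) +
      (eval b Gz - h₀ * wp F w (ν i) τ ι - q) := by ring
    rw [e5]
    exact (abs_add_le _ _).trans (add_le_add h4 h5)

end Pool.MIC6
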