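import Pool.Agent.H6.OWN.Sep

/-!
# The coefficients of the line relation are separated at the same record

`trn_cls`: `ga + gb au = av` with functions `ga`, `gb` of the line in the window, with a gain over
the number of the labels of `v` over `y`, `u` in the class: two conditionally independent samples
with the same record (any function of the exact point) have different coefficients `gb`.
`trn_zom`: the codes of the affine closed labels of a zoom.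
-/

set_option autoImplicit false

namespace Pool.MIC6

open Finset MvPolynomial
open Pool.Agent.H49.Ent Pool.Agent.H32.Dense Pool.STK Pool.KA Pool.KSAT Pool.K2S Pool.PB Pool.GEN
open Pool.S6C
open Pool.FLF (Fam.sub)
open Pool.GRD (LbP)
open Pool.REX
open Pool.KM7 (P2)
open Pool.JVE (TrD tr_lev)

variable {m n J : ℕ}

/-- **The coefficients are separated.** -/
theorem trn_cls {S : PCl m} {C₀ : ℝ} (hC₀ : 0 ≤ C₀) (htm : TmC S C₀)
    {L : Finset (Fin m) → Fin m → ℝ → ℝ → ℝ} (hL : LamW S L) {y u v : Fin m} (hyu : y ≠ u)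
    (hact : ActF S y) {W' W r U D x q : ℝ} (hW' : W' < W) (hW0 : 0 < W)
    (hUW : W < L {y} u W' 0) (hU : U ≤ L {y} u W' 0) (hU0 : 0 ≤ U) (hD0 : 0 ≤ D) (hx : 0 < x)
    (hDW : W ≤ L {y, u} v W r) (hD1 : L {y, u} v W r < 1) (hDx : L {y, u} v W r < D + x)
    (hUD : U < D + x) (hq : L {y, u} v W r - W < q) :
    ∃ e₀ : ℝ, 0 < e₀ ∧ ∀ c η : ℝ, 0 < η → Bas S (fun J F A =>
      ∀ (au cu av cv : PtT F → ℝ) (e M : ℕ), e ≤ ⌊e₀ * J⌋₊ → ⌊q * J⌋₊ ≤ M →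
      ⌊(L {y} u W' 0 - W) * J⌋₊ ≤ M → Dp F A y u e M au cu → Dp F A y v e M av cv →
      ∀ (𝒦 : Type) (K : F.Ω → 𝒦) (B : F.Ω → Prop) (ga gb : LnT F → ℝ), Sub B A →
      Pe F.p A ≤ c * Pe F.p B →
      (∀ ω ω', B ω → B ω' → ptr F J ω = ptr F J ω' → K ω = K ω') →
      (∀ ω, B ω → |gb (slam F ⌊W * J⌋₊ ω)| ≤ 2 ^ ⌊e₀ * J⌋₊ ∧
        |ga (slam F ⌊W * J⌋₊ ω) + gb (slam F ⌊W * J⌋₊ ω) * au (ptr F J ω) - av (ptr F J ω)| ≤
          1 / 2 ^ ⌊q * J⌋₊) →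
      law (P2 (cond F.p B True) K)
        (fun v => |gb (slam F ⌊W * J⌋₊ v.1) - gb (slam F ⌊W * J⌋₊ v.2)| * 2 ^ ⌊x * J⌋₊ <
          3 * (2 ^ ⌊U * J⌋₊ / 2 ^ ⌊D * J⌋₊)) True ≤ η) := by
  classical
  obtain ⟨Un, hUn⟩ : ∃ Un, Un = L {y} u W' 0 := ⟨_, rfl⟩
  obtain ⟨Dn, hDn⟩ : ∃ Dn, Dn = L {y, u} v W r := ⟨_, rfl⟩
  have hUn1 : Un ≤ 1 := by rw [hUn]; exact hL.le1 _ _ _ _
  rw [← hUn] at hUW hU
  rw [← hDn] at hDW hD1 hDx hq
  -- the small parameter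
  obtain ⟨s, hs⟩ : ∃ s, s = min (min (min 1 ((Un - W) / 16)) (min ((1 - Dn) / 4) ((D + x - Dn) / 16)))
    (min ((D + x - U) / 4) ((q - (Dn - W)) / 8)) := ⟨_, rfl⟩
  have hs0 : 0 < s := by
    rw [hs]
    exact lt_min (lt_min (lt_min one_pos (by linarith)) (lt_min (by linarith) (by linarith)))
      (lt_min (by linarith) (by linarith))
  have s0 : s ≤ 1 ∧ s ≤ (Un - W) / 16 ∧ s ≤ (1 - Dn) / 4 ∧ s ≤ (D + x - Dn) / 16 ∧
      s ≤ (D + x - U) / 4 ∧ s ≤ (q - (Dn - W)) / 8 := by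
    have := hs.le
    simp only [le_min_iff] at this
    tauto
  obtain ⟨s1, s2, s3, s4, s5, s6⟩ := s0
  clear hs
  have hnu := nat_cls hC₀ htm hL (v := u) hact hW' hW0 hs0 (by rw [← hUn]; linarith)
  have hins : insert u ({y} : Finset (Fin m)) = {y, u} := Finset.pair_comm _ _
  obtain ⟨d, hd0, htr⟩ := tr_lev hL (Y := {y}) (u := u) (v := v)
    (fun h => hyu (Finset.mem_singleton.1 h).symm) (W := W) (r := r) (s := s) (by linarith) hs0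
    (by rw [hins, ← hDn]; exact hDW) (by rw [hins, ← hDn]; linarith)
  rw [hins, ← hDn] at htr
  rw [← hUn] at hnu ⊢
  obtain ⟨et, het⟩ : ∃ et, et = min d s := ⟨_, rfl⟩
  have het0 : 0 < et := by rw [het]; exact lt_min hd0 hs0
  have hetd : et ≤ d := by rw [het]; exact min_le_left _ _
  have hets : et ≤ s := by rw [het]; exact min_le_right _ _
  obtain ⟨δ, hδ, htr'⟩ := htr et het0 hetd
  obtain ⟨e₀, he₀⟩ : ∃ e₀, e₀ = et / 4 := ⟨_, rfl⟩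
  have he₀0 : 0 < e₀ := by rw [he₀]; linarith
  have he₀e : 4 * e₀ = et := by rw [he₀]; ring
  refine ⟨e₀, he₀0, fun c η hη => ?_⟩
  obtain ⟨τ₁, hτ₁, J₁, b₁⟩ := hnu
  obtain ⟨τ₂, hτ₂, J₂, b₂⟩ := htr'
  obtain ⟨C, hC⟩ : ∃ C, C = max c 1 / η := ⟨_, rfl⟩
  have hC0 : 0 < C := by
    rw [hC]
    exact div_pos (lt_of_lt_of_le one_pos (le_max_right _ _)) hη
  obtain ⟨τ, hτ⟩ : ∃ τ, τ = min (τ₁ / 2) τ₂ := ⟨_, rfl⟩
  have hτ0 : 0 < τ := by rw [hτ]; exact lt_min (by linarith) hτ₂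
  have t1 : τ ≤ τ₁ / 2 := by rw [hτ]; exact min_le_left _ _
  have t2 : τ ≤ τ₂ := by rw [hτ]; exact min_le_right _ _
  obtain ⟨J₃, hJ₃⟩ := exists_nat_ge (max ((20 : ℝ) / e₀) (max (Real.log C / τ)
    ((Real.log (4 * C) + 1) / δ)))
  refine ⟨τ, hτ0, J₁ + J₂ + J₃, ?_⟩
  intro J hJ F A hA au cu av cv e M he hM hMu hau hav 𝒦 K B ga gb hBA hPB hK hrel
  by_contra hcon
  push Not at hcon
  have hJ3 : (J₃ : ℝ) ≤ J := by exact_mod_cast (by omega : J₃ ≤ J)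
  have hJ0 : (0 : ℝ) ≤ J := Nat.cast_nonneg J
  have q0 : (20 : ℝ) ≤ e₀ * J := by
    have h1 := ((le_max_left _ _).trans hJ₃).trans hJ3
    rw [div_le_iff₀ he₀0] at h1
    linarith only [h1]
  have hlog : Real.log C ≤ τ * J := by
    have h1 := (((le_max_left _ _).trans (le_max_right _ _)).trans hJ₃).trans hJ3
    rw [div_le_iff₀ hτ0] at h1
    linarith only [h1]
  have hlog2 : Real.log (4 * C) + 1 ≤ δ * J := by
    have h1 := (((le_max_right _ _).trans (le_max_right _ _)).trans hJ₃).trans hJ3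
    rw [div_le_iff₀ hδ] at h1
    linarith only [h1]
  have hA0 := (htm τ J F A hτ0 hA).1
  obtain ⟨w, hw⟩ : ∃ w, w = ⌊W * (J : ℝ)⌋₊ := ⟨_, rfl⟩
  obtain ⟨X, hX⟩ : ∃ X, X = ⌊x * (J : ℝ)⌋₊ := ⟨_, rfl⟩
  obtain ⟨NU, hNU⟩ : ∃ N, N = ⌊U * (J : ℝ)⌋₊ := ⟨_, rfl⟩
  obtain ⟨NV, hNV⟩ : ∃ N, N = ⌊D * (J : ℝ)⌋₊ := ⟨_, rfl⟩
  rw [← hw, ← hX, ← hNU, ← hNV] at hcon
  rw [← hw] at hrel
  obtain ⟨B', sel, e1, e2, e3⟩ := pair_evt hA0 hPB K (fun ω ω' =>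
    |gb (slam F w ω) - gb (slam F w ω')| * 2 ^ X < 3 * (2 ^ NU / 2 ^ NV)) hη hcon
  have e1' : Sub B' A := fun ω hω => hBA ω (e1 ω hω)
  have hB'0 := Pe_nonneg F.isLaw B'
  have e4 : Pe F.p A ≤ C * Pe F.p B' := by
    rw [hC]
    exact e2.trans (mul_le_mul_of_nonneg_right (div_le_div_of_nonneg_right (le_max_left _ _)
      hη.le) hB'0)
  have hS : S.St (2 * τ) J F B' := res_of hτ0.le hA e1' hC0 hlog e4
  have hfm : ∀ {x y : ℝ}, x ≤ y → ⌊x * (J : ℝ)⌋₊ ≤ ⌊y * (J : ℝ)⌋₊ := fun h =>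
    Nat.floor_le_floor (mul_le_mul_of_nonneg_right h hJ0)
  obtain ⟨B₄, a4, p4, j, hB₄⟩ := b₁ J (by omega) F B' (S.mono (by linarith) hS) au cu e M
    (hau.sub e1') (he.trans (hfm (by linarith))) hMu
  rw [← hw] at hB₄
  have a4' : Sub B₄ A := fun ω hω => e1' ω (a4 ω hω)
  have hB₄0 : 0 ≤ Pe F.p B₄ := Pe_nonneg F.isLaw B₄
  have p4' : Pe F.p A ≤ 4 * C * Pe F.p B₄ := by
    have h1 := mul_le_mul_of_nonneg_left p4 hC0.le
    linarith only [e4, h1]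
  have hB₄p : 0 < Pe F.p B₄ := by
    rcases hB₄0.eq_or_lt with h | h
    · rw [← h, mul_zero] at p4'
      linarith
    · exact h
  -- the selected coefficient is a function of the exact point
  obtain ⟨β, hβ⟩ : ∃ β : PtT F → ℝ, ∀ ω, B₄ ω → β (ptr F J ω) = gb (slam F w (sel (K ω))) := by
    refine ⟨fun p => if hx : ∃ ω, B₄ ω ∧ ptr F J ω = p then gb (slam F w (sel (K hx.choose)))
      else 0, fun ω hω => ?_⟩
    have hx : ∃ ω', B₄ ω' ∧ ptr F J ω' = ptr F J ω := ⟨ω, hω, rfl⟩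
    show (if hx : ∃ ω', B₄ ω' ∧ ptr F J ω' = ptr F J ω then gb (slam F w (sel (K hx.choose)))
      else 0) = _
    rw [dif_pos hx, hK _ _ (e1 _ (a4 _ hx.choose_spec.1)) (e1 _ (a4 _ hω)) hx.choose_spec.2]
  -- the exponents
  have hfl : ∀ x : ℝ, 0 ≤ x → (⌊x * (J : ℝ)⌋₊ : ℝ) ≤ x * J := fun x hx =>
    Nat.floor_le (mul_nonneg hx hJ0)
  have hfl' : ∀ x : ℝ, x * (J : ℝ) - 1 < ⌊x * (J : ℝ)⌋₊ := fun x => Nat.sub_one_lt_floor _
  have f1 := hfl U hU0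
  have f2 := hfl' D
  have f3 := hfl' x
  have f4 := hfl (Dn - W + s) (by linarith)
  have f5 := hfl' (Un - W - 8 * s)
  have f6 := hfl' q
  have f7 := hfl e₀ he₀0.le
  have f8 := hfl' et
  rw [← hNU] at f1
  rw [← hNV] at f2
  rw [← hX] at f3
  have hesJ : 4 * (e₀ * (J : ℝ)) ≤ s * J := by
    have h1 : 4 * (e₀ * (J : ℝ)) = et * J := by rw [← he₀e]; ring
    rw [h1]
    exact mul_le_mul_of_nonneg_right hets hJ0
  have g1 : U * (J : ℝ) ≤ Un * J := mul_le_mul_of_nonneg_right hU hJ0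
  have g4 : s * J ≤ (D + x - Dn) / 16 * J := mul_le_mul_of_nonneg_right s4 hJ0
  have g5 : s * J ≤ (D + x - U) / 4 * J := mul_le_mul_of_nonneg_right s5 hJ0
  have g6 : s * J ≤ (q - (Dn - W)) / 8 * J := mul_le_mul_of_nonneg_right s6 hJ0
  have n1 : NU + 2 ≤ NV + X := by
    rw [← Nat.cast_le (α := ℝ)]
    push_cast
    linarith only [f1, f2, f3, g5, hesJ, q0]
  obtain ⟨Q, hQ⟩ : ∃ Q, Q + (NU + 2) = NV + X := ⟨NV + X - (NU + 2), by omega⟩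
  have hQr : (Q : ℝ) + (NU + 2) = NV + X := by exact_mod_cast hQ
  have n2 : ⌊(Dn - W + s) * (J : ℝ)⌋₊ ≤ ⌊(Un - W - 8 * s) * (J : ℝ)⌋₊ + Q := by
    rw [← Nat.cast_le (α := ℝ)]
    push_cast
    linarith only [f1, f2, f3, f4, f5, g1, g4, hesJ, q0, hQr]
  have n3 : ⌊(Dn - W + s) * (J : ℝ)⌋₊ + (⌊e₀ * (J : ℝ)⌋₊ + 2) ≤ ⌊q * (J : ℝ)⌋₊ := by
    rw [← Nat.cast_le (α := ℝ)]
    push_cast
    linarith only [f4, f6, f7, g6, hesJ, q0]
  have n4 : ⌊e₀ * (J : ℝ)⌋₊ + 2 ≤ ⌊et * (J : ℝ)⌋₊ := by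
    rw [← Nat.cast_le (α := ℝ)]
    push_cast
    have h1 : et * (J : ℝ) = 4 * (e₀ * J) := by rw [← he₀e]; ring
    linarith only [f7, f8, h1, q0]
  have hpe : (2 : ℝ) ^ e ≤ 2 ^ ⌊et * (J : ℝ)⌋₊ :=
    pow_le_pow_right₀ (by norm_num) (he.trans (by omega))
  have pNU : (0 : ℝ) < 2 ^ NU := by positivity
  have pNV : (0 : ℝ) < 2 ^ NV := by positivity
  have pX : (0 : ℝ) < 2 ^ X := by positivity
  have pQ : (0 : ℝ) < 2 ^ Q := by positivity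
  have hpow : (2 : ℝ) ^ NV * 2 ^ X = 2 ^ Q * (2 ^ NU * 4) := by
    rw [← pow_add, ← hQ, pow_add 2 Q (NU + 2), pow_add 2 NU 2]
    norm_num
  have key := b₂ J (by omega) F A (S.mono t2 hA) B₄ ⌊(Dn - W + s) * (J : ℝ)⌋₊
    ⌊(Un - W - 8 * s) * (J : ℝ)⌋₊ Q (fun p _ => au p) (fun p _ => av p) cu cv gb
    (fun y _ => ga y) (fun y _ => j y) (2 ^ (⌊e₀ * (J : ℝ)⌋₊ + 2)) a4'
  rw [← hw] at key
  have key2 := key
    { bd := fun ω hω => ⟨fun i _ => ⟨((hau ω (a4' ω hω)).1).trans hpe,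
        ((hav ω (a4' ω hω)).1).trans hpe⟩, ((hau ω (a4' ω hω)).2.1).trans hpe,
        ((hav ω (a4' ω hω)).2.1).trans hpe⟩
      slo := fun ω hω => by
        have h1 := (hrel ω (e1 ω (a4 ω hω))).1
        have h2 : (2 : ℝ) / 2 ^ Q ≤ 2 := by
          rw [div_le_iff₀ pQ]
          have h3 : (1 : ℝ) ≤ 2 ^ Q := one_le_pow₀ (by norm_num)
          linarith only [h3]
        have h3 : (1 : ℝ) ≤ 2 ^ ⌊e₀ * (J : ℝ)⌋₊ := one_le_pow₀ (by norm_num)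
        have h4 : (2 : ℝ) ^ (⌊e₀ * (J : ℝ)⌋₊ + 2) = 4 * 2 ^ ⌊e₀ * (J : ℝ)⌋₊ := by
          rw [pow_add]
          norm_num
          ring
        rw [h4]
        linarith only [h1, h2, h3]
      b₀e := pow_le_pow_right₀ (by norm_num) n4
      velv := fun ω hω => by
        have h1 := (hav ω (a4' ω hω)).2.2
        rw [Finset.sum_singleton]
        exact h1.trans (inv_mono (by omega))
      velu := fun ω hω => by
        have h1 := (hau ω (a4' ω hω)).2.2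
        rw [Finset.sum_singleton]
        have h2 := mul_le_mul_of_nonneg_left h1
          (by positivity : (0 : ℝ) ≤ 2 ^ (⌊e₀ * (J : ℝ)⌋₊ + 2))
        refine h2.trans ?_
        rw [mul_one_div]
        exact pow_frac (by omega)
      rel := fun ω hω i _ => by
        have h1 := (hrel ω (e1 ω (a4 ω hω))).2
        exact h1.trans (inv_mono (by omega))
      nat := fun ω hω i _ => hB₄ ω hω
      num := n2 } le_rfl β (fun ω hω => by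
      have h1 := (e3 ω (a4 ω hω)).2
      rw [hβ ω hω, le_div_iff₀ pQ]
      obtain ⟨z, hz⟩ : ∃ z, z = |gb (slam F w ω) - gb (slam F w (sel (K ω)))| := ⟨_, rfl⟩
      rw [← hz] at h1 ⊢
      have h2 := mul_lt_mul_of_pos_right h1 pNV
      have e5 : 3 * ((2 : ℝ) ^ NU / 2 ^ NV) * 2 ^ NV = 3 * 2 ^ NU := by field_simp
      have e6 : z * 2 ^ X * 2 ^ NV = z * 2 ^ Q * 4 * 2 ^ NU := by
        have : z * 2 ^ X * 2 ^ NV = z * (2 ^ NV * 2 ^ X) := by ring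
        rw [this, hpow]
        ring
      rw [e5, e6] at h2
      have h3 := lt_of_mul_lt_mul_right h2 pNU.le
      linarith only [h3])
  -- the contradiction
  have h1 : Real.exp (-(δ * J)) * (4 * C) ≤ Real.exp (-1) := by
    have h2 : (4 * C : ℝ) = Real.exp (Real.log (4 * C)) := (Real.exp_log (by linarith)).symm
    rw [h2, ← Real.exp_add]
    exact Real.exp_le_exp.2 (by linarith only [hlog2])
  have h2 : Real.exp (-1) < 1 := by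
    rw [Real.exp_lt_one_iff]
    norm_num
  have h3 : Real.exp (-(δ * J)) * Pe F.p A ≤ Real.exp (-(δ * J)) * (4 * C * Pe F.p B₄) :=
    mul_le_mul_of_nonneg_left p4' (Real.exp_pos _).le
  have h4 : Real.exp (-(δ * J)) * (4 * C * Pe F.p B₄) ≤ Real.exp (-1) * Pe F.p B₄ := by
    have := mul_le_mul_of_nonneg_right h1 hB₄0
    linarith only [this]
  have h5 : Real.exp (-1) * Pe F.p B₄ < 1 * Pe F.p B₄ := mul_lt_mul_of_pos_right h2 hB₄p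
  linarith only [key2, h3, h4, h5]

/-- **The coefficients of the affine closed labels of a zoom are separated.** -/
theorem trn_zom {S : PCl m} {C₀ : ℝ} (hC₀ : 0 ≤ C₀) (htm : TmC S C₀)
    {L : Finset (Fin m) → Fin m → ℝ → ℝ → ℝ} (hL : LamW S L) (vz : Vz m) (ε : Fin n → Fin m)
    {κ ι k : Fin n} (hκι : ε κ ≠ ε ι) (hact : ActF S (ε κ)) {W' W r U D x q w : ℝ}
    (hw0 : 0 < w) (hw1 : w < 1) (hwW : vz.tm w < W) (hW1 : W ≤ 1) (hW' : W' < W)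
    (hUW : W < L {ε κ} (ε ι) W' 0) (hU : U ≤ L {ε κ} (ε ι) W' 0) (hU0 : 0 ≤ U) (hD0 : 0 ≤ D)
    (hx : 0 < x) (hDW : W ≤ L {ε κ, ε ι} (ε k) W r) (hD1 : L {ε κ, ε ι} (ε k) W r < 1)
    (hDx : L {ε κ, ε ι} (ε k) W r < D + x) (hUD : U < D + x)
    (hq : L {ε κ, ε ι} (ε k) W r - W < q) :
    ∃ e₀ : ℝ, 0 < e₀ ∧ ∀ c η : ℝ, 0 < η → Bas S (fun J F A =>
      ∀ (au cu av cv : PtT F → ℝ) (e M : ℕ), e ≤ ⌊e₀ * J⌋₊ → ⌊q * J⌋₊ ≤ M →
      ⌊(L {ε κ} (ε ι) W' 0 - W) * J⌋₊ ≤ M → Dp F A (ε κ) (ε ι) e M au cu →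
      Dp F A (ε κ) (ε k) e M av cv →
      ∀ (hP : vz.P J ≤ J - vz.B J) (V : Type) (zp : PtT (zmV F hP (vz.y J F) ε) → V)
        (zs : LnT (zmV F hP (vz.y J F) ε) → V) (cf : V → Fin 4 → ℝ) (Q q' e' : ℕ)
        (𝒦 : Type) (K : F.Ω → 𝒦) (B : F.Ω → Prop), Sub B A → Pe F.p A ≤ c * Pe F.p B →
      (∀ ω ω', B ω → B ω' → ptr F J ω = ptr F J ω' → K ω = K ω') →
      ⌊q * J⌋₊ ≤ q' → e' ≤ ⌊e₀ * J⌋₊ →
      AfC F hP (vz.y J F) ε κ ι k (⌊w * vz.R J⌋₊ + 2) Q q' e' au av B zp zs cf →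
      law (P2 (cond F.p B True) K)
        (fun v => |cf (zs (slam (zmV F hP (vz.y J F) ε) (⌊w * vz.R J⌋₊ + 2) v.1)) 3 -
          cf (zs (slam (zmV F hP (vz.y J F) ε) (⌊w * vz.R J⌋₊ + 2) v.2)) 3| * 2 ^ ⌊x * J⌋₊ <
          3 * (2 ^ ⌊U * J⌋₊ / 2 ^ ⌊D * J⌋₊)) True ≤ η) := by
  have hb := vz.b0
  have hb1 := vz.b1
  have hp := vz.p0
  have hp1 := vz.p1
  have hcp : 0 < (1 - vz.b) * (1 - vz.p) := mul_pos (by linarith) (by linarith)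
  have htm0 : vz.tm w = vz.b + (1 - vz.b) * (1 - vz.p) * w := rfl
  have htw0 : 0 < vz.tm w := by
    have : 0 < (1 - vz.b) * (1 - vz.p) * w := mul_pos hcp hw0
    rw [htm0]
    linarith
  obtain ⟨e₀, he₀, hcl⟩ := trn_cls hC₀ htm hL hκι hact hW' (by linarith) hUW hU hU0 hD0 hx hDW
    hD1 hDx hUD hq
  refine ⟨e₀, he₀, fun c η hη => ?_⟩
  obtain ⟨τ, hτ, J₁, b₁⟩ := hcl c η hη
  obtain ⟨o, hod⟩ : ∃ o, o = min (W - vz.tm w) ((1 - vz.b) * (1 - vz.p) * (1 - w)) := ⟨_, rfl⟩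
  have ho0 : 0 < o := by
    rw [hod]
    exact lt_min (by linarith) (mul_pos hcp (by linarith))
  have ho1 : o ≤ W - vz.tm w := by rw [hod]; exact min_le_left _ _
  have ho2 : o ≤ (1 - vz.b) * (1 - vz.p) * (1 - w) := by rw [hod]; exact min_le_right _ _
  obtain ⟨J₂, hJ₂⟩ := exists_nat_ge ((100 : ℝ) / o)
  refine ⟨τ, hτ, J₁ + J₂, ?_⟩
  intro J hJ F A hA au cu av cv e M he hM hMu hau hav hP V zp zs cf Q q' e' 𝒦 K B hBA hPB hK hq'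
    he' haf
  have hJ2 : (J₂ : ℝ) ≤ J := by exact_mod_cast (by omega : J₂ ≤ J)
  have hJ0 : (0 : ℝ) ≤ J := Nat.cast_nonneg J
  have q1 : (100 : ℝ) ≤ o * J := by
    have h1 := hJ₂.trans hJ2
    rw [div_le_iff₀ ho0] at h1
    linarith only [h1]
  obtain ⟨k1, -, -⟩ := vz.floor_le J
  obtain ⟨r1, r2, r3, r4, r5⟩ := vz_real vz J
  have hRJ : vz.R J = J - vz.B J - vz.P J := rfl
  have fw : (⌊w * (vz.R J : ℝ)⌋₊ : ℝ) ≤ w * vz.R J := Nat.floor_le (by positivity)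
  have hwR : ⌊w * (vz.R J : ℝ)⌋₊ + 2 ≤ J - vz.B J - vz.P J := by
    rw [← hRJ, ← Nat.cast_le (α := ℝ)]
    push_cast
    have h2 : (1 - w) * ((1 - vz.b) * (1 - vz.p) * J - 1) ≤ (1 - w) * vz.R J :=
      mul_le_mul_of_nonneg_left r4 (by linarith)
    have h5 : o * J ≤ (1 - vz.b) * (1 - vz.p) * (1 - w) * J := mul_le_mul_of_nonneg_right ho2 hJ0
    linarith only [fw, h2, h5, q1, hw0]
  obtain ⟨w1, w2⟩ := zom_win vz hw0 hw1 ho0 (W := W) (by linarith) hW1 q1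
  have hfac := zom_fac F hP (vz.y J F) ε k1 (w := ⌊w * (vz.R J : ℝ)⌋₊ + 2)
    (W := ⌊W * (J : ℝ)⌋₊) hwR (by omega) w2
    (fun ω ω' h => Pool.GRW.zmV_of_slam F hP (vz.y J F) ε k1 hwR (vz.line J F) h)
  obtain ⟨ga, hga⟩ := hfac (fun y => cf (zs y) 2)
  obtain ⟨gb, hgb⟩ := hfac (fun y => cf (zs y) 3)
  have key := b₁ J (by omega) F A hA au cu av cv e M he hM hMu hau hav 𝒦 K B ga gb hBA hPB hK
    (fun ω hω => by
      obtain ⟨h1, h2, -⟩ := haf.2 ω hω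
      rw [← hga ω, ← hgb ω]
      exact ⟨h1.trans (pow_le_pow_right₀ (by norm_num) he'), h2.trans (inv_mono hq')⟩)
  simp only [← hgb] at key
  exact key

end Pool.MIC6
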