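import Pool.Agent.H6.OWN.Nod
import Pool.Agent.H6.OWN.Lab
import Pool.Agent.H45.REC.Tcg

/-!
# No gain over one coordinate in a tube, for one family

`ng_fam`: a closed label of the coordinate `v` over the coordinate `y` in the zoom of a family into
a window and a tube, with any record, and a closed label of `v` over `y` for the family (of any
window), give an affine closed label of `v` over `y` for the window of the zoom, if the velocity of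
`y` behind the tube has some entropy given the exact point, the record and the tube.
-/

set_option autoImplicit false

namespace Pool.MIC6

open Finset MvPolynomial
open Pool.Agent.H49.Ent Pool.Agent.H32.Dense Pool.STK Pool.KA Pool.KSAT Pool.K2S Pool.PB Pool.GEN
open Pool.FLF (Fam.sub)
open Pool.GRD (LbP)
open Pool.REX (zm zmV zmV_Z zmV_T zm_T)

variable {m n J : ℕ}

section

variable (F : Fam m J) {B P : ℕ} (hP : P ≤ J - B) {κ' : Type} (yy : F.Ω → κ') (ε : Fin n → Fin m)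

/-- The exact point, with the point of the zoom. -/
noncomputable def phz (ω : F.Ω) : (Fin m → ℤ) × ℕ × (zmV F hP yy ε).ζ × (Fin n → ℤ) :=
  (F.X J ω, F.T ω, (zmV F hP yy ε).Z ω, (zmV F hP yy ε).X (J - B - P) ω)

theorem phz_ptr {ω ω' : F.Ω} (h : phz F hP yy ε ω = phz F hP yy ε ω') :
    ptr F J ω = ptr F J ω' ∧
      ptr (zmV F hP yy ε) (J - B - P) ω = ptr (zmV F hP yy ε) (J - B - P) ω' ∧
      ∀ j, ((F.win B).L P ω).2 (ε j) = ((F.win B).L P ω').2 (ε j) := by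
  have h1 := Prod.ext_iff.mp h
  have h2 := Prod.ext_iff.mp h1.2
  have h3 := Prod.ext_iff.mp h2.2
  have hX : F.X J ω = F.X J ω' := h1.1
  have hT : F.T ω = F.T ω' := h2.1
  have hZ : (zmV F hP yy ε).Z ω = (zmV F hP yy ε).Z ω' := h3.1
  have hx : (zmV F hP yy ε).X (J - B - P) ω = (zmV F hP yy ε).X (J - B - P) ω' := h3.2
  have hZ' := hZ
  rw [zmV_Z, zmV_Z] at hZ
  have hL := Prod.ext_iff.mp (Prod.ext_iff.mp hZ).1
  have hyc := Prod.ext_iff.mp (Prod.ext_iff.mp hZ).2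
  have hc := Prod.ext_iff.mp hyc.2
  have hFZ : F.Z ω = F.Z ω' := hc.2
  refine ⟨Prod.ext hX (Prod.ext hT hFZ), Prod.ext hx (Prod.ext ?_ hZ'),
    fun j => congrFun hL.2 j⟩
  show (zmV F hP yy ε).T ω = (zmV F hP yy ε).T ω'
  rw [zmV_T, zmV_T, zm_T, zm_T, hT]

theorem fl_eq_near {a : ℕ} {x x' : ℝ} (h : ⌊(2 : ℝ) ^ a * x⌋ = ⌊(2 : ℝ) ^ a * x'⌋) :
    |x - x'| ≤ 1 / 2 ^ a := by
  have pa : (0 : ℝ) < 2 ^ a := by positivity
  have a1 := Int.floor_le ((2 : ℝ) ^ a * x)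
  have a2 := Int.lt_floor_add_one ((2 : ℝ) ^ a * x)
  have a3 := Int.floor_le ((2 : ℝ) ^ a * x')
  have a4 := Int.lt_floor_add_one ((2 : ℝ) ^ a * x')
  rw [h] at a1 a2
  rw [le_div_iff₀ pa]
  have e1 : |x - x'| * 2 ^ a = |2 ^ a * x - 2 ^ a * x'| := by
    rw [← mul_sub, abs_mul, abs_of_pos pa, mul_comm]
  rw [e1, abs_le]
  constructor <;> linarith

/-- The velocities in the zoom. -/
theorem zmV_d (ω : F.Ω) (j : Fin n) : (zmV F hP yy ε).d ω j =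
    2 ^ P * F.d ω (ε j) - (((F.win B).L P ω).2 (ε j) : ℝ) := by
  show Int.fract (2 ^ P * F.d ω (ε j)) = 2 ^ P * F.d ω (ε j) - (⌊(2 : ℝ) ^ P * F.d ω (ε j)⌋ : ℝ)
  rfl

end

/-- **No gain over one coordinate in a tube**, one family. -/
theorem ng_fam (m n K : ℕ) : ∃ C : ℝ, 1 ≤ C ∧ ∀ {J : ℕ} (F : Fam m J) (A : F.Ω → Prop)
    (hA : 0 < Pe F.p A) {B P : ℕ} (hP : P ≤ J - B) {Y : Type} (yy : F.Ω → Y)
    (ε : Fin n → Fin m) {κ k : Fin n} {e r₂ w₂ ρ₂ P₂ r w P₁ g M Q : ℕ}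
    {V₂ : Type} {z₂ : PtT F → V₂} {z₂' : LnT F → V₂} {G₂ : V₂ → MvPolynomial (Option (Fin m)) ℝ}
    {V₁ : Type} {z₁ : PtT (zmV F hP yy ε) → V₁} {z₁' : LnT (zmV F hP yy ε) → V₁}
    {G₁ : V₁ → MvPolynomial (Option (Fin n)) ℝ} {θ : ℝ}, B ≤ J →
    (∀ ω ω' : F.Ω, slam F B ω = slam F B ω' → yy ω = yy ω') →
    LbOK F {ε κ} (ε k) K e r₂ w₂ ρ₂ P₂ A z₂ z₂' G₂ →
    LbP (zmV F hP yy ε) {κ} k K r w P₁ A z₁ z₁' G₁ →
    r₂ ≤ J → ρ₂ + 1 ≤ J → r ≤ J - B - P → w ≤ J - B - P → 0 ≤ θ →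
    (Fam.sub (zmV F hP yy ε) A hA).Tm θ →
    C * (θ + 1) ≤ (((J - B - P : ℕ) : ℝ) - w) * Real.log 2 → w + g + 4 ≤ J - B - P →
    (∀ B₀ : F.Ω → Prop, Sub B₀ A → Pe F.p A / 4 < Pe F.p B₀ → Real.log (2 * (K + 2 : ℕ)) <
      CH (Pool.Agent.H49.Ent.cond F.p B₀ True) (fun ω => (zmV F hP yy ε).D g ω κ)
        (phz F hP yy ε)) →
    C * (2 ^ g) ^ (K + 1) * (Real.exp (C * (θ + 1)) * 2 ^ w / 2 ^ P₁ +
      2 ^ (e + w) / 2 ^ (J - B - P) + 2 ^ P * (2 ^ w₂ / 2 ^ P₂ + 2 ^ (e + ρ₂) / 2 ^ J)) ≤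
      1 / 2 ^ M →
    B + w + M + e + 3 ≤ J → Q + 3 ≤ B + w + M →
    ∃ B' : F.Ω → Prop, Sub B' A ∧ Pe F.p A ≤ C * Pe F.p B' ∧
      ∀ ρ : ℕ, Lb F {ε κ} (ε k) 1 (e + 1) J (B + w) ρ Q B' := by
  classical
  obtain ⟨C₁, hC₁, hslp⟩ := slp_fam n K
  obtain ⟨C₂, hC₂, hbal⟩ := bal_slp m K
  refine ⟨4 * (9 ^ 2 * 11) + 4 * (C₁ * C₂), by nlinarith, ?_⟩
  intro J F A hA B P hP Y yy ε κ k e r₂ w₂ ρ₂ P₂ r w P₁ g M Q V₂ z₂ z₂' G₂ V₁ z₁ z₁' G₁ θ hB hyy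
    h₂ h₁ hr₂ hρ₂ hr hw hθ hTm hJθ hwg hact hM hMJ hQ
  obtain ⟨C, hC⟩ : ∃ C : ℝ, C = 4 * (9 ^ 2 * 11) + 4 * (C₁ * C₂) := ⟨_, rfl⟩
  rw [← hC] at hJθ hM ⊢
  have hCC : 4 * (C₁ * C₂) ≤ C := by rw [hC]; linarith
  have h12 : 1 ≤ C₁ * C₂ := one_le_mul_of_one_le_of_one_le hC₁ hC₂
  have hC1 : C₁ ≤ C := by nlinarith
  have hC2 : C₂ ≤ C := by nlinarith
  obtain ⟨av, cv, hav⟩ := hbal h₂ hr₂ hρ₂
  obtain ⟨Fz, hFz⟩ : ∃ Fz, Fz = zmV F hP yy ε := ⟨_, rfl⟩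
  obtain ⟨E₀, hE₀⟩ : ∃ E₀ : ℝ, E₀ = 2 ^ w₂ / 2 ^ P₂ + C₂ * (2 ^ (e + ρ₂) / 2 ^ J) := ⟨_, rfl⟩
  have hE₀0 : 0 ≤ E₀ := by rw [hE₀]; positivity
  obtain ⟨φ, hφ⟩ := ptr_coarse (zmV F hP yy ε) hr
  have hJ' : (0 : ℝ) < 2 ^ (J - B - P) := by positivity
  have key := hslp (zmV F hP yy ε) A hA (κ := κ) (k := k) (Φ := phz F hP yy ε)
    (a := fun ω => av (ptr F J ω)) (α := 2 ^ e) (ρ := 1 / 2 ^ g) (s₀ := 1 / 2 ^ (J - B - P))
    (err := 2 ^ P * (2 * E₀)) (θ := θ) h₁ hw hθ hTm (by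
      refine le_trans ?_ hJθ
      exact mul_le_mul_of_nonneg_right hC1 (by linarith)) (by positivity) (by
      rw [div_le_one (by positivity)]
      exact one_le_pow₀ (by norm_num)) (by
      have e1 : (1 : ℝ) / 2 ^ g * (1 / 2 ^ w) / 16 = 1 / 2 ^ (w + g + 4) := by
        rw [pow_add, pow_add]
        norm_num
        field_simp
      rw [e1]
      exact inv_mono hwg) (by
      intro ω ω' hω hω' h
      obtain ⟨c1, c2, c3⟩ := phz_ptr F hP yy ε h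
      have hx : ∀ j, |(zmV F hP yy ε).x ω' j - (zmV F hP yy ε).x ω j| ≤ 1 / 2 ^ (J - B - P) := by
        intro j
        have d1 : (zmV F hP yy ε).X (J - B - P) ω j = (zmV F hP yy ε).X (J - B - P) ω' j :=
          congrFun (Prod.ext_iff.mp c2).1 j
        have d2 := fl_eq_near d1
        rw [abs_sub_comm]
        exact d2
      refine ⟨by rw [hφ, hφ, c2], hx κ, hx k, ?_⟩
      have a1 := (hav ω hω).2.2
      have a2 := (hav ω' hω').2.2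
      rw [← c1] at a2
      rw [zmV_d, zmV_d, zmV_d, zmV_d, c3, c3]
      have e1 : 2 ^ P * F.d ω' (ε k) - (((F.win B).L P ω').2 (ε k) : ℝ) -
          (2 ^ P * F.d ω (ε k) - (((F.win B).L P ω').2 (ε k) : ℝ)) - av (ptr F J ω) *
          (2 ^ P * F.d ω' (ε κ) - (((F.win B).L P ω').2 (ε κ) : ℝ) -
          (2 ^ P * F.d ω (ε κ) - (((F.win B).L P ω').2 (ε κ) : ℝ))) =
          2 ^ P * ((F.d ω' (ε k) - cv (ptr F J ω) - av (ptr F J ω) * F.d ω' (ε κ)) -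
          (F.d ω (ε k) - cv (ptr F J ω) - av (ptr F J ω) * F.d ω (ε κ))) := by ring
      rw [e1, abs_mul, abs_of_pos (by positivity : (0 : ℝ) < 2 ^ P)]
      refine mul_le_mul_of_nonneg_left ?_ (by positivity)
      refine (abs_sub _ _).trans ?_
      rw [hE₀]
      linarith) (fun ω hω => (hav ω hω).1) (by
      intro B₁ hB₁ hPB₁
      have hPB₁' : Pe F.p A / 2 ≤ Pe F.p B₁ := hPB₁
      have hB₁0 : 0 < Pe F.p B₁ := by linarith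
      obtain ⟨B', b1, b2, b3⟩ := nod_of (F := zmV F hP yy ε) (K + 2) (B := B₁) hB₁0 (κ := κ)
        (g := g) (Φ := phz F hP yy ε) (fun B₀ hB₀ hPB₀ => by
          refine hact B₀ (fun ω hω => hB₁ ω (hB₀ ω hω)) ?_
          have hPB₀' : Pe F.p B₁ / 2 < Pe F.p B₀ := hPB₀
          linarith)
      exact ⟨B', b1, b2, b3⟩)
  obtain ⟨B₁, hB₁A, hPB₁, hB₁⟩ := key
  have hPB₁' : Pe F.p A / 4 ≤ Pe F.p B₁ := hPB₁
  -- the slope in the family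
  have hcl : ∀ ω ω', slam F (B + w) ω = slam F (B + w) ω' →
      slam (zmV F hP yy ε) w ω = slam (zmV F hP yy ε) w ω' := fun ω ω' h =>
    Pool.GRW.zmV_of_slam F hP yy ε hB hw hyy h
  obtain ⟨th, hth⟩ : ∃ th : LnT F → ℝ, ∀ ω, th (slam F (B + w) ω) =
      slope κ w z₁' G₁ (slam (zmV F hP yy ε) w ω) := by
    refine ⟨fun s => if hs : ∃ ω, slam F (B + w) ω = s then
      slope κ w z₁' G₁ (slam (zmV F hP yy ε) w hs.choose) else 0, fun ω => ?_⟩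
    have hs : ∃ ω', slam F (B + w) ω' = slam F (B + w) ω := ⟨ω, rfl⟩
    simp only [dif_pos hs]
    rw [hcl _ _ hs.choose_spec]
  -- the total error
  obtain ⟨S, hS⟩ : ∃ S : ℝ, S = Real.exp (C * (θ + 1)) * 2 ^ w / 2 ^ P₁ +
      2 ^ (e + w) / 2 ^ (J - B - P) + 2 ^ P * (2 ^ w₂ / 2 ^ P₂ + 2 ^ (e + ρ₂) / 2 ^ J) := ⟨_, rfl⟩
  rw [← hS] at hM
  have hgK : (1 : ℝ) ≤ (2 ^ g) ^ (K + 1) := one_le_pow₀ (one_le_pow₀ (by norm_num))
  have hS0 : 0 ≤ S := by rw [hS]; positivity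
  have hE₀S : 2 ^ P * E₀ ≤ C₂ * S := by
    rw [hE₀, hS]
    have f1 : (0 : ℝ) ≤ Real.exp (C * (θ + 1)) * 2 ^ w / 2 ^ P₁ + 2 ^ (e + w) / 2 ^ (J - B - P) := by
      positivity
    have f2 : (0 : ℝ) ≤ 2 ^ P * (2 ^ w₂ / 2 ^ P₂) := by positivity
    have f3 : (0 : ℝ) ≤ C₂ * (Real.exp (C * (θ + 1)) * 2 ^ w / 2 ^ P₁ +
      2 ^ (e + w) / 2 ^ (J - B - P)) := by positivity
    have f4 : 1 * (2 ^ P * (2 ^ w₂ / 2 ^ P₂)) ≤ C₂ * (2 ^ P * (2 ^ w₂ / (2 : ℝ) ^ P₂)) :=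
      mul_le_mul_of_nonneg_right hC₂ f2
    rw [mul_add, mul_add, mul_add]
    nlinarith
  have hη : ∀ ω, B₁ ω → |th (slam F (B + w) ω) - av (ptr F J ω)| ≤ 1 / 2 ^ M := by
    intro ω hω
    rw [hth]
    refine (hB₁ ω hω).trans (le_trans ?_ hM)
    have f1 : (1 : ℝ) / (1 / 2 ^ g) = 2 ^ g := by rw [one_div_one_div]
    rw [f1]
    have f2 : Real.exp (C₁ * (θ + 1)) * 2 ^ w / 2 ^ P₁ + (1 + 2 ^ e) * (1 / 2 ^ (J - B - P)) * 2 ^ w +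
        2 ^ P * (2 * E₀) ≤ 4 * C₂ * S := by
      have g1 : Real.exp (C₁ * (θ + 1)) ≤ Real.exp (C * (θ + 1)) :=
        Real.exp_le_exp.2 (mul_le_mul_of_nonneg_right hC1 (by linarith))
      have g2 : Real.exp (C₁ * (θ + 1)) * 2 ^ w / 2 ^ P₁ ≤
          Real.exp (C * (θ + 1)) * 2 ^ w / 2 ^ P₁ :=
        div_le_div_of_nonneg_right (mul_le_mul_of_nonneg_right g1 (by positivity)) (by positivity)
      have g3 : (1 + 2 ^ e) * (1 / 2 ^ (J - B - P)) * 2 ^ w ≤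
          2 * ((2 : ℝ) ^ (e + w) / 2 ^ (J - B - P)) := by
        have g4 : (1 : ℝ) ≤ 2 ^ e := one_le_pow₀ (by norm_num)
        have g5 : (1 + (2 : ℝ) ^ e) * (1 / 2 ^ (J - B - P)) * 2 ^ w =
            (1 + 2 ^ e) * (2 ^ w / 2 ^ (J - B - P)) := by ring
        have g6 : 2 * ((2 : ℝ) ^ (e + w) / 2 ^ (J - B - P)) =
            (2 * 2 ^ e) * (2 ^ w / 2 ^ (J - B - P)) := by
          rw [pow_add]
          ring
        rw [g5, g6]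
        exact mul_le_mul_of_nonneg_right (by linarith) (by positivity)
      have g7 : Real.exp (C * (θ + 1)) * 2 ^ w / 2 ^ P₁ + 2 ^ (e + w) / 2 ^ (J - B - P) ≤ S := by
        rw [hS]
        have : (0 : ℝ) ≤ 2 ^ P * (2 ^ w₂ / 2 ^ P₂ + 2 ^ (e + ρ₂) / 2 ^ J) := by positivity
        linarith
      have g8 : (0 : ℝ) ≤ Real.exp (C * (θ + 1)) * 2 ^ w / 2 ^ P₁ := by positivity
      have g9 : S ≤ C₂ * S := le_mul_of_one_le_left hS0 hC₂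
      linarith
    have f3 : (0 : ℝ) ≤ C₁ * (2 ^ g) ^ (K + 1) := by positivity
    refine (mul_le_mul_of_nonneg_left f2 f3).trans ?_
    have f4 : C₁ * (2 ^ g) ^ (K + 1) * (4 * C₂ * S) = 4 * (C₁ * C₂) * ((2 ^ g) ^ (K + 1) * S) := by
      ring
    have f5 : C * (2 ^ g) ^ (K + 1) * S = C * ((2 ^ g) ^ (K + 1) * S) := by ring
    rw [f4, f5]
    exact mul_le_mul_of_nonneg_right hCC (by positivity)
  have hv : ∀ ω, B₁ ω → |F.d ω (ε k) - cv (ptr F J ω) - av (ptr F J ω) * F.d ω (ε κ)| ≤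
      1 / 2 ^ M := by
    intro ω hω
    refine (hav ω (hB₁A ω hω)).2.2.trans (le_trans ?_ hM)
    rw [← hE₀]
    have f1 : E₀ ≤ 2 ^ P * E₀ := le_mul_of_one_le_left hE₀0 (one_le_pow₀ (by norm_num))
    refine f1.trans (hE₀S.trans ?_)
    rw [mul_assoc]
    have f2 : S ≤ (2 ^ g) ^ (K + 1) * S := le_mul_of_one_le_left hS0 hgK
    exact mul_le_mul hC2 f2 hS0 (by linarith)
  obtain ⟨B', b1, b2, b3⟩ := lab_slp (F := F) (A := B₁) (y := ε κ) (v := ε k) (av := av) (cv := cv)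
    (th := th) (W := B + w) (M := M) (e := e) (P := Q) (by omega) hv
    (fun ω hω => ⟨(hav ω (hB₁A ω hω)).1, (hav ω (hB₁A ω hω)).2.1⟩) hη hMJ hQ
  refine ⟨B', fun ω hω => hB₁A ω (b1 ω hω), ?_, b3⟩
  have hp : 0 ≤ Pe F.p B' := Pe_nonneg F.isLaw B'
  have f1 : Pe F.p A ≤ 4 * (9 ^ 2 * 11) * Pe F.p B' := by linarith
  refine f1.trans (mul_le_mul_of_nonneg_right ?_ hp)
  rw [hC]
  linarith

end Pool.MIC6
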